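import Pool.Agent.H979.QIP.Mart

set_option autoImplicit false
set_option linter.unusedSectionVars false
set_option linter.deprecated false

open MeasureTheory ProbabilityTheory Filter Topology Set
open scoped ENNReal NNReal

/-!
# Forward and backward martingales for a symmetric kernel, both ends localised
-/

namespace Pool.Agent.H979.QIP

variable {X : Type*} [Countable X] [MeasurableSpace X] [MeasurableSingletonClass X]

theorem S_rev (f : X → X → ℝ) (N : ℕ) (w : ℕ → X) (l : ℕ) (hl : l ≤ N) :
    S f l (rev N w) = ∑ j ∈ Finset.Ico (N - l) N, f (w (j + 1)) (w j) := by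
  induction l with
  | zero => simp [S]
  | succ l ih =>
    have e1 : S f (l + 1) (rev N w) = S f l (rev N w) + f (w (N - l)) (w (N - (l + 1))) := by
      unfold S
      rw [Finset.sum_range_succ]
      rfl
    rw [e1, ih (by omega)]
    have e2 : N - l = (N - (l + 1)) + 1 := by omega
    rw [Finset.sum_eq_sum_Ico_succ_bot (show N - (l + 1) < N by omega), ← e2, add_comm]

theorem S_rev_sub (f : X → X → ℝ) (N : ℕ) (w : ℕ → X) (k : ℕ) (hk : k ≤ N) :
    S f N (rev N w) - S f (N - k) (rev N w) = ∑ j ∈ Finset.range k, f (w (j + 1)) (w j) := by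
  rw [S_rev f N w N le_rfl, S_rev f N w (N - k) (by omega), Nat.sub_self,
    show N - (N - k) = k by omega, ← Finset.sum_Ico_consecutive _ (Nat.zero_le k) hk,
    Finset.range_eq_Ico]
  ring

variable (q : X → Measure X) [∀ x, IsProbabilityMeasure (q x)]

/-- the centred function -/
noncomputable def cen (R : X → X → ℝ) : X → X → ℝ := fun x y => R x y - bm q R x

theorem decomp (R : X → X → ℝ) (hR : ∀ x y, R x y = - R y x) (N : ℕ) (w : ℕ → X) (k : ℕ)
    (hk : k ≤ N) :
    2 * S R k w = S (cen q R) k w - (S (cen q R) N (rev N w) - S (cen q R) (N - k) (rev N w)) +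
      bm q R (w 0) - bm q R (w k) := by
  rw [S_rev_sub (cen q R) N w k hk]
  unfold cen S
  have e1 : ∑ j ∈ Finset.range k, (R (w (j + 1)) (w j) - bm q R (w (j + 1))) =
      - ∑ j ∈ Finset.range k, R (w j) (w (j + 1)) - ∑ j ∈ Finset.range k, bm q R (w (j + 1)) := by
    rw [Finset.sum_sub_distrib]
    congr 1
    rw [← Finset.sum_neg_distrib]
    exact Finset.sum_congr rfl fun j _ => hR _ _
  have e2 := Finset.sum_range_succ (fun j => bm q R (w j)) k
  have e3 := Finset.sum_range_succ' (fun j => bm q R (w j)) k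
  rw [e1, Finset.sum_sub_distrib]
  linarith

theorem bm_cen {R : X → X → ℝ} {x : X} (h : V q R x ≠ ∞) : bm q (cen q R) x = 0 := by
  have hi : Integrable (R x) (q x) := (memLp_of_V q h).integrable (by norm_num)
  unfold bm cen
  rw [integral_sub hi (integrable_const _), integral_const]
  simp [bm]

theorem V_eq {R : X → X → ℝ} {x : X} (h : V q R x ≠ ∞) :
    V q R x = ENNReal.ofReal (∫ y, R x y ^ 2 ∂(q x)) := by
  unfold V
  rw [ofReal_integral_eq_lintegral_ofReal (memLp_of_V q h).integrable_sq
    (Eventually.of_forall fun y => sq_nonneg _)]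

theorem V_cen {R : X → X → ℝ} {x : X} (h : V q R x ≠ ∞) :
    V q (cen q R) x + ENNReal.ofReal (bm q R x ^ 2) = V q R x := by
  have hi : Integrable (R x) (q x) := (memLp_of_V q h).integrable (by norm_num)
  have hc : V q (cen q R) x ≠ ∞ := by
    have h1 : MemLp (cen q R x) 2 (q x) := (memLp_of_V q h).sub (memLp_const _)
    have := h1.integrable_sq.2
    rw [hasFiniteIntegral_iff_norm] at this
    unfold V
    refine ne_of_lt (lt_of_le_of_lt (lintegral_mono fun y => ?_) this)
    rw [Real.norm_eq_abs, abs_of_nonneg (sq_nonneg _)]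
  have h2 := lintegral_sq_add q hc (bm_cen q h) (bm q R x)
  rw [add_comm, ← h2]
  unfold V
  refine lintegral_congr fun y => ?_
  unfold cen
  congr 1
  ring

theorem V_cen_le {R : X → X → ℝ} {x : X} (h : V q R x ≠ ∞) : V q (cen q R) x ≤ V q R x := by
  rw [← V_cen q h]; exact le_self_add

theorem sq_bm_le {R : X → X → ℝ} {x : X} (h : V q R x ≠ ∞) :
    ENNReal.ofReal (bm q R x ^ 2) ≤ V q R x := by
  rw [← V_cen q h]; exact le_add_self

theorem det_bound {R : X → X → ℝ} (hR : ∀ x y, R x y = - R y x) (hV : ∀ x, V q R x ≠ ∞) {a : ℝ}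
    (ha : 0 < a) {v : ℝ≥0∞} (hv : v ≤ ENNReal.ofReal ((a / 4) ^ 2)) {N : ℕ} {w : ℕ → X}
    (h1 : ∀ k ≤ N, |S (cen q R) k w| ≤ a / 2) (h2 : ∀ k ≤ N, |S (cen q R) k (rev N w)| ≤ a / 2)
    (h3 : A (V q R) (N + 1) w ≤ v) {k : ℕ} (hk : k ≤ N) : |S R k w| ≤ a := by
  have hb : ∀ j ≤ N, |bm q R (w j)| ≤ a / 4 := by
    intro j hj
    have e1 : ENNReal.ofReal (bm q R (w j) ^ 2) ≤ ENNReal.ofReal ((a / 4) ^ 2) := by
      refine (sq_bm_le q (hV (w j))).trans (le_trans ?_ (h3.trans hv))
      unfold A
      exact Finset.single_le_sum (f := fun j => V q R (w j)) (fun _ _ => zero_le)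
        (Finset.mem_range.2 (by omega))
    rw [ENNReal.ofReal_le_ofReal_iff (by positivity)] at e1
    exact abs_le_of_sq_le_sq e1 (by positivity)
  have e := decomp q R hR N w k hk
  have b1 := abs_le.1 (h1 k hk)
  have b2 := abs_le.1 (h2 N le_rfl)
  have b3 := abs_le.1 (h2 (N - k) (by omega))
  have b4 := abs_le.1 (hb 0 (by omega))
  have b5 := abs_le.1 (hb k hk)
  rw [abs_le]
  constructor <;> linarith

open Classical in
/-- **both ends localised** -/
theorem lz (hq : ∀ x y, q x {y} = q y {x}) {R : X → X → ℝ} (hR : ∀ x y, R x y = - R y x)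
    (hV : ∀ x, V q R x ≠ ∞) {a : ℝ} (ha : 0 < a) {v : ℝ≥0∞}
    (hv : v ≤ ENNReal.ofReal ((a / 4) ^ 2)) (N : ℕ) (B : Set X) :
    ∑' x, B.indicator (fun x => P q x {w | w N ∈ B ∧ ∃ k ≤ N, a < |S R k w|}) x ≤
      ∑' x, B.indicator (fun x => 2 * (v / ENNReal.ofReal ((a / 2) ^ 2)) +
        3 * P q x {w | v < A (V q R) (N + 1) w}) x := by
  set E1 : Set (ℕ → X) := {w | ∃ k ≤ N, a / 2 < |0 + S (cen q R) k w|} with hE1
  set E2 : Set (ℕ → X) := {w | v < A (V q R) (N + 1) w} with hE2
  have hVc : ∀ x, V q (cen q R) x ≠ ∞ := fun x =>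
    ne_top_of_le_ne_top (hV x) (V_cen_le q (hV x))
  have hD1 : Dep N (fun w => w ∈ E1) := by
    intro w w' hw
    simp only [hE1, mem_setOf_eq, eq_iff_iff]
    constructor
    · rintro ⟨k, hk, h⟩; exact ⟨k, hk, by rwa [← dep_S (cen q R) hk w w' hw]⟩
    · rintro ⟨k, hk, h⟩; exact ⟨k, hk, by rwa [dep_S (cen q R) hk w w' hw]⟩
  have hm1 : MeasurableSet E1 := hD1.measurableSet
  have hm2 : MeasurableSet E2 := measurableSet_lt measurable_const (dep_A _ le_rfl).measurable
  -- bound for `E1`
  have bE1 : ∀ x, P q x E1 ≤ v / ENNReal.ofReal ((a / 2) ^ 2) + P q x E2 := by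
    intro x
    refine (lenglart q hVc (fun x => bm_cen q (hV x)) (half_pos ha) N x 0 v).trans ?_
    have : ENNReal.ofReal ((0 : ℝ) ^ 2) + v = v := by simp
    rw [this]
    refine add_le_add le_rfl (measure_mono fun w hw => ?_)
    simp only [mem_setOf_eq, hE2] at hw ⊢
    refine hw.trans_le ?_
    unfold A
    rw [Finset.sum_range_succ]
    refine le_trans (Finset.sum_le_sum fun j _ => V_cen_le q (hV (w j))) le_self_add
  -- the function which is reversed
  set F : (ℕ → X) → ℝ≥0∞ := fun w =>
    B.indicator 1 (w 0) * B.indicator 1 (w N) * E1.indicator 1 w with hF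
  have hDF : Dep N F := by
    intro w w' hw
    simp only [hF]
    rw [hw 0 (Nat.zero_le _), hw N le_rfl]
    congr 1
    have : (w ∈ E1) = (w' ∈ E1) := hD1 w w' hw
    by_cases h : w ∈ E1
    · rw [indicator_of_mem h, indicator_of_mem (this ▸ h)]; rfl
    · rw [indicator_of_notMem h, indicator_of_notMem (this ▸ h)]
  have hrev := reversal q hq hDF
  -- decomposition of the event
  have step : ∀ x, B.indicator (fun x => P q x {w | w N ∈ B ∧ ∃ k ≤ N, a < |S R k w|}) x ≤
      B.indicator (fun x => P q x E1 + P q x E2) x + ∫⁻ w, F (rev N w) ∂(P q x) := by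
    intro x
    by_cases hx : x ∈ B
    · rw [indicator_of_mem hx, indicator_of_mem hx]
      have hmr : MeasurableSet {w : ℕ → X | w N ∈ B ∧ rev N w ∈ E1} := by
        have hD : Dep N (fun w => w ∈ {w : ℕ → X | w N ∈ B ∧ rev N w ∈ E1}) := by
          intro w w' hw
          simp only [mem_setOf_eq]
          rw [hw N le_rfl]
          have : (rev N w ∈ E1) = (rev N w' ∈ E1) :=
            hD1 _ _ fun k hk => by unfold rev; exact hw _ (by omega)
          rw [this]
        exact hD.measurableSet
      have e1 : P q x {w | w N ∈ B ∧ ∃ k ≤ N, a < |S R k w|} ≤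
          P q x (E1 ∪ E2 ∪ {w | w N ∈ B ∧ rev N w ∈ E1}) := by
        refine measure_mono fun w hw => ?_
        by_contra hcon
        simp only [mem_union, mem_setOf_eq, not_or, not_and, hE1, hE2, not_lt, not_exists,
          zero_add] at hcon hw
        obtain ⟨hwB, k, hk, hk'⟩ := hw
        refine absurd (det_bound q hR hV ha hv (N := N) (w := w) (fun k hk => hcon.1.1 k hk)
          (fun k hk => hcon.2 hwB k hk) hcon.1.2 hk) (not_le.2 hk')
      have e2 : P q x {w | w N ∈ B ∧ rev N w ∈ E1} = ∫⁻ w, F (rev N w) ∂(P q x) := by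
        rw [← lintegral_indicator_one hmr]
        refine lintegral_congr_ae ?_
        filter_upwards [P_zero q x] with w hw
        have hN0 : rev N w N = w 0 := by unfold rev; rw [Nat.sub_self]
        have h0N : rev N w 0 = w N := by unfold rev; rw [Nat.sub_zero]
        simp only [hF, hN0, h0N, hw]
        by_cases h1 : w N ∈ B
        · by_cases h2 : rev N w ∈ E1
          · simp [h1, h2, hx, indicator]
          · simp [h1, h2, hx, indicator]
        · simp [h1, indicator]
      rw [← e2]
      refine e1.trans ((measure_union_le _ _).trans ?_)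
      gcongr
      exact measure_union_le _ _
    · rw [indicator_of_notMem hx, indicator_of_notMem hx]
      exact zero_le
  refine (ENNReal.tsum_le_tsum step).trans ?_
  rw [ENNReal.tsum_add, hrev, ← ENNReal.tsum_add]
  refine ENNReal.tsum_le_tsum fun x => ?_
  have hF1 : ∫⁻ w, F w ∂(P q x) ≤ B.indicator (fun x => P q x E1) x := by
    by_cases hx : x ∈ B
    · rw [indicator_of_mem hx, ← lintegral_indicator_one hm1]
      refine lintegral_mono fun w => ?_
      simp only [hF]
      have h1 : ∀ y, B.indicator (1 : X → ℝ≥0∞) y ≤ 1 := fun y => indicator_le_self' (by simp) y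
      calc _ ≤ 1 * 1 * E1.indicator (1 : (ℕ → X) → ℝ≥0∞) w := by
            gcongr
            · exact h1 _
            · exact h1 _
        _ = _ := by rw [one_mul, one_mul]
    · rw [indicator_of_notMem hx]
      refine le_of_eq ?_
      rw [lintegral_eq_zero_iff' hDF.measurable.aemeasurable]
      filter_upwards [P_zero q x] with w hw
      simp [hF, hw, hx]
  refine (add_le_add le_rfl hF1).trans ?_
  by_cases hx : x ∈ B
  · rw [indicator_of_mem hx, indicator_of_mem hx, indicator_of_mem hx]
    have := bE1 x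
    calc P q x E1 + P q x E2 + P q x E1 ≤
        (v / ENNReal.ofReal ((a / 2) ^ 2) + P q x E2) + P q x E2 +
        (v / ENNReal.ofReal ((a / 2) ^ 2) + P q x E2) := by gcongr
      _ = _ := by ring
  · rw [indicator_of_notMem hx, indicator_of_notMem hx, indicator_of_notMem hx]
    simp

end Pool.Agent.H979.QIP
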