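import Pool.Agent.H979.QIP.Modu

set_option autoImplicit false
set_option linter.unusedSectionVars false
set_option linter.deprecated false
set_option linter.unusedVariables false
set_option linter.style.haveILetI false

open MeasureTheory ProbabilityTheory Filter Topology Set
open scoped ENNReal NNReal InnerProductSpace

/-!
# Modulus of continuity of the martingale, in the environment
-/

namespace Pool.Agent.H979.QIP

variable {Ω : Type*} [MeasurableSpace Ω] {d : ℕ} {μ : Measure Ω} {τ : Vd d → Ω → Ω}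
  {q : Ω → Vd d → ℝ≥0∞}

theorem exists_m (ε s η : ℝ) (hε : 0 < ε) (hη : 0 < η) :
    ∃ m : ℕ, 1 ≤ m ∧ (m : ℝ) ^ 2 * (2 * Real.exp (-(m * (ε / 3)) + s)) ≤ η := by
  have h1 := Real.tendsto_pow_mul_exp_neg_atTop_nhds_zero 2
  have h2 : Tendsto (fun m : ℕ => (m : ℝ) * (ε / 3)) atTop atTop :=
    tendsto_natCast_atTop_atTop.atTop_mul_const (by positivity)
  have h3 := (h1.comp h2).const_mul ((9 / ε ^ 2) * (2 * Real.exp s))
  rw [mul_zero] at h3
  obtain ⟨m, hm1, hm2⟩ := (((tendsto_order.1 h3).2 η hη).and (eventually_ge_atTop 1)).exists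
  refine ⟨m, hm2, le_trans (le_of_eq ?_) hm1.le⟩
  simp only [Function.comp]
  rw [Real.exp_add]
  field_simp
  norm_num

theorem modu_bdd (h : Sta μ τ) (hq : Ker τ q) {ω : Ω} {ξ : Ω → Vd d → ℝ} {M : ℝ}
    (hM : ∀ ω y, |ξ ω y| ≤ M) (h0 : ∀ ω, ∫ y, ξ ω y ∂(qM τ q ω 0) = 0) {s : ℝ}
    (hQ : QA τ q hq ω (fun ω => ∫ y, ξ ω y * ξ ω y ∂(qM τ q ω 0)) s) {ε η : ℝ}
    (hε : 0 < ε) (hη : 0 < η) :
    haveI := qM_prob hq ω
    ∃ δ : ℝ, 0 < δ ∧ ∀ᶠ n : ℕ in atTop, P (qM τ q ω) 0 {w | ∃ j k, j ≤ k ∧ k ≤ n ∧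
      ((k : ℝ) - j) ≤ δ * n ∧ ε * √n < |S (fx τ ξ ω) j w - S (fx τ ξ ω) k w|} ≤
      ENNReal.ofReal η := by
  haveI := qM_prob hq ω
  obtain ⟨m, hm1, hm⟩ := exists_m ε (|s| + 1) (η / 2) hε (by positivity)
  set b : ℕ := m ^ 2 with hb
  have hb1 : 1 ≤ b := Nat.one_le_pow _ _ hm1
  have hb0 : (0 : ℝ) < b := by exact_mod_cast hb1
  have hm0 : (0 : ℝ) < m := by exact_mod_cast hm1
  set g : Ω → ℝ := fun ω => ∫ y, ξ ω y * ξ ω y ∂(qM τ q ω 0) with hg
  have hM0 : 0 ≤ M := (abs_nonneg _).trans (hM ω 0)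
  -- averages over the blocks
  have hav : ∀ᶠ n : ℕ in atTop, ∀ i ∈ Finset.range (b + 1), ∫⁻ w, ENNReal.ofReal
      |(∑ k ∈ Finset.range ⌊(i : ℝ) / b * n⌋₊, g (τ (w k) ω)) / n - (i : ℝ) / b * s|
        ∂(P (qM τ q ω) 0) ≤ ENNReal.ofReal (η / (4 * b ^ 2)) := by
    rw [Finset.eventually_all]
    intro i hi
    have h1 := hQ.time (t := (i : ℝ) / b) (by positivity)
    exact (tendsto_order.1 h1).2 _ (ENNReal.ofReal_pos.2 (by positivity)) |>.mono fun n hn => hn.le
  refine ⟨1 / (2 * b), by positivity, ?_⟩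
  have hlarge : ∀ᶠ n : ℕ in atTop, m * M ≤ √(n : ℝ) :=
    (Real.tendsto_sqrt_atTop.comp tendsto_natCast_atTop_atTop).eventually_ge_atTop _
  filter_upwards [hav, hlarge, eventually_ge_atTop 1, eventually_ge_atTop (2 * b)] with n hn1 hn2 hn3 hn4
  have hn0 : (0 : ℝ) < n := by exact_mod_cast hn3
  have hsn : 0 < √(n : ℝ) := Real.sqrt_pos.2 hn0
  set T : ℕ → ℕ := fun i => ⌊(i : ℝ) / b * n⌋₊ with hT
  have hTb : T b = n := by
    simp only [hT]
    rw [div_self hb0.ne', one_mul, Nat.floor_natCast]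
  have hT0 : T 0 = 0 := by simp [hT]
  set E : ℕ → Set (ℕ → Vd d) := fun i => {w | ∃ k, T i ≤ k ∧ k ≤ T (i + 1) ∧
    ε / 3 * √n < |S (fx τ ξ ω) k w - S (fx τ ξ ω) (T i) w|} with hE
  have hsub : {w : ℕ → Vd d | ∃ j k, j ≤ k ∧ k ≤ n ∧
      ((k : ℝ) - j) ≤ 1 / (2 * b) * n ∧ ε * √n < |S (fx τ ξ ω) j w - S (fx τ ξ ω) k w|} ⊆
      ⋃ i ∈ Finset.range b, E i := by
    rintro w ⟨j, k, hjk, hkn, hd, hw⟩
    by_contra hcon
    simp only [mem_iUnion, not_exists, Finset.mem_range, hE, mem_setOf_eq, not_and, not_lt] at hcon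
    have := blocks (f := fun k => S (fx τ ξ ω) k w) (T := T) (b := b) (n := n)
      (r := ε / 3 * √n) (by positivity) hT0 hTb (fun i hi l h1 h2 => hcon i hi l h1 h2) hjk hkn ?_
    · have e1 : 3 * (ε / 3 * √(n : ℝ)) = ε * √n := by ring
      rw [e1] at this
      exact absurd hw (not_lt.2 this)
    · intro i hi
      have h1 : (T i : ℝ) ≤ (i : ℝ) / b * n := Nat.floor_le (by positivity)
      have h2 : ((i + 1 : ℕ) : ℝ) / b * n < T (i + 1) + 1 := Nat.lt_floor_add_one _
      have h3 : (k : ℝ) - j < T (i + 1) - T i := by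
        have h4 : ((i + 1 : ℕ) : ℝ) / b * n = (i : ℝ) / b * n + n / b := by
          push_cast; field_simp
        have h5 : (2 * b : ℝ) ≤ n := by exact_mod_cast hn4
        have h6 : 1 / (2 * (b : ℝ)) * n ≤ n / b - 1 := by
          rw [div_mul_eq_mul_div, one_mul, div_le_iff₀ (by positivity)]
          have : (n / (b : ℝ) - 1) * (2 * b) = 2 * n - 2 * b := by field_simp
          rw [this]
          linarith
        linarith
      have h7 : T i ≤ T (i + 1) := by
        refine Nat.floor_le_floor ?_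
        gcongr
        simp
      have h8 : ((k - j : ℕ) : ℝ) < ((T (i + 1) - T i : ℕ) : ℝ) := by
        rw [Nat.cast_sub hjk, Nat.cast_sub h7]
        exact h3
      exact_mod_cast h8.le
  refine (measure_mono hsub).trans ((measure_biUnion_finset_le _ _).trans ?_)
  have hbd : ∀ x y, |fx τ ξ ω x y| ≤ M := fun x y => hM _ _
  have hmean : ∀ x, bm (qM τ q ω) (fx τ ξ ω) x = 0 := by
    intro x
    unfold bm
    rw [integral_qM h]
    unfold fx
    simp only [add_sub_cancel_left]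
    exact h0 _
  have hvar : ∀ x, ∫ y, fx τ ξ ω x y ^ 2 ∂(qM τ q ω x) = g (τ x ω) := by
    intro x
    rw [integral_qM h]
    unfold fx
    simp only [add_sub_cancel_left, hg, sq]
  set v : ℝ := n * (|s| + 1) / b with hv
  have hblock : ∀ i ∈ Finset.range b, P (qM τ q ω) 0 (E i) ≤
      ENNReal.ofReal ((2 * Real.exp (-(m * (ε / 3)) + (|s| + 1))) + η / (2 * b)) := by
    intro i hi
    have hi' := Finset.mem_range.1 hi
    have h1 := block_bound (qM τ q ω) hbd hmean (l := m / √n) (by positivity)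
      (by rw [div_mul_eq_mul_div, div_le_one hsn]; exact hn2) (ε / 3 * √n) v (T i) (T (i + 1)) 0
    refine h1.trans ?_
    rw [ENNReal.ofReal_add (by positivity) (by positivity)]
    refine add_le_add ?_ ?_
    · have e1 : -(m / √(n : ℝ) * (ε / 3 * √n)) + (m / √(n : ℝ)) ^ 2 * v = -(m * (ε / 3)) + (|s| + 1) := by
        rw [div_pow, Real.sq_sqrt hn0.le, hv, hb]
        push_cast
        field_simp
      rw [e1, ENNReal.ofReal_mul (by norm_num)]
      simp
    · simp_rw [hvar]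
      obtain ⟨F, hFdef⟩ : ∃ F : Set (ℕ → Vd d), F = {w : ℕ → Vd d | v < ∑ j ∈ Finset.Ico (T i)
          (T (i + 1)), g (τ (w j) ω)} := ⟨_, rfl⟩
      have key : ∀ w : ℕ → Vd d, F.indicator (1 : (ℕ → Vd d) → ℝ≥0∞) w ≤ ENNReal.ofReal b *
          (ENNReal.ofReal |(∑ k ∈ Finset.range (T (i + 1)), g (τ (w k) ω)) / n -
            ((i + 1 : ℕ) : ℝ) / b * s| +
          ENNReal.ofReal |(∑ k ∈ Finset.range (T i), g (τ (w k) ω)) / n - (i : ℝ) / b * s|) := by
        intro w
        by_cases hwF : w ∈ F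
        · have hw : v < ∑ j ∈ Finset.Ico (T i) (T (i + 1)), g (τ (w j) ω) := by
            rw [hFdef] at hwF; exact hwF
          rw [indicator_of_mem hwF]
          rw [← ENNReal.ofReal_add (abs_nonneg _) (abs_nonneg _), ← ENNReal.ofReal_mul hb0.le,
            Pi.one_apply, ← ENNReal.ofReal_one]
          refine ENNReal.ofReal_le_ofReal ?_
          have h7 : T i ≤ T (i + 1) := by
            refine Nat.floor_le_floor ?_
            gcongr
            simp
          have e2 := Finset.sum_range_add_sum_Ico (fun j => g (τ (w j) ω)) h7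
          set a1 := ∑ k ∈ Finset.range (T (i + 1)), g (τ (w k) ω) with ha1
          set a0 := ∑ k ∈ Finset.range (T i), g (τ (w k) ω) with ha0
          have h8 : v < a1 - a0 := by linarith
          have h9 : (a1 - a0) / n - s / b = (a1 / n - ((i + 1 : ℕ) : ℝ) / b * s) - (a0 / n - (i : ℝ) / b * s) := by
            push_cast; field_simp; ring
          have h10 : (|s| + 1) / b < (a1 - a0) / n := by
            rw [lt_div_iff₀ hn0]
            calc (|s| + 1) / b * n = v := by rw [hv]; ring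
              _ < _ := h8
          have h11 : 1 / (b : ℝ) ≤ (a1 - a0) / n - s / b := by
            have : s / b ≤ |s| / b := div_le_div_of_nonneg_right (le_abs_self s) hb0.le
            rw [add_div] at h10
            linarith
          have h12 : 1 / (b : ℝ) ≤ |a1 / n - ((i + 1 : ℕ) : ℝ) / b * s| + |a0 / n - (i : ℝ) / b * s| := by
            rw [h9] at h11
            exact h11.trans ((le_abs_self _).trans (abs_sub _ _))
          rw [div_le_iff₀ hb0, mul_comm] at h12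
          exact h12
        · rw [indicator_of_notMem hwF]
          exact zero_le
      have hmE : MeasurableSet F := by
        rw [hFdef]
        refine measurableSet_lt measurable_const (Finset.measurable_sum _ fun j _ => ?_)
        exact (measurable_of_countable (fun x => g (τ x ω))).comp (measurable_pi_apply j)
      rw [← hFdef, ← lintegral_indicator_one hmE]
      refine (lintegral_mono key).trans ?_
      rw [lintegral_const_mul' _ _ ENNReal.ofReal_ne_top, lintegral_add_left]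
      · refine (mul_le_mul' le_rfl (add_le_add (hn1 (i + 1) (by simp; omega)) (hn1 i (by simp; omega)))).trans ?_
        rw [← ENNReal.ofReal_add (by positivity) (by positivity), ← ENNReal.ofReal_mul hb0.le]
        refine ENNReal.ofReal_le_ofReal (le_of_eq ?_)
        field_simp
        ring
      · refine (((Finset.measurable_sum _ fun j _ => ?_).div_const _).sub_const _).abs.ennreal_ofReal
        exact (measurable_of_countable (fun x => g (τ x ω))).comp (measurable_pi_apply j)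
  refine (Finset.sum_le_sum hblock).trans ?_
  rw [Finset.sum_const, Finset.card_range, nsmul_eq_mul]
  have e3 : (b : ℝ≥0∞) = ENNReal.ofReal b := by simp
  rw [e3, ← ENNReal.ofReal_mul hb0.le]
  refine ENNReal.ofReal_le_ofReal ?_
  have e4 : (b : ℝ) = (m : ℝ) ^ 2 := by rw [hb]; push_cast; ring
  rw [mul_add]
  have e5 : (b : ℝ) * (η / (2 * b)) = η / 2 := by field_simp
  rw [e5, e4]
  linarith

theorem Fine.modu (h : Sta μ τ) {hq : Ker τ q} {ω : Ω} {G : Fin d → Ω → Vd d → ℝ}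
    {c : Fin d → Fin d → ℝ} {cL : ℕ → Fin d → Fin d → ℝ} {ρ : ℕ → Fin d → ℝ}
    (hF : Fine τ q hq ω G c cL ρ) (a : Fin d) {ε η : ℝ} (hε : 0 < ε) (hη : 0 < η) :
    haveI := qM_prob hq ω
    ∃ δ : ℝ, 0 < δ ∧ ∀ᶠ n : ℕ in atTop, P (qM τ q ω) 0 {w | ∃ j k, j ≤ k ∧ k ≤ n ∧
      ((k : ℝ) - j) ≤ δ * n ∧ ε * √n < |S (fx τ (G a) ω) j w - S (fx τ (G a) ω) k w|} ≤
      ENNReal.ofReal η := by
  haveI := qM_prob hq ω
  -- choice of the truncation level
  obtain ⟨L, hL⟩ : ∃ L : ℕ, (1 : ℝ) * ρ L a < (ε / 4) ^ 2 * (η / 2) :=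
    ((tendsto_order.1 (hF.lr a)).2 ((ε / 4) ^ 2 * (η / 2)) (by positivity)).exists.imp
      fun L hL => by rwa [one_mul]
  obtain ⟨δ, hδ, hev⟩ := modu_bdd h hq (ω := ω) (ξ := trc τ q L (G a)) (M := 2 * L)
    (trc_bdd hq L (G a)) (trc_mean hq L (G a)) (hF.qc L a a) (ε := ε / 2) (η := η / 2)
    (by positivity) (by positivity)
  refine ⟨δ, hδ, ?_⟩
  filter_upwards [hev, avg_V h hq (fun x => hF.finr L a x) (hF.qr L a) zero_le_one hL,
    eventually_ge_atTop 1] with n hn1 hn2 hn3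
  have hn0 : (0 : ℝ) < n := by exact_mod_cast hn3
  have hsn : 0 < √(n : ℝ) := Real.sqrt_pos.2 hn0
  rw [one_mul, Nat.floor_natCast] at hn2
  have hV : ∀ x, V (qM τ q ω) (fx τ (trr L (G a)) ω) x ≠ ∞ := fun x => by
    rw [V_fx]; exact hF.finr L a x
  have hVc : ∀ x, V (qM τ q ω) (cen (qM τ q ω) (fx τ (trr L (G a)) ω)) x ≠ ∞ := fun x =>
    ne_top_of_le_ne_top (hV x) (V_cen_le (qM τ q ω) (hV x))
  have hk := kolmogorov (qM τ q ω) hVc (fun x => bm_cen (qM τ q ω) (hV x))
    (r := ε / 4 * √n) (by positivity) n 0 0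
  have hk2 : P (qM τ q ω) 0 {w | ∃ k ≤ n, ε / 4 * √n <
      |0 + S (cen (qM τ q ω) (fx τ (trr L (G a)) ω)) k w|} ≤ ENNReal.ofReal (η / 2) := by
    refine hk.trans ?_
    simp only [ne_eq, OfNat.ofNat_ne_zero, not_false_eq_true, zero_pow, ENNReal.ofReal_zero, zero_add]
    have h1 : ∫⁻ w, A (V (qM τ q ω) (cen (qM τ q ω) (fx τ (trr L (G a)) ω))) n w
        ∂(P (qM τ q ω) 0) ≤ ENNReal.ofReal ((ε / 4) ^ 2 * (η / 2) * n) := by
      refine (lintegral_mono fun w => ?_).trans hn2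
      unfold A
      exact Finset.sum_le_sum fun k _ => V_cen_le (qM τ q ω) (hV _)
    refine (ENNReal.div_le_div_right h1 _).trans ?_
    rw [← ENNReal.ofReal_div_of_pos (by positivity)]
    refine ENNReal.ofReal_le_ofReal (le_of_eq ?_)
    rw [mul_pow, Real.sq_sqrt hn0.le]
    field_simp
  have hsub : {w : ℕ → Vd d | ∃ j k, j ≤ k ∧ k ≤ n ∧
      ((k : ℝ) - j) ≤ δ * n ∧ ε * √n < |S (fx τ (G a) ω) j w - S (fx τ (G a) ω) k w|} ⊆
      {w | ∃ j k, j ≤ k ∧ k ≤ n ∧ ((k : ℝ) - j) ≤ δ * n ∧ ε / 2 * √n <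
        |S (fx τ (trc τ q L (G a)) ω) j w - S (fx τ (trc τ q L (G a)) ω) k w|} ∪
      {w | ∃ k ≤ n, ε / 4 * √n < |0 + S (cen (qM τ q ω) (fx τ (trr L (G a)) ω)) k w|} := by
    rintro w ⟨j, k, hjk, hkn, hd, hw⟩
    by_contra hcon
    simp only [mem_union, mem_setOf_eq, not_or, not_exists, not_and, not_lt, zero_add] at hcon
    obtain ⟨h1, h2⟩ := hcon
    have a1 := h1 j k hjk hkn hd
    have a2 := h2 j (hjk.trans hkn)
    have a3 := h2 k hkn
    rw [hF.split h L a j, hF.split h L a k] at hw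
    set s1 := S (fx τ (trc τ q L (G a)) ω) j w
    set s2 := S (fx τ (trc τ q L (G a)) ω) k w
    set r1 := S (cen (qM τ q ω) (fx τ (trr L (G a)) ω)) j w
    set r2 := S (cen (qM τ q ω) (fx τ (trr L (G a)) ω)) k w
    have a4 : |s1 + r1 - (s2 + r2)| ≤ |s1 - s2| + (|r1| + |r2|) := by
      have : s1 + r1 - (s2 + r2) = (s1 - s2) + (r1 - r2) := by ring
      rw [this]
      exact (abs_add_le _ _).trans (add_le_add le_rfl (abs_sub _ _))
    have : ε / 2 * √(n : ℝ) + (ε / 4 * √n + ε / 4 * √n) = ε * √n := by ring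
    linarith
  refine (measure_mono hsub).trans ((measure_union_le _ _).trans ?_)
  refine (add_le_add hn1 hk2).trans (le_of_eq ?_)
  rw [← ENNReal.ofReal_add (by positivity) (by positivity), add_halves]

end Pool.Agent.H979.QIP
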