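import Pool.Agent.H979.QIP.Func

set_option autoImplicit false
set_option linter.unusedSectionVars false
set_option linter.deprecated false
set_option linter.unusedVariables false
set_option linter.style.haveILetI false

open MeasureTheory ProbabilityTheory Filter Topology Set
open scoped ENNReal NNReal

/-!
# Functional convergence from the finite dimensional laws and the modulus of continuity
-/

namespace Pool.Agent.H979.QIP

section

variable {A B : Type*} [MeasurableSpace A] [MeasurableSpace B] (PA : Measure A)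
  [IsProbabilityMeasure PA] (PB : Measure B) [IsProbabilityMeasure PB] {d : ℕ}

/-- convergence in law in finite dimension, from the characteristic functions -/
theorem fdd_conv (m : ℕ) (XA : ℕ → A → Fin m → Fin d → ℝ) (XB : B → Fin m → Fin d → ℝ)
    (hmA : ∀ n, Measurable (XA n)) (hmB : Measurable XB)
    (h : ∀ u : Fin m → Fin d → ℝ, Tendsto (fun n => ∫ w, Complex.exp (Complex.I *
      ((∑ j, ∑ a, u j a * XA n w j a : ℝ) : ℂ)) ∂PA) atTop (𝓝 (∫ w, Complex.exp (Complex.I *
      ((∑ j, ∑ a, u j a * XB w j a : ℝ) : ℂ)) ∂PB)))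
    (g : (Fin m → Fin d → ℝ) → ℝ) (hg : Continuous g) (C : ℝ) (hb : ∀ x, |g x| ≤ C) :
    Tendsto (fun n => ∫ w, g (XA n w) ∂PA) atTop (𝓝 (∫ w, g (XB w) ∂PB)) := by
  classical
  let E := EuclideanSpace ℝ (Fin m × Fin d)
  let φ : (Fin m → Fin d → ℝ) → E := fun x => WithLp.toLp 2 (fun p => x p.1 p.2)
  have hφ : Continuous φ := by
    refine (PiLp.continuous_toLp 2 _).comp ?_
    exact continuous_pi fun p => (continuous_apply p.2).comp (continuous_apply p.1)
  have hφm : Measurable φ := hφ.measurable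
  let ψ : E → (Fin m → Fin d → ℝ) := fun x j a => x (j, a)
  have hψ : Continuous ψ := by
    refine continuous_pi fun j => continuous_pi fun a => ?_
    exact (continuous_apply (j, a)).comp (PiLp.continuous_ofLp 2 _)
  have hψφ : ∀ x, ψ (φ x) = x := fun x => rfl
  have mA : ∀ n, AEMeasurable (fun w => φ (XA n w)) PA := fun n =>
    (hφm.comp (hmA n)).aemeasurable
  have mB : AEMeasurable (fun w => φ (XB w)) PB := (hφm.comp hmB).aemeasurable
  have iA : ∀ n, IsProbabilityMeasure (PA.map (fun w => φ (XA n w))) := fun n =>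
    Measure.isProbabilityMeasure_map (hφm.comp (hmA n)).aemeasurable
  have iB : IsProbabilityMeasure (PB.map (fun w => φ (XB w))) :=
    Measure.isProbabilityMeasure_map (hφm.comp hmB).aemeasurable
  let μ : ℕ → ProbabilityMeasure E := fun n => ⟨PA.map (fun w => φ (XA n w)), iA n⟩
  let μ₀ : ProbabilityMeasure E := ⟨PB.map (fun w => φ (XB w)), iB⟩
  have hin : ∀ (x : Fin m → Fin d → ℝ) (t : E),
      ((inner ℝ (φ x) t : ℝ) : ℂ) * Complex.I =
        Complex.I * ((∑ j, ∑ a, (ψ t) j a * x j a : ℝ) : ℂ) := by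
    intro x t
    rw [mul_comm]
    congr 2
    rw [PiLp.inner_apply, Fintype.sum_prod_type]
    refine Finset.sum_congr rfl fun j _ => Finset.sum_congr rfl fun a _ => ?_
    simp [φ, ψ, mul_comm]
  have hlim : Tendsto μ atTop (𝓝 μ₀) := by
    refine ProbabilityMeasure.tendsto_of_tendsto_charFun fun t => ?_
    have e1 : ∀ n, charFun ((μ n : Measure E)) t = ∫ w, Complex.exp (Complex.I *
        ((∑ j, ∑ a, (ψ t) j a * XA n w j a : ℝ) : ℂ)) ∂PA := by
      intro n
      rw [charFun_apply]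
      show ∫ x, _ ∂(PA.map (fun w => φ (XA n w))) = _
      rw [integral_map (mA n)]
      · exact integral_congr_ae (Eventually.of_forall fun w => by simp only [hin])
      · refine Continuous.aestronglyMeasurable ?_
        fun_prop
    have e2 : charFun ((μ₀ : Measure E)) t = ∫ w, Complex.exp (Complex.I *
        ((∑ j, ∑ a, (ψ t) j a * XB w j a : ℝ) : ℂ)) ∂PB := by
      rw [charFun_apply]
      show ∫ x, _ ∂(PB.map (fun w => φ (XB w))) = _
      rw [integral_map mB]
      · exact integral_congr_ae (Eventually.of_forall fun w => by simp only [hin])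
      · refine Continuous.aestronglyMeasurable ?_
        fun_prop
    simp only [e1, e2]
    exact h (ψ t)
  rw [ProbabilityMeasure.tendsto_iff_forall_integral_tendsto] at hlim
  have h1 := hlim (BoundedContinuousFunction.ofNormedAddCommGroup (fun x => g (ψ x))
    (hg.comp hψ) C (fun x => by rw [Real.norm_eq_abs]; exact hb _))
  have e1 : ∀ n, ∫ x, (BoundedContinuousFunction.ofNormedAddCommGroup (fun x => g (ψ x))
    (hg.comp hψ) C (fun x => by rw [Real.norm_eq_abs]; exact hb _)) x ∂(μ n : Measure E) =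
      ∫ w, g (XA n w) ∂PA := by
    intro n
    show ∫ x, g (ψ x) ∂(PA.map (fun w => φ (XA n w))) = _
    exact integral_map (mA n) (hg.comp hψ).aestronglyMeasurable
  have e2 : ∫ x, (BoundedContinuousFunction.ofNormedAddCommGroup (fun x => g (ψ x))
    (hg.comp hψ) C (fun x => by rw [Real.norm_eq_abs]; exact hb _)) x ∂(μ₀ : Measure E) =
      ∫ w, g (XB w) ∂PB := by
    show ∫ x, g (ψ x) ∂(PB.map (fun w => φ (XB w))) = _
    exact integral_map mB (hg.comp hψ).aestronglyMeasurable
  simp only [e1, e2] at h1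
  exact h1

variable {T : ℝ}

theorem measurable_Ip {n : A → ℝ → Fin d → ℝ} (hn : ∀ t, Measurable (fun w => n w t))
    (T : ℝ) (m : ℕ) [MeasurableSpace C(Icc (0 : ℝ) T, Fin d → ℝ)]
    [BorelSpace C(Icc (0 : ℝ) T, Fin d → ℝ)] :
    Measurable (fun w => Ip T m (fun j => n w (gr T m j))) := by
  refine (continuous_Ip T m).measurable.comp ?_
  exact measurable_pi_lambda _ fun j => hn _

theorem measurable_toC {X : A → ℝ → Fin d → ℝ} (hX : ∀ t, Measurable (fun w => X w t))
    (hc : ∀ w, Continuous (X w)) (hT : 0 < T) [MeasurableSpace C(Icc (0 : ℝ) T, Fin d → ℝ)]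
    [BorelSpace C(Icc (0 : ℝ) T, Fin d → ℝ)] :
    Measurable (fun w => toC T (X w) (hc w)) := by
  refine measurable_of_tendsto_metrizable (fun m => measurable_Ip hX T m) ?_
  rw [tendsto_pi_nhds]
  intro w
  exact Ip_tendsto hT (hc w)

/-- the modulus event -/
def Mo (T : ℝ) (X : A → ℝ → Fin d → ℝ) (δ ε : ℝ) : Set A :=
  {w | ∃ s t, 0 ≤ s ∧ s ≤ T ∧ 0 ≤ t ∧ t ≤ T ∧ |s - t| ≤ δ ∧ ∃ i, ε < |X w s i - X w t i|}

theorem func_lip (hT : 0 < T) (X : ℕ → A → ℝ → Fin d → ℝ) (W : B → ℝ → Fin d → ℝ)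
    (hXc : ∀ n w, Continuous (X n w)) (hWc : ∀ w, Continuous (W w))
    (hXm : ∀ n t, Measurable (fun w => X n w t)) (hWm : ∀ t, Measurable (fun w => W w t))
    (hfdd : ∀ (k : ℕ) (t : Fin k → ℝ) (u : Fin k → Fin d → ℝ), (∀ j, 0 ≤ t j) → (∀ j, t j ≤ T) →
      Tendsto (fun n => ∫ w, Complex.exp (Complex.I *
        ((∑ j, ∑ a, u j a * X n w (t j) a : ℝ) : ℂ)) ∂PA) atTop
        (𝓝 (∫ w, Complex.exp (Complex.I * ((∑ j, ∑ a, u j a * W w (t j) a : ℝ) : ℂ)) ∂PB)))
    (hmod : ∀ ε : ℝ, 0 < ε → ∀ η : ℝ, 0 < η → ∃ δ : ℝ, 0 < δ ∧ ∀ᶠ n in atTop,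
      PA (Mo T (X n) δ ε) ≤ ENNReal.ofReal η)
    [MeasurableSpace C(Icc (0 : ℝ) T, Fin d → ℝ)] [BorelSpace C(Icc (0 : ℝ) T, Fin d → ℝ)]
    (f : C(Icc (0 : ℝ) T, Fin d → ℝ) → ℝ) (C : ℝ) (hC : ∀ x, |f x| ≤ C) (L : ℝ≥0)
    (hL : LipschitzWith L f) :
    Tendsto (fun n => ∫ w, f (toC T (X n w) (hXc n w)) ∂PA) atTop
      (𝓝 (∫ w, f (toC T (W w) (hWc w)) ∂PB)) := by
  have hC0 : 0 ≤ C := (abs_nonneg _).trans (hC (toC T (fun _ => 0) continuous_const))
  have hfm : Measurable f := hL.continuous.measurable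
  -- the interpolation of `W`
  have hW : Tendsto (fun m : ℕ => ∫ w, f (Ip T m (fun j => W w (gr T m j))) ∂PB) atTop
      (𝓝 (∫ w, f (toC T (W w) (hWc w)) ∂PB)) := by
    refine tendsto_integral_of_dominated_convergence (fun _ => C) ?_ (integrable_const _) ?_ ?_
    · intro m
      exact (hfm.comp (measurable_Ip hWm T m)).aestronglyMeasurable
    · intro m
      exact Eventually.of_forall fun w => by rw [Real.norm_eq_abs]; exact hC _
    · exact Eventually.of_forall fun w => (hL.continuous.tendsto _).comp (Ip_tendsto hT (hWc w))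
  rw [Metric.tendsto_atTop]
  intro ε hε
  -- parameters
  set ε₁ := ε / (8 * (L + 1)) with hε₁
  set η := ε / (16 * (C + 1)) with hη
  have hL0 : (0 : ℝ) ≤ L := L.2
  have hε₁0 : 0 < ε₁ := by positivity
  have hη0 : 0 < η := by positivity
  obtain ⟨δ, hδ, hn⟩ := hmod ε₁ hε₁0 η hη0
  rw [Metric.tendsto_atTop] at hW
  obtain ⟨M₁, hM₁⟩ := hW (ε / 4) (by positivity)
  obtain ⟨M₂, hM₂⟩ := exists_nat_gt (T / δ)
  set m := max (max M₁ M₂) 1 with hm
  have hm1 : 1 ≤ m := le_max_right _ _
  have hm0 : (0 : ℝ) < m := by exact_mod_cast hm1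
  have hmM₁ : M₁ ≤ m := (le_max_left _ _).trans (le_max_left _ _)
  have hmδ : T / m ≤ δ := by
    have : (M₂ : ℝ) ≤ m := by exact_mod_cast (le_max_right _ _).trans (le_max_left _ _)
    rw [div_le_iff₀ hm0]
    rw [div_lt_iff₀ hδ] at hM₂
    nlinarith
  -- finite dimensional convergence
  have hfd := fdd_conv PA PB (m + 2) (fun n w j => X n w (gr T m j)) (fun w j => W w (gr T m j))
    (fun n => measurable_pi_lambda _ fun j => hXm n _) (measurable_pi_lambda _ fun j => hWm _)
    (fun u => hfdd (m + 2) (fun j => gr T m j) u (fun j => (gr_mem hT m j).1)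
      (fun j => (gr_mem hT m j).2))
    (fun v => f (Ip T m v)) (hL.continuous.comp (continuous_Ip T m)) C (fun x => hC _)
  rw [Metric.tendsto_atTop] at hfd
  obtain ⟨N₁, hN₁⟩ := hfd (ε / 4) (by positivity)
  obtain ⟨N₂, hN₂⟩ := eventually_atTop.1 hn
  refine ⟨max N₁ N₂, fun n hnn => ?_⟩
  have h1 := hM₁ m hmM₁
  have h2 := hN₁ n ((le_max_left _ _).trans hnn)
  have h3 := hN₂ n ((le_max_right _ _).trans hnn)
  -- the difference for `X n`
  have i1 : Integrable (fun w => f (toC T (X n w) (hXc n w))) PA := by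
    refine Integrable.of_bound (hfm.comp (measurable_toC (hXm n) (hXc n) hT)).aestronglyMeasurable
      C (Eventually.of_forall fun w => ?_)
    rw [Real.norm_eq_abs]; exact hC _
  have i2 : Integrable (fun w => f (Ip T m (fun j => X n w (gr T m j)))) PA := by
    refine Integrable.of_bound (hfm.comp (measurable_Ip (hXm n) T m)).aestronglyMeasurable
      C (Eventually.of_forall fun w => ?_)
    rw [Real.norm_eq_abs]; exact hC _
  have h4 : |∫ w, f (toC T (X n w) (hXc n w)) ∂PA -
      ∫ w, f (Ip T m (fun j => X n w (gr T m j))) ∂PA| ≤ ε / 4 := by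
    rw [← integral_sub i1 i2]
    set D := toMeasurable PA (Mo T (X n) δ ε₁) with hD
    have hDm : MeasurableSet D := measurableSet_toMeasurable _ _
    have hDp : PA D ≤ ENNReal.ofReal η := by rw [hD, measure_toMeasurable]; exact h3
    have hDr : PA.real D ≤ η := by
      rw [Measure.real]
      exact ENNReal.toReal_le_of_le_ofReal hη0.le hDp
    have hpt : ∀ w, |f (toC T (X n w) (hXc n w)) - f (Ip T m (fun j => X n w (gr T m j)))| ≤
        L * ε₁ + D.indicator (fun _ => 2 * C) w := by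
      intro w
      by_cases hw : w ∈ D
      · rw [indicator_of_mem hw]
        have := abs_sub (f (toC T (X n w) (hXc n w))) (f (Ip T m (fun j => X n w (gr T m j))))
        have a1 := hC (toC T (X n w) (hXc n w))
        have a2 := hC (Ip T m (fun j => X n w (gr T m j)))
        have : 0 ≤ (L : ℝ) * ε₁ := by positivity
        linarith
      · rw [indicator_of_notMem hw, add_zero]
        have hw' : w ∉ Mo T (X n) δ ε₁ := fun h => hw (subset_toMeasurable _ _ h)
        have h5 := hL.dist_le_mul (toC T (X n w) (hXc n w)) (Ip T m (fun j => X n w (gr T m j)))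
        rw [Real.dist_eq] at h5
        refine h5.trans (mul_le_mul_of_nonneg_left ?_ hL0)
        refine Ip_dist hT hm1 (hXc n w) hε₁0.le hmδ fun s t hs0 hsT ht0 htT hst i => ?_
        by_contra hcon
        exact hw' ⟨s, t, hs0, hsT, ht0, htT, hst, i, not_le.1 hcon⟩
    have i3 : Integrable (fun w => L * ε₁ + D.indicator (fun _ => 2 * C) w) PA :=
      (integrable_const _).add ((integrable_const _).indicator hDm)
    refine (abs_integral_le_integral_abs).trans ((integral_mono (i1.sub i2).abs i3 hpt).trans ?_)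
    rw [integral_add (integrable_const _) ((integrable_const _).indicator hDm),
      integral_const, integral_indicator_const _ hDm]
    simp only [probReal_univ, one_smul, smul_eq_mul]
    have a1 : (L : ℝ) * ε₁ ≤ ε / 8 := by
      rw [hε₁, mul_div_assoc', div_le_div_iff₀ (by positivity) (by positivity)]
      nlinarith
    have a2 : PA.real D * (2 * C) ≤ ε / 8 := by
      have : PA.real D * (2 * C) ≤ η * (2 * C) := mul_le_mul_of_nonneg_right hDr (by positivity)
      refine this.trans ?_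
      rw [hη, div_mul_eq_mul_div, div_le_div_iff₀ (by positivity) (by positivity)]
      nlinarith
    linarith
  rw [Real.dist_eq] at h1 h2 ⊢
  rw [abs_lt] at h1 h2 ⊢
  rw [abs_le] at h4
  constructor <;> linarith [h1.1, h1.2, h2.1, h2.2, h4.1, h4.2]

theorem func_conv (hT : 0 < T) (X : ℕ → A → ℝ → Fin d → ℝ) (W : B → ℝ → Fin d → ℝ)
    (hXc : ∀ n w, Continuous (X n w)) (hWc : ∀ w, Continuous (W w))
    (hXm : ∀ n t, Measurable (fun w => X n w t)) (hWm : ∀ t, Measurable (fun w => W w t))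
    (hfdd : ∀ (k : ℕ) (t : Fin k → ℝ) (u : Fin k → Fin d → ℝ), (∀ j, 0 ≤ t j) → (∀ j, t j ≤ T) →
      Tendsto (fun n => ∫ w, Complex.exp (Complex.I *
        ((∑ j, ∑ a, u j a * X n w (t j) a : ℝ) : ℂ)) ∂PA) atTop
        (𝓝 (∫ w, Complex.exp (Complex.I * ((∑ j, ∑ a, u j a * W w (t j) a : ℝ) : ℂ)) ∂PB)))
    (hmod : ∀ ε : ℝ, 0 < ε → ∀ η : ℝ, 0 < η → ∃ δ : ℝ, 0 < δ ∧ ∀ᶠ n in atTop,
      PA (Mo T (X n) δ ε) ≤ ENNReal.ofReal η)
    (F : UniformFun (Icc (0 : ℝ) T) (Fin d → ℝ) → ℝ) (hF : Continuous F)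
    (hb : ∃ C : ℝ, ∀ f, |F f| ≤ C) :
    Tendsto (fun n => ∫ w, F (UniformFun.ofFun (fun t : Icc (0 : ℝ) T => X n w t.1)) ∂PA) atTop
      (𝓝 (∫ w, F (UniformFun.ofFun (fun t : Icc (0 : ℝ) T => W w t.1)) ∂PB)) := by
  obtain ⟨C, hC⟩ := hb
  letI : MeasurableSpace C(Icc (0 : ℝ) T, Fin d → ℝ) := borel _
  haveI : BorelSpace C(Icc (0 : ℝ) T, Fin d → ℝ) := ⟨rfl⟩
  let γ := C(Icc (0 : ℝ) T, Fin d → ℝ)
  let G : γ → ℝ := fun g => F (UniformFun.ofFun (fun t => g t))
  have hG : Continuous G := by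
    refine hF.comp ?_
    rw [continuous_iff_continuousAt]
    intro g
    show Tendsto _ _ _
    rw [UniformFun.tendsto_iff_tendstoUniformly]
    have := (ContinuousMap.tendsto_iff_tendstoUniformly (p := 𝓝 g) (F := fun h : γ => h) (f := g)).1
      tendsto_id
    exact this
  have mA : ∀ n, Measurable (fun w => toC T (X n w) (hXc n w)) := fun n =>
    measurable_toC (hXm n) (hXc n) hT
  have mB : Measurable (fun w => toC T (W w) (hWc w)) := measurable_toC hWm hWc hT
  let μ : ℕ → ProbabilityMeasure γ := fun n =>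
    ⟨PA.map (fun w => toC T (X n w) (hXc n w)), Measure.isProbabilityMeasure_map (mA n).aemeasurable⟩
  let μ₀ : ProbabilityMeasure γ :=
    ⟨PB.map (fun w => toC T (W w) (hWc w)), Measure.isProbabilityMeasure_map mB.aemeasurable⟩
  have hlim : Tendsto μ atTop (𝓝 μ₀) := by
    rw [tendsto_iff_forall_lipschitz_integral_tendsto]
    rintro f ⟨C', hC'⟩ ⟨L, hL⟩
    have hfb : ∀ x, |f x| ≤ |f (toC T (fun _ => 0) continuous_const)| + C' := by
      intro x
      have := hC' x (toC T (fun _ => 0) continuous_const)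
      rw [Real.dist_eq] at this
      have h2 := abs_sub_abs_le_abs_sub (f x) (f (toC T (fun _ => 0) continuous_const))
      linarith
    have := func_lip PA PB hT X W hXc hWc hXm hWm hfdd hmod f _ hfb L hL
    have e1 : ∀ n, ∫ x, f x ∂(μ n : Measure γ) = ∫ w, f (toC T (X n w) (hXc n w)) ∂PA := by
      intro n
      show ∫ x, f x ∂(PA.map (fun w => toC T (X n w) (hXc n w))) = _
      rw [integral_map (mA n).aemeasurable hL.continuous.measurable.aestronglyMeasurable]
    have e2 : ∫ x, f x ∂(μ₀ : Measure γ) = ∫ w, f (toC T (W w) (hWc w)) ∂PB := by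
      show ∫ x, f x ∂(PB.map (fun w => toC T (W w) (hWc w))) = _
      rw [integral_map mB.aemeasurable hL.continuous.measurable.aestronglyMeasurable]
    simp only [e1, e2]
    exact this
  rw [ProbabilityMeasure.tendsto_iff_forall_integral_tendsto] at hlim
  have h1 := hlim (BoundedContinuousFunction.ofNormedAddCommGroup G hG C
    (fun x => by rw [Real.norm_eq_abs]; exact hC _))
  have e1 : ∀ n, ∫ x, (BoundedContinuousFunction.ofNormedAddCommGroup G hG C
      (fun x => by rw [Real.norm_eq_abs]; exact hC _)) x ∂(μ n : Measure γ) =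
      ∫ w, F (UniformFun.ofFun (fun t : Icc (0 : ℝ) T => X n w t.1)) ∂PA := by
    intro n
    show ∫ x, G x ∂(PA.map (fun w => toC T (X n w) (hXc n w))) = _
    rw [integral_map (mA n).aemeasurable hG.measurable.aestronglyMeasurable]
    rfl
  have e2 : ∫ x, (BoundedContinuousFunction.ofNormedAddCommGroup G hG C
      (fun x => by rw [Real.norm_eq_abs]; exact hC _)) x ∂(μ₀ : Measure γ) =
      ∫ w, F (UniformFun.ofFun (fun t : Icc (0 : ℝ) T => W w t.1)) ∂PB := by
    show ∫ x, G x ∂(PB.map (fun w => toC T (W w) (hWc w))) = _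
    rw [integral_map mB.aemeasurable hG.measurable.aestronglyMeasurable]
    rfl
  simp only [e1, e2] at h1
  exact h1

end

end Pool.Agent.H979.QIP
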