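import Mathlib
import Pool.Graph.R_seed8.Helper41.Exist

set_option autoImplicit false
set_option linter.unusedSectionVars false
set_option linter.deprecated false
set_option linter.unusedVariables false

open MeasureTheory ProbabilityTheory Filter Topology Set
open scoped ENNReal NNReal

/-!
# Existence of Brownian motion with a given covariance matrix
-/

namespace Pool.Agent.H979.QIP

theorem exists_BM {d : ℕ} {S : Matrix (Fin d) (Fin d) ℝ} (hS : S.PosSemidef) :
    ∃ (Ω' : Type) (mΩ' : MeasurableSpace Ω') (P' : Measure Ω'), IsProbabilityMeasure P' ∧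
    ∃ W : ℝ → Ω' → (Fin d → ℝ),
      (∀ t, Measurable (W t)) ∧ (∀ ω', Continuous (fun t => W t ω')) ∧
      (∀ (k : ℕ) (t : Fin k → ℝ) (u : Fin k → Fin d → ℝ), (∀ j, 0 ≤ t j) →
        ∫ ω', Complex.exp (Complex.I * ((∑ j, ∑ a, u j a * W (t j) ω' a : ℝ) : ℂ)) ∂P' =
          Complex.exp (-((∑ j, ∑ l, min (t j) (t l) *
              (∑ a, ∑ b, u j a * S a b * u l b) : ℝ) : ℂ) / 2)) := by
  obtain ⟨m, v, hv⟩ := Matrix.posSemidef_iff_eq_sum_vecMulVec.1 hS
  obtain ⟨Ω', mΩ', P', hP', X, hX, hc⟩ := Pool.Agent.Helper41.exists_sheet m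
  refine ⟨Ω', mΩ', P', hP', fun t ω' a => ∑ i, v i a * X (i, t.toNNReal, 1) ω', ?_, ?_, ?_⟩
  · intro t
    refine measurable_pi_lambda _ fun a => ?_
    exact Finset.measurable_sum _ fun i _ => (hX.meas _).const_mul _
  · intro ω'
    refine continuous_pi fun a => ?_
    refine continuous_finsetSum _ fun i _ => Continuous.mul continuous_const ?_
    exact (hc ω' i).comp ((continuous_real_toNNReal).prodMk continuous_const)
  · intro k t u ht
    set e := (finProdFinEquiv : Fin k × Fin m ≃ Fin (k * m)) with he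
    have h1 := hX.char (k * m) (fun p => ((e.symm p).2, (t (e.symm p).1).toNNReal, 1))
      (fun p => ∑ a, u (e.symm p).1 a * v (e.symm p).2 a)
    have e1 : ∀ ω', ∑ p, (∑ a, u (e.symm p).1 a * v (e.symm p).2 a) *
        X ((e.symm p).2, (t (e.symm p).1).toNNReal, 1) ω' =
        ∑ j, ∑ a, u j a * ∑ i, v i a * X (i, (t j).toNNReal, 1) ω' := by
      intro ω'
      rw [← e.sum_comp, Fintype.sum_prod_type]
      simp only [Equiv.symm_apply_apply]
      refine Finset.sum_congr rfl fun j _ => ?_
      simp_rw [Finset.mul_sum, Finset.sum_mul]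
      rw [Finset.sum_comm]
      exact Finset.sum_congr rfl fun a _ => Finset.sum_congr rfl fun i _ => by ring
    simp_rw [e1] at h1
    rw [h1]
    have e2 : ∑ i, ∑ j, (∑ a, u (e.symm i).1 a * v (e.symm i).2 a) *
        (∑ a, u (e.symm j).1 a * v (e.symm j).2 a) *
        Pool.Agent.Helper41.sheetK ((e.symm i).2, (t (e.symm i).1).toNNReal, (1 : ℝ≥0))
          ((e.symm j).2, (t (e.symm j).1).toNNReal, (1 : ℝ≥0)) =
        ∑ j, ∑ l, min (t j) (t l) * (∑ a, ∑ b, u j a * S a b * u l b) := by
      rw [← e.sum_comp, Fintype.sum_prod_type]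
      simp_rw [← e.sum_comp]
      simp only [Equiv.symm_apply_apply]
      refine Finset.sum_congr rfl fun j _ => ?_
      simp_rw [Fintype.sum_prod_type]
      rw [Finset.sum_comm]
      refine Finset.sum_congr rfl fun l _ => ?_
      have e3 : ∀ i i' : Fin m, Pool.Agent.Helper41.sheetK (i, (t j).toNNReal, (1 : ℝ≥0))
          (i', (t l).toNNReal, (1 : ℝ≥0)) = if i = i' then min (t j) (t l) else 0 := by
        intro i i'
        unfold Pool.Agent.Helper41.sheetK
        by_cases h : i = i'
        · simp only [h, if_true]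
          rw [NNReal.coe_min, Real.coe_toNNReal _ (ht j), Real.coe_toNNReal _ (ht l)]
          simp
        · simp [h]
      simp_rw [e3, mul_ite, mul_zero]
      simp only [Finset.sum_ite_eq, Finset.mem_univ, if_true]
      have e4 : ∀ a b, S a b = ∑ i, v i a * v i b := by
        intro a b
        rw [hv, Matrix.sum_apply]
        exact Finset.sum_congr rfl fun i _ => by simp [Matrix.vecMulVec_apply]
      simp_rw [e4]
      rw [← Finset.sum_mul, mul_comm]
      congr 1
      simp_rw [Finset.sum_mul_sum, Finset.mul_sum, Finset.sum_mul]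
      rw [Finset.sum_comm]
      refine Finset.sum_congr rfl fun a _ => ?_
      rw [Finset.sum_comm]
      exact Finset.sum_congr rfl fun b _ => Finset.sum_congr rfl fun i _ => by ring
    rw [e2]
    congr 1
    ring

end Pool.Agent.H979.QIP
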