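import Pool.Agent.H979.QIP.Rev

set_option autoImplicit false
set_option linter.unusedSectionVars false
set_option linter.deprecated false

open MeasureTheory ProbabilityTheory Filter Topology Set
open scoped ENNReal NNReal

/-!
# Martingale inequalities for additive functionals of a Markov chain
-/

namespace Pool.Agent.H979.QIP

variable {X : Type*} [Countable X] [MeasurableSpace X] [MeasurableSingletonClass X]

/-- additive functional along the path -/
def S (ξ : X → X → ℝ) (k : ℕ) (w : ℕ → X) : ℝ := ∑ j ∈ Finset.range k, ξ (w j) (w (j + 1))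

/-- sum of a function of the positions -/
noncomputable def A (s : X → ℝ≥0∞) (k : ℕ) (w : ℕ → X) : ℝ≥0∞ := ∑ j ∈ Finset.range k, s (w j)

theorem S_zero (ξ : X → X → ℝ) (w : ℕ → X) : S ξ 0 w = 0 := rfl
theorem A_zero (s : X → ℝ≥0∞) (w : ℕ → X) : A s 0 w = 0 := rfl

theorem S_cons (ξ : X → X → ℝ) (k : ℕ) (x : X) (w : ℕ → X) :
    S ξ (k + 1) (cons x w) = ξ x (w 0) + S ξ k w := by
  unfold S
  rw [Finset.sum_range_succ']
  simp only [cons_succ, cons_zero]
  rw [add_comm]

theorem A_cons (s : X → ℝ≥0∞) (k : ℕ) (x : X) (w : ℕ → X) :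
    A s (k + 1) (cons x w) = s x + A s k w := by
  unfold A
  rw [Finset.sum_range_succ']
  simp only [cons_succ, cons_zero]
  rw [add_comm]

theorem dep_S (ξ : X → X → ℝ) {k N : ℕ} (h : k ≤ N) : Dep N (S ξ k) := by
  intro w w' hw
  refine Finset.sum_congr rfl fun j hj => ?_
  have hj := Finset.mem_range.1 hj
  rw [hw j (by omega), hw (j + 1) (by omega)]

theorem dep_A (s : X → ℝ≥0∞) {k N : ℕ} (h : k ≤ N) : Dep N (A s k) := by
  intro w w' hw
  refine Finset.sum_congr rfl fun j hj => ?_
  have hj := Finset.mem_range.1 hj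
  rw [hw j (by omega)]

variable (q : X → Measure X) [∀ x, IsProbabilityMeasure (q x)]

/-- the second moment of a function of the step -/
noncomputable def V (ξ : X → X → ℝ) (x : X) : ℝ≥0∞ := ∫⁻ y, ENNReal.ofReal (ξ x y ^ 2) ∂(q x)

/-- the mean of a function of the step -/
noncomputable def bm (ξ : X → X → ℝ) (x : X) : ℝ := ∫ y, ξ x y ∂(q x)

theorem memLp_of_V {ξ : X → X → ℝ} {x : X} (h : V q ξ x ≠ ∞) : MemLp (ξ x) 2 (q x) := by
  rw [memLp_two_iff_integrable_sq_norm (measurable_of_countable _).aestronglyMeasurable]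
  refine ⟨(measurable_of_countable _).aestronglyMeasurable, ?_⟩
  rw [hasFiniteIntegral_iff_norm]
  have : (fun y => ENNReal.ofReal ‖‖ξ x y‖ ^ 2‖) = fun y => ENNReal.ofReal (ξ x y ^ 2) := by
    funext y
    rw [Real.norm_eq_abs, Real.norm_eq_abs, sq_abs, abs_of_nonneg (sq_nonneg _)]
  rw [this]
  exact lt_top_iff_ne_top.2 h

theorem lintegral_sq_add {ξ : X → X → ℝ} {x : X} (h : V q ξ x ≠ ∞) (h0 : bm q ξ x = 0) (a : ℝ) :
    ∫⁻ y, ENNReal.ofReal ((a + ξ x y) ^ 2) ∂(q x) = ENNReal.ofReal (a ^ 2) + V q ξ x := by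
  have hL := memLp_of_V q h
  have hi : Integrable (ξ x) (q x) := hL.integrable (by norm_num)
  have hi2 : Integrable (fun y => ξ x y ^ 2) (q x) := hL.integrable_sq
  have e1 : V q ξ x = ENNReal.ofReal (∫ y, ξ x y ^ 2 ∂(q x)) := by
    unfold V
    rw [ofReal_integral_eq_lintegral_ofReal hi2 (Eventually.of_forall fun y => sq_nonneg _)]
  have hi3 : Integrable (fun y => (a + ξ x y) ^ 2) (q x) := by
    have : (fun y => (a + ξ x y) ^ 2) = fun y => a ^ 2 + 2 * a * ξ x y + ξ x y ^ 2 := by
      funext y; ring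
    rw [this]
    exact ((integrable_const _).add (hi.const_mul _)).add hi2
  rw [e1, ← ofReal_integral_eq_lintegral_ofReal hi3 (Eventually.of_forall fun y => sq_nonneg _),
    ← ENNReal.ofReal_add (sq_nonneg _) (integral_nonneg fun y => sq_nonneg _)]
  congr 1
  have : (fun y => (a + ξ x y) ^ 2) = fun y => a ^ 2 + 2 * a * ξ x y + ξ x y ^ 2 := by
    funext y; ring
  have i1 : ∫ y, (a ^ 2 + 2 * a * ξ x y + ξ x y ^ 2) ∂(q x) =
      ∫ y, (a ^ 2 + 2 * a * ξ x y) ∂(q x) + ∫ y, ξ x y ^ 2 ∂(q x) :=
    integral_add (f := fun y => a ^ 2 + 2 * a * ξ x y) ((integrable_const _).add (hi.const_mul _))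
      hi2
  have i2 : ∫ y, (a ^ 2 + 2 * a * ξ x y) ∂(q x) = ∫ _, a ^ 2 ∂(q x) + ∫ y, 2 * a * ξ x y ∂(q x) :=
    integral_add (f := fun _ => a ^ 2) (integrable_const _) (hi.const_mul _)
  unfold bm at h0
  rw [this, i1, i2, integral_const_mul, h0, integral_const]
  simp

/-- Kolmogorov's inequality with a budget for the variance -/
theorem lenglart {ξ : X → X → ℝ} (hV : ∀ x, V q ξ x ≠ ∞) (h0 : ∀ x, bm q ξ x = 0) {r : ℝ}
    (hr : 0 < r) (n : ℕ) (x : X) (a : ℝ) (v : ℝ≥0∞) :
    P q x {w | ∃ k ≤ n, r < |a + S ξ k w|} ≤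
      (ENNReal.ofReal (a ^ 2) + v) / ENNReal.ofReal (r ^ 2) + P q x {w | v < A (V q ξ) n w} := by
  have hr2 : ENNReal.ofReal (r ^ 2) ≠ 0 := by
    rw [Ne, ENNReal.ofReal_eq_zero, not_le]; positivity
  have hbig : ∀ (a : ℝ) (v t : ℝ≥0∞), r < |a| →
      1 ≤ (ENNReal.ofReal (a ^ 2) + v) / ENNReal.ofReal (r ^ 2) + t := by
    intro a v t h
    refine le_trans ?_ le_self_add
    rw [ENNReal.le_div_iff_mul_le (Or.inl hr2) (Or.inl ENNReal.ofReal_ne_top), one_mul]
    refine le_trans (ENNReal.ofReal_le_ofReal ?_) le_self_add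
    rw [← sq_abs a]
    exact pow_le_pow_left₀ hr.le h.le 2
  induction n generalizing x a v with
  | zero =>
    by_cases h : r < |a|
    · exact prob_le_one.trans (hbig a v _ h)
    · have : {w : ℕ → X | ∃ k ≤ 0, r < |a + S ξ k w|} = ∅ := by
        ext w
        simp only [mem_setOf_eq, mem_empty_iff_false, iff_false]
        rintro ⟨k, hk, h'⟩
        have : k = 0 := by omega
        subst this
        rw [S_zero, add_zero] at h'
        exact h h'
      rw [this, measure_empty]
      exact zero_le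
  | succ n ih =>
    by_cases h : r < |a|
    · exact prob_le_one.trans (hbig a v _ h)
    have hm2 : MeasurableSet {w : ℕ → X | v < A (V q ξ) (n + 1) w} :=
      measurableSet_lt measurable_const (dep_A _ le_rfl).measurable
    by_cases hv : v < V q ξ x
    · have h1 : P q x {w | v < A (V q ξ) (n + 1) w} = 1 := by
        have : ∀ᵐ w ∂(P q x), v < A (V q ξ) (n + 1) w := by
          filter_upwards [P_zero q x] with w hw
          refine hv.trans_le ?_
          unfold A
          rw [Finset.sum_range_succ', hw]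
          exact le_add_self
        rw [prob_compl_eq_zero_iff hm2 |>.symm]
        exact this
      rw [h1]
      exact prob_le_one.trans le_add_self
    · push Not at hv
      have hm1 : MeasurableSet {w : ℕ → X | ∃ k ≤ n + 1, r < |a + S ξ k w|} := by
        have : {w : ℕ → X | ∃ k ≤ n + 1, r < |a + S ξ k w|} =
            ⋃ k ∈ Finset.range (n + 2), {w | r < |a + S ξ k w|} := by
          ext w
          simp only [mem_setOf_eq, mem_iUnion, Finset.mem_range, exists_prop]
          constructor
          · rintro ⟨k, hk, h⟩; exact ⟨k, by omega, h⟩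
          · rintro ⟨k, hk, h⟩; exact ⟨k, by omega, h⟩
        rw [this]
        refine Finset.measurableSet_biUnion _ fun k _ => ?_
        exact measurableSet_lt measurable_const
          (measurable_const.add (dep_S ξ (le_refl k)).measurable).abs
      rw [P_apply q x hm1, P_apply q x hm2]
      set v' := v - V q ξ x with hv'
      have hvv : v = V q ξ x + v' := by rw [hv', add_tsub_cancel_of_le hv]
      have step : ∀ y, P q y {w | cons x w ∈ {w | ∃ k ≤ n + 1, r < |a + S ξ k w|}} ≤
          (ENNReal.ofReal ((a + ξ x y) ^ 2) + v') / ENNReal.ofReal (r ^ 2) +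
            P q y {w | cons x w ∈ {w | v < A (V q ξ) (n + 1) w}} := by
        intro y
        have e1 : P q y {w | cons x w ∈ {w | ∃ k ≤ n + 1, r < |a + S ξ k w|}} ≤
            P q y {w | ∃ k ≤ n, r < |(a + ξ x y) + S ξ k w|} := by
          refine measure_mono_ae ?_
          filter_upwards [P_zero q y] with w hw
          rintro ⟨k, hk, hk'⟩
          cases k with
          | zero =>
            rw [S_zero, add_zero] at hk'
            exact absurd hk' h
          | succ k =>
            refine ⟨k, by omega, ?_⟩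
            rw [S_cons, hw, ← add_assoc] at hk'
            exact hk'
        refine (e1.trans (ih y (a + ξ x y) v')).trans ?_
        refine add_le_add le_rfl (measure_mono fun w hw => ?_)
        simp only [mem_setOf_eq] at hw ⊢
        rw [A_cons, hvv]
        exact ENNReal.add_lt_add_left (hV x) hw
      refine (lintegral_mono step).trans ?_
      rw [lintegral_add_right _ (measurable_of_countable _)]
      refine add_le_add ?_ le_rfl
      simp_rw [ENNReal.div_eq_inv_mul]
      rw [lintegral_const_mul _ (measurable_of_countable _), lintegral_add_right _ measurable_const,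
        lintegral_sq_add q (hV x) (h0 x), lintegral_const, measure_univ, mul_one, hvv, add_assoc]

/-- the second moment of the martingale -/
theorem second_moment {ξ : X → X → ℝ} (hV : ∀ x, V q ξ x ≠ ∞) (h0 : ∀ x, bm q ξ x = 0) (n : ℕ)
    (x : X) (a : ℝ) :
    ∫⁻ w, ENNReal.ofReal ((a + S ξ n w) ^ 2) ∂(P q x) =
      ENNReal.ofReal (a ^ 2) + ∫⁻ w, A (V q ξ) n w ∂(P q x) := by
  induction n generalizing x a with
  | zero => simp [S_zero, A_zero]
  | succ n ih =>
    have hm1 : Measurable (fun w : ℕ → X => ENNReal.ofReal ((a + S ξ (n + 1) w) ^ 2)) :=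
      ENNReal.measurable_ofReal.comp ((measurable_const.add (dep_S ξ le_rfl).measurable).pow_const 2)
    rw [lintegral_P q x hm1, lintegral_P q x (dep_A _ le_rfl).measurable]
    have e1 : ∀ y, ∫⁻ w, ENNReal.ofReal ((a + S ξ (n + 1) (cons x w)) ^ 2) ∂(P q y) =
        ENNReal.ofReal ((a + ξ x y) ^ 2) + ∫⁻ w, A (V q ξ) n w ∂(P q y) := by
      intro y
      rw [← ih y (a + ξ x y)]
      refine lintegral_congr_ae ?_
      filter_upwards [P_zero q y] with w hw
      rw [S_cons, hw, add_assoc]
    have e2 : ∀ y, ∫⁻ w, A (V q ξ) (n + 1) (cons x w) ∂(P q y) =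
        V q ξ x + ∫⁻ w, A (V q ξ) n w ∂(P q y) := by
      intro y
      simp_rw [A_cons]
      rw [lintegral_add_left measurable_const, lintegral_const, measure_univ, mul_one]
    simp_rw [e1, e2]
    rw [lintegral_add_left (measurable_of_countable _), lintegral_sq_add q (hV x) (h0 x),
      lintegral_add_left measurable_const, lintegral_const, measure_univ, mul_one, add_assoc]

theorem exp_le_quad {t : ℝ} (ht : |t| ≤ 1) : Real.exp t ≤ 1 + t + t ^ 2 := by
  have h := Real.abs_exp_sub_one_sub_id_le ht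
  have := (abs_le.1 h).2
  linarith

/-- exponential inequality with a budget for the variance -/
theorem expo {ξ : X → X → ℝ} {c : ℝ} (hb : ∀ x y, |ξ x y| ≤ c) (h0 : ∀ x, bm q ξ x = 0)
    {l : ℝ} (hl : 0 ≤ l) (hlc : l * c ≤ 1) {r v : ℝ} (n : ℕ) (x : X) (a : ℝ) :
    P q x {w | ∃ k ≤ n, r ≤ a + S ξ k w ∧
        ∑ j ∈ Finset.range k, (∫ y, ξ (w j) y ^ 2 ∂(q (w j))) ≤ v} ≤
      ENNReal.ofReal (Real.exp (l * (a - r) + l ^ 2 * v)) := by
  set s : X → ℝ := fun x => ∫ y, ξ x y ^ 2 ∂(q x) with hs
  have hs0 : ∀ x, 0 ≤ s x := fun x => integral_nonneg fun y => sq_nonneg _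
  have hbig : ∀ a v : ℝ, r ≤ a → 0 ≤ v →
      1 ≤ ENNReal.ofReal (Real.exp (l * (a - r) + l ^ 2 * v)) := by
    intro a v h hv
    rw [← ENNReal.ofReal_one]
    refine ENNReal.ofReal_le_ofReal ?_
    rw [← Real.exp_zero]
    refine Real.exp_le_exp.2 ?_
    have : 0 ≤ l * (a - r) := mul_nonneg hl (by linarith)
    positivity
  induction n generalizing x a v with
  | zero =>
    by_cases h : r ≤ a ∧ 0 ≤ v
    · exact prob_le_one.trans (hbig a v h.1 h.2)
    · have : {w : ℕ → X | ∃ k ≤ 0, r ≤ a + S ξ k w ∧ ∑ j ∈ Finset.range k, s (w j) ≤ v} = ∅ := by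
        ext w
        simp only [mem_setOf_eq, mem_empty_iff_false, iff_false]
        rintro ⟨k, hk, h1, h2⟩
        have : k = 0 := by omega
        subst this
        rw [S_zero, add_zero] at h1
        rw [Finset.sum_range_zero] at h2
        exact h ⟨h1, h2⟩
      rw [this, measure_empty]
      exact zero_le
  | succ n ih =>
    by_cases h : r ≤ a ∧ 0 ≤ v
    · exact prob_le_one.trans (hbig a v h.1 h.2)
    have hD : Dep (n + 1) (fun w : ℕ → X => w ∈ {w | ∃ k ≤ n + 1, r ≤ a + S ξ k w ∧
        ∑ j ∈ Finset.range k, s (w j) ≤ v}) := by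
      intro w w' hw
      simp only [mem_setOf_eq, eq_iff_iff]
      have e1 : ∀ k ≤ n + 1, S ξ k w = S ξ k w' := fun k hk => dep_S ξ hk _ _ hw
      have e2 : ∀ k ≤ n + 1, ∑ j ∈ Finset.range k, s (w j) = ∑ j ∈ Finset.range k, s (w' j) :=
        fun k hk => Finset.sum_congr rfl fun j hj => by
          have hj := Finset.mem_range.1 hj
          rw [hw j (by omega)]
      constructor
      · rintro ⟨k, hk, h1, h2⟩
        exact ⟨k, hk, by rwa [← e1 k hk], by rwa [← e2 k hk]⟩
      · rintro ⟨k, hk, h1, h2⟩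
        exact ⟨k, hk, by rwa [e1 k hk], by rwa [e2 k hk]⟩
    rw [P_apply q x hD.measurableSet]
    have step : ∀ y, P q y {w | cons x w ∈ {w | ∃ k ≤ n + 1, r ≤ a + S ξ k w ∧
        ∑ j ∈ Finset.range k, s (w j) ≤ v}} ≤
        ENNReal.ofReal (Real.exp (l * (a + ξ x y - r) + l ^ 2 * (v - s x))) := by
      intro y
      refine le_trans (measure_mono_ae ?_) (ih (v := v - s x) y (a + ξ x y))
      filter_upwards [P_zero q y] with w hw
      rintro ⟨k, hk, h1, h2⟩
      cases k with
      | zero =>
        rw [S_zero, add_zero] at h1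
        rw [Finset.sum_range_zero] at h2
        exact absurd ⟨h1, h2⟩ h
      | succ k =>
        refine ⟨k, by omega, ?_, ?_⟩
        · rw [S_cons, hw, ← add_assoc] at h1
          exact h1
        · rw [Finset.sum_range_succ'] at h2
          simp only [cons_succ, cons_zero] at h2
          linarith
    refine (lintegral_mono step).trans ?_
    have hbd : ∀ y, |l * ξ x y| ≤ 1 := fun y => by
      rw [abs_mul, abs_of_nonneg hl]
      exact (mul_le_mul_of_nonneg_left (hb x y) hl).trans hlc
    have hi : Integrable (ξ x) (q x) :=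
      Integrable.of_bound (measurable_of_countable _).aestronglyMeasurable c
        (Eventually.of_forall fun y => by simpa using hb x y)
    have hi2 : Integrable (fun y => ξ x y ^ 2) (q x) :=
      Integrable.of_bound (measurable_of_countable _).aestronglyMeasurable (c ^ 2)
        (Eventually.of_forall fun y => by
          rw [Real.norm_eq_abs, abs_pow]
          exact pow_le_pow_left₀ (abs_nonneg _) (hb x y) 2)
    have key : ∀ y, Real.exp (l * (a + ξ x y - r) + l ^ 2 * (v - s x)) ≤
        Real.exp (l * (a - r) + l ^ 2 * (v - s x)) * (1 + l * ξ x y + l ^ 2 * ξ x y ^ 2) := by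
      intro y
      have e1 : l * (a + ξ x y - r) + l ^ 2 * (v - s x) =
          (l * (a - r) + l ^ 2 * (v - s x)) + l * ξ x y := by ring
      rw [e1, Real.exp_add]
      refine mul_le_mul_of_nonneg_left ?_ (Real.exp_pos _).le
      have := exp_le_quad (hbd y)
      nlinarith
    refine (lintegral_mono fun y => ENNReal.ofReal_le_ofReal (key y)).trans ?_
    have hi3 : Integrable (fun y => 1 + l * ξ x y + l ^ 2 * ξ x y ^ 2) (q x) :=
      ((integrable_const _).add (hi.const_mul _)).add (hi2.const_mul _)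
    rw [← ofReal_integral_eq_lintegral_ofReal (hi3.const_mul _) (Eventually.of_forall fun y =>
      le_trans (Real.exp_pos _).le (key y))]
    refine ENNReal.ofReal_le_ofReal ?_
    rw [integral_const_mul]
    have i1 : ∫ y, (1 + l * ξ x y + l ^ 2 * ξ x y ^ 2) ∂(q x) =
        ∫ y, (1 + l * ξ x y) ∂(q x) + ∫ y, l ^ 2 * ξ x y ^ 2 ∂(q x) :=
      integral_add (f := fun y => 1 + l * ξ x y) ((integrable_const _).add (hi.const_mul _))
        (hi2.const_mul _)
    have i2 : ∫ y, (1 + l * ξ x y) ∂(q x) = ∫ _, (1 : ℝ) ∂(q x) + ∫ y, l * ξ x y ∂(q x) :=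
      integral_add (f := fun _ => (1 : ℝ)) (integrable_const _) (hi.const_mul _)
    have h0' := h0 x
    unfold bm at h0'
    rw [i1, i2, integral_const_mul, integral_const_mul, h0', integral_const]
    have e3 : l * (a - r) + l ^ 2 * v = (l * (a - r) + l ^ 2 * (v - s x)) + l ^ 2 * s x := by ring
    rw [e3, Real.exp_add (l * (a - r) + l ^ 2 * (v - s x)) (l ^ 2 * s x)]
    refine mul_le_mul_of_nonneg_left ?_ (Real.exp_pos _).le
    have e4 : (q x).real univ • (1 : ℝ) + l * 0 + l ^ 2 * ∫ y, ξ x y ^ 2 ∂(q x) = l ^ 2 * s x + 1 := by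
      simp [hs]; ring
    rw [e4]
    exact Real.add_one_le_exp _

end Pool.Agent.H979.QIP
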