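import Pool.Agent.H979.QIP.Mart

set_option autoImplicit false
set_option linter.unusedSectionVars false
set_option linter.deprecated false

open MeasureTheory ProbabilityTheory Filter Topology Set
open scoped ENNReal NNReal

/-!
# The martingale central limit theorem for a Markov chain: a quantitative form
-/

namespace Pool.Agent.H979.QIP

variable {X : Type*} [Countable X] [MeasurableSpace X] [MeasurableSingletonClass X]

/-- time dependent additive functional along the path -/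
def ST (ξ : ℕ → X → X → ℝ) (k : ℕ) (w : ℕ → X) : ℝ := ∑ j ∈ Finset.range k, ξ j (w j) (w (j + 1))

/-- the variances along the path -/
noncomputable def AT (q : X → Measure X) (ξ : ℕ → X → X → ℝ) (k : ℕ) (w : ℕ → X) : ℝ :=
  ∑ j ∈ Finset.range k, ∫ y, ξ j (w j) y ^ 2 ∂(q (w j))

theorem ST_cons (ξ : ℕ → X → X → ℝ) (k : ℕ) (x : X) (w : ℕ → X) :
    ST ξ (k + 1) (cons x w) = ξ 0 x (w 0) + ST (fun j => ξ (j + 1)) k w := by
  unfold ST
  rw [Finset.sum_range_succ']
  simp only [cons_succ, cons_zero]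
  rw [add_comm]

theorem AT_cons (q : X → Measure X) (ξ : ℕ → X → X → ℝ) (k : ℕ) (x : X) (w : ℕ → X) :
    AT q ξ (k + 1) (cons x w) = (∫ y, ξ 0 x y ^ 2 ∂(q x)) + AT q (fun j => ξ (j + 1)) k w := by
  unfold AT
  rw [Finset.sum_range_succ']
  simp only [cons_succ, cons_zero]
  rw [add_comm]

theorem dep_ST (ξ : ℕ → X → X → ℝ) {k N : ℕ} (h : k ≤ N) : Dep N (ST ξ k) := by
  intro w w' hw
  refine Finset.sum_congr rfl fun j hj => ?_
  have hj := Finset.mem_range.1 hj
  rw [hw j (by omega), hw (j + 1) (by omega)]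

theorem dep_AT (q : X → Measure X) (ξ : ℕ → X → X → ℝ) {k N : ℕ} (h : k ≤ N) :
    Dep N (AT q ξ k) := by
  intro w w' hw
  refine Finset.sum_congr rfl fun j hj => ?_
  have hj := Finset.mem_range.1 hj
  rw [hw j (by omega)]

theorem norm_exp_I_sub {t : ℝ} (ht : |t| ≤ 1) :
    ‖Complex.exp ((t : ℂ) * Complex.I) - (1 + (t : ℂ) * Complex.I - (t : ℂ) ^ 2 / 2)‖ ≤
      2 / 9 * |t| ^ 3 := by
  have h1 : ‖(t : ℂ) * Complex.I‖ ≤ 1 := by simpa using ht
  have h := Complex.exp_bound h1 (n := 3) (by norm_num)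
  have e1 : ∑ m ∈ Finset.range 3, ((t : ℂ) * Complex.I) ^ m / (m.factorial : ℂ) =
      1 + (t : ℂ) * Complex.I - (t : ℂ) ^ 2 / 2 := by
    simp only [Finset.sum_range_succ, Finset.sum_range_zero, pow_zero, pow_one, Nat.factorial,
      mul_pow, Complex.I_sq]
    push_cast
    ring
  have e2 : ‖(t : ℂ) * Complex.I‖ = |t| := by simp
  rw [e1, e2] at h
  refine h.trans (le_of_eq ?_)
  norm_num [Nat.factorial]
  ring

variable (q : X → Measure X) [∀ x, IsProbabilityMeasure (q x)]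

theorem integrable_of_bdd {c : ℝ} {f : X → ℝ} (h : ∀ y, |f y| ≤ c) (x : X) :
    Integrable f (q x) :=
  Integrable.of_bound (measurable_of_countable _).aestronglyMeasurable c
    (Eventually.of_forall fun y => by simpa using h y)

/-- the characteristic function of one step -/
theorem one_step {f : X → ℝ} {c : ℝ} (hc1 : c ≤ 1) (hb : ∀ y, |f y| ≤ c) (x : X)
    (h0 : ∫ y, f y ∂(q x) = 0) :
    ‖∫ y, Complex.exp ((f y : ℂ) * Complex.I) ∂(q x) -
      ((Real.exp (-((∫ y, f y ^ 2 ∂(q x)) / 2)) : ℝ) : ℂ)‖ ≤ c ^ 3 := by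
  have hc0 : 0 ≤ c := by
    obtain ⟨y⟩ : Nonempty X := ⟨x⟩
    exact (abs_nonneg _).trans (hb y)
  set s := ∫ y, f y ^ 2 ∂(q x) with hs
  have hb2 : ∀ y, |f y ^ 2| ≤ c ^ 2 := fun y => by
    rw [abs_pow]; exact pow_le_pow_left₀ (abs_nonneg _) (hb y) 2
  have i1 := integrable_of_bdd q hb x
  have i2 := integrable_of_bdd q hb2 x
  have hs0 : 0 ≤ s := integral_nonneg fun y => sq_nonneg _
  have hs1 : s ≤ c ^ 2 := by
    have := integral_mono i2 (integrable_const (c ^ 2)) (fun y => (le_abs_self _).trans (hb2 y))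
    simpa using this
  have iE : Integrable (fun y => Complex.exp ((f y : ℂ) * Complex.I)) (q x) :=
    Integrable.of_bound (measurable_of_countable _).aestronglyMeasurable 1
      (Eventually.of_forall fun y => by rw [Complex.norm_exp_ofReal_mul_I])
  have iT : Integrable (fun y => (1 + (f y : ℂ) * Complex.I - (f y : ℂ) ^ 2 / 2)) (q x) := by
    have h1 : Integrable (fun y => ((f y : ℂ))) (q x) := i1.ofReal
    have h2 : Integrable (fun y => ((f y ^ 2 : ℝ) : ℂ)) (q x) := i2.ofReal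
    have h3 : Integrable (fun y => (f y : ℂ) ^ 2 / 2) (q x) := by
      have := h2.div_const 2
      simpa using this
    exact ((integrable_const _).add (h1.mul_const _)).sub h3
  have eT : ∫ y, (1 + (f y : ℂ) * Complex.I - (f y : ℂ) ^ 2 / 2) ∂(q x) = ((1 - s / 2 : ℝ) : ℂ) := by
    have h1 : Integrable (fun y => ((f y : ℂ))) (q x) := i1.ofReal
    have h2 : Integrable (fun y => ((f y ^ 2 : ℝ) : ℂ)) (q x) := i2.ofReal
    have h3 : Integrable (fun y => (f y : ℂ) ^ 2 / 2) (q x) := by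
      have := h2.div_const 2
      simpa using this
    rw [integral_sub (f := fun y => 1 + (f y : ℂ) * Complex.I)
      ((integrable_const _).add (h1.mul_const _)) h3,
      integral_add (f := fun _ => (1 : ℂ)) (integrable_const _) (h1.mul_const _),
      integral_mul_const, integral_complex_ofReal, h0]
    have e5 : ∫ y, (f y : ℂ) ^ 2 / 2 ∂(q x) = ((s / 2 : ℝ) : ℂ) := by
      rw [hs, ← integral_div, ← integral_complex_ofReal]
      refine integral_congr_ae (Eventually.of_forall fun y => ?_)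
      push_cast; rfl
    rw [e5]
    simp
  have d1 : ‖∫ y, Complex.exp ((f y : ℂ) * Complex.I) ∂(q x) - ((1 - s / 2 : ℝ) : ℂ)‖ ≤
      2 / 9 * c ^ 3 := by
    rw [← eT, ← integral_sub iE iT]
    refine (norm_integral_le_integral_norm _).trans ?_
    have : ∀ y, ‖Complex.exp ((f y : ℂ) * Complex.I) -
        (1 + (f y : ℂ) * Complex.I - (f y : ℂ) ^ 2 / 2)‖ ≤ 2 / 9 * c ^ 3 := fun y => by
      refine (norm_exp_I_sub ((hb y).trans hc1)).trans ?_
      have := pow_le_pow_left₀ (abs_nonneg _) (hb y) 3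
      linarith
    refine (integral_mono_of_nonneg (Eventually.of_forall fun y => norm_nonneg _)
      (integrable_const (2 / 9 * c ^ 3)) (Eventually.of_forall this)).trans ?_
    simp
  have d2 : ‖((1 - s / 2 : ℝ) : ℂ) - ((Real.exp (-(s / 2)) : ℝ) : ℂ)‖ ≤ c ^ 3 / 4 := by
    rw [← Complex.ofReal_sub, Complex.norm_real, Real.norm_eq_abs, abs_sub_comm]
    have hs2 : |-(s / 2)| ≤ 1 := by
      rw [abs_neg, abs_of_nonneg (by positivity)]
      nlinarith
    have h := Real.abs_exp_sub_one_sub_id_le hs2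
    have e : Real.exp (-(s / 2)) - (1 - s / 2) = Real.exp (-(s / 2)) - 1 - -(s / 2) := by ring
    rw [e]
    refine h.trans ?_
    have h4 : s ^ 2 ≤ c ^ 4 := by
      have := pow_le_pow_left₀ hs0 hs1 2
      calc s ^ 2 ≤ (c ^ 2) ^ 2 := this
        _ = c ^ 4 := by ring
    have h5 : c ^ 4 ≤ c ^ 3 := pow_le_pow_of_le_one hc0 hc1 (by norm_num)
    have : (-(s / 2)) ^ 2 = s ^ 2 / 4 := by ring
    rw [this]
    linarith
  calc _ ≤ ‖∫ y, Complex.exp ((f y : ℂ) * Complex.I) ∂(q x) - ((1 - s / 2 : ℝ) : ℂ)‖ +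
        ‖((1 - s / 2 : ℝ) : ℂ) - ((Real.exp (-(s / 2)) : ℝ) : ℂ)‖ := norm_sub_le_norm_sub_add_norm_sub _ _ _
    _ ≤ 2 / 9 * c ^ 3 + c ^ 3 / 4 := add_le_add d1 d2
    _ ≤ c ^ 3 := by
      have : 0 ≤ c ^ 3 := by positivity
      linarith

theorem AT_nonneg (ξ : ℕ → X → X → ℝ) (n : ℕ) (w : ℕ → X) : 0 ≤ AT q ξ n w :=
  Finset.sum_nonneg fun _ _ => integral_nonneg fun _ => sq_nonneg _

theorem AT_le {ξ : ℕ → X → X → ℝ} {c : ℝ} (hb : ∀ k x y, |ξ k x y| ≤ c) (n : ℕ) (w : ℕ → X) :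
    AT q ξ n w ≤ n * c ^ 2 := by
  have : ∀ j ∈ Finset.range n, ∫ y, ξ j (w j) y ^ 2 ∂(q (w j)) ≤ c ^ 2 := fun j _ => by
    have hb2 : ∀ y, |ξ j (w j) y ^ 2| ≤ c ^ 2 := fun y => by
      rw [abs_pow]; exact pow_le_pow_left₀ (abs_nonneg _) (hb j _ y) 2
    have := integral_mono (integrable_of_bdd q hb2 (w j)) (integrable_const (c ^ 2))
      (fun y => (le_abs_self _).trans (hb2 y))
    simpa using this
  refine (Finset.sum_le_sum this).trans ?_
  simp

/-- the exponential martingale -/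
theorem clt_aux {c : ℝ} (hc1 : c ≤ 1) (n : ℕ) (x : X) (ξ : ℕ → X → X → ℝ)
    (hb : ∀ k x y, |ξ k x y| ≤ c) (h0 : ∀ k x, ∫ y, ξ k x y ∂(q x) = 0) :
    ‖∫ w, Complex.exp ((ST ξ n w : ℂ) * Complex.I + ((AT q ξ n w / 2 : ℝ) : ℂ)) ∂(P q x) - 1‖ ≤
      Real.exp (n * c ^ 2 / 2) * (n * c ^ 3) := by
  have hc0 : 0 ≤ c := (abs_nonneg _).trans (hb 0 x x)
  induction n generalizing x ξ with
  | zero => simp [ST, AT]
  | succ n ih =>
    have hnorm : ∀ (n : ℕ) (ξ : ℕ → X → X → ℝ), (∀ k x y, |ξ k x y| ≤ c) → ∀ w : ℕ → X,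
        ‖Complex.exp ((ST ξ n w : ℂ) * Complex.I + ((AT q ξ n w / 2 : ℝ) : ℂ))‖ ≤
          Real.exp (n * c ^ 2 / 2) := by
      intro n ξ hb w
      rw [Complex.norm_exp]
      refine Real.exp_le_exp.2 ?_
      have := AT_le q hb n w
      simp
      linarith
    have hint : ∀ (n : ℕ) (ξ : ℕ → X → X → ℝ), (∀ k x y, |ξ k x y| ≤ c) → ∀ x,
        Integrable (fun w => Complex.exp ((ST ξ n w : ℂ) * Complex.I +
          ((AT q ξ n w / 2 : ℝ) : ℂ))) (P q x) := by
      intro n ξ hb x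
      refine Integrable.of_bound (Measurable.aestronglyMeasurable ?_) _
        (Eventually.of_forall (hnorm n ξ hb))
      refine Dep.measurable (N := n) ?_
      intro w w' hw
      show Complex.exp _ = Complex.exp _
      rw [dep_ST ξ le_rfl w w' hw, dep_AT q ξ le_rfl w w' hw]
    set σ := ∫ y, ξ 0 x y ^ 2 ∂(q x) with hσ
    set ξ' : ℕ → X → X → ℝ := fun j => ξ (j + 1) with hξ'
    set J : X → ℂ := fun y => ∫ w, Complex.exp ((ST ξ' n w : ℂ) * Complex.I +
      ((AT q ξ' n w / 2 : ℝ) : ℂ)) ∂(P q y) with hJ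
    have hJb : ∀ y, ‖J y - 1‖ ≤ Real.exp (n * c ^ 2 / 2) * (n * c ^ 3) := fun y =>
      ih y ξ' (fun k => hb (k + 1)) (fun k => h0 (k + 1))
    have e1 : ∫ w, Complex.exp ((ST ξ (n + 1) w : ℂ) * Complex.I +
        ((AT q ξ (n + 1) w / 2 : ℝ) : ℂ)) ∂(P q x) =
        ∫ y, Complex.exp ((ξ 0 x y : ℂ) * Complex.I + ((σ / 2 : ℝ) : ℂ)) * J y ∂(q x) := by
      rw [integral_P q x (hint (n + 1) ξ hb x)]
      refine integral_congr_ae (Eventually.of_forall fun y => ?_)
      simp only [hJ]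
      rw [← integral_const_mul]
      refine integral_congr_ae ?_
      filter_upwards [P_zero q y] with w hw
      rw [ST_cons, AT_cons, hw, ← Complex.exp_add]
      congr 1
      push_cast
      ring
    have hn1 : ∀ y, ‖Complex.exp ((ξ 0 x y : ℂ) * Complex.I + ((σ / 2 : ℝ) : ℂ))‖ =
        Real.exp (σ / 2) := fun y => by
      rw [Complex.norm_exp]; simp
    have hσ1 : σ ≤ c ^ 2 := by
      have hb2 : ∀ y, |ξ 0 x y ^ 2| ≤ c ^ 2 := fun y => by
        rw [abs_pow]; exact pow_le_pow_left₀ (abs_nonneg _) (hb 0 x y) 2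
      have := integral_mono (integrable_of_bdd q hb2 x) (integrable_const (c ^ 2))
        (fun y => (le_abs_self _).trans (hb2 y))
      simpa using this
    have i1 : Integrable (fun y => Complex.exp ((ξ 0 x y : ℂ) * Complex.I +
        ((σ / 2 : ℝ) : ℂ))) (q x) :=
      Integrable.of_bound (measurable_of_countable _).aestronglyMeasurable _
        (Eventually.of_forall fun y => (hn1 y).le)
    have i2 : Integrable (fun y => Complex.exp ((ξ 0 x y : ℂ) * Complex.I +
        ((σ / 2 : ℝ) : ℂ)) * (J y - 1)) (q x) :=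
      Integrable.of_bound (measurable_of_countable _).aestronglyMeasurable
        (Real.exp (σ / 2) * (Real.exp (n * c ^ 2 / 2) * (n * c ^ 3)))
        (Eventually.of_forall fun y => by
          rw [norm_mul, hn1]
          exact mul_le_mul_of_nonneg_left (hJb y) (Real.exp_pos _).le)
    have e2 : ∫ y, Complex.exp ((ξ 0 x y : ℂ) * Complex.I + ((σ / 2 : ℝ) : ℂ)) * J y ∂(q x) - 1 =
        ∫ y, Complex.exp ((ξ 0 x y : ℂ) * Complex.I + ((σ / 2 : ℝ) : ℂ)) * (J y - 1) ∂(q x) +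
        ((Real.exp (σ / 2) : ℝ) : ℂ) * (∫ y, Complex.exp ((ξ 0 x y : ℂ) * Complex.I) ∂(q x) -
          ((Real.exp (-(σ / 2)) : ℝ) : ℂ)) := by
      have e3 : ∫ y, Complex.exp ((ξ 0 x y : ℂ) * Complex.I + ((σ / 2 : ℝ) : ℂ)) * J y ∂(q x) =
          ∫ y, Complex.exp ((ξ 0 x y : ℂ) * Complex.I + ((σ / 2 : ℝ) : ℂ)) * (J y - 1) ∂(q x) +
          ∫ y, Complex.exp ((ξ 0 x y : ℂ) * Complex.I + ((σ / 2 : ℝ) : ℂ)) ∂(q x) := by
        rw [← integral_add i2 i1]
        refine integral_congr_ae (Eventually.of_forall fun y => ?_)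
        simp only
        ring
      have e4 : ∫ y, Complex.exp ((ξ 0 x y : ℂ) * Complex.I + ((σ / 2 : ℝ) : ℂ)) ∂(q x) =
          ((Real.exp (σ / 2) : ℝ) : ℂ) * ∫ y, Complex.exp ((ξ 0 x y : ℂ) * Complex.I) ∂(q x) := by
        rw [← integral_const_mul]
        refine integral_congr_ae (Eventually.of_forall fun y => ?_)
        simp only
        rw [Complex.exp_add, mul_comm, Complex.ofReal_exp]
      rw [e3, e4, mul_sub, ← Complex.ofReal_mul, ← Real.exp_add, add_neg_cancel, Real.exp_zero]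
      push_cast
      ring
    rw [e1, e2]
    have n1 : ‖∫ y, Complex.exp ((ξ 0 x y : ℂ) * Complex.I + ((σ / 2 : ℝ) : ℂ)) * (J y - 1) ∂(q x)‖ ≤
        Real.exp (c ^ 2 / 2) * (Real.exp (n * c ^ 2 / 2) * (n * c ^ 3)) := by
      refine (norm_integral_le_integral_norm _).trans ?_
      have : ∀ y, ‖Complex.exp ((ξ 0 x y : ℂ) * Complex.I + ((σ / 2 : ℝ) : ℂ)) * (J y - 1)‖ ≤
          Real.exp (c ^ 2 / 2) * (Real.exp (n * c ^ 2 / 2) * (n * c ^ 3)) := fun y => by
        rw [norm_mul, hn1]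
        exact mul_le_mul (Real.exp_le_exp.2 (by linarith)) (hJb y) (norm_nonneg _)
          (Real.exp_pos _).le
      refine (integral_mono_of_nonneg (Eventually.of_forall fun y => norm_nonneg _)
        (integrable_const _) (Eventually.of_forall this)).trans ?_
      simp
    have n2 : ‖((Real.exp (σ / 2) : ℝ) : ℂ) * (∫ y, Complex.exp ((ξ 0 x y : ℂ) * Complex.I) ∂(q x) -
          ((Real.exp (-(σ / 2)) : ℝ) : ℂ))‖ ≤ Real.exp (c ^ 2 / 2) * c ^ 3 := by
      rw [norm_mul, Complex.norm_real, Real.norm_eq_abs, abs_of_pos (Real.exp_pos _)]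
      exact mul_le_mul (Real.exp_le_exp.2 (by linarith)) (one_step q hc1 (hb 0 x) x (h0 0 x))
        (norm_nonneg _) (Real.exp_pos _).le
    refine (norm_add_le _ _).trans ((add_le_add n1 n2).trans ?_)
    have e5 : Real.exp (((n + 1 : ℕ) : ℝ) * c ^ 2 / 2) =
        Real.exp (c ^ 2 / 2) * Real.exp (n * c ^ 2 / 2) := by
      rw [← Real.exp_add]; congr 1; push_cast; ring
    rw [e5]
    have h1 : 1 ≤ Real.exp (n * c ^ 2 / 2) := Real.one_le_exp (by positivity)
    have h2 : 0 ≤ Real.exp (c ^ 2 / 2) * c ^ 3 := by positivity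
    push_cast
    nlinarith

theorem abs_exp_sub_one_le {u B : ℝ} (h : u ≤ B) (hB : 0 ≤ B) :
    |Real.exp u - 1| ≤ |u| * Real.exp B := by
  have hB1 : 1 ≤ Real.exp B := Real.one_le_exp hB
  rcases le_total 0 u with hu | hu
  · rw [abs_of_nonneg hu, abs_of_nonneg (by linarith [Real.one_le_exp hu])]
    have h1 := Real.add_one_le_exp (-u)
    have h2 : Real.exp u * Real.exp (-u) = 1 := by rw [← Real.exp_add]; simp
    have h3 := Real.exp_pos u
    have h4 : Real.exp u ≤ Real.exp B := Real.exp_le_exp.2 h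
    nlinarith
  · rw [abs_of_nonpos hu, abs_of_nonpos (by linarith [Real.exp_le_one_iff.2 hu])]
    have h1 := Real.add_one_le_exp u
    nlinarith

/-- **quantitative central limit theorem** -/
theorem clt {c : ℝ} (hc1 : c ≤ 1) (n : ℕ) (x : X) (ξ : ℕ → X → X → ℝ)
    (hb : ∀ k x y, |ξ k x y| ≤ c) (h0 : ∀ k x, ∫ y, ξ k x y ∂(q x) = 0) {v B : ℝ} (hv0 : 0 ≤ v)
    (hB : n * c ^ 2 ≤ B) :
    ‖∫ w, Complex.exp ((ST ξ n w : ℂ) * Complex.I) ∂(P q x) - ((Real.exp (-(v / 2)) : ℝ) : ℂ)‖ ≤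
      Real.exp (B / 2) * (∫ w, |AT q ξ n w - v| ∂(P q x) + n * c ^ 3) := by
  have hc0 : 0 ≤ c := (abs_nonneg _).trans (hb 0 x x)
  have hB0 : 0 ≤ B := le_trans (by positivity) hB
  have hA : ∀ w : ℕ → X, 0 ≤ AT q ξ n w ∧ AT q ξ n w ≤ B := fun w =>
    ⟨AT_nonneg q ξ n w, (AT_le q hb n w).trans hB⟩
  have mA : Measurable (AT q ξ n) := (dep_AT q ξ (le_refl n)).measurable
  have mS : Measurable (ST ξ n) := (dep_ST (X := X) ξ (le_refl n)).measurable
  have i1 : Integrable (fun w => Complex.exp ((ST ξ n w : ℂ) * Complex.I)) (P q x) :=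
    Integrable.of_bound (Measurable.aestronglyMeasurable (by fun_prop)) 1
      (Eventually.of_forall fun w => by rw [Complex.norm_exp_ofReal_mul_I])
  have i2 : Integrable (fun w => Complex.exp ((ST ξ n w : ℂ) * Complex.I +
      ((AT q ξ n w / 2 : ℝ) : ℂ))) (P q x) :=
    Integrable.of_bound (Measurable.aestronglyMeasurable (by fun_prop)) (Real.exp (B / 2))
      (Eventually.of_forall fun w => by
        rw [Complex.norm_exp]
        refine Real.exp_le_exp.2 ?_
        have := (hA w).2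
        simp
        linarith)
  have e1 : ∫ w, Complex.exp ((ST ξ n w : ℂ) * Complex.I) ∂(P q x) -
      ((Real.exp (-(v / 2)) : ℝ) : ℂ) =
      ∫ w, (Complex.exp ((ST ξ n w : ℂ) * Complex.I) - ((Real.exp (-(v / 2)) : ℝ) : ℂ) *
        Complex.exp ((ST ξ n w : ℂ) * Complex.I + ((AT q ξ n w / 2 : ℝ) : ℂ))) ∂(P q x) +
      ((Real.exp (-(v / 2)) : ℝ) : ℂ) * (∫ w, Complex.exp ((ST ξ n w : ℂ) * Complex.I +
      ((AT q ξ n w / 2 : ℝ) : ℂ)) ∂(P q x) - 1) := by
    rw [integral_sub i1 (i2.const_mul _), integral_const_mul]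
    ring
  have hnormle : ∀ w : ℕ → X, ‖Complex.exp ((ST ξ n w : ℂ) * Complex.I) -
      ((Real.exp (-(v / 2)) : ℝ) : ℂ) *
        Complex.exp ((ST ξ n w : ℂ) * Complex.I + ((AT q ξ n w / 2 : ℝ) : ℂ))‖ ≤
      Real.exp (B / 2) * |AT q ξ n w - v| := by
    intro w
    have e2 : Complex.exp ((ST ξ n w : ℂ) * Complex.I) - ((Real.exp (-(v / 2)) : ℝ) : ℂ) *
        Complex.exp ((ST ξ n w : ℂ) * Complex.I + ((AT q ξ n w / 2 : ℝ) : ℂ)) =
        Complex.exp ((ST ξ n w : ℂ) * Complex.I) *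
          (-((Real.exp ((AT q ξ n w - v) / 2) - 1 : ℝ) : ℂ)) := by
      rw [Complex.exp_add, ← Complex.ofReal_exp]
      have : Real.exp ((AT q ξ n w - v) / 2) = Real.exp (-(v / 2)) * Real.exp (AT q ξ n w / 2) := by
        rw [← Real.exp_add]; congr 1; ring
      rw [this]
      push_cast
      ring
    rw [e2, norm_mul, Complex.norm_exp_ofReal_mul_I, one_mul, norm_neg, Complex.norm_real,
      Real.norm_eq_abs]
    have h1 := abs_exp_sub_one_le (u := (AT q ξ n w - v) / 2) (B := B / 2)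
      (by linarith [(hA w).2]) (by linarith)
    refine h1.trans ?_
    rw [abs_div, abs_two]
    have h2 := abs_nonneg (AT q ξ n w - v)
    have h3 := Real.exp_pos (B / 2)
    nlinarith [mul_nonneg h2 h3.le]
  have i3 : Integrable (fun w => |AT q ξ n w - v|) (P q x) :=
    Integrable.of_bound (Measurable.aestronglyMeasurable (by fun_prop)) (B + |v|)
      (Eventually.of_forall fun w => by
        rw [Real.norm_eq_abs, abs_abs]
        refine (abs_sub _ _).trans ?_
        rw [abs_of_nonneg (hA w).1]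
        linarith [(hA w).2])
  rw [e1]
  refine (norm_add_le _ _).trans ?_
  rw [mul_add]
  refine add_le_add ?_ ?_
  · refine (norm_integral_le_integral_norm _).trans ?_
    rw [← integral_const_mul]
    exact integral_mono_of_nonneg (Eventually.of_forall fun _ => norm_nonneg _)
      (i3.const_mul _) (Eventually.of_forall hnormle)
  · rw [norm_mul, Complex.norm_real, Real.norm_eq_abs, abs_of_pos (Real.exp_pos _)]
    have h1 := clt_aux q hc1 n x ξ hb h0
    have h2 : Real.exp (-(v / 2)) ≤ 1 := Real.exp_le_one_iff.2 (by linarith)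
    have h3 : Real.exp (n * c ^ 2 / 2) ≤ Real.exp (B / 2) := Real.exp_le_exp.2 (by linarith)
    have h4 : 0 ≤ n * c ^ 3 := by positivity
    calc _ ≤ 1 * (Real.exp (n * c ^ 2 / 2) * (n * c ^ 3)) :=
          mul_le_mul h2 h1 (norm_nonneg _) zero_le_one
      _ ≤ _ := by rw [one_mul]; exact mul_le_mul_of_nonneg_right h3 h4

end Pool.Agent.H979.QIP
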