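import Mathlib

set_option autoImplicit false
set_option linter.unusedSectionVars false

open MeasureTheory ProbabilityTheory Filter Topology Set
open scoped ENNReal NNReal

/-!
# Markov chains on a countable state space: the law of the path
-/

namespace Pool.Agent.H979.QIP

/-- put a letter in front of a sequence -/
def cons {A : Type*} (x : A) (w : ℕ → A) : ℕ → A
  | 0 => x
  | n + 1 => w n

@[simp] theorem cons_zero {A : Type*} (x : A) (w : ℕ → A) : cons x w 0 = x := rfl
@[simp] theorem cons_succ {A : Type*} (x : A) (w : ℕ → A) (n : ℕ) : cons x w (n + 1) = w n := rfl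

section iid

variable {U : Type*} [MeasurableSpace U]

theorem measurable_cons : Measurable (fun p : U × (ℕ → U) => cons p.1 p.2) := by
  refine measurable_pi_lambda _ fun n => ?_
  cases n with
  | zero => exact measurable_fst
  | succ n => exact (measurable_pi_apply n).comp measurable_snd

theorem iid_cons (ρ : Measure U) [IsProbabilityMeasure ρ] :
    (ρ.prod (Measure.infinitePi (fun _ : ℕ => ρ))).map (fun p => cons p.1 p.2) =
      Measure.infinitePi (fun _ : ℕ => ρ) := by
  classical
  refine Measure.eq_infinitePi _ fun s t ht => ?_
  obtain ⟨N, hN⟩ : ∃ N, s ⊆ Finset.range (N + 1) := by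
    obtain ⟨N, hN⟩ := s.exists_nat_subset_range
    exact ⟨N, hN.trans (Finset.range_mono (Nat.le_succ _))⟩
  set t' : ℕ → Set U := fun i => if i ∈ s then t i else univ with ht'
  have ht'm : ∀ i, MeasurableSet (t' i) := fun i => by
    rw [ht']; dsimp only; split_ifs
    · exact ht i
    · exact MeasurableSet.univ
  have e1 : Set.pi (s : Set ℕ) t = Set.pi (Finset.range (N + 1) : Set ℕ) t' := by
    ext w
    simp only [Set.mem_pi, Finset.mem_coe, ht']
    constructor
    · intro h i _
      split_ifs with hi
      · exact h i hi
      · trivial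
    · intro h i hi
      have := h i (hN hi)
      rwa [if_pos hi] at this
  have e2 : ∏ i ∈ s, ρ (t i) = ∏ i ∈ Finset.range (N + 1), ρ (t' i) := by
    rw [← Finset.prod_subset hN (fun i _ hi => by rw [ht']; simp [hi])]
    refine Finset.prod_congr rfl fun i hi => ?_
    rw [ht']; simp [hi]
  rw [e1, e2, Measure.map_apply measurable_cons
    (MeasurableSet.pi (Finset.countable_toSet _) fun i _ => ht'm i)]
  have e3 : (fun p : U × (ℕ → U) => cons p.1 p.2) ⁻¹' (Set.pi (Finset.range (N + 1) : Set ℕ) t') =
      (t' 0) ×ˢ (Set.pi (Finset.range N : Set ℕ) (fun n => t' (n + 1))) := by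
    ext ⟨x, w⟩
    simp only [Set.mem_preimage, Set.mem_pi, Finset.mem_coe, Finset.mem_range, Set.mem_prod]
    constructor
    · intro h
      exact ⟨h 0 (by omega), fun i hi => h (i + 1) (by omega)⟩
    · rintro ⟨h1, h2⟩ i hi
      cases i with
      | zero => exact h1
      | succ i => exact h2 i (by omega)
  rw [e3, Measure.prod_prod, Measure.infinitePi_pi _ (fun i _ => ht'm (i + 1)),
    Finset.prod_range_succ']
  ring

end iid

section chain

variable {X : Type*} [Countable X] [MeasurableSpace X] [MeasurableSingletonClass X]

/-- the path which starts at `x` and follows the instructions `u` -/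
def path : ℕ → X → (ℕ → X → X) → X
  | 0, x, _ => x
  | n + 1, x, u => path n (u 0 x) (fun k => u (k + 1))

theorem path_cons (x : X) (v : X → X) (u : ℕ → X → X) (n : ℕ) :
    path n x (cons v u) = cons x (fun k => path k (v x) u) n := by
  cases n with
  | zero => rfl
  | succ n => rfl

theorem measurable_path (n : ℕ) (x : X) : Measurable (path n x) := by
  induction n generalizing x with
  | zero => exact measurable_const
  | succ n ih =>
    have h1 : Measurable (fun p : X × (ℕ → X → X) => path n p.1 p.2) :=
      measurable_from_prod_countable_right ih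
    have h2 : Measurable (fun u : ℕ → X → X => (u 0 x, fun k => u (k + 1))) := by
      refine Measurable.prodMk ?_ ?_
      · exact (measurable_pi_apply x).comp (measurable_pi_apply 0)
      · exact measurable_pi_lambda _ fun k => measurable_pi_apply (k + 1)
    exact h1.comp h2

variable (q : X → Measure X)

/-- the law of the path which starts at `x` -/
noncomputable def P (x : X) [∀ x, IsProbabilityMeasure (q x)] : Measure (ℕ → X) :=
  (Measure.infinitePi (fun _ : ℕ => Measure.infinitePi q)).map (fun u n => path n x u)

variable [∀ x, IsProbabilityMeasure (q x)]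

theorem measurable_path' (x : X) : Measurable (fun (u : ℕ → X → X) n => path n x u) :=
  measurable_pi_lambda _ fun n => measurable_path n x

instance (x : X) : IsProbabilityMeasure (P q x) :=
  Measure.isProbabilityMeasure_map (measurable_path' x).aemeasurable

theorem measurable_consX (x : X) : Measurable (fun w : ℕ → X => cons x w) :=
  measurable_cons.comp (measurable_const.prodMk measurable_id)

/-- first step decomposition -/
theorem lintegral_P (x : X) {f : (ℕ → X) → ℝ≥0∞} (hf : Measurable f) :
    ∫⁻ w, f w ∂(P q x) = ∫⁻ y, ∫⁻ w, f (cons x w) ∂(P q y) ∂(q x) := by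
  have hfc : Measurable (fun w : ℕ → X => f (cons x w)) := hf.comp (measurable_consX x)
  unfold P
  rw [lintegral_map hf (measurable_path' x)]
  conv_lhs => rw [← iid_cons (Measure.infinitePi q)]
  rw [lintegral_map (f := fun u : ℕ → X → X => f (fun n => path n x u))
    (hf.comp (measurable_path' x)) measurable_cons, lintegral_prod]
  · have h1 : ∀ v : X → X, ∫⁻ u, f (fun n => path n x (cons v u))
        ∂(Measure.infinitePi (fun _ : ℕ => Measure.infinitePi q)) =
        (fun y => ∫⁻ u, f (cons x (fun k => path k y u))
        ∂(Measure.infinitePi (fun _ : ℕ => Measure.infinitePi q))) (v x) := fun v => by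
      refine lintegral_congr fun u => ?_
      congr 1
      funext n
      exact path_cons x v u n
    rw [lintegral_congr h1]
    have h2 := Measure.infinitePi_map_eval q x
    conv_rhs => rw [← h2]
    rw [lintegral_map (measurable_of_countable _) (measurable_pi_apply x)]
    refine lintegral_congr fun v => ?_
    rw [lintegral_map hfc (measurable_path' _)]
  · exact ((hf.comp (measurable_path' x)).comp measurable_cons).aemeasurable

theorem P_apply (x : X) {A : Set (ℕ → X)} (hA : MeasurableSet A) :
    P q x A = ∫⁻ y, P q y {w | cons x w ∈ A} ∂(q x) := by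
  have h := lintegral_P q x (f := A.indicator 1) (measurable_one.indicator hA)
  rw [lintegral_indicator_one hA] at h
  rw [h]
  refine lintegral_congr fun y => ?_
  have : (fun w : ℕ → X => A.indicator (1 : (ℕ → X) → ℝ≥0∞) (cons x w)) =
      ({w | cons x w ∈ A} : Set (ℕ → X)).indicator 1 := by
    ext w
    simp [Set.indicator]
  rw [this]
  exact lintegral_indicator_one (measurable_consX x hA)

/-- the law of the path as an image -/
theorem P_eq_map (x : X) : P q x = ((q x).bind (fun y => (P q y).map (cons x))) := by
  ext A hA
  rw [P_apply q x hA, Measure.bind_apply hA (measurable_of_countable _).aemeasurable]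
  refine lintegral_congr fun y => ?_
  rw [Measure.map_apply (measurable_consX x) hA]
  rfl

theorem P_zero (x : X) : ∀ᵐ w ∂(P q x), w 0 = x := by
  unfold P
  rw [ae_map_iff (measurable_path' x).aemeasurable
    (measurableSet_eq_fun (measurable_pi_apply 0) measurable_const)]
  exact Filter.Eventually.of_forall fun u => rfl

/-- first step decomposition for integrals -/
theorem integral_P {F : Type*} [NormedAddCommGroup F] [NormedSpace ℝ F] (x : X) {f : (ℕ → X) → F}
    (hf : Integrable f (P q x)) :
    ∫ w, f w ∂(P q x) = ∫ y, ∫ w, f (cons x w) ∂(P q y) ∂(q x) := by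
  let κ : Kernel X (ℕ → X) := ⟨fun y => (P q y).map (cons x), measurable_of_countable _⟩
  have e : P q x = (κ ∘ₖ Kernel.const Unit (q x)) () := by
    rw [← Measure.comp_eq_comp_const_apply, P_eq_map]; rfl
  rw [e] at hf ⊢
  rw [Kernel.integral_comp hf]
  have h1 : (Kernel.const Unit (q x)) () = q x := rfl
  rw [h1]
  have h2 := Measure.ae_integrable_of_integrable_comp (μ := q x) (κ := κ) (f := f)
    (by rw [Measure.comp_eq_comp_const_apply]; exact hf)
  refine integral_congr_ae ?_
  filter_upwards [h2] with y hy
  exact integral_map (measurable_consX x).aemeasurable hy.1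

theorem integrable_cons {F : Type*} [NormedAddCommGroup F] (x : X) {f : (ℕ → X) → F}
    (hf : Integrable f (P q x)) : ∀ᵐ y ∂(q x), Integrable (fun w => f (cons x w)) (P q y) := by
  let κ : Kernel X (ℕ → X) := ⟨fun y => (P q y).map (cons x), measurable_of_countable _⟩
  have e : P q x = (κ ∘ₖ Kernel.const Unit (q x)) () := by
    rw [← Measure.comp_eq_comp_const_apply, P_eq_map]; rfl
  have h2 := Measure.ae_integrable_of_integrable_comp (μ := q x) (κ := κ) (f := f)
    (by rw [Measure.comp_eq_comp_const_apply, ← e]; exact hf)
  filter_upwards [h2] with y hy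
  exact hy.comp_measurable (measurable_consX x)

/-- the transition operator -/
noncomputable def K (f : X → ℝ≥0∞) (x : X) : ℝ≥0∞ := ∫⁻ y, f y ∂(q x)

theorem markov_shift (m : ℕ) (x : X) {f : (ℕ → X) → ℝ≥0∞} (hf : Measurable f) :
    ∫⁻ w, f (fun k => w (m + k)) ∂(P q x) = (K q)^[m] (fun y => ∫⁻ w, f w ∂(P q y)) x := by
  induction m generalizing x with
  | zero => simp
  | succ m ih =>
    have hm : Measurable (fun w : ℕ → X => f (fun k => w (m + 1 + k))) :=
      hf.comp (measurable_pi_lambda _ fun k => measurable_pi_apply _)
    rw [lintegral_P q x hm, Function.iterate_succ_apply']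
    unfold K
    refine lintegral_congr fun y => ?_
    have : (fun w : ℕ → X => f (fun k => cons x w (m + 1 + k))) =
        (fun w : ℕ → X => f (fun k => w (m + k))) := by
      ext w
      congr 1
      ext k
      have : m + 1 + k = (m + k) + 1 := by ring
      rw [this, cons_succ]
    rw [this, ih y]
    rfl

theorem lintegral_coord (m : ℕ) (x : X) (f : X → ℝ≥0∞) :
    ∫⁻ w, f (w m) ∂(P q x) = (K q)^[m] f x := by
  have h := markov_shift q m x (f := fun w => f (w 0))
    ((measurable_of_countable f).comp (measurable_pi_apply 0))
  simp only [add_zero] at h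
  rw [h]
  have e : (fun y => ∫⁻ (w : ℕ → X), f (w 0) ∂P q y) = f := ?_
  · rw [e]
  funext y
  rw [lintegral_congr_ae (g := fun _ => f y), lintegral_const, measure_univ, mul_one]
  filter_upwards [P_zero q y] with w hw
  rw [hw]

end chain

end Pool.Agent.H979.QIP
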