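import Pool.Agent.H979.QIP.QAvg2

set_option autoImplicit false
set_option linter.unusedSectionVars false
set_option linter.deprecated false
set_option linter.unusedVariables false
set_option linter.style.haveILetI false

open MeasureTheory ProbabilityTheory Filter Topology Set
open scoped ENNReal NNReal InnerProductSpace

/-!
# The corrector
-/

namespace Pool.Agent.H979.QIP

variable {Ω : Type*} [MeasurableSpace Ω] {d : ℕ} {μ : Measure Ω} {τ : Vd d → Ω → Ω}
  {q : Ω → Vd d → ℝ≥0∞} [IsProbabilityMeasure μ]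

/-- the gradient of a function of the environment -/
def grad (τ : Vd d → Ω → Ω) (φ : Ω → ℝ) (p : Ω × Vd d) : ℝ := φ (τ p.2 p.1) - φ p.1

theorem measurable_grad (h : Sta μ τ) {φ : Ω → ℝ} (hφ : Measurable φ) : Measurable (grad τ φ) :=
  (hφ.comp (measurable_T2 h)).sub (hφ.comp measurable_fst)

theorem grad_bdd {φ : Ω → ℝ} {c : ℝ} (hc : ∀ ω, |φ ω| ≤ c) (p : Ω × Vd d) :
    |grad τ φ p| ≤ c + c :=
  (abs_sub _ _).trans (add_le_add (hc _) (hc _))

/-- the gradients of bounded functions -/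
noncomputable def pot (h : Sta μ τ) (hq : Ker τ q) : Submodule ℝ (Lp ℝ 2 (nu h hq)) where
  carrier := {F | ∃ φ : Ω → ℝ, Measurable φ ∧ (∃ c, ∀ ω, |φ ω| ≤ c) ∧ F =ᵐ[nu h hq] grad τ φ}
  add_mem' := by
    rintro F F' ⟨f, hf, ⟨c, hc⟩, hF⟩ ⟨f', hf', ⟨c', hc'⟩, hF'⟩
    refine ⟨fun ω => f ω + f' ω, hf.add hf', ⟨c + c', fun ω => (abs_add_le _ _).trans
      (add_le_add (hc ω) (hc' ω))⟩, ?_⟩
    filter_upwards [hF, hF', Lp.coeFn_add F F'] with ω h1 h2 h3
    rw [h3, Pi.add_apply, h1, h2]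
    unfold grad
    ring
  zero_mem' := by
    refine ⟨fun _ => 0, measurable_const, ⟨0, fun ω => by simp⟩, ?_⟩
    filter_upwards [Lp.coeFn_zero ℝ 2 (nu h hq)] with ω h1
    rw [h1]
    simp [grad]
  smul_mem' := by
    rintro a F ⟨f, hf, ⟨c, hc⟩, hF⟩
    refine ⟨fun ω => a * f ω, hf.const_mul a, ⟨|a| * c, fun ω => by
      rw [abs_mul]; exact mul_le_mul_of_nonneg_left (hc ω) (abs_nonneg _)⟩, ?_⟩
    filter_upwards [hF, Lp.coeFn_smul a F] with ω h1 h3
    rw [h3, Pi.smul_apply, h1, smul_eq_mul]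
    unfold grad
    ring

theorem lintegral_VR (h : Sta μ τ) (hq : Ker τ q) {F : Ω × Vd d → ℝ} (hF : Measurable F) :
    ∫⁻ ω, VR q (fun ω y => F (ω, y)) ω ∂μ = ∫⁻ p, ENNReal.ofReal (F p ^ 2) ∂(nu h hq) := by
  rw [lintegral_nu h hq ((hF.pow_const 2).ennreal_ofReal)]
  rfl

theorem memLp_iff (h : Sta μ τ) (hq : Ker τ q) {F : Ω × Vd d → ℝ} (hF : Measurable F) :
    MemLp F 2 (nu h hq) ↔ ∫⁻ p, ENNReal.ofReal (F p ^ 2) ∂(nu h hq) ≠ ∞ := by
  rw [memLp_two_iff_integrable_sq_norm hF.aestronglyMeasurable]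
  have e : (fun p => ‖F p‖ ^ 2) = fun p => F p ^ 2 := by
    funext p; rw [Real.norm_eq_abs, sq_abs]
  rw [e]
  constructor
  · intro hi
    have := hi.2
    rw [hasFiniteIntegral_iff_norm] at this
    refine ne_of_lt (lt_of_le_of_lt (lintegral_mono fun p => ?_) this)
    rw [Real.norm_eq_abs, abs_of_nonneg (sq_nonneg _)]
  · intro hi
    refine ⟨(hF.pow_const 2).aestronglyMeasurable, ?_⟩
    rw [hasFiniteIntegral_iff_norm]
    refine lt_of_le_of_lt (lintegral_mono fun p => ?_) (lt_top_iff_ne_top.2 hi)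
    rw [Real.norm_eq_abs, abs_of_nonneg (sq_nonneg _)]

theorem sq_eLpNorm (h : Sta μ τ) (hq : Ker τ q) (F : Ω × Vd d → ℝ) :
    ∫⁻ p, ENNReal.ofReal (F p ^ 2) ∂(nu h hq) = eLpNorm F 2 (nu h hq) ^ 2 := by
  rw [eLpNorm_eq_lintegral_rpow_enorm_toReal (by norm_num) (by norm_num)]
  simp only [ENNReal.toReal_ofNat, one_div]
  rw [← ENNReal.rpow_natCast, ← ENNReal.rpow_mul]
  norm_num
  refine lintegral_congr fun p => ?_
  rw [← sq_abs, ENNReal.ofReal_pow (abs_nonneg _), ← Real.enorm_eq_ofReal_abs]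

/-- the displacement in direction `i` as a function on the product -/
theorem measurable_co (i : Fin d) : Measurable (fun p : Ω × Vd d => (p.2 i : ℝ)) :=
  (measurable_of_countable (fun y : Vd d => (y i : ℝ))).comp measurable_snd

theorem exists_corrector (h : Sta μ τ) (hq : Ker τ q) (i : Fin d)
    (hfin : ∫⁻ ω, VR q (co i) ω ∂μ ≠ ∞) (ε : ℕ → ℝ) (hε : ∀ j, 0 < ε j) :
    ∃ (G : Ω → Vd d → ℝ) (φ : ℕ → Ω → ℝ), (∀ y, Measurable (fun ω => G ω y)) ∧
      (∀ ω y, G ω y = - G (τ y ω) (-y)) ∧ (∫⁻ ω, VR q G ω ∂μ ≠ ∞) ∧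
      (∀ᵐ ω ∂μ, ∫ y, G ω y ∂(qM τ q ω 0) = 0) ∧ (∀ j, Measurable (φ j)) ∧
      (∀ j, ∃ c, ∀ ω, |φ j ω| ≤ c) ∧
      ∀ j, ∫⁻ ω, VR q (fun ω y => co i ω y - G ω y - (φ j (τ y ω) - φ j ω)) ω ∂μ ≤
        ENNReal.ofReal (ε j) := by
  have hbm := measurable_co (Ω := Ω) i
  have hb2 : MemLp (fun p : Ω × Vd d => (p.2 i : ℝ)) 2 (nu h hq) := by
    rw [memLp_iff h hq hbm, ← lintegral_VR h hq hbm]
    exact hfin
  set b : Lp ℝ 2 (nu h hq) := hb2.toLp _ with hb
  set Kc := (pot h hq).topologicalClosure with hKc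
  haveI : CompleteSpace Kc := (Submodule.isClosed_topologicalClosure _).completeSpace_coe
  obtain ⟨p, hp, hbp⟩ : ∃ p ∈ Kc, b - p ∈ Kcᗮ :=
    ⟨Kc.starProjection b, Submodule.starProjection_apply_mem _ _,
      Submodule.sub_starProjection_mem_orthogonal _⟩
  -- approximation of `p`
  have happ : ∀ δ : ℝ, 0 < δ → ∃ φ : Ω → ℝ, Measurable φ ∧ (∃ c, ∀ ω, |φ ω| ≤ c) ∧
      eLpNorm (fun z => p z - grad τ φ z) 2 (nu h hq) ≤ ENNReal.ofReal δ := by
    intro δ hδ
    rw [hKc, ← SetLike.mem_coe, Submodule.topologicalClosure_coe, Metric.mem_closure_iff] at hp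
    obtain ⟨F, ⟨φ, hφ, hφb, hF⟩, hdist⟩ := hp δ hδ
    refine ⟨φ, hφ, hφb, ?_⟩
    have e1 : eLpNorm (fun z => p z - grad τ φ z) 2 (nu h hq) = ENNReal.ofReal (dist p F) := by
      rw [← edist_dist, Lp.edist_def]
      refine eLpNorm_congr_ae ?_
      filter_upwards [hF] with z hz
      rw [Pi.sub_apply, hz]
    rw [e1]
    exact ENNReal.ofReal_le_ofReal hdist.le
  obtain ⟨pf, hpf⟩ : ∃ pf : Ω × Vd d → ℝ, pf = fun z => p z := ⟨_, rfl⟩
  have hpfm : Measurable pf := by rw [hpf]; exact (Lp.stronglyMeasurable p).measurable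
  have hpf2 : MemLp pf 2 (nu h hq) := by rw [hpf]; exact Lp.memLp p
  -- the function `G0`
  set G0 : Ω × Vd d → ℝ := fun z => (z.2 i : ℝ) - pf z with hG0
  have hG0m : Measurable G0 := hbm.sub hpfm
  have hG02 : MemLp G0 2 (nu h hq) := hb2.sub hpf2
  set fl : Ω × Vd d → Ω × Vd d := fun z => (τ z.2 z.1, -z.2) with hfl
  have hflm : Measurable fl := measurable_flip h
  have hflp : MeasurePreserving fl (nu h hq) (nu h hq) := mp_flip h hq
  have hflfl : ∀ z, fl (fl z) = z := by
    rintro ⟨ω, y⟩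
    simp only [hfl, neg_neg]
    rw [h.add, add_neg_cancel, h.zero]
  -- antisymmetry of `p`
  have hanti : ∀ᵐ z ∂(nu h hq), pf (fl z) + pf z = 0 := by
    have hz : eLpNorm (fun z => pf (fl z) + pf z) 2 (nu h hq) = 0 := by
      refine le_antisymm (ENNReal.le_of_forall_pos_le_add fun δ hδ _ => ?_) zero_le
      obtain ⟨φ, hφ, ⟨c, hc⟩, hφd⟩ := happ (δ / 2) (by positivity)
      have hgm := measurable_grad h hφ
      have e1 : (fun z => pf (fl z) + pf z) =
          (fun z => (pf z - grad τ φ z)) ∘ fl + fun z => (pf z - grad τ φ z) := by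
        funext z
        have : grad τ φ (fl z) = - grad τ φ z := by
          obtain ⟨ω, y⟩ := z
          simp only [grad, hfl]
          rw [h.add, add_neg_cancel, h.zero]
          ring
        simp only [Pi.add_apply, Function.comp_apply, this]
        ring
      rw [e1, zero_add]
      refine (eLpNorm_add_le ((hpfm.sub hgm).comp hflm).aestronglyMeasurable
        (hpfm.sub hgm).aestronglyMeasurable (by norm_num)).trans ?_
      have e2 : eLpNorm ((fun z => (pf z - grad τ φ z)) ∘ fl) 2 (nu h hq) =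
          eLpNorm (fun z => (pf z - grad τ φ z)) 2 (nu h hq) :=
        eLpNorm_comp_measurePreserving (hpfm.sub hgm).aestronglyMeasurable hflp
      change eLpNorm ((fun z => pf z - grad τ φ z) ∘ fl) 2 (nu h hq) +
        eLpNorm (fun z => pf z - grad τ φ z) 2 (nu h hq) ≤ δ
      rw [e2]
      have hφd : eLpNorm (fun z => pf z - grad τ φ z) 2 (nu h hq) ≤ ENNReal.ofReal (δ / 2) := by
        rw [hpf]; exact hφd
      refine (add_le_add hφd hφd).trans (le_of_eq ?_)
      rw [← ENNReal.ofReal_add (by positivity) (by positivity), add_halves]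
      exact ENNReal.ofReal_coe_nnreal
    have := (eLpNorm_eq_zero_iff ((hpfm.comp hflm).add hpfm).aestronglyMeasurable
      (by norm_num)).1 hz
    filter_upwards [this] with z hz'
    exact hz'
  -- the antisymmetric version
  set G1 : Ω × Vd d → ℝ := fun z => (G0 z - G0 (fl z)) / 2 with hG1
  have hG1m : Measurable G1 := (hG0m.sub (hG0m.comp hflm)).div_const 2
  have hG10 : ∀ᵐ z ∂(nu h hq), G1 z = G0 z := by
    filter_upwards [hanti] with z hz
    have : G0 (fl z) = - G0 z := by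
      simp only [hG0, hfl, Pi.neg_apply, Int.cast_neg] at hz ⊢
      linarith
    simp only [hG1, this]
    ring
  have hG12 : MemLp G1 2 (nu h hq) := hG02.ae_eq (hG10.mono fun z hz => hz.symm)
  have hG1a : ∀ z, G1 (fl z) = - G1 z := by
    intro z
    simp only [hG1, hflfl]
    ring
  -- orthogonality
  have horth : ∀ φ : Ω → ℝ, Measurable φ → (∃ c, ∀ ω, |φ ω| ≤ c) →
      ∫ z, grad τ φ z * G1 z ∂(nu h hq) = 0 := by
    rintro φ hφ ⟨c, hc⟩
    have hgm := measurable_grad h hφ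
    have hg2 : MemLp (grad τ φ) 2 (nu h hq) :=
      MemLp.of_bound hgm.aestronglyMeasurable (c + c) (Eventually.of_forall (grad_bdd hc))
    have hmem : hg2.toLp _ ∈ Kc :=
      Submodule.le_topologicalClosure _ ⟨φ, hφ, ⟨c, hc⟩, hg2.coeFn_toLp⟩
    have h1 := (Submodule.mem_orthogonal _ _).1 hbp _ hmem
    rw [L2.inner_def] at h1
    rw [← h1]
    refine integral_congr_ae ?_
    filter_upwards [hg2.coeFn_toLp, hG10, Lp.coeFn_sub b p, hb2.coeFn_toLp] with z z1 z2 z3 z4
    rw [z1, z2, z3, Pi.sub_apply, hb, z4]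
    simp [hG0, hpf, mul_comm]
  have hG1i : Integrable G1 (nu h hq) := hG12.integrable (by norm_num)
  have hdrift0 : ∀ φ : Ω → ℝ, Measurable φ → (∃ c, ∀ ω, |φ ω| ≤ c) →
      ∫ z, φ z.1 * G1 z ∂(nu h hq) = 0 := by
    rintro φ hφ ⟨c, hc⟩
    have i1 : Integrable (fun z : Ω × Vd d => φ z.1 * G1 z) (nu h hq) :=
      hG1i.bdd_mul (f := fun z : Ω × Vd d => φ z.1) (c := c)
        (hφ.comp measurable_fst).aestronglyMeasurable (Eventually.of_forall fun z => hc _)
    have i2 : Integrable (fun z : Ω × Vd d => φ (τ z.2 z.1) * G1 z) (nu h hq) :=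
      hG1i.bdd_mul (f := fun z : Ω × Vd d => φ (τ z.2 z.1)) (c := c)
        (hφ.comp (measurable_T2 h)).aestronglyMeasurable (Eventually.of_forall fun z => hc _)
    have h1 := horth φ hφ ⟨c, hc⟩
    have e1 : ∫ z, grad τ φ z * G1 z ∂(nu h hq) =
        ∫ z, φ (τ z.2 z.1) * G1 z ∂(nu h hq) - ∫ z, φ z.1 * G1 z ∂(nu h hq) := by
      rw [← integral_sub i2 i1]
      refine integral_congr_ae (Eventually.of_forall fun z => ?_)
      simp only [grad]
      ring
    have e2 : ∫ z, φ (τ z.2 z.1) * G1 z ∂(nu h hq) = - ∫ z, φ z.1 * G1 z ∂(nu h hq) := by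
      have h2 : ∫ z, φ (τ z.2 z.1) * G1 z ∂(nu h hq) =
          ∫ z, φ (τ (fl z).2 (fl z).1) * G1 (fl z) ∂(nu h hq) := by
        conv_lhs => rw [← hflp.map_eq]
        exact integral_map (f := fun z : Ω × Vd d => φ (τ z.2 z.1) * G1 z) hflm.aemeasurable
          ((hφ.comp (measurable_T2 h)).mul hG1m).aestronglyMeasurable
      rw [h2, ← integral_neg]
      refine integral_congr_ae (Eventually.of_forall fun z => ?_)
      simp only
      have : τ (fl z).2 (fl z).1 = z.1 := by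
        obtain ⟨ω, y⟩ := z
        simp only [hfl]
        rw [h.add, add_neg_cancel, h.zero]
      rw [this, hG1a]
      ring
    rw [e1, e2] at h1
    linarith
  -- the drift
  set g : Ω → ℝ := fun ω => ∫ y, G1 (ω, y) ∂(qM τ q ω 0) with hg
  have hgm : Measurable g := by
    have := (hG1m.stronglyMeasurable).integral_kernel_prod_right' (κ := kap h hq)
    exact this.measurable
  have hcomp : ∀ φ : Ω → ℝ, Measurable φ → (∃ c, ∀ ω, |φ ω| ≤ c) →
      ∫ ω, φ ω * g ω ∂μ = 0 := by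
    rintro φ hφ ⟨c, hc⟩
    have i1 : Integrable (fun z : Ω × Vd d => φ z.1 * G1 z) (nu h hq) :=
      hG1i.bdd_mul (f := fun z : Ω × Vd d => φ z.1) (c := c)
        (hφ.comp measurable_fst).aestronglyMeasurable (Eventually.of_forall fun z => hc _)
    have h1 := hdrift0 φ hφ ⟨c, hc⟩
    unfold nu at h1 i1
    rw [Measure.integral_compProd i1] at h1
    rw [← h1]
    refine integral_congr_ae (Eventually.of_forall fun ω => ?_)
    simp only
    rw [integral_const_mul, kap_apply]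
  have hgi : Integrable g μ := by
    have := hG1i
    unfold nu at this
    exact this.integral_compProd
  have hg0 : ∀ᵐ ω ∂μ, g ω = 0 := by
    have h1 := hcomp (fun ω => SignType.sign (g ω)) ?_ ⟨1, fun ω => ?_⟩
    · have h2 : ∫ ω, |g ω| ∂μ = 0 := by
        rw [← h1]
        refine integral_congr_ae (Eventually.of_forall fun ω => ?_)
        simp only
        rw [sign_mul_self]
      have h3 := (integral_eq_zero_iff_of_nonneg (fun ω => abs_nonneg _) hgi.abs).1 h2
      filter_upwards [h3] with ω hω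
      exact abs_eq_zero.1 hω
    · have : (fun ω => ((SignType.sign (g ω) : SignType) : ℝ)) =
          fun ω => if 0 < g ω then 1 else if g ω < 0 then -1 else 0 := by
        funext ω
        rw [sign_apply]
        split_ifs <;> simp
      rw [this]
      refine Measurable.ite (measurableSet_lt measurable_const hgm) measurable_const
        (Measurable.ite (measurableSet_lt hgm measurable_const) measurable_const measurable_const)
    · rcases lt_trichotomy (g ω) 0 with h | h | h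
      · rw [sign_neg h]; simp
      · rw [h]; simp
      · rw [sign_pos h]; simp
  -- choice of the sequence
  choose φ hφm hφb hφd using fun j => happ (√(ε j)) (Real.sqrt_pos.2 (hε j))
  refine ⟨fun ω y => G1 (ω, y), φ, fun y => hG1m.comp (measurable_id.prodMk measurable_const),
    fun ω y => ?_, ?_, hg0, hφm, hφb, fun j => ?_⟩
  · have := hG1a (ω, y)
    simp only [hfl] at this
    show G1 (ω, y) = - G1 (τ y ω, -y)
    rw [this, neg_neg]
  · rw [lintegral_VR h hq hG1m]
    exact (memLp_iff h hq hG1m).1 hG12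
  · have hRm : Measurable (fun z : Ω × Vd d => (z.2 i : ℝ) - G1 z - grad τ (φ j) z) :=
      (hbm.sub hG1m).sub (measurable_grad h (hφm j))
    have e1 : ∫⁻ ω, VR q (fun ω y => co i ω y - G1 (ω, y) - (φ j (τ y ω) - φ j ω)) ω ∂μ =
        ∫⁻ p, ENNReal.ofReal (((p.2 i : ℝ) - G1 p - grad τ (φ j) p) ^ 2) ∂(nu h hq) :=
      lintegral_VR h hq hRm
    rw [e1, sq_eLpNorm]
    have e2 : eLpNorm (fun z : Ω × Vd d => (z.2 i : ℝ) - G1 z - grad τ (φ j) z) 2 (nu h hq) =
        eLpNorm (fun z => p z - grad τ (φ j) z) 2 (nu h hq) := by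
      refine eLpNorm_congr_ae ?_
      filter_upwards [hG10] with z hz
      rw [hz]
      simp only [hG0, hpf]
      ring
    rw [e2]
    refine (pow_le_pow_left₀ zero_le (hφd j) 2).trans (le_of_eq ?_)
    rw [← ENNReal.ofReal_pow (by positivity), Real.sq_sqrt (hε j).le]

end Pool.Agent.H979.QIP
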