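import Mathlib

set_option autoImplicit false
set_option linter.unusedSectionVars false
set_option linter.deprecated false

open MeasureTheory ProbabilityTheory Filter Topology Set
open scoped ENNReal NNReal

/-!
# The maximal ergodic inequality for positive contractions, in `[0, ∞]`
-/

namespace Pool.Agent.H979.QIP

variable {Ω : Type*} [MeasurableSpace Ω]

/-- positive operators which decrease integrals and fix constants (up to `≤`) -/
structure MO (μ : Measure Ω) (T : (Ω → ℝ≥0∞) → Ω → ℝ≥0∞) : Prop where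
  meas : ∀ f, Measurable f → Measurable (T f)
  mono : ∀ f g : Ω → ℝ≥0∞, (∀ ω, f ω ≤ g ω) → ∀ ω, T f ω ≤ T g ω
  add : ∀ f g : Ω → ℝ≥0∞, Measurable f → Measurable g → ∀ ω, T (fun ω => f ω + g ω) ω = T f ω + T g ω
  const : ∀ (c : ℝ≥0∞) ω, T (fun _ => c) ω ≤ c
  int : ∀ f, Measurable f → ∫⁻ ω, T f ω ∂μ ≤ ∫⁻ ω, f ω ∂μ

/-- the sums along the orbit -/
noncomputable def Sm (T : (Ω → ℝ≥0∞) → Ω → ℝ≥0∞) (g : Ω → ℝ≥0∞) (n : ℕ) (ω : Ω) : ℝ≥0∞ :=
  ∑ k ∈ Finset.range n, T^[k] g ω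

/-- the maximal function -/
noncomputable def mx (T : (Ω → ℝ≥0∞) → Ω → ℝ≥0∞) (g : Ω → ℝ≥0∞) (ω : Ω) : ℝ≥0∞ :=
  ⨆ n : ℕ, Sm T g (n + 1) ω / ((n : ℝ≥0∞) + 1)

/-- the auxiliary functions of the maximal inequality -/
noncomputable def Mx (T : (Ω → ℝ≥0∞) → Ω → ℝ≥0∞) (g : Ω → ℝ≥0∞) (t : ℝ≥0∞) : ℕ → Ω → ℝ≥0∞
  | 0 => fun _ => 0
  | n + 1 => fun ω => (g ω + T (Mx T g t n) ω) - t

variable {μ : Measure Ω} {T : (Ω → ℝ≥0∞) → Ω → ℝ≥0∞}

theorem MO.iter_meas (hT : MO μ T) {g : Ω → ℝ≥0∞} (hg : Measurable g) (k : ℕ) :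
    Measurable (T^[k] g) := by
  induction k with
  | zero => exact hg
  | succ k ih => rw [Function.iterate_succ_apply']; exact hT.meas _ ih

theorem MO.Sm_meas (hT : MO μ T) {g : Ω → ℝ≥0∞} (hg : Measurable g) (n : ℕ) :
    Measurable (Sm T g n) :=
  Finset.measurable_sum _ fun k _ => hT.iter_meas hg k

theorem MO.mx_meas (hT : MO μ T) {g : Ω → ℝ≥0∞} (hg : Measurable g) : Measurable (mx T g) :=
  Measurable.iSup fun n => (hT.Sm_meas hg (n + 1)).div_const _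

theorem MO.zero (hT : MO μ T) (ω : Ω) : T (fun _ => 0) ω = 0 :=
  le_antisymm (hT.const 0 ω) zero_le

theorem MO.Sm_succ (hT : MO μ T) {g : Ω → ℝ≥0∞} (hg : Measurable g) (n : ℕ) (ω : Ω) :
    Sm T g (n + 1) ω = g ω + T (Sm T g n) ω := by
  have h : ∀ n, T (Sm T g n) ω = ∑ k ∈ Finset.range n, T^[k + 1] g ω := by
    intro n
    induction n with
    | zero =>
      have : Sm T g 0 = fun _ => 0 := by funext ω; simp [Sm]
      rw [this, hT.zero]; simp
    | succ n ih =>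
      have : Sm T g (n + 1) = fun ω => Sm T g n ω + T^[n] g ω := by
        funext ω; exact Finset.sum_range_succ _ _
      rw [this, hT.add _ _ (hT.Sm_meas hg n) (hT.iter_meas hg n), ih, Finset.sum_range_succ,
        Function.iterate_succ_apply']
  rw [h n]
  unfold Sm
  rw [Finset.sum_range_succ', add_comm]
  rfl

theorem MO.Mx_meas (hT : MO μ T) {g : Ω → ℝ≥0∞} (hg : Measurable g) (t : ℝ≥0∞) (n : ℕ) :
    Measurable (Mx T g t n) := by
  induction n with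
  | zero => exact measurable_const
  | succ n ih => exact (hg.add (hT.meas _ ih)).sub measurable_const

theorem MO.Sm_le (hT : MO μ T) {g : Ω → ℝ≥0∞} (hg : Measurable g) (t : ℝ≥0∞) (n : ℕ) (ω : Ω) :
    Sm T g n ω ≤ Mx T g t n ω + n * t := by
  induction n generalizing ω with
  | zero => simp [Sm]
  | succ n ih =>
    rw [hT.Sm_succ hg]
    have h1 : T (Sm T g n) ω ≤ T (Mx T g t n) ω + n * t := by
      refine (hT.mono _ _ ih ω).trans ?_
      rw [hT.add _ _ (hT.Mx_meas hg t n) measurable_const]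
      exact add_le_add le_rfl (hT.const _ ω)
    have h2 : g ω + T (Mx T g t n) ω ≤ Mx T g t (n + 1) ω + t := le_tsub_add
    calc g ω + T (Sm T g n) ω ≤ g ω + (T (Mx T g t n) ω + n * t) := by gcongr
      _ = (g ω + T (Mx T g t n) ω) + n * t := by rw [add_assoc]
      _ ≤ (Mx T g t (n + 1) ω + t) + n * t := by gcongr
      _ = _ := by push_cast; ring

theorem MO.Mx_mono (hT : MO μ T) (g : Ω → ℝ≥0∞) (t : ℝ≥0∞) (n : ℕ) (ω : Ω) :
    Mx T g t n ω ≤ Mx T g t (n + 1) ω := by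
  induction n generalizing ω with
  | zero => exact zero_le
  | succ n ih =>
    exact tsub_le_tsub_right (add_le_add le_rfl (hT.mono _ _ ih ω)) t

theorem MO.maximal (hT : MO μ T) {g : Ω → ℝ≥0∞} (hg : Measurable g) (t : ℝ≥0∞) :
    t * μ {ω | t < mx T g ω} ≤ ∫⁻ ω, g ω ∂μ := by
  by_cases hfin : ∫⁻ ω, g ω ∂μ = ∞
  · rw [hfin]; exact le_top
  by_cases ht : t = ∞
  · have : {ω | t < mx T g ω} = ∅ := by ext ω; simp [ht]
    rw [this]; simp
  have hMfin : ∀ n, ∫⁻ ω, Mx T g t n ω ∂μ ≠ ∞ := by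
    intro n
    induction n with
    | zero => simp [Mx]
    | succ n ih =>
      refine ne_top_of_le_ne_top (ENNReal.add_ne_top.2 ⟨hfin, ih⟩) ?_
      calc ∫⁻ ω, Mx T g t (n + 1) ω ∂μ ≤ ∫⁻ ω, (g ω + T (Mx T g t n) ω) ∂μ :=
            lintegral_mono fun ω => tsub_le_self
        _ = ∫⁻ ω, g ω ∂μ + ∫⁻ ω, T (Mx T g t n) ω ∂μ := lintegral_add_left hg _
        _ ≤ _ := add_le_add le_rfl (hT.int _ (hT.Mx_meas hg t n))
  have key : ∀ n, t * μ {ω | 0 < Mx T g t (n + 1) ω} ≤ ∫⁻ ω, g ω ∂μ := by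
    intro n
    set A : Set Ω := {ω | 0 < Mx T g t (n + 1) ω} with hA
    have hAm : MeasurableSet A := measurableSet_lt measurable_const (hT.Mx_meas hg t (n + 1))
    have e1 : ∫⁻ ω in A, (g ω + T (Mx T g t n) ω) ∂μ = ∫⁻ ω in A, (Mx T g t (n + 1) ω + t) ∂μ := by
      refine setLIntegral_congr_fun hAm fun ω hω => ?_
      have h1 : t < g ω + T (Mx T g t n) ω := tsub_pos_iff_lt.1 hω
      exact (tsub_add_cancel_of_le h1.le).symm
    rw [lintegral_add_left hg, lintegral_add_right _ measurable_const, setLIntegral_const] at e1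
    have e2 : ∫⁻ ω in A, Mx T g t (n + 1) ω ∂μ = ∫⁻ ω, Mx T g t (n + 1) ω ∂μ := by
      rw [← lintegral_indicator hAm]
      refine lintegral_congr fun ω => ?_
      by_cases h : ω ∈ A
      · rw [indicator_of_mem h]
      · rw [indicator_of_notMem h]
        have : ¬ (0 < Mx T g t (n + 1) ω) := h
        exact (le_antisymm (not_lt.1 this) zero_le).symm
    have e3 : ∫⁻ ω in A, T (Mx T g t n) ω ∂μ ≤ ∫⁻ ω, Mx T g t (n + 1) ω ∂μ :=
      (setLIntegral_le_lintegral _ _).trans ((hT.int _ (hT.Mx_meas hg t n)).trans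
        (lintegral_mono fun ω => hT.Mx_mono g t n ω))
    have hfin2 : ∫⁻ ω, Mx T g t (n + 1) ω ∂μ ≠ ∞ := hMfin _
    have e4 : ∫⁻ ω, Mx T g t (n + 1) ω ∂μ + t * μ A ≤
        ∫⁻ ω, Mx T g t (n + 1) ω ∂μ + ∫⁻ ω, g ω ∂μ := by
      rw [← e2, ← e1, e2, add_comm]
      exact add_le_add e3 (setLIntegral_le_lintegral _ _)
    exact (ENNReal.add_le_add_iff_left hfin2).1 e4
  have hsub : {ω | t < mx T g ω} ⊆ ⋃ n, {ω | 0 < Mx T g t (n + 1) ω} := by
    intro ω hω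
    have hω' : t < ⨆ n : ℕ, Sm T g (n + 1) ω / ((n : ℝ≥0∞) + 1) := hω
    obtain ⟨n, hn⟩ := lt_iSup_iff.1 hω'
    refine mem_iUnion.2 ⟨n, ?_⟩
    have h1 : t * ((n : ℝ≥0∞) + 1) < Sm T g (n + 1) ω := by
      rw [ENNReal.lt_div_iff_mul_lt (Or.inl (by simp)) (Or.inl (by simp))] at hn
      exact hn
    have h2 := h1.trans_le (hT.Sm_le hg t (n + 1) ω)
    by_contra hcon
    have hz : Mx T g t (n + 1) ω = 0 := le_antisymm (not_lt.1 hcon) zero_le
    rw [hz, zero_add, mul_comm] at h2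
    push_cast at h2
    exact lt_irrefl _ h2
  have hmono : Monotone (fun n => {ω | 0 < Mx T g t (n + 1) ω}) :=
    monotone_nat_of_le_succ fun n ω hω => lt_of_lt_of_le hω (hT.Mx_mono g t (n + 1) ω)
  calc t * μ {ω | t < mx T g ω} ≤ t * μ (⋃ n, {ω | 0 < Mx T g t (n + 1) ω}) := by
        gcongr
    _ = ⨆ n, t * μ {ω | 0 < Mx T g t (n + 1) ω} := by
        rw [hmono.measure_iUnion, ENNReal.mul_iSup]
    _ ≤ _ := iSup_le key

/-- a truncated function with a weak type bound has a small integral -/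
theorem lintegral_min_one [IsProbabilityMeasure μ] {Y : Ω → ℝ≥0∞} {C s : ℝ≥0∞} (hY : Measurable Y)
    (h : ∀ t, t * μ {ω | t < Y ω} ≤ C) (hs : s ≠ 0) (hs' : s ≠ ∞) (hC : C ≤ s * s) :
    ∫⁻ ω, min 1 (Y ω) ∂μ ≤ 2 * s := by
  have h1 : ∀ ω, min 1 (Y ω) ≤ s + {ω | s < Y ω}.indicator 1 ω := by
    intro ω
    by_cases hω : s < Y ω
    · rw [indicator_of_mem (show ω ∈ {ω | s < Y ω} from hω)]
      exact (min_le_left _ _).trans le_add_self
    · exact ((min_le_right _ _).trans (not_lt.1 hω)).trans le_self_add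
  refine (lintegral_mono h1).trans ?_
  rw [lintegral_add_left measurable_const, lintegral_const, measure_univ, mul_one,
    lintegral_indicator_one (measurableSet_lt measurable_const hY), two_mul]
  gcongr
  have h2 : s * μ {ω | s < Y ω} ≤ s * s := (h s).trans hC
  exact (ENNReal.mul_le_mul_iff_right hs hs').1 h2

theorem MO.min_mx [IsProbabilityMeasure μ] (hT : MO μ T) {g : Ω → ℝ≥0∞} (hg : Measurable g)
    {c s : ℝ≥0∞} (hc : c ≠ ∞) (hs : s ≠ 0) (hs' : s ≠ ∞) (hC : c * ∫⁻ ω, g ω ∂μ ≤ s * s) :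
    ∫⁻ ω, min 1 (c * mx T g ω) ∂μ ≤ 2 * s := by
  refine lintegral_min_one ((hT.mx_meas hg).const_mul c) (fun t => ?_) hs hs' hC
  by_cases hc0 : c = 0
  · simp [hc0]
  have e : {ω | t < c * mx T g ω} = {ω | t / c < mx T g ω} := by
    ext ω
    simp only [mem_setOf_eq]
    rw [ENNReal.div_lt_iff (Or.inl hc0) (Or.inl hc), mul_comm]
  rw [e]
  have h1 : t * μ {ω | t / c < mx T g ω} = c * (t / c * μ {ω | t / c < mx T g ω}) := by
    rw [← mul_assoc, ENNReal.mul_div_cancel hc0 hc]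
  rw [h1]
  gcongr
  exact hT.maximal hg _

end Pool.Agent.H979.QIP
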