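import Pool.Agent.H979.QIP.LZ
import Pool.Agent.H979.QIP.Hopf

set_option autoImplicit false
set_option linter.unusedSectionVars false
set_option linter.deprecated false
set_option linter.unusedVariables false
set_option linter.style.haveILetI false

open MeasureTheory ProbabilityTheory Filter Topology Set
open scoped ENNReal NNReal

/-!
# Stationary environments and symmetric kernels
-/

namespace Pool.Agent.H979.QIP

/-- the lattice -/
abbrev Vd (d : ℕ) : Type := Fin d → ℤ

variable {Ω : Type*} [MeasurableSpace Ω] {d : ℕ}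

/-- a measure preserving action of the lattice -/
structure Sta (μ : Measure Ω) (τ : Vd d → Ω → Ω) : Prop where
  zero : ∀ ω, τ 0 ω = ω
  add : ∀ x y ω, τ y (τ x ω) = τ (x + y) ω
  pres : ∀ x, MeasurePreserving (τ x) μ μ

variable {μ : Measure Ω} {τ : Vd d → Ω → Ω}

/-- the mass transport principle -/
theorem Sta.mtp (h : Sta μ τ) {F : Ω → Vd d → ℝ≥0∞} (hF : ∀ y, Measurable (fun ω => F ω y)) :
    ∫⁻ ω, ∑' y, F (τ y ω) (-y) ∂μ = ∫⁻ ω, ∑' y, F ω y ∂μ := by
  rw [lintegral_tsum (f := fun y ω => F (τ y ω) (-y))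
    fun y => ((hF (-y)).comp (h.pres y).measurable).aemeasurable,
    lintegral_tsum fun y => (hF y).aemeasurable]
  rw [← (Equiv.neg (Vd d)).tsum_eq]
  refine tsum_congr fun y => ?_
  simp only [Equiv.neg_apply, neg_neg]
  exact (h.pres (-y)).lintegral_comp (hF y)

/-- symmetric jump kernel -/
structure Ker (τ : Vd d → Ω → Ω) (q : Ω → Vd d → ℝ≥0∞) : Prop where
  meas : ∀ y, Measurable (fun ω => q ω y)
  one : ∀ ω, ∑' y, q ω y = 1
  symm : ∀ ω y, q ω y = q (τ y ω) (-y)

variable {q : Ω → Vd d → ℝ≥0∞}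

/-- the operator of the environment -/
noncomputable def Qo (τ : Vd d → Ω → Ω) (q : Ω → Vd d → ℝ≥0∞) (f : Ω → ℝ≥0∞) (ω : Ω) : ℝ≥0∞ :=
  ∑' y, q ω y * f (τ y ω)

theorem lintegral_Qo (h : Sta μ τ) (hq : Ker τ q) {f : Ω → ℝ≥0∞} (hf : Measurable f) :
    ∫⁻ ω, Qo τ q f ω ∂μ = ∫⁻ ω, f ω ∂μ := by
  have h1 := h.mtp (F := fun ω y => q ω y * f ω) fun y => (hq.meas y).mul hf
  have e1 : ∀ ω, ∑' y, q (τ y ω) (-y) * f (τ y ω) = Qo τ q f ω := fun ω => by
    unfold Qo
    exact tsum_congr fun y => by rw [← hq.symm]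
  simp_rw [e1] at h1
  rw [h1]
  refine lintegral_congr fun ω => ?_
  rw [ENNReal.tsum_mul_right, hq.one, one_mul]

theorem mo_Qo (h : Sta μ τ) (hq : Ker τ q) : MO μ (Qo τ q) where
  meas f hf := Measurable.tsum fun y =>
    (hq.meas y).mul (hf.comp (h.pres y).measurable)
  mono f g hfg ω := ENNReal.tsum_le_tsum fun y => by gcongr; exact hfg _
  add f g _ _ ω := by
    unfold Qo
    rw [← ENNReal.tsum_add]
    exact tsum_congr fun y => by rw [mul_add]
  const c ω := by
    unfold Qo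
    rw [ENNReal.tsum_mul_right, hq.one, one_mul]
  int f hf := (lintegral_Qo h hq hf).le

theorem mo_shift (h : Sta μ τ) (e : Vd d) : MO μ (fun f ω => f (τ e ω)) where
  meas f hf := hf.comp (h.pres e).measurable
  mono f g hfg ω := hfg _
  add f g _ _ ω := rfl
  const c ω := le_rfl
  int f hf := ((h.pres e).lintegral_comp hf).le

/-! ### the chain in a fixed environment -/

/-- the transition law in the environment `ω` -/
noncomputable def qM (τ : Vd d → Ω → Ω) (q : Ω → Vd d → ℝ≥0∞) (ω : Ω) (x : Vd d) :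
    Measure (Vd d) := Measure.sum fun y => q (τ x ω) y • Measure.dirac (x + y)

theorem lintegral_qM (τ : Vd d → Ω → Ω) (q : Ω → Vd d → ℝ≥0∞) (ω : Ω) (x : Vd d)
    (f : Vd d → ℝ≥0∞) : ∫⁻ y, f y ∂(qM τ q ω x) = ∑' y, q (τ x ω) y * f (x + y) := by
  unfold qM
  rw [lintegral_sum_measure]
  refine tsum_congr fun y => ?_
  rw [lintegral_smul_measure, lintegral_dirac, smul_eq_mul]

theorem qM_prob (hq : Ker τ q) (ω : Ω) (x : Vd d) : IsProbabilityMeasure (qM τ q ω x) := by
  constructor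
  have h := lintegral_qM τ q ω x (fun _ => 1)
  rw [lintegral_const, one_mul] at h
  rw [h]
  simp [hq.one]

theorem qM_apply (τ : Vd d → Ω → Ω) (q : Ω → Vd d → ℝ≥0∞) (ω : Ω) (x z : Vd d) :
    qM τ q ω x {z} = q (τ x ω) (z - x) := by
  unfold qM
  rw [Measure.sum_apply _ (MeasurableSet.singleton _), tsum_eq_single (z - x)]
  · simp
  · intro y hy
    have : x + y ≠ z := fun h => hy (by rw [← h]; ring)
    simp [this]

theorem qM_symm (h : Sta μ τ) (hq : Ker τ q) (ω : Ω) (x y : Vd d) :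
    qM τ q ω x {y} = qM τ q ω y {x} := by
  rw [qM_apply, qM_apply, hq.symm, h.add]
  congr 1
  · congr 1; ring
  · ring

theorem K_qM (h : Sta μ τ) (ω : Ω) (g : Ω → ℝ≥0∞) (x : Vd d) :
    K (qM τ q ω) (fun x => g (τ x ω)) x = Qo τ q g (τ x ω) := by
  unfold K Qo
  rw [lintegral_qM]
  exact tsum_congr fun y => by rw [h.add]

theorem K_iter (h : Sta μ τ) (ω : Ω) (g : Ω → ℝ≥0∞) (k : ℕ) (x : Vd d) :
    (K (qM τ q ω))^[k] (fun x => g (τ x ω)) x = (Qo τ q)^[k] g (τ x ω) := by
  induction k generalizing g with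
  | zero => rfl
  | succ k ih =>
    rw [Function.iterate_succ_apply, Function.iterate_succ_apply]
    have : K (qM τ q ω) (fun x => g (τ x ω)) = fun x => Qo τ q g (τ x ω) :=
      funext fun x => K_qM h ω g x
    rw [this, ih]

/-- the second moment of a function of the jump -/
noncomputable def VR (q : Ω → Vd d → ℝ≥0∞) (R : Ω → Vd d → ℝ) (ω : Ω) : ℝ≥0∞ :=
  ∑' y, q ω y * ENNReal.ofReal (R ω y ^ 2)

/-- the function of the positions -/
def fx (τ : Vd d → Ω → Ω) (R : Ω → Vd d → ℝ) (ω : Ω) (x y : Vd d) : ℝ := R (τ x ω) (y - x)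

theorem V_fx (R : Ω → Vd d → ℝ) (ω : Ω) (x : Vd d) :
    V (qM τ q ω) (fx τ R ω) x = VR q R (τ x ω) := by
  unfold V VR fx
  rw [lintegral_qM]
  exact tsum_congr fun y => by rw [add_sub_cancel_left]

theorem VR_meas (hq : Ker τ q) {R : Ω → Vd d → ℝ} (hR : ∀ y, Measurable (fun ω => R ω y)) :
    Measurable (VR q R) :=
  Measurable.tsum fun y => (hq.meas y).mul (((hR y).pow_const 2).ennreal_ofReal)

/-- along the path the expected sums are the sums along the orbit of the operator -/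
theorem lintegral_A (h : Sta μ τ) (hq : Ker τ q) (ω : Ω) {g : Ω → ℝ≥0∞} (n : ℕ) (x : Vd d) :
    haveI := qM_prob hq ω
    ∫⁻ w, A (fun x => g (τ x ω)) n w ∂(P (qM τ q ω) x) = Sm (Qo τ q) g n (τ x ω) := by
  haveI := qM_prob hq ω
  unfold A Sm
  rw [lintegral_finsetSum]
  · refine Finset.sum_congr rfl fun k _ => ?_
    rw [lintegral_coord (qM τ q ω) k x (fun x => g (τ x ω)), K_iter h]
  · intro k _
    exact (measurable_of_countable (fun x => g (τ x ω))).comp (measurable_pi_apply k)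

/-! ### averages over boxes -/

/-- the box of radius `n` -/
noncomputable def box (d : ℕ) (n : ℕ) : Finset (Vd d) := Fintype.piFinset fun _ => Finset.Icc (-(n : ℤ)) n

theorem mem_box {n : ℕ} {x : Vd d} : x ∈ box d n ↔ ∀ i, |x i| ≤ n := by
  simp only [box, Fintype.mem_piFinset, Finset.mem_Icc, abs_le]

theorem card_box (n : ℕ) : (box d n).card = (2 * n + 1) ^ d := by
  unfold box
  rw [Fintype.card_piFinset]
  simp only [Int.card_Icc, Finset.prod_const, Finset.card_univ, Fintype.card_fin]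
  congr 1
  omega

/-- the maximal function over boxes -/
noncomputable def bx (τ : Vd d → Ω → Ω) (f : Ω → ℝ≥0∞) (ω : Ω) : ℝ≥0∞ :=
  ⨆ n : ℕ, (∑ y ∈ box d n, f (τ y ω)) / ((2 * n + 1 : ℕ) : ℝ≥0∞) ^ d

/-- a unit vector times an integer -/
def ev (i : Fin d) (k : ℤ) : Vd d := Function.update 0 i k

/-- the maximal function in one direction -/
noncomputable def m1 (τ : Vd d → Ω → Ω) (i : Fin d) (f : Ω → ℝ≥0∞) (ω : Ω) : ℝ≥0∞ :=
  ⨆ n : ℕ, (∑ k ∈ Finset.Icc (-(n : ℤ)) n, f (τ (ev i k) ω)) / ((2 * n + 1 : ℕ) : ℝ≥0∞)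

/-- iterated maximal function -/
noncomputable def mL (τ : Vd d → Ω → Ω) : List (Fin d) → (Ω → ℝ≥0∞) → Ω → ℝ≥0∞
  | [], f => f
  | i :: L, f => m1 τ i (mL τ L f)

theorem ev_add (i : Fin d) (k l : ℤ) : ev i k + ev i l = ev i (k + l) := by
  funext j
  unfold ev
  by_cases h : j = i
  · subst h; simp
  · simp [h]

theorem ev_zero (i : Fin d) : ev i 0 = 0 := by
  funext j
  unfold ev
  by_cases h : j = i
  · subst h; simp
  · simp [h]

theorem iter_shift (h : Sta μ τ) (i : Fin d) (s : ℤ) (f : Ω → ℝ≥0∞) (k : ℕ) (ω : Ω) :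
    (fun f ω => f (τ (ev i s) ω))^[k] f ω = f (τ (ev i (k * s)) ω) := by
  induction k generalizing f with
  | zero => simp [ev_zero, h.zero]
  | succ k ih =>
    rw [Function.iterate_succ_apply, ih, h.add, ev_add]
    congr 3
    push_cast
    ring

theorem m1_meas (h : Sta μ τ) (i : Fin d) {f : Ω → ℝ≥0∞} (hf : Measurable f) :
    Measurable (m1 τ i f) :=
  Measurable.iSup fun n => (Finset.measurable_sum _ fun k _ =>
    hf.comp (h.pres _).measurable).div_const _

theorem m1_le (h : Sta μ τ) (i : Fin d) (f : Ω → ℝ≥0∞) (ω : Ω) :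
    m1 τ i f ω ≤ mx (fun f ω => f (τ (ev i 1) ω)) f ω + mx (fun f ω => f (τ (ev i (-1)) ω)) f ω := by
  refine iSup_le fun n => ?_
  have e1 : ∑ k ∈ Finset.Icc (-(n : ℤ)) n, f (τ (ev i k) ω) ≤
      Sm (fun f ω => f (τ (ev i 1) ω)) f (n + 1) ω + Sm (fun f ω => f (τ (ev i (-1)) ω)) f (n + 1) ω := by
    unfold Sm
    simp_rw [iter_shift h]
    have : Finset.Icc (-(n : ℤ)) n ⊆ (Finset.range (n + 1)).image (fun k : ℕ => (k : ℤ) * 1) ∪
        (Finset.range (n + 1)).image (fun k : ℕ => (k : ℤ) * (-1)) := by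
      intro k hk
      rw [Finset.mem_Icc] at hk
      rw [Finset.mem_union, Finset.mem_image, Finset.mem_image]
      rcases le_total 0 k with h0 | h0
      · left
        exact ⟨k.toNat, Finset.mem_range.2 (by omega), by omega⟩
      · right
        exact ⟨(-k).toNat, Finset.mem_range.2 (by omega), by omega⟩
    refine (Finset.sum_le_sum_of_subset this).trans ?_
    refine (le_trans le_self_add (Finset.sum_union_inter (f := fun k => f (τ (ev i k) ω))).le).trans ?_
    refine add_le_add ?_ ?_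
    · exact (Finset.sum_image (fun a _ b _ hab => by simpa using hab)).le
    · exact (Finset.sum_image (fun a _ b _ hab => by simpa using hab)).le
  have e2 : ∀ a : ℝ≥0∞, a / ((2 * n + 1 : ℕ) : ℝ≥0∞) ≤ a / ((n : ℝ≥0∞) + 1) := fun a => by
    gcongr
    push_cast
    gcongr
    exact le_mul_of_one_le_left zero_le (by norm_num)
  refine (ENNReal.div_le_div_right e1 _).trans ?_
  rw [ENNReal.add_div]
  refine add_le_add ?_ ?_
  · exact (e2 _).trans (le_iSup (fun n : ℕ => Sm (fun f ω => f (τ (ev i 1) ω)) f (n + 1) ω /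
      ((n : ℝ≥0∞) + 1)) n)
  · exact (e2 _).trans (le_iSup (fun n : ℕ => Sm (fun f ω => f (τ (ev i (-1)) ω)) f (n + 1) ω /
      ((n : ℝ≥0∞) + 1)) n)

theorem m1_le_one (i : Fin d) {f : Ω → ℝ≥0∞} (hf : ∀ ω, f ω ≤ 1) (ω : Ω) : m1 τ i f ω ≤ 1 := by
  refine iSup_le fun n => ?_
  refine ENNReal.div_le_of_le_mul ?_
  refine (Finset.sum_le_sum fun k _ => hf _).trans ?_
  rw [Finset.sum_const, Int.card_Icc, nsmul_eq_mul, mul_one, one_mul]
  gcongr
  omega

theorem m1_int [IsProbabilityMeasure μ] (h : Sta μ τ) (i : Fin d) {f : Ω → ℝ≥0∞}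
    (hf : Measurable f) (hf1 : ∀ ω, f ω ≤ 1) {s : ℝ≥0∞} (hs : s ≠ 0) (hs' : s ≠ ∞)
    (hC : ∫⁻ ω, f ω ∂μ ≤ s * s) : ∫⁻ ω, m1 τ i f ω ∂μ ≤ 4 * s := by
  have h1 : ∀ ω, m1 τ i f ω ≤ min 1 (1 * mx (fun f ω => f (τ (ev i 1) ω)) f ω) +
      min 1 (1 * mx (fun f ω => f (τ (ev i (-1)) ω)) f ω) := by
    intro ω
    have a1 := m1_le_one (τ := τ) i hf1 ω
    have a2 := m1_le h i f ω
    rw [one_mul, one_mul]
    rcases le_total 1 (mx (fun f ω => f (τ (ev i 1) ω)) f ω) with b | b
    · rw [min_eq_left b]; exact a1.trans le_self_add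
    · rcases le_total 1 (mx (fun f ω => f (τ (ev i (-1)) ω)) f ω) with b' | b'
      · rw [min_eq_left b']; exact a1.trans le_add_self
      · rw [min_eq_right b, min_eq_right b']; exact a2
  refine (lintegral_mono h1).trans ?_
  have hm : ∀ e : Vd d, Measurable (fun ω => min 1 (1 * mx (fun f ω => f (τ e ω)) f ω)) := fun e =>
    measurable_const.min (((mo_shift h e).mx_meas hf).const_mul 1)
  rw [lintegral_add_left (hm _)]
  have b1 := (mo_shift h (ev i 1)).min_mx hf (c := 1) (by simp) hs hs' (by rwa [one_mul])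
  have b2 := (mo_shift h (ev i (-1))).min_mx hf (c := 1) (by simp) hs hs' (by rwa [one_mul])
  calc _ ≤ 2 * s + 2 * s := add_le_add b1 b2
    _ = 4 * s := by ring

theorem mL_meas (h : Sta μ τ) (L : List (Fin d)) {f : Ω → ℝ≥0∞} (hf : Measurable f) :
    Measurable (mL τ L f) := by
  induction L with
  | nil => exact hf
  | cons i L ih => exact m1_meas h i ih

theorem mL_le_one (L : List (Fin d)) {f : Ω → ℝ≥0∞} (hf : ∀ ω, f ω ≤ 1) (ω : Ω) :
    mL τ L f ω ≤ 1 := by
  induction L generalizing ω with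
  | nil => exact hf ω
  | cons i L ih => exact m1_le_one i ih ω

theorem mL_int [IsProbabilityMeasure μ] (h : Sta μ τ) (L : List (Fin d)) {f : Ω → ℝ≥0∞}
    (hf : Measurable f) (hf1 : ∀ ω, f ω ≤ 1) {s : ℝ≥0∞} (hs : s ≠ 0) (hs' : s ≠ ∞)
    (hC : ∫⁻ ω, f ω ∂μ ≤ 16 * s ^ (2 ^ L.length)) : ∫⁻ ω, mL τ L f ω ∂μ ≤ 16 * s := by
  induction L generalizing s with
  | nil => simpa [mL] using hC
  | cons i L ih =>
    have h1 : ∫⁻ ω, mL τ L f ω ∂μ ≤ 16 * (s ^ 2) := by
      refine ih (pow_ne_zero _ hs) (ENNReal.pow_ne_top hs') ?_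
      rw [← pow_mul, List.length_cons, pow_succ, mul_comm (2 ^ L.length) 2] at *
      exact hC
    have h2 : ∫⁻ ω, mL τ L f ω ∂μ ≤ (4 * s) * (4 * s) := h1.trans (le_of_eq (by ring))
    have h3 := m1_int h i (mL_meas h L hf) (mL_le_one L hf1) (s := 4 * s)
      (mul_ne_zero (by norm_num) hs) (ENNReal.mul_ne_top (by norm_num) hs') h2
    refine h3.trans (le_of_eq ?_)
    ring

open Classical in
theorem sum_box_le (h : Sta μ τ) (f : Ω → ℝ≥0∞) (n : ℕ) (L : List (Fin d)) (hL : L.Nodup) (ω : Ω) :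
    ∑ y ∈ Fintype.piFinset (fun i => if i ∈ L then Finset.Icc (-(n : ℤ)) n else {0}), f (τ y ω) ≤
      ((2 * n + 1 : ℕ) : ℝ≥0∞) ^ L.length * mL τ L f ω := by
  induction L generalizing ω with
  | nil =>
    have : Fintype.piFinset (fun i : Fin d => if i ∈ ([] : List (Fin d)) then
        Finset.Icc (-(n : ℤ)) n else {0}) = {0} := by
      ext y
      simp only [List.not_mem_nil, if_false, Fintype.mem_piFinset, Finset.mem_singleton]
      exact ⟨fun h => funext h, fun h i => by rw [h]; rfl⟩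
    rw [this]
    simp [mL, h.zero]
  | cons i L ih =>
    have hi : i ∉ L := (List.nodup_cons.1 hL).1
    have hL' : L.Nodup := (List.nodup_cons.1 hL).2
    have e1 : ∑ y ∈ Fintype.piFinset (fun j => if j ∈ i :: L then Finset.Icc (-(n : ℤ)) n else {0}),
        f (τ y ω) = ∑ k ∈ Finset.Icc (-(n : ℤ)) n, ∑ y ∈ Fintype.piFinset
          (fun j => if j ∈ L then Finset.Icc (-(n : ℤ)) n else {0}), f (τ y (τ (ev i k) ω)) := by
      rw [← Finset.sum_product']
      refine (Finset.sum_bij' (fun p _ => ev i p.1 + p.2)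
        (fun y _ => (y i, Function.update y i 0)) ?_ ?_ ?_ ?_ ?_).symm
      · rintro ⟨k, y⟩ hp
        rw [Finset.mem_product, Fintype.mem_piFinset] at hp
        rw [Fintype.mem_piFinset]
        intro j
        have hj := hp.2 j
        by_cases hji : j = i
        · subst hji
          simp only [if_neg hi, Finset.mem_singleton] at hj
          simp only [List.mem_cons, true_or, if_true, Pi.add_apply, ev, Function.update_self, hj,
            add_zero]
          exact hp.1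
        · have : (j ∈ i :: L) ↔ j ∈ L := by simp [hji]
          simp only [this, Pi.add_apply, ev, Function.update_of_ne hji, Pi.zero_apply, zero_add]
          exact hj
      · intro y hy
        rw [Fintype.mem_piFinset] at hy
        rw [Finset.mem_product, Fintype.mem_piFinset]
        refine ⟨?_, fun j => ?_⟩
        · have := hy i
          simpa using this
        · by_cases hji : j = i
          · subst hji
            simp [hi]
          · have := hy j
            have h2 : (j ∈ i :: L) ↔ j ∈ L := by simp [hji]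
            simp only [h2] at this
            simp only [Function.update_of_ne hji]
            exact this
      · rintro ⟨k, y⟩ hp
        rw [Finset.mem_product, Fintype.mem_piFinset] at hp
        have hj := hp.2 i
        simp only [if_neg hi, Finset.mem_singleton] at hj
        have h1 : (ev i k + y) i = k := by simp [ev, hj]
        have h2 : Function.update (ev i k + y) i 0 = y := by
          funext j
          by_cases hji : j = i
          · subst hji; simp [hj]
          · simp [ev, hji]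
        simp only [h1, h2]
      · intro y hy
        funext j
        by_cases hji : j = i
        · subst hji; simp [ev]
        · simp [ev, hji]
      · rintro ⟨k, y⟩ hp
        rw [h.add]
    rw [e1]
    have e2 : ∀ k ∈ Finset.Icc (-(n : ℤ)) n, ∑ y ∈ Fintype.piFinset
          (fun j => if j ∈ L then Finset.Icc (-(n : ℤ)) n else {0}), f (τ y (τ (ev i k) ω)) ≤
        ((2 * n + 1 : ℕ) : ℝ≥0∞) ^ L.length * mL τ L f (τ (ev i k) ω) := fun k _ => ih hL' _
    refine (Finset.sum_le_sum e2).trans ?_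
    rw [← Finset.mul_sum, List.length_cons, pow_succ, mul_assoc]
    gcongr
    have e3 : (∑ k ∈ Finset.Icc (-(n : ℤ)) n, mL τ L f (τ (ev i k) ω)) / ((2 * n + 1 : ℕ) : ℝ≥0∞) ≤
        mL τ (i :: L) f ω :=
      le_iSup (fun n : ℕ => (∑ k ∈ Finset.Icc (-(n : ℤ)) n, mL τ L f (τ (ev i k) ω)) /
        ((2 * n + 1 : ℕ) : ℝ≥0∞)) n
    rw [ENNReal.div_le_iff (by simp) (ENNReal.natCast_ne_top _)] at e3
    rw [mul_comm]
    exact e3

theorem bx_le (h : Sta μ τ) (f : Ω → ℝ≥0∞) (ω : Ω) : bx τ f ω ≤ mL τ (List.finRange d) f ω := by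
  classical
  refine iSup_le fun n => ?_
  rw [ENNReal.div_le_iff (by simp) (ENNReal.pow_ne_top (ENNReal.natCast_ne_top _))]
  have h1 := sum_box_le h f n (List.finRange d) (List.nodup_finRange d) ω
  simp only [List.mem_finRange, if_true, List.length_finRange] at h1
  rw [mul_comm]
  exact h1

/-- the maximal function over boxes of a small bounded function is small -/
theorem bx_int [IsProbabilityMeasure μ] (h : Sta μ τ) {f : Ω → ℝ≥0∞}
    (hf : Measurable f) (hf1 : ∀ ω, f ω ≤ 1) {s : ℝ≥0∞} (hs : s ≠ 0) (hs' : s ≠ ∞)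
    (hC : ∫⁻ ω, f ω ∂μ ≤ 16 * s ^ (2 ^ d)) : ∫⁻ ω, bx τ f ω ∂μ ≤ 16 * s :=
  (lintegral_mono (bx_le h f)).trans (mL_int h _ hf hf1 hs hs' (by rwa [List.length_finRange]))

theorem bx_meas (h : Sta μ τ) {f : Ω → ℝ≥0∞} (hf : Measurable f) : Measurable (bx τ f) :=
  Measurable.iSup fun n => (Finset.measurable_sum _ fun y _ =>
    hf.comp (h.pres y).measurable).div_const _

theorem sum_le_bx (f : Ω → ℝ≥0∞) (ω : Ω) (n : ℕ) :
    ∑ y ∈ box d n, f (τ y ω) ≤ ((2 * n + 1 : ℕ) : ℝ≥0∞) ^ d * bx τ f ω := by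
  have h1 : (∑ y ∈ box d n, f (τ y ω)) / ((2 * n + 1 : ℕ) : ℝ≥0∞) ^ d ≤ bx τ f ω :=
    le_iSup (fun n : ℕ => (∑ y ∈ box d n, f (τ y ω)) / ((2 * n + 1 : ℕ) : ℝ≥0∞) ^ d) n
  rw [ENNReal.div_le_iff (by simp) (ENNReal.pow_ne_top (ENNReal.natCast_ne_top _))] at h1
  rwa [mul_comm]

end Pool.Agent.H979.QIP
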