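import Pool.Agent.H979.QIP.Net
import Pool.Agent.H979.QIP.Env

set_option autoImplicit false
set_option linter.unusedSectionVars false
set_option linter.deprecated false
set_option linter.unusedVariables false
set_option linter.style.haveILetI false

open MeasureTheory ProbabilityTheory Filter Topology Set
open scoped ENNReal NNReal

/-!
# Entropy and the mean displacement
-/

namespace Pool.Agent.H979.QIP

theorem weight_sum {d : ℕ} {T V : ℝ} (hV : 0 ≤ V) {v : ℕ → ℝ} (hv : ∀ m, 0 ≤ v m)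
    (h : ∀ N : ℕ, ∑ m ∈ Finset.range N, v (m + 1) ≤ V * N) (N : ℕ) (hN : 1 ≤ N) :
    ∑ m ∈ Finset.range N, v (m + 1) / √((m + 1 : ℕ) : ℝ) ≤
      V * √N + (∑ m ∈ Finset.range N, v (m + 1)) / √N := by
  induction N, hN using Nat.le_induction with
  | base => simp; exact hV
  | succ N hN ih =>
    have hN0 : (0 : ℝ) < N := by exact_mod_cast hN
    rw [Finset.sum_range_succ, Finset.sum_range_succ]
    set S := ∑ m ∈ Finset.range N, v (m + 1) with hS
    have hS1 : S ≤ V * N := h N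
    have hS0 : 0 ≤ S := Finset.sum_nonneg fun m _ => hv _
    set a := √(N : ℝ) with ha
    set b := √((N + 1 : ℕ) : ℝ) with hb
    have ha0 : 0 < a := Real.sqrt_pos.2 hN0
    have hb0 : 0 < b := Real.sqrt_pos.2 (by positivity)
    have hab : a ≤ b := Real.sqrt_le_sqrt (by push_cast; linarith)
    have ha2 : a * a = N := Real.mul_self_sqrt hN0.le
    have key : S / a ≤ V * (b - a) + S / b := by
      have h1 : S / a - S / b = S * (b - a) / (a * b) := by field_simp
      have h2 : S * (b - a) / (a * b) ≤ V * (b - a) := by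
        rw [div_le_iff₀ (by positivity)]
        have h3 : S * (b - a) ≤ (V * N) * (b - a) := mul_le_mul_of_nonneg_right hS1 (by linarith)
        have h4 : (V * N) * (b - a) ≤ V * (b - a) * (a * b) := by
          rw [← ha2]
          have : a * a ≤ a * b := mul_le_mul_of_nonneg_left hab ha0.le
          nlinarith [mul_nonneg hV (sub_nonneg.2 hab)]
        linarith
      linarith
    rw [add_div]
    linarith

theorem ent_sum {d : ℕ} {b : ℝ} (hb : 0 ≤ b) {Q : ℕ → ℝ} (hQ0 : 0 ≤ Q 0)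
    (hQ : ∀ m : ℕ, 1 ≤ m → d / 2 * Real.log m - b ≤ Q m) (N : ℕ) (hN : 1 ≤ N) :
    ∑ m ∈ Finset.range N, √((m + 1 : ℕ) : ℝ) * (Q (m + 1) - Q m) ≤
      √N * Q N - d / 2 * (√N * Real.log N) + (2 * d + b) * √N := by
  induction N, hN using Nat.le_induction with
  | base =>
    simp
    have : (0 : ℝ) ≤ d := Nat.cast_nonneg d
    linarith
  | succ N hN ih =>
    have hN0 : (0 : ℝ) < N := by exact_mod_cast hN
    have hN1 : (1 : ℝ) ≤ N := by exact_mod_cast hN
    rw [Finset.sum_range_succ]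
    have hQN := hQ N hN
    set a := √(N : ℝ) with ha
    set c := √((N + 1 : ℕ) : ℝ) with hc
    have ha0 : 0 < a := Real.sqrt_pos.2 hN0
    have hc0 : 0 < c := Real.sqrt_pos.2 (by positivity)
    have hac : a ≤ c := Real.sqrt_le_sqrt (by push_cast; linarith)
    have ha2 : a * a = N := Real.mul_self_sqrt hN0.le
    have hc2 : c * c = N + 1 := by rw [hc, Real.mul_self_sqrt (by positivity)]; push_cast; ring
    have hd0 : (0 : ℝ) ≤ d := Nat.cast_nonneg d
    have hlog : Real.log ((N + 1 : ℕ) : ℝ) ≤ Real.log N + 1 / N := by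
      have h1 : ((N + 1 : ℕ) : ℝ) = N * (1 + 1 / N) := by push_cast; field_simp
      rw [h1, Real.log_mul hN0.ne' (by positivity)]
      have := Real.log_le_sub_one_of_pos (show 0 < 1 + 1 / (N : ℝ) by positivity)
      linarith
    have hkey : d / 2 * (c * (1 / N)) ≤ 2 * d * (c - a) := by
      have h1 : (c - a) * (c + a) = 1 := by nlinarith
      have h2 : 1 ≤ (c - a) * (2 * c) := by nlinarith
      have h3 : c * (1 / N) ≤ 4 * (c - a) := by
        rw [mul_one_div, div_le_iff₀ hN0]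
        have h4 : c * 1 ≤ c * ((c - a) * (2 * c)) := mul_le_mul_of_nonneg_left h2 hc0.le
        have h5 : c * ((c - a) * (2 * c)) = (c - a) * (2 * (N + 1)) := by rw [← hc2]; ring
        nlinarith
      nlinarith
    have h6 : (c - a) * (d / 2 * Real.log N - b) ≤ (c - a) * Q N :=
      mul_le_mul_of_nonneg_left hQN (by linarith)
    have h7 : d / 2 * (c * Real.log ((N + 1 : ℕ) : ℝ)) ≤ d / 2 * (c * (Real.log N + 1 / N)) :=
      mul_le_mul_of_nonneg_left (mul_le_mul_of_nonneg_left hlog hc0.le) (by positivity)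
    nlinarith

/-- the bound of the mean displacement -/
theorem nash_moment {d : ℕ} (hd : 1 ≤ d) {b V : ℝ} (hb : 0 ≤ b) (hV : 0 ≤ V) {M Q v : ℕ → ℝ}
    (hM0 : M 0 = 0) (hM : ∀ m, 0 ≤ M m) (hQ0 : 0 ≤ Q 0) (hv : ∀ m, 0 ≤ v m)
    (h1 : ∀ m, ∀ l : ℝ, 0 < l → M (m + 1) ≤ M m + (l / 2 * v (m + 1) + 1 / (4 * l) * (Q (m + 1) - Q m)))
    (h2 : ∀ m : ℕ, 1 ≤ m → d / 2 * Real.log m - b ≤ Q m)
    (h3 : ∀ m, Q m ≤ 1 + d * Real.log (4 * (1 + M m)))
    (h4 : ∀ N : ℕ, ∑ m ∈ Finset.range N, v (m + 1) ≤ V * N) (N : ℕ) (hN : 1 ≤ N) :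
    M N ≤ (2 * (V + (1 + 2 * d + b) / 4) + 1 + d / 2 * Real.log (2 * d)) * √N := by
  have hN0 : (0 : ℝ) < N := by exact_mod_cast hN
  have hN1 : (1 : ℝ) ≤ N := by exact_mod_cast hN
  have hd0 : (1 : ℝ) ≤ d := by exact_mod_cast hd
  have hs : 1 ≤ √(N : ℝ) := by rw [Real.one_le_sqrt]; exact hN1
  have hs0 : 0 < √(N : ℝ) := by linarith
  have hsum : M N ≤ ∑ m ∈ Finset.range N, (1 / 2 * (v (m + 1) / √((m + 1 : ℕ) : ℝ)) +
      1 / 4 * (√((m + 1 : ℕ) : ℝ) * (Q (m + 1) - Q m))) := by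
    clear hN hN0 hN1 hs hs0
    induction N with
    | zero => simp [hM0]
    | succ N ih =>
      rw [Finset.sum_range_succ]
      have hc0 : 0 < √((N + 1 : ℕ) : ℝ) := Real.sqrt_pos.2 (by positivity)
      have h5 := h1 N (1 / √((N + 1 : ℕ) : ℝ)) (by positivity)
      have e1 : 1 / √((N + 1 : ℕ) : ℝ) / 2 * v (N + 1) = 1 / 2 * (v (N + 1) / √((N + 1 : ℕ) : ℝ)) := by
        field_simp
      have e2 : 1 / (4 * (1 / √((N + 1 : ℕ) : ℝ))) = 1 / 4 * √((N + 1 : ℕ) : ℝ) := by
        field_simp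
      rw [e1, e2] at h5
      linarith
  rw [Finset.sum_add_distrib, ← Finset.mul_sum, ← Finset.mul_sum] at hsum
  have h5 := weight_sum (d := d) (T := 0) hV hv h4 N hN
  have h6 := ent_sum hb hQ0 h2 N hN
  have h7 : (∑ m ∈ Finset.range N, v (m + 1)) / √N ≤ V * √N := by
    rw [div_le_iff₀ hs0, mul_assoc, Real.mul_self_sqrt hN0.le]
    exact h4 N
  set z := M N / √N with hz
  have hz0 : 0 ≤ z := div_nonneg (hM N) hs0.le
  have hzM : M N = z * √N := by rw [hz]; field_simp
  have h8 := h3 N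
  -- the logarithm
  have hlog1 : Real.log (4 * (1 + M N)) ≤ Real.log √N + Real.log (4 * (1 + z)) := by
    rw [← Real.log_mul hs0.ne' (by positivity)]
    refine Real.log_le_log (by have := hM N; positivity) ?_
    rw [hzM]
    nlinarith
  have hlog2 : Real.log √N = Real.log N / 2 := Real.log_sqrt hN0.le
  have hlog3 : Real.log (4 * (1 + z)) ≤ 4 * (1 + z) / (2 * d) - 1 + Real.log (2 * d) := by
    have h9 := Real.log_le_sub_one_of_pos (show 0 < 4 * (1 + z) / (2 * d) by positivity)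
    rw [Real.log_div (by positivity) (by positivity)] at h9
    linarith
  have h10 : M N ≤ √N * (V + 1 / 4 * (Q N - d / 2 * Real.log N + 2 * d + b)) := by
    nlinarith
  have h11 : Q N - d / 2 * Real.log N ≤ 1 + d * (4 * (1 + z) / (2 * d) - 1 + Real.log (2 * d)) := by
    have : d * Real.log (4 * (1 + M N)) ≤ d * (Real.log N / 2 + (4 * (1 + z) / (2 * d) - 1 + Real.log (2 * d))) := by
      refine mul_le_mul_of_nonneg_left ?_ (by linarith)
      linarith
    nlinarith
  have h12 : d * (4 * (1 + z) / (2 * d) - 1 + Real.log (2 * d)) = 2 * (1 + z) - d + d * Real.log (2 * d) := by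
    field_simp
    ring
  have h13 : z ≤ V + 1 / 4 * (1 + (2 * (1 + z) - d + d * Real.log (2 * d)) + 2 * d + b) := by
    have h14 : M N ≤ √N * (V + 1 / 4 * (1 + (2 * (1 + z) - d + d * Real.log (2 * d)) + 2 * d + b)) := by
      refine h10.trans (mul_le_mul_of_nonneg_left ?_ hs0.le)
      rw [h12] at h11
      linarith
    rw [hz, div_le_iff₀ hs0, mul_comm]
    exact h14
  rw [hzM]
  refine mul_le_mul_of_nonneg_right ?_ hs0.le
  linarith

/-! ### the entropy of a law on the lattice -/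

variable {d : ℕ}

/-- the `ℓ¹` norm -/
def l1 (x : Vd d) : ℝ := ∑ i, |(x i : ℝ)|

theorem l1_nonneg (x : Vd d) : 0 ≤ l1 x := Finset.sum_nonneg fun _ _ => abs_nonneg _

theorem geom_one {r : ℝ} (hr : 0 ≤ r) (hr1 : r < 1) (n : ℕ) :
    ∑ k ∈ Finset.Icc (-(n : ℤ)) n, r ^ k.natAbs * ((1 - r) / 2) ≤ 1 := by
  rw [← Finset.sum_mul]
  have h1 := Finset.sum_Icc_of_even_eq_range (f := fun k : ℤ => r ^ k.natAbs)
    (fun k => by simp) n
  rw [h1]
  have h2 : ∑ m ∈ Finset.range (n + 1), (fun k : ℤ => r ^ k.natAbs) (m : ℤ) ≤ (1 - r)⁻¹ := by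
    simp only [Int.natAbs_natCast]
    rw [← tsum_geometric_of_lt_one hr hr1]
    exact (summable_geometric_of_lt_one hr hr1).sum_le_tsum _ fun m _ => pow_nonneg hr m
  have h3 : (1 - r)⁻¹ * (1 - r) = 1 := inv_mul_cancel₀ (sub_pos.2 hr1).ne'
  have h4 : (∑ m ∈ Finset.range (n + 1), (fun k : ℤ => r ^ k.natAbs) (m : ℤ)) * (1 - r) ≤ 1 := by
    have h6 : 0 ≤ 1 - r := by linarith
    calc _ ≤ (1 - r)⁻¹ * (1 - r) := mul_le_mul_of_nonneg_right h2 h6
      _ = 1 := h3
  have h5 : (0 : ℝ) ≤ (fun k : ℤ => r ^ k.natAbs) 0 * ((1 - r) / 2) := by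
    simp only [Int.natAbs_zero, pow_zero]
    linarith
  rw [sub_mul, nsmul_eq_mul]
  push_cast
  linarith

theorem subset_box (s : Finset (Vd d)) : ∃ n : ℕ, s ⊆ box d n := by
  classical
  refine ⟨s.sup fun x => ∑ i, (x i).natAbs, fun x hx => ?_⟩
  rw [mem_box]
  intro i
  have h1 : (x i).natAbs ≤ ∑ i, (x i).natAbs :=
    Finset.single_le_sum (f := fun i => (x i).natAbs) (fun _ _ => Nat.zero_le _) (Finset.mem_univ i)
  have h2 : ∑ i, (x i).natAbs ≤ s.sup fun x => ∑ i, (x i).natAbs :=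
    Finset.le_sup (f := fun x : Vd d => ∑ i, (x i).natAbs) hx
  rw [Int.abs_eq_natAbs]
  exact_mod_cast h1.trans h2

/-- the weight -/
noncomputable def wr (r : ℝ) (x : Vd d) : ℝ := ∏ i, (r ^ (x i).natAbs * ((1 - r) / 2))

theorem wr_nonneg {r : ℝ} (hr : 0 ≤ r) (hr1 : r < 1) (x : Vd d) : 0 ≤ wr r x :=
  Finset.prod_nonneg fun i _ => mul_nonneg (pow_nonneg hr _) (by linarith)

theorem wr_sum {r : ℝ} (hr : 0 ≤ r) (hr1 : r < 1) (s : Finset (Vd d)) : ∑ x ∈ s, wr r x ≤ 1 := by
  obtain ⟨n, hn⟩ := subset_box s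
  refine (Finset.sum_le_sum_of_subset_of_nonneg hn fun x _ _ => wr_nonneg hr hr1 x).trans ?_
  unfold wr box
  rw [← Finset.prod_univ_sum (fun _ : Fin d => Finset.Icc (-(n : ℤ)) n)
    (fun _ k => r ^ k.natAbs * ((1 - r) / 2))]
  refine Finset.prod_le_one (fun i _ => Finset.sum_nonneg fun k _ =>
    mul_nonneg (pow_nonneg hr _) (by linarith)) fun i _ => geom_one hr hr1 n

theorem wr_pos {r : ℝ} (hr : 0 < r) (hr1 : r < 1) (x : Vd d) : 0 < wr r x :=
  Finset.prod_pos fun i _ => mul_pos (pow_pos hr _) (by linarith)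

theorem log_wr {r : ℝ} (hr : 0 < r) (hr1 : r < 1) (x : Vd d) :
    Real.log (wr r x) = l1 x * Real.log r + d * Real.log ((1 - r) / 2) := by
  unfold wr l1
  rw [Real.log_prod (s := Finset.univ) (fun i _ => (mul_pos (pow_pos hr _) (by linarith)).ne')]
  have : ∀ i : Fin d, Real.log (r ^ (x i).natAbs * ((1 - r) / 2)) =
      |(x i : ℝ)| * Real.log r + Real.log ((1 - r) / 2) := by
    intro i
    rw [Real.log_mul (pow_pos hr _).ne' (by linarith), Real.log_pow]
    congr 2
    rw [← Int.cast_abs, Int.abs_eq_natAbs, Int.cast_natCast]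
  simp_rw [this]
  rw [Finset.sum_add_distrib, ← Finset.sum_mul, Finset.sum_const, Finset.card_univ,
    Fintype.card_fin, nsmul_eq_mul]

/-- entropy is bounded by the logarithm of the mean displacement -/
theorem entropy_le {p : Vd d → ℝ} (hp : ∀ x, 0 ≤ p x) (hp1 : ∀ x, p x ≤ 1) (hs : Summable p)
    (hsum : ∑' x, p x = 1) (hM : Summable (fun x => l1 x * p x)) :
    Summable (fun x => Real.negMulLog (p x)) ∧
    ∑' x, Real.negMulLog (p x) ≤ 1 + d * Real.log (4 * (1 + ∑' x, l1 x * p x)) := by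
  set M := ∑' x, l1 x * p x with hMd
  have hM0 : 0 ≤ M := tsum_nonneg fun x => mul_nonneg (l1_nonneg x) (hp x)
  set r : ℝ := (1 + M) / (2 + M) with hr
  have hr0 : 0 < r := by positivity
  have hr1 : r < 1 := by rw [hr, div_lt_one (by positivity)]; linarith
  have h1r : 1 - r = 1 / (2 + M) := by rw [hr]; field_simp; ring
  have hws : Summable (fun x : Vd d => wr r x) :=
    summable_of_sum_le (fun x => wr_nonneg hr0.le hr1 x) (wr_sum hr0.le hr1)
  have hw1 : ∑' x : Vd d, wr r x ≤ 1 := hws.tsum_le_of_sum_le (wr_sum hr0.le hr1)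
  have hpt : ∀ x, Real.negMulLog (p x) ≤
      (-Real.log r) * (l1 x * p x) + (-(d * Real.log ((1 - r) / 2))) * p x + (wr r x - p x) := by
    intro x
    have e1 : (-Real.log r) * (l1 x * p x) + (-(d * Real.log ((1 - r) / 2))) * p x =
        - (p x * Real.log (wr r x)) := by
      rw [log_wr hr0 hr1]; ring
    rw [e1]
    unfold Real.negMulLog
    rcases (hp x).eq_or_lt with h0 | h0
    · rw [← h0]
      simp [wr_nonneg hr0.le hr1 x]
    · have := log_ge h0 (wr_pos hr0 hr1 x)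
      linarith
  have hsR : Summable (fun x => (-Real.log r) * (l1 x * p x) +
      (-(d * Real.log ((1 - r) / 2))) * p x + (wr r x - p x)) :=
    ((hM.mul_left _).add (hs.mul_left _)).add (hws.sub hs)
  have hsN : Summable (fun x => Real.negMulLog (p x)) :=
    Summable.of_nonneg_of_le (fun x => Real.negMulLog_nonneg (hp x) (hp1 x)) hpt hsR
  refine ⟨hsN, (hsN.tsum_le_tsum hpt hsR).trans ?_⟩
  rw [((hM.mul_left _).add (hs.mul_left _)).tsum_add (hws.sub hs),
    (hM.mul_left _).tsum_add (hs.mul_left _), tsum_mul_left, tsum_mul_left, hws.tsum_sub hs, hsum]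
  have h5 : -Real.log r * M ≤ 1 := by
    have h6 : -Real.log r ≤ 1 / (1 + M) := by
      rw [hr, Real.log_div (by positivity) (by positivity)]
      have h7 := Real.log_le_sub_one_of_pos (show 0 < (2 + M) / (1 + M) by positivity)
      rw [Real.log_div (by positivity) (by positivity)] at h7
      have h8 : (2 + M) / (1 + M) - 1 = 1 / (1 + M) := by field_simp; ring
      linarith
    calc -Real.log r * M ≤ 1 / (1 + M) * M := mul_le_mul_of_nonneg_right h6 hM0
      _ ≤ 1 := by rw [one_div_mul_eq_div, div_le_one (by positivity)]; linarith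
  have h9 : -(d * Real.log ((1 - r) / 2)) ≤ d * Real.log (4 * (1 + M)) := by
    rw [h1r]
    have h10 : 1 / (2 + M) / 2 = (2 * (2 + M))⁻¹ := by field_simp
    rw [h10, Real.log_inv]
    have h11 : Real.log (2 * (2 + M)) ≤ Real.log (4 * (1 + M)) :=
      Real.log_le_log (by positivity) (by linarith)
    have := mul_le_mul_of_nonneg_left h11 (Nat.cast_nonneg d : (0 : ℝ) ≤ d)
    linarith
  linarith

/-- entropy is bounded below by the logarithm of the maximum -/
theorem entropy_ge {p : Vd d → ℝ} (hp : ∀ x, 0 ≤ p x) (hs : Summable p)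
    (hsum : ∑' x, p x = 1) (hN : Summable (fun x => Real.negMulLog (p x))) {k : ℝ} (hk : 0 < k)
    (hpk : ∀ x, p x ≤ k) : - Real.log k ≤ ∑' x, Real.negMulLog (p x) := by
  have h1 : ∀ x, (-Real.log k) * p x ≤ Real.negMulLog (p x) := by
    intro x
    unfold Real.negMulLog
    rcases (hp x).eq_or_lt with h0 | h0
    · rw [← h0]; simp
    · have := mul_le_mul_of_nonneg_left (Real.log_le_log h0 (hpk x)) h0.le
      linarith
  have h2 := (hs.mul_left (-Real.log k)).tsum_le_tsum h1 hN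
  rw [tsum_mul_left, hsum, mul_one] at h2
  exact h2

end Pool.Agent.H979.QIP
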