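import Pool.Agent.H979.QIP.Loc

set_option autoImplicit false
set_option linter.unusedSectionVars false
set_option linter.deprecated false
set_option linter.unusedVariables false
set_option linter.style.haveILetI false

open MeasureTheory ProbabilityTheory Filter Topology Set
open scoped ENNReal NNReal

/-!
# The exit estimate
-/

namespace Pool.Agent.H979.QIP

variable {Ω : Type*} [MeasurableSpace Ω] {d : ℕ} {μ : Measure Ω} {τ : Vd d → Ω → Ω}
  {q : Ω → Vd d → ℝ≥0∞}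

/-- the displacement in direction `i` -/
def co (i : Fin d) (_ : Ω) (y : Vd d) : ℝ := y i

theorem S_co (i : Fin d) (ω : Ω) (k : ℕ) (w : ℕ → Vd d) :
    S (fx τ (co i) ω) k w = (w k i : ℝ) - w 0 i := by
  unfold S fx co
  rw [← Finset.sum_range_sub (fun k => (w k i : ℝ))]
  refine Finset.sum_congr rfl fun j _ => ?_
  simp

/-- the inputs at a fixed environment -/
structure Inp (τ : Vd d → Ω → Ω) (q : Ω → Vd d → ℝ≥0∞) (hq : Ker τ q) (ω : Ω) (C₁ C₂ : ℝ) :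
    Prop where
  p1 : 0 ≤ C₁
  p2 : 0 ≤ C₂
  heat : haveI := qM_prob hq ω; ∀ m : ℕ, 1 ≤ m → ∀ y : Vd d,
    P (qM τ q ω) 0 {w | w m = y} ≤ ENNReal.ofReal (C₁ / (√m) ^ d)
  mom : haveI := qM_prob hq ω; ∀ m : ℕ, 1 ≤ m → ∀ ρ : ℕ, 1 ≤ ρ →
    P (qM τ q ω) 0 {w | w m ∉ box d ρ} ≤ ENNReal.ofReal (C₂ * √m / ρ)

/-- the estimate in one window of time -/
theorem window (h : Sta μ τ) (hq : Ker τ q) {ω : Ω} {C₁ C₂ C₃ κ : ℝ} (hI : Inp τ q hq ω C₁ C₂)
    (i : Fin d) (hV : ∀ x, VR q (co i) (τ x ω) ≠ ∞) (hC₃ : 0 ≤ C₃) (hκ : 0 < κ) (hκ1 : κ ≤ 1)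
    (hbox : ∀ l : ℕ, bx τ (fun ω => min 1 (ENNReal.ofReal (1 / 2 ^ l) *
      mx (Qo τ q) (VR q (co i)) ω)) ω ≤ ENNReal.ofReal (C₃ * ((2 : ℝ) ^ l) ^ (-κ)))
    {n : ℕ} (hn : 2 ≤ n) {r : ℝ} (hr : 0 < r) :
    haveI := qM_prob hq ω
    P (qM τ q ω) 0 {w | ∃ k ≤ n, n / 2 ≤ k ∧ r < |(w k i : ℝ)|} ≤
      ENNReal.ofReal ((2 * C₂ + C₁ * 11 ^ d * (32 + 6 * C₃) + 64) *
        (√n / r) ^ (κ / (2 * (d + 1)))) := by
  haveI := qM_prob hq ω
  set θ : ℝ := κ / (2 * (d + 1)) with hθ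
  have hd0 : (0 : ℝ) ≤ d := Nat.cast_nonneg d
  have hθ0 : 0 < θ := by positivity
  have hθ1 : θ ≤ κ / 2 := by
    rw [hθ]
    apply div_le_div_of_nonneg_left hκ.le (by norm_num)
    linarith
  have hdθ : d * θ ≤ κ / 2 := by
    rw [hθ, mul_div_assoc', div_le_div_iff₀ (by positivity) (by norm_num)]
    nlinarith
  have hC₁ := hI.p1
  have hC₂ := hI.p2
  have hn0 : (0 : ℝ) < n := by exact_mod_cast (by omega : 0 < n)
  have hsn : 0 < √(n : ℝ) := Real.sqrt_pos.2 hn0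
  set a₀ : ℝ := r / √n with ha₀
  have ha₀0 : 0 < a₀ := by positivity
  have hinv : √n / r = a₀⁻¹ := by rw [ha₀, inv_div]
  have hra : r = a₀ * √n := by rw [ha₀]; field_simp
  rw [hinv, Real.inv_rpow ha₀0.le]
  have hX : 0 < (a₀ ^ θ)⁻¹ := by positivity
  by_cases hbig : a₀ < 64
  · refine prob_le_one.trans ?_
    rw [← ENNReal.ofReal_one]
    refine ENNReal.ofReal_le_ofReal ?_
    have h1 : a₀ ^ θ ≤ 64 := by
      calc a₀ ^ θ ≤ 64 ^ θ := Real.rpow_le_rpow ha₀0.le hbig.le hθ0.le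
        _ ≤ 64 ^ (1 : ℝ) := Real.rpow_le_rpow_of_exponent_le (by norm_num) (by linarith)
        _ = 64 := Real.rpow_one _
    have h2 : 1 ≤ 64 * (a₀ ^ θ)⁻¹ := by
      rw [← div_eq_mul_inv, le_div_iff₀ (by positivity)]; linarith
    have h3 : 0 ≤ 2 * C₂ + C₁ * 11 ^ d * (32 + 6 * C₃) := by positivity
    nlinarith [mul_nonneg h3 hX.le]
  push Not at hbig
  -- radius of the box
  set Kk : ℝ := a₀ ^ θ with hKk
  have hK1 : 1 ≤ Kk := Real.one_le_rpow (by linarith) hθ0.le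
  set ρ : ℕ := ⌈Kk * √n⌉₊ with hρ
  have hs1 : 1 ≤ √(n : ℝ) := by
    rw [Real.one_le_sqrt]; exact_mod_cast (by omega : 1 ≤ n)
  have hρ1 : Kk * √n ≤ ρ := Nat.le_ceil _
  have hρ2 : (ρ : ℝ) ≤ 2 * (Kk * √n) := by
    have := Nat.ceil_lt_add_one (show 0 ≤ Kk * √n by positivity)
    have h1 : 1 ≤ Kk * √n := by nlinarith
    linarith
  have hρpos : 1 ≤ ρ := by
    have : (1 : ℝ) ≤ ρ := by nlinarith
    exact_mod_cast this
  have hKa : 4 * Kk ≤ a₀ := by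
    have h1 : Kk ≤ a₀ ^ ((1 : ℝ) / 2) :=
      Real.rpow_le_rpow_of_exponent_le (by linarith) (by linarith)
    have h2 : a₀ ^ ((1 : ℝ) / 2) * a₀ ^ ((1 : ℝ) / 2) = a₀ := by
      rw [← Real.rpow_add ha₀0]; norm_num
    have h3 : 8 ≤ a₀ ^ ((1 : ℝ) / 2) := by
      rw [← Real.sqrt_eq_rpow]
      exact Real.le_sqrt_of_sq_le (by linarith)
    nlinarith
  have hρr : (ρ : ℝ) ≤ r / 2 := by
    rw [hra]; nlinarith
  -- the times
  set m0 : ℕ := n / 2 with hm0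
  set N : ℕ := n - m0 with hN
  have hm01 : 1 ≤ m0 := by omega
  have hmN : m0 + N = n := by omega
  -- `λ`
  obtain ⟨l, hl1, hl2⟩ : ∃ l : ℕ, (2 : ℝ) ^ l ≤ a₀ ∧ a₀ < 2 ^ (l + 1) :=
    exists_nat_pow_near (by linarith) (by norm_num)
  set v : ℝ≥0∞ := ENNReal.ofReal (2 ^ l * n) with hv
  have hsq : √(n : ℝ) * √n = n := Real.mul_self_sqrt hn0.le
  have hv1 : v ≤ ENNReal.ofReal ((r / 2 / 4) ^ 2) := by
    refine ENNReal.ofReal_le_ofReal ?_
    rw [hra]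
    have : (a₀ * √n / 2 / 4) ^ 2 = a₀ ^ 2 / 64 * n := by
      calc _ = a₀ ^ 2 / 64 * (√n * √n) := by ring
        _ = _ := by rw [hsq]
    rw [this]
    refine mul_le_mul_of_nonneg_right ?_ hn0.le
    nlinarith
  have hv0 : v ≠ 0 := by
    rw [hv, Ne, ENNReal.ofReal_eq_zero, not_le]; positivity
  have hcv : ((N : ℝ≥0∞) + 1) / v ≤ ENNReal.ofReal (1 / 2 ^ l) := by
    have e1 : ((N : ℝ≥0∞) + 1) = ENNReal.ofReal (N + 1) := by
      rw [ENNReal.ofReal_add (by positivity) (by norm_num)]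
      simp
    rw [e1, hv, ← ENNReal.ofReal_div_of_pos (by positivity)]
    refine ENNReal.ofReal_le_ofReal ?_
    rw [div_le_div_iff₀ (by positivity) (by positivity), one_mul, mul_comm (2 ^ l : ℝ)]
    refine mul_le_mul_of_nonneg_right ?_ (by positivity)
    exact_mod_cast (by omega : N + 1 ≤ n)
  have hR : ∀ (ω : Ω) (y : Vd d), co i ω y = - co i (τ y ω) (-y) := by
    intro ω y; simp [co]
  have hlz := local_lz h hq ω (C := ENNReal.ofReal (C₁ / (√m0) ^ d)) m0 N (hI.heat m0 hm01) hR hV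
    (half_pos hr) hv1 hv0 hcv ρ
  -- decomposition of the event
  have hsub : {w : ℕ → Vd d | ∃ k ≤ n, n / 2 ≤ k ∧ r < |(w k i : ℝ)|} ⊆
      ({w | w m0 ∉ box d ρ} ∪ {w | w n ∉ box d ρ}) ∪ {w | w m0 ∈ box d ρ ∧ w (m0 + N) ∈ box d ρ ∧
      ∃ k ≤ N, r / 2 < |S (fx τ (co i) ω) k (fun j => w (m0 + j))|} := by
    rintro w ⟨k, hk, hk2, hk3⟩
    by_cases h1 : w m0 ∈ box d ρ
    · by_cases h2 : w n ∈ box d ρ
      · right
        refine ⟨h1, by rwa [hmN], k - m0, by omega, ?_⟩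
        rw [S_co]
        have e1 : m0 + (k - m0) = k := by omega
        rw [e1, add_zero]
        have h3 : |(w m0 i : ℝ)| ≤ ρ := by
          have := mem_box.1 h1 i
          exact_mod_cast this
        have h4 := abs_sub_abs_le_abs_sub (w k i : ℝ) (w m0 i)
        linarith
      · left; right; exact h2
    · left; left; exact h1
  refine (measure_mono hsub).trans ((measure_union_le _ _).trans ?_)
  refine (add_le_add (measure_union_le _ _) hlz).trans ?_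
  refine (add_le_add (add_le_add (hI.mom m0 hm01 ρ hρpos) (hI.mom n (by omega) ρ hρpos))
    (mul_le_mul' le_rfl (mul_le_mul' le_rfl (add_le_add le_rfl (mul_le_mul' le_rfl (hbox l)))))).trans ?_
  -- to real numbers
  have e3 : (((2 * ρ + 1 : ℕ) : ℝ≥0∞)) ^ d = ENNReal.ofReal ((2 * ρ + 1) ^ d) := by
    rw [ENNReal.ofReal_pow (by positivity)]
    congr 1
    have : (2 * (ρ : ℝ) + 1) = ((2 * ρ + 1 : ℕ) : ℝ) := by push_cast; ring
    rw [this, ENNReal.ofReal_natCast]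
  have e4 : v / ENNReal.ofReal ((r / 2 / 2) ^ 2) = ENNReal.ofReal (16 * 2 ^ l / a₀ ^ 2) := by
    rw [hv, ← ENNReal.ofReal_div_of_pos (by positivity)]
    congr 1
    rw [hra]
    have : (a₀ * √n / 2 / 2) ^ 2 = a₀ ^ 2 / 16 * n := by
      calc _ = a₀ ^ 2 / 16 * (√n * √n) := by ring
        _ = _ := by rw [hsq]
    rw [this]
    field_simp
  have e5 : (2 : ℝ≥0∞) = ENNReal.ofReal 2 := by simp
  have e6 : (3 : ℝ≥0∞) = ENNReal.ofReal 3 := by simp
  have hCl : 0 ≤ C₃ * ((2 : ℝ) ^ l) ^ (-κ) := by positivity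
  rw [e3, e4, e5, e6, ← ENNReal.ofReal_mul (by norm_num), ← ENNReal.ofReal_mul (by norm_num),
    ← ENNReal.ofReal_add (by positivity) (by positivity),
    ← ENNReal.ofReal_add (by positivity) (by positivity), ← ENNReal.ofReal_mul (by positivity),
    ← ENNReal.ofReal_mul (by positivity), ← ENNReal.ofReal_add (by positivity) (by positivity)]
  refine ENNReal.ofReal_le_ofReal ?_
  -- real estimates
  have hKinv : (a₀ ^ θ)⁻¹ = Kk⁻¹ := rfl
  have hsm : √(m0 : ℝ) ≤ √n := Real.sqrt_le_sqrt (by exact_mod_cast (by omega : m0 ≤ n))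
  have hρ0 : (0 : ℝ) < ρ := by exact_mod_cast (by omega : 0 < ρ)
  have r1 : C₂ * √m0 / ρ ≤ C₂ * Kk⁻¹ := by
    rw [div_le_iff₀ hρ0]
    have : C₂ * √m0 ≤ C₂ * √n := mul_le_mul_of_nonneg_left hsm hC₂
    refine this.trans ?_
    rw [mul_assoc]
    refine mul_le_mul_of_nonneg_left ?_ hC₂
    rw [inv_mul_eq_div, le_div_iff₀ (by positivity)]
    linarith
  have r2 : C₂ * √n / ρ ≤ C₂ * Kk⁻¹ := by
    rw [div_le_iff₀ hρ0, mul_assoc]
    refine mul_le_mul_of_nonneg_left ?_ hC₂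
    rw [inv_mul_eq_div, le_div_iff₀ (by positivity)]
    linarith
  have hm0pos : (0 : ℝ) < m0 := by exact_mod_cast (by omega : 0 < m0)
  have hsm0 : 0 < √(m0 : ℝ) := Real.sqrt_pos.2 hm0pos
  have hnm : √(n : ℝ) ≤ 1.8 * √m0 := by
    rw [Real.sqrt_le_left (by positivity), mul_pow, Real.sq_sqrt hm0pos.le]
    have : (n : ℝ) ≤ 3 * m0 := by exact_mod_cast (by omega : n ≤ 3 * m0)
    nlinarith
  have r3 : C₁ / (√m0) ^ d * (2 * ρ + 1) ^ d ≤ C₁ * 11 ^ d * Kk ^ d := by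
    rw [div_mul_eq_mul_div, div_le_iff₀ (by positivity), mul_assoc, mul_assoc]
    refine mul_le_mul_of_nonneg_left ?_ hC₁
    rw [← mul_pow, ← mul_pow]
    refine pow_le_pow_left₀ (by positivity) ?_ d
    have : (1 : ℝ) ≤ ρ := by exact_mod_cast hρpos
    nlinarith
  have r4 : 16 * 2 ^ l / a₀ ^ 2 ≤ 16 * a₀⁻¹ := by
    rw [div_le_iff₀ (by positivity)]
    have : 16 * a₀⁻¹ * a₀ ^ 2 = 16 * a₀ := by field_simp
    rw [this]; linarith
  have r5 : ((2 : ℝ) ^ l) ^ (-κ) ≤ 2 * a₀ ^ (-κ) := by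
    have h1 : a₀ / 2 ≤ 2 ^ l := by
      rw [pow_succ] at hl2; linarith
    have h2 : ((2 : ℝ) ^ l) ^ (-κ) ≤ (a₀ / 2) ^ (-κ) :=
      Real.rpow_le_rpow_of_nonpos (by positivity) h1 (by linarith)
    refine h2.trans ?_
    rw [Real.div_rpow ha₀0.le (by norm_num), Real.rpow_neg (by norm_num : (0 : ℝ) ≤ 2), div_inv_eq_mul,
      mul_comm]
    refine mul_le_mul_of_nonneg_right ?_ (by positivity)
    calc (2 : ℝ) ^ κ ≤ 2 ^ (1 : ℝ) := Real.rpow_le_rpow_of_exponent_le (by norm_num) hκ1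
      _ = 2 := Real.rpow_one _
  have r6 : Kk ^ d * a₀⁻¹ ≤ Kk⁻¹ := by
    have : Kk ^ d = a₀ ^ (d * θ) := by
      rw [hKk, ← Real.rpow_natCast, ← Real.rpow_mul ha₀0.le, mul_comm]
    rw [this, ← Real.rpow_neg_one a₀, ← Real.rpow_add ha₀0, hKk, ← Real.rpow_neg ha₀0.le]
    exact Real.rpow_le_rpow_of_exponent_le (by linarith) (by linarith)
  have r7 : Kk ^ d * a₀ ^ (-κ) ≤ Kk⁻¹ := by
    have : Kk ^ d = a₀ ^ (d * θ) := by
      rw [hKk, ← Real.rpow_natCast, ← Real.rpow_mul ha₀0.le, mul_comm]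
    rw [this, ← Real.rpow_add ha₀0, hKk, ← Real.rpow_neg ha₀0.le]
    exact Real.rpow_le_rpow_of_exponent_le (by linarith) (by linarith)
  have hM : 0 ≤ 2 * (16 * 2 ^ l / a₀ ^ 2) + 3 * (C₃ * ((2 : ℝ) ^ l) ^ (-κ)) := by positivity
  calc C₂ * √m0 / ρ + C₂ * √n / ρ + C₁ / √m0 ^ d * ((2 * ρ + 1) ^ d *
        (2 * (16 * 2 ^ l / a₀ ^ 2) + 3 * (C₃ * ((2 : ℝ) ^ l) ^ (-κ))))
      = C₂ * √m0 / ρ + C₂ * √n / ρ + (C₁ / √m0 ^ d * (2 * ρ + 1) ^ d) *
        (2 * (16 * 2 ^ l / a₀ ^ 2) + 3 * (C₃ * ((2 : ℝ) ^ l) ^ (-κ))) := by ring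
    _ ≤ C₂ * Kk⁻¹ + C₂ * Kk⁻¹ + (C₁ * 11 ^ d * Kk ^ d) *
        (2 * (16 * 2 ^ l / a₀ ^ 2) + 3 * (C₃ * ((2 : ℝ) ^ l) ^ (-κ))) :=
        add_le_add (add_le_add r1 r2) (mul_le_mul_of_nonneg_right r3 hM)
    _ ≤ C₂ * Kk⁻¹ + C₂ * Kk⁻¹ + (C₁ * 11 ^ d * Kk ^ d) *
        (2 * (16 * a₀⁻¹) + 3 * (C₃ * (2 * a₀ ^ (-κ)))) := by
        refine add_le_add le_rfl (mul_le_mul_of_nonneg_left ?_ (by positivity))
        refine add_le_add (by linarith) ?_
        have := mul_le_mul_of_nonneg_left r5 hC₃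
        linarith
    _ = 2 * C₂ * Kk⁻¹ + C₁ * 11 ^ d * (32 * (Kk ^ d * a₀⁻¹) + 6 * C₃ * (Kk ^ d * a₀ ^ (-κ))) := by
        ring
    _ ≤ 2 * C₂ * Kk⁻¹ + C₁ * 11 ^ d * (32 * Kk⁻¹ + 6 * C₃ * Kk⁻¹) := by
        refine add_le_add le_rfl (mul_le_mul_of_nonneg_left ?_ (by positivity))
        exact add_le_add (by linarith) (mul_le_mul_of_nonneg_left r7 (by positivity))
    _ ≤ (2 * C₂ + C₁ * 11 ^ d * (32 + 6 * C₃) + 64) * Kk⁻¹ := by
        have : 0 < Kk⁻¹ := by positivity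
        nlinarith

/-- **the exit estimate** -/
theorem exit_bound (h : Sta μ τ) (hq : Ker τ q) {ω : Ω} {C₁ C₂ C₃ κ : ℝ}
    (hI : Inp τ q hq ω C₁ C₂)
    (i : Fin d) (hV : ∀ x, VR q (co i) (τ x ω) ≠ ∞) (hC₃ : 0 ≤ C₃) (hκ : 0 < κ) (hκ1 : κ ≤ 1)
    (hbox : ∀ l : ℕ, bx τ (fun ω => min 1 (ENNReal.ofReal (1 / 2 ^ l) *
      mx (Qo τ q) (VR q (co i)) ω)) ω ≤ ENNReal.ofReal (C₃ * ((2 : ℝ) ^ l) ^ (-κ))) :
    haveI := qM_prob hq ω
    ∃ θ C : ℝ, 0 < θ ∧ 0 < C ∧ ∀ n : ℕ, 1 ≤ n → ∀ r : ℝ, 0 < r →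
    P (qM τ q ω) 0 {w | ∃ k ≤ n, r < |(w k i : ℝ)|} ≤ ENNReal.ofReal (C * (√n / r) ^ θ) := by
  haveI := qM_prob hq ω
  set θ : ℝ := κ / (2 * (d + 1)) with hθ
  have hd0 : (0 : ℝ) ≤ d := Nat.cast_nonneg d
  have hθ0 : 0 < θ := by positivity
  have hθ1 : θ ≤ 1 := by
    rw [hθ, div_le_one (by positivity)]
    linarith
  set C₆ : ℝ := 2 * C₂ + C₁ * 11 ^ d * (32 + 6 * C₃) + 64 with hC₆
  have hC₁ := hI.p1
  have hC₂ := hI.p2
  have hC₆0 : 0 < C₆ := by positivity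
  set g : ℝ := 1 - (2 : ℝ) ^ (-(θ / 2)) with hg
  have hg0 : 0 < g := by
    have : (2 : ℝ) ^ (-(θ / 2)) < 1 := Real.rpow_lt_one_of_one_lt_of_neg (by norm_num) (by linarith)
    linarith
  set C₇ : ℝ := C₆ / g + (2 * C₂ + 1) with hC₇
  have hC₇0 : 0 < C₇ := by positivity
  refine ⟨θ, C₇, hθ0, hC₇0, fun n => ?_⟩
  induction n using Nat.strong_induction_on with
  | _ n ih =>
    intro hn r hr
    rcases Nat.lt_or_ge n 2 with h2 | h2
    · have hn1 : n = 1 := by omega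
      subst hn1
      by_cases hr1 : r < 1
      · refine prob_le_one.trans ?_
        rw [← ENNReal.ofReal_one]
        refine ENNReal.ofReal_le_ofReal ?_
        have h1 : 1 ≤ (√((1 : ℕ) : ℝ) / r) ^ θ := by
          refine Real.one_le_rpow ?_ hθ0.le
          rw [Nat.cast_one, Real.sqrt_one, one_le_div hr]
          exact hr1.le
        have h2 : 1 ≤ C₇ := by
          have : 0 ≤ C₆ / g := by positivity
          linarith
        nlinarith
      · push Not at hr1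
        have hsub : {w : ℕ → Vd d | ∃ k ≤ 1, r < |(w k i : ℝ)|} ⊆
            {w | ¬ (w 0 = 0)} ∪ {w | w 1 ∉ box d ⌊r⌋₊} := by
          rintro w ⟨k, hk, hk'⟩
          by_cases hk0 : k = 0
          · left
            intro h0
            rw [hk0, h0] at hk'
            simp at hk'
            linarith
          · right
            have : k = 1 := by omega
            subst this
            intro hb
            have h3 := mem_box.1 hb i
            have h4 : |(w 1 i : ℝ)| ≤ (⌊r⌋₊ : ℝ) := by exact_mod_cast h3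
            have h5 := Nat.floor_le hr.le
            linarith
        refine (measure_mono hsub).trans ((measure_union_le _ _).trans ?_)
        have e0 : P (qM τ q ω) 0 {w | ¬ (w 0 = 0)} = 0 := P_zero _ 0
        rw [e0, zero_add]
        have hfl : 1 ≤ ⌊r⌋₊ := Nat.le_floor (by simpa using hr1)
        refine (hI.mom 1 le_rfl ⌊r⌋₊ hfl).trans (ENNReal.ofReal_le_ofReal ?_)
        rw [Nat.cast_one, Real.sqrt_one, mul_one]
        have h6 : r / 2 ≤ ⌊r⌋₊ := by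
          have := Nat.lt_floor_add_one r
          have h7 : (1 : ℝ) ≤ ⌊r⌋₊ := by exact_mod_cast hfl
          linarith
        have h8 : C₂ / ⌊r⌋₊ ≤ 2 * C₂ * (1 / r) := by
          rw [div_le_iff₀ (by linarith), mul_assoc, mul_assoc]
          have : 1 ≤ 2 * (1 / r * (⌊r⌋₊ : ℝ)) := by
            rw [one_div, inv_mul_eq_div, mul_div_assoc', le_div_iff₀ hr]
            linarith
          nlinarith
        have h9 : 1 / r ≤ (1 / r) ^ θ := by
          have h10 : 1 / r ≤ 1 := by rw [div_le_one hr]; exact hr1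
          calc 1 / r = (1 / r) ^ (1 : ℝ) := (Real.rpow_one _).symm
            _ ≤ (1 / r) ^ θ := Real.rpow_le_rpow_of_exponent_ge (by positivity) h10 hθ1
        have h11 : 2 * C₂ ≤ C₇ := by
          have : 0 ≤ C₆ / g := by positivity
          linarith
        calc C₂ / ⌊r⌋₊ ≤ 2 * C₂ * (1 / r) := h8
          _ ≤ 2 * C₂ * (1 / r) ^ θ := mul_le_mul_of_nonneg_left h9 (by positivity)
          _ ≤ C₇ * (1 / r) ^ θ := mul_le_mul_of_nonneg_right h11 (by positivity)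
    · have hn0 : (0 : ℝ) < n := by exact_mod_cast (by omega : 0 < n)
      have hsub : {w : ℕ → Vd d | ∃ k ≤ n, r < |(w k i : ℝ)|} ⊆
          {w | ∃ k ≤ n / 2, r < |(w k i : ℝ)|} ∪ {w | ∃ k ≤ n, n / 2 ≤ k ∧ r < |(w k i : ℝ)|} := by
        rintro w ⟨k, hk, hk'⟩
        rcases le_total k (n / 2) with h3 | h3
        · left; exact ⟨k, h3, hk'⟩
        · right; exact ⟨k, hk, h3, hk'⟩
      refine (measure_mono hsub).trans ((measure_union_le _ _).trans ?_)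
      refine (add_le_add (ih (n / 2) (by omega) (by omega) r hr)
        (window h hq hI i hV hC₃ hκ hκ1 hbox h2 hr)).trans ?_
      rw [← ENNReal.ofReal_add (by positivity) (by positivity)]
      refine ENNReal.ofReal_le_ofReal ?_
      have h4 : √((n / 2 : ℕ) : ℝ) ≤ √n * 2 ^ (-(1 / 2 : ℝ)) := by
        rw [Real.rpow_neg (by norm_num), ← Real.sqrt_eq_rpow, ← Real.sqrt_inv, ← Real.sqrt_mul hn0.le]
        refine Real.sqrt_le_sqrt ?_
        have : ((n / 2 : ℕ) : ℝ) ≤ n / 2 := Nat.cast_div_le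
        rw [← div_eq_mul_inv]
        exact this
      have h5 : (√((n / 2 : ℕ) : ℝ) / r) ^ θ ≤ (2 : ℝ) ^ (-(θ / 2)) * (√n / r) ^ θ := by
        have h6 : √((n / 2 : ℕ) : ℝ) / r ≤ 2 ^ (-(1 / 2 : ℝ)) * (√n / r) := by
          rw [div_le_iff₀ hr]
          have : 2 ^ (-(1 / 2 : ℝ)) * (√n / r) * r = √n * 2 ^ (-(1 / 2 : ℝ)) := by
            field_simp
          rw [this]; exact h4
        refine (Real.rpow_le_rpow (by positivity) h6 hθ0.le).trans ?_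
        rw [Real.mul_rpow (by positivity) (by positivity), ← Real.rpow_mul (by norm_num)]
        refine le_of_eq ?_
        congr 2
        ring
      have hY : 0 ≤ (√n / r) ^ θ := by positivity
      have h7 : C₇ * (2 : ℝ) ^ (-(θ / 2)) + C₆ ≤ C₇ := by
        have e : C₇ * (2 : ℝ) ^ (-(θ / 2)) = C₇ - C₇ * g := by rw [hg]; ring
        rw [e]
        have : C₆ ≤ C₇ * g := by
          rw [hC₇, add_mul, div_mul_cancel₀ _ hg0.ne']
          have : 0 ≤ (2 * C₂ + 1) * g := by positivity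
          linarith
        linarith
      calc C₇ * (√((n / 2 : ℕ) : ℝ) / r) ^ θ + C₆ * (√n / r) ^ θ
          ≤ C₇ * ((2 : ℝ) ^ (-(θ / 2)) * (√n / r) ^ θ) + C₆ * (√n / r) ^ θ :=
            add_le_add (mul_le_mul_of_nonneg_left h5 hC₇0.le) le_rfl
        _ = (C₇ * (2 : ℝ) ^ (-(θ / 2)) + C₆) * (√n / r) ^ θ := by ring
        _ ≤ C₇ * (√n / r) ^ θ := mul_le_mul_of_nonneg_right h7 hY

end Pool.Agent.H979.QIP
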