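import Pool.Agent.H979.QIP.Mach

set_option autoImplicit false
set_option linter.unusedSectionVars false
set_option linter.deprecated false
set_option linter.unusedVariables false
set_option linter.style.haveILetI false

open MeasureTheory ProbabilityTheory Filter Topology Set
open scoped ENNReal NNReal InnerProductSpace

/-!
# Finite dimensional distributions of the martingale: bounded increments
-/

namespace Pool.Agent.H979.QIP

variable {Ω : Type*} [MeasurableSpace Ω] {d : ℕ} {μ : Measure Ω} {τ : Vd d → Ω → Ω}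
  {q : Ω → Vd d → ℝ≥0∞}

/-- convergence of the characteristic functions -/
def FDD (τ : Vd d → Ω → Ω) (q : Ω → Vd d → ℝ≥0∞) (hq : Ker τ q) (ω : Ω)
    (ξ : Fin d → Ω → Vd d → ℝ) (c : Fin d → Fin d → ℝ) : Prop :=
  haveI := qM_prob hq ω
  ∀ (k : ℕ) (t : Fin k → ℝ) (u : Fin k → Fin d → ℝ), (∀ j, 0 ≤ t j) →
    Tendsto (fun n : ℕ => ∫ w, Complex.exp (((∑ j, ∑ a, u j a *
      (S (fx τ (ξ a) ω) ⌊t j * n⌋₊ w / √n) : ℝ) : ℂ) * Complex.I) ∂(P (qM τ q ω) 0)) atTop
    (𝓝 ((Real.exp (-((∑ j, ∑ l, min (t j) (t l) * ∑ a, ∑ b, u j a * c a b * u l b) / 2)) : ℝ) : ℂ))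

theorem QA.time {hq : Ker τ q} {ω : Ω} {g : Ω → ℝ} {c : ℝ} (hg : QA τ q hq ω g c) {t : ℝ}
    (ht : 0 ≤ t) :
    haveI := qM_prob hq ω
    Tendsto (fun n : ℕ => ∫⁻ w, ENNReal.ofReal
      |(∑ k ∈ Finset.range ⌊t * n⌋₊, g (τ (w k) ω)) / n - t * c| ∂(P (qM τ q ω) 0)) atTop (𝓝 0) := by
  haveI := qM_prob hq ω
  rcases ht.eq_or_lt with rfl | ht
  · simp
  have hm : Tendsto (fun n : ℕ => ⌊t * n⌋₊) atTop atTop := by
    refine tendsto_nat_floor_atTop.comp ?_
    exact tendsto_natCast_atTop_atTop.const_mul_atTop ht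
  have hfl : Tendsto (fun n : ℕ => ((⌊t * n⌋₊ : ℕ) : ℝ) / n) atTop (𝓝 t) :=
    (tendsto_nat_floor_mul_div_atTop ht.le).comp tendsto_natCast_atTop_atTop
  have h1 : Tendsto (fun n : ℕ => ∫⁻ w, ENNReal.ofReal
      |(∑ k ∈ Finset.range ⌊t * n⌋₊, g (τ (w k) ω)) / (⌊t * n⌋₊ : ℕ) - c| ∂(P (qM τ q ω) 0))
      atTop (𝓝 0) := hg.comp hm
  have h2 : Tendsto (fun n : ℕ => ENNReal.ofReal (((⌊t * n⌋₊ : ℕ) : ℝ) / n) * ∫⁻ w, ENNReal.ofReal
      |(∑ k ∈ Finset.range ⌊t * n⌋₊, g (τ (w k) ω)) / (⌊t * n⌋₊ : ℕ) - c| ∂(P (qM τ q ω) 0) +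
      ENNReal.ofReal (|((⌊t * n⌋₊ : ℕ) : ℝ) / n - t| * |c|)) atTop (𝓝 0) := by
    have a1 := ENNReal.Tendsto.mul (ENNReal.tendsto_ofReal hfl) (Or.inr ENNReal.zero_ne_top) h1
      (Or.inr ENNReal.ofReal_ne_top)
    have a2 : Tendsto (fun n : ℕ => ENNReal.ofReal (|((⌊t * n⌋₊ : ℕ) : ℝ) / n - t| * |c|)) atTop
        (𝓝 (ENNReal.ofReal (|t - t| * |c|))) :=
      ENNReal.tendsto_ofReal (((hfl.sub_const t).abs).mul_const _)
    have := a1.add a2
    simpa using this
  refine tendsto_of_tendsto_of_tendsto_of_le_of_le' tendsto_const_nhds h2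
    (Eventually.of_forall fun n => zero_le) ?_
  filter_upwards [hm.eventually_ge_atTop 1, eventually_ge_atTop 1] with n hn1 hn2
  have hm0 : (0 : ℝ) < (⌊t * n⌋₊ : ℕ) := by exact_mod_cast hn1
  have hn0 : (0 : ℝ) < n := by exact_mod_cast hn2
  rw [← lintegral_const_mul' _ _ ENNReal.ofReal_ne_top]
  have e0 : ENNReal.ofReal (|((⌊t * n⌋₊ : ℕ) : ℝ) / n - t| * |c|) =
      ∫⁻ w, ENNReal.ofReal (|((⌊t * n⌋₊ : ℕ) : ℝ) / n - t| * |c|) ∂(P (qM τ q ω) 0) := by
    rw [lintegral_const, measure_univ, mul_one]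
  rw [e0, ← lintegral_add_right _ measurable_const]
  refine lintegral_mono fun w => ?_
  rw [← ENNReal.ofReal_mul (by positivity), ← ENNReal.ofReal_add (by positivity) (by positivity)]
  refine ENNReal.ofReal_le_ofReal ?_
  have e1 : (∑ k ∈ Finset.range ⌊t * n⌋₊, g (τ (w k) ω)) / n - t * c =
      ((⌊t * n⌋₊ : ℕ) : ℝ) / n * ((∑ k ∈ Finset.range ⌊t * n⌋₊, g (τ (w k) ω)) /
        (⌊t * n⌋₊ : ℕ) - c) + (((⌊t * n⌋₊ : ℕ) : ℝ) / n - t) * c := by
    field_simp
    ring
  rw [e1]
  refine (abs_add_le _ _).trans ?_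
  rw [abs_mul, abs_mul, abs_of_pos (div_pos hm0 hn0)]

theorem fdd_bdd (h : Sta μ τ) (hq : Ker τ q) {ω : Ω} {ξ : Fin d → Ω → Vd d → ℝ} {M : ℝ}
    (hM : ∀ a ω y, |ξ a ω y| ≤ M) (h0 : ∀ a ω, ∫ y, ξ a ω y ∂(qM τ q ω 0) = 0)
    {c : Fin d → Fin d → ℝ}
    (hc : ∀ a b, QA τ q hq ω (fun ω => ∫ y, ξ a ω y * ξ b ω y ∂(qM τ q ω 0)) (c a b)) :
    FDD τ q hq ω ξ c := by
  haveI := qM_prob hq ω
  intro k t u ht
  have hprob : ∀ ω x, IsProbabilityMeasure (qM τ q ω x) := fun ω x => qM_prob hq ω x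
  have hdne : ∀ j : Fin k, ∀ a : Fin d, 0 ≤ M := fun _ a => (abs_nonneg _).trans (hM a ω 0)
  set U : ℝ := ∑ j, ∑ a, |u j a| with hU
  have hU0 : 0 ≤ U := Finset.sum_nonneg fun _ _ => Finset.sum_nonneg fun _ _ => abs_nonneg _
  set M' : ℝ := |M| with hM'
  have hM1 : ∀ a ω y, |ξ a ω y| ≤ M' := fun a ω y => (hM a ω y).trans (le_abs_self M)
  set T : ℝ := ∑ j, t j with hT
  have hT0 : 0 ≤ T := Finset.sum_nonneg fun j _ => ht j
  have htT : ∀ j, t j ≤ T := fun j => Finset.single_le_sum (fun i _ => ht i) (Finset.mem_univ j)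
  set v : ℝ := ∑ j, ∑ l, min (t j) (t l) * ∑ a, ∑ b, u j a * c a b * u l b with hv
  set g : Fin d → Fin d → Ω → ℝ := fun a b ω => ∫ y, ξ a ω y * ξ b ω y ∂(qM τ q ω 0) with hg
  -- the increments
  set Ξ : ℕ → ℕ → Vd d → Vd d → ℝ := fun n j x y =>
    ∑ k, ∑ a, (if j < ⌊t k * n⌋₊ then u k a / √n else 0) * fx τ (ξ a) ω x y with hΞ
  set N : ℕ → ℕ := fun n => ⌊T * n⌋₊ with hN
  have hmN : ∀ (n : ℕ) (k' : Fin k), ⌊t k' * n⌋₊ ≤ N n := fun n k =>
    Nat.floor_le_floor (mul_le_mul_of_nonneg_right (htT k) (Nat.cast_nonneg n))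
  have hST : ∀ (n : ℕ) w, ST (Ξ n) (N n) w = ∑ j, ∑ a, u j a * (S (fx τ (ξ a) ω) ⌊t j * n⌋₊ w / √n) := by
    intro n w
    unfold ST
    simp only [hΞ]
    rw [Finset.sum_comm]
    refine Finset.sum_congr rfl fun k _ => ?_
    rw [Finset.sum_comm]
    refine Finset.sum_congr rfl fun a _ => ?_
    simp_rw [ite_mul, zero_mul]
    rw [← Finset.sum_filter]
    have e1 : (Finset.range (N n)).filter (fun j => j < ⌊t k * n⌋₊) = Finset.range ⌊t k * n⌋₊ := by
      ext j
      simp only [Finset.mem_filter, Finset.mem_range]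
      have := hmN n k
      omega
    rw [e1]
    unfold S
    rw [Finset.sum_div, Finset.mul_sum]
    exact Finset.sum_congr rfl fun j _ => by ring
  have hinti : ∀ (a : Fin d) (ω' : Ω) (x : Vd d), Integrable (fun y => fx τ (ξ a) ω' x y) (qM τ q ω' x) :=
    fun a ω' x => by
      haveI := hprob ω' x
      exact Integrable.of_bound (measurable_of_countable _).aestronglyMeasurable M'
        (Eventually.of_forall fun y => hM1 a _ _)
  have hintm : ∀ (a b : Fin d) (ω' : Ω) (x : Vd d),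
      Integrable (fun y => fx τ (ξ a) ω' x y * fx τ (ξ b) ω' x y) (qM τ q ω' x) :=
    fun a b ω' x => by
      haveI := hprob ω' x
      exact Integrable.of_bound (measurable_of_countable _).aestronglyMeasurable (M' * M')
        (Eventually.of_forall fun y => by
          rw [norm_mul]
          exact mul_le_mul (hM1 a _ _) (hM1 b _ _) (norm_nonneg _) ((abs_nonneg _)))
  have hmean : ∀ n j x, ∫ y, Ξ n j x y ∂(qM τ q ω x) = 0 := by
    intro n j x
    simp only [hΞ]
    rw [integral_finset_sum _ fun k _ => integrable_finset_sum _ fun a _ =>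
      (hinti a ω x).const_mul _]
    refine Finset.sum_eq_zero fun k _ => ?_
    rw [integral_finset_sum _ fun a _ => (hinti a ω x).const_mul _]
    refine Finset.sum_eq_zero fun a _ => ?_
    rw [integral_const_mul, integral_qM h]
    unfold fx
    simp only [add_sub_cancel_left]
    rw [h0, mul_zero]
  have hbd : ∀ n, ∀ j x y, |Ξ n j x y| ≤ U * M' / √n := by
    intro n j x y
    simp only [hΞ]
    refine (Finset.abs_sum_le_sum_abs _ _).trans ?_
    have : ∀ k ∈ Finset.univ, |∑ a, (if j < ⌊t k * n⌋₊ then u k a / √n else 0) *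
        fx τ (ξ a) ω x y| ≤ ∑ a, |u k a| * M' / √n := by
      intro k _
      refine (Finset.abs_sum_le_sum_abs _ _).trans (Finset.sum_le_sum fun a _ => ?_)
      rw [abs_mul]
      have h1 : |if j < ⌊t k * n⌋₊ then u k a / √n else 0| ≤ |u k a| / √n := by
        split_ifs
        · rw [abs_div, abs_of_nonneg (Real.sqrt_nonneg _)]
        · rw [abs_zero]; positivity
      have h2 : |fx τ (ξ a) ω x y| ≤ M' := hM1 a _ _
      calc _ ≤ |u k a| / √n * M' := mul_le_mul h1 h2 (abs_nonneg _) (by positivity)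
        _ = _ := by ring
    refine (Finset.sum_le_sum this).trans (le_of_eq ?_)
    rw [hU, Finset.sum_mul, Finset.sum_div]
    refine Finset.sum_congr rfl fun k _ => ?_
    rw [Finset.sum_mul, Finset.sum_div]
  -- the variances
  have hAT : ∀ n : ℕ, ∀ w, 1 ≤ n → AT (qM τ q ω) (Ξ n) (N n) w = ∑ j, ∑ l, ∑ a, ∑ b, u j a * u l b *
      ((∑ i ∈ Finset.range ⌊min (t j) (t l) * n⌋₊, g a b (τ (w i) ω)) / n) := by
    intro n w hn
    have hn0 : (0 : ℝ) < n := by exact_mod_cast hn
    unfold AT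
    have e1 : ∀ i, ∫ y, Ξ n i (w i) y ^ 2 ∂(qM τ q ω (w i)) = ∑ j, ∑ l, ∑ a, ∑ b, u j a * u l b *
        ((if i < ⌊min (t j) (t l) * n⌋₊ then g a b (τ (w i) ω) else 0) / n) := by
      intro i
      have e2 : ∀ y, Ξ n i (w i) y ^ 2 = ∑ j, ∑ l, ∑ a, ∑ b,
          ((if i < ⌊t j * n⌋₊ then u j a / √n else 0) * (if i < ⌊t l * n⌋₊ then u l b / √n else 0)) *
          (fx τ (ξ a) ω (w i) y * fx τ (ξ b) ω (w i) y) := by
        intro y
        simp only [hΞ]
        rw [sq, Finset.sum_mul_sum]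
        refine Finset.sum_congr rfl fun j _ => Finset.sum_congr rfl fun l _ => ?_
        rw [Finset.sum_mul_sum]
        exact Finset.sum_congr rfl fun a _ => Finset.sum_congr rfl fun b _ => by ring
      simp_rw [e2]
      rw [integral_finset_sum _ fun j _ => integrable_finset_sum _ fun l _ =>
        integrable_finset_sum _ fun a _ => integrable_finset_sum _ fun b _ =>
        (hintm a b ω (w i)).const_mul _]
      refine Finset.sum_congr rfl fun j _ => ?_
      rw [integral_finset_sum _ fun l _ => integrable_finset_sum _ fun a _ =>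
        integrable_finset_sum _ fun b _ => (hintm a b ω (w i)).const_mul _]
      refine Finset.sum_congr rfl fun l _ => ?_
      rw [integral_finset_sum _ fun a _ => integrable_finset_sum _ fun b _ =>
        (hintm a b ω (w i)).const_mul _]
      refine Finset.sum_congr rfl fun a _ => ?_
      rw [integral_finset_sum _ fun b _ => (hintm a b ω (w i)).const_mul _]
      refine Finset.sum_congr rfl fun b _ => ?_
      rw [integral_const_mul]
      have e3 : ∫ y, fx τ (ξ a) ω (w i) y * fx τ (ξ b) ω (w i) y ∂(qM τ q ω (w i)) =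
          g a b (τ (w i) ω) := by
        rw [integral_qM h]
        unfold fx
        simp only [add_sub_cancel_left, hg]
      rw [e3]
      have hmin : (i < ⌊min (t j) (t l) * n⌋₊) ↔ (i < ⌊t j * n⌋₊ ∧ i < ⌊t l * n⌋₊) := by
        have : ⌊min (t j) (t l) * n⌋₊ = min ⌊t j * n⌋₊ ⌊t l * n⌋₊ := by
          rcases le_total (t j) (t l) with h1 | h1
          · rw [min_eq_left h1, min_eq_left]
            exact Nat.floor_le_floor (mul_le_mul_of_nonneg_right h1 hn0.le)
          · rw [min_eq_right h1, min_eq_right]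
            exact Nat.floor_le_floor (mul_le_mul_of_nonneg_right h1 hn0.le)
        rw [this, lt_min_iff]
      have hsq : √(n : ℝ) * √n = n := Real.mul_self_sqrt hn0.le
      have hsn : √(n : ℝ) ≠ 0 := (Real.sqrt_pos.2 hn0).ne'
      by_cases h1 : i < ⌊t j * n⌋₊
      · by_cases h2 : i < ⌊t l * n⌋₊
        · rw [if_pos h1, if_pos h2, if_pos (hmin.2 ⟨h1, h2⟩), div_mul_div_comm, hsq]
          ring
        · rw [if_neg h2, if_neg (fun h3 => h2 (hmin.1 h3).2)]
          simp
      · rw [if_neg h1, if_neg (fun h3 => h1 (hmin.1 h3).1)]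
        simp
    simp_rw [e1]
    rw [Finset.sum_comm]
    refine Finset.sum_congr rfl fun j _ => ?_
    rw [Finset.sum_comm]
    refine Finset.sum_congr rfl fun l _ => ?_
    rw [Finset.sum_comm]
    refine Finset.sum_congr rfl fun a _ => ?_
    rw [Finset.sum_comm]
    refine Finset.sum_congr rfl fun b _ => ?_
    rw [← Finset.mul_sum, ← Finset.sum_div, ← Finset.sum_filter]
    congr 3
    ext i
    simp only [Finset.mem_filter, Finset.mem_range]
    have h2 : ⌊min (t j) (t l) * n⌋₊ ≤ N n :=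
      (Nat.floor_le_floor (mul_le_mul_of_nonneg_right (min_le_left _ _) hn0.le)).trans (hmN n j)
    omega
  -- convergence of the variances
  have hlimv : Tendsto (fun n : ℕ => ∫⁻ w, ENNReal.ofReal |AT (qM τ q ω) (Ξ n) (N n) w - v|
      ∂(P (qM τ q ω) 0)) atTop (𝓝 0) := by
    have hlim1 : Tendsto (fun n : ℕ => ∑ j : Fin k, ∑ l : Fin k, ∑ a : Fin d, ∑ b : Fin d,
        ENNReal.ofReal (|u j a * u l b|) * ∫⁻ w, ENNReal.ofReal
        |(∑ i ∈ Finset.range ⌊min (t j) (t l) * n⌋₊, g a b (τ (w i) ω)) / n - min (t j) (t l) * c a b|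
        ∂(P (qM τ q ω) 0)) atTop (𝓝 (∑ j : Fin k, ∑ l : Fin k, ∑ a : Fin d, ∑ b : Fin d,
        ENNReal.ofReal (|u j a * u l b|) * 0)) := by
      refine tendsto_finsetSum _ fun j _ => tendsto_finsetSum _ fun l _ =>
        tendsto_finsetSum _ fun a _ => tendsto_finsetSum _ fun b _ => ?_
      exact ENNReal.Tendsto.const_mul ((hc a b).time (le_min (ht j) (ht l)))
        (Or.inr ENNReal.ofReal_ne_top)
    simp only [mul_zero, Finset.sum_const_zero] at hlim1
    refine tendsto_of_tendsto_of_tendsto_of_le_of_le' tendsto_const_nhds hlim1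
      (Eventually.of_forall fun n => zero_le) ?_
    filter_upwards [eventually_ge_atTop 1] with n hn
    have hle : ∀ w : ℕ → Vd d, ENNReal.ofReal |AT (qM τ q ω) (Ξ n) (N n) w - v| ≤
        ∑ j : Fin k, ∑ l : Fin k, ∑ a : Fin d, ∑ b : Fin d,
        ENNReal.ofReal (|u j a * u l b|) * ENNReal.ofReal
        |(∑ i ∈ Finset.range ⌊min (t j) (t l) * n⌋₊, g a b (τ (w i) ω)) / n -
          min (t j) (t l) * c a b| := by
      intro w
      rw [hAT n w hn]
      have e1 : v = ∑ j, ∑ l, ∑ a, ∑ b, u j a * u l b * (min (t j) (t l) * c a b) := by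
        rw [hv]
        refine Finset.sum_congr rfl fun j _ => Finset.sum_congr rfl fun l _ => ?_
        rw [Finset.mul_sum]
        refine Finset.sum_congr rfl fun a _ => ?_
        rw [Finset.mul_sum]
        exact Finset.sum_congr rfl fun b _ => by ring
      rw [e1]
      simp_rw [← ENNReal.ofReal_mul (abs_nonneg _)]
      rw [← Finset.sum_sub_distrib]
      have hsum : ∀ {ι : Type} (s : Finset ι) (f : ι → ℝ), ENNReal.ofReal |∑ i ∈ s, f i| ≤
          ∑ i ∈ s, ENNReal.ofReal |f i| := by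
        intro ι s f
        rw [← ENNReal.ofReal_sum_of_nonneg fun _ _ => abs_nonneg _]
        exact ENNReal.ofReal_le_ofReal (Finset.abs_sum_le_sum_abs _ _)
      refine (hsum _ _).trans (Finset.sum_le_sum fun j _ => ?_)
      rw [← Finset.sum_sub_distrib]
      refine (hsum _ _).trans (Finset.sum_le_sum fun l _ => ?_)
      rw [← Finset.sum_sub_distrib]
      refine (hsum _ _).trans (Finset.sum_le_sum fun a _ => ?_)
      rw [← Finset.sum_sub_distrib]
      refine (hsum _ _).trans (Finset.sum_le_sum fun b _ => ?_)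
      rw [← mul_sub, abs_mul]
    refine (lintegral_mono hle).trans (le_of_eq ?_)
    have mea : ∀ (j l : Fin k) (a b : Fin d), Measurable (fun w : ℕ → Vd d =>
        ENNReal.ofReal (|u j a * u l b|) * ENNReal.ofReal
        |(∑ i ∈ Finset.range ⌊min (t j) (t l) * n⌋₊, g a b (τ (w i) ω)) / n -
          min (t j) (t l) * c a b|) := by
      intro j l a b
      refine Dep.measurable (N := N n) fun w w' hw => ?_
      have : ∀ i ∈ Finset.range ⌊min (t j) (t l) * n⌋₊, g a b (τ (w i) ω) = g a b (τ (w' i) ω) := by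
        intro i hi
        have h2 : ⌊min (t j) (t l) * n⌋₊ ≤ N n :=
          (Nat.floor_le_floor (mul_le_mul_of_nonneg_right (min_le_left _ _)
            (Nat.cast_nonneg n))).trans (hmN n j)
        rw [hw i (by have := Finset.mem_range.1 hi; omega)]
      rw [Finset.sum_congr rfl this]
    rw [lintegral_finsetSum _ fun j _ => Finset.measurable_sum _ fun l _ =>
      Finset.measurable_sum _ fun a _ => Finset.measurable_sum _ fun b _ => mea j l a b]
    refine Finset.sum_congr rfl fun j _ => ?_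
    rw [lintegral_finsetSum _ fun l _ =>
      Finset.measurable_sum _ fun a _ => Finset.measurable_sum _ fun b _ => mea j l a b]
    refine Finset.sum_congr rfl fun l _ => ?_
    rw [lintegral_finsetSum _ fun a _ => Finset.measurable_sum _ fun b _ => mea j l a b]
    refine Finset.sum_congr rfl fun a _ => ?_
    rw [lintegral_finsetSum _ fun b _ => mea j l a b]
    refine Finset.sum_congr rfl fun b _ => ?_
    rw [lintegral_const_mul' _ _ ENNReal.ofReal_ne_top]
  have mAT : ∀ n, Measurable (fun w : ℕ → Vd d => |AT (qM τ q ω) (Ξ n) (N n) w - v|) := fun n =>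
    ((dep_AT (qM τ q ω) (Ξ n) (le_refl (N n))).measurable.sub_const v).abs
  -- `v` is nonnegative
  have hv0 : 0 ≤ v := by
    by_contra hneg
    push Not at hneg
    have h1 : ∀ n : ℕ, ENNReal.ofReal (-v) ≤ ∫⁻ w, ENNReal.ofReal
        |AT (qM τ q ω) (Ξ n) (N n) w - v| ∂(P (qM τ q ω) 0) := by
      intro n
      calc ENNReal.ofReal (-v) = ∫⁻ w, ENNReal.ofReal (-v) ∂(P (qM τ q ω) 0) := by
            rw [lintegral_const, measure_univ, mul_one]
        _ ≤ _ := lintegral_mono fun w => ENNReal.ofReal_le_ofReal (by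
            have := AT_nonneg (qM τ q ω) (Ξ n) (N n) w
            exact le_trans (by linarith) (le_abs_self _))
    have h2 := ge_of_tendsto' hlimv h1
    have h3 : ENNReal.ofReal (-v) = 0 := le_antisymm h2 zero_le
    rw [ENNReal.ofReal_eq_zero] at h3
    linarith
  -- conclusion
  set B : ℝ := (T + 1) * (U * M') ^ 2 with hB
  have hB0 : 0 ≤ B := by positivity
  have hlimr : Tendsto (fun n : ℕ => ∫ w, |AT (qM τ q ω) (Ξ n) (N n) w - v| ∂(P (qM τ q ω) 0))
      atTop (𝓝 0) := by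
    have h1 := (ENNReal.tendsto_toReal ENNReal.zero_ne_top).comp hlimv
    rw [ENNReal.toReal_zero] at h1
    refine h1.congr fun n => ?_
    simp only [Function.comp]
    rw [integral_eq_lintegral_of_nonneg_ae (Eventually.of_forall fun w => abs_nonneg _)
      (mAT n).aestronglyMeasurable]
  have hlimc : Tendsto (fun n : ℕ => U * M' / √n) atTop (𝓝 0) :=
    Tendsto.div_atTop tendsto_const_nhds
      (Real.tendsto_sqrt_atTop.comp tendsto_natCast_atTop_atTop)
  rw [tendsto_iff_norm_sub_tendsto_zero]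
  have hlimtot : Tendsto (fun n : ℕ => Real.exp (B / 2) *
      (∫ w, |AT (qM τ q ω) (Ξ n) (N n) w - v| ∂(P (qM τ q ω) 0) + B * (U * M' / √n))) atTop (𝓝 0) := by
    have := ((hlimr.add (hlimc.const_mul B))).const_mul (Real.exp (B / 2))
    simpa using this
  refine tendsto_of_tendsto_of_tendsto_of_le_of_le' tendsto_const_nhds hlimtot
    (Eventually.of_forall fun n => norm_nonneg _) ?_
  filter_upwards [(tendsto_order.1 hlimc).2 1 one_pos, eventually_ge_atTop 1] with n hn1 hn2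
  have hn0 : (0 : ℝ) < n := by exact_mod_cast hn2
  have hsq : √(n : ℝ) * √n = n := Real.mul_self_sqrt hn0.le
  have hNn : (N n : ℝ) ≤ (T + 1) * n := by
    have : (N n : ℝ) ≤ T * n := Nat.floor_le (by positivity)
    nlinarith
  have hcc : (N n : ℝ) * (U * M' / √n) ^ 2 ≤ B := by
    rw [div_pow, Real.sq_sqrt hn0.le, hB]
    calc (N n : ℝ) * ((U * M') ^ 2 / n) ≤ ((T + 1) * n) * ((U * M') ^ 2 / n) :=
          mul_le_mul_of_nonneg_right hNn (by positivity)
      _ = _ := by field_simp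
  have hclt := clt (qM τ q ω) hn1.le (N n) 0 (Ξ n) (hbd n) (hmean n) hv0 hcc
  simp_rw [hST] at hclt
  refine hclt.trans ?_
  refine mul_le_mul_of_nonneg_left (add_le_add le_rfl ?_) (Real.exp_pos _).le
  have h0c : 0 ≤ U * M' / √n := by positivity
  calc (N n : ℝ) * (U * M' / √n) ^ 3 = ((N n : ℝ) * (U * M' / √n) ^ 2) * (U * M' / √n) := by ring
    _ ≤ B * (U * M' / √n) := mul_le_mul_of_nonneg_right hcc h0c

end Pool.Agent.H979.QIP
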