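import Pool.Agent.H979.QIP.Fdd

set_option autoImplicit false
set_option linter.unusedSectionVars false
set_option linter.deprecated false
set_option linter.unusedVariables false
set_option linter.style.haveILetI false

open MeasureTheory ProbabilityTheory Filter Topology Set
open scoped ENNReal NNReal InnerProductSpace

/-!
# Finite dimensional distributions of the martingale: square integrable increments
-/

namespace Pool.Agent.H979.QIP

variable {Ω : Type*} [MeasurableSpace Ω] {d : ℕ} {μ : Measure Ω} {τ : Vd d → Ω → Ω}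
  {q : Ω → Vd d → ℝ≥0∞}

theorem avg_V (h : Sta μ τ) (hq : Ker τ q) {ω : Ω} {R : Ω → Vd d → ℝ}
    (hfin : ∀ x, VR q R (τ x ω) ≠ ∞) {ρ : ℝ}
    (hQ : QA τ q hq ω (fun ω => (VR q R ω).toReal) ρ) {t : ℝ} (ht : 0 ≤ t) {e : ℝ}
    (he : t * ρ < e) :
    haveI := qM_prob hq ω
    ∀ᶠ n : ℕ in atTop, ∫⁻ w, A (V (qM τ q ω) (fx τ R ω)) ⌊t * n⌋₊ w ∂(P (qM τ q ω) 0) ≤
      ENNReal.ofReal (e * n) := by
  haveI := qM_prob hq ω
  have h1 := hQ.time ht
  rw [ENNReal.tendsto_atTop_zero] at h1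
  obtain ⟨n0, hn0⟩ := h1 (ENNReal.ofReal (e - t * ρ)) (ENNReal.ofReal_pos.2 (by linarith))
  filter_upwards [eventually_ge_atTop n0, eventually_ge_atTop 1] with n hn hn1
  have hnpos : (0 : ℝ) < n := by exact_mod_cast hn1
  set m := ⌊t * n⌋₊ with hm
  set g : Ω → ℝ := fun ω => (VR q R ω).toReal with hg
  have hg0 : ∀ ω, 0 ≤ g ω := fun ω => ENNReal.toReal_nonneg
  have e1 : ∀ w : ℕ → Vd d, A (V (qM τ q ω) (fx τ R ω)) m w =
      ENNReal.ofReal (∑ k ∈ Finset.range m, g (τ (w k) ω)) := by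
    intro w
    unfold A
    rw [ENNReal.ofReal_sum_of_nonneg fun _ _ => hg0 _]
    refine Finset.sum_congr rfl fun k _ => ?_
    rw [V_fx, hg, ENNReal.ofReal_toReal (hfin _)]
  have e2 : ∀ w : ℕ → Vd d, A (V (qM τ q ω) (fx τ R ω)) m w ≤
      ENNReal.ofReal n * (ENNReal.ofReal |(∑ k ∈ Finset.range m, g (τ (w k) ω)) / n - t * ρ| +
        ENNReal.ofReal (max 0 (t * ρ))) := by
    intro w
    rw [e1, ← ENNReal.ofReal_add (abs_nonneg _) (le_max_left _ _), ← ENNReal.ofReal_mul hnpos.le]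
    refine ENNReal.ofReal_le_ofReal ?_
    have h3 := le_abs_self ((∑ k ∈ Finset.range m, g (τ (w k) ω)) / n - t * ρ)
    have h4 : t * ρ ≤ max 0 (t * ρ) := le_max_right _ _
    have h5 : (∑ k ∈ Finset.range m, g (τ (w k) ω)) = n * ((∑ k ∈ Finset.range m, g (τ (w k) ω)) / n) := by
      field_simp
    refine h5.le.trans (mul_le_mul_of_nonneg_left ?_ hnpos.le)
    linarith
  by_cases hρ : 0 ≤ t * ρ
  · refine (lintegral_mono e2).trans ?_
    rw [lintegral_const_mul' _ _ ENNReal.ofReal_ne_top, lintegral_add_right _ measurable_const,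
      lintegral_const, measure_univ, mul_one]
    refine (mul_le_mul' le_rfl (add_le_add (hn0 n hn) le_rfl)).trans ?_
    rw [max_eq_right hρ, ← ENNReal.ofReal_add (by linarith) hρ, ← ENNReal.ofReal_mul hnpos.le]
    refine ENNReal.ofReal_le_ofReal (le_of_eq ?_)
    ring
  · -- impossible case handled by nonnegativity of the averages
    push Not at hρ
    have e3 : ∀ w : ℕ → Vd d, A (V (qM τ q ω) (fx τ R ω)) m w + ENNReal.ofReal (n * (- (t * ρ))) ≤
      ENNReal.ofReal n * (ENNReal.ofReal |(∑ k ∈ Finset.range m, g (τ (w k) ω)) / n - t * ρ|) := by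
      intro w
      rw [e1, ← ENNReal.ofReal_mul hnpos.le, ← ENNReal.ofReal_add
        (Finset.sum_nonneg fun _ _ => hg0 _) (by nlinarith)]
      refine ENNReal.ofReal_le_ofReal ?_
      have h3 := le_abs_self ((∑ k ∈ Finset.range m, g (τ (w k) ω)) / n - t * ρ)
      have h5 : (∑ k ∈ Finset.range m, g (τ (w k) ω)) + n * (- (t * ρ)) =
          n * ((∑ k ∈ Finset.range m, g (τ (w k) ω)) / n - t * ρ) := by
        field_simp
        ring
      rw [h5]
      exact mul_le_mul_of_nonneg_left h3 hnpos.le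
    have h6 := lintegral_mono (μ := P (qM τ q ω) 0) e3
    rw [lintegral_const_mul' _ _ ENNReal.ofReal_ne_top, lintegral_add_right _ measurable_const,
      lintegral_const, measure_univ, mul_one] at h6
    have h7 := h6.trans (mul_le_mul' le_rfl (hn0 n hn))
    rw [← ENNReal.ofReal_mul hnpos.le] at h7
    have h8 : (n : ℝ) * (e - t * ρ) = e * n + n * (-(t * ρ)) := by ring
    rw [h8] at h7
    by_cases he0 : 0 ≤ e
    · rw [ENNReal.ofReal_add (by positivity) (by nlinarith)] at h7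
      exact (ENNReal.add_le_add_iff_right ENNReal.ofReal_ne_top).1 h7
    · push Not at he0
      exfalso
      have h9 := le_add_self.trans h7
      rw [ENNReal.ofReal_le_ofReal_iff (by nlinarith)] at h9
      nlinarith

theorem small_S (h : Sta μ τ) (hq : Ker τ q) {ω : Ω} {R : Ω → Vd d → ℝ}
    (hfin : ∀ x, VR q R (τ x ω) ≠ ∞) {ρ : ℝ}
    (hQ : QA τ q hq ω (fun ω => (VR q R ω).toReal) ρ) {t : ℝ} (ht : 0 ≤ t) {e : ℝ}
    (he0 : 0 < e) (he : t * ρ < e ^ 2) :
    haveI := qM_prob hq ω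
    ∀ᶠ n : ℕ in atTop, ∫⁻ w, ENNReal.ofReal |S (cen (qM τ q ω) (fx τ R ω)) ⌊t * n⌋₊ w / √n|
      ∂(P (qM τ q ω) 0) ≤ ENNReal.ofReal e := by
  haveI := qM_prob hq ω
  filter_upwards [avg_V h hq hfin hQ ht he, eventually_ge_atTop 1] with n hn hn1
  have hnpos : (0 : ℝ) < n := by exact_mod_cast hn1
  have hsn : 0 < √(n : ℝ) := Real.sqrt_pos.2 hnpos
  set m := ⌊t * n⌋₊ with hm
  have hV : ∀ x, V (qM τ q ω) (fx τ R ω) x ≠ ∞ := fun x => by rw [V_fx]; exact hfin x
  have hVc : ∀ x, V (qM τ q ω) (cen (qM τ q ω) (fx τ R ω)) x ≠ ∞ := fun x =>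
    ne_top_of_le_ne_top (hV x) (V_cen_le (qM τ q ω) (hV x))
  have h2 := second_moment (qM τ q ω) hVc (fun x => bm_cen (qM τ q ω) (hV x)) m 0 0
  have h3 : ∫⁻ w, ENNReal.ofReal ((0 + S (cen (qM τ q ω) (fx τ R ω)) m w) ^ 2) ∂(P (qM τ q ω) 0) ≤
      ENNReal.ofReal (e ^ 2 * n) := by
    rw [h2]
    simp only [ne_eq, OfNat.ofNat_ne_zero, not_false_eq_true, zero_pow, ENNReal.ofReal_zero, zero_add]
    refine (lintegral_mono fun w => ?_).trans hn
    unfold A
    exact Finset.sum_le_sum fun k _ => V_cen_le (qM τ q ω) (hV _)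
  have h4 : ∀ w : ℕ → Vd d, ENNReal.ofReal |S (cen (qM τ q ω) (fx τ R ω)) m w / √n| ≤
      ENNReal.ofReal (e / 2) + ENNReal.ofReal (1 / (2 * e * n)) *
        ENNReal.ofReal ((0 + S (cen (qM τ q ω) (fx τ R ω)) m w) ^ 2) := by
    intro w
    rw [← ENNReal.ofReal_mul (by positivity), ← ENNReal.ofReal_add (by positivity) (by positivity)]
    refine ENNReal.ofReal_le_ofReal ?_
    rw [zero_add]
    set s := S (cen (qM τ q ω) (fx τ R ω)) m w with hs
    have h5 : (|s / √n|) ^ 2 = s ^ 2 / n := by rw [sq_abs, div_pow, Real.sq_sqrt hnpos.le]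
    have h6 : 1 / (2 * e * n) * s ^ 2 = (|s / √n|) ^ 2 / (2 * e) := by
      rw [h5]; field_simp
    rw [h6]
    have h7 : 0 ≤ (|s / √n| - e) ^ 2 := sq_nonneg _
    have h8 : |s / √n| = (2 * e * |s / √n|) / (2 * e) := by field_simp
    have h9 : e / 2 = e ^ 2 / (2 * e) := by field_simp
    rw [h9, ← add_div, h8]
    refine div_le_div_of_nonneg_right ?_ (by positivity)
    rw [← h8]
    nlinarith
  refine (lintegral_mono h4).trans ?_
  rw [lintegral_add_left measurable_const, lintegral_const, measure_univ, mul_one,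
    lintegral_const_mul' _ _ ENNReal.ofReal_ne_top]
  refine (add_le_add le_rfl (mul_le_mul' le_rfl h3)).trans ?_
  rw [← ENNReal.ofReal_mul (by positivity), ← ENNReal.ofReal_add (by positivity) (by positivity)]
  refine ENNReal.ofReal_le_ofReal (le_of_eq ?_)
  field_simp
  ring

theorem exp_diff {W : Type*} [MeasurableSpace W] {ν : Measure W} [IsProbabilityMeasure ν]
    {X Y : W → ℝ} (hX : Measurable X) (hY : Measurable Y) {e : ℝ} (he0 : 0 ≤ e)
    (he : ∫⁻ w, ENNReal.ofReal |X w - Y w| ∂ν ≤ ENNReal.ofReal e) :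
    ‖∫ w, Complex.exp ((X w : ℂ) * Complex.I) ∂ν - ∫ w, Complex.exp ((Y w : ℂ) * Complex.I) ∂ν‖ ≤
      e := by
  have hi : ∀ Z : W → ℝ, Measurable Z → Integrable (fun w => Complex.exp ((Z w : ℂ) * Complex.I)) ν :=
    fun Z hZ => Integrable.of_bound (by fun_prop) 1
      (Eventually.of_forall fun w => by rw [Complex.norm_exp_ofReal_mul_I])
  rw [← integral_sub (hi X hX) (hi Y hY)]
  refine (norm_integral_le_lintegral_norm _).trans (ENNReal.toReal_le_of_le_ofReal he0 ?_)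
  refine (lintegral_mono fun w => ENNReal.ofReal_le_ofReal ?_).trans he
  have e1 : Complex.exp ((X w : ℂ) * Complex.I) - Complex.exp ((Y w : ℂ) * Complex.I) =
      Complex.exp ((Y w : ℂ) * Complex.I) * (Complex.exp (Complex.I * ((X w - Y w : ℝ) : ℂ)) - 1) := by
    rw [mul_sub, mul_one, ← Complex.exp_add]
    congr 2
    push_cast
    ring
  rw [e1, norm_mul, Complex.norm_exp_ofReal_mul_I, one_mul]
  exact Real.norm_exp_I_mul_ofReal_sub_one_le

/-- centred truncation -/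
noncomputable def trc (τ : Vd d → Ω → Ω) (q : Ω → Vd d → ℝ≥0∞) (L : ℕ) (G : Ω → Vd d → ℝ)
    (ω : Ω) (y : Vd d) : ℝ := tru L (G ω y) - ∫ y', tru L (G ω y') ∂(qM τ q ω 0)

/-- the rest of the truncation -/
noncomputable def trr (L : ℕ) (G : Ω → Vd d → ℝ) (ω : Ω) (y : Vd d) : ℝ := G ω y - tru L (G ω y)

theorem trc_bdd (hq : Ker τ q) (L : ℕ) (G : Ω → Vd d → ℝ) (ω : Ω) (y : Vd d) :
    |trc τ q L G ω y| ≤ 2 * L := by
  haveI := qM_prob hq ω 0
  have h1 := norm_integral_le_of_norm_le_const (μ := qM τ q ω 0) (f := fun y => tru L (G ω y))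
    (C := (L : ℝ)) (Eventually.of_forall fun y => abs_tru_le (Nat.cast_nonneg L) _)
  have h2 : |∫ y', tru L (G ω y') ∂(qM τ q ω 0)| ≤ L := by simpa using h1
  have h3 := abs_tru_le (Nat.cast_nonneg L) (G ω y)
  unfold trc
  exact (abs_sub _ _).trans (by linarith)

theorem trc_mean (hq : Ker τ q) (L : ℕ) (G : Ω → Vd d → ℝ) (ω : Ω) :
    ∫ y, trc τ q L G ω y ∂(qM τ q ω 0) = 0 := by
  haveI := qM_prob hq ω 0
  unfold trc
  rw [integral_sub _ (integrable_const _), integral_const]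
  · simp
  · exact Integrable.of_bound (measurable_of_countable _).aestronglyMeasurable L
      (Eventually.of_forall fun y => abs_tru_le (Nat.cast_nonneg L) _)

theorem tru_rest {L : ℝ} (hL : 0 ≤ L) (x : ℝ) : |x - tru L x| ≤ |x| := by
  unfold tru
  rcases le_total x L with h1 | h1
  · rw [min_eq_right h1]
    rcases le_total (-L) x with h2 | h2
    · rw [max_eq_right h2, sub_self, abs_zero]; exact abs_nonneg _
    · rw [max_eq_left h2, abs_of_nonpos (by linarith), abs_of_nonpos (by linarith)]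
      linarith
  · rw [min_eq_left h1, max_eq_right (by linarith), abs_of_nonneg (by linarith),
      abs_of_nonneg (by linarith)]
    linarith

/-- the martingale increments split into the centred truncation and the centred rest -/
theorem fx_split (h : Sta μ τ) (hq : Ker τ q) {G : Ω → Vd d → ℝ} {ω : Ω} {x : Vd d}
    (hV : VR q G (τ x ω) ≠ ∞) (h0 : ∫ y, G (τ x ω) y ∂(qM τ q (τ x ω) 0) = 0) (L : ℕ) (y : Vd d) :
    fx τ G ω x y = fx τ (trc τ q L G) ω x y + cen (qM τ q ω) (fx τ (trr L G) ω) x y := by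
  haveI := qM_prob hq ω
  haveI := qM_prob hq (τ x ω)
  unfold fx trc cen bm trr
  rw [integral_qM h ω x]
  simp only [add_sub_cancel_left]
  have hL2 : MemLp (fun y => G (τ x ω) y) 2 (qM τ q (τ x ω) 0) := by
    have h3 : V (qM τ q (τ x ω)) (fx τ G (τ x ω)) 0 ≠ ∞ := by rw [V_fx, h.zero]; exact hV
    have h4 := memLp_of_V _ h3
    unfold fx at h4
    simpa [h.zero] using h4
  have hi := hL2.integrable (by norm_num)
  have hi2 : Integrable (fun y => tru L (G (τ x ω) y)) (qM τ q (τ x ω) 0) :=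
    Integrable.of_bound (measurable_of_countable _).aestronglyMeasurable L
      (Eventually.of_forall fun y => abs_tru_le (Nat.cast_nonneg L) _)
  rw [integral_sub hi hi2, h0]
  ring

variable [IsProbabilityMeasure μ]

theorem meas_unc {G : Ω → Vd d → ℝ} (hG : ∀ y, Measurable (fun ω => G ω y)) :
    Measurable (fun p : Ω × Vd d => G p.1 p.2) :=
  measurable_from_prod_countable_left hG

theorem trc_meas (h : Sta μ τ) (hq : Ker τ q) {G : Ω → Vd d → ℝ}
    (hG : ∀ y, Measurable (fun ω => G ω y)) (L : ℕ) (y : Vd d) :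
    Measurable (fun ω => trc τ q L G ω y) := by
  have h1 : StronglyMeasurable (fun p : Ω × Vd d => tru L (G p.1 p.2)) :=
    ((measurable_tru L).comp (meas_unc hG)).stronglyMeasurable
  have h2 := h1.integral_kernel_prod_right' (κ := kap h hq)
  exact ((measurable_tru L).comp (hG y)).sub h2.measurable

theorem trr_meas {G : Ω → Vd d → ℝ} (hG : ∀ y, Measurable (fun ω => G ω y)) (L : ℕ) (y : Vd d) :
    Measurable (fun ω => trr L G ω y) :=
  (hG y).sub ((measurable_tru L).comp (hG y))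

theorem VR_trr_tendsto (h : Sta μ τ) (hq : Ker τ q) {G : Ω → Vd d → ℝ}
    (hG : ∀ y, Measurable (fun ω => G ω y)) (hfin : ∫⁻ ω, VR q G ω ∂μ ≠ ∞) :
    Tendsto (fun L : ℕ => ∫⁻ ω, VR q (trr L G) ω ∂μ) atTop (𝓝 0) := by
  have hGm := meas_unc hG
  have e1 : ∀ L : ℕ, ∫⁻ ω, VR q (trr L G) ω ∂μ =
      ∫⁻ p, ENNReal.ofReal ((trr L G p.1 p.2) ^ 2) ∂(nu h hq) := fun L =>
    lintegral_VR h hq (F := fun p => trr L G p.1 p.2) (meas_unc (trr_meas hG L))
  simp_rw [e1]
  have e2 : ∫⁻ ω, VR q G ω ∂μ = ∫⁻ p, ENNReal.ofReal ((G p.1 p.2) ^ 2) ∂(nu h hq) :=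
    lintegral_VR h hq (F := fun p => G p.1 p.2) hGm
  rw [e2] at hfin
  have h3 := tendsto_lintegral_of_dominated_convergence (μ := nu h hq)
    (F := fun (L : ℕ) p => ENNReal.ofReal ((trr L G p.1 p.2) ^ 2)) (f := fun _ => 0)
    (fun p => ENNReal.ofReal ((G p.1 p.2) ^ 2))
    (fun L => (((meas_unc (trr_meas hG L)).pow_const 2).ennreal_ofReal))
    (fun L => Eventually.of_forall fun p => ENNReal.ofReal_le_ofReal ?_) hfin
    (Eventually.of_forall fun p => ?_)
  · simpa using h3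
  · exact sq_le_sq.2 (tru_rest (Nat.cast_nonneg L) (G p.1 p.2))
  · have h4 : Tendsto (fun L : ℕ => ENNReal.ofReal ((trr L G p.1 p.2) ^ 2)) atTop
        (𝓝 (ENNReal.ofReal ((G p.1 p.2 - G p.1 p.2) ^ 2))) := by
      refine ENNReal.tendsto_ofReal (Tendsto.pow ?_ 2)
      exact (tendsto_tru (G p.1 p.2)).const_sub _
    simpa using h4

/-- the covariance -/
noncomputable def cov (μ : Measure Ω) (τ : Vd d → Ω → Ω) (q : Ω → Vd d → ℝ≥0∞) (O : Set Ω)
    (G G' : Ω → Vd d → ℝ) : ℝ :=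
  (∫ ω in O, ∫ y, G ω y * G' ω y ∂(qM τ q ω 0) ∂μ) / μ.real O

theorem cov_tendsto (h : Sta μ τ) (hq : Ker τ q) {O : Set Ω} (hO : MeasurableSet O)
    {G G' : Ω → Vd d → ℝ}
    (hG : ∀ y, Measurable (fun ω => G ω y)) (hfin : ∫⁻ ω, VR q G ω ∂μ ≠ ∞)
    (h0 : ∀ᵐ ω ∂μ, ∫ y, G ω y ∂(qM τ q ω 0) = 0)
    (hG' : ∀ y, Measurable (fun ω => G' ω y)) (hfin' : ∫⁻ ω, VR q G' ω ∂μ ≠ ∞)
    (h0' : ∀ᵐ ω ∂μ, ∫ y, G' ω y ∂(qM τ q ω 0) = 0) :
    Tendsto (fun L : ℕ => cov μ τ q O (trc τ q L G) (trc τ q L G')) atTop (𝓝 (cov μ τ q O G G')) := by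
  set ν' := (nu h hq).restrict (O ×ˢ univ) with hν'
  have hm2 : ∀ {F : Ω → Vd d → ℝ}, (∀ y, Measurable (fun ω => F ω y)) → ∫⁻ ω, VR q F ω ∂μ ≠ ∞ →
      MemLp (fun p : Ω × Vd d => F p.1 p.2) 2 (nu h hq) := by
    intro F hF hf
    rw [memLp_iff h hq (meas_unc hF), ← lintegral_VR h hq (F := fun p => F p.1 p.2) (meas_unc hF)]
    exact hf
  have hmc : ∀ {F : Ω → Vd d → ℝ}, (∀ y, Measurable (fun ω => F ω y)) → ∀ L : ℕ,
      MemLp (fun p : Ω × Vd d => trc τ q L F p.1 p.2) 2 (nu h hq) := fun hF L =>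
    MemLp.of_bound (meas_unc (trc_meas h hq hF L)).aestronglyMeasurable (2 * L)
      (Eventually.of_forall fun p => trc_bdd hq L _ _ _)
  have key : ∀ {F F' : Ω → Vd d → ℝ} (hF : MemLp (fun p : Ω × Vd d => F p.1 p.2) 2 (nu h hq))
      (hF' : MemLp (fun p : Ω × Vd d => F' p.1 p.2) 2 (nu h hq)),
      cov μ τ q O F F' = (inner ℝ ((hF.restrict (O ×ˢ univ)).toLp _)
        ((hF'.restrict (O ×ˢ univ)).toLp _)) / μ.real O := by
    intro F F' hF hF'
    unfold cov
    congr 1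
    rw [L2.inner_def]
    have e1 : ∫ p, inner ℝ ((hF.restrict (O ×ˢ univ)).toLp (fun p : Ω × Vd d => F p.1 p.2) p)
        ((hF'.restrict (O ×ˢ univ)).toLp (fun p : Ω × Vd d => F' p.1 p.2) p)
        ∂(nu h hq).restrict (O ×ˢ univ) =
        ∫ p in O ×ˢ univ, F p.1 p.2 * F' p.1 p.2 ∂(nu h hq) := by
      refine integral_congr_ae ?_
      filter_upwards [(hF.restrict (O ×ˢ univ)).coeFn_toLp, (hF'.restrict (O ×ˢ univ)).coeFn_toLp]
        with p h1 h2
      rw [h1, h2]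
      simp [mul_comm]
    rw [e1]
    unfold nu
    have hint : IntegrableOn (fun p : Ω × Vd d => F p.1 p.2 * F' p.1 p.2) (O ×ˢ univ)
        (μ ⊗ₘ (kap h hq)) := (hF.integrable_mul hF').integrableOn
    rw [Measure.setIntegral_compProd hO MeasurableSet.univ hint]
    simp only [Measure.restrict_univ, kap_apply]
  have hconv : ∀ {F : Ω → Vd d → ℝ} (hF : ∀ y, Measurable (fun ω => F ω y))
      (hf : ∫⁻ ω, VR q F ω ∂μ ≠ ∞) (h0 : ∀ᵐ ω ∂μ, ∫ y, F ω y ∂(qM τ q ω 0) = 0),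
      Tendsto (fun L : ℕ => ((hmc hF L).restrict (O ×ˢ univ)).toLp
        (fun p : Ω × Vd d => trc τ q L F p.1 p.2)) atTop
        (𝓝 (((hm2 hF hf).restrict (O ×ˢ univ)).toLp (fun p : Ω × Vd d => F p.1 p.2))) := by
    intro F hF hf h0
    rw [Lp.tendsto_Lp_iff_tendsto_eLpNorm'']
    have h1 : ∀ L : ℕ, eLpNorm ((fun p : Ω × Vd d => trc τ q L F p.1 p.2) -
        fun p : Ω × Vd d => F p.1 p.2) 2 ((nu h hq).restrict (O ×ˢ univ)) ^ 2 ≤
        ∫⁻ ω, VR q (trr L F) ω ∂μ := by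
      intro L
      have h2 : eLpNorm ((fun p : Ω × Vd d => trc τ q L F p.1 p.2) -
        fun p : Ω × Vd d => F p.1 p.2) 2 ((nu h hq).restrict (O ×ˢ univ)) ≤
        eLpNorm ((fun p : Ω × Vd d => trc τ q L F p.1 p.2) -
        fun p : Ω × Vd d => F p.1 p.2) 2 (nu h hq) := eLpNorm_mono_measure _ Measure.restrict_le_self
      refine (pow_le_pow_left₀ zero_le h2 2).trans ?_
      rw [← sq_eLpNorm h hq]
      have h3 : Measurable ((fun p : Ω × Vd d => trc τ q L F p.1 p.2) -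
        fun p : Ω × Vd d => F p.1 p.2) := (meas_unc (trc_meas h hq hF L)).sub (meas_unc hF)
      rw [← lintegral_VR h hq h3]
      refine lintegral_mono_ae ?_
      have hfin : ∀ᵐ ω ∂μ, VR q F ω < ∞ := ae_lt_top (VR_meas hq hF) hf
      filter_upwards [h0, hfin] with ω h4 h5
      have h6 : VR q (fun ω y => ((fun p : Ω × Vd d => trc τ q L F p.1 p.2) -
        fun p : Ω × Vd d => F p.1 p.2) (ω, y)) ω = V (qM τ q ω) (cen (qM τ q ω) (fx τ (trr L F) ω)) 0 := by
        unfold VR V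
        rw [lintegral_qM_zero h]
        refine tsum_congr fun y => ?_
        congr 2
        have h7 := fx_split h hq (G := F) (ω := ω) (x := 0) (by rw [h.zero]; exact h5.ne)
          (by rw [h.zero]; exact h4) L y
        have h8 : cen (qM τ q ω) (fx τ (trr L F) ω) 0 y = fx τ F ω 0 y - fx τ (trc τ q L F) ω 0 y := by
          rw [h7]; ring
        rw [h8]
        unfold fx
        simp only [h.zero, sub_zero, Pi.sub_apply]
        ring
      rw [h6]
      haveI := qM_prob hq ω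
      have h9 : V (qM τ q ω) (fx τ (trr L F) ω) 0 = VR q (trr L F) ω := by rw [V_fx, h.zero]
      rw [← h9]
      refine V_cen_le _ ?_
      rw [h9]
      refine ne_top_of_le_ne_top h5.ne (ENNReal.tsum_le_tsum fun y => mul_le_mul' le_rfl
        (ENNReal.ofReal_le_ofReal (sq_le_sq.2 (tru_rest (Nat.cast_nonneg L) _))))
    have h2 := tendsto_of_tendsto_of_tendsto_of_le_of_le tendsto_const_nhds
      (VR_trr_tendsto h hq hF hf) (fun L => zero_le) h1
    have h3 : Tendsto (fun L : ℕ => (eLpNorm ((fun p : Ω × Vd d => trc τ q L F p.1 p.2) -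
        fun p : Ω × Vd d => F p.1 p.2) 2 ((nu h hq).restrict (O ×ˢ univ)) ^ 2) ^ (1 / 2 : ℝ))
        atTop (𝓝 (0 ^ (1 / 2 : ℝ))) := (ENNReal.continuous_rpow_const.tendsto 0).comp h2
    rw [ENNReal.zero_rpow_of_pos (by norm_num)] at h3
    refine h3.congr fun L => ?_
    rw [← ENNReal.rpow_natCast, ← ENNReal.rpow_mul]
    norm_num
  have h1 : ∀ L : ℕ, cov μ τ q O (trc τ q L G) (trc τ q L G') = _ := fun L =>
    key (hmc hG L) (hmc hG' L)
  simp_rw [h1]
  rw [key (hm2 hG hfin) (hm2 hG' hfin')]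
  exact ((hconv hG hfin h0).inner (hconv hG' hfin' h0')).div_const _

end Pool.Agent.H979.QIP
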