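import Pool.Agent.H979.QIP.Fdd2

set_option autoImplicit false
set_option linter.unusedSectionVars false
set_option linter.deprecated false
set_option linter.unusedVariables false
set_option linter.style.haveILetI false

open MeasureTheory ProbabilityTheory Filter Topology Set
open scoped ENNReal NNReal InnerProductSpace

/-!
# Finite dimensional distributions of the martingale: the general case
-/

namespace Pool.Agent.H979.QIP

variable {Ω : Type*} [MeasurableSpace Ω] {d : ℕ} {μ : Measure Ω} {τ : Vd d → Ω → Ω}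
  {q : Ω → Vd d → ℝ≥0∞}

/-- the averaging properties of an environment which are used in the sequel -/
structure Fine (τ : Vd d → Ω → Ω) (q : Ω → Vd d → ℝ≥0∞) (hq : Ker τ q) (ω : Ω)
    (G : Fin d → Ω → Vd d → ℝ) (c : Fin d → Fin d → ℝ) (cL : ℕ → Fin d → Fin d → ℝ)
    (ρ : ℕ → Fin d → ℝ) : Prop where
  fin : ∀ a x, VR q (G a) (τ x ω) ≠ ∞
  mean : ∀ a x, ∫ y, G a (τ x ω) y ∂(qM τ q (τ x ω) 0) = 0
  qc : ∀ L a b, QA τ q hq ω (fun ω => ∫ y, trc τ q L (G a) ω y * trc τ q L (G b) ω y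
    ∂(qM τ q ω 0)) (cL L a b)
  qr : ∀ L a, QA τ q hq ω (fun ω => (VR q (trr L (G a)) ω).toReal) (ρ L a)
  lc : ∀ a b, Tendsto (fun L => cL L a b) atTop (𝓝 (c a b))
  lr : ∀ a, Tendsto (fun L => ρ L a) atTop (𝓝 0)

theorem VR_trr_le (L : ℕ) (G : Ω → Vd d → ℝ) (ω : Ω) : VR q (trr L G) ω ≤ VR q G ω :=
  ENNReal.tsum_le_tsum fun y => mul_le_mul' le_rfl
    (ENNReal.ofReal_le_ofReal (sq_le_sq.2 (tru_rest (Nat.cast_nonneg L) _)))

theorem Fine.finr {hq : Ker τ q} {ω : Ω} {G : Fin d → Ω → Vd d → ℝ} {c : Fin d → Fin d → ℝ}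
    {cL : ℕ → Fin d → Fin d → ℝ} {ρ : ℕ → Fin d → ℝ} (hF : Fine τ q hq ω G c cL ρ) (L : ℕ)
    (a : Fin d) (x : Vd d) : VR q (trr L (G a)) (τ x ω) ≠ ∞ :=
  ne_top_of_le_ne_top (hF.fin a x) (VR_trr_le L _ _)

theorem Fine.split (h : Sta μ τ) {hq : Ker τ q} {ω : Ω} {G : Fin d → Ω → Vd d → ℝ}
    {c : Fin d → Fin d → ℝ} {cL : ℕ → Fin d → Fin d → ℝ} {ρ : ℕ → Fin d → ℝ}
    (hF : Fine τ q hq ω G c cL ρ) (L : ℕ) (a : Fin d) (k : ℕ) (w : ℕ → Vd d) :
    S (fx τ (G a) ω) k w = S (fx τ (trc τ q L (G a)) ω) k w +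
      S (cen (qM τ q ω) (fx τ (trr L (G a)) ω)) k w := by
  unfold S
  rw [← Finset.sum_add_distrib]
  exact Finset.sum_congr rfl fun j _ => fx_split h hq (hF.fin a _) (hF.mean a _) L _

theorem Fine.fdd (h : Sta μ τ) {hq : Ker τ q} {ω : Ω} {G : Fin d → Ω → Vd d → ℝ}
    {c : Fin d → Fin d → ℝ} {cL : ℕ → Fin d → Fin d → ℝ} {ρ : ℕ → Fin d → ℝ}
    (hF : Fine τ q hq ω G c cL ρ) : FDD τ q hq ω G c := by
  haveI := qM_prob hq ω
  intro k t u ht
  rw [Metric.tendsto_atTop]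
  intro ε hε
  -- the approximation of the limits
  set U : ℝ := ∑ j, ∑ a, |u j a| with hU
  have hU0 : 0 ≤ U := Finset.sum_nonneg fun _ _ => Finset.sum_nonneg fun _ _ => abs_nonneg _
  set e : ℝ := ε / (4 * (U + 1)) with he
  have he0 : 0 < e := by positivity
  have hl1 : Tendsto (fun L : ℕ => ((Real.exp (-((∑ j, ∑ l, min (t j) (t l) *
      ∑ a, ∑ b, u j a * cL L a b * u l b) / 2)) : ℝ) : ℂ)) atTop
      (𝓝 ((Real.exp (-((∑ j, ∑ l, min (t j) (t l) *
      ∑ a, ∑ b, u j a * c a b * u l b) / 2)) : ℝ) : ℂ)) := by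
    refine (Complex.continuous_ofReal.tendsto _).comp ((Real.continuous_exp.tendsto _).comp
      ((Tendsto.div_const ?_ 2).neg))
    refine tendsto_finsetSum _ fun j _ => tendsto_finsetSum _ fun l _ => Tendsto.const_mul _ ?_
    refine tendsto_finsetSum _ fun a _ => tendsto_finsetSum _ fun b _ => ?_
    exact ((hF.lc a b).const_mul _).mul_const _
  have hl2 : ∀ᶠ L : ℕ in atTop, ∀ j : Fin k, ∀ a : Fin d, t j * ρ L a < e ^ 2 := by
    rw [eventually_all]
    intro j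
    rw [eventually_all]
    intro a
    have : Tendsto (fun L => t j * ρ L a) atTop (𝓝 (t j * 0)) := (hF.lr a).const_mul _
    rw [mul_zero] at this
    exact (tendsto_order.1 this).2 _ (by positivity)
  rw [Metric.tendsto_atTop] at hl1
  obtain ⟨L1, hL1⟩ := hl1 (ε / 4) (by positivity)
  obtain ⟨L, hLa, hLb⟩ := ((eventually_ge_atTop L1).and hl2).exists
  have hL1' := hL1 L hLa
  -- the bounded approximation
  have hb := fdd_bdd h hq (ω := ω) (ξ := fun a => trc τ q L (G a)) (M := 2 * L)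
    (fun a ω y => trc_bdd hq L (G a) ω y) (fun a ω => trc_mean hq L (G a) ω) (fun a b => hF.qc L a b)
    k t u ht
  rw [Metric.tendsto_atTop] at hb
  obtain ⟨n1, hn1⟩ := hb (ε / 4) (by positivity)
  have hs : ∀ᶠ n : ℕ in atTop, ∀ j : Fin k, ∀ a : Fin d,
      ∫⁻ w, ENNReal.ofReal |S (cen (qM τ q ω) (fx τ (trr L (G a)) ω)) ⌊t j * n⌋₊ w / √n|
      ∂(P (qM τ q ω) 0) ≤ ENNReal.ofReal e := by
    rw [eventually_all]
    intro j
    rw [eventually_all]
    intro a
    exact small_S h hq (fun x => hF.finr L a x) (hF.qr L a) (ht j) he0 (hLb j a)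
  obtain ⟨n2, hn2⟩ := eventually_atTop.1 hs
  refine ⟨max n1 n2, fun n hn => ?_⟩
  have hn1' := hn1 n ((le_max_left _ _).trans hn)
  have hn2' := hn2 n ((le_max_right _ _).trans hn)
  rw [dist_eq_norm] at hL1' hn1' ⊢
  set X : (ℕ → Vd d) → ℝ := fun w => ∑ j, ∑ a, u j a * (S (fx τ (G a) ω) ⌊t j * n⌋₊ w / √n) with hX
  set Y : (ℕ → Vd d) → ℝ := fun w =>
    ∑ j, ∑ a, u j a * (S (fx τ (trc τ q L (G a)) ω) ⌊t j * n⌋₊ w / √n) with hY
  have mS : ∀ (ξ : Vd d → Vd d → ℝ) (k : ℕ), Measurable (S ξ k) := fun ξ k =>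
    (dep_S ξ (le_refl k)).measurable
  have hXm : Measurable X := Finset.measurable_sum _ fun j _ => Finset.measurable_sum _ fun a _ =>
    ((mS _ _).div_const _).const_mul _
  have hYm : Measurable Y := Finset.measurable_sum _ fun j _ => Finset.measurable_sum _ fun a _ =>
    ((mS _ _).div_const _).const_mul _
  have hXY : ∫⁻ w, ENNReal.ofReal |X w - Y w| ∂(P (qM τ q ω) 0) ≤ ENNReal.ofReal (ε / 4) := by
    have h1 : ∀ w, ENNReal.ofReal |X w - Y w| ≤ ∑ j, ∑ a, ENNReal.ofReal |u j a| *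
        ENNReal.ofReal |S (cen (qM τ q ω) (fx τ (trr L (G a)) ω)) ⌊t j * n⌋₊ w / √n| := by
      intro w
      have e1 : X w - Y w = ∑ j, ∑ a, u j a *
          (S (cen (qM τ q ω) (fx τ (trr L (G a)) ω)) ⌊t j * n⌋₊ w / √n) := by
        simp only [hX, hY]
        rw [← Finset.sum_sub_distrib]
        refine Finset.sum_congr rfl fun j _ => ?_
        rw [← Finset.sum_sub_distrib]
        refine Finset.sum_congr rfl fun a _ => ?_
        rw [hF.split h L a]
        ring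
      have hsum : ∀ {ι : Type} (s : Finset ι) (f : ι → ℝ), ENNReal.ofReal |∑ i ∈ s, f i| ≤
          ∑ i ∈ s, ENNReal.ofReal |f i| := by
        intro ι s f
        rw [← ENNReal.ofReal_sum_of_nonneg fun _ _ => abs_nonneg _]
        exact ENNReal.ofReal_le_ofReal (Finset.abs_sum_le_sum_abs _ _)
      rw [e1]
      refine (hsum _ _).trans (Finset.sum_le_sum fun j _ => ?_)
      refine (hsum _ _).trans (Finset.sum_le_sum fun a _ => ?_)
      rw [abs_mul, ENNReal.ofReal_mul (abs_nonneg _)]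
    refine (lintegral_mono h1).trans ?_
    have mm : ∀ (j : Fin k) (a : Fin d), Measurable (fun w : ℕ → Vd d => ENNReal.ofReal |u j a| *
        ENNReal.ofReal |S (cen (qM τ q ω) (fx τ (trr L (G a)) ω)) ⌊t j * n⌋₊ w / √n|) := fun j a =>
      ((((mS _ _).div_const _).abs).ennreal_ofReal).const_mul _
    rw [lintegral_finsetSum _ fun j _ => Finset.measurable_sum _ fun a _ => mm j a]
    have h2 : ∀ j : Fin k, ∫⁻ w, ∑ a, ENNReal.ofReal |u j a| *
        ENNReal.ofReal |S (cen (qM τ q ω) (fx τ (trr L (G a)) ω)) ⌊t j * n⌋₊ w / √n|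
        ∂(P (qM τ q ω) 0) ≤ ∑ a, ENNReal.ofReal (|u j a| * e) := by
      intro j
      rw [lintegral_finsetSum _ fun a _ => mm j a]
      refine Finset.sum_le_sum fun a _ => ?_
      rw [lintegral_const_mul' _ _ ENNReal.ofReal_ne_top, ENNReal.ofReal_mul (abs_nonneg _)]
      exact mul_le_mul' le_rfl (hn2' j a)
    refine (Finset.sum_le_sum fun j _ => h2 j).trans ?_
    simp_rw [← ENNReal.ofReal_sum_of_nonneg fun (a : Fin d) (_ : a ∈ Finset.univ) =>
      mul_nonneg (abs_nonneg (u _ a)) he0.le]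
    rw [← ENNReal.ofReal_sum_of_nonneg fun j _ => Finset.sum_nonneg fun a _ =>
      mul_nonneg (abs_nonneg _) he0.le]
    refine ENNReal.ofReal_le_ofReal ?_
    simp_rw [← Finset.sum_mul]
    rw [← hU, he, mul_div_assoc', div_le_div_iff₀ (by positivity) (by norm_num)]
    nlinarith
  have h3 := exp_diff hXm hYm (by positivity) hXY
  calc _ = ‖(∫ w, Complex.exp ((X w : ℂ) * Complex.I) ∂(P (qM τ q ω) 0) -
        ∫ w, Complex.exp ((Y w : ℂ) * Complex.I) ∂(P (qM τ q ω) 0)) +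
        (∫ w, Complex.exp ((Y w : ℂ) * Complex.I) ∂(P (qM τ q ω) 0) -
        ((Real.exp (-((∑ j, ∑ l, min (t j) (t l) *
      ∑ a, ∑ b, u j a * cL L a b * u l b) / 2)) : ℝ) : ℂ)) +
        (((Real.exp (-((∑ j, ∑ l, min (t j) (t l) *
      ∑ a, ∑ b, u j a * cL L a b * u l b) / 2)) : ℝ) : ℂ) -
      ((Real.exp (-((∑ j, ∑ l, min (t j) (t l) *
      ∑ a, ∑ b, u j a * c a b * u l b) / 2)) : ℝ) : ℂ))‖ := by
        congr 1; ring
    _ ≤ _ := norm_add₃_le
    _ < ε := by linarith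

variable [IsProbabilityMeasure μ]

theorem ae_fine (h : Sta μ τ) (hq : Ker τ q) {O : Set Ω} (hO : ErgO μ τ q O)
    {G : Fin d → Ω → Vd d → ℝ} (hG : ∀ a y, Measurable (fun ω => G a ω y))
    (hfin : ∀ a, ∫⁻ ω, VR q (G a) ω ∂μ ≠ ∞)
    (h0 : ∀ a, ∀ᵐ ω ∂μ, ∫ y, G a ω y ∂(qM τ q ω 0) = 0) :
    ∃ (cL : ℕ → Fin d → Fin d → ℝ) (ρ : ℕ → Fin d → ℝ), ∀ᵐ ω ∂μ, ω ∈ O →
      Fine τ q hq ω G (fun a b => cov μ τ q O (G a) (G b)) cL ρ := by
  refine ⟨fun L a b => cov μ τ q O (trc τ q L (G a)) (trc τ q L (G b)),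
    fun L a => (∫ ω in O, (VR q (trr L (G a)) ω).toReal ∂μ) / μ.real O, ?_⟩
  have a1 : ∀ᵐ ω ∂μ, ∀ a x, VR q (G a) (τ x ω) ≠ ∞ := by
    rw [ae_all_iff]
    intro a
    refine ae_all (pr := fun ω => VR q (G a) ω ≠ ∞) h ?_
    filter_upwards [ae_lt_top (VR_meas hq (hG a)) (hfin a)] with ω hω
    exact hω.ne
  have a2 : ∀ᵐ ω ∂μ, ∀ a x, ∫ y, G a (τ x ω) y ∂(qM τ q (τ x ω) 0) = 0 := by
    rw [ae_all_iff]
    intro a
    exact ae_all (pr := fun ω => ∫ y, G a ω y ∂(qM τ q ω 0) = 0) h (h0 a)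
  have a3 : ∀ᵐ ω ∂μ, ∀ (L : ℕ) (a b : Fin d), ω ∈ O →
      QA τ q hq ω (fun ω => ∫ y, trc τ q L (G a) ω y * trc τ q L (G b) ω y
        ∂(qM τ q ω 0)) (cov μ τ q O (trc τ q L (G a)) (trc τ q L (G b))) := by
    rw [ae_all_iff]
    intro L
    rw [ae_all_iff]
    intro a
    rw [ae_all_iff]
    intro b
    have m1 : Measurable (fun ω => ∫ y, trc τ q L (G a) ω y * trc τ q L (G b) ω y
        ∂(qM τ q ω 0)) := by
      have h1 : StronglyMeasurable (fun p : Ω × Vd d => trc τ q L (G a) p.1 p.2 *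
          trc τ q L (G b) p.1 p.2) :=
        ((meas_unc (trc_meas h hq (hG a) L)).mul (meas_unc (trc_meas h hq (hG b) L))).stronglyMeasurable
      exact (h1.integral_kernel_prod_right' (κ := kap h hq)).measurable
    refine quenched_avg h hq hO m1 ?_
    refine Integrable.of_bound m1.aestronglyMeasurable (2 * L * (2 * L))
      (Eventually.of_forall fun ω => ?_)
    haveI := qM_prob hq ω 0
    have h1 := norm_integral_le_of_norm_le_const (μ := qM τ q ω 0)
      (f := fun y => trc τ q L (G a) ω y * trc τ q L (G b) ω y)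
      (C := (2 * L * (2 * L) : ℝ)) (Eventually.of_forall fun y => by
        rw [norm_mul]
        exact mul_le_mul (trc_bdd hq L _ _ _) (trc_bdd hq L _ _ _) (norm_nonneg _) (by positivity))
    simpa using h1
  have a4 : ∀ᵐ ω ∂μ, ∀ (L : ℕ) (a : Fin d), ω ∈ O →
      QA τ q hq ω (fun ω => (VR q (trr L (G a)) ω).toReal)
        ((∫ ω in O, (VR q (trr L (G a)) ω).toReal ∂μ) / μ.real O) := by
    rw [ae_all_iff]
    intro L
    rw [ae_all_iff]
    intro a
    refine quenched_avg h hq hO (VR_meas hq (trr_meas (hG a) L)).ennreal_toReal ?_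
    refine integrable_toReal_of_lintegral_ne_top (VR_meas hq (trr_meas (hG a) L)).aemeasurable ?_
    exact ne_top_of_le_ne_top (hfin a) (lintegral_mono fun ω => VR_trr_le L _ _)
  filter_upwards [a1, a2, a3, a4] with ω b1 b2 b3 b4 hω
  refine ⟨b1, b2, fun L a b => b3 L a b hω, fun L a => b4 L a hω, fun a b => ?_, fun a => ?_⟩
  · exact cov_tendsto h hq hO.meas (hG a) (hfin a) (h0 a) (hG b) (hfin b) (h0 b)
  · have h1 := VR_trr_tendsto h hq (hG a) (hfin a)
    have h2 := (ENNReal.tendsto_toReal ENNReal.zero_ne_top).comp h1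
    rw [ENNReal.toReal_zero] at h2
    have h3 := h2.div_const (μ.real O)
    rw [zero_div] at h3
    refine tendsto_of_tendsto_of_tendsto_of_le_of_le tendsto_const_nhds h3
      (fun L => div_nonneg (integral_nonneg fun ω => ENNReal.toReal_nonneg) measureReal_nonneg)
      fun L => ?_
    refine div_le_div_of_nonneg_right ?_ measureReal_nonneg
    have hm := VR_meas hq (trr_meas (hG a) L)
    have hf : ∫⁻ ω, VR q (trr L (G a)) ω ∂μ ≠ ∞ :=
      ne_top_of_le_ne_top (hfin a) (lintegral_mono fun ω => VR_trr_le L _ _)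
    have hint := integrable_toReal_of_lintegral_ne_top hm.aemeasurable hf
    refine (setIntegral_le_integral hint (Eventually.of_forall fun ω => ENNReal.toReal_nonneg)).trans ?_
    rw [integral_toReal hm.aemeasurable (ae_lt_top hm hf)]
    rfl

end Pool.Agent.H979.QIP
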