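import Mathlib

set_option autoImplicit false
set_option linter.unusedSectionVars false
set_option linter.deprecated false
set_option linter.unusedVariables false
set_option linter.style.haveILetI false

open MeasureTheory ProbabilityTheory Filter Topology Set
open scoped ENNReal NNReal

/-!
# Functional convergence from the finite dimensional laws and the modulus of continuity
-/

namespace Pool.Agent.H979.QIP

/-- truncation to the unit interval -/
noncomputable def clp (x : ℝ) : ℝ := max 0 (min 1 x)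

theorem continuous_clp : Continuous clp := continuous_const.max (continuous_const.min continuous_id)

theorem clp_one {x : ℝ} (h : 1 ≤ x) : clp x = 1 := by
  unfold clp; rw [min_eq_left h]; norm_num

theorem clp_zero {x : ℝ} (h : x ≤ 0) : clp x = 0 := by
  unfold clp
  rw [min_eq_right (by linarith), max_eq_left h]

theorem clp_mid {x : ℝ} (h : 0 ≤ x) (h1 : x ≤ 1) : clp x = x := by
  unfold clp
  rw [min_eq_right h1, max_eq_right h]

/-- piecewise linear interpolation -/
noncomputable def pl {E : Type*} [AddCommGroup E] [Module ℝ E] (f : ℕ → E) (m : ℕ) (x : ℝ) : E :=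
  f 0 + ∑ j ∈ Finset.range m, clp (x - j) • (f (j + 1) - f j)

theorem pl_eq {E : Type*} [AddCommGroup E] [Module ℝ E] (f : ℕ → E) {m : ℕ} {x : ℝ} (hx : 0 ≤ x)
    (hm : ⌊x⌋₊ < m) : pl f m x = f ⌊x⌋₊ + (x - ⌊x⌋₊) • (f (⌊x⌋₊ + 1) - f ⌊x⌋₊) := by
  set k := ⌊x⌋₊ with hk
  have h1 : (k : ℝ) ≤ x := Nat.floor_le hx
  have h2 : x < k + 1 := Nat.lt_floor_add_one x
  unfold pl
  rw [← Finset.sum_range_add_sum_Ico _ (show k + 1 ≤ m by omega), Finset.sum_range_succ]
  have e1 : ∑ j ∈ Finset.range k, clp (x - j) • (f (j + 1) - f j) = f k - f 0 := by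
    rw [← Finset.sum_range_sub]
    refine Finset.sum_congr rfl fun j hj => ?_
    have hj := Finset.mem_range.1 hj
    have : ((j + 1 : ℕ) : ℝ) ≤ k := by exact_mod_cast hj
    push_cast at this
    rw [clp_one (by linarith), one_smul]
  have e2 : ∑ j ∈ Finset.Ico (k + 1) m, clp (x - j) • (f (j + 1) - f j) = 0 := by
    refine Finset.sum_eq_zero fun j hj => ?_
    have hj := (Finset.mem_Ico.1 hj).1
    have : ((k + 1 : ℕ) : ℝ) ≤ j := by exact_mod_cast hj
    push_cast at this
    rw [clp_zero (by linarith), zero_smul]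
  rw [e1, e2, clp_mid (by linarith) (by linarith)]
  abel

section

variable {d : ℕ} {T : ℝ}

/-- the interpolation of finitely many values as a path -/
noncomputable def Ip (T : ℝ) (m : ℕ) (v : Fin (m + 2) → Fin d → ℝ) :
    C(Icc (0 : ℝ) T, Fin d → ℝ) where
  toFun t := pl (fun j => v (Fin.ofNat (m + 2) j)) (m + 1) (t.1 * m / T)
  continuous_toFun := by
    unfold pl
    refine continuous_const.add (continuous_finsetSum _ fun j _ => ?_)
    have h1 : Continuous (fun t : Icc (0 : ℝ) T => clp (t.1 * m / T - j)) :=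
      continuous_clp.comp (((continuous_subtype_val.mul continuous_const).div_const _).sub
        continuous_const)
    exact h1.smul continuous_const

theorem continuous_Ip (T : ℝ) (m : ℕ) : Continuous (Ip (d := d) T m) := by
  refine ContinuousMap.continuous_of_continuous_uncurry _ ?_
  show Continuous (fun p : (Fin (m + 2) → Fin d → ℝ) × Icc (0 : ℝ) T =>
    pl (fun j => p.1 (Fin.ofNat (m + 2) j)) (m + 1) (p.2.1 * m / T))
  unfold pl
  refine Continuous.add ((continuous_apply _).comp continuous_fst)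
    (continuous_finsetSum _ fun j _ => ?_)
  have h1 : Continuous (fun p : (Fin (m + 2) → Fin d → ℝ) × Icc (0 : ℝ) T =>
      clp (p.2.1 * m / T - j)) :=
    continuous_clp.comp ((((continuous_subtype_val.comp continuous_snd).mul
      continuous_const).div_const _).sub continuous_const)
  have h2 : Continuous (fun p : (Fin (m + 2) → Fin d → ℝ) × Icc (0 : ℝ) T =>
      p.1 (Fin.ofNat (m + 2) (j + 1)) - p.1 (Fin.ofNat (m + 2) j)) :=
    ((continuous_apply _).comp continuous_fst).sub ((continuous_apply _).comp continuous_fst)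
  exact h1.smul h2

/-- the grid -/
noncomputable def gr (T : ℝ) (m : ℕ) (j : ℕ) : ℝ := min T (j * T / m)

theorem gr_mem (hT : 0 < T) (m j : ℕ) : 0 ≤ gr T m j ∧ gr T m j ≤ T :=
  ⟨le_min hT.le (by positivity), min_le_left _ _⟩

/-- the error of the interpolation -/
theorem Ip_err (hT : 0 < T) {m : ℕ} (hm : 1 ≤ m) {f : ℝ → Fin d → ℝ} {ε δ : ℝ} (hε : 0 ≤ ε)
    (hδ : T / m ≤ δ)
    (hf : ∀ s t, 0 ≤ s → s ≤ T → 0 ≤ t → t ≤ T → |s - t| ≤ δ → ∀ i, |f s i - f t i| ≤ ε)
    (t : Icc (0 : ℝ) T) (i : Fin d) :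
    |f t.1 i - Ip T m (fun j => f (gr T m j)) t i| ≤ ε := by
  have hm0 : (0 : ℝ) < m := by exact_mod_cast hm
  have ht0 := t.2.1
  have htT := t.2.2
  set x := t.1 * m / T with hx
  have hx0 : 0 ≤ x := by positivity
  have hxm : x ≤ m := by
    rw [hx, div_le_iff₀ hT]
    nlinarith
  set k := ⌊x⌋₊ with hk
  have h1 : (k : ℝ) ≤ x := Nat.floor_le hx0
  have h2 : x < k + 1 := Nat.lt_floor_add_one x
  have hkm : k < m + 1 := by
    have : (k : ℝ) ≤ m := h1.trans hxm
    have : k ≤ m := by exact_mod_cast this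
    omega
  have e1 : Ip T m (fun j => f (gr T m j)) t = f (gr T m k) +
      (x - k) • (f (gr T m (k + 1)) - f (gr T m k)) := by
    show pl (fun j => f (gr T m (Fin.ofNat (m + 2) j))) (m + 1) x = _
    rw [pl_eq _ hx0 hkm]
    have a1 : ((Fin.ofNat (m + 2) k : Fin (m + 2)) : ℕ) = k := by
      rw [Fin.val_ofNat]; exact Nat.mod_eq_of_lt (by omega)
    have a2 : ((Fin.ofNat (m + 2) (k + 1) : Fin (m + 2)) : ℕ) = k + 1 := by
      rw [Fin.val_ofNat]; exact Nat.mod_eq_of_lt (by omega)
    simp only [← hk, a1, a2]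
  have htx : t.1 = x * T / m := by rw [hx]; field_simp
  have g0 : gr T m k = k * T / m := by
    unfold gr
    rw [min_eq_right]
    rw [div_le_iff₀ hm0]
    have : (k : ℝ) ≤ m := h1.trans hxm
    nlinarith
  have d0 : |t.1 - gr T m k| ≤ δ := by
    rw [g0, htx, ← sub_div, ← sub_mul, abs_of_nonneg (by
      have : 0 ≤ x - k := by linarith
      positivity)]
    refine le_trans ?_ hδ
    rw [div_le_div_iff_of_pos_right hm0]
    nlinarith
  have d1 : |t.1 - gr T m (k + 1)| ≤ δ := by
    have h3 : t.1 ≤ gr T m (k + 1) := by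
      refine le_min htT ?_
      rw [htx]
      push_cast
      rw [div_le_div_iff_of_pos_right hm0]
      nlinarith
    rw [abs_of_nonpos (by linarith)]
    have h4 : gr T m (k + 1) ≤ ((k : ℝ) + 1) * T / m := by
      refine (min_le_right _ _).trans (le_of_eq ?_)
      push_cast; ring
    have h5 : ((k : ℝ) + 1) * T / m - x * T / m ≤ δ := by
      rw [← sub_div, ← sub_mul]
      refine le_trans ?_ hδ
      rw [div_le_div_iff_of_pos_right hm0]
      nlinarith
    rw [htx] at h3 ⊢
    linarith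
  have b0 := hf _ _ ht0 htT (gr_mem hT m k).1 (gr_mem hT m k).2 d0 i
  have b1 := hf _ _ ht0 htT (gr_mem hT m (k + 1)).1 (gr_mem hT m (k + 1)).2 d1 i
  rw [e1]
  simp only [Pi.add_apply, Pi.smul_apply, Pi.sub_apply, smul_eq_mul]
  have e2 : f t.1 i - (f (gr T m k) i + (x - k) * (f (gr T m (k + 1)) i - f (gr T m k) i)) =
      (1 - (x - k)) * (f t.1 i - f (gr T m k) i) + (x - k) * (f t.1 i - f (gr T m (k + 1)) i) := by
    ring
  rw [e2]
  refine (abs_add_le _ _).trans ?_
  rw [abs_mul, abs_mul, abs_of_nonneg (show 0 ≤ 1 - (x - k) by linarith),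
    abs_of_nonneg (show 0 ≤ x - k by linarith)]
  nlinarith [show 0 ≤ x - (k : ℝ) by linarith, show 0 ≤ 1 - (x - (k : ℝ)) by linarith]

/-- a continuous function as a path -/
def toC (T : ℝ) (f : ℝ → Fin d → ℝ) (hf : Continuous f) : C(Icc (0 : ℝ) T, Fin d → ℝ) :=
  ⟨fun t => f t.1, hf.comp continuous_subtype_val⟩

theorem Ip_dist (hT : 0 < T) {m : ℕ} (hm : 1 ≤ m) {f : ℝ → Fin d → ℝ} (hc : Continuous f)
    {ε δ : ℝ} (hε : 0 ≤ ε) (hδ : T / m ≤ δ)
    (hf : ∀ s t, 0 ≤ s → s ≤ T → 0 ≤ t → t ≤ T → |s - t| ≤ δ → ∀ i, |f s i - f t i| ≤ ε) :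
    dist (toC T f hc) (Ip T m (fun j => f (gr T m j))) ≤ ε := by
  rw [ContinuousMap.dist_le hε]
  intro t
  rw [dist_pi_le_iff hε]
  intro i
  rw [Real.dist_eq]
  exact Ip_err hT hm hε hδ hf t i

theorem Ip_tendsto (hT : 0 < T) {f : ℝ → Fin d → ℝ} (hc : Continuous f) :
    Tendsto (fun m : ℕ => Ip T m (fun j => f (gr T m j))) atTop (𝓝 (toC T f hc)) := by
  rw [Metric.tendsto_atTop]
  intro ε hε
  have hu : UniformContinuousOn f (Icc 0 T) :=
    isCompact_Icc.uniformContinuousOn_of_continuous hc.continuousOn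
  rw [Metric.uniformContinuousOn_iff_le] at hu
  obtain ⟨δ, hδ, h1⟩ := hu (ε / 2) (by positivity)
  obtain ⟨N, hN⟩ := exists_nat_gt (T / δ)
  refine ⟨max N 1, fun m hm => ?_⟩
  have hm1 : 1 ≤ m := (le_max_right _ _).trans hm
  have hm0 : (0 : ℝ) < m := by exact_mod_cast hm1
  have hmN : (N : ℝ) ≤ m := by exact_mod_cast (le_max_left _ _).trans hm
  rw [dist_comm]
  refine lt_of_le_of_lt (Ip_dist hT hm1 hc (ε := ε / 2) (δ := δ) (by positivity) ?_ ?_)
    (by linarith)
  · rw [div_le_iff₀ hm0]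
    rw [div_lt_iff₀ hδ] at hN
    nlinarith
  · intro s t hs0 hsT ht0 htT hst i
    have h2 := h1 s ⟨hs0, hsT⟩ t ⟨ht0, htT⟩ (by rw [Real.dist_eq]; exact hst)
    have h3 := (dist_pi_le_iff (by positivity)).1 h2 i
    rwa [Real.dist_eq] at h3

end

end Pool.Agent.H979.QIP
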