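import Pool.Agent.H979.QIP.Run
import Pool.Agent.H979.QIP.Exit

set_option autoImplicit false
set_option linter.unusedSectionVars false
set_option linter.deprecated false
set_option linter.unusedVariables false
set_option linter.style.haveILetI false

open MeasureTheory ProbabilityTheory Filter Topology Set
open scoped ENNReal NNReal

/-!
# Moments of the runs
-/

namespace Pool.Agent.H979.QIP

variable {Ω : Type*} [MeasurableSpace Ω] {d : ℕ} {μ : Measure Ω} {τ : Vd d → Ω → Ω}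
  {c : Ω → Vd d → ℝ≥0∞}

/-- the size of a step -/
def sz (s : Vd d) : ℕ := 1 + ∑ i, (s i).natAbs

/-- the size of a run -/
def Tl (l : List (Vd d)) : ℕ := (l.map sz).sum

theorem Tl_nil : Tl ([] : List (Vd d)) = 0 := rfl
theorem Tl_cons (s : Vd d) (l : List (Vd d)) : Tl (s :: l) = sz s + Tl l := by simp [Tl]

theorem length_le_Tl (l : List (Vd d)) : l.length ≤ Tl l := by
  induction l with
  | nil => simp [Tl]
  | cons s l ih => rw [Tl_cons, List.length_cons]; unfold sz; omega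

theorem sum_le_Tl (l : List (Vd d)) (i : Fin d) : |l.sum i| ≤ Tl l := by
  induction l with
  | nil => simp [Tl]
  | cons s l ih =>
    rw [Tl_cons, List.sum_cons, Pi.add_apply]
    refine (abs_add_le _ _).trans ?_
    have h1 : (s i).natAbs ≤ ∑ i, (s i).natAbs :=
      Finset.single_le_sum (f := fun i => (s i).natAbs) (fun _ _ => Nat.zero_le _) (Finset.mem_univ i)
    have h2 : |s i| ≤ (sz s : ℤ) := by
      rw [Int.abs_eq_natAbs]
      unfold sz
      push_cast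
      have : ((s i).natAbs : ℤ) ≤ ((∑ i, (s i).natAbs : ℕ) : ℤ) := by exact_mod_cast h1
      push_cast at this
      linarith
    push_cast
    linarith

/-- the mean size of a step -/
noncomputable def bt (c : Ω → Vd d → ℝ≥0∞) (ω : Ω) : ℝ≥0∞ := ∑' s, c ω s * sz s

/-- the second moment of a step -/
noncomputable def Vt (c : Ω → Vd d → ℝ≥0∞) (ω : Ω) : ℝ≥0∞ := ∑' s, c ω s * (sz s : ℝ≥0∞) ^ 2

/-- expectation of a functional of the run -/
noncomputable def rf (τ : Vd d → Ω → Ω) (c : Ω → Vd d → ℝ≥0∞) (F : List (Vd d) → ℝ≥0∞) (ω : Ω) :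
    ℝ≥0∞ := ∑' l, kp τ c ω l * F l

theorem bt_meas (hc : Con τ c) : Measurable (bt c) :=
  Measurable.tsum fun y => (hc.meas y).mul_const _

theorem Vt_meas (hc : Con τ c) : Measurable (Vt c) :=
  Measurable.tsum fun y => (hc.meas y).mul_const _

theorem rf_meas (h : Sta μ τ) (hc : Con τ c) (F : List (Vd d) → ℝ≥0∞) : Measurable (rf τ c F) :=
  Measurable.tsum fun l => (kp_meas h hc l).mul_const _

/-- the comparison principle -/
theorem compar (h : Sta μ τ) (hc : RC τ c) {f : Ω → ℝ≥0∞} {u : ℕ → Ω → ℝ≥0∞}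
    (h0 : ∀ ω, u 0 ω = 0)
    (hs : ∀ n ω, u (n + 1) ω ≤ (1 + Dg c ω)⁻¹ * (f ω + ∑' s, c ω s * u n (τ s ω))) (n : ℕ) (ω : Ω) :
    u n ω ≤ Qo τ (qr τ c) f ω := by
  induction n generalizing ω with
  | zero => rw [h0]; exact zero_le
  | succ n ih =>
    refine (hs n ω).trans ?_
    have h1 : f ω + ∑' s, c ω s * u n (τ s ω) ≤ (1 + Dg c ω) * Qo τ (qr τ c) f ω := by
      rw [Qo_first h hc]
      exact add_le_add le_rfl (ENNReal.tsum_le_tsum fun s => mul_le_mul' le_rfl (ih _))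
    refine (mul_le_mul' le_rfl h1).trans (le_of_eq ?_)
    rw [← mul_assoc, mul_comm (1 + Dg c ω)⁻¹, mul_inv_one_add (hc.fin ω), one_mul]

theorem ite_mul_right' {p : Prop} [Decidable p] (a b : ℝ≥0∞) :
    (if p then a * b else 0) = (if p then a else 0) * b := by split_ifs <;> simp

theorem len_mass_le (n : ℕ) (ω : Ω) :
    ∑' l : List (Vd d), (if l.length < n then kp τ c ω l else 0) ≤ 1 := by
  refine (ENNReal.tsum_le_tsum fun l => ?_).trans (kp_total_le (τ := τ) (c := c) ω)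
  split_ifs
  · exact le_rfl
  · exact zero_le

theorem rf_T_len (h : Sta μ τ) (hc : RC τ c) (n : ℕ) (ω : Ω) :
    ∑' l : List (Vd d), (if l.length < n then kp τ c ω l * (Tl l : ℝ≥0∞) else 0) ≤
      Qo τ (qr τ c) (bt c) ω := by
  refine compar h hc (u := fun n ω => ∑' l : List (Vd d),
    (if l.length < n then kp τ c ω l * (Tl l : ℝ≥0∞) else 0)) (fun ω => by simp) (fun n ω => ?_) n ω
  rw [kp_first_len ω (fun l => (Tl l : ℝ≥0∞))]
  refine mul_le_mul' le_rfl ?_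
  rw [Tl_nil, Nat.cast_zero, zero_add]
  unfold bt
  rw [← ENNReal.tsum_add]
  refine ENNReal.tsum_le_tsum fun s => ?_
  rw [← mul_add]
  refine mul_le_mul' le_rfl ?_
  have e1 : ∀ l : List (Vd d), (if l.length < n then kp τ c (τ s ω) l * (Tl (s :: l) : ℝ≥0∞) else 0) =
      (if l.length < n then kp τ c (τ s ω) l else 0) * (sz s : ℝ≥0∞) +
      (if l.length < n then kp τ c (τ s ω) l * (Tl l : ℝ≥0∞) else 0) := by
    intro l
    rw [Tl_cons]
    split_ifs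
    · push_cast; ring
    · simp
  simp_rw [e1]
  rw [ENNReal.tsum_add, ENNReal.tsum_mul_right]
  refine add_le_add ?_ le_rfl
  calc _ ≤ 1 * (sz s : ℝ≥0∞) := mul_le_mul' (len_mass_le n _) le_rfl
    _ = _ := one_mul _

theorem rf_T_le (h : Sta μ τ) (hc : RC τ c) (ω : Ω) :
    rf τ c (fun l => (Tl l : ℝ≥0∞)) ω ≤ Qo τ (qr τ c) (bt c) ω :=
  tsum_of_len fun n => rf_T_len h hc n ω

theorem rf_T2_le (h : Sta μ τ) (hc : RC τ c) (ω : Ω) :
    rf τ c (fun l => (Tl l : ℝ≥0∞) ^ 2) ω ≤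
      Qo τ (qr τ c) (fun ω => Vt c ω + 2 * ∑' s, c ω s * (sz s * Qo τ (qr τ c) (bt c) (τ s ω))) ω := by
  refine tsum_of_len fun n => ?_
  refine compar h hc (u := fun n ω => ∑' l : List (Vd d),
    (if l.length < n then kp τ c ω l * (Tl l : ℝ≥0∞) ^ 2 else 0)) (fun ω => by simp) (fun n ω => ?_) n ω
  rw [kp_first_len ω (fun l => (Tl l : ℝ≥0∞) ^ 2)]
  refine mul_le_mul' le_rfl ?_
  rw [Tl_nil, Nat.cast_zero, zero_pow two_ne_zero, zero_add]
  unfold Vt
  rw [← ENNReal.tsum_mul_left, ← ENNReal.tsum_add, ← ENNReal.tsum_add]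
  refine ENNReal.tsum_le_tsum fun s => ?_
  have e1 : ∀ l : List (Vd d), (if l.length < n then kp τ c (τ s ω) l * (Tl (s :: l) : ℝ≥0∞) ^ 2 else 0) =
      (if l.length < n then kp τ c (τ s ω) l else 0) * (sz s : ℝ≥0∞) ^ 2 +
      (2 * (sz s : ℝ≥0∞)) * (if l.length < n then kp τ c (τ s ω) l * (Tl l : ℝ≥0∞) else 0) +
      (if l.length < n then kp τ c (τ s ω) l * (Tl l : ℝ≥0∞) ^ 2 else 0) := by
    intro l
    rw [Tl_cons]
    split_ifs
    · push_cast; ring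
    · simp
  simp_rw [e1]
  rw [ENNReal.tsum_add, ENNReal.tsum_add, ENNReal.tsum_mul_right, ENNReal.tsum_mul_left, mul_add,
    mul_add]
  refine add_le_add (add_le_add ?_ ?_) le_rfl
  · refine mul_le_mul' le_rfl ?_
    calc _ ≤ 1 * (sz s : ℝ≥0∞) ^ 2 := mul_le_mul' (len_mass_le n _) le_rfl
      _ = _ := one_mul _
  · calc c ω s * (2 * (sz s : ℝ≥0∞) * _) ≤ c ω s * (2 * (sz s : ℝ≥0∞) *
          Qo τ (qr τ c) (bt c) (τ s ω)) :=
        mul_le_mul' le_rfl (mul_le_mul' le_rfl (rf_T_len h hc n _))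
      _ = _ := by ring

theorem two_mul_le' (a b : ℝ≥0∞) : 2 * (a * b) ≤ a ^ 2 + b ^ 2 := by
  rcases le_total a b with hab | hab
  · obtain ⟨e, rfl⟩ := le_iff_exists_add.1 hab
    calc 2 * (a * (a + e)) ≤ 2 * (a * (a + e)) + e ^ 2 := le_self_add
      _ = a ^ 2 + (a + e) ^ 2 := by ring
  · obtain ⟨e, rfl⟩ := le_iff_exists_add.1 hab
    calc 2 * ((b + e) * b) ≤ 2 * ((b + e) * b) + e ^ 2 := le_self_add
      _ = (b + e) ^ 2 + b ^ 2 := by ring

theorem jensen_sq {A : Type*} (q f : A → ℝ≥0∞) (hq : ∑' a, q a = 1) :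
    (∑' a, q a * f a) ^ 2 ≤ ∑' a, q a * f a ^ 2 := by
  have h1 : 2 * (∑' a, q a * f a) ^ 2 ≤ 2 * ∑' a, q a * f a ^ 2 := by
    calc 2 * (∑' a, q a * f a) ^ 2 = ∑' a, ∑' b, q a * q b * (2 * (f a * f b)) := by
          rw [sq, ← ENNReal.tsum_mul_right, ← ENNReal.tsum_mul_left]
          refine tsum_congr fun a => ?_
          rw [← ENNReal.tsum_mul_left, ← ENNReal.tsum_mul_left]
          exact tsum_congr fun b => by ring
      _ ≤ ∑' a, ∑' b, q a * q b * (f a ^ 2 + f b ^ 2) :=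
          ENNReal.tsum_le_tsum fun a => ENNReal.tsum_le_tsum fun b =>
            mul_le_mul' le_rfl (two_mul_le' _ _)
      _ = ∑' a, ∑' b, (q a * f a ^ 2 * q b + q a * (q b * f b ^ 2)) :=
          tsum_congr fun a => tsum_congr fun b => by ring
      _ = 2 * ∑' a, q a * f a ^ 2 := by
          simp_rw [ENNReal.tsum_add, ENNReal.tsum_mul_left]
          simp_rw [ENNReal.tsum_mul_right, hq]
          rw [mul_one, one_mul, two_mul]
  exact (ENNReal.mul_le_mul_iff_right (by norm_num) (by norm_num)).1 h1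

theorem lintegral_rf_T2 [IsProbabilityMeasure μ] (h : Sta μ τ) (hc : RC τ c) :
    ∫⁻ ω, rf τ c (fun l => (Tl l : ℝ≥0∞) ^ 2) ω ∂μ ≤
      ∫⁻ ω, Vt c ω ∂μ + 2 * ∫⁻ ω, bt c ω ^ 2 ∂μ := by
  have hq := ker_qr h hc
  have hbm := bt_meas hc.toCon
  set Qb : Ω → ℝ≥0∞ := Qo τ (qr τ c) (bt c) with hQb
  have hQbm : Measurable Qb := (mo_Qo h hq).meas _ hbm
  have hfm : Measurable (fun ω => ∑' s, c ω s * (sz s * Qb (τ s ω))) :=
    Measurable.tsum fun s => (hc.meas s).mul ((hQbm.comp (h.pres s).measurable).const_mul _)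
  refine (lintegral_mono fun ω => rf_T2_le h hc ω).trans ?_
  rw [lintegral_Qo h hq (f := fun ω => Vt c ω + 2 * ∑' s, c ω s * (sz s * Qb (τ s ω)))
    ((Vt_meas hc.toCon).add (hfm.const_mul 2)),
    lintegral_add_left (Vt_meas hc.toCon)]
  refine add_le_add le_rfl ?_
  rw [lintegral_const_mul _ hfm]
  have h1 := h.mtp (F := fun ω y => c ω y * (sz y * Qb ω)) fun y =>
    (hc.meas y).mul (hQbm.const_mul _)
  have e0 : ∀ y : Vd d, sz (-y) = sz y := fun y => by simp [sz]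
  have e1 : ∀ ω, ∑' y, c (τ y ω) (-y) * (sz (-y) * Qb (τ y ω)) =
      ∑' s, c ω s * (sz s * Qb (τ s ω)) := fun ω => tsum_congr fun y => by rw [← hc.symm, e0]
  simp_rw [e1] at h1
  rw [h1]
  have e2 : ∀ ω, ∑' y, c ω y * (sz y * Qb ω) = bt c ω * Qb ω := fun ω => by
    unfold bt
    rw [← ENNReal.tsum_mul_right]
    exact tsum_congr fun y => by ring
  simp_rw [e2]
  have h2 : ∫⁻ ω, Qb ω ^ 2 ∂μ ≤ ∫⁻ ω, bt c ω ^ 2 ∂μ := by
    have h3 := lintegral_Qo h hq (f := fun ω => bt c ω ^ 2) (hbm.pow_const 2)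
    rw [← h3]
    refine lintegral_mono fun ω => ?_
    exact jensen_sq (fun y => qr τ c ω y) (fun y => bt c (τ y ω)) (hq.one ω)
  rw [← lintegral_const_mul 2 (f := fun ω => bt c ω * Qb ω) (hbm.mul hQbm)]
  calc ∫⁻ ω, 2 * (bt c ω * Qb ω) ∂μ ≤ ∫⁻ ω, (bt c ω ^ 2 + Qb ω ^ 2) ∂μ :=
        lintegral_mono fun ω => two_mul_le' _ _
    _ = ∫⁻ ω, bt c ω ^ 2 ∂μ + ∫⁻ ω, Qb ω ^ 2 ∂μ := lintegral_add_left (hbm.pow_const 2) _
    _ ≤ ∫⁻ ω, bt c ω ^ 2 ∂μ + ∫⁻ ω, bt c ω ^ 2 ∂μ := add_le_add le_rfl h2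
    _ = _ := (two_mul _).symm

theorem VR_qr_le (i : Fin d) (ω : Ω) :
    VR (qr τ c) (co i) ω ≤ rf τ c (fun l => (Tl l : ℝ≥0∞) ^ 2) ω := by
  unfold VR
  rw [tsum_qr ω (fun y => ENNReal.ofReal (co i ω y ^ 2))]
  refine ENNReal.tsum_le_tsum fun l => mul_le_mul' le_rfl ?_
  have h1 : |(l.sum i : ℝ)| ≤ Tl l := by exact_mod_cast sum_le_Tl l i
  unfold co
  rw [← sq_abs]
  have e : ((Tl l : ℝ≥0∞)) ^ 2 = ENNReal.ofReal ((Tl l : ℝ) ^ 2) := by
    rw [ENNReal.ofReal_pow (Nat.cast_nonneg _), ENNReal.ofReal_natCast]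
  show _ ≤ (Tl l : ℝ≥0∞) ^ 2
  rw [e]
  exact ENNReal.ofReal_le_ofReal (pow_le_pow_left₀ (abs_nonneg _) h1 2)

end Pool.Agent.H979.QIP
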