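import Pool.Agent.H979.QIP.Nash2
import Pool.Agent.H979.QIP.Run2

set_option autoImplicit false
set_option linter.unusedSectionVars false
set_option linter.deprecated false
set_option linter.unusedVariables false
set_option linter.style.haveILetI false

open MeasureTheory ProbabilityTheory Filter Topology Set
open scoped ENNReal NNReal

/-!
# Decay of the heat kernel
-/

namespace Pool.Agent.H979.QIP

/-! ### a recursive inequality -/

theorem one_add_pow_le {t : ℝ} (ht : 0 ≤ t) (ht1 : t ≤ 1) (d : ℕ) :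
    (1 + t) ^ d ≤ 1 + (2 ^ d - 1) * t := by
  induction d with
  | zero => simp
  | succ d ih =>
    have h2 : (1 : ℝ) ≤ 2 ^ d := one_le_pow₀ (by norm_num)
    calc (1 + t) ^ (d + 1) = (1 + t) ^ d * (1 + t) := pow_succ _ _
      _ ≤ (1 + (2 ^ d - 1) * t) * (1 + t) := mul_le_mul_of_nonneg_right ih (by linarith)
      _ ≤ 1 + (2 ^ (d + 1) - 1) * t := by
          rw [pow_succ]
          nlinarith [mul_nonneg (sub_nonneg.2 h2) (mul_nonneg ht (sub_nonneg.2 ht1))]

/-- the constant of the decay -/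
noncomputable def dB (d : ℕ) : ℝ :=
  ((2 : ℝ) ^ (d + 1) / (1 / (8 * d) * (1 / 2) ^ (1 + 2 / (d : ℝ)))) ^ ((d : ℝ) / 2)

theorem dB_one {d : ℕ} (hd : 2 ≤ d) : 1 ≤ dB d := by
  have hd0 : (2 : ℝ) ≤ d := by exact_mod_cast hd
  unfold dB
  refine Real.one_le_rpow ?_ (by positivity)
  rw [one_le_div (by positivity)]
  have h1 : (1 / 2 : ℝ) ^ (1 + 2 / (d : ℝ)) ≤ 1 := Real.rpow_le_one (by norm_num) (by norm_num) (by positivity)
  have h2 : 1 / (8 * (d : ℝ)) ≤ 1 := by rw [div_le_one (by positivity)]; linarith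
  have h3 : (1 : ℝ) ≤ 2 ^ (d + 1) := one_le_pow₀ (by norm_num)
  calc 1 / (8 * (d : ℝ)) * (1 / 2) ^ (1 + 2 / (d : ℝ)) ≤ 1 * 1 :=
        mul_le_mul h2 h1 (by positivity) (by norm_num)
    _ ≤ _ := by linarith

theorem decay {d : ℕ} (hd : 2 ≤ d) {a : ℕ → ℝ} (h0 : ∀ m, 0 ≤ a m) (h1 : ∀ m, a m ≤ 1)
    (hs : ∀ m, a (m + 1) + 1 / (8 * d) * (a (m + 1) / 2) ^ (1 + 2 / (d : ℝ)) ≤ a m) {m : ℕ}
    (hm : 1 ≤ m) : a m ≤ dB d / √m ^ d := by
  have hd0 : (2 : ℝ) ≤ d := by exact_mod_cast hd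
  induction m, hm using Nat.le_induction with
  | base => simpa using (h1 1).trans (dB_one hd)
  | succ m hm ih =>
    by_contra hcon
    push Not at hcon
    have hm0 : (0 : ℝ) < m := by exact_mod_cast hm
    have hm1 : (1 : ℝ) ≤ m := by exact_mod_cast hm
    set A0 : ℝ := dB d / √((m + 1 : ℕ) : ℝ) ^ d with hA0
    have hB0 : 0 < dB d := lt_of_lt_of_le one_pos (dB_one hd)
    have hA0p : 0 < A0 := by positivity
    set κ : ℝ := 1 / (8 * d) * (1 / 2) ^ (1 + 2 / (d : ℝ)) with hκ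
    have hκ0 : 0 < κ := by positivity
    have hphi : ∀ x : ℝ, 0 < x → 1 / (8 * (d : ℝ)) * (x / 2) ^ (1 + 2 / (d : ℝ)) =
        x * (κ * x ^ (2 / (d : ℝ))) := by
      intro x hx
      rw [hκ, div_eq_mul_inv x 2, Real.mul_rpow hx.le (by norm_num), Real.rpow_add hx, Real.rpow_one]
      rw [show (2 : ℝ)⁻¹ = 1 / 2 by norm_num]
      ring
    have hpow : A0 ^ (2 / (d : ℝ)) = 2 ^ (d + 1) / (κ * (m + 1)) := by
      have hs1 : (0 : ℝ) < ((m + 1 : ℕ) : ℝ) := by positivity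
      rw [hA0, Real.div_rpow hB0.le (by positivity)]
      have e1 : dB d ^ (2 / (d : ℝ)) = 2 ^ (d + 1) / κ := by
        unfold dB
        rw [← Real.rpow_mul (by positivity)]
        have : (d : ℝ) / 2 * (2 / d) = 1 := by field_simp
        rw [this, Real.rpow_one]
      have e2 : (√((m + 1 : ℕ) : ℝ) ^ d) ^ (2 / (d : ℝ)) = m + 1 := by
        rw [← Real.rpow_natCast, ← Real.rpow_mul (Real.sqrt_nonneg _)]
        have : (d : ℝ) * (2 / d) = ((2 : ℕ) : ℝ) := by field_simp; norm_num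
        rw [this, Real.rpow_natCast, Real.sq_sqrt hs1.le]
        push_cast; ring
      rw [e1, e2, div_div]
    have hmono : A0 * (κ * A0 ^ (2 / (d : ℝ))) ≤ a (m + 1) * (κ * a (m + 1) ^ (2 / (d : ℝ))) := by
      refine mul_le_mul hcon.le (mul_le_mul_of_nonneg_left
        (Real.rpow_le_rpow hA0p.le hcon.le (by positivity)) hκ0.le) (by positivity) (h0 _)
    have h2 := hs m
    rw [hphi _ (hA0p.trans hcon)] at h2
    have h3 : A0 * (1 + 2 ^ (d + 1) / (m + 1)) < a m := by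
      have : A0 * (κ * A0 ^ (2 / (d : ℝ))) = A0 * (2 ^ (d + 1) / (m + 1)) := by
        rw [hpow]; field_simp
      rw [this] at hmono
      linarith
    have h4 : dB d / √(m : ℝ) ^ d ≤ A0 * (1 + 2 ^ (d + 1) / (m + 1)) := by
      have e1 : dB d / √(m : ℝ) ^ d = A0 * (√(((m : ℝ) + 1) / m)) ^ d := by
        rw [hA0, Real.sqrt_div (by positivity), div_pow]
        push_cast
        field_simp
      rw [e1]
      refine mul_le_mul_of_nonneg_left ?_ hA0p.le
      have h5 : (1 : ℝ) ≤ (m + 1) / m := by rw [le_div_iff₀ hm0]; linarith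
      have h6 : √(((m : ℝ) + 1) / m) ≤ 1 + 1 / m := by
        have : ((m : ℝ) + 1) / m = 1 + 1 / m := by field_simp
        rw [← this]
        rw [Real.sqrt_le_left (by positivity)]
        nlinarith
      calc √(((m : ℝ) + 1) / m) ^ d ≤ (1 + 1 / (m : ℝ)) ^ d :=
            pow_le_pow_left₀ (Real.sqrt_nonneg _) h6 d
        _ ≤ 1 + (2 ^ d - 1) * (1 / m) := one_add_pow_le (by positivity)
            (by rw [div_le_one hm0]; exact hm1) d
        _ ≤ 1 + 2 ^ (d + 1) / (m + 1) := by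
            have h7 : (1 : ℝ) / m ≤ 2 / (m + 1) := by
              rw [div_le_div_iff₀ hm0 (by positivity)]; linarith
            have h8 : (0 : ℝ) ≤ 2 ^ d := by positivity
            have h9 : (2 ^ d - 1) * (1 / (m : ℝ)) ≤ 2 ^ d * (2 / (m + 1)) := by
              calc (2 ^ d - 1) * (1 / (m : ℝ)) ≤ 2 ^ d * (1 / m) :=
                    mul_le_mul_of_nonneg_right (by linarith) (by positivity)
                _ ≤ _ := mul_le_mul_of_nonneg_left h7 h8
            have h10 : (2 : ℝ) ^ d * (2 / (m + 1)) = 2 ^ (d + 1) / (m + 1) := by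
              rw [pow_succ]; ring
            linarith
    linarith

theorem St.energy {X : Type*} {c : X → X → ℝ} (hc : Nw c) {p' p : X → ℝ} (hp : St c p' p)
    (h1 : ∀ x, p x ≤ 1) (h1' : ∀ x, p' x ≤ 1) :
    Summable (fun z : X × X => c z.1 z.2 * (p z.1 - p z.2) ^ 2) ∧
    ∑' x, p x ^ 2 + ∑' z : X × X, c z.1 z.2 * (p z.1 - p z.2) ^ 2 ≤ ∑' x, p' x ^ 2 := by
  have hb : ∀ x, |p x| ≤ 1 := fun x => by rw [abs_of_nonneg (hp.nn x)]; exact h1 x
  have h2 := hp.parts hc hb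
  have h3 := hp.sform hc hb
  have e1 : ∀ z : X × X, c z.1 z.2 * (p z.1 - p z.2) * (p z.1 - p z.2) =
      c z.1 z.2 * (p z.1 - p z.2) ^ 2 := fun z => by ring
  simp_rw [e1] at h2 h3
  have s1 : Summable (fun x => p x ^ 2) := Summable.of_nonneg_of_le (fun x => sq_nonneg _)
    (fun x => by nlinarith [hp.nn x, h1 x]) hp.su
  have s2 : Summable (fun x => p' x ^ 2) := Summable.of_nonneg_of_le (fun x => sq_nonneg _)
    (fun x => by nlinarith [hp.n' x, h1' x]) hp.s'
  have s3 : Summable (fun x => p x * p' x) := Summable.of_nonneg_of_le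
    (fun x => mul_nonneg (hp.nn x) (hp.n' x)) (fun x => by nlinarith [hp.nn x, h1 x, hp.n' x]) hp.s'
  refine ⟨h3, ?_⟩
  have e2 : ∑' x, p x * (p' x - p x) = ∑' x, p x * p' x - ∑' x, p x ^ 2 := by
    rw [← s3.tsum_sub s1]
    exact tsum_congr fun x => by ring
  have h4 : ∑' x, 2 * (p x * p' x) ≤ ∑' x, (p x ^ 2 + p' x ^ 2) :=
    (s3.mul_left 2).tsum_le_tsum (fun x => by nlinarith [sq_nonneg (p x - p' x)]) (s1.add s2)
  rw [tsum_mul_left, s1.tsum_add s2] at h4
  rw [e2] at h2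
  linarith

end Pool.Agent.H979.QIP
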