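import Pool.Agent.H979.QIP.Ker2

set_option autoImplicit false
set_option linter.unusedSectionVars false
set_option linter.deprecated false
set_option linter.unusedVariables false
set_option linter.style.haveILetI false

open MeasureTheory ProbabilityTheory Filter Topology Set
open scoped ENNReal NNReal InnerProductSpace

/-!
# Quenched averages along the path
-/

namespace Pool.Agent.H979.QIP

variable {Ω : Type*} [MeasurableSpace Ω] {d : ℕ} {μ : Measure Ω} {τ : Vd d → Ω → Ω}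
  {q : Ω → Vd d → ℝ≥0∞}

/-- ergodicity on the set `O` -/
structure ErgO (μ : Measure Ω) (τ : Vd d → Ω → Ω) (q : Ω → Vd d → ℝ≥0∞) (O : Set Ω) : Prop where
  meas : MeasurableSet O
  pos : μ O ≠ 0
  inv : ∀ ω y, q ω y ≠ 0 → (τ y ω ∈ O ↔ ω ∈ O)
  erg : ∀ f : Ω → ℝ, Measurable f → (∀ᵐ ω ∂μ, ∀ y, q ω y ≠ 0 → f (τ y ω) = f ω) →
    ∃ a, ∀ᵐ ω ∂μ, ω ∈ O → f ω = a

/-- truncation -/
noncomputable def tru (L : ℝ) (x : ℝ) : ℝ := max (-L) (min L x)

theorem abs_tru_le {L : ℝ} (hL : 0 ≤ L) (x : ℝ) : |tru L x| ≤ L := by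
  unfold tru
  rw [abs_le]
  constructor
  · exact le_max_left _ _
  · exact max_le (by linarith) (min_le_left _ _)

theorem abs_tru_le' {L : ℝ} (hL : 0 ≤ L) (x : ℝ) : |tru L x| ≤ |x| := by
  unfold tru
  rw [abs_le]
  constructor
  · rcases le_total L x with h | h
    · rw [min_eq_left h]
      exact (by linarith [abs_nonneg x] : -|x| ≤ L).trans (le_max_right _ _)
    · rw [min_eq_right h]
      exact (neg_abs_le x).trans (le_max_right _ _)
  · refine max_le (by linarith [abs_nonneg x]) ((min_le_right _ _).trans (le_abs_self x))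

theorem tru_eq {L x : ℝ} (h : |x| ≤ L) : tru L x = x := by
  have := abs_le.1 h
  unfold tru
  rw [min_eq_right this.2, max_eq_right this.1]

theorem measurable_tru (L : ℝ) : Measurable (tru L) := by
  unfold tru; fun_prop

theorem tendsto_tru (x : ℝ) : Tendsto (fun n : ℕ => tru n x) atTop (𝓝 x) := by
  obtain ⟨N, hN⟩ := exists_nat_ge |x|
  refine tendsto_const_nhds.congr' ?_
  filter_upwards [eventually_ge_atTop N] with n hn
  exact (tru_eq (hN.trans (by exact_mod_cast hn))).symm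

variable [IsProbabilityMeasure μ]

theorem Qr_sub_int (h : Sta μ τ) (hq : Ker τ q) {g f : Ω → ℝ} (hg : Measurable g)
    (hg2 : MemLp g 2 μ) (hf : Measurable f) {c : ℝ} (hb : ∀ ω, |f ω| ≤ c) :
    ∫ ω, g ω * Qr τ q f ω ∂μ = ∫ p, g p.1 * f (τ p.2 p.1) ∂(nu h hq) := by
  have hgi : Integrable g μ := hg2.integrable (by norm_num)
  have hgi' : Integrable (fun p : Ω × Vd d => g p.1) (nu h hq) :=
    (mp_fst h hq).integrable_comp_of_integrable hgi
  have hi : Integrable (fun p : Ω × Vd d => g p.1 * f (τ p.2 p.1)) (nu h hq) := by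
    refine (hgi'.bdd_mul (f := fun p : Ω × Vd d => f (τ p.2 p.1)) (c := c)
      (hf.comp (measurable_T2 h)).aestronglyMeasurable
      (Eventually.of_forall fun p => hb _)).congr ?_
    exact Eventually.of_forall fun p => mul_comm _ _
  unfold nu at hi ⊢
  rw [Measure.integral_compProd hi]
  refine integral_congr_ae (Eventually.of_forall fun ω => ?_)
  simp only
  rw [kap_apply, integral_const_mul]
  rfl

/-- functions orthogonal to the coboundaries are invariant -/
theorem invariant_of_orth (h : Sta μ τ) (hq : Ker τ q) {g : Ω → ℝ} (hg : Measurable g)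
    (hg2 : MemLp g 2 μ) (horth : ∀ f : Ω → ℝ, Measurable f → (∃ c, ∀ ω, |f ω| ≤ c) →
      ∫ ω, g ω * (f ω - Qr τ q f ω) ∂μ = 0) :
    ∀ᵐ p ∂(nu h hq), g p.1 = g (τ p.2 p.1) := by
  have hgi : Integrable g μ := hg2.integrable (by norm_num)
  have hsq : Integrable (fun ω => g ω ^ 2) μ := hg2.integrable_sq
  have hsq1 : Integrable (fun p : Ω × Vd d => g p.1 ^ 2) (nu h hq) :=
    (mp_fst h hq).integrable_comp_of_integrable hsq
  have hsq2 : Integrable (fun p : Ω × Vd d => g (τ p.2 p.1) ^ 2) (nu h hq) :=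
    (mp_T2 h hq).integrable_comp_of_integrable hsq
  have hm1 : Measurable (fun p : Ω × Vd d => g p.1) := hg.comp measurable_fst
  have hm2 : Measurable (fun p : Ω × Vd d => g (τ p.2 p.1)) := hg.comp (measurable_T2 h)
  have key : ∀ n : ℕ, ∫ ω, g ω * tru n (g ω) ∂μ =
      ∫ p, g p.1 * tru n (g (τ p.2 p.1)) ∂(nu h hq) := by
    intro n
    have hb : ∀ ω, |tru n (g ω)| ≤ n := fun ω => abs_tru_le (Nat.cast_nonneg n) _
    have hm : Measurable (fun ω => tru n (g ω)) := (measurable_tru n).comp hg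
    have h1 := horth (fun ω => tru n (g ω)) hm ⟨n, hb⟩
    have i1 : Integrable (fun ω => g ω * tru n (g ω)) μ := by
      refine (hgi.bdd_mul (c := n) hm.aestronglyMeasurable (Eventually.of_forall hb)).congr ?_
      exact Eventually.of_forall fun p => mul_comm _ _
    have i2 : Integrable (fun ω => g ω * Qr τ q (fun ω => tru n (g ω)) ω) μ := by
      refine (hgi.bdd_mul (c := n) (measurable_Qr h hq hm).aestronglyMeasurable
        (Eventually.of_forall fun ω => Qr_bdd hq hb ω)).congr ?_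
      exact Eventually.of_forall fun p => mul_comm _ _
    simp_rw [mul_sub] at h1
    rw [integral_sub i1 i2, Qr_sub_int h hq hg hg2 hm hb] at h1
    linarith
  have lim1 : Tendsto (fun n : ℕ => ∫ ω, g ω * tru n (g ω) ∂μ) atTop (𝓝 (∫ ω, g ω ^ 2 ∂μ)) := by
    refine tendsto_integral_of_dominated_convergence (fun ω => g ω ^ 2)
      (fun n => (hg.mul ((measurable_tru n).comp hg)).aestronglyMeasurable) hsq ?_ ?_
    · intro n
      refine Eventually.of_forall fun ω => ?_
      rw [Real.norm_eq_abs, abs_mul, ← sq_abs (g ω), sq]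
      exact mul_le_mul_of_nonneg_left (abs_tru_le' (Nat.cast_nonneg n) _) (abs_nonneg _)
    · refine Eventually.of_forall fun ω => ?_
      rw [sq]
      exact (tendsto_tru (g ω)).const_mul _
  have lim2 : Tendsto (fun n : ℕ => ∫ p, g p.1 * tru n (g (τ p.2 p.1)) ∂(nu h hq)) atTop
      (𝓝 (∫ p, g p.1 * g (τ p.2 p.1) ∂(nu h hq))) := by
    refine tendsto_integral_of_dominated_convergence
      (fun p => g p.1 ^ 2 + g (τ p.2 p.1) ^ 2)
      (fun n => (hm1.mul ((measurable_tru n).comp hm2)).aestronglyMeasurable) (hsq1.add hsq2) ?_ ?_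
    · intro n
      refine Eventually.of_forall fun p => ?_
      rw [Real.norm_eq_abs, abs_mul]
      have h1 : |g p.1| * |tru n (g (τ p.2 p.1))| ≤ |g p.1| * |g (τ p.2 p.1)| :=
        mul_le_mul_of_nonneg_left (abs_tru_le' (Nat.cast_nonneg n) _) (abs_nonneg _)
      refine h1.trans ?_
      rw [← sq_abs (g p.1), ← sq_abs (g (τ p.2 p.1))]
      nlinarith [sq_nonneg (|g p.1| - |g (τ p.2 p.1)|), sq_nonneg (|g p.1|),
        sq_nonneg (|g (τ p.2 p.1)|)]
    · exact Eventually.of_forall fun p => (tendsto_tru _).const_mul _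
  have heq : ∫ ω, g ω ^ 2 ∂μ = ∫ p, g p.1 * g (τ p.2 p.1) ∂(nu h hq) := by
    refine tendsto_nhds_unique lim1 ?_
    simp_rw [key]
    exact lim2
  have hi12 : Integrable (fun p : Ω × Vd d => g p.1 * g (τ p.2 p.1)) (nu h hq) := by
    refine Integrable.mono' (hsq1.add hsq2) (hm1.mul hm2).aestronglyMeasurable
      (Eventually.of_forall fun p => ?_)
    rw [Real.norm_eq_abs, abs_mul]
    show _ ≤ g p.1 ^ 2 + g (τ p.2 p.1) ^ 2
    rw [← sq_abs (g p.1), ← sq_abs (g (τ p.2 p.1))]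
    nlinarith [sq_nonneg (|g p.1| - |g (τ p.2 p.1)|), sq_nonneg (|g p.1|),
      sq_nonneg (|g (τ p.2 p.1)|)]
  have hzero : ∫ p, (g p.1 - g (τ p.2 p.1)) ^ 2 ∂(nu h hq) = 0 := by
    have e1 : (fun p : Ω × Vd d => (g p.1 - g (τ p.2 p.1)) ^ 2) =
        fun p => (g p.1 ^ 2 + g (τ p.2 p.1) ^ 2) - 2 * (g p.1 * g (τ p.2 p.1)) := by
      funext p; ring
    have e2 : ∫ p, g p.1 ^ 2 ∂(nu h hq) = ∫ ω, g ω ^ 2 ∂μ := by
      have := (mp_fst h hq).map_eq
      conv_rhs => rw [← this]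
      rw [integral_map measurable_fst.aemeasurable (hg.pow_const 2).aestronglyMeasurable]
    have e3 : ∫ p, g (τ p.2 p.1) ^ 2 ∂(nu h hq) = ∫ ω, g ω ^ 2 ∂μ := by
      have := (mp_T2 h hq).map_eq
      conv_rhs => rw [← this]
      rw [integral_map (measurable_T2 h).aemeasurable (hg.pow_const 2).aestronglyMeasurable]
    rw [e1, integral_sub (f := fun p : Ω × Vd d => g p.1 ^ 2 + g (τ p.2 p.1) ^ 2)
      (hsq1.add hsq2) (hi12.const_mul 2), integral_add hsq1 hsq2,
      integral_const_mul, e2, e3, ← heq]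
    ring
  have hsqi : Integrable (fun p : Ω × Vd d => (g p.1 - g (τ p.2 p.1)) ^ 2) (nu h hq) := by
    have e1 : (fun p : Ω × Vd d => (g p.1 - g (τ p.2 p.1)) ^ 2) =
        fun p => (g p.1 ^ 2 + g (τ p.2 p.1) ^ 2) - 2 * (g p.1 * g (τ p.2 p.1)) := by
      funext p; ring
    rw [e1]
    exact (hsq1.add hsq2).sub (hi12.const_mul 2)
  have h5 := (integral_eq_zero_iff_of_nonneg (fun p => sq_nonneg _) hsqi).1 hzero
  filter_upwards [h5] with p hp
  have : (g p.1 - g (τ p.2 p.1)) ^ 2 = 0 := hp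
  have := pow_eq_zero_iff (n := 2) (by norm_num) |>.1 this
  linarith

/-- the coboundaries of bounded functions -/
noncomputable def cob (h : Sta μ τ) (hq : Ker τ q) : Submodule ℝ (Lp ℝ 2 μ) where
  carrier := {F | ∃ f : Ω → ℝ, Measurable f ∧ (∃ c, ∀ ω, |f ω| ≤ c) ∧
    F =ᵐ[μ] fun ω => f ω - Qr τ q f ω}
  add_mem' := by
    rintro F F' ⟨f, hf, ⟨c, hc⟩, hF⟩ ⟨f', hf', ⟨c', hc'⟩, hF'⟩
    refine ⟨fun ω => f ω + f' ω, hf.add hf', ⟨c + c', fun ω => (abs_add_le _ _).trans
      (add_le_add (hc ω) (hc' ω))⟩, ?_⟩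
    filter_upwards [hF, hF', Lp.coeFn_add F F'] with ω h1 h2 h3
    have h4 : Qr τ q (fun ω => f ω + f' ω) ω = Qr τ q f ω + Qr τ q f' ω := by
      haveI := qM_prob hq ω 0
      unfold Qr
      exact integral_add
        (Integrable.of_bound (measurable_of_countable _).aestronglyMeasurable c
          (Eventually.of_forall fun y => hc _))
        (Integrable.of_bound (measurable_of_countable _).aestronglyMeasurable c'
          (Eventually.of_forall fun y => hc' _))
    rw [h3, Pi.add_apply, h1, h2, h4]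
    ring
  zero_mem' := by
    refine ⟨fun _ => 0, measurable_const, ⟨0, fun ω => by simp⟩, ?_⟩
    filter_upwards [Lp.coeFn_zero ℝ 2 μ] with ω h1
    rw [h1]
    simp [Qr]
  smul_mem' := by
    rintro a F ⟨f, hf, ⟨c, hc⟩, hF⟩
    refine ⟨fun ω => a * f ω, hf.const_mul a, ⟨|a| * c, fun ω => by
      rw [abs_mul]; exact mul_le_mul_of_nonneg_left (hc ω) (abs_nonneg _)⟩, ?_⟩
    filter_upwards [hF, Lp.coeFn_smul a F] with ω h1 h3
    have h4 : Qr τ q (fun ω => a * f ω) ω = a * Qr τ q f ω := by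
      unfold Qr
      exact integral_const_mul _ _
    rw [h3, Pi.smul_apply, h1, h4, smul_eq_mul]
    ring

theorem cob_dense (h : Sta μ τ) (hq : Ker τ q) {O : Set Ω} (hO : ErgO μ τ q O) {g : Ω → ℝ}
    (hg2 : MemLp g 2 μ) (hgO : ∀ ω, ω ∉ O → g ω = 0) (hg0 : ∫ ω, g ω ∂μ = 0) :
    hg2.toLp g ∈ (cob h hq).topologicalClosure := by
  rw [← Submodule.orthogonal_orthogonal_eq_closure, Submodule.mem_orthogonal]
  intro F hF
  rw [Submodule.mem_orthogonal] at hF
  obtain ⟨f, hf⟩ : ∃ f : Ω → ℝ, f = fun ω => F ω := ⟨_, rfl⟩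
  have hfm : Measurable f := by rw [hf]; exact (Lp.stronglyMeasurable F).measurable
  have hf2 : MemLp f 2 μ := by rw [hf]; exact Lp.memLp F
  have horth : ∀ u : Ω → ℝ, Measurable u → (∃ c, ∀ ω, |u ω| ≤ c) →
      ∫ ω, f ω * (u ω - Qr τ q u ω) ∂μ = 0 := by
    rintro u hu ⟨c, hc⟩
    have hb : ∀ ω, ‖u ω - Qr τ q u ω‖ ≤ c + c := fun ω =>
      (norm_sub_le _ _).trans (add_le_add (hc ω) (Qr_bdd hq hc ω))
    have hmem : MemLp (fun ω => u ω - Qr τ q u ω) 2 μ :=
      MemLp.of_bound (hu.sub (measurable_Qr h hq hu)).aestronglyMeasurable (c + c)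
        (Eventually.of_forall hb)
    have h1 := hF (hmem.toLp _) ⟨u, hu, ⟨c, hc⟩, hmem.coeFn_toLp⟩
    rw [L2.inner_def] at h1
    rw [← h1]
    refine integral_congr_ae ?_
    filter_upwards [hmem.coeFn_toLp] with ω hω
    rw [hω]
    simp [hf]
  have hinv := ae_nu h hq (pr := fun ω y => f ω = f (τ y ω))
    (invariant_of_orth h hq hfm hf2 horth)
  obtain ⟨a, ha⟩ := hO.erg f hfm (by
    filter_upwards [hinv] with ω hω y hy
    exact (hω y hy).symm)
  rw [L2.inner_def]
  have : ∫ ω, ⟪F ω, (hg2.toLp g) ω⟫_ℝ ∂μ = ∫ ω, a * g ω ∂μ := by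
    refine integral_congr_ae ?_
    filter_upwards [ha, hg2.coeFn_toLp] with ω h1 h2
    rw [h2]
    by_cases hω : ω ∈ O
    · have h3 := h1 hω
      rw [hf] at h3
      simp [h3, mul_comm]
    · simp [hgO ω hω]
  rw [this, integral_const_mul, hg0, mul_zero]

theorem approx_bdd (h : Sta μ τ) (hq : Ker τ q) {O : Set Ω} (hO : ErgO μ τ q O) {g : Ω → ℝ}
    (hgm : Measurable g) (hgb : ∃ c, ∀ ω, |g ω| ≤ c) (hgO : ∀ ω, ω ∉ O → g ω = 0)
    (hg0 : ∫ ω, g ω ∂μ = 0) {ε : ℝ} (hε : 0 < ε) :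
    ∃ f : Ω → ℝ, Measurable f ∧ (∃ c, ∀ ω, |f ω| ≤ c) ∧
      ∫ ω, |g ω - (f ω - Qr τ q f ω)| ∂μ ≤ ε := by
  obtain ⟨c, hc⟩ := hgb
  have hg2 : MemLp g 2 μ := MemLp.of_bound hgm.aestronglyMeasurable c (Eventually.of_forall hc)
  have h1 := cob_dense h hq hO hg2 hgO hg0
  rw [← SetLike.mem_coe, Submodule.topologicalClosure_coe, Metric.mem_closure_iff] at h1
  obtain ⟨F, ⟨f, hf, ⟨c', hc'⟩, hF⟩, hdist⟩ := h1 ε hε
  refine ⟨f, hf, ⟨c', hc'⟩, ?_⟩
  set D : Ω → ℝ := fun ω => g ω - (f ω - Qr τ q f ω) with hD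
  have hDm : Measurable D := hgm.sub (hf.sub (measurable_Qr h hq hf))
  have e1 : eLpNorm D 2 μ = ENNReal.ofReal (dist (hg2.toLp g) F) := by
    rw [← edist_dist, Lp.edist_def]
    refine eLpNorm_congr_ae ?_
    filter_upwards [hg2.coeFn_toLp, hF] with ω h2 h3
    rw [Pi.sub_apply, h2, h3]
  have e2 : eLpNorm D 1 μ ≤ eLpNorm D 2 μ :=
    eLpNorm_le_eLpNorm_of_exponent_le (by norm_num) hDm.aestronglyMeasurable
  have hDb : ∀ ω, ‖D ω‖ ≤ c + (c' + c') := fun ω =>
    (norm_sub_le _ _).trans (add_le_add (hc ω) ((norm_sub_le _ _).trans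
      (add_le_add (hc' ω) (Qr_bdd hq hc' ω))))
  have hDi : Integrable D μ := Integrable.of_bound hDm.aestronglyMeasurable _
    (Eventually.of_forall hDb)
  have e3 : ENNReal.ofReal (∫ ω, |D ω| ∂μ) = eLpNorm D 1 μ := by
    rw [eLpNorm_one_eq_lintegral_enorm, ← ofReal_integral_norm_eq_lintegral_enorm hDi]
    rfl
  have e4 : ENNReal.ofReal (∫ ω, |D ω| ∂μ) ≤ ENNReal.ofReal ε := by
    rw [e3]
    refine e2.trans ?_
    rw [e1]
    exact ENNReal.ofReal_le_ofReal hdist.le
  exact (ENNReal.ofReal_le_ofReal_iff hε.le).1 e4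

/-- mean zero functions on `O` are nearly coboundaries -/
theorem approx_cob (h : Sta μ τ) (hq : Ker τ q) {O : Set Ω} (hO : ErgO μ τ q O) {g : Ω → ℝ}
    (hgm : Measurable g) (hgi : Integrable g μ) (hgO : ∀ ω, ω ∉ O → g ω = 0)
    (hg0 : ∫ ω, g ω ∂μ = 0) {ε : ℝ} (hε : 0 < ε) :
    ∃ f : Ω → ℝ, Measurable f ∧ (∃ c, ∀ ω, |f ω| ≤ c) ∧
      ∫ ω, |g ω - (f ω - Qr τ q f ω)| ∂μ ≤ ε := by
  -- truncation
  have hmL : ∀ n : ℕ, Measurable (fun ω => tru n (g ω)) := fun n => (measurable_tru n).comp hgm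
  have hiL : ∀ n : ℕ, Integrable (fun ω => tru n (g ω)) μ := fun n =>
    Integrable.of_bound (hmL n).aestronglyMeasurable n
      (Eventually.of_forall fun ω => abs_tru_le (Nat.cast_nonneg n) _)
  have lim1 : Tendsto (fun n : ℕ => ∫ ω, tru n (g ω) ∂μ) atTop (𝓝 (∫ ω, g ω ∂μ)) :=
    tendsto_integral_of_dominated_convergence (fun ω => |g ω|)
      (fun n => (hmL n).aestronglyMeasurable) hgi.abs
      (fun n => Eventually.of_forall fun ω => abs_tru_le' (Nat.cast_nonneg n) _)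
      (Eventually.of_forall fun ω => tendsto_tru _)
  have lim2 : Tendsto (fun n : ℕ => ∫ ω, |g ω - tru n (g ω)| ∂μ) atTop (𝓝 0) := by
    have : Tendsto (fun n : ℕ => ∫ ω, |g ω - tru n (g ω)| ∂μ) atTop (𝓝 (∫ ω, (0 : ℝ) ∂μ)) := by
      refine tendsto_integral_of_dominated_convergence (fun ω => |g ω| + |g ω|)
        (fun n => (hgm.sub (hmL n)).abs.aestronglyMeasurable) (hgi.abs.add hgi.abs) ?_ ?_
      · intro n
        refine Eventually.of_forall fun ω => ?_
        rw [Real.norm_eq_abs, abs_abs]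
        exact (abs_sub _ _).trans (add_le_add le_rfl (abs_tru_le' (Nat.cast_nonneg n) _))
      · refine Eventually.of_forall fun ω => ?_
        have := (tendsto_const_nhds (x := g ω)).sub (tendsto_tru (g ω))
        rw [sub_self] at this
        simpa using this.abs
    simpa using this
  rw [hg0] at lim1
  obtain ⟨n, hn1, hn2⟩ := (((tendsto_order.1 lim1.abs).2 (ε / 3) (by simpa using by positivity)).and
    ((tendsto_order.1 lim2).2 (ε / 3) (by positivity))).exists
  set c : ℝ := ∫ ω, tru n (g ω) ∂μ with hc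
  have hOr : 0 < μ.real O := ENNReal.toReal_pos hO.pos (measure_ne_top _ _)
  set g' : Ω → ℝ := fun ω => tru n (g ω) - O.indicator (fun _ => c / μ.real O) ω with hg'
  have hm' : Measurable g' := (hmL n).sub (measurable_const.indicator hO.meas)
  have hOi : Integrable (O.indicator (fun _ => c / μ.real O)) μ :=
    (integrable_const _).indicator hO.meas
  have hb' : ∃ b, ∀ ω, |g' ω| ≤ b := by
    refine ⟨n + |c / μ.real O|, fun ω => (abs_sub _ _).trans (add_le_add
      (abs_tru_le (Nat.cast_nonneg n) _) ?_)⟩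
    by_cases hω : ω ∈ O
    · rw [indicator_of_mem hω]
    · rw [indicator_of_notMem hω]; simp
  have hO' : ∀ ω, ω ∉ O → g' ω = 0 := by
    intro ω hω
    simp only [hg', hgO ω hω, indicator_of_notMem hω, sub_zero]
    rw [tru_eq (by simp)]
  have h0' : ∫ ω, g' ω ∂μ = 0 := by
    rw [hg', integral_sub (hiL n) hOi, integral_indicator_const _ hO.meas, smul_eq_mul,
      mul_div_cancel₀ _ hOr.ne']
    exact sub_self _
  obtain ⟨f, hf, hfb, hfi⟩ := approx_bdd h hq hO hm' hb' hO' h0' (show 0 < ε / 3 by positivity)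
  refine ⟨f, hf, hfb, ?_⟩
  obtain ⟨b, hb⟩ := hfb
  obtain ⟨b', hb'⟩ := hb'
  have i1 : Integrable (fun ω => |g ω - tru n (g ω)|) μ := (hgi.sub (hiL n)).abs
  have i2 : Integrable (fun ω => |O.indicator (fun _ => c / μ.real O) ω|) μ := hOi.abs
  have i3 : Integrable (fun ω => |g' ω - (f ω - Qr τ q f ω)|) μ :=
    Integrable.of_bound ((hm'.sub (hf.sub (measurable_Qr h hq hf))).abs).aestronglyMeasurable
      (b' + (b + b)) (Eventually.of_forall fun ω => by
        rw [Real.norm_eq_abs, abs_abs]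
        exact (abs_sub _ _).trans (add_le_add (hb' ω) ((abs_sub _ _).trans
          (add_le_add (hb ω) (Qr_bdd hq hb ω)))))
  have hle : ∀ ω, |g ω - (f ω - Qr τ q f ω)| ≤
      (|g ω - tru n (g ω)| + |O.indicator (fun _ => c / μ.real O) ω|) +
        |g' ω - (f ω - Qr τ q f ω)| := by
    intro ω
    have e : g ω - (f ω - Qr τ q f ω) = (g ω - tru n (g ω)) +
        O.indicator (fun _ => c / μ.real O) ω + (g' ω - (f ω - Qr τ q f ω)) := by
      simp only [hg']; ring
    rw [e]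
    exact (abs_add_le _ _).trans (add_le_add (abs_add_le _ _) le_rfl)
  refine (integral_mono_of_nonneg (Eventually.of_forall fun ω => abs_nonneg _)
    ((i1.add i2).add i3) (Eventually.of_forall hle)).trans ?_
  have e5 : ∫ ω, |O.indicator (fun _ => c / μ.real O) ω| ∂μ = |c| := by
    have : (fun ω => |O.indicator (fun _ => c / μ.real O) ω|) =
        O.indicator (fun _ => |c| / μ.real O) := by
      funext ω
      by_cases hω : ω ∈ O
      · rw [indicator_of_mem hω, indicator_of_mem hω, abs_div, abs_of_pos hOr]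
      · rw [indicator_of_notMem hω, indicator_of_notMem hω, abs_zero]
    rw [this, integral_indicator_const _ hO.meas, smul_eq_mul, mul_div_cancel₀ _ hOr.ne']
  have e6 : ∫ ω, ((|g ω - tru n (g ω)| + |O.indicator (fun _ => c / μ.real O) ω|) +
        |g' ω - (f ω - Qr τ q f ω)|) ∂μ =
      ∫ ω, |g ω - tru n (g ω)| ∂μ + ∫ ω, |O.indicator (fun _ => c / μ.real O) ω| ∂μ +
        ∫ ω, |g' ω - (f ω - Qr τ q f ω)| ∂μ := by
    rw [integral_add (f := fun ω => |g ω - tru n (g ω)| + |O.indicator (fun _ => c / μ.real O) ω|)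
      (i1.add i2) i3, integral_add i1 i2]
  show ∫ ω, ((|g ω - tru n (g ω)| + |O.indicator (fun _ => c / μ.real O) ω|) +
        |g' ω - (f ω - Qr τ q f ω)|) ∂μ ≤ ε
  rw [e6, e5]
  linarith

end Pool.Agent.H979.QIP
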