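import Pool.Agent.H979.QIP.Heat
import Pool.Agent.H979.QIP.QAvg

set_option autoImplicit false
set_option linter.unusedSectionVars false
set_option linter.deprecated false
set_option linter.unusedVariables false
set_option linter.style.haveILetI false

open MeasureTheory ProbabilityTheory Filter Topology Set
open scoped ENNReal NNReal

/-!
# The heat kernel of the walk observed at the ends of the runs
-/

namespace Pool.Agent.H979.QIP

section chain

variable {X : Type*} [Countable X] [MeasurableSpace X] [MeasurableSingletonClass X]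
  (q : X → Measure X) [∀ x, IsProbabilityMeasure (q x)]

theorem K_eq (f : X → ℝ≥0∞) (x : X) : K q f x = ∑' y, q x {y} * f y := by
  unfold K
  rw [lintegral_countable']
  exact tsum_congr fun y => mul_comm _ _

/-- the heat kernel -/
noncomputable def pk (m : ℕ) (z : X) : X → ℝ≥0∞ := (K q)^[m] (({z} : Set X).indicator 1)

theorem pk_zero (z : X) : pk q 0 z = ({z} : Set X).indicator 1 := rfl

theorem pk_succ (m : ℕ) (z : X) : pk q (m + 1) z = K q (pk q m z) :=
  Function.iterate_succ_apply' _ _ _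

variable {q}

theorem K_sa (hq : ∀ x y, q x {y} = q y {x}) (f g : X → ℝ≥0∞) :
    ∑' x, f x * K q g x = ∑' x, K q f x * g x := by
  simp_rw [K_eq, ← ENNReal.tsum_mul_left, ← ENNReal.tsum_mul_right]
  rw [ENNReal.tsum_comm]
  refine tsum_congr fun x => tsum_congr fun y => ?_
  rw [hq y x]
  ring

theorem K_iter_sa (hq : ∀ x y, q x {y} = q y {x}) (m : ℕ) (f g : X → ℝ≥0∞) :
    ∑' x, f x * (K q)^[m] g x = ∑' x, (K q)^[m] f x * g x := by
  induction m generalizing f with
  | zero => rfl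
  | succ m ih => rw [Function.iterate_succ_apply', K_sa hq, ih, ← Function.iterate_succ_apply (K q) m f]

theorem tsum_ind (z : X) (f : X → ℝ≥0∞) : ∑' x, ({z} : Set X).indicator 1 x * f x = f z := by
  rw [tsum_eq_single z]
  · simp
  · intro x hx
    simp [hx]

theorem sum_pk (hq : ∀ x y, q x {y} = q y {x}) (m : ℕ) (z : X) (f : X → ℝ≥0∞) :
    ∑' x, pk q m z x * f x = (K q)^[m] f z := by
  unfold pk
  rw [← K_iter_sa hq, tsum_ind]

theorem pk_symm (hq : ∀ x y, q x {y} = q y {x}) (m : ℕ) (z x : X) : pk q m z x = pk q m x z := by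
  have h1 := sum_pk hq m z (({x} : Set X).indicator 1)
  have h2 : ∑' y, pk q m z y * (({x} : Set X).indicator 1) y = pk q m z x := by
    simp_rw [mul_comm (pk q m z _)]
    exact tsum_ind x (pk q m z)
  rw [← h2, h1]
  rfl

theorem pk_mass (hq : ∀ x y, q x {y} = q y {x}) (m : ℕ) (z : X) : ∑' x, pk q m z x = 1 := by
  have h1 := sum_pk hq m z (fun _ => 1)
  simp only [mul_one] at h1
  rw [h1]
  clear h1
  induction m with
  | zero => rfl
  | succ m ih =>
    rw [Function.iterate_succ_apply]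
    have : K q (fun _ => (1 : ℝ≥0∞)) = fun _ => 1 := by
      funext x
      unfold K
      rw [lintegral_const, measure_univ, one_mul]
    rw [this, ih]

theorem pk_le_one (hq : ∀ x y, q x {y} = q y {x}) (m : ℕ) (z x : X) : pk q m z x ≤ 1 := by
  rw [← pk_mass hq m z]
  exact ENNReal.le_tsum x

theorem pk_law (hq : ∀ x y, q x {y} = q y {x}) (m : ℕ) (z x : X) :
    P q z {w | w m = x} = pk q m z x := by
  have h1 := lintegral_coord q m z (({x} : Set X).indicator 1)
  have h2 : ∫⁻ w, ({x} : Set X).indicator (1 : X → ℝ≥0∞) (w m) ∂(P q z) = P q z {w | w m = x} := by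
    have hms : MeasurableSet {w : ℕ → X | w m = x} :=
      measurableSet_eq_fun (measurable_pi_apply m) measurable_const
    rw [← lintegral_indicator_one hms]
    refine lintegral_congr fun w => ?_
    by_cases hw : w m = x
    · rw [indicator_of_mem (show w m ∈ ({x} : Set X) from hw),
        indicator_of_mem (show w ∈ {w : ℕ → X | w m = x} from hw)]
      rfl
    · rw [indicator_of_notMem (show w m ∉ ({x} : Set X) from hw),
        indicator_of_notMem (show w ∉ {w : ℕ → X | w m = x} from hw)]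
  rw [← h2, h1, pk_symm hq]
  rfl

theorem pk_add (hq : ∀ x y, q x {y} = q y {x}) (k l : ℕ) (z x : X) :
    pk q (k + l) z x = ∑' y, pk q k z y * pk q l x y := by
  rw [sum_pk hq, pk_symm hq]
  unfold pk
  rw [Function.iterate_add_apply]

theorem law_sum (m : ℕ) (z : X) (f : X → ℝ≥0∞) (hq : ∀ x y, q x {y} = q y {x}) :
    ∫⁻ w, f (w m) ∂(P q z) = ∑' x, pk q m z x * f x := by
  rw [lintegral_coord, sum_pk hq]

end chain

variable {Ω : Type*} [MeasurableSpace Ω] {d : ℕ} {μ : Measure Ω} {τ : Vd d → Ω → Ω}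
  {c : Ω → Vd d → ℝ≥0∞}

/-- real conductances in the environment -/
noncomputable def cr (τ : Vd d → Ω → Ω) (c : Ω → Vd d → ℝ≥0∞) (ω : Ω) (x y : Vd d) : ℝ :=
  (c (τ x ω) (y - x)).toReal

theorem tsum_shift (x : Vd d) (f : Vd d → ℝ≥0∞) : ∑' y, f (y - x) = ∑' s, f s :=
  (Equiv.subRight x).tsum_eq f

theorem c_ne_top (hc : RC τ c) (ω : Ω) (s : Vd d) : c ω s ≠ ∞ :=
  ne_top_of_le_ne_top (hc.fin ω) (ENNReal.le_tsum s)

theorem nw_cr (h : Sta μ τ) (hc : RC τ c) (ω : Ω) : Nw (cr τ c ω) where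
  nn x y := ENNReal.toReal_nonneg
  sy x y := by
    unfold cr
    rw [hc.symm, h.add]
    congr 3
    · abel
    · abel
  su x := by
    unfold cr
    refine ENNReal.summable_toReal ?_
    rw [tsum_shift x (c (τ x ω))]
    exact hc.fin _

theorem Dr_cr (hc : RC τ c) (ω : Ω) (x : Vd d) : Dr (cr τ c ω) x = (Dg c (τ x ω)).toReal := by
  unfold Dr cr Dg
  rw [← tsum_shift x (c (τ x ω)), ENNReal.tsum_toReal_eq fun y => c_ne_top hc _ _]

/-- the resolvent equation for functions on the lattice -/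
theorem K_first (h : Sta μ τ) (hc : RC τ c) (ω : Ω) (f : Vd d → ℝ≥0∞) (x : Vd d) :
    haveI := qM_prob (ker_qr h hc) ω
    (1 + Dg c (τ x ω)) * K (qM τ (qr τ c) ω) f x =
      f x + ∑' y, c (τ x ω) (y - x) * K (qM τ (qr τ c) ω) f y := by
  haveI := qM_prob (ker_qr h hc) ω
  have e1 : ∀ x, K (qM τ (qr τ c) ω) f x = ∑' l : List (Vd d), kp τ c (τ x ω) l * f (x + l.sum) := by
    intro x
    unfold K
    rw [lintegral_qM, tsum_qr (τ x ω) (fun y => f (x + y))]
  rw [e1 x, kp_first (τ x ω) (fun l => f (x + l.sum)), ← mul_assoc, mul_inv_one_add (hc.fin _),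
    one_mul, List.sum_nil, add_zero]
  congr 1
  rw [← tsum_shift x]
  refine tsum_congr fun y => ?_
  rw [e1 y, h.add, add_sub_cancel]
  congr 1
  refine tsum_congr fun l => ?_
  rw [List.sum_cons]
  congr 2
  abel

/-- the total conductance has finite mean along the path -/
def DFin (τ : Vd d → Ω → Ω) (c : Ω → Vd d → ℝ≥0∞) (ω : Ω) : Prop :=
  ∀ m z, (K (qM τ (qr τ c) ω))^[m] (fun x => Dg c (τ x ω)) z ≠ ∞

theorem st_pk (h : Sta μ τ) (hc : RC τ c) {ω : Ω} (hD : DFin τ c ω) (m : ℕ) (z : Vd d) :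
    St (cr τ c ω) (fun x => (pk (qM τ (qr τ c) ω) m z x).toReal)
      (fun x => (pk (qM τ (qr τ c) ω) (m + 1) z x).toReal) := by
  haveI := qM_prob (ker_qr h hc) ω
  have hsy : ∀ x y, qM τ (qr τ c) ω x {y} = qM τ (qr τ c) ω y {x} := qM_symm h (ker_qr h hc) ω
  have hnt : ∀ m z x, pk (qM τ (qr τ c) ω) m z x ≠ ∞ := fun m z x =>
    ne_top_of_le_ne_top ENNReal.one_ne_top (pk_le_one hsy m z x)
  have hsum : ∀ m, Summable (fun x => (pk (qM τ (qr τ c) ω) m z x).toReal) := fun m =>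
    ENNReal.summable_toReal (by rw [pk_mass hsy]; exact ENNReal.one_ne_top)
  have hDs : ∑' x, Dg c (τ x ω) * pk (qM τ (qr τ c) ω) (m + 1) z x ≠ ∞ := by
    have := sum_pk hsy (m + 1) z (fun x => Dg c (τ x ω))
    simp_rw [mul_comm (Dg c _)]
    rw [this]
    exact hD _ _
  refine ⟨fun x => ENNReal.toReal_nonneg, fun x => ENNReal.toReal_nonneg, hsum m, hsum (m + 1),
    ?_, fun x => ?_⟩
  · have := ENNReal.summable_toReal hDs
    refine this.congr fun x => ?_
    rw [ENNReal.toReal_mul, Dr_cr hc]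
  · have h1 := K_first h hc ω (pk (qM τ (qr τ c) ω) m z) x
    rw [← pk_succ] at h1
    have h2 := congrArg ENNReal.toReal h1
    have hne : ∑' y, c (τ x ω) (y - x) * pk (qM τ (qr τ c) ω) (m + 1) z y ≠ ∞ := by
      have h3 : ∑' y, c (τ x ω) (y - x) * pk (qM τ (qr τ c) ω) (m + 1) z y ≤
          ∑' y, c (τ x ω) (y - x) := ENNReal.tsum_le_tsum fun y => by
        calc _ ≤ c (τ x ω) (y - x) * 1 := mul_le_mul' le_rfl (pk_le_one hsy _ _ _)
          _ = _ := mul_one _
      refine ne_top_of_le_ne_top ?_ h3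
      rw [tsum_shift x (c (τ x ω))]
      exact hc.fin _
    rw [ENNReal.toReal_mul, ENNReal.toReal_add ENNReal.one_ne_top (hc.fin _),
      ENNReal.toReal_add (hnt _ _ _) hne, ENNReal.toReal_one,
      ENNReal.tsum_toReal_eq (fun y => ENNReal.mul_ne_top (c_ne_top hc _ _) (hnt _ _ _))] at h2
    rw [Dr_cr hc, h2]
    congr 1
    refine tsum_congr fun y => ?_
    rw [ENNReal.toReal_mul]
    rfl

/-- the walk stays on the active set -/
theorem pk_inact (h : Sta μ τ) (hc : RC τ c) {O : Set Ω}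
    (hinv : ∀ ω y, qr τ c ω y ≠ 0 → (τ y ω ∈ O ↔ ω ∈ O)) {ω : Ω} {z : Vd d} (hz : τ z ω ∈ O)
    (m : ℕ) {x : Vd d} (hx : τ x ω ∉ O) : pk (qM τ (qr τ c) ω) m z x = 0 := by
  haveI := qM_prob (ker_qr h hc) ω
  induction m generalizing x with
  | zero =>
    rw [pk_zero, indicator_of_notMem]
    intro hxz
    rw [mem_singleton_iff] at hxz
    exact hx (by rw [hxz]; exact hz)
  | succ m ih =>
    rw [pk_succ, K_eq, ENNReal.tsum_eq_zero]
    intro y
    by_cases hy : τ y ω ∈ O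
    · rw [qM_apply]
      have : qr τ c (τ x ω) (y - x) = 0 := by
        by_contra hne
        have := hinv (τ x ω) (y - x) hne
        rw [h.add, add_sub_cancel] at this
        exact hx (this.1 hy)
      rw [this, zero_mul]
    · rw [ih hy, mul_zero]

theorem sq_bound (hd : 2 ≤ d) (h : Sta μ τ) (hc : RC τ c) {O : Set Ω}
    (hinv : ∀ ω y, qr τ c ω y ≠ 0 → (τ y ω ∈ O ↔ ω ∈ O)) {ω : Ω} (hD : DFin τ c ω)
    {nx : Fin d → Vd d → Vd d} (hL : Lines (cr τ c ω) {x | τ x ω ∈ O} nx) {z : Vd d}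
    (hz : τ z ω ∈ O) {m : ℕ} (hm : 1 ≤ m) :
    ∑' x, (pk (qM τ (qr τ c) ω) m z x).toReal ^ 2 ≤ dB d / √m ^ d := by
  haveI := qM_prob (ker_qr h hc) ω
  have hsy : ∀ x y, qM τ (qr τ c) ω x {y} = qM τ (qr τ c) ω y {x} := qM_symm h (ker_qr h hc) ω
  set p : ℕ → Vd d → ℝ := fun m x => (pk (qM τ (qr τ c) ω) m z x).toReal with hp
  have hst : ∀ m, St (cr τ c ω) (p m) (p (m + 1)) := fun m => st_pk h hc hD m z
  have hnw := nw_cr h hc ω
  have hp0 : ∀ m x, 0 ≤ p m x := fun m x => ENNReal.toReal_nonneg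
  have hp1 : ∀ m x, p m x ≤ 1 := fun m x => by
    have := ENNReal.toReal_mono ENNReal.one_ne_top (pk_le_one hsy m z x)
    rwa [ENNReal.toReal_one] at this
  have hps : ∀ m, Summable (p m) := fun m =>
    ENNReal.summable_toReal (by rw [pk_mass hsy]; exact ENNReal.one_ne_top)
  have hpm : ∀ m, ∑' x, p m x = 1 := fun m => by
    have := congrArg ENNReal.toReal (pk_mass hsy m z)
    rw [ENNReal.tsum_toReal_eq fun x => ne_top_of_le_ne_top ENNReal.one_ne_top
      (pk_le_one hsy m z x), ENNReal.toReal_one] at this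
    exact this
  have hs2 : ∀ m, Summable (fun x => p m x ^ 2) := fun m => Summable.of_nonneg_of_le
    (fun x => sq_nonneg _) (fun x => by nlinarith [hp0 m x, hp1 m x]) (hps m)
  refine decay hd (a := fun m => ∑' x, p m x ^ 2) (fun m => tsum_nonneg fun x => sq_nonneg _)
    (fun m => ?_) (fun m => ?_) hm
  · rw [← hpm m]
    exact (hs2 m).tsum_le_tsum (fun x => by nlinarith [hp0 m x, hp1 m x]) (hps m)
  · obtain ⟨hE, h1⟩ := (hst m).energy hnw (hp1 (m + 1)) (hp1 m)
    have h2 := nash hd hL hnw (u := p (m + 1)) (hp0 _) (hps _) (hpm _).le (hs2 _)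
      (fun x hx => by
        simp only [hp]
        rw [pk_inact h hc hinv hz (m + 1) hx, ENNReal.toReal_zero]) hE
    linarith

theorem heat_bound (hd : 2 ≤ d) (h : Sta μ τ) (hc : RC τ c) {O : Set Ω}
    (hinv : ∀ ω y, qr τ c ω y ≠ 0 → (τ y ω ∈ O ↔ ω ∈ O)) {ω : Ω} (hD : DFin τ c ω)
    {nx : Fin d → Vd d → Vd d} (hL : Lines (cr τ c ω) {x | τ x ω ∈ O} nx) {z : Vd d}
    (hz : τ z ω ∈ O) {m : ℕ} (hm : 1 ≤ m) (x : Vd d) :
    pk (qM τ (qr τ c) ω) m z x ≤ ENNReal.ofReal (dB d * √3 ^ d / √m ^ d) := by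
  haveI := qM_prob (ker_qr h hc) ω
  have hsy : ∀ x y, qM τ (qr τ c) ω x {y} = qM τ (qr τ c) ω y {x} := qM_symm h (ker_qr h hc) ω
  by_cases hx : τ x ω ∈ O
  swap
  · rw [pk_inact h hc hinv hz m hx]; exact zero_le
  have hB := dB_one hd
  have h3 : (1 : ℝ) ≤ √3 := by rw [Real.one_le_sqrt]; norm_num
  rcases hm.eq_or_lt with rfl | hm2
  · refine (pk_le_one hsy 1 z x).trans ?_
    rw [← ENNReal.ofReal_one]
    refine ENNReal.ofReal_le_ofReal ?_
    simp only [Nat.cast_one, Real.sqrt_one, one_pow, div_one]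
    have : 1 ≤ √3 ^ d := one_le_pow₀ h3
    nlinarith
  set k := m / 2 with hk
  set l := m - k with hl
  have hk1 : 1 ≤ k := by omega
  have hkl : k ≤ l := by omega
  have hkm : m ≤ 3 * k := by omega
  have hml : m = k + l := by omega
  have hs2 : ∀ m z, Summable (fun x => (pk (qM τ (qr τ c) ω) m z x).toReal ^ 2) := by
    intro m z
    have hps : Summable (fun x => (pk (qM τ (qr τ c) ω) m z x).toReal) :=
      ENNReal.summable_toReal (by rw [pk_mass hsy]; exact ENNReal.one_ne_top)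
    refine Summable.of_nonneg_of_le (fun x => sq_nonneg _) (fun x => ?_) hps
    have h0 : 0 ≤ (pk (qM τ (qr τ c) ω) m z x).toReal := ENNReal.toReal_nonneg
    have h1 := ENNReal.toReal_mono ENNReal.one_ne_top (pk_le_one hsy m z x)
    rw [ENNReal.toReal_one] at h1
    nlinarith
  have hbd : ∀ j, k ≤ j → ∀ z, τ z ω ∈ O → ∑' y, ENNReal.ofReal
      ((pk (qM τ (qr τ c) ω) j z y).toReal ^ 2) ≤ ENNReal.ofReal (dB d * √3 ^ d / √m ^ d) := by
    intro j hj z hz
    rw [← ENNReal.ofReal_tsum_of_nonneg (fun y => sq_nonneg _) (hs2 j z)]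
    refine ENNReal.ofReal_le_ofReal ((sq_bound hd h hc hinv hD hL hz (hk1.trans hj)).trans ?_)
    have hm0 : (0 : ℝ) < m := by exact_mod_cast (show 0 < m by omega)
    have hj0 : (0 : ℝ) < j := by exact_mod_cast (show 0 < j by omega)
    have h4 : √(m : ℝ) ≤ √3 * √(j : ℝ) := by
      rw [← Real.sqrt_mul (by norm_num)]
      refine Real.sqrt_le_sqrt ?_
      exact_mod_cast (show m ≤ 3 * j by omega)
    rw [div_le_div_iff₀ (by positivity) (by positivity), mul_assoc]
    refine mul_le_mul_of_nonneg_left ?_ (by linarith)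
    rw [← mul_pow]
    exact pow_le_pow_left₀ (Real.sqrt_nonneg _) h4 d
  rw [hml, pk_add hsy, ← hml]
  have hpt : ∀ y, 2 * (pk (qM τ (qr τ c) ω) k z y * pk (qM τ (qr τ c) ω) l x y) ≤
      ENNReal.ofReal ((pk (qM τ (qr τ c) ω) k z y).toReal ^ 2) +
      ENNReal.ofReal ((pk (qM τ (qr τ c) ω) l x y).toReal ^ 2) := by
    intro y
    have e : ∀ a : ℝ≥0∞, a ≠ ∞ → ENNReal.ofReal (a.toReal ^ 2) = a ^ 2 := fun a ha => by
      rw [ENNReal.ofReal_pow ENNReal.toReal_nonneg, ENNReal.ofReal_toReal ha]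
    rw [e _ (ne_top_of_le_ne_top ENNReal.one_ne_top (pk_le_one hsy _ _ _)),
      e _ (ne_top_of_le_ne_top ENNReal.one_ne_top (pk_le_one hsy _ _ _))]
    exact two_mul_le' _ _
  have h5 : 2 * ∑' y, pk (qM τ (qr τ c) ω) k z y * pk (qM τ (qr τ c) ω) l x y ≤
      2 * ENNReal.ofReal (dB d * √3 ^ d / √m ^ d) := by
    rw [← ENNReal.tsum_mul_left]
    refine (ENNReal.tsum_le_tsum hpt).trans ?_
    rw [ENNReal.tsum_add, two_mul]
    exact add_le_add (hbd k le_rfl z hz) (hbd l hkl x hx)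
  exact (ENNReal.mul_le_mul_iff_right (by norm_num) (by norm_num)).1 h5

end Pool.Agent.H979.QIP
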