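import Pool.Agent.H979.QIP.Neg

set_option autoImplicit false
set_option linter.unusedSectionVars false
set_option linter.deprecated false
set_option linter.unusedVariables false
set_option linter.style.haveILetI false

open MeasureTheory ProbabilityTheory Filter Topology Set
open scoped ENNReal NNReal

/-!
# The joint law of the environment and of the first jump
-/

namespace Pool.Agent.H979.QIP

variable {Ω : Type*} [MeasurableSpace Ω] {d : ℕ} {μ : Measure Ω} {τ : Vd d → Ω → Ω}
  {q : Ω → Vd d → ℝ≥0∞}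

theorem qM_zero (h : Sta μ τ) (ω : Ω) : qM τ q ω 0 = Measure.sum fun y => q ω y • Measure.dirac y := by
  unfold qM
  simp [h.zero]

theorem lintegral_qM_zero (h : Sta μ τ) (ω : Ω) (f : Vd d → ℝ≥0∞) :
    ∫⁻ y, f y ∂(qM τ q ω 0) = ∑' y, q ω y * f y := by
  rw [lintegral_qM]
  simp [h.zero]

theorem qM_set (ω : Ω) (x : Vd d) (B : Set (Vd d)) :
    qM τ q ω x B = ∑' y, q (τ x ω) y * B.indicator 1 (x + y) := by
  rw [← lintegral_qM, lintegral_indicator_one (MeasurableSet.of_discrete)]

theorem measurable_qM (h : Sta μ τ) (hq : Ker τ q) (x : Vd d) :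
    Measurable (fun ω => qM τ q ω x) := by
  refine Measure.measurable_of_measurable_coe _ fun B _ => ?_
  simp_rw [qM_set]
  exact Measurable.tsum fun y => ((hq.meas y).comp (h.pres x).measurable).mul_const _

/-- the jump kernel -/
noncomputable def kap (h : Sta μ τ) (hq : Ker τ q) : Kernel Ω (Vd d) :=
  ⟨fun ω => qM τ q ω 0, measurable_qM h hq 0⟩

theorem kap_apply (h : Sta μ τ) (hq : Ker τ q) (ω : Ω) : kap h hq ω = qM τ q ω 0 := rfl

instance kap_markov (h : Sta μ τ) (hq : Ker τ q) : IsMarkovKernel (kap h hq) :=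
  ⟨fun ω => qM_prob hq ω 0⟩

/-- the joint law -/
noncomputable def nu (h : Sta μ τ) (hq : Ker τ q) : Measure (Ω × Vd d) := μ ⊗ₘ (kap h hq)

variable [IsProbabilityMeasure μ]

instance nu_prob (h : Sta μ τ) (hq : Ker τ q) : IsProbabilityMeasure (nu h hq) := by
  unfold nu; infer_instance

theorem lintegral_nu (h : Sta μ τ) (hq : Ker τ q) {F : Ω × Vd d → ℝ≥0∞} (hF : Measurable F) :
    ∫⁻ p, F p ∂(nu h hq) = ∫⁻ ω, ∑' y, q ω y * F (ω, y) ∂μ := by
  unfold nu
  rw [Measure.lintegral_compProd hF]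
  refine lintegral_congr fun ω => ?_
  rw [kap_apply, lintegral_qM_zero h]

theorem measurable_T2 (h : Sta μ τ) : Measurable (fun p : Ω × Vd d => τ p.2 p.1) :=
  measurable_from_prod_countable_left fun y => (h.pres y).measurable

theorem measurable_flip (h : Sta μ τ) : Measurable (fun p : Ω × Vd d => (τ p.2 p.1, -p.2)) :=
  (measurable_T2 h).prodMk (measurable_snd.neg)

theorem mp_fst (h : Sta μ τ) (hq : Ker τ q) : MeasurePreserving Prod.fst (nu h hq) μ :=
  ⟨measurable_fst, by
    have := Measure.fst_compProd μ (kap h hq)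
    exact this⟩

theorem mp_T2 (h : Sta μ τ) (hq : Ker τ q) :
    MeasurePreserving (fun p : Ω × Vd d => τ p.2 p.1) (nu h hq) μ := by
  refine ⟨measurable_T2 h, ?_⟩
  ext A hA
  rw [Measure.map_apply (measurable_T2 h) hA, ← lintegral_indicator_one ((measurable_T2 h) hA),
    lintegral_nu h hq (measurable_one.indicator ((measurable_T2 h) hA))]
  have h1 := lintegral_Qo h hq (f := A.indicator 1) (measurable_one.indicator hA)
  rw [lintegral_indicator_one hA] at h1
  rw [← h1]
  rfl

theorem mp_flip (h : Sta μ τ) (hq : Ker τ q) :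
    MeasurePreserving (fun p : Ω × Vd d => (τ p.2 p.1, -p.2)) (nu h hq) (nu h hq) := by
  refine ⟨measurable_flip h, ?_⟩
  ext A hA
  have hm1 : Measurable (((fun p : Ω × Vd d => (τ p.2 p.1, -p.2)) ⁻¹' A).indicator
      (1 : Ω × Vd d → ℝ≥0∞)) := measurable_one.indicator ((measurable_flip h) hA)
  have hm2 : Measurable (A.indicator (1 : Ω × Vd d → ℝ≥0∞)) := measurable_one.indicator hA
  rw [Measure.map_apply (measurable_flip h) hA, ← lintegral_indicator_one ((measurable_flip h) hA),
    lintegral_nu h hq hm1, ← lintegral_indicator_one hA, lintegral_nu h hq hm2]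
  have h1 := h.mtp (F := fun ω y => q ω y * A.indicator 1 (ω, y)) fun y =>
    (hq.meas y).mul (hm2.comp (measurable_id.prodMk measurable_const))
  rw [← h1]
  refine lintegral_congr fun ω => tsum_congr fun y => ?_
  rw [← hq.symm]
  rfl

theorem ae_nu (h : Sta μ τ) (hq : Ker τ q) {pr : Ω → Vd d → Prop}
    (hpr : ∀ᵐ p ∂(nu h hq), pr p.1 p.2) : ∀ᵐ ω ∂μ, ∀ y, q ω y ≠ 0 → pr ω y := by
  have h1 := Measure.ae_ae_of_ae_compProd (μ := μ) (κ := kap h hq) hpr
  filter_upwards [h1] with ω hω y hy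
  rw [kap_apply] at hω
  by_contra hcon
  have h2 : qM τ q ω 0 {y | ¬ pr ω y} = 0 := hω
  have h3 : qM τ q ω 0 {y} = 0 := measure_mono_null (by simpa using hcon) h2
  rw [qM_apply, h.zero, sub_zero] at h3
  exact hy h3

theorem ae_nu' (h : Sta μ τ) (hq : Ker τ q) {pr : Ω → Vd d → Prop}
    (hm : MeasurableSet {p : Ω × Vd d | pr p.1 p.2})
    (hpr : ∀ᵐ ω ∂μ, ∀ y, q ω y ≠ 0 → pr ω y) : ∀ᵐ p ∂(nu h hq), pr p.1 p.2 := by
  show nu h hq {p | pr p.1 p.2}ᶜ = 0
  rw [← lintegral_indicator_one hm.compl, lintegral_nu h hq (measurable_one.indicator hm.compl)]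
  rw [lintegral_eq_zero_iff' ]
  · filter_upwards [hpr] with ω hω
    simp only [Pi.zero_apply, ENNReal.tsum_eq_zero, mul_eq_zero]
    intro y
    by_cases hy : q ω y = 0
    · left; exact hy
    · right
      rw [indicator_of_notMem]
      simpa using hω y hy
  · exact (Measurable.tsum fun y => (hq.meas y).mul
      ((measurable_one.indicator hm.compl).comp (measurable_id.prodMk measurable_const))).aemeasurable

/-- a property of almost all environments holds at all the translates -/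
theorem ae_all (h : Sta μ τ) {pr : Ω → Prop} (hpr : ∀ᵐ ω ∂μ, pr ω) : ∀ᵐ ω ∂μ, ∀ x, pr (τ x ω) := by
  rw [ae_all_iff]
  exact fun x => (h.pres x).quasiMeasurePreserving.ae hpr

/-- the operator on real functions -/
noncomputable def Qr (τ : Vd d → Ω → Ω) (q : Ω → Vd d → ℝ≥0∞) (f : Ω → ℝ) (ω : Ω) : ℝ :=
  ∫ y, f (τ y ω) ∂(qM τ q ω 0)

theorem measurable_Qr (h : Sta μ τ) (hq : Ker τ q) {f : Ω → ℝ} (hf : Measurable f) :
    Measurable (Qr τ q f) := by
  have h1 : StronglyMeasurable (fun p : Ω × Vd d => f (τ p.2 p.1)) :=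
    (hf.comp (measurable_T2 h)).stronglyMeasurable
  have := h1.integral_kernel_prod_right' (κ := kap h hq)
  exact this.measurable

theorem Qr_bdd (hq : Ker τ q) {f : Ω → ℝ} {c : ℝ} (hf : ∀ ω, |f ω| ≤ c) (ω : Ω) :
    |Qr τ q f ω| ≤ c := by
  haveI := qM_prob hq ω 0
  have h1 := norm_integral_le_of_norm_le_const (μ := qM τ q ω 0) (f := fun y => f (τ y ω))
    (C := c) (Eventually.of_forall fun y => hf _)
  simpa [Qr] using h1

end Pool.Agent.H979.QIP
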