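import Pool.Agent.H979.QIP.QAvg2

set_option autoImplicit false
set_option linter.unusedSectionVars false
set_option linter.deprecated false
set_option linter.unusedVariables false
set_option linter.style.haveILetI false

open MeasureTheory ProbabilityTheory Filter Topology Set
open scoped ENNReal NNReal

/-!
# Product environments: stationarity and ergodicity of the shifts
-/

namespace Pool.Agent.H979.QIP

variable {ι X : Type*} [MeasurableSpace X] {d : ℕ}

/-- an action of the lattice on the index set -/
structure Acts (sh : Vd d → ι → ι) : Prop where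
  zero : ∀ e, sh 0 e = e
  add : ∀ x y e, sh x (sh y e) = sh (x + y) e

theorem Acts.inj {sh : Vd d → ι → ι} (hs : Acts sh) (x : Vd d) : Function.Injective (sh x) := by
  intro e e' he
  have h1 := congrArg (sh (-x)) he
  rwa [hs.add, hs.add, neg_add_cancel, hs.zero, hs.zero] at h1

/-- the shift -/
def shf (sh : Vd d → ι → ι) (x : Vd d) (η : ι → X) : ι → X := fun e => η (sh x e)

theorem sta_prod {sh : Vd d → ι → ι} (hs : Acts sh) (ν : ι → Measure X)
    [∀ i, IsProbabilityMeasure (ν i)] (hν : ∀ x e, ν (sh x e) = ν e) :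
    Sta (Measure.infinitePi ν) (shf sh) where
  zero η := by funext e; simp [shf, hs.zero]
  add x y η := by
    funext e
    simp only [shf]
    rw [hs.add]
  pres x := by
    refine ⟨measurable_pi_lambda _ fun e => measurable_pi_apply _, ?_⟩
    have h1 := Measure.map_infinitePi_infinitePi_of_inj (P := ν) (hs.inj x)
    have h2 : (fun i => ν (sh x i)) = ν := funext fun i => hν x i
    unfold shf
    rw [h1]
    simp only [hν]

theorem shf_iter {sh : Vd d → ι → ι} (hs : Acts sh) (v : Vd d) (n : ℕ) (η : ι → X) :
    (shf sh v)^[n] η = shf sh (n • v) η := by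
  induction n generalizing η with
  | zero =>
    funext e
    simp [shf, hs.zero]
  | succ n ih =>
    rw [Function.iterate_succ_apply, ih]
    funext e
    simp only [shf]
    rw [hs.add, succ_nsmul, add_comm]

theorem erg_prod {sh : Vd d → ι → ι} (hs : Acts sh) (ν : ι → Measure X)
    [∀ i, IsProbabilityMeasure (ν i)] (hν : ∀ x e, ν (sh x e) = ν e) (v : Vd d)
    (hv : ∀ S : Finset ι, ∃ n : ℕ, ∀ e ∈ S, ∀ e' ∈ S, sh (n • v) e ≠ e') :
    Ergodic (shf sh v) (Measure.infinitePi ν) := by
  classical
  set μ := Measure.infinitePi ν with hμ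
  have h := sta_prod hs ν hν
  refine ⟨h.pres v, ⟨fun A hA hinv => ?_⟩⟩
  have hinvn : ∀ n : ℕ, (shf sh (n • v)) ⁻¹' A = A := by
    intro n
    induction n with
    | zero =>
      ext η
      have : shf sh (0 • v) η = η := by rw [zero_smul]; exact h.zero η
      simp only [mem_preimage, this]
    | succ n ih =>
      ext η
      have e1 : shf sh ((n + 1) • v) η = shf sh v (shf sh (n • v) η) := by
        rw [h.add, succ_nsmul]
      rw [mem_preimage, e1, ← mem_preimage (f := shf sh v), hinv, ← mem_preimage (f := shf sh (n • v)),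
        ih]
  -- the estimate
  have key : ∀ ε : ℝ, 0 < ε → |μ.real A - μ.real A ^ 2| ≤ 4 * ε := by
    intro ε hε
    obtain ⟨B, hB, hBA⟩ := exists_measure_symmDiff_lt_of_generateFrom_isSetRing (μ := μ)
      (C := measurableCylinders (fun _ : ι => X)) isSetRing_measurableCylinders
      ⟨{univ}, countable_singleton _, by
        rw [singleton_subset_iff]; exact univ_mem_measurableCylinders _, by simp⟩
      generateFrom_measurableCylinders.symm hA (ENNReal.ofReal_pos.2 hε)
    obtain ⟨S, B₀, hB₀, rfl⟩ := (mem_measurableCylinders B).1 hB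
    obtain ⟨n, hn⟩ := hv S
    set B : Set (ι → X) := cylinder S B₀ with hBdef
    have hBm : MeasurableSet B := hB₀.cylinder S
    set B' : Set (ι → X) := (shf sh (n • v)) ⁻¹' B with hB'
    have hB'm : MeasurableSet B' := (h.pres (n • v)).measurable hBm
    set S' : Finset ι := S.image (sh (n • v)) with hS'
    have hdis : Disjoint S S' := by
      rw [Finset.disjoint_left]
      intro e he he'
      rw [hS', Finset.mem_image] at he'
      obtain ⟨e'', he'', hee⟩ := he'
      exact hn e'' he'' e he hee
    have hind := (iIndepFun_infinitePi (P := ν) (X := fun (_ : ι) (x : X) => x)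
      (fun _ => measurable_id)).indepFun_finset S S' hdis (fun i => measurable_pi_apply i)
    set g : (S' → X) → (S → X) := fun w e => w ⟨sh (n • v) e.1,
      Finset.mem_image_of_mem _ e.2⟩ with hg
    have hgm : Measurable g := measurable_pi_lambda _ fun e => measurable_pi_apply _
    have hmul : μ (B ∩ B') = μ B * μ B' := by
      have := hind.measure_inter_preimage_eq_mul B₀ (g ⁻¹' B₀) hB₀ (hgm hB₀)
      exact this
    have hμB' : μ B' = μ B := (h.pres (n • v)).measure_preimage hBm.nullMeasurableSet
    have hmulr : μ.real (B ∩ B') = μ.real B ^ 2 := by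
      rw [Measure.real, hmul, hμB', ENNReal.toReal_mul, sq]; rfl
    have hd1 : μ.real (symmDiff B A) ≤ ε := by
      exact ENNReal.toReal_le_of_le_ofReal hε.le hBA.le
    have hd2 : μ.real (symmDiff B' A) ≤ ε := by
      have e1 : symmDiff B' A = (shf sh (n • v)) ⁻¹' (symmDiff B A) := by
        rw [preimage_symmDiff, hinvn]
      rw [Measure.real, e1, (h.pres (n • v)).measure_preimage (hBm.symmDiff hA).nullMeasurableSet]
      exact hd1
    have hle : ∀ C D : Set (ι → X), μ.real C ≤ μ.real D + μ.real (symmDiff C D) := by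
      intro C D
      refine (measureReal_mono (fun w hw => ?_) (measure_ne_top _ _)).trans (measureReal_union_le _ _)
      by_cases hD : w ∈ D
      · exact Or.inl hD
      · exact Or.inr (Or.inl ⟨hw, hD⟩)
    have a1 := hle B A
    have a2 := hle A B
    rw [symmDiff_comm] at a2
    have hsub : symmDiff (B ∩ B') A ⊆ symmDiff B A ∪ symmDiff B' A := by
      rintro w (⟨⟨h1, h2⟩, h3⟩ | ⟨h1, h2⟩)
      · exact Or.inl (Or.inl ⟨h1, h3⟩)
      · by_cases h3 : w ∈ B
        · exact Or.inr (Or.inr ⟨h1, fun h4 => h2 ⟨h3, h4⟩⟩)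
        · exact Or.inl (Or.inr ⟨h1, h3⟩)
    have a3 : μ.real (symmDiff (B ∩ B') A) ≤ 2 * ε := by
      refine (measureReal_mono hsub (measure_ne_top _ _)).trans
        ((measureReal_union_le _ _).trans ?_)
      linarith
    have a4 := hle (B ∩ B') A
    have a5 := hle A (B ∩ B')
    rw [symmDiff_comm] at a5
    rw [hmulr] at a4 a5
    have b0 : 0 ≤ μ.real A := measureReal_nonneg
    have b1 : μ.real A ≤ 1 := measureReal_le_one
    have b2 : 0 ≤ μ.real B := measureReal_nonneg
    have b3 : μ.real B ≤ 1 := measureReal_le_one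
    rw [abs_le]
    constructor <;> nlinarith
  have hz : μ.real A - μ.real A ^ 2 = 0 := by
    by_contra hcon
    have h1 : 0 < |μ.real A - μ.real A ^ 2| := abs_pos.2 hcon
    have h2 := key (|μ.real A - μ.real A ^ 2| / 8) (by positivity)
    linarith
  have hz2 : μ.real A * (1 - μ.real A) = 0 := by linarith [hz, sq (μ.real A)]
  rw [eventuallyConst_set']
  rcases mul_eq_zero.1 hz2 with h1 | h1
  · left
    rw [ae_eq_empty]
    rw [Measure.real, ENNReal.toReal_eq_zero_iff] at h1
    exact h1.resolve_right (measure_ne_top _ _)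
  · right
    rw [ae_eq_univ, prob_compl_eq_zero_iff hA]
    have h2 : (μ A).toReal = 1 := by have : μ.real A = 1 := by linarith
                                     exact this
    rw [← ENNReal.toReal_one] at h2
    exact (ENNReal.toReal_eq_toReal_iff' (measure_ne_top _ _) ENNReal.one_ne_top).1 h2

theorem ergO_univ {Ω : Type*} [MeasurableSpace Ω] {μ : Measure Ω} [IsProbabilityMeasure μ]
    {τ : Vd d → Ω → Ω} {q : Ω → Vd d → ℝ≥0∞} {v : Vd d}
    (he : Ergodic (τ v) μ) (hqv : ∀ᵐ ω ∂μ, q ω v ≠ 0) : ErgO μ τ q univ where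
  meas := MeasurableSet.univ
  pos := by simp
  inv ω y _ := by simp
  erg f hf hinv := by
    have h1 : f ∘ (τ v) =ᵐ[μ] f := by
      filter_upwards [hinv, hqv] with ω h1 h2
      exact h1 v h2
    obtain ⟨a, ha⟩ := he.ae_eq_const_of_ae_eq_comp₀ hf.nullMeasurable h1
    exact ⟨a, ha.mono fun ω hω _ => hω⟩

end Pool.Agent.H979.QIP
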