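import Pool.Agent.H979.QIP.LRP0
import Pool.Agent.H979.QIP.Run2

set_option autoImplicit false
set_option linter.unusedSectionVars false
set_option linter.deprecated false
set_option linter.unusedVariables false
set_option linter.style.haveILetI false

open MeasureTheory ProbabilityTheory Filter Topology Set
open scoped ENNReal NNReal

/-!
# Long range percolation: the environment
-/

namespace Pool.Agent.H979.QIP

variable {d : ℕ}

/-- translation of edges -/
def esh (x : Vd d) (e : Sym2 (Vd d)) : Sym2 (Vd d) := e.map (fun y => y + x)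

theorem esh_mk (x a b : Vd d) : esh x s(a, b) = s(a + x, b + x) := rfl

theorem acts_esh : Acts (esh (d := d)) where
  zero e := by
    induction e with
    | _ a b => simp [esh_mk]
  add x y e := by
    induction e with
    | _ a b => rw [esh_mk, esh_mk, esh_mk, add_assoc, add_assoc, add_comm y x]

theorem esh_far (i : Fin d) (S : Finset (Sym2 (Vd d))) :
    ∃ n : ℕ, ∀ e ∈ S, ∀ e' ∈ S, esh (n • (Pi.single i 1 : Vd d)) e ≠ e' := by
  classical
  set f : Sym2 (Vd d) → ℕ := Sym2.lift ⟨fun a b => (a i).natAbs + (b i).natAbs, fun a b =>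
    add_comm _ _⟩ with hf
  set M := ∑ e ∈ S, f e with hM
  refine ⟨2 * M + 1, fun e he e' he' hee => ?_⟩
  have h1 : f e ≤ M := Finset.single_le_sum (f := f) (fun _ _ => Nat.zero_le _) he
  have h2 : f e' ≤ M := Finset.single_le_sum (f := f) (fun _ _ => Nat.zero_le _) he'
  induction e with
  | _ a b =>
    induction e' with
    | _ a' b' =>
      have h3 : f s(a, b) = (a i).natAbs + (b i).natAbs := rfl
      have h4 : f s(a', b') = (a' i).natAbs + (b' i).natAbs := rfl
      rw [esh_mk, Sym2.eq_iff] at hee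
      have h5 : ((2 * M + 1) • (Pi.single i 1 : Vd d)) i = 2 * M + 1 := by
        rw [Pi.smul_apply, Pi.single_eq_same]
        simp
      rcases hee with ⟨h6, _⟩ | ⟨h6, _⟩
      · have h7 := congrFun h6 i
        rw [Pi.add_apply, h5] at h7
        omega
      · have h7 := congrFun h6 i
        rw [Pi.add_apply, h5] at h7
        omega

/-- the environments -/
abbrev Env (d : ℕ) := Sym2 (Vd d) → Bool

/-- the conductances -/
noncomputable def cl (η : Env d) (y : Vd d) : ℝ≥0∞ := if y ≠ 0 ∧ η s(0, y) = true then 1 else 0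

theorem con_cl : Con (shf (esh (d := d))) (cl (d := d)) where
  meas y := by
    unfold cl
    refine Measurable.ite ?_ measurable_const measurable_const
    by_cases hy : y = 0
    · simp [hy]
    · simp only [ne_eq, hy, not_false_eq_true, true_and]
      have hm : Measurable (fun η : Env d => η s(0, y)) := measurable_pi_apply _
      exact hm (measurableSet_singleton true)
  symm η y := by
    unfold cl shf
    rw [esh_mk, zero_add, neg_add_cancel, Sym2.eq_swap]
    simp

theorem cl_shf (η : Env d) (x y : Vd d) :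
    cl (shf esh x η) (y - x) = if x ≠ y ∧ η s(x, y) = true then 1 else 0 := by
  unfold cl shf
  rw [esh_mk, zero_add, sub_add_cancel]
  congr 1
  simp only [ne_eq, sub_eq_zero, eq_iff_iff]
  rw [eq_comm (a := y)]

theorem Dg_shf (η : Env d) (x : Vd d) :
    (Dg cl (shf esh x η)).toReal = (({y : Vd d | y ≠ x ∧ η s(x, y) = true}.ncard : ℕ) : ℝ) := by
  classical
  have e1 : Dg cl (shf esh x η) = ∑' y, ({y : Vd d | y ≠ x ∧ η s(x, y) = true}).indicator
      (fun _ => (1 : ℝ≥0∞)) y := by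
    unfold Dg
    rw [← (Equiv.subRight x).tsum_eq]
    refine tsum_congr fun y => ?_
    show cl (shf esh x η) (y - x) = _
    rw [cl_shf, indicator_apply]
    simp only [mem_setOf_eq]
    congr 1
    rw [eq_iff_iff, ne_comm]
  rw [e1, ← tsum_subtype, ENNReal.tsum_set_one]
  set A : Set (Vd d) := {y : Vd d | y ≠ x ∧ η s(x, y) = true} with hA
  by_cases hf : A.Finite
  · rw [← hf.cast_ncard_eq]
    simp
  · have h1 : A.encard = ⊤ := Set.encard_eq_top (Set.not_finite.1 hf)
    rw [h1, Set.Infinite.ncard hf]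
    simp

theorem cl_le_one (η : Env d) (y : Vd d) : cl η y ≤ 1 := by unfold cl; split_ifs <;> simp

/-! ### the laws -/

section law

variable {ν : Sym2 (Vd d) → Measure Bool} [∀ e, IsProbabilityMeasure (ν e)]

theorem lintegral_cl (y : Vd d) :
    ∫⁻ η, cl η y ∂(Measure.infinitePi ν) ≤ ν s(0, y) {true} := by
  have hm : Measurable (fun η : Env d => η s(0, y)) := measurable_pi_apply _
  have h1 : ∀ η : Env d, cl η y ≤ ((fun η : Env d => η s(0, y)) ⁻¹' {true}).indicator 1 η := by
    intro η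
    by_cases h : η s(0, y) = true
    · rw [indicator_of_mem (show η ∈ (fun η : Env d => η s(0, y)) ⁻¹' {true} from h)]
      exact cl_le_one _ _
    · have : cl η y = 0 := by simp [cl, h]
      rw [this]; exact zero_le
  refine (lintegral_mono h1).trans (le_of_eq ?_)
  rw [lintegral_indicator_one (hm (measurableSet_singleton true))]
  conv_rhs => rw [← Measure.infinitePi_map_eval ν s(0, y)]
  rw [Measure.map_apply hm (measurableSet_singleton true)]

theorem lintegral_cl2 {y y' : Vd d} (hy : y ≠ y') :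
    ∫⁻ η, cl η y * cl η y' ∂(Measure.infinitePi ν) ≤ ν s(0, y) {true} * ν s(0, y') {true} := by
  by_cases hy0 : y = 0
  · have : ∀ η : Env d, cl η y * cl η y' = 0 := fun η => by simp [cl, hy0]
    simp [this]
  by_cases hy0' : y' = 0
  · have : ∀ η : Env d, cl η y * cl η y' = 0 := fun η => by simp [cl, hy0']
    simp [this]
  have hne : s((0 : Vd d), y) ≠ s(0, y') := by
    intro h
    rw [Sym2.eq_iff] at h
    rcases h with ⟨_, h⟩ | ⟨h, _⟩
    · exact hy h
    · exact hy0' h.symm
  set E := (fun η : Env d => (η s(0, y), η s(0, y'))) ⁻¹' ({true} ×ˢ {true}) with hE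
  have hm : Measurable (fun η : Env d => (η s(0, y), η s(0, y'))) :=
    (measurable_pi_apply _).prodMk (measurable_pi_apply _)
  have hms : MeasurableSet (({true} : Set Bool) ×ˢ ({true} : Set Bool)) :=
    (measurableSet_singleton true).prod (measurableSet_singleton true)
  have h1 : ∀ η : Env d, cl η y * cl η y' ≤ E.indicator 1 η := by
    intro η
    by_cases h : η ∈ E
    · rw [indicator_of_mem h]
      exact mul_le_one' (cl_le_one _ _) (cl_le_one _ _)
    · have h2 : cl η y * cl η y' = 0 := by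
        by_contra hcon
        apply h
        unfold cl at hcon
        simp only [hE, mem_preimage, mem_prod, mem_singleton_iff]
        by_cases h3 : η s(0, y) = true
        · by_cases h4 : η s(0, y') = true
          · exact ⟨h3, h4⟩
          · simp [h4] at hcon
        · simp [h3] at hcon
      rw [h2]; exact zero_le
  refine (lintegral_mono h1).trans (le_of_eq ?_)
  rw [lintegral_indicator_one (hm hms), ← Measure.map_apply hm hms,
    Measure.infinitePi_map_eval_prod hne, Measure.prod_prod]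

variable {P : Vd d → ℝ≥0∞} (hP : ∀ y, ν s(0, y) {true} ≤ P y)

include hP

theorem int_Vt : ∫⁻ η, Vt cl η ∂(Measure.infinitePi ν) ≤ ∑' y, P y * (sz y : ℝ≥0∞) ^ 2 := by
  unfold Vt
  rw [lintegral_tsum fun y => ((con_cl.meas y).mul_const _).aemeasurable]
  refine ENNReal.tsum_le_tsum fun y => ?_
  rw [lintegral_mul_const _ (con_cl.meas y)]
  exact mul_le_mul' ((lintegral_cl y).trans (hP y)) le_rfl

theorem int_Dg : ∫⁻ η, Dg cl η ∂(Measure.infinitePi ν) ≤ ∑' y, P y := by
  unfold Dg
  rw [lintegral_tsum fun y => (con_cl.meas y).aemeasurable]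
  exact ENNReal.tsum_le_tsum fun y => (lintegral_cl y).trans (hP y)

theorem int_bt : ∫⁻ η, bt cl η ^ 2 ∂(Measure.infinitePi ν) ≤
    ∑' y, P y * (sz y : ℝ≥0∞) ^ 2 + (∑' y, P y * (sz y : ℝ≥0∞)) ^ 2 := by
  classical
  have e1 : ∀ η : Env d, bt cl η ^ 2 = ∑' y, ∑' y', cl η y * cl η y' * (sz y * sz y') := by
    intro η
    unfold bt
    rw [sq, ← ENNReal.tsum_mul_right]
    refine tsum_congr fun y => ?_
    rw [← ENNReal.tsum_mul_left]
    exact tsum_congr fun y' => by ring
  have hm : ∀ y y' : Vd d, Measurable (fun η : Env d => cl η y * cl η y' * (sz y * sz y' : ℝ≥0∞)) :=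
    fun y y' => ((con_cl.meas y).mul (con_cl.meas y')).mul_const _
  simp_rw [e1]
  rw [lintegral_tsum fun y => (Measurable.tsum fun y' => hm y y').aemeasurable]
  have e2 : ∀ y, ∫⁻ η, ∑' y', cl η y * cl η y' * (sz y * sz y' : ℝ≥0∞) ∂(Measure.infinitePi ν) ≤
      P y * (sz y : ℝ≥0∞) ^ 2 + ∑' y', P y * P y' * (sz y * sz y') := by
    intro y
    rw [lintegral_tsum fun y' => (hm y y').aemeasurable]
    have e3 : ∀ y', ∫⁻ η, cl η y * cl η y' * (sz y * sz y' : ℝ≥0∞) ∂(Measure.infinitePi ν) ≤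
        (if y' = y then P y * (sz y : ℝ≥0∞) ^ 2 else 0) + P y * P y' * (sz y * sz y') := by
      intro y'
      have hm' : Measurable (fun η : Env d => cl η y * cl η y') := (con_cl.meas y).mul (con_cl.meas y')
      rw [lintegral_mul_const _ hm']
      by_cases h : y' = y
      · subst h
        rw [if_pos rfl]
        refine le_add_right ?_
        rw [sq]
        refine mul_le_mul' (le_trans (lintegral_mono fun η => ?_) ((lintegral_cl y').trans (hP y')))
          le_rfl
        calc cl η y' * cl η y' ≤ cl η y' * 1 := mul_le_mul' le_rfl (cl_le_one _ _)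
          _ = cl η y' := mul_one _
      · rw [if_neg h, zero_add]
        exact mul_le_mul' ((lintegral_cl2 (Ne.symm h)).trans (mul_le_mul' (hP y) (hP y'))) le_rfl
    refine (ENNReal.tsum_le_tsum e3).trans ?_
    rw [ENNReal.tsum_add, tsum_ite_eq]
  refine (ENNReal.tsum_le_tsum e2).trans ?_
  rw [ENNReal.tsum_add]
  refine add_le_add le_rfl (le_of_eq ?_)
  rw [sq, ← ENNReal.tsum_mul_right]
  refine tsum_congr fun y => ?_
  rw [← ENNReal.tsum_mul_left]
  exact tsum_congr fun y' => by ring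

end law

/-! ### sums over the lattice -/

theorem tsum_pi (f : ℤ → ℝ≥0∞) (d : ℕ) : ∑' y : Vd d, ∏ i, f (y i) = (∑' k, f k) ^ d := by
  induction d with
  | zero =>
    rw [tsum_fintype]
    simp
  | succ d ih =>
    rw [← (Fin.consEquiv (fun _ : Fin (d + 1) => ℤ)).tsum_eq]
    rw [ENNReal.tsum_prod (f := fun (k : ℤ) (y : Fin d → ℤ) =>
      ∏ i, f ((Fin.consEquiv (fun _ : Fin (d + 1) => ℤ)) (k, y) i))]
    have e1 : ∀ (k : ℤ) (y : Fin d → ℤ),
        ∏ i, f ((Fin.consEquiv (fun _ : Fin (d + 1) => ℤ)) (k, y) i) = f k * ∏ i, f (y i) := by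
      intro k y
      rw [Fin.prod_univ_succ]
      rfl
    simp_rw [e1, ENNReal.tsum_mul_left]
    have ih' : ∑' y : Fin d → ℤ, ∏ i, f (y i) = (∑' k, f k) ^ d := ih
    rw [ih', ENNReal.tsum_mul_right, pow_succ, mul_comm]

theorem tsum_int_rpow {s : ℝ} (hs : 1 < s) :
    ∑' k : ℤ, ENNReal.ofReal ((1 + |(k : ℝ)|) ^ (-s)) ≠ ∞ := by
  have hn : Summable (fun n : ℕ => (1 + |(n : ℝ)|) ^ (-s)) := by
    have h1 := (summable_nat_add_iff 1).2 (Real.summable_nat_rpow.2 (show -s < -1 by linarith))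
    refine h1.congr fun n => ?_
    push_cast
    rw [abs_of_nonneg (Nat.cast_nonneg n), add_comm]
  have h2 : Summable (fun k : ℤ => (1 + |(k : ℝ)|) ^ (-s)) := by
    refine Summable.of_nat_of_neg ?_ ?_
    · simpa using hn
    · simpa using hn
  rw [← ENNReal.ofReal_tsum_of_nonneg (fun k => by positivity) h2]
  exact ENNReal.ofReal_ne_top

theorem tsum_lattice {β : ℝ} (hβ : (d : ℝ) < β) (hd : 0 < d) :
    ∑' y : Vd d, ENNReal.ofReal ((sz y : ℝ) ^ (-β)) ≠ ∞ := by
  have hd0 : (0 : ℝ) < d := by exact_mod_cast hd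
  have hβ0 : 0 < β := hd0.trans hβ
  have hs : 1 < β / d := by rwa [one_lt_div hd0]
  have h1 : ∀ y : Vd d, ENNReal.ofReal ((sz y : ℝ) ^ (-β)) ≤
      ∏ i, ENNReal.ofReal ((1 + |((y i : ℤ) : ℝ)|) ^ (-(β / d))) := by
    intro y
    rw [← ENNReal.ofReal_prod_of_nonneg fun i _ => by positivity]
    refine ENNReal.ofReal_le_ofReal ?_
    have hsz : 0 < (sz y : ℝ) := by
      have : 0 < sz y := by unfold sz; omega
      exact_mod_cast this
    have h2 : ∀ i, (sz y : ℝ) ^ (-(β / d)) ≤ (1 + |((y i : ℤ) : ℝ)|) ^ (-(β / d)) := by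
      intro i
      refine Real.rpow_le_rpow_of_nonpos (by positivity) ?_ (by
        have : 0 < β / d := by positivity
        linarith)
      have h3 : (y i).natAbs ≤ ∑ i, (y i).natAbs :=
        Finset.single_le_sum (f := fun i => (y i).natAbs) (fun _ _ => Nat.zero_le _) (Finset.mem_univ i)
      have h4 : |((y i : ℤ) : ℝ)| = ((y i).natAbs : ℝ) := by rw [Nat.cast_natAbs, Int.cast_abs]
      rw [h4]
      unfold sz
      exact_mod_cast (by omega : 1 + (y i).natAbs ≤ 1 + ∑ i, (y i).natAbs)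
    calc (sz y : ℝ) ^ (-β) = ∏ _i : Fin d, (sz y : ℝ) ^ (-(β / d)) := by
          rw [Finset.prod_const, Finset.card_univ, Fintype.card_fin, ← Real.rpow_natCast,
            ← Real.rpow_mul hsz.le]
          congr 1
          field_simp
      _ ≤ _ := Finset.prod_le_prod (fun i _ => by positivity) fun i _ => h2 i
  refine ne_top_of_le_ne_top ?_ (ENNReal.tsum_le_tsum h1)
  rw [tsum_pi (fun k => ENNReal.ofReal ((1 + |(k : ℝ)|) ^ (-(β / d))))]
  exact ENNReal.pow_ne_top (tsum_int_rpow hs)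

theorem sz_norm (y : Vd d) : (sz y : ℝ) = 1 + ((∑ i, |y i| : ℤ) : ℝ) := by
  unfold sz
  push_cast
  congr 1
  refine Finset.sum_congr rfl fun i _ => ?_
  rw [Nat.cast_natAbs, Int.cast_abs]

/-- the second moment of the jumps of long range percolation -/
theorem lrp_moment {α : ℝ} (hα : (d : ℝ) + 2 < α) (hd : 0 < d) {p : Vd d → ℝ}
    (hp : ∀ x, 0 ≤ p x ∧ p x ≤ 1)
    (hdec : ∀ ε : ℝ, 0 < ε → ∃ R : ℝ, ∀ x : Vd d, R ≤ ((∑ i, |x i| : ℤ) : ℝ) →
        ((∑ i, |x i| : ℤ) : ℝ) ^ (-α - ε) ≤ p x ∧ p x ≤ ((∑ i, |x i| : ℤ) : ℝ) ^ (-α + ε)) :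
    ∑' y : Vd d, ENNReal.ofReal (p y) * (sz y : ℝ≥0∞) ^ 2 ≠ ∞ := by
  set ε : ℝ := (α - (d + 2)) / 2 with hε
  have hε0 : 0 < ε := by rw [hε]; linarith
  obtain ⟨R, hR⟩ := hdec ε hε0
  set β : ℝ := α - ε - 2 with hβ
  have hβd : (d : ℝ) < β := by rw [hβ, hε]; linarith
  have hd0 : (0 : ℝ) < d := by exact_mod_cast hd
  have hβ0 : 0 < β := hd0.trans hβd
  set R' : ℝ := max R 1 with hR'
  have hR'1 : 1 ≤ R' := le_max_right _ _
  set C : ℝ := max (4 * 2 ^ β) ((1 + R') ^ 2 * (1 + R') ^ β) with hC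
  have hC0 : 0 ≤ C := le_max_of_le_left (by positivity)
  have key : ∀ y : Vd d, ENNReal.ofReal (p y) * (sz y : ℝ≥0∞) ^ 2 ≤
      ENNReal.ofReal C * ENNReal.ofReal ((sz y : ℝ) ^ (-β)) := by
    intro y
    have hsz1 : (1 : ℝ) ≤ sz y := by
      have : 1 ≤ sz y := by unfold sz; omega
      exact_mod_cast this
    have hsz0 : (0 : ℝ) < sz y := by linarith
    rw [← ENNReal.ofReal_natCast, ← ENNReal.ofReal_pow (by positivity), ← ENNReal.ofReal_mul (hp y).1,
      ← ENNReal.ofReal_mul hC0]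
    refine ENNReal.ofReal_le_ofReal ?_
    set n : ℝ := ((∑ i, |y i| : ℤ) : ℝ) with hn
    have hn0 : 0 ≤ n := by
      rw [hn]
      exact_mod_cast Finset.sum_nonneg fun i _ => abs_nonneg (y i)
    have hszn : (sz y : ℝ) = 1 + n := sz_norm y
    by_cases hy : R' ≤ n
    · have h1 := (hR y ((le_max_left _ _).trans hy)).2
      have hn1 : 1 ≤ n := hR'1.trans hy
      have h2 : (sz y : ℝ) ≤ 2 * n := by rw [hszn]; linarith
      have hnp : 0 < n := by linarith
      have h3 : n ^ (-α + ε) * (sz y : ℝ) ^ 2 ≤ 4 * n ^ (-β) := by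
        have h4 : (sz y : ℝ) ^ 2 ≤ 4 * n ^ 2 := by nlinarith
        have h5 : n ^ (-β) = n ^ (-α + ε) * n ^ 2 := by
          rw [← Real.rpow_natCast n 2, ← Real.rpow_add hnp]
          congr 1
          rw [hβ]; push_cast; ring
        rw [h5]
        have h6 : 0 ≤ n ^ (-α + ε) := by positivity
        nlinarith
      have h7 : n ^ (-β) ≤ 2 ^ β * (sz y : ℝ) ^ (-β) := by
        have h8 : (2 * n) ^ (-β) ≤ (sz y : ℝ) ^ (-β) :=
          Real.rpow_le_rpow_of_nonpos hsz0 h2 (by linarith)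
        rw [Real.mul_rpow (by norm_num) hnp.le] at h8
        have h9 : (2 : ℝ) ^ β * (2 : ℝ) ^ (-β) = 1 := by
          rw [← Real.rpow_add (by norm_num)]; simp
        have h10 : (0 : ℝ) < 2 ^ β := by positivity
        calc n ^ (-β) = 2 ^ β * (2 ^ (-β) * n ^ (-β)) := by rw [← mul_assoc, h9, one_mul]
          _ ≤ _ := mul_le_mul_of_nonneg_left h8 h10.le
      calc p y * (sz y : ℝ) ^ 2 ≤ n ^ (-α + ε) * (sz y : ℝ) ^ 2 :=
            mul_le_mul_of_nonneg_right h1 (by positivity)
        _ ≤ 4 * n ^ (-β) := h3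
        _ ≤ 4 * (2 ^ β * (sz y : ℝ) ^ (-β)) := mul_le_mul_of_nonneg_left h7 (by norm_num)
        _ = 4 * 2 ^ β * (sz y : ℝ) ^ (-β) := by ring
        _ ≤ C * (sz y : ℝ) ^ (-β) := mul_le_mul_of_nonneg_right (le_max_left _ _) (by positivity)
    · rw [not_le] at hy
      have h1 : (sz y : ℝ) ≤ 1 + R' := by rw [hszn]; linarith
      have h2 : (1 + R') ^ (-β) ≤ (sz y : ℝ) ^ (-β) :=
        Real.rpow_le_rpow_of_nonpos hsz0 h1 (by linarith)
      have h3 : (1 + R') ^ β * (1 + R') ^ (-β) = 1 := by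
        rw [← Real.rpow_add (by positivity)]; simp
      calc p y * (sz y : ℝ) ^ 2 ≤ 1 * (1 + R') ^ 2 :=
            mul_le_mul (hp y).2 (pow_le_pow_left₀ hsz0.le h1 2) (by positivity) (by norm_num)
        _ = (1 + R') ^ 2 * ((1 + R') ^ β * (1 + R') ^ (-β)) := by rw [h3]; ring
        _ ≤ (1 + R') ^ 2 * ((1 + R') ^ β * (sz y : ℝ) ^ (-β)) := by gcongr
        _ = (1 + R') ^ 2 * (1 + R') ^ β * (sz y : ℝ) ^ (-β) := by ring
        _ ≤ C * (sz y : ℝ) ^ (-β) := mul_le_mul_of_nonneg_right (le_max_right _ _) (by positivity)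
  refine ne_top_of_le_ne_top ?_ (ENNReal.tsum_le_tsum key)
  rw [ENNReal.tsum_mul_left]
  exact ENNReal.mul_ne_top ENNReal.ofReal_ne_top (tsum_lattice hβd hd)

end Pool.Agent.H979.QIP
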