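import Pool.Agent.H979.QIP.Main2

set_option autoImplicit false
set_option linter.unusedSectionVars false
set_option linter.deprecated false
set_option linter.unusedVariables false
set_option linter.style.haveILetI false

open MeasureTheory ProbabilityTheory Filter Topology Set
open scoped ENNReal NNReal

/-!
# The invariance principle for the jump walk
-/

namespace Pool.Agent.H979.QIP

variable {Ω : Type*} [MeasurableSpace Ω] {d : ℕ} {μ : Measure Ω} {τ : Vd d → Ω → Ω}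
  {c : Ω → Vd d → ℝ≥0∞}

/-- the steps of a finite path -/
def stp {N : ℕ} (z : Fin (N + 1) → Vd d) : List (Vd d) :=
  List.ofFn (fun i : Fin N => z i.succ - z i.castSucc)

/-- the weight of a finite path under the jump walk started at the origin -/
noncomputable def jwt (τ : Vd d → Ω → Ω) (c : Ω → Vd d → ℝ≥0∞) (ω : Ω) {N : ℕ}
    (z : Fin (N + 1) → Vd d) : ℝ≥0∞ :=
  (if z 0 = 0 then 1 else 0) * ∏ i : Fin N, c (τ (z i.castSucc) ω) (z i.succ - z i.castSucc) /
    Dg c (τ (z i.castSucc) ω)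

theorem jw_stp (h : Sta μ τ) (ω : Ω) {N : ℕ} (z : Fin (N + 1) → Vd d) :
    jw τ c (τ (z 0) ω) (stp z) = ∏ i : Fin N, c (τ (z i.castSucc) ω) (z i.succ - z i.castSucc) /
      Dg c (τ (z i.castSucc) ω) := by
  induction N with
  | zero => simp [stp, jw]
  | succ N ih =>
    have e1 : stp z = (z 1 - z 0) :: stp (fun i : Fin (N + 1) => z i.succ) := by
      unfold stp
      rw [List.ofFn_succ]
      rfl
    rw [e1, jw, h.add, Fin.prod_univ_succ]
    have e2 : z 0 + (z 1 - z 0) = z 1 := by abel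
    rw [e2]
    have := ih (fun i : Fin (N + 1) => z i.succ)
    simp only [Fin.succ_zero_eq_one'] at this
    congr 1

theorem jwt_eq (h : Sta μ τ) (ω : Ω) {N : ℕ} (z : Fin (N + 1) → Vd d) :
    jwt τ c ω z = if z 0 = 0 then jw τ c ω (stp z) else 0 := by
  unfold jwt
  rw [← jw_stp h ω z]
  split_ifs with h0
  · rw [h0, h.zero, one_mul]
  · rw [zero_mul]

theorem stp_inj {N : ℕ} {z z' : Fin (N + 1) → Vd d} (h0 : z 0 = z' 0) (hs : stp z = stp z') :
    z = z' := by
  have h1 := List.ofFn_injective hs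
  have h2 : ∀ k : ℕ, ∀ hk : k < N + 1, z ⟨k, hk⟩ = z' ⟨k, hk⟩ := by
    intro k
    induction k with
    | zero => intro hk; exact h0
    | succ k ih =>
      intro hk
      have h3 := congrFun h1 ⟨k, by omega⟩
      have h4 := ih (by omega)
      simp only [Fin.succ_mk, Fin.castSucc_mk] at h3
      rw [h4] at h3
      exact sub_left_injective h3
  funext k
  exact h2 k.1 k.2

theorem jwt_total (h : Sta μ τ) (hc : RC τ c) (ω : Ω) (N : ℕ) :
    ∑' z : Fin (N + 1) → Vd d, jwt τ c ω z ≤ 1 := by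
  refine le_trans ?_ (jw_total h hc ω N)
  have e1 : ∑' z : Fin (N + 1) → Vd d, jwt τ c ω z =
      ∑' z : {z : Fin (N + 1) → Vd d | z 0 = 0}, jw τ c ω (stp z.1) := by
    rw [tsum_subtype {z : Fin (N + 1) → Vd d | z 0 = 0} (fun z => jw τ c ω (stp z))]
    refine tsum_congr fun z => ?_
    rw [jwt_eq h]
    simp only [indicator_apply, mem_setOf_eq]
  rw [e1]
  have hinj : Function.Injective (fun z : {z : Fin (N + 1) → Vd d | z 0 = 0} => stp z.1) := by
    intro z z' hz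
    exact Subtype.ext (stp_inj (z.2.trans z'.2.symm) hz)
  refine le_trans (le_of_eq ?_) (ENNReal.tsum_comp_le_tsum_of_injective hinj
    (fun l => if l.length = N then jw τ c ω l else 0))
  refine tsum_congr fun z => ?_
  rw [if_pos (by simp [stp])]

/-- the event that the first steps of the runs are prescribed -/
def Ev (m N : ℕ) (z : Fin (N + 1) → Vd d) : Set (ℕ → RS d) :=
  {w | N ≤ Ln m w ∧ (fun j : Fin (N + 1) => zp m w j) = z}

theorem Ev_zero {m N : ℕ} {z : Fin (N + 1) → Vd d} {w : ℕ → RS d} (hw : w ∈ Ev m N z) : z 0 = 0 := by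
  rw [← hw.2]
  simp [zp]

theorem Ev_sub {m N : ℕ} {z : Fin (N + 1) → Vd d} {w : ℕ → RS d} (hw : w ∈ Ev m N z) :
    stp z <+: cat m w := by
  have hlen : N ≤ (cat m w).length := by rw [cat_len]; exact hw.1
  have h1 : stp z = (cat m w).take N := by
    refine List.ext_getElem ?_ ?_
    · simp only [stp, List.length_ofFn, List.length_take]; omega
    · intro i h1 h2
      have hi : i < N := by simpa [stp] using h1
      have hz : ∀ (k : ℕ) (hk : k < N + 1), z ⟨k, hk⟩ = zp m w k := fun k hk =>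
        (congrFun hw.2 ⟨k, hk⟩).symm
      simp only [stp, List.getElem_ofFn, List.getElem_take, Fin.succ_mk, Fin.castSucc_mk]
      rw [hz, hz]
      simp only [zp]
      rw [List.sum_take_succ _ _ (by omega)]
      abel
  rw [h1]
  exact List.take_prefix _ _

theorem Ev_le (h : Sta μ τ) (hc : RC τ c) (ω : Ω) (m N : ℕ) (z : Fin (N + 1) → Vd d) :
    haveI := qR_prob hc ω
    P (qR τ c ω) ⟨0, []⟩ (Ev m N z) ≤ jwt τ c ω z := by
  haveI := qR_prob hc ω
  rw [jwt_eq h]
  split_ifs with h0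
  · have h1 := cat_le h hc ω m ⟨0, []⟩ (stp z)
    simp only at h1
    rw [h.zero] at h1
    exact (measure_mono fun w hw => Ev_sub hw).trans h1
  · have : Ev m N z = ∅ := by
      ext w
      simp only [mem_empty_iff_false, iff_false]
      exact fun hw => h0 (Ev_zero hw)
    rw [this, measure_empty]

theorem transfer (h : Sta μ τ) (hc : RC τ c) (ω : Ω) (m N : ℕ) (Φ : (Fin (N + 1) → Vd d) → ℝ)
    {B : ℝ} (hB0 : 0 ≤ B) (hB : ∀ z, |Φ z| ≤ B) :
    haveI := qR_prob hc ω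
    |∑' z, (jwt τ c ω z).toReal * Φ z - ∫ w, Φ (fun j => zp m w j) ∂(P (qR τ c ω) ⟨0, []⟩)| ≤
      2 * B * (P (qR τ c ω) ⟨0, []⟩).real {w | ¬ N ≤ Ln m w} := by
  classical
  haveI := qR_prob hc ω
  set ν := P (qR τ c ω) ⟨0, []⟩ with hν
  set D : Set (ℕ → RS d) := {w | N ≤ Ln m w} with hD
  have hDm : MeasurableSet D := Dep.measurableSet (N := m) fun w w' hw => by
    simp only [hD, mem_setOf_eq]
    rw [dep_Ln (le_refl m) w w' hw]
  set zz : (ℕ → RS d) → (Fin (N + 1) → Vd d) := fun w j => zp m w j with hzz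
  have hzzm : Measurable zz := Dep.measurable (N := m) fun w w' hw => by
    simp only [hzz, zp]
    rw [dep_cat m w w' hw]
  have hDc : {w | ¬ N ≤ Ln m w} = Dᶜ := rfl
  rw [hDc]
  have hΦm : Measurable (fun w => Φ (zz w)) := (measurable_of_countable Φ).comp hzzm
  have hΦi : Integrable (fun w => Φ (zz w)) ν :=
    Integrable.of_bound hΦm.aestronglyMeasurable B
      (Eventually.of_forall fun w => by rw [Real.norm_eq_abs]; exact hB _)
  have hsplit : ∫ w, Φ (zz w) ∂ν = ∫ w in D, Φ (zz w) ∂ν + ∫ w in Dᶜ, Φ (zz w) ∂ν :=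
    (integral_add_compl hDm hΦi).symm
  have h1 : |∫ w in Dᶜ, Φ (zz w) ∂ν| ≤ B * ν.real Dᶜ := by
    have := norm_setIntegral_le_of_norm_le_const (μ := ν) (s := Dᶜ) (f := fun w => Φ (zz w)) (C := B)
      (measure_lt_top _ _) (fun w _ => by rw [Real.norm_eq_abs]; exact hB _)
    rwa [Real.norm_eq_abs] at this
  -- the integral on `D` as a sum
  set p : (Fin (N + 1) → Vd d) → ℝ≥0∞ := fun z => ν (Ev m N z) with hp
  have hpz : ∀ z, ((ν.restrict D).map zz) {z} = p z := by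
    intro z
    rw [Measure.map_apply hzzm (measurableSet_singleton z),
      Measure.restrict_apply (hzzm (measurableSet_singleton z))]
    simp only [hp]
    congr 1
    ext w
    simp only [Ev, mem_inter_iff, mem_preimage, mem_singleton_iff, mem_setOf_eq, hD, hzz]
    exact and_comm
  have h2 : ∫ w in D, Φ (zz w) ∂ν = ∑' z, (p z).toReal * Φ z := by
    have e1 : ∫ w in D, Φ (zz w) ∂ν = ∫ z, Φ z ∂((ν.restrict D).map zz) := by
      rw [integral_map hzzm.aemeasurable (measurable_of_countable Φ).aestronglyMeasurable]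
    rw [e1, integral_countable']
    · refine tsum_congr fun z => ?_
      rw [smul_eq_mul, Measure.real, hpz]
    · haveI : IsFiniteMeasure ((ν.restrict D).map zz) := inferInstance
      exact Integrable.of_bound (measurable_of_countable Φ).aestronglyMeasurable B
        (Eventually.of_forall fun w => by rw [Real.norm_eq_abs]; exact hB _)
  have hpsum : ∑' z, p z = ν D := by
    have e1 : ∑' z, p z = ((ν.restrict D).map zz) univ := by
      rw [← biUnion_of_singleton (univ : Set (Fin (N + 1) → Vd d)),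
        measure_biUnion countable_univ (fun a _ b _ hab => disjoint_singleton.2 hab)
          (fun z _ => measurableSet_singleton z)]
      rw [tsum_univ (fun z => ((ν.restrict D).map zz) {z})]
      exact tsum_congr fun z => (hpz z).symm
    rw [e1, Measure.map_apply hzzm MeasurableSet.univ, preimage_univ, Measure.restrict_apply_univ]
  have hple : ∀ z, p z ≤ jwt τ c ω z := fun z => Ev_le h hc ω m N z
  have hjt := jwt_total h hc ω N
  have hjf : ∑' z : Fin (N + 1) → Vd d, jwt τ c ω z ≠ ∞ := ne_top_of_le_ne_top ENNReal.one_ne_top hjt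
  have hjz : ∀ z : Fin (N + 1) → Vd d, jwt τ c ω z ≠ ∞ := ENNReal.ne_top_of_tsum_ne_top hjf
  have hpf : ∑' z, p z ≠ ∞ := by rw [hpsum]; exact measure_ne_top _ _
  have sj : Summable (fun z : Fin (N + 1) → Vd d => (jwt τ c ω z).toReal) :=
    ENNReal.summable_toReal hjf
  have sp : Summable (fun z : Fin (N + 1) → Vd d => (p z).toReal) := ENNReal.summable_toReal hpf
  have sjΦ : Summable (fun z : Fin (N + 1) → Vd d => (jwt τ c ω z).toReal * Φ z) := by
    refine Summable.of_norm_bounded (sj.mul_right B) fun z => ?_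
    rw [Real.norm_eq_abs, abs_mul, abs_of_nonneg ENNReal.toReal_nonneg]
    exact mul_le_mul_of_nonneg_left (hB z) ENNReal.toReal_nonneg
  have spΦ : Summable (fun z : Fin (N + 1) → Vd d => (p z).toReal * Φ z) := by
    refine Summable.of_norm_bounded (sp.mul_right B) fun z => ?_
    rw [Real.norm_eq_abs, abs_mul, abs_of_nonneg ENNReal.toReal_nonneg]
    exact mul_le_mul_of_nonneg_left (hB z) ENNReal.toReal_nonneg
  have h3 : |∑' z, (jwt τ c ω z).toReal * Φ z - ∑' z, (p z).toReal * Φ z| ≤ B * ν.real Dᶜ := by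
    rw [← Summable.tsum_sub sjΦ spΦ]
    have hdiff : Summable (fun z : Fin (N + 1) → Vd d => ((jwt τ c ω z).toReal - (p z).toReal) * B) :=
      (sj.sub sp).mul_right B
    have hb : ∀ z : Fin (N + 1) → Vd d, ‖(jwt τ c ω z).toReal * Φ z - (p z).toReal * Φ z‖ ≤
        ((jwt τ c ω z).toReal - (p z).toReal) * B := by
      intro z
      have h4 : 0 ≤ (jwt τ c ω z).toReal - (p z).toReal :=
        sub_nonneg.2 (ENNReal.toReal_mono (hjz z) (hple z))
      rw [← sub_mul, Real.norm_eq_abs, abs_mul, abs_of_nonneg h4]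
      exact mul_le_mul_of_nonneg_left (hB z) h4
    have h5 := tsum_of_norm_bounded hdiff.hasSum hb
    rw [Real.norm_eq_abs] at h5
    refine h5.trans ?_
    rw [tsum_mul_right, Summable.tsum_sub sj sp]
    have e1 : ∑' z : Fin (N + 1) → Vd d, (jwt τ c ω z).toReal ≤ 1 := by
      rw [← ENNReal.tsum_toReal_eq hjz]
      have := ENNReal.toReal_mono ENNReal.one_ne_top hjt
      simpa using this
    have e2 : ∑' z : Fin (N + 1) → Vd d, (p z).toReal = ν.real D := by
      rw [← ENNReal.tsum_toReal_eq (ENNReal.ne_top_of_tsum_ne_top hpf), hpsum]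
      rfl
    have e3 : ν.real Dᶜ = 1 - ν.real D := by
      rw [probReal_compl_eq_one_sub hDm]
    rw [e2, e3, mul_comm]
    exact mul_le_mul_of_nonneg_left (by linarith) hB0
  have e6 : ∑' z, (jwt τ c ω z).toReal * Φ z - ∫ w, Φ (zz w) ∂ν =
      (∑' z, (jwt τ c ω z).toReal * Φ z - ∑' z, (p z).toReal * Φ z) - ∫ w in Dᶜ, Φ (zz w) ∂ν := by
    rw [hsplit, h2]; ring
  show |∑' z, (jwt τ c ω z).toReal * Φ z - ∫ w, Φ (zz w) ∂ν| ≤ _
  rw [e6]
  refine (abs_sub _ _).trans ?_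
  linarith

/-- the rescaled interpolation of a finite path -/
noncomputable def pth (T : ℝ) (n : ℕ) (z : Fin (⌊T * n⌋₊ + 1 + 1) → Vd d) (t : Icc (0 : ℝ) T) :
    Fin d → ℝ :=
  (1 / Real.sqrt n) •
    ((fun i => (((if h : ⌊t.1 * n⌋₊ < ⌊T * n⌋₊ + 1 + 1
          then z ⟨⌊t.1 * n⌋₊, h⟩ else 0) i : ℤ) : ℝ)) +
      (t.1 * n - (⌊t.1 * n⌋₊ : ℝ)) •
        ((fun i => (((if h : ⌊t.1 * n⌋₊ + 1 < ⌊T * n⌋₊ + 1 + 1
          then z ⟨⌊t.1 * n⌋₊ + 1, h⟩ else 0) i : ℤ) : ℝ)) -
         (fun i => (((if h : ⌊t.1 * n⌋₊ < ⌊T * n⌋₊ + 1 + 1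
          then z ⟨⌊t.1 * n⌋₊, h⟩ else 0) i : ℤ) : ℝ))))

theorem XR_pth (T : ℝ) (K n : ℕ) (w : ℕ → RS d) (t : Icc (0 : ℝ) T) :
    XR T K n w t.1 = pth T n (fun j => zp (K * n) w j) t := by
  have ht := t.2.1
  have htT := t.2.2
  have h1 : ⌊t.1 * n⌋₊ ≤ ⌊T * n⌋₊ :=
    Nat.floor_le_floor (mul_le_mul_of_nonneg_right htT (Nat.cast_nonneg n))
  unfold XR pth
  rw [pl_eq _ (by positivity) (by omega)]
  rw [dif_pos (show ⌊t.1 * n⌋₊ < ⌊T * n⌋₊ + 1 + 1 by omega),
    dif_pos (show ⌊t.1 * n⌋₊ + 1 < ⌊T * n⌋₊ + 1 + 1 by omega)]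

theorem Qn.jump_conv {h : Sta μ τ} {hc : RC τ c} {ω : Ω} {C : Fin d → Fin d → ℝ} {a : ℝ}
    (hQ : Qn h hc ω C a) (ha : 0 < a)
    {Ω' : Type*} [MeasurableSpace Ω'] (P' : Measure Ω') [IsProbabilityMeasure P']
    (W : ℝ → Ω' → (Fin d → ℝ)) (hWm : ∀ t, Measurable (W t))
    (hWc : ∀ ω', Continuous (fun t => W t ω'))
    (hW : ∀ (k : ℕ) (t : Fin k → ℝ) (u : Fin k → Fin d → ℝ), (∀ j, 0 ≤ t j) →
      ∫ ω', Complex.exp (Complex.I * ((∑ j, ∑ b, u j b * W (t j) ω' b : ℝ) : ℂ)) ∂P' =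
        Complex.exp (-((∑ j, ∑ l, min (t j) (t l) *
            (∑ b, ∑ b', u j b * (C b b' / a) * u l b') : ℝ) : ℂ) / 2))
    {T : ℝ} (hT : 0 < T)
    (F : UniformFun (Icc (0 : ℝ) T) (Fin d → ℝ) → ℝ) (hF : Continuous F)
    (hb : ∃ C : ℝ, ∀ f, |F f| ≤ C) :
    Tendsto (fun n : ℕ => ∑' z : Fin (⌊T * n⌋₊ + 1 + 1) → Vd d, (jwt τ c ω z).toReal *
      F (UniformFun.ofFun (pth T n z))) atTop
      (𝓝 (∫ ω', F (UniformFun.ofFun (fun t : Icc (0 : ℝ) T => W t.1 ω')) ∂P')) := by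
  haveI := qR_prob hc ω
  obtain ⟨K, hK⟩ := exists_nat_ge (2 * (T + 4) / a)
  have hK' : 2 * (T + 4) ≤ K * a := by rwa [div_le_iff₀ ha] at hK
  have h1 := hQ.run_conv ha hT hK' P' W hWm hWc hW F hF hb
  obtain ⟨B, hB⟩ := hb
  have hB0 : 0 ≤ B := (abs_nonneg _).trans (hB (UniformFun.ofFun fun _ => 0))
  rw [Metric.tendsto_atTop] at h1 ⊢
  intro ε hε
  obtain ⟨n1, hn1⟩ := h1 (ε / 2) (by positivity)
  obtain ⟨n2, hn2⟩ := eventually_atTop.1 (hQ.bad hT hK' (η := 1) (η' := ε / (8 * (B + 1)))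
    (by positivity) (by positivity))
  refine ⟨max n1 n2, fun n hn => ?_⟩
  have g1 := hn1 n (by omega)
  have g2 := hn2 n (by omega)
  have h3 := transfer h hc ω (K * n) (⌊T * n⌋₊ + 1) (fun z => F (UniformFun.ofFun (pth T n z))) hB0
    (fun z => hB _)
  have e1 : ∫ w, F (UniformFun.ofFun (pth T n (fun j => zp (K * n) w j)))
      ∂(P (qR τ c ω) ⟨0, []⟩) = ∫ w, F (UniformFun.ofFun (fun t : Icc (0 : ℝ) T => XR T K n w t.1))
      ∂(P (qR τ c ω) ⟨0, []⟩) := by
    refine integral_congr_ae (Eventually.of_forall fun w => ?_)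
    simp only
    congr 2
    funext t
    exact (XR_pth T K n w t).symm
  rw [e1] at h3
  have h4 : (P (qR τ c ω) ⟨0, []⟩).real {w | ¬ ⌊T * n⌋₊ + 1 ≤ Ln (K * n) w} ≤ ε / (8 * (B + 1)) := by
    refine ENNReal.toReal_le_of_le_ofReal (by positivity) (le_trans (measure_mono fun w hw => ?_) g2)
    intro h5
    exact hw (by omega)
  have h5 : 2 * B * (P (qR τ c ω) ⟨0, []⟩).real {w | ¬ ⌊T * n⌋₊ + 1 ≤ Ln (K * n) w} ≤ ε / 4 := by
    refine (mul_le_mul_of_nonneg_left h4 (by positivity)).trans ?_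
    rw [mul_div_assoc', div_le_div_iff₀ (by positivity) (by norm_num)]
    nlinarith
  have h6 := h3.trans h5
  rw [Real.dist_eq] at g1 ⊢
  rw [abs_le] at h6
  rw [abs_lt] at g1 ⊢
  constructor <;> linarith [h6.1, h6.2, g1.1, g1.2]

end Pool.Agent.H979.QIP
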