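import Pool.Agent.H979.QIP.Main1

set_option autoImplicit false
set_option linter.unusedSectionVars false
set_option linter.deprecated false
set_option linter.unusedVariables false
set_option linter.style.haveILetI false

open MeasureTheory ProbabilityTheory Filter Topology Set
open scoped ENNReal NNReal

/-!
# The covariance matrix is positive definite
-/

namespace Pool.Agent.H979.QIP

variable {Ω : Type*} [MeasurableSpace Ω] {d : ℕ} {μ : Measure Ω} {τ : Vd d → Ω → Ω}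
  {q : Ω → Vd d → ℝ≥0∞} {c : Ω → Vd d → ℝ≥0∞} [IsProbabilityMeasure μ]

theorem memLp_of_VR (h : Sta μ τ) (hq : Ker τ q) {F : Ω → Vd d → ℝ}
    (hF : ∀ y, Measurable (fun ω => F ω y)) (hf : ∫⁻ ω, VR q F ω ∂μ ≠ ∞) :
    MemLp (fun p : Ω × Vd d => F p.1 p.2) 2 (nu h hq) := by
  rw [memLp_iff h hq (meas_unc hF), ← lintegral_VR h hq (F := fun p => F p.1 p.2) (meas_unc hF)]
  exact hf

theorem cov_int (h : Sta μ τ) (hq : Ker τ q) {O : Set Ω} (hO : MeasurableSet O)
    {G G' : Ω → Vd d → ℝ}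
    (hG : ∀ y, Measurable (fun ω => G ω y)) (hfin : ∫⁻ ω, VR q G ω ∂μ ≠ ∞)
    (hG' : ∀ y, Measurable (fun ω => G' ω y)) (hfin' : ∫⁻ ω, VR q G' ω ∂μ ≠ ∞) :
    cov μ τ q O G G' = (∫ p in O ×ˢ univ, G p.1 p.2 * G' p.1 p.2 ∂(nu h hq)) / μ.real O := by
  unfold cov
  congr 1
  unfold nu
  have hint : IntegrableOn (fun p : Ω × Vd d => G p.1 p.2 * G' p.1 p.2) (O ×ˢ univ)
      (μ ⊗ₘ (kap h hq)) :=
    ((memLp_of_VR h hq hG hfin).integrable_mul (memLp_of_VR h hq hG' hfin')).integrableOn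
  rw [Measure.setIntegral_compProd hO MeasurableSet.univ hint]
  simp only [Measure.restrict_univ, kap_apply]

theorem cov_quad (h : Sta μ τ) (hq : Ker τ q) {O : Set Ω} (hO : MeasurableSet O)
    {G : Fin d → Ω → Vd d → ℝ} (hG : ∀ a y, Measurable (fun ω => G a ω y))
    (hfin : ∀ a, ∫⁻ ω, VR q (G a) ω ∂μ ≠ ∞) (u : Fin d → ℝ) :
    ∑ a, ∑ b, u a * cov μ τ q O (G a) (G b) * u b =
      (∫ p in O ×ˢ univ, (∑ a, u a * G a p.1 p.2) ^ 2 ∂(nu h hq)) / μ.real O := by
  have hint : ∀ a b, Integrable (fun p : Ω × Vd d => u a * (G a p.1 p.2 * G b p.1 p.2) * u b)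
      ((nu h hq).restrict (O ×ˢ univ)) := fun a b =>
    ((((memLp_of_VR h hq (hG a) (hfin a)).integrable_mul
      (memLp_of_VR h hq (hG b) (hfin b))).integrableOn (s := O ×ˢ univ)).const_mul _).mul_const _
  have e1 : ∫ p in O ×ˢ univ, (∑ a, u a * G a p.1 p.2) ^ 2 ∂(nu h hq) =
      ∑ a, ∑ b, u a * (∫ p in O ×ˢ univ, G a p.1 p.2 * G b p.1 p.2 ∂(nu h hq)) * u b := by
    have e2 : ∀ p : Ω × Vd d, (∑ a, u a * G a p.1 p.2) ^ 2 =
        ∑ a, ∑ b, u a * (G a p.1 p.2 * G b p.1 p.2) * u b := by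
      intro p
      rw [sq, Finset.sum_mul_sum]
      exact Finset.sum_congr rfl fun a _ => Finset.sum_congr rfl fun b _ => by ring
    simp_rw [e2]
    rw [integral_finsetSum _ fun a _ => integrable_finsetSum _ fun b _ => hint a b]
    refine Finset.sum_congr rfl fun a _ => ?_
    rw [integral_finsetSum _ fun b _ => hint a b]
    refine Finset.sum_congr rfl fun b _ => ?_
    rw [integral_mul_const, integral_const_mul]
  rw [e1, Finset.sum_div]
  refine Finset.sum_congr rfl fun a _ => ?_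
  rw [Finset.sum_div]
  refine Finset.sum_congr rfl fun b _ => ?_
  rw [cov_int h hq hO (hG a) (hfin a) (hG b) (hfin b)]
  ring

theorem cov_symm (O : Set Ω) (G G' : Ω → Vd d → ℝ) : cov μ τ q O G G' = cov μ τ q O G' G := by
  unfold cov
  congr 1
  refine integral_congr_ae (Eventually.of_forall fun ω => ?_)
  exact integral_congr_ae (Eventually.of_forall fun y => mul_comm _ _)

theorem cov_quad_zero (h : Sta μ τ) (hq : Ker τ q) {O : Set Ω} (hO : MeasurableSet O)
    (hOp : μ O ≠ 0)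
    {G : Fin d → Ω → Vd d → ℝ} (hG : ∀ a y, Measurable (fun ω => G a ω y))
    (hfin : ∀ a, ∫⁻ ω, VR q (G a) ω ∂μ ≠ ∞) {u : Fin d → ℝ}
    (h0 : ∑ a, ∑ b, u a * cov μ τ q O (G a) (G b) * u b = 0) :
    ∀ᵐ ω ∂μ, ω ∈ O → ∀ y, q ω y ≠ 0 → ∑ a, u a * G a ω y = 0 := by
  have hOr : 0 < μ.real O := ENNReal.toReal_pos hOp (measure_ne_top _ _)
  rw [cov_quad h hq hO hG hfin, div_eq_zero_iff] at h0
  have h1 := h0.resolve_right hOr.ne'
  have hm : ∀ a, MemLp (fun p : Ω × Vd d => G a p.1 p.2) 2 (nu h hq) := fun a =>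
    memLp_of_VR h hq (hG a) (hfin a)
  have hH : MemLp (fun p : Ω × Vd d => ∑ a, u a * G a p.1 p.2) 2 (nu h hq) :=
    memLp_finsetSum _ fun a _ => (hm a).const_mul (u a)
  have hi : Integrable (fun p : Ω × Vd d => (∑ a, u a * G a p.1 p.2) ^ 2)
      ((nu h hq).restrict (O ×ˢ univ)) := by
    have := (hH.integrable_mul hH).integrableOn (s := O ×ˢ univ)
    refine this.congr (Eventually.of_forall fun p => ?_)
    simp only [Pi.mul_apply]
    ring
  rw [integral_eq_zero_iff_of_nonneg (fun p => sq_nonneg _) hi] at h1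
  have h2 : ∀ᵐ p ∂(nu h hq), p ∈ O ×ˢ (univ : Set (Vd d)) → ∑ a, u a * G a p.1 p.2 = 0 := by
    rw [← ae_restrict_iff' (hO.prod MeasurableSet.univ)]
    filter_upwards [h1] with p hp
    exact pow_eq_zero_iff two_ne_zero |>.1 hp
  have h3 := Measure.ae_ae_of_ae_compProd h2
  filter_upwards [h3] with ω hω hωO y hy
  have h4 : ∀ᵐ y ∂(qM τ q ω 0), (ω, y) ∈ O ×ˢ (univ : Set (Vd d)) → ∑ a, u a * G a ω y = 0 := hω
  by_contra hcon
  have h5 : qM τ q ω 0 {y} ≤ qM τ q ω 0 {y | ¬ ((ω, y) ∈ O ×ˢ (univ : Set (Vd d)) →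
      ∑ a, u a * G a ω y = 0)} := by
    refine measure_mono ?_
    rintro z hz
    rw [mem_singleton_iff] at hz
    subst hz
    simp only [mem_setOf_eq]
    exact fun hc => hcon (hc ⟨hωO, mem_univ _⟩)
  have h6 : qM τ q ω 0 {y | ¬ ((ω, y) ∈ O ×ˢ (univ : Set (Vd d)) →
      ∑ a, u a * G a ω y = 0)} = 0 := h4
  rw [h6, qM_set, h.zero] at h5
  have h7 : q ω y * ({y} : Set (Vd d)).indicator 1 (0 + y) ≤ 0 := le_trans
    (ENNReal.le_tsum (f := fun z => q ω z * ({y} : Set (Vd d)).indicator 1 (0 + z)) y) h5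
  rw [zero_add, indicator_of_mem (mem_singleton y), Pi.one_apply, mul_one] at h7
  exact hy (le_antisymm h7 zero_le)

theorem kp_single (ω : Ω) (y : Vd d) :
    kp τ c ω [y] = c ω y * (1 + Dg c ω)⁻¹ * (1 + Dg c (τ y ω))⁻¹ := by
  simp only [kp]

/-- squares of finite sums -/
theorem sq_sum_le (u x : Fin d → ℝ) :
    (∑ a, u a * x a) ^ 2 ≤ ∑ a, (d * u a ^ 2) * x a ^ 2 := by
  have := sq_sum_le_card_mul_sum_sq (s := (Finset.univ : Finset (Fin d))) (f := fun a => u a * x a)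
  rw [Finset.card_univ, Fintype.card_fin] at this
  refine this.trans (le_of_eq ?_)
  rw [Finset.mul_sum]
  exact Finset.sum_congr rfl fun a _ => by ring

theorem posdef (h : Sta μ τ) (hc : RC τ c) {O : Set Ω} (hO : MeasurableSet O) (hOp : μ O ≠ 0)
    (hb : ∫⁻ ω, bt c ω ^ 2 ∂μ ≠ ∞)
    {G : Fin d → Ω → Vd d → ℝ} (hG : ∀ a y, Measurable (fun ω => G a ω y))
    (hfin : ∀ a, ∫⁻ ω, VR (qr τ c) (G a) ω ∂μ ≠ ∞)
    (hφ : ∀ i, ∃ φ : ℕ → Ω → ℝ, (∀ j, Measurable (φ j)) ∧ (∀ j, ∃ c, ∀ ω, |φ j ω| ≤ c) ∧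
        Tendsto (fun j => ∫⁻ ω, VR (qr τ c) (fun ω y => co i ω y - G i ω y -
          (φ j (τ y ω) - φ j ω)) ω ∂μ) atTop (𝓝 0))
    (N : Fin d → Ω → Vd d) (hNm : ∀ i, Measurable (N i))
    (hNi : ∀ i, ∀ᵐ ω ∂μ, ω ∈ O → ∃ k : ℤ, 0 < k ∧ N i ω = Pi.single i k)
    (hNc : ∀ i, ∀ᵐ ω ∂μ, ω ∈ O → 1 ≤ c ω (N i ω))
    (hNp : ∀ i, MeasurePreserving (fun ω => τ (N i ω) ω) (μ.restrict O) (μ.restrict O)) :
    Matrix.PosDef (Matrix.of (fun i j => cov μ τ (qr τ c) O (G i) (G j))) := by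
  have hq := ker_qr h hc
  have hOr : 0 < μ.real O := ENNReal.toReal_pos hOp (measure_ne_top _ _)
  refine Matrix.PosDef.of_dotProduct_mulVec_pos ?_ fun u hu => ?_
  · ext i j
    simp only [Matrix.conjTranspose_apply, Matrix.of_apply, star_trivial]
    exact cov_symm O _ _
  have e0 : star u ⬝ᵥ (Matrix.of (fun i j => cov μ τ (qr τ c) O (G i) (G j))).mulVec u =
      ∑ a, ∑ b, u a * cov μ τ (qr τ c) O (G a) (G b) * u b := by
    simp only [dotProduct, Matrix.mulVec, Matrix.of_apply, star_trivial]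
    refine Finset.sum_congr rfl fun a _ => ?_
    rw [Finset.mul_sum]
    exact Finset.sum_congr rfl fun b _ => by ring
  rw [e0]
  have hnn : 0 ≤ ∑ a, ∑ b, u a * cov μ τ (qr τ c) O (G a) (G b) * u b := by
    rw [cov_quad h hq hO hG hfin]
    exact div_nonneg (integral_nonneg fun p => sq_nonneg _) hOr.le
  refine lt_of_le_of_ne hnn fun hz => hu ?_
  have hH := cov_quad_zero h hq hO hOp hG hfin hz.symm
  choose φ hφm hφb hφt using hφ
  funext i
  simp only [Pi.zero_apply]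
  -- the integrated quantities
  set ν := μ.restrict O with hν
  have hD1 : ∫⁻ ω, (1 + Dg c ω) ^ 2 ∂ν ≠ ∞ := by
    have h1 : ∫⁻ ω, (1 + Dg c ω) ^ 2 ∂ν ≤ ∫⁻ ω, 2 * (1 + bt c ω ^ 2) ∂μ := by
      refine (lintegral_mono' Measure.restrict_le_self le_rfl).trans (lintegral_mono fun ω => ?_)
      have h2 : Dg c ω ≤ bt c ω := by
        refine ENNReal.tsum_le_tsum fun s => ?_
        have : (1 : ℝ≥0∞) ≤ (sz s : ℝ≥0∞) := by
          have : 1 ≤ sz s := by unfold sz; omega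
          exact_mod_cast this
        calc c ω s = c ω s * 1 := (mul_one _).symm
          _ ≤ _ := mul_le_mul' le_rfl this
      calc (1 + Dg c ω) ^ 2 = 1 + 2 * (1 * Dg c ω) + Dg c ω ^ 2 := by ring
        _ ≤ 1 + (1 ^ 2 + Dg c ω ^ 2) + Dg c ω ^ 2 := by gcongr; exact two_mul_le' 1 _
        _ = 2 * (1 + Dg c ω ^ 2) := by ring
        _ ≤ 2 * (1 + bt c ω ^ 2) := by gcongr
    refine ne_top_of_le_ne_top ?_ h1
    rw [lintegral_const_mul _ (((bt_meas hc.toCon).pow_const 2).const_add 1),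
      lintegral_add_left measurable_const, lintegral_const, measure_univ, mul_one]
    exact ENNReal.mul_ne_top ENNReal.ofNat_ne_top (ENNReal.add_ne_top.2 ⟨ENNReal.one_ne_top, hb⟩)
  have hD2 : ∫⁻ ω, (1 + Dg c (τ (N i ω) ω)) ^ 2 ∂ν = ∫⁻ ω, (1 + Dg c ω) ^ 2 ∂ν :=
    (hNp i).lintegral_comp (f := fun ω => (1 + Dg c ω) ^ 2)
      (((Dg_meas hc.toCon).const_add 1).pow_const 2)
  set E₂ := ∫⁻ ω, (1 + Dg c ω) ^ 2 ∂ν with hE₂
  -- the remainders
  set Φ : ℕ → Ω → ℝ := fun j ω => ∑ a, u a * φ a j ω with hΦ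
  have hΦm : ∀ j, Measurable (Φ j) := fun j =>
    Finset.measurable_sum _ fun a _ => (hφm a j).const_mul _
  have hΦb : ∀ j, ∃ b, ∀ ω, |Φ j ω| ≤ b := by
    intro j
    choose b hb using fun a => hφb a j
    refine ⟨∑ a, |u a| * b a, fun ω => (Finset.abs_sum_le_sum_abs _ _).trans
      (Finset.sum_le_sum fun a _ => ?_)⟩
    rw [abs_mul]
    exact mul_le_mul_of_nonneg_left (hb a ω) (abs_nonneg _)
  set R : ℕ → Fin d → Ω → Vd d → ℝ := fun j a ω y => co a ω y - G a ω y -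
    (φ a j (τ y ω) - φ a j ω) with hR
  have hRm : ∀ j a y, Measurable (fun ω => R j a ω y) := fun j a y =>
    (measurable_const.sub (hG a y)).sub (((hφm a j).comp (h.pres y).measurable).sub (hφm a j))
  set r : ℕ → ℝ≥0∞ := fun j => ∑ a, ENNReal.ofReal (d * u a ^ 2) * ∫⁻ ω, VR (qr τ c) (R j a) ω ∂μ
    with hr
  have hr0 : Tendsto r atTop (𝓝 0) := by
    have h1 : Tendsto r atTop (𝓝 (∑ a : Fin d, ENNReal.ofReal (d * u a ^ 2) * 0)) :=
      tendsto_finsetSum _ fun a _ => ENNReal.Tendsto.const_mul (hφt a) (Or.inr ENNReal.ofReal_ne_top)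
    simpa using h1
  -- the displacement
  set kk : Ω → ℝ := fun ω => (N i ω i : ℝ) with hkk
  have hkm : Measurable kk := (measurable_of_countable (fun v : Vd d => ((v i : ℤ) : ℝ))).comp (hNm i)
  have aeO : ∀ {pr : Ω → Prop}, (∀ᵐ ω ∂μ, ω ∈ O → pr ω) → ∀ᵐ ω ∂ν, pr ω := fun hp =>
    (ae_restrict_iff' hO).2 hp
  have hki : Integrable kk ν := by
    refine ⟨hkm.aestronglyMeasurable, ?_⟩
    have h1 : ∫⁻ ω, ‖kk ω‖ₑ ∂ν ≤ ∫⁻ ω, (1 + bt c ω ^ 2) ∂ν := by
      refine lintegral_mono_ae ?_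
      filter_upwards [aeO (hNc i)] with ω hω
      have h2 : ‖kk ω‖ₑ ≤ (sz (N i ω) : ℝ≥0∞) := by
        rw [Real.enorm_eq_ofReal_abs, ← ENNReal.ofReal_natCast]
        refine ENNReal.ofReal_le_ofReal ?_
        have h3 : (N i ω i).natAbs ≤ ∑ j, (N i ω j).natAbs :=
          Finset.single_le_sum (f := fun j => (N i ω j).natAbs) (fun _ _ => Nat.zero_le _)
            (Finset.mem_univ i)
        have h4 : |kk ω| = ((N i ω i).natAbs : ℝ) := by
          simp only [hkk]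
          rw [Nat.cast_natAbs, Int.cast_abs]
        rw [h4]
        unfold sz
        exact_mod_cast (by omega : (N i ω i).natAbs ≤ 1 + ∑ j, (N i ω j).natAbs)
      refine h2.trans ?_
      have h5 : (sz (N i ω) : ℝ≥0∞) ≤ bt c ω := by
        calc (sz (N i ω) : ℝ≥0∞) = 1 * (sz (N i ω) : ℝ≥0∞) := (one_mul _).symm
          _ ≤ c ω (N i ω) * (sz (N i ω) : ℝ≥0∞) := mul_le_mul' hω le_rfl
          _ ≤ bt c ω := ENNReal.le_tsum (f := fun s => c ω s * (sz s : ℝ≥0∞)) (N i ω)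
      refine h5.trans ?_
      calc bt c ω ≤ bt c ω + bt c ω := le_self_add
        _ = 2 * (1 * bt c ω) := by ring
        _ ≤ 1 ^ 2 + bt c ω ^ 2 := two_mul_le' 1 _
        _ = 1 + bt c ω ^ 2 := by ring
    refine lt_of_le_of_lt (h1.trans (lintegral_mono' Measure.restrict_le_self le_rfl)) ?_
    rw [lintegral_add_left measurable_const, lintegral_const, measure_univ, mul_one]
    exact lt_top_iff_ne_top.2 (ENNReal.add_ne_top.2 ⟨ENNReal.one_ne_top, hb⟩)
  have hkpos : 0 < ∫ ω, kk ω ∂ν := by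
    have h1 : ∫ ω, (1 : ℝ) ∂ν ≤ ∫ ω, kk ω ∂ν := by
      refine integral_mono_ae (integrable_const _) hki ?_
      filter_upwards [aeO (hNi i)] with ω ⟨k, hk, hω⟩
      simp only [hkk, hω, Pi.single_eq_same]
      exact_mod_cast hk
    have h2 : ∫ ω, (1 : ℝ) ∂ν = μ.real O := by simp [hν]
    linarith
  -- the main inequality
  have key : ∀ s : ℝ, 0 < s → ∀ j, ENNReal.ofReal (|u i| * ∫ ω, kk ω ∂ν) ≤
      ENNReal.ofReal (s / 2) * E₂ + ENNReal.ofReal (1 / (2 * s)) * r j := by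
    intro s hs j
    set T : Ω → Ω := fun ω => τ (N i ω) ω with hT
    have hTm : Measurable T := (hNp i).measurable
    obtain ⟨b, hb'⟩ := hΦb j
    have i1 : Integrable (Φ j) ν := Integrable.of_bound (hΦm j).aestronglyMeasurable b
      (Eventually.of_forall fun ω => by rw [Real.norm_eq_abs]; exact hb' ω)
    have i2 : Integrable (fun ω => Φ j (T ω)) ν :=
      Integrable.of_bound ((hΦm j).comp hTm).aestronglyMeasurable b
      (Eventually.of_forall fun ω => by rw [Real.norm_eq_abs]; exact hb' _)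
    have e1 : ∫ ω, Φ j (T ω) ∂ν = ∫ ω, Φ j ω ∂ν := by
      have h1 := integral_map (μ := ν) hTm.aemeasurable (f := Φ j)
        (hΦm j).aestronglyMeasurable
      rw [(hNp i).map_eq] at h1
      exact h1.symm
    have i3 : Integrable (fun ω => Φ j (T ω) - Φ j ω) ν := i2.sub i1
    have e2 : u i * ∫ ω, kk ω ∂ν = ∫ ω, (u i * kk ω - (Φ j (T ω) - Φ j ω)) ∂ν := by
      rw [integral_sub (hki.const_mul _) i3, integral_sub i2 i1, e1, sub_self, sub_zero,
        integral_const_mul]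
    have e3 : |u i| * ∫ ω, kk ω ∂ν = ‖∫ ω, (u i * kk ω - (Φ j (T ω) - Φ j ω)) ∂ν‖ := by
      rw [← e2, Real.norm_eq_abs, abs_mul, abs_of_pos hkpos]
    rw [e3, ofReal_norm]
    refine (enorm_integral_le_lintegral_enorm _).trans ?_
    -- the pointwise bound
    have hpt : ∀ᵐ ω ∂ν, ‖u i * kk ω - (Φ j (T ω) - Φ j ω)‖ₑ ≤
        ENNReal.ofReal (s / 4) * ((1 + Dg c ω) ^ 2 + (1 + Dg c (T ω)) ^ 2) +
        ENNReal.ofReal (1 / (2 * s)) * ∑ a, ENNReal.ofReal (d * u a ^ 2) *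
          VR (qr τ c) (R j a) ω := by
      filter_upwards [aeO (hNi i), aeO (hNc i), aeO hH] with ω ⟨k, hk, hω⟩ hcω hHω
      set y := N i ω with hy
      set X : ℝ≥0∞ := (1 + Dg c ω) * (1 + Dg c (T ω)) with hX
      have hX1 : 1 ≤ X := by
        calc (1 : ℝ≥0∞) = 1 * 1 := (one_mul 1).symm
          _ ≤ X := mul_le_mul' le_self_add le_self_add
      have hX0 : X ≠ 0 := fun h0 => by rw [h0] at hX1; exact absurd hX1 (by simp)
      have hXt : X ≠ ∞ := ENNReal.mul_ne_top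
        (ENNReal.add_ne_top.2 ⟨ENNReal.one_ne_top, hc.fin _⟩)
        (ENNReal.add_ne_top.2 ⟨ENNReal.one_ne_top, hc.fin _⟩)
      have hQ : X⁻¹ ≤ qr τ c ω y := by
        refine le_trans ?_ (kp_single_le ω y)
        rw [kp_single, hX, ENNReal.mul_inv (Or.inl (one_add_ne ω))
          (Or.inl (ENNReal.add_ne_top.2 ⟨ENNReal.one_ne_top, hc.fin _⟩)), mul_assoc]
        calc (1 + Dg c ω)⁻¹ * (1 + Dg c (T ω))⁻¹ = 1 * ((1 + Dg c ω)⁻¹ * (1 + Dg c (T ω))⁻¹) :=
              (one_mul _).symm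
          _ ≤ _ := mul_le_mul' hcω le_rfl
      have hQ0 : qr τ c ω y ≠ 0 := by
        intro h0
        rw [h0] at hQ
        have : X⁻¹ = 0 := le_antisymm hQ zero_le
        rw [ENNReal.inv_eq_zero] at this
        exact hXt this
      set ρ : ℝ := ∑ a, u a * R j a ω y with hρ
      have e4 : u i * kk ω - (Φ j (T ω) - Φ j ω) = ρ := by
        have h1 : ∑ a, u a * R j a ω y = ∑ a, u a * co a ω y - ∑ a, u a * G a ω y -
            (Φ j (T ω) - Φ j ω) := by
          simp only [hR, hΦ, hT]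
          rw [← Finset.sum_sub_distrib, ← Finset.sum_sub_distrib, ← Finset.sum_sub_distrib]
          exact Finset.sum_congr rfl fun a _ => by ring
        rw [hρ, h1, hHω y hQ0, sub_zero]
        congr 1
        rw [Finset.sum_eq_single i]
        · rfl
        · intro a _ ha
          have : co a ω y = 0 := by
            unfold co
            rw [hω, Pi.single_eq_of_ne ha]
            simp
          rw [this, mul_zero]
        · intro h0; exact absurd (Finset.mem_univ i) h0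
      rw [e4]
      -- arithmetic
      have hA : ‖ρ‖ₑ ≤ ENNReal.ofReal (s / 2) * X +
          ENNReal.ofReal (1 / (2 * s)) * (X⁻¹ * ENNReal.ofReal (ρ ^ 2)) := by
        set x := X.toReal with hx
        have hXx : X = ENNReal.ofReal x := (ENNReal.ofReal_toReal hXt).symm
        have hx0 : 0 < x := ENNReal.toReal_pos hX0 hXt
        rw [hXx, ← ENNReal.ofReal_inv_of_pos hx0, ← ENNReal.ofReal_mul (by positivity),
          ← ENNReal.ofReal_mul (by positivity), ← ENNReal.ofReal_mul (by positivity),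
          ← ENNReal.ofReal_add (by positivity) (by positivity), Real.enorm_eq_ofReal_abs]
        refine ENNReal.ofReal_le_ofReal ?_
        have h1 : 2 * (s * x) * |ρ| ≤ (s * x) ^ 2 + ρ ^ 2 := by
          nlinarith [sq_nonneg (s * x - |ρ|), sq_abs ρ]
        have h2 : s / 2 * x + 1 / (2 * s) * (x⁻¹ * ρ ^ 2) = ((s * x) ^ 2 + ρ ^ 2) / (2 * (s * x)) := by
          field_simp
        rw [h2, le_div_iff₀ (by positivity)]
        linarith
      refine hA.trans (add_le_add ?_ (mul_le_mul' le_rfl ?_))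
      · have h1 : ENNReal.ofReal (s / 2) = ENNReal.ofReal (s / 4) * 2 := by
          rw [← ENNReal.ofReal_ofNat, ← ENNReal.ofReal_mul (by positivity)]
          congr 1; ring
        rw [h1, mul_assoc]
        exact mul_le_mul' le_rfl (two_mul_le' _ _)
      · refine (mul_le_mul' hQ (ENNReal.ofReal_le_ofReal (sq_sum_le u (fun a => R j a ω y)))).trans ?_
        rw [ENNReal.ofReal_sum_of_nonneg fun a _ => by positivity, Finset.mul_sum]
        refine Finset.sum_le_sum fun a _ => ?_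
        rw [ENNReal.ofReal_mul (by positivity), mul_left_comm]
        refine mul_le_mul' le_rfl ?_
        exact ENNReal.le_tsum (f := fun y => qr τ c ω y * ENNReal.ofReal (R j a ω y ^ 2)) y
    refine (lintegral_mono_ae hpt).trans ?_
    have hVm : ∀ a, Measurable (VR (qr τ c) (R j a)) := fun a => VR_meas hq (hRm j a)
    have hDm : Measurable (fun ω => (1 + Dg c ω) ^ 2) :=
      ((Dg_meas hc.toCon).const_add 1).pow_const 2
    have hDm2 : Measurable (fun ω => (1 + Dg c ω) ^ 2 + (1 + Dg c (T ω)) ^ 2) :=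
      hDm.add (hDm.comp hTm)
    rw [lintegral_add_left (hDm2.const_mul _),
      lintegral_const_mul _ hDm2, lintegral_add_left hDm,
      lintegral_const_mul _ (Finset.measurable_sum _ fun a _ => (hVm a).const_mul _),
      lintegral_finsetSum _ fun a _ => (hVm a).const_mul _]
    refine add_le_add (le_of_eq ?_) (mul_le_mul' le_rfl (Finset.sum_le_sum fun a _ => ?_))
    · have h2 : ∫⁻ ω, (1 + Dg c (T ω)) ^ 2 ∂ν = E₂ := hD2
      rw [h2, ← hE₂, ← two_mul, ← mul_assoc]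
      congr 1
      rw [← ENNReal.ofReal_ofNat, ← ENNReal.ofReal_mul (by positivity)]
      congr 1; ring
    · rw [lintegral_const_mul _ (hVm a)]
      exact mul_le_mul' le_rfl (lintegral_mono' Measure.restrict_le_self le_rfl)
  have key2 : ∀ s : ℝ, 0 < s → ENNReal.ofReal (|u i| * ∫ ω, kk ω ∂ν) ≤
      ENNReal.ofReal (s / 2) * E₂ := by
    intro s hs
    have h1 : Tendsto (fun j => ENNReal.ofReal (s / 2) * E₂ + ENNReal.ofReal (1 / (2 * s)) * r j)
        atTop (𝓝 (ENNReal.ofReal (s / 2) * E₂ + ENNReal.ofReal (1 / (2 * s)) * 0)) :=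
      tendsto_const_nhds.add (ENNReal.Tendsto.const_mul hr0 (Or.inr ENNReal.ofReal_ne_top))
    rw [mul_zero, add_zero] at h1
    exact ge_of_tendsto' h1 fun j => key s hs j
  have key3 : ENNReal.ofReal (|u i| * ∫ ω, kk ω ∂ν) ≤ 0 := by
    have h1 : Tendsto (fun n : ℕ => ENNReal.ofReal (1 / ((n : ℝ) + 1) / 2) * E₂) atTop
        (𝓝 (ENNReal.ofReal (0 / 2) * E₂)) := by
      refine ENNReal.Tendsto.mul_const ?_ (Or.inr hD1)
      exact ENNReal.tendsto_ofReal (tendsto_one_div_add_atTop_nhds_zero_nat.div_const 2)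
    simp only [zero_div, ENNReal.ofReal_zero, zero_mul] at h1
    exact ge_of_tendsto' h1 fun n => key2 _ (by positivity)
  have h1 : |u i| * ∫ ω, kk ω ∂ν ≤ 0 := by
    have := le_antisymm key3 zero_le
    exact ENNReal.ofReal_eq_zero.1 this
  have h2 : |u i| ≤ 0 := by
    by_contra hcon
    rw [not_le] at hcon
    exact absurd h1 (not_le.2 (mul_pos hcon hkpos))
  exact abs_nonpos_iff.1 h2

end Pool.Agent.H979.QIP
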