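import Pool.Agent.H979.QIP.LRP1
import Pool.Agent.H979.QIP.Main3
import Pool.Agent.H979.QIP.Main4
import Pool.Agent.H979.QIP.BM

set_option autoImplicit false
set_option linter.unusedSectionVars false
set_option linter.deprecated false
set_option linter.unusedVariables false
set_option linter.style.haveILetI false

open MeasureTheory ProbabilityTheory Filter Topology Set
open scoped ENNReal NNReal

/-!
# Long range percolation: the quenched invariance principle on the canonical space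
-/

namespace Pool.Agent.H979.QIP

section good

variable {Ω : Type*} [MeasurableSpace Ω] {d : ℕ} {μ : Measure Ω} {τ : Vd d → Ω → Ω}
  {c : Ω → Vd d → ℝ≥0∞}

theorem cg_good {ω : Ω} (hω : ω ∈ Good τ c) (y : Vd d) : cg τ c ω y = c ω y := by
  unfold cg; rw [if_pos hω]

theorem cg_le (ω : Ω) (y : Vd d) : cg τ c ω y ≤ c ω y := by
  unfold cg; split_ifs
  · exact le_rfl
  · exact zero_le

theorem jwt_good (h : Sta μ τ) {ω : Ω} (hω : ω ∈ Good τ c) {N : ℕ} (z : Fin (N + 1) → Vd d) :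
    jwt τ (cg τ c) ω z = jwt τ c ω z := by
  unfold jwt
  congr 1
  refine Finset.prod_congr rfl fun i _ => ?_
  have h1 := (good_inv h (z i.castSucc) ω).2 hω
  rw [cg_good h1, Dg_cg_good h1]

end good

variable {d : ℕ}

theorem lrp_main (hd : 2 ≤ d) (ν : Sym2 (Vd d) → Measure Bool) [∀ e, IsProbabilityMeasure (ν e)]
    (hν : ∀ x e, ν (esh x e) = ν e) (hnn : ∀ i, ν s(0, Pi.single i 1) {true} = 1)
    {Pr : Vd d → ℝ≥0∞} (hPr : ∀ y, ν s(0, y) {true} ≤ Pr y)
    (hM : ∑' y, Pr y * (sz y : ℝ≥0∞) ^ 2 ≠ ∞) :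
    ∃ (S : Matrix (Fin d) (Fin d) ℝ), S.PosDef ∧
    ∃ (Ω' : Type) (mΩ' : MeasurableSpace Ω') (P' : Measure Ω'), IsProbabilityMeasure P' ∧
    ∃ W : ℝ → Ω' → (Fin d → ℝ),
      (∀ t, Measurable (W t)) ∧ (∀ ω', Continuous (fun t => W t ω')) ∧
      (∀ (k : ℕ) (t : Fin k → ℝ) (u : Fin k → Fin d → ℝ), (∀ j, 0 ≤ t j) →
        ∫ ω', Complex.exp (Complex.I * ((∑ j, ∑ a, u j a * W (t j) ω' a : ℝ) : ℂ)) ∂P' =
          Complex.exp (-((∑ j, ∑ l, min (t j) (t l) *
              (∑ a, ∑ b, u j a * S a b * u l b) : ℝ) : ℂ) / 2)) ∧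
      ∀ᵐ η ∂(Measure.infinitePi ν), ∀ T : ℝ, 0 < T →
        ∀ F : UniformFun (Icc (0 : ℝ) T) (Fin d → ℝ) → ℝ, Continuous F → (∃ C : ℝ, ∀ f, |F f| ≤ C) →
        Tendsto (fun n : ℕ => ∑' z : Fin (⌊T * n⌋₊ + 1 + 1) → Vd d,
          (jwt (shf esh) cl η z).toReal * F (UniformFun.ofFun (pth T n z))) atTop
          (𝓝 (∫ ω', F (UniformFun.ofFun (fun t : Icc (0 : ℝ) T => W t.1 ω')) ∂P')) := by
  classical
  set μ := Measure.infinitePi ν with hμ
  set τ : Vd d → Env d → Env d := shf esh with hτ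
  have h : Sta μ τ := sta_prod acts_esh ν hν
  -- the moments
  have hsz : ∀ y : Vd d, (1 : ℝ≥0∞) ≤ (sz y : ℝ≥0∞) := fun y => by
    have : 1 ≤ sz y := by unfold sz; omega
    exact_mod_cast this
  have hM1 : ∑' y, Pr y * (sz y : ℝ≥0∞) ≠ ∞ := by
    refine ne_top_of_le_ne_top hM (ENNReal.tsum_le_tsum fun y => mul_le_mul' le_rfl ?_)
    calc (sz y : ℝ≥0∞) = 1 * sz y := (one_mul _).symm
      _ ≤ sz y * sz y := mul_le_mul' (hsz y) le_rfl
      _ = _ := (sq _).symm
  have hM0 : ∑' y, Pr y ≠ ∞ := by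
    refine ne_top_of_le_ne_top hM1 (ENNReal.tsum_le_tsum fun y => ?_)
    calc Pr y = Pr y * 1 := (mul_one _).symm
      _ ≤ _ := mul_le_mul' le_rfl (hsz y)
  have hD0 : ∫⁻ η, Dg cl η ∂μ ≠ ∞ := ne_top_of_le_ne_top hM0 (int_Dg hPr)
  have hV0 : ∫⁻ η, Vt cl η ∂μ ≠ ∞ := ne_top_of_le_ne_top hM (int_Vt hPr)
  have hb0 : ∫⁻ η, bt cl η ^ 2 ∂μ ≠ ∞ := ne_top_of_le_ne_top
    (ENNReal.add_ne_top.2 ⟨hM, ENNReal.pow_ne_top hM1⟩) (int_bt hPr)
  -- the conductances
  set c := cg τ cl with hcdef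
  have hc : RC τ c := rc_cg h con_cl
  have hD : ∫⁻ η, Dg c η ∂μ ≠ ∞ := ne_top_of_le_ne_top hD0
    (lintegral_mono fun η => ENNReal.tsum_le_tsum fun y => cg_le η y)
  have hV : ∫⁻ η, Vt c η ∂μ ≠ ∞ := ne_top_of_le_ne_top hV0
    (lintegral_mono fun η => ENNReal.tsum_le_tsum fun y => mul_le_mul' (cg_le η y) le_rfl)
  have hb : ∫⁻ η, bt c η ^ 2 ∂μ ≠ ∞ := ne_top_of_le_ne_top hb0
    (lintegral_mono fun η => pow_le_pow_left₀ zero_le
      (ENNReal.tsum_le_tsum fun y => mul_le_mul' (cg_le η y) le_rfl) 2)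
  have hgood : ∀ᵐ η ∂μ, η ∈ Good τ cl := good_ae h con_cl hD0
  -- the nearest neighbours
  have hopen : ∀ᵐ η ∂μ, ∀ i : Fin d, cl η (Pi.single i 1) = 1 := by
    rw [ae_all_iff]
    intro i
    have h1 : ∀ᵐ η ∂μ, η s(0, Pi.single i 1) = true := by
      have hm : Measurable (fun η : Env d => η s(0, Pi.single i 1)) := measurable_pi_apply _
      have h2 : μ ((fun η : Env d => η s(0, Pi.single i 1)) ⁻¹' {true}) = 1 := by
        rw [← Measure.map_apply hm (measurableSet_singleton true)]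
        have := Measure.infinitePi_map_eval ν s(0, Pi.single i 1)
        rw [hμ, this, hnn]
      have h3 := (prob_compl_eq_zero_iff (hm (measurableSet_singleton true))).2 h2
      exact h3
    filter_upwards [h1] with η hη
    unfold cl
    rw [if_pos ⟨by simp, hη⟩]
  have hc1 : ∀ᵐ η ∂μ, ∀ i : Fin d, c η (Pi.single i 1) = 1 := by
    filter_upwards [hopen, hgood] with η h1 h2 i
    rw [hcdef, cg_good h2, h1]
  -- ergodicity
  have hd0 : 0 < d := by omega
  set i0 : Fin d := ⟨0, hd0⟩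
  have herg : Ergodic (τ (Pi.single i0 1)) μ :=
    erg_prod acts_esh ν hν (Pi.single i0 1) (esh_far i0)
  have hO : ErgO μ τ (qr τ c) univ := by
    refine ergO_univ herg ?_
    filter_upwards [hc1] with η hη
    intro h0
    have h1 := kp_single_le (τ := τ) (c := c) η (Pi.single i0 1)
    rw [h0, kp_single, hη i0, one_mul] at h1
    have h2 := le_antisymm h1 zero_le
    rw [mul_eq_zero, ENNReal.inv_eq_zero, ENNReal.inv_eq_zero] at h2
    rcases h2 with h2 | h2
    · exact (ENNReal.add_ne_top.2 ⟨ENNReal.one_ne_top, hc.fin _⟩) h2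
    · exact (ENNReal.add_ne_top.2 ⟨ENNReal.one_ne_top, hc.fin _⟩) h2
  have hL : ∀ᵐ η ∂μ, η ∈ (univ : Set (Env d)) → ∃ nx, Lines (cr τ c η) {x | τ x η ∈ univ} nx := by
    filter_upwards [ae_all (pr := fun η => ∀ i : Fin d, c η (Pi.single i 1) = 1) h hc1] with η hη _
    refine ⟨fun i x => x + Pi.single i 1, ?_, ?_, ?_, ?_⟩
    · intro i x _
      refine ⟨x i + 1, by omega, ?_⟩
      funext j
      by_cases hj : j = i
      · subst hj; simp
      · simp [hj]
    · intro i x _; exact mem_univ _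
    · intro i x _ y _ hxy
      exact add_right_cancel hxy
    · intro i x _
      unfold cr
      rw [add_sub_cancel_left, hη x i]
      simp
  obtain ⟨G, a, ha, hGm, hG2, hGφ, hQn⟩ := ae_qn h hc hO hd hD hV hb hL
  have hpd := posdef h hc MeasurableSet.univ (by simp) hb hGm hG2 hGφ
    (fun i _ => Pi.single i 1) (fun i => measurable_const)
    (fun i => Eventually.of_forall fun η _ => ⟨1, one_pos, rfl⟩)
    (fun i => by filter_upwards [hc1] with η hη _; exact (hη i).ge)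
    (fun i => by rw [Measure.restrict_univ]; exact h.pres _)
  set C : Fin d → Fin d → ℝ := fun i j => cov μ τ (qr τ c) univ (G i) (G j) with hC
  set S : Matrix (Fin d) (Fin d) ℝ := Matrix.of (fun i j => C i j / a) with hS
  have hSpd : S.PosDef := by
    have e1 : S = (1 / a) • (Matrix.of (fun i j => C i j)) := by
      ext i j
      simp only [hS, Matrix.of_apply, Matrix.smul_apply, smul_eq_mul]
      ring
    rw [e1]
    exact hpd.smul (by positivity)
  obtain ⟨Ω', mΩ', P', hP', W, hWm, hWc, hW⟩ := exists_BM hSpd.posSemidef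
  refine ⟨S, hSpd, Ω', mΩ', P', hP', W, hWm, hWc, hW, ?_⟩
  filter_upwards [hQn, hgood] with η h1 h2 T hT F hF hFb
  have h3 := (h1 (mem_univ _)).jump_conv ha P' W hWm hWc (fun k t u ht => hW k t u ht) hT F hF hFb
  refine h3.congr fun n => tsum_congr fun z => ?_
  rw [hcdef, jwt_good h h2]

end Pool.Agent.H979.QIP
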