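import Pool.Agent.H979.QIP.Env

set_option autoImplicit false
set_option linter.unusedSectionVars false
set_option linter.deprecated false
set_option linter.unusedVariables false
set_option linter.style.haveILetI false

open MeasureTheory ProbabilityTheory Filter Topology Set
open scoped ENNReal NNReal

/-!
# The localised estimate in a stationary environment
-/

namespace Pool.Agent.H979.QIP

variable {Ω : Type*} [MeasurableSpace Ω] {d : ℕ} {μ : Measure Ω} {τ : Vd d → Ω → Ω}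
  {q : Ω → Vd d → ℝ≥0∞}

theorem fx_anti (h : Sta μ τ) {R : Ω → Vd d → ℝ} (hR : ∀ ω y, R ω y = - R (τ y ω) (-y)) (ω : Ω)
    (x y : Vd d) : fx τ R ω x y = - fx τ R ω y x := by
  unfold fx
  rw [hR, h.add]
  congr 2
  · congr 1; ring
  · ring

theorem local_lz (h : Sta μ τ) (hq : Ker τ q) (ω : Ω) {C : ℝ≥0∞} (m0 N : ℕ)
    (heat : haveI := qM_prob hq ω; ∀ y, P (qM τ q ω) 0 {w | w m0 = y} ≤ C)
    {R : Ω → Vd d → ℝ} (hR : ∀ ω y, R ω y = - R (τ y ω) (-y)) (hV : ∀ x, VR q R (τ x ω) ≠ ∞)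
    {a : ℝ} (ha : 0 < a) {v c : ℝ≥0∞} (hv : v ≤ ENNReal.ofReal ((a / 4) ^ 2)) (hv0 : v ≠ 0)
    (hc : ((N : ℝ≥0∞) + 1) / v ≤ c) (ρ : ℕ) :
    haveI := qM_prob hq ω
    P (qM τ q ω) 0 {w | w m0 ∈ box d ρ ∧ w (m0 + N) ∈ box d ρ ∧
      ∃ k ≤ N, a < |S (fx τ R ω) k (fun j => w (m0 + j))|} ≤
      C * (((2 * ρ + 1 : ℕ) : ℝ≥0∞) ^ d * (2 * (v / ENNReal.ofReal ((a / 2) ^ 2)) +
        3 * bx τ (fun ω => min 1 (c * mx (Qo τ q) (VR q R) ω)) ω)) := by
  classical
  haveI := qM_prob hq ω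
  set B : Set (Vd d) := (box d ρ : Set (Vd d)) with hB
  set E : Set (ℕ → Vd d) := {w | w 0 ∈ B ∧ w N ∈ B ∧ ∃ k ≤ N, a < |S (fx τ R ω) k w|} with hE
  have hDE : Dep N (fun w => w ∈ E) := by
    intro w w' hw
    simp only [hE, mem_setOf_eq]
    rw [hw 0 (Nat.zero_le _), hw N le_rfl]
    have : (∃ k ≤ N, a < |S (fx τ R ω) k w|) = (∃ k ≤ N, a < |S (fx τ R ω) k w'|) := by
      simp only [eq_iff_iff]
      constructor
      · rintro ⟨k, hk, h⟩; exact ⟨k, hk, by rwa [← dep_S _ hk w w' hw]⟩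
      · rintro ⟨k, hk, h⟩; exact ⟨k, hk, by rwa [dep_S _ hk w w' hw]⟩
    rw [this]
  have hEm : MeasurableSet E := hDE.measurableSet
  have e0 : {w : ℕ → Vd d | w m0 ∈ box d ρ ∧ w (m0 + N) ∈ box d ρ ∧
      ∃ k ≤ N, a < |S (fx τ R ω) k (fun j => w (m0 + j))|} = {w | (fun j => w (m0 + j)) ∈ E} := by
    ext w
    simp [hE, hB]
  have hsm : Measurable (fun (w : ℕ → Vd d) j => w (m0 + j)) :=
    measurable_pi_lambda _ fun k => measurable_pi_apply _
  have e1 : P (qM τ q ω) 0 {w | (fun j => w (m0 + j)) ∈ E} =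
      ∑' y, P (qM τ q ω) y E * P (qM τ q ω) 0 {w | w m0 = y} := by
    have h1 := markov_shift (qM τ q ω) m0 0 (f := E.indicator 1) (measurable_one.indicator hEm)
    have h2 : ∫⁻ w, E.indicator (1 : (ℕ → Vd d) → ℝ≥0∞) (fun k => w (m0 + k)) ∂P (qM τ q ω) 0 =
        P (qM τ q ω) 0 {w | (fun j => w (m0 + j)) ∈ E} := by
      exact lintegral_indicator_one (hsm hEm)
    rw [h2] at h1
    rw [h1]
    have h3 : (fun y => ∫⁻ w, E.indicator (1 : (ℕ → Vd d) → ℝ≥0∞) w ∂P (qM τ q ω) y) =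
        fun y => P (qM τ q ω) y E := funext fun y => lintegral_indicator_one hEm
    rw [h3, ← lintegral_coord, ← lintegral_map (μ := P (qM τ q ω) 0)
      (f := fun y => P (qM τ q ω) y E) (g := fun w => w m0) (measurable_of_countable _)
      (measurable_pi_apply m0), lintegral_countable']
    refine tsum_congr fun y => ?_
    rw [Measure.map_apply (measurable_pi_apply m0) (MeasurableSet.singleton _)]
    rfl
  rw [e0, e1]
  have e2 : ∑' y, P (qM τ q ω) y E * P (qM τ q ω) 0 {w | w m0 = y} ≤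
      C * ∑' y, B.indicator (fun x => P (qM τ q ω) x {w | w N ∈ B ∧
        ∃ k ≤ N, a < |S (fx τ R ω) k w|}) y := by
    rw [← ENNReal.tsum_mul_left]
    refine ENNReal.tsum_le_tsum fun y => ?_
    rw [mul_comm]
    refine mul_le_mul' (heat y) ?_
    by_cases hy : y ∈ B
    · rw [indicator_of_mem hy]
      exact measure_mono fun w hw => ⟨hw.2.1, hw.2.2⟩
    · rw [indicator_of_notMem hy]
      refine le_of_eq ?_
      refine measure_mono_null (t := {w | ¬ (w 0 = y)}) (fun w hw h0 => hy ?_) (P_zero _ y)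
      rw [← h0]; exact hw.1
  refine e2.trans (mul_le_mul' le_rfl ?_)
  refine (lz (qM τ q ω) (qM_symm h hq ω) (fx_anti h hR ω) (fun x => by rw [V_fx]; exact hV x) ha hv
    N B).trans ?_
  have e3 : ∀ x, P (qM τ q ω) x {w | v < A (V (qM τ q ω) (fx τ R ω)) (N + 1) w} ≤
      min 1 (c * mx (Qo τ q) (VR q R) (τ x ω)) := by
    intro x
    refine le_min prob_le_one ?_
    have eV : (V (qM τ q ω) (fx τ R ω)) = fun x => VR q R (τ x ω) := funext fun x => V_fx R ω x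
    rw [eV]
    have h1 : v * P (qM τ q ω) x {w | v < A (fun x => VR q R (τ x ω)) (N + 1) w} ≤
        ∫⁻ w, A (fun x => VR q R (τ x ω)) (N + 1) w ∂(P (qM τ q ω) x) := by
      refine le_trans ?_ (mul_meas_ge_le_lintegral (dep_A _ (le_refl (N + 1))).measurable v)
      gcongr
      exact fun hx => le_of_lt hx
    rw [lintegral_A h hq] at h1
    have h2 : Sm (Qo τ q) (VR q R) (N + 1) (τ x ω) / ((N : ℝ≥0∞) + 1) ≤
        mx (Qo τ q) (VR q R) (τ x ω) :=
      le_iSup (fun n : ℕ => Sm (Qo τ q) (VR q R) (n + 1) (τ x ω) / ((n : ℝ≥0∞) + 1)) N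
    have hv' : v ≠ ∞ := ne_top_of_le_ne_top ENNReal.ofReal_ne_top hv
    rw [ENNReal.div_le_iff (by simp) (by simp)] at h2
    have h3 : P (qM τ q ω) x {w | v < A (fun x => VR q R (τ x ω)) (N + 1) w} ≤
        (mx (Qo τ q) (VR q R) (τ x ω) * ((N : ℝ≥0∞) + 1)) / v := by
      rw [ENNReal.le_div_iff_mul_le (Or.inl hv0) (Or.inl hv'), mul_comm]
      exact h1.trans h2
    refine h3.trans ?_
    rw [mul_div_assoc, mul_comm]
    gcongr
  rw [tsum_eq_sum (s := box d ρ) (fun x hx => indicator_of_notMem (by simpa [hB] using hx) _)]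
  have e4 : ∀ x ∈ box d ρ, B.indicator (fun x => 2 * (v / ENNReal.ofReal ((a / 2) ^ 2)) +
      3 * P (qM τ q ω) x {w | v < A (V (qM τ q ω) (fx τ R ω)) (N + 1) w}) x ≤
      2 * (v / ENNReal.ofReal ((a / 2) ^ 2)) + 3 * min 1 (c * mx (Qo τ q) (VR q R) (τ x ω)) := by
    intro x hx
    rw [indicator_of_mem (by simpa [hB] using hx)]
    gcongr
    exact e3 x
  refine (Finset.sum_le_sum e4).trans ?_
  rw [Finset.sum_add_distrib, Finset.sum_const, card_box, ← Finset.mul_sum, mul_add]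
  refine add_le_add ?_ ?_
  · rw [nsmul_eq_mul]
    push_cast
    exact le_rfl
  · calc _ ≤ 3 * (((2 * ρ + 1 : ℕ) : ℝ≥0∞) ^ d *
          bx τ (fun ω => min 1 (c * mx (Qo τ q) (VR q R) ω)) ω) := by
          gcongr
          exact sum_le_bx (fun ω => min 1 (c * mx (Qo τ q) (VR q R) ω)) ω ρ
      _ = _ := by ring

end Pool.Agent.H979.QIP
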