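import Pool.Agent.H979.QIP.Corr

set_option autoImplicit false
set_option linter.unusedSectionVars false
set_option linter.deprecated false
set_option linter.unusedVariables false
set_option linter.style.haveILetI false

open MeasureTheory ProbabilityTheory Filter Topology Set
open scoped ENNReal NNReal InnerProductSpace

/-!
# The corrector is negligible for almost every environment
-/

namespace Pool.Agent.H979.QIP

variable {Ω : Type*} [MeasurableSpace Ω] {d : ℕ} {μ : Measure Ω} {τ : Vd d → Ω → Ω}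
  {q : Ω → Vd d → ℝ≥0∞}

theorem MO.mx_lt_top {T : (Ω → ℝ≥0∞) → Ω → ℝ≥0∞} [IsFiniteMeasure μ] (hT : MO μ T)
    {g : Ω → ℝ≥0∞} (hg : Measurable g) (hfin : ∫⁻ ω, g ω ∂μ ≠ ∞) : ∀ᵐ ω ∂μ, mx T g ω ≠ ∞ := by
  show μ {ω | ¬ mx T g ω ≠ ∞} = 0
  by_contra hcon
  set a := μ {ω | ¬ mx T g ω ≠ ∞} with ha
  have ha' : a ≠ ∞ := measure_ne_top _ _
  have h1 : ∀ n : ℕ, (n : ℝ≥0∞) * a ≤ ∫⁻ ω, g ω ∂μ := by
    intro n
    refine le_trans (mul_le_mul' le_rfl (measure_mono fun ω hω => ?_)) (hT.maximal hg n)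
    simp only [ne_eq, not_not, mem_setOf_eq] at hω ⊢
    rw [hω]
    exact ENNReal.natCast_lt_top n
  obtain ⟨n, hn⟩ := ENNReal.exists_nat_mul_gt hcon hfin
  exact absurd (h1 n) (not_le.2 hn)

/-- a series of functions with summable integrals is finite, hence its terms are bounded -/
theorem ae_bound {f : ℕ → Ω → ℝ≥0∞} (hf : ∀ j, Measurable (f j)) {a : ℕ → ℝ}
    (ha : ∀ j, 0 ≤ a j) (hs : Summable a) (hfa : ∀ j, ∫⁻ ω, f j ω ∂μ ≤ ENNReal.ofReal (a j)) :
    ∀ᵐ ω ∂μ, ∃ C : ℝ, 0 ≤ C ∧ ∀ j, f j ω ≤ ENNReal.ofReal C := by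
  have h1 : ∫⁻ ω, ∑' j, f j ω ∂μ ≠ ∞ := by
    rw [lintegral_tsum fun j => (hf j).aemeasurable]
    refine ne_top_of_le_ne_top ?_ (ENNReal.tsum_le_tsum hfa)
    rw [← ENNReal.ofReal_tsum_of_nonneg ha hs]
    exact ENNReal.ofReal_ne_top
  filter_upwards [ae_lt_top (Measurable.tsum hf) h1] with ω hω
  refine ⟨(∑' j, f j ω).toReal, ENNReal.toReal_nonneg, fun j => ?_⟩
  rw [ENNReal.ofReal_toReal hω.ne]
  exact ENNReal.le_tsum j

variable [IsProbabilityMeasure μ]

theorem exit_box (h : Sta μ τ) (hq : Ker τ q) (i : Fin d)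
    (hfin : ∫⁻ ω, VR q (co i) ω ∂μ ≠ ∞) :
    ∀ᵐ ω ∂μ, ∃ C₃ : ℝ, 0 ≤ C₃ ∧ ∀ l : ℕ, bx τ (fun ω => min 1 (ENNReal.ofReal (1 / 2 ^ l) *
      mx (Qo τ q) (VR q (co i)) ω)) ω ≤ ENNReal.ofReal (C₃ * ((2 : ℝ) ^ l) ^ (-(1 / 2 ^ (d + 2) : ℝ))) := by
  set κ : ℝ := 1 / 2 ^ (d + 2) with hκ
  have hκ0 : 0 < κ := by positivity
  have hVm : Measurable (VR q (co (Ω := Ω) i)) := VR_meas hq fun y => measurable_const
  set E : ℝ := (∫⁻ ω, VR q (co i) ω ∂μ).toReal with hE
  have hE0 : 0 ≤ E := ENNReal.toReal_nonneg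
  have hEE : ∫⁻ ω, VR q (co i) ω ∂μ = ENNReal.ofReal E := (ENNReal.ofReal_toReal hfin).symm
  set E' : ℝ := max 1 (√E) with hE'
  have hE'1 : 1 ≤ E' := le_max_left _ _
  set f : ℕ → Ω → ℝ≥0∞ := fun l => bx τ (fun ω => min 1 (ENNReal.ofReal (1 / 2 ^ l) *
      mx (Qo τ q) (VR q (co i)) ω)) with hf
  have hWm : ∀ l : ℕ, Measurable (fun ω => min 1 (ENNReal.ofReal (1 / 2 ^ l) *
      mx (Qo τ q) (VR q (co i)) ω)) := fun l =>
    measurable_const.min (((mo_Qo h hq).mx_meas hVm).const_mul _)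
  have hfm : ∀ l, Measurable (f l) := fun l => bx_meas h (hWm l)
  have hint : ∀ l : ℕ, ∫⁻ ω, f l ω ∂μ ≤ ENNReal.ofReal (16 * (E' * ((2 : ℝ) ^ l) ^ (-(2 * κ)))) := by
    intro l
    set s : ℝ := √E' * E' ^ 0 * ((2 : ℝ) ^ l) ^ (-(1 / 2 : ℝ)) with hs
    set s2 : ℝ := E' * ((2 : ℝ) ^ l) ^ (-(1 / 2 : ℝ)) with hs2
    have hs20 : 0 < s2 := by positivity
    have h1 : ∫⁻ ω, min 1 (ENNReal.ofReal (1 / 2 ^ l) * mx (Qo τ q) (VR q (co i)) ω) ∂μ ≤
        2 * ENNReal.ofReal s2 := by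
      refine (mo_Qo h hq).min_mx hVm ENNReal.ofReal_ne_top ?_ ENNReal.ofReal_ne_top ?_
      · rw [Ne, ENNReal.ofReal_eq_zero, not_le]; exact hs20
      · rw [hEE, ← ENNReal.ofReal_mul (by positivity), ← ENNReal.ofReal_mul hs20.le]
        refine ENNReal.ofReal_le_ofReal ?_
        have e1 : s2 * s2 = E' ^ 2 * (1 / 2 ^ l) := by
          rw [hs2]
          have : ((2 : ℝ) ^ l) ^ (-(1 / 2 : ℝ)) * ((2 : ℝ) ^ l) ^ (-(1 / 2 : ℝ)) = 1 / 2 ^ l := by
            rw [← Real.rpow_add (by positivity)]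
            norm_num
            rw [Real.rpow_neg_one]
          calc _ = E' ^ 2 * (((2 : ℝ) ^ l) ^ (-(1 / 2 : ℝ)) * ((2 : ℝ) ^ l) ^ (-(1 / 2 : ℝ))) := by ring
            _ = _ := by rw [this]
        rw [e1, mul_comm]
        refine mul_le_mul_of_nonneg_right ?_ (by positivity)
        have : √E ≤ E' := le_max_right _ _
        calc E = √E ^ 2 := (Real.sq_sqrt hE0).symm
          _ ≤ E' ^ 2 := pow_le_pow_left₀ (Real.sqrt_nonneg _) this 2
    have hσ0 : 0 < E' * ((2 : ℝ) ^ l) ^ (-(2 * κ)) := by positivity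
    have h2 : ∫⁻ ω, min 1 (ENNReal.ofReal (1 / 2 ^ l) * mx (Qo τ q) (VR q (co i)) ω) ∂μ ≤
        16 * (ENNReal.ofReal (E' * ((2 : ℝ) ^ l) ^ (-(2 * κ)))) ^ (2 ^ d) := by
      refine h1.trans ?_
      rw [← ENNReal.ofReal_pow hσ0.le]
      have e2 : (2 : ℝ≥0∞) = ENNReal.ofReal 2 := by simp
      have e16 : (16 : ℝ≥0∞) = ENNReal.ofReal 16 := by simp
      rw [e2, e16, ← ENNReal.ofReal_mul (by norm_num), ← ENNReal.ofReal_mul (by norm_num)]
      refine ENNReal.ofReal_le_ofReal ?_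
      rw [mul_pow, ← Real.rpow_natCast (((2 : ℝ) ^ l) ^ (-(2 * κ))), ← Real.rpow_mul (by positivity)]
      have e3 : -(2 * κ) * ((2 ^ d : ℕ) : ℝ) = -(1 / 2) := by
        rw [hκ]
        push_cast
        rw [pow_add]
        field_simp
      rw [e3]
      have h3 : E' ≤ E' ^ (2 ^ d) := le_self_pow₀ hE'1 (by positivity)
      have h4 : 0 ≤ ((2 : ℝ) ^ l) ^ (-(1 / 2 : ℝ)) := by positivity
      have h5 := mul_le_mul_of_nonneg_right h3 h4
      rw [hs2]
      nlinarith [mul_nonneg (by positivity : 0 ≤ E') h4]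
    have h6 := bx_int h (hWm l) (fun ω => min_le_left _ _)
      (s := ENNReal.ofReal (E' * ((2 : ℝ) ^ l) ^ (-(2 * κ))))
      (by rw [Ne, ENNReal.ofReal_eq_zero, not_le]; exact hσ0) ENNReal.ofReal_ne_top h2
    refine h6.trans (le_of_eq ?_)
    have e16 : (16 : ℝ≥0∞) = ENNReal.ofReal 16 := by simp
    rw [e16, ← ENNReal.ofReal_mul (by norm_num)]
  -- the weighted functions
  have hsum : Summable (fun l : ℕ => 16 * E' * ((2 : ℝ) ^ (-κ)) ^ l) :=
    (summable_geometric_of_lt_one (by positivity)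
      (Real.rpow_lt_one_of_one_lt_of_neg (by norm_num) (by linarith))).mul_left _
  have h7 := ae_bound (μ := μ) (f := fun l ω => ENNReal.ofReal (((2 : ℝ) ^ l) ^ κ) * f l ω)
    (fun l => (hfm l).const_mul _) (fun l => by positivity) hsum (fun l => by
      rw [lintegral_const_mul _ (hfm l)]
      refine (mul_le_mul' le_rfl (hint l)).trans ?_
      rw [← ENNReal.ofReal_mul (by positivity)]
      refine ENNReal.ofReal_le_ofReal (le_of_eq ?_)
      have e4 : ((2 : ℝ) ^ (-κ)) ^ l = ((2 : ℝ) ^ l) ^ κ * ((2 : ℝ) ^ l) ^ (-(2 * κ)) := by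
        rw [← Real.rpow_add (by positivity), ← Real.rpow_natCast, ← Real.rpow_natCast,
          ← Real.rpow_mul (by norm_num), ← Real.rpow_mul (by norm_num)]
        congr 1
        ring
      rw [e4]
      ring)
  filter_upwards [h7] with ω ⟨C, hC0, hC⟩
  refine ⟨C, hC0, fun l => ?_⟩
  have h8 := hC l
  have hp : (0 : ℝ) < ((2 : ℝ) ^ l) ^ κ := by positivity
  rw [Real.rpow_neg (by positivity), ← div_eq_mul_inv, ENNReal.ofReal_div_of_pos hp,
    ENNReal.le_div_iff_mul_le (Or.inl ?_) (Or.inl ENNReal.ofReal_ne_top), mul_comm]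
  · exact h8
  · rw [Ne, ENNReal.ofReal_eq_zero, not_le]; exact hp

/-- **the corrector**: almost surely it is negligible along the path -/
theorem machine_neg (h : Sta μ τ) (hq : Ker τ q) (i : Fin d)
    (hfin : ∫⁻ ω, VR q (co i) ω ∂μ ≠ ∞) :
    ∃ G : Ω → Vd d → ℝ, (∀ y, Measurable (fun ω => G ω y)) ∧ (∀ ω y, G ω y = - G (τ y ω) (-y)) ∧
      (∫⁻ ω, VR q G ω ∂μ ≠ ∞) ∧ (∀ᵐ ω ∂μ, ∫ y, G ω y ∂(qM τ q ω 0) = 0) ∧
      (∃ φ : ℕ → Ω → ℝ, (∀ j, Measurable (φ j)) ∧ (∀ j, ∃ c, ∀ ω, |φ j ω| ≤ c) ∧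
        Tendsto (fun j => ∫⁻ ω, VR q (fun ω y => co i ω y - G ω y - (φ j (τ y ω) - φ j ω)) ω ∂μ)
          atTop (𝓝 0)) ∧
      ∀ᵐ ω ∂μ, ∀ C₁ C₂, Inp τ q hq ω C₁ C₂ → ∀ δ : ℝ, 0 < δ →
        haveI := qM_prob hq ω
        Tendsto (fun n : ℕ => P (qM τ q ω) 0
          {w | ∃ k ≤ n, δ * √n < |(w k i : ℝ) - S (fx τ G ω) k w|}) atTop (𝓝 0) := by
  set t : ℕ → ℝ := fun j => ((1 / 4 : ℝ) ^ j) ^ (2 ^ d) with ht
  have ht0 : ∀ j, 0 < t j := fun j => by positivity
  set ε : ℕ → ℝ := fun j => (1 / 2) ^ j * (64 * t j ^ 2) with hε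
  have hε0 : ∀ j, 0 < ε j := fun j => by have := ht0 j; positivity
  obtain ⟨G, φ, hGm, hGa, hG2, hGd, hφm, hφb, hR⟩ := exists_corrector h hq i hfin ε hε0
  set R : ℕ → Ω → Vd d → ℝ := fun j ω y => co i ω y - G ω y - (φ j (τ y ω) - φ j ω) with hRdef
  have hRm : ∀ j y, Measurable (fun ω => R j ω y) := fun j y =>
    (measurable_const.sub (hGm y)).sub (((hφm j).comp (h.pres y).measurable).sub (hφm j))
  have hVRm : ∀ j, Measurable (VR q (R j)) := fun j => VR_meas hq (hRm j)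
  have hVGm : Measurable (VR q G) := VR_meas hq hGm
  have hRa : ∀ j ω y, R j ω y = - R j (τ y ω) (-y) := by
    intro j ω y
    simp only [hRdef]
    rw [h.add, add_neg_cancel, h.zero, hGa ω y]
    simp [co]
    ring
  have hεlim : Tendsto ε atTop (𝓝 0) := by
    refine squeeze_zero (fun j => (hε0 j).le) (fun j => ?_)
      (g := fun j => 64 * ((1 : ℝ) / 2) ^ j) ?_
    · have h1 : t j ≤ 1 := pow_le_one₀ (by positivity) (pow_le_one₀ (by norm_num) (by norm_num))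
      have h2 : t j ^ 2 ≤ 1 := pow_le_one₀ (ht0 j).le h1
      simp only [hε]
      have : (0 : ℝ) ≤ (1 / 2) ^ j := by positivity
      nlinarith
    · have := (tendsto_pow_atTop_nhds_zero_of_lt_one (r := (1 / 2 : ℝ)) (by norm_num)
        (by norm_num)).const_mul 64
      simpa using this
  refine ⟨G, hGm, hGa, hG2, hGd, ⟨φ, hφm, hφb, ?_⟩, ?_⟩
  · have h1 : Tendsto (fun j => ENNReal.ofReal (ε j)) atTop (𝓝 0) := by
      have := ENNReal.tendsto_ofReal hεlim
      simpa using this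
    exact tendsto_of_tendsto_of_tendsto_of_le_of_le tendsto_const_nhds h1 (fun j => zero_le) hR
  -- the boxes
  have hWm : ∀ j : ℕ, Measurable (fun ω => min 1 (ENNReal.ofReal (1 / (1 / 2) ^ j) *
      mx (Qo τ q) (VR q (R j)) ω)) := fun j =>
    measurable_const.min (((mo_Qo h hq).mx_meas (hVRm j)).const_mul _)
  have hint : ∀ j : ℕ, ∫⁻ ω, bx τ (fun ω => min 1 (ENNReal.ofReal (1 / (1 / 2) ^ j) *
      mx (Qo τ q) (VR q (R j)) ω)) ω ∂μ ≤ ENNReal.ofReal (16 * (1 / 4) ^ j) := by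
    intro j
    have h1 : ∫⁻ ω, min 1 (ENNReal.ofReal (1 / (1 / 2) ^ j) * mx (Qo τ q) (VR q (R j)) ω) ∂μ ≤
        2 * ENNReal.ofReal (8 * t j) := by
      refine (mo_Qo h hq).min_mx (hVRm j) ENNReal.ofReal_ne_top ?_ ENNReal.ofReal_ne_top ?_
      · rw [Ne, ENNReal.ofReal_eq_zero, not_le]; have := ht0 j; positivity
      · refine (mul_le_mul' le_rfl (hR j)).trans ?_
        rw [← ENNReal.ofReal_mul (by positivity), ← ENNReal.ofReal_mul (by have := ht0 j; positivity)]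
        refine ENNReal.ofReal_le_ofReal (le_of_eq ?_)
        simp only [hε]
        field_simp
        ring
    have h2 := bx_int h (hWm j) (fun ω => min_le_left _ _) (s := ENNReal.ofReal ((1 / 4) ^ j))
      (by rw [Ne, ENNReal.ofReal_eq_zero, not_le]; positivity) ENNReal.ofReal_ne_top (by
        refine h1.trans (le_of_eq ?_)
        rw [← ENNReal.ofReal_pow (by positivity)]
        have e2 : (2 : ℝ≥0∞) = ENNReal.ofReal 2 := by simp
        have e16 : (16 : ℝ≥0∞) = ENNReal.ofReal 16 := by simp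
        rw [e2, e16, ← ENNReal.ofReal_mul (by norm_num), ← ENNReal.ofReal_mul (by norm_num)]
        congr 1
        simp only [ht]
        ring)
    refine h2.trans (le_of_eq ?_)
    have e16 : (16 : ℝ≥0∞) = ENNReal.ofReal 16 := by simp
    rw [e16, ← ENNReal.ofReal_mul (by norm_num)]
  have h7 := ae_bound (μ := μ) (f := fun j ω => ENNReal.ofReal ((2 : ℝ) ^ j) *
      bx τ (fun ω => min 1 (ENNReal.ofReal (1 / (1 / 2) ^ j) *
      mx (Qo τ q) (VR q (R j)) ω)) ω)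
    (a := fun j => 16 * (1 / 2) ^ j)
    (fun j => (bx_meas h (hWm j)).const_mul _) (fun j => by positivity)
    ((summable_geometric_of_lt_one (by norm_num) (by norm_num)).mul_left _) (fun j => by
      rw [lintegral_const_mul _ (bx_meas h (hWm j))]
      refine (mul_le_mul' le_rfl (hint j)).trans ?_
      rw [← ENNReal.ofReal_mul (by positivity)]
      refine ENNReal.ofReal_le_ofReal (le_of_eq ?_)
      have : (1 / 2 : ℝ) ^ j = 2 ^ j * (1 / 4) ^ j := by rw [← mul_pow]; norm_num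
      rw [this]; ring)
  have hRfin : ∀ᵐ ω ∂μ, ∀ j, VR q (R j) ω ≠ ∞ := by
    rw [ae_all_iff]
    intro j
    filter_upwards [ae_lt_top (hVRm j) (ne_top_of_le_ne_top ENNReal.ofReal_ne_top (hR j))] with ω hω
    exact hω.ne
  have hGfin : ∀ᵐ ω ∂μ, VR q G ω ≠ ∞ := by
    filter_upwards [ae_lt_top hVGm hG2] with ω hω
    exact hω.ne
  have hcom : Measurable (VR q (co (Ω := Ω) i)) := VR_meas hq fun y => measurable_const
  have hcofin : ∀ᵐ ω ∂μ, VR q (co i) ω ≠ ∞ := by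
    filter_upwards [ae_lt_top hcom hfin] with ω hω
    exact hω.ne
  filter_upwards [h7, ae_all h hRfin, ae_all h hGfin, ae_all h hcofin, ae_all h hGd,
    (mo_Qo h hq).mx_lt_top hVGm hG2, exit_box h hq i hfin] with ω ⟨Cs, hCs0, hCs⟩ a1 a2 a3 a4 a5 a6
  intro C₁ C₂ hI δ hδ
  haveI := qM_prob hq ω
  obtain ⟨C₃, hC₃0, hC₃⟩ := a6
  obtain ⟨θ, C, hθ, hC, hexit⟩ := exit_bound h hq hI i a3 hC₃0
    (by positivity : (0 : ℝ) < 1 / 2 ^ (d + 2)) (by
      rw [div_le_one (by positivity)]; exact one_le_pow₀ (by norm_num)) hC₃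
  choose Φ hΦ using hφb
  refine negligible h hq hI i hθ hC hexit (G := fx τ G ω) (R := R)
    (φ := fun j x => φ j (τ x ω)) (Φ := Φ) (l := fun j => (1 / 2) ^ j)
    (s := fun j => Cs * (1 / 2) ^ j) (C₄ := (mx (Qo τ q) (VR q G) ω).toReal) ?_ hδ
  exact
  { p4 := ENNReal.toReal_nonneg
    mean := fun x => by
      have := a4 x
      unfold bm
      rw [integral_qM h]
      unfold fx
      simpa using this
    fin := fun x => by rw [V_fx]; exact a2 x
    avg := fun n => by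
      have eV : V (qM τ q ω) (fx τ G ω) = fun x => VR q G (τ x ω) := funext fun x => V_fx G ω x
      rw [eV, lintegral_A h hq, h.zero]
      cases n with
      | zero => simp [Sm]
      | succ n =>
        have h2 : Sm (Qo τ q) (VR q G) (n + 1) ω / ((n : ℝ≥0∞) + 1) ≤ mx (Qo τ q) (VR q G) ω :=
          le_iSup (fun n : ℕ => Sm (Qo τ q) (VR q G) (n + 1) ω / ((n : ℝ≥0∞) + 1)) n
        rw [ENNReal.div_le_iff (by simp) (by simp)] at h2
        refine h2.trans (le_of_eq ?_)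
        rw [ENNReal.ofReal_mul ENNReal.toReal_nonneg, ENNReal.ofReal_toReal a5,
          ENNReal.ofReal_natCast]
        push_cast
        rfl
    anti := hRa
    finR := fun j x => a1 x j
    bd := fun j x => hΦ j _
    dec := fun j x y _ => by
      simp only [hRdef, fx, co]
      rw [h.add, add_sub_cancel]
      simp
    lpos := fun j => by positivity
    llim := tendsto_pow_atTop_nhds_zero_of_lt_one (by norm_num) (by norm_num)
    spos := fun j => by positivity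
    slim := by
      have := (tendsto_pow_atTop_nhds_zero_of_lt_one (r := (1 / 2 : ℝ)) (by norm_num)
        (by norm_num)).const_mul Cs
      simpa using this
    box := fun j => by
      have h8 := hCs j
      have hp : (0 : ℝ) < (2 : ℝ) ^ j := by positivity
      have e : Cs * (1 / 2) ^ j = Cs / 2 ^ j := by rw [one_div, inv_pow]; rfl
      rw [e, ENNReal.ofReal_div_of_pos hp,
        ENNReal.le_div_iff_mul_le (Or.inl ?_) (Or.inl ENNReal.ofReal_ne_top), mul_comm]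
      · exact h8
      · rw [Ne, ENNReal.ofReal_eq_zero, not_le]; exact hp }

end Pool.Agent.H979.QIP
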