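import Pool.Agent.H979.QIP.Heat2
import Pool.Agent.H979.QIP.Ent
import Pool.Agent.H979.QIP.Mach

set_option autoImplicit false
set_option linter.unusedSectionVars false
set_option linter.deprecated false
set_option linter.unusedVariables false
set_option linter.style.haveILetI false

open MeasureTheory ProbabilityTheory Filter Topology Set
open scoped ENNReal NNReal

/-!
# The mean displacement of the walk
-/

namespace Pool.Agent.H979.QIP

variable {Ω : Type*} [MeasurableSpace Ω] {d : ℕ} {μ : Measure Ω} {τ : Vd d → Ω → Ω}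
  {c : Ω → Vd d → ℝ≥0∞}

theorem l1_sub_le (x y : Vd d) : |l1 x - l1 y| ≤ (sz (y - x) : ℝ) := by
  unfold l1 sz
  rw [← Finset.sum_sub_distrib]
  refine (Finset.abs_sum_le_sum_abs _ _).trans ?_
  push_cast
  have : ∑ i, |(|(x i : ℝ)| - |(y i : ℝ)|)| ≤ ∑ i, (((y - x) i).natAbs : ℝ) := by
    refine Finset.sum_le_sum fun i _ => ?_
    refine (abs_abs_sub_abs_le _ _).trans ?_
    rw [← Int.cast_natCast, Int.natCast_natAbs, abs_sub_comm, Pi.sub_apply]
    push_cast
    exact le_rfl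
  linarith

theorem sz_symm (x y : Vd d) : sz (y - x) = sz (x - y) := by
  unfold sz
  congr 1
  refine Finset.sum_congr rfl fun i _ => ?_
  have : (y - x) i = -((x - y) i) := by simp
  rw [this, Int.natAbs_neg]

/-- the truncated norm -/
noncomputable def ψL (L : ℝ) (x : Vd d) : ℝ := min (l1 x) L

theorem ψL_bd {L : ℝ} (hL : 0 ≤ L) (x : Vd d) : |ψL L x| ≤ L := by
  unfold ψL
  rw [abs_of_nonneg (le_min (l1_nonneg x) hL)]
  exact min_le_right _ _

theorem ψL_lip (L : ℝ) (x y : Vd d) : |ψL L x - ψL L y| ≤ (sz (y - x) : ℝ) := by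
  unfold ψL
  refine (abs_min_sub_min_le_max _ _ _ _).trans ?_
  rw [sub_self, abs_zero, max_eq_left (abs_nonneg _)]
  exact l1_sub_le x y

section

variable (h : Sta μ τ) (hc : RC τ c) {O : Set Ω}
    (hinv : ∀ ω y, qr τ c ω y ≠ 0 → (τ y ω ∈ O ↔ ω ∈ O)) {ω : Ω} (hD : DFin τ c ω)

include h hc hinv hD

theorem mom_bound (hd : 2 ≤ d) {nx : Fin d → Vd d → Vd d}
    (hL : Lines (cr τ c ω) {x | τ x ω ∈ O} nx) (hz : ω ∈ O)
    (hmx : mx (Qo τ (qr τ c)) (Vt c) ω ≠ ∞) :
    ∃ C : ℝ, 0 ≤ C ∧ ∀ m : ℕ, 1 ≤ m →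
      ∑' x, pk (qM τ (qr τ c) ω) m 0 x * ENNReal.ofReal (l1 x) ≤ ENNReal.ofReal (C * √m) := by
  haveI := qM_prob (ker_qr h hc) ω
  have hsy : ∀ x y, qM τ (qr τ c) ω x {y} = qM τ (qr τ c) ω y {x} := qM_symm h (ker_qr h hc) ω
  have hz0 : τ 0 ω ∈ O := by rw [h.zero]; exact hz
  have hd1 : 1 ≤ d := by omega
  set p : ℕ → Vd d → ℝ := fun m x => (pk (qM τ (qr τ c) ω) m 0 x).toReal with hp
  have hst : ∀ m, St (cr τ c ω) (p m) (p (m + 1)) := fun m => st_pk h hc hD m 0
  have hnw := nw_cr h hc ω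
  have hne : ∀ m x, pk (qM τ (qr τ c) ω) m 0 x ≠ ∞ := fun m x =>
    ne_top_of_le_ne_top ENNReal.one_ne_top (pk_le_one hsy m 0 x)
  have hp0 : ∀ m x, 0 ≤ p m x := fun m x => ENNReal.toReal_nonneg
  have hp1 : ∀ m x, p m x ≤ 1 := fun m x => by
    have := ENNReal.toReal_mono ENNReal.one_ne_top (pk_le_one hsy m 0 x)
    rwa [ENNReal.toReal_one] at this
  have hps : ∀ m, Summable (p m) := fun m =>
    ENNReal.summable_toReal (by rw [pk_mass hsy]; exact ENNReal.one_ne_top)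
  have hpm : ∀ m, ∑' x, p m x = 1 := fun m => by
    have := congrArg ENNReal.toReal (pk_mass hsy m 0)
    rw [ENNReal.tsum_toReal_eq fun x => hne m x, ENNReal.toReal_one] at this
    exact this
  -- the second moments
  set vE : ℕ → ℝ≥0∞ := fun m => ∑' x, pk (qM τ (qr τ c) ω) m 0 x * Vt c (τ x ω) with hvE
  have hvQ : ∀ m, vE m = (Qo τ (qr τ c))^[m] (Vt c) ω := by
    intro m
    simp only [hvE]
    rw [sum_pk hsy m 0 (fun x => Vt c (τ x ω)), K_iter h, h.zero]
  have hvS : ∀ N : ℕ, ∑ m ∈ Finset.range N, vE m ≤ N * mx (Qo τ (qr τ c)) (Vt c) ω := by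
    intro N
    rcases Nat.eq_zero_or_pos N with rfl | hN
    · simp
    obtain ⟨k, rfl⟩ := Nat.exists_eq_succ_of_ne_zero hN.ne'
    have h1 : Sm (Qo τ (qr τ c)) (Vt c) (k + 1) ω / ((k : ℝ≥0∞) + 1) ≤
        mx (Qo τ (qr τ c)) (Vt c) ω := le_iSup (fun n : ℕ =>
          Sm (Qo τ (qr τ c)) (Vt c) (n + 1) ω / ((n : ℝ≥0∞) + 1)) k
    have h2 : Sm (Qo τ (qr τ c)) (Vt c) (k + 1) ω ≤ mx (Qo τ (qr τ c)) (Vt c) ω * ((k : ℝ≥0∞) + 1) := by
      refine (ENNReal.div_le_iff_le_mul (Or.inl (by simp)) (Or.inl ?_)).1 h1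
      exact ENNReal.add_ne_top.2 ⟨ENNReal.natCast_ne_top k, ENNReal.one_ne_top⟩
    have h3 : ∑ m ∈ Finset.range (k + 1), vE m = Sm (Qo τ (qr τ c)) (Vt c) (k + 1) ω := by
      unfold Sm
      exact Finset.sum_congr rfl fun m _ => hvQ m
    rw [Nat.succ_eq_add_one, h3, mul_comm]
    push_cast
    exact h2
  have hvne : ∀ m, vE m ≠ ∞ := by
    intro m
    refine ne_top_of_le_ne_top (ENNReal.mul_ne_top (ENNReal.natCast_ne_top (m + 1)) hmx)
      (le_trans ?_ (hvS (m + 1)))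
    exact Finset.single_le_sum (f := vE) (fun _ _ => zero_le) (Finset.mem_range.2 (Nat.lt_succ_self m))
  set W : ℝ := (mx (Qo τ (qr τ c)) (Vt c) ω).toReal with hW
  have hW0 : 0 ≤ W := ENNReal.toReal_nonneg
  set v : ℕ → ℝ := fun m => (vE m).toReal with hv
  have hv0 : ∀ m, 0 ≤ v m := fun m => ENNReal.toReal_nonneg
  have hvV : ∀ N : ℕ, ∑ m ∈ Finset.range N, v (m + 1) ≤ (2 * W) * N := by
    intro N
    rcases Nat.eq_zero_or_pos N with rfl | hN
    · simp
    have h1 : ∑ m ∈ Finset.range (N + 1), v m ≤ ((N + 1 : ℕ) : ℝ) * W := by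
      have := ENNReal.toReal_mono (ENNReal.mul_ne_top (ENNReal.natCast_ne_top (N + 1)) hmx) (hvS (N + 1))
      rw [ENNReal.toReal_sum fun m _ => hvne m, ENNReal.toReal_mul, ENNReal.toReal_natCast] at this
      exact this
    rw [Finset.sum_range_succ'] at h1
    have h2 : (1 : ℝ) ≤ N := by exact_mod_cast hN
    have h3 := hv0 0
    push_cast at h1
    nlinarith
  set ℓ : Vd d → Vd d → ℝ := fun x y => (sz (y - x) : ℝ) with hℓ
  -- summability of the second moments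
  have hvsum : ∀ m, HasSum (fun z : Vd d × Vd d => cr τ c ω z.1 z.2 * ℓ z.1 z.2 ^ 2 * p m z.1) (v m) := by
    intro m
    have e1 : ∀ z : Vd d × Vd d, cr τ c ω z.1 z.2 * ℓ z.1 z.2 ^ 2 * p m z.1 =
        (c (τ z.1 ω) (z.2 - z.1) * (sz (z.2 - z.1) : ℝ≥0∞) ^ 2 * pk (qM τ (qr τ c) ω) m 0 z.1).toReal := by
      intro z
      rw [ENNReal.toReal_mul, ENNReal.toReal_mul, ENNReal.toReal_pow, ENNReal.toReal_natCast]
      rfl
    have e2 : ∑' z : Vd d × Vd d, c (τ z.1 ω) (z.2 - z.1) * (sz (z.2 - z.1) : ℝ≥0∞) ^ 2 *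
        pk (qM τ (qr τ c) ω) m 0 z.1 = vE m := by
      rw [ENNReal.tsum_prod (f := fun x y => c (τ x ω) (y - x) * (sz (y - x) : ℝ≥0∞) ^ 2 *
        pk (qM τ (qr τ c) ω) m 0 x)]
      refine tsum_congr fun x => ?_
      rw [ENNReal.tsum_mul_right, tsum_shift x (fun s => c (τ x ω) s * (sz s : ℝ≥0∞) ^ 2), mul_comm]
      rfl
    have h1 : ∑' z : Vd d × Vd d, c (τ z.1 ω) (z.2 - z.1) * (sz (z.2 - z.1) : ℝ≥0∞) ^ 2 *
        pk (qM τ (qr τ c) ω) m 0 z.1 ≠ ∞ := by rw [e2]; exact hvne m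
    simp_rw [e1]
    have h2 := (ENNReal.summable_toReal h1).hasSum
    rw [← ENNReal.tsum_toReal_eq (fun z => ENNReal.ne_top_of_tsum_ne_top h1 z), e2] at h2
    exact h2
  -- finiteness of the means and the recursion
  have step : ∀ m, Summable (fun x => l1 x * p m x) → ∀ l : ℝ, 0 < l →
      Summable (fun x => l1 x * p (m + 1) x) ∧ ∑' x, l1 x * p (m + 1) x ≤ ∑' x, l1 x * p m x +
        (l / 2 * v (m + 1) + 1 / (4 * l) * ∑' z : Vd d × Vd d, cr τ c ω z.1 z.2 *
          ((p (m + 1) z.1 - p (m + 1) z.2) ^ 2 / (p (m + 1) z.1 + p (m + 1) z.2))) := by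
    intro m hm l hl
    set R := l / 2 * v (m + 1) + 1 / (4 * l) * ∑' z : Vd d × Vd d, cr τ c ω z.1 z.2 *
          ((p (m + 1) z.1 - p (m + 1) z.2) ^ 2 / (p (m + 1) z.1 + p (m + 1) z.2)) with hR
    have hfin : ∀ s : Finset (Vd d), ∑ x ∈ s, l1 x * p (m + 1) x ≤ ∑' x, l1 x * p m x + R := by
      intro s
      set L : ℝ := ∑ x ∈ s, l1 x with hLd
      have hL0 : 0 ≤ L := Finset.sum_nonneg fun x _ => l1_nonneg x
      have h1 := (hst m).moment hnw (ψ := ψL L) (ψL_bd hL0) (ℓ := ℓ) (ψL_lip L)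
        (fun x y => by simp only [hℓ]; rw [sz_symm]) (hvsum (m + 1)).summable hl
      rw [(hvsum (m + 1)).tsum_eq] at h1
      have sψ : ∀ k, Summable (fun x => ψL L x * p k x) := fun k => by
        refine Summable.of_norm_bounded ((hps k).mul_left L) fun x => ?_
        rw [norm_mul, Real.norm_eq_abs, Real.norm_eq_abs, abs_of_nonneg (hp0 k x)]
        exact mul_le_mul_of_nonneg_right (ψL_bd hL0 x) (hp0 k x)
      have h2 : ∑ x ∈ s, l1 x * p (m + 1) x ≤ ∑' x, ψL L x * p (m + 1) x := by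
        refine le_trans (le_of_eq ?_) ((sψ (m + 1)).sum_le_tsum s fun x _ =>
          mul_nonneg (le_min (l1_nonneg x) hL0) (hp0 _ x))
        refine Finset.sum_congr rfl fun x hx => ?_
        congr 1
        unfold ψL
        rw [min_eq_left]
        exact Finset.single_le_sum (f := l1) (fun y _ => l1_nonneg y) hx
      have h3 : ∑' x, ψL L x * p m x ≤ ∑' x, l1 x * p m x :=
        (sψ m).tsum_le_tsum (fun x => mul_le_mul_of_nonneg_right (min_le_left _ _) (hp0 m x)) hm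
      linarith
    have hs := summable_of_sum_le (fun x => mul_nonneg (l1_nonneg x) (hp0 (m + 1) x)) hfin
    exact ⟨hs, hs.tsum_le_of_sum_le hfin⟩
  have hM0s : (fun x => l1 x * p 0 x) = fun _ => 0 := by
    funext x
    simp only [hp, pk_zero]
    by_cases hx : x = 0
    · subst hx; simp [l1]
    · simp [hx]
  have hMs : ∀ m, Summable (fun x => l1 x * p m x) := by
    intro m
    induction m with
    | zero => rw [hM0s]; exact summable_zero
    | succ m ih => exact (step m ih 1 one_pos).1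
  have hQ := fun m => entropy_le (hp0 m) (hp1 m) (hps m) (hpm m) (hMs m)
  set C₁ := dB d * √3 ^ d with hC₁
  have hC₁1 : 1 ≤ C₁ := by
    have h3 : (1 : ℝ) ≤ √3 := by rw [Real.one_le_sqrt]; norm_num
    have : 1 ≤ √3 ^ d := one_le_pow₀ h3
    have := dB_one hd
    nlinarith
  have hfinal := nash_moment (d := d) hd1 (b := Real.log C₁) (V := 2 * W) (Real.log_nonneg hC₁1)
    (by positivity) (M := fun m => ∑' x, l1 x * p m x) (Q := fun m => ∑' x, Real.negMulLog (p m x))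
    (v := v) (by rw [hM0s]; simp)
    (fun m => tsum_nonneg fun x => mul_nonneg (l1_nonneg x) (hp0 m x))
    (tsum_nonneg fun x => Real.negMulLog_nonneg (hp0 0 x) (hp1 0 x)) hv0
    (fun m l hl => by
      have h1 := (step m (hMs m) l hl).2
      have h2 := (hst m).entropy' hnw (hp1 (m + 1)) (hp1 m) (hQ (m + 1)).1 (hQ m).1
      have h3 := mul_le_mul_of_nonneg_left h2 (show 0 ≤ 1 / (4 * l) by positivity)
      linarith)
    (fun m hm => by
      have hm0 : (0 : ℝ) < m := by exact_mod_cast hm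
      have h1 := entropy_ge (hp0 m) (hps m) (hpm m) (hQ m).1 (k := C₁ / √m ^ d)
        (by positivity) (fun x => by
          have := heat_bound hd h hc hinv hD hL hz0 hm x
          exact ENNReal.toReal_le_of_le_ofReal (by positivity) this)
      rw [Real.log_div (by positivity) (by positivity), Real.log_pow, Real.log_sqrt hm0.le] at h1
      linarith)
    (fun m => (hQ m).2) hvV
  set C := 2 * (2 * W + (1 + 2 * d + Real.log C₁) / 4) + 1 + d / 2 * Real.log (2 * d) with hC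
  have hC0 : 0 ≤ C := by
    have h1 := hfinal 1 le_rfl
    have h2 : 0 ≤ ∑' x, l1 x * p 1 x := tsum_nonneg fun x => mul_nonneg (l1_nonneg x) (hp0 1 x)
    simp only [Nat.cast_one, Real.sqrt_one, mul_one] at h1
    linarith
  refine ⟨C, hC0, fun m hm => ?_⟩
  have e1 : ∀ x, pk (qM τ (qr τ c) ω) m 0 x * ENNReal.ofReal (l1 x) = ENNReal.ofReal (l1 x * p m x) := by
    intro x
    rw [ENNReal.ofReal_mul (l1_nonneg x), mul_comm]
    simp only [hp]
    rw [ENNReal.ofReal_toReal (hne m x)]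
  simp_rw [e1]
  rw [← ENNReal.ofReal_tsum_of_nonneg (fun x => mul_nonneg (l1_nonneg x) (hp0 m x)) (hMs m)]
  exact ENNReal.ofReal_le_ofReal (hfinal m hm)

theorem inp_run (hd : 2 ≤ d) {nx : Fin d → Vd d → Vd d}
    (hL : Lines (cr τ c ω) {x | τ x ω ∈ O} nx) (hz : ω ∈ O)
    (hmx : mx (Qo τ (qr τ c)) (Vt c) ω ≠ ∞) :
    ∃ C₁ C₂ : ℝ, Inp τ (qr τ c) (ker_qr h hc) ω C₁ C₂ := by
  haveI := qM_prob (ker_qr h hc) ω
  have hsy : ∀ x y, qM τ (qr τ c) ω x {y} = qM τ (qr τ c) ω y {x} := qM_symm h (ker_qr h hc) ω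
  have hz0 : τ 0 ω ∈ O := by rw [h.zero]; exact hz
  obtain ⟨C, hC0, hC⟩ := mom_bound h hc hinv hD hd hL hz hmx
  have hB := dB_one hd
  refine ⟨dB d * √3 ^ d, C, by positivity, hC0, fun m hm y => ?_, fun m hm ρ hρ => ?_⟩
  · rw [pk_law hsy]
    exact heat_bound hd h hc hinv hD hL hz0 hm y
  · have hρ0 : (0 : ℝ) < ρ := by exact_mod_cast hρ
    have h1 := hC m hm
    rw [← law_sum (q := qM τ (qr τ c) ω) m 0 (fun x => ENNReal.ofReal (l1 x)) hsy] at h1
    have hms : MeasurableSet {w : ℕ → Vd d | w m ∉ box d ρ} := by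
      have := (measurable_pi_apply (X := fun _ : ℕ => Vd d) m)
        (MeasurableSet.of_discrete (s := {x : Vd d | x ∉ box d ρ}))
      exact this
    rw [← lintegral_indicator_one hms]
    have h2 : ∀ w : ℕ → Vd d, ({w : ℕ → Vd d | w m ∉ box d ρ}).indicator (1 : (ℕ → Vd d) → ℝ≥0∞) w ≤
        ENNReal.ofReal (1 / ρ) * ENNReal.ofReal (l1 (w m)) := by
      intro w
      by_cases hw : w m ∈ box d ρ
      · rw [indicator_of_notMem (show w ∉ {w : ℕ → Vd d | w m ∉ box d ρ} from fun h => h hw)]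
        exact zero_le
      · rw [indicator_of_mem (show w ∈ {w : ℕ → Vd d | w m ∉ box d ρ} from hw),
          ← ENNReal.ofReal_mul (by positivity), Pi.one_apply, ← ENNReal.ofReal_one]
        refine ENNReal.ofReal_le_ofReal ?_
        rw [mem_box] at hw
        push Not at hw
        obtain ⟨i, hi⟩ := hw
        have h3 : |(w m i : ℝ)| ≤ l1 (w m) :=
          Finset.single_le_sum (f := fun i => |(w m i : ℝ)|) (fun _ _ => abs_nonneg _)
            (Finset.mem_univ i)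
        have h4 : (ρ : ℝ) < |(w m i : ℝ)| := by exact_mod_cast hi
        rw [one_div_mul_eq_div, le_div_iff₀ hρ0]
        linarith
    refine (lintegral_mono h2).trans ?_
    rw [lintegral_const_mul' _ _ ENNReal.ofReal_ne_top]
    refine (mul_le_mul' le_rfl h1).trans (le_of_eq ?_)
    rw [← ENNReal.ofReal_mul (by positivity)]
    congr 1
    ring

end

end Pool.Agent.H979.QIP
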