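import Pool.Agent.H979.QIP.Trans4
import Pool.Agent.H979.QIP.Mom
import Pool.Agent.H979.QIP.Mach

set_option autoImplicit false
set_option linter.unusedSectionVars false
set_option linter.deprecated false
set_option linter.unusedVariables false
set_option linter.style.haveILetI false

open MeasureTheory ProbabilityTheory Filter Topology Set
open scoped ENNReal NNReal

/-!
# The properties of almost every environment
-/

namespace Pool.Agent.H979.QIP

variable {Ω : Type*} [MeasurableSpace Ω] {d : ℕ} {μ : Measure Ω} {τ : Vd d → Ω → Ω}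
  {q : Ω → Vd d → ℝ≥0∞} {c : Ω → Vd d → ℝ≥0∞}

theorem exp_prob {W : Type*} [MeasurableSpace W] {ν : Measure W} [IsProbabilityMeasure ν]
    {X Y : W → ℝ} (hX : Measurable X) (hY : Measurable Y) {e : ℝ} (he0 : 0 ≤ e) :
    ‖∫ w, Complex.exp ((X w : ℂ) * Complex.I) ∂ν - ∫ w, Complex.exp ((Y w : ℂ) * Complex.I) ∂ν‖ ≤
      e + 2 * ν.real {w | e < |X w - Y w|} := by
  have hi : ∀ Z : W → ℝ, Measurable Z → Integrable (fun w => Complex.exp ((Z w : ℂ) * Complex.I)) ν :=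
    fun Z hZ => Integrable.of_bound (by fun_prop) 1
      (Eventually.of_forall fun w => by rw [Complex.norm_exp_ofReal_mul_I])
  rw [← integral_sub (hi X hX) (hi Y hY)]
  have hE : MeasurableSet {w | e < |X w - Y w|} := measurableSet_lt measurable_const (hX.sub hY).abs
  have hb : ∀ w, ‖Complex.exp ((X w : ℂ) * Complex.I) - Complex.exp ((Y w : ℂ) * Complex.I)‖ ≤
      e + {w | e < |X w - Y w|}.indicator (fun _ => (2 : ℝ)) w := by
    intro w
    by_cases hw : w ∈ {w | e < |X w - Y w|}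
    · rw [indicator_of_mem hw]
      refine (norm_sub_le _ _).trans ?_
      rw [Complex.norm_exp_ofReal_mul_I, Complex.norm_exp_ofReal_mul_I]
      linarith
    · rw [indicator_of_notMem hw, add_zero]
      simp only [mem_setOf_eq, not_lt] at hw
      refine le_trans ?_ hw
      have e1 : Complex.exp ((X w : ℂ) * Complex.I) - Complex.exp ((Y w : ℂ) * Complex.I) =
          Complex.exp ((Y w : ℂ) * Complex.I) * (Complex.exp (Complex.I * ((X w - Y w : ℝ) : ℂ)) - 1) := by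
        rw [mul_sub, ← Complex.exp_add, mul_one]
        congr 2
        push_cast
        ring
      rw [e1, norm_mul, Complex.norm_exp_ofReal_mul_I, one_mul]
      have := Real.norm_exp_I_mul_ofReal_sub_one_le (x := X w - Y w)
      rwa [Real.norm_eq_abs] at this
  have i3 : Integrable (fun w => e + {w | e < |X w - Y w|}.indicator (fun _ => (2 : ℝ)) w) ν :=
    (integrable_const _).add ((integrable_const _).indicator hE)
  refine (norm_integral_le_integral_norm _).trans ((integral_mono ((hi X hX).sub (hi Y hY)).norm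
    i3 hb).trans ?_)
  rw [integral_add (integrable_const _) ((integrable_const _).indicator hE), integral_const,
    integral_indicator_const _ hE]
  simp only [probReal_univ, one_smul, smul_eq_mul]
  linarith

/-- the tails of the second moment of the runs -/
theorem rf_T2_tendsto (h : Sta μ τ) (hc : RC τ c)
    (hfin : ∫⁻ ω, rf τ c (fun l => (Tl l : ℝ≥0∞) ^ 2) ω ∂μ ≠ ∞) :
    Tendsto (fun A : ℕ => ∫⁻ ω, rf τ c (T2 A) ω ∂μ) atTop (𝓝 0) := by
  have h3 := tendsto_lintegral_of_dominated_convergence (μ := μ)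
    (F := fun (A : ℕ) ω => rf τ c (T2 A) ω) (f := fun _ => 0)
    (fun ω => rf τ c (fun l => (Tl l : ℝ≥0∞) ^ 2) ω)
    (fun A => rf_meas h hc.toCon _)
    (fun A => Eventually.of_forall fun ω => rf_mono (T2_le A) ω) hfin ?_
  · simpa using h3
  filter_upwards [ae_lt_top (rf_meas h hc.toCon _) hfin] with ω hω
  letI : MeasurableSpace (List (Vd d)) := ⊤
  haveI : DiscreteMeasurableSpace (List (Vd d)) := ⟨fun _ => trivial⟩
  have e : ∀ F, rf τ c F ω = ∫⁻ l, kp τ c ω l * F l ∂Measure.count := fun F => by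
    rw [lintegral_count]; rfl
  simp only [e] at hω ⊢
  have h4 := tendsto_lintegral_of_dominated_convergence (μ := (Measure.count : Measure (List (Vd d))))
    (F := fun (A : ℕ) l => kp τ c ω l * T2 A l) (f := fun _ => 0)
    (fun l => kp τ c ω l * (Tl l : ℝ≥0∞) ^ 2)
    (fun A => measurable_of_countable _)
    (fun A => Eventually.of_forall fun l => mul_le_mul' le_rfl (T2_le A l)) hω.ne
    (Eventually.of_forall fun l => ?_)
  · simpa using h4
  refine tendsto_const_nhds.congr' ?_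
  filter_upwards [eventually_ge_atTop (Tl l)] with A hA
  unfold T2
  rw [if_neg (by omega), mul_zero]

theorem rf_len_ge (hc : RC τ c) {ω : Ω} (hD : 1 ≤ Dg c ω) :
    2⁻¹ ≤ rf τ c (fun l => (l.length : ℝ≥0∞)) ω := by
  unfold rf
  rw [kp_first ω (fun l => (l.length : ℝ≥0∞))]
  have h1 : Dg c ω ≤ (([] : List (Vd d)).length : ℝ≥0∞) +
      ∑' s, c ω s * ∑' l : List (Vd d), kp τ c (τ s ω) l * ((s :: l).length : ℝ≥0∞) := by
    refine le_add_left (ENNReal.tsum_le_tsum fun s => ?_)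
    calc c ω s = c ω s * ∑' l, kp τ c (τ s ω) l := by rw [hc.mass, mul_one]
      _ ≤ _ := mul_le_mul' le_rfl (ENNReal.tsum_le_tsum fun l => ?_)
    calc kp τ c (τ s ω) l = kp τ c (τ s ω) l * 1 := (mul_one _).symm
      _ ≤ _ := mul_le_mul' le_rfl (by rw [List.length_cons]; push_cast; exact le_add_left le_rfl)
  refine le_trans ?_ (mul_le_mul' le_rfl h1)
  have hf := hc.fin ω
  rw [mul_comm, ← div_eq_mul_inv, ENNReal.le_div_iff_mul_le (Or.inl (one_add_ne ω))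
    (Or.inl (ENNReal.add_ne_top.2 ⟨ENNReal.one_ne_top, hf⟩))]
  calc 2⁻¹ * (1 + Dg c ω) ≤ 2⁻¹ * (Dg c ω + Dg c ω) := mul_le_mul' le_rfl (add_le_add hD le_rfl)
    _ = Dg c ω := by
      rw [← two_mul, ← mul_assoc, ENNReal.inv_mul_cancel two_ne_zero ENNReal.ofNat_ne_top, one_mul]

variable [IsProbabilityMeasure μ]

theorem ae_RF (h : Sta μ τ) (hc : RC τ c) {O : Set Ω} (hO : ErgO μ τ (qr τ c) O)
    (hT : ∫⁻ ω, rf τ c (fun l => (Tl l : ℝ≥0∞) ^ 2) ω ∂μ ≠ ∞)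
    (hDO : ∀ᵐ ω ∂μ, ω ∈ O → 1 ≤ Dg c ω) :
    ∃ (a K₂ : ℝ) (κ : ℕ → ℝ), 0 < a ∧ ∀ᵐ ω ∂μ, ω ∈ O → RF h hc ω a K₂ κ := by
  have hOr : 0 < μ.real O := ENNReal.toReal_pos hO.pos (measure_ne_top _ _)
  have hle : ∀ F : List (Vd d) → ℝ≥0∞, (∀ l, F l ≤ (Tl l : ℝ≥0∞) ^ 2) →
      ∫⁻ ω, rf τ c F ω ∂μ ≠ ∞ := fun F hF =>
    ne_top_of_le_ne_top hT (lintegral_mono fun ω => rf_mono hF ω)
  have hint : ∀ F : List (Vd d) → ℝ≥0∞, (∀ l, F l ≤ (Tl l : ℝ≥0∞) ^ 2) →
      Integrable (fun ω => (rf τ c F ω).toReal) μ := fun F hF =>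
    integrable_toReal_of_lintegral_ne_top (rf_meas h hc.toCon F).aemeasurable (hle F hF)
  have hqa : ∀ F : List (Vd d) → ℝ≥0∞, (∀ l, F l ≤ (Tl l : ℝ≥0∞) ^ 2) → ∀ᵐ ω ∂μ, ω ∈ O →
      QA τ (qr τ c) (ker_qr h hc) ω (fun ω => (rf τ c F ω).toReal)
        ((∫ ω in O, (rf τ c F ω).toReal ∂μ) / μ.real O) := fun F hF =>
    quenched_avg h (ker_qr h hc) hO (rf_meas h hc.toCon F).ennreal_toReal (hint F hF)
  set a : ℝ := (∫ ω in O, (rf τ c (fun l => (l.length : ℝ≥0∞)) ω).toReal ∂μ) / μ.real O with ha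
  have ha0 : 0 < a := by
    refine div_pos ?_ hOr
    have h1 : ∫ ω in O, (1 / 2 : ℝ) ∂μ ≤
        ∫ ω in O, (rf τ c (fun l => (l.length : ℝ≥0∞)) ω).toReal ∂μ := by
      refine setIntegral_mono_on_ae (integrableOn_const (measure_ne_top _ _))
        (hint _ len_le_T2).integrableOn hO.meas ?_
      filter_upwards [hDO, ae_lt_top (rf_meas h hc.toCon _) (hle _ len_le_T2)] with ω h1 h2 h3
      have h4 := rf_len_ge hc (h1 h3)
      have h5 := ENNReal.toReal_mono h2.ne h4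
      simpa using h5
    rw [setIntegral_const, smul_eq_mul] at h1
    have : 0 < μ.real O * (1 / 2) := by positivity
    linarith
  refine ⟨a, (∫ ω in O, (rf τ c (fun l => (Tl l : ℝ≥0∞) ^ 2) ω).toReal ∂μ) / μ.real O,
    fun A => (∫ ω in O, (rf τ c (T2 A) ω).toReal ∂μ) / μ.real O, ha0, ?_⟩
  have a1 := ae_all (pr := fun ω => rf τ c (fun l => (Tl l : ℝ≥0∞) ^ 2) ω ≠ ∞) h (by
    filter_upwards [ae_lt_top (rf_meas h hc.toCon _) hT] with ω hω
    exact hω.ne)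
  have a2 := hqa (fun l => (Tl l : ℝ≥0∞) ^ 2) (fun l => le_rfl)
  have a3 : ∀ᵐ ω ∂μ, ∀ A : ℕ, ω ∈ O → QA τ (qr τ c) (ker_qr h hc) ω
      (fun ω => (rf τ c (T2 A) ω).toReal) ((∫ ω in O, (rf τ c (T2 A) ω).toReal ∂μ) / μ.real O) := by
    rw [ae_all_iff]
    exact fun A => hqa (T2 A) (T2_le A)
  have a4 := hqa (fun l => (l.length : ℝ≥0∞)) len_le_T2
  filter_upwards [a1, a2, a3, a4] with ω b1 b2 b3 b4 hω
  refine ⟨ha0, div_nonneg (integral_nonneg fun ω => ENNReal.toReal_nonneg) hOr.le, b1, b2 hω,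
    fun A => div_nonneg (integral_nonneg fun ω => ENNReal.toReal_nonneg) hOr.le,
    fun A => b3 A hω, ?_, b4 hω⟩
  have h1 := rf_T2_tendsto h hc hT
  have h2 := (ENNReal.tendsto_toReal ENNReal.zero_ne_top).comp h1
  rw [ENNReal.toReal_zero] at h2
  have h3 := h2.div_const (μ.real O)
  rw [zero_div] at h3
  refine tendsto_of_tendsto_of_tendsto_of_le_of_le tendsto_const_nhds h3
    (fun L => div_nonneg (integral_nonneg fun ω => ENNReal.toReal_nonneg) measureReal_nonneg)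
    fun A => ?_
  refine div_le_div_of_nonneg_right ?_ measureReal_nonneg
  have hm := rf_meas h hc.toCon (T2 (d := d) A)
  refine (setIntegral_le_integral (hint _ (T2_le A))
    (Eventually.of_forall fun ω => ENNReal.toReal_nonneg)).trans ?_
  rw [integral_toReal hm.aemeasurable (ae_lt_top hm (hle _ (T2_le A)))]
  rfl

/-- the walk is close to the martingale -/
def Neg (τ : Vd d → Ω → Ω) (q : Ω → Vd d → ℝ≥0∞) (hq : Ker τ q) (ω : Ω)
    (G : Fin d → Ω → Vd d → ℝ) : Prop :=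
  haveI := qM_prob hq ω
  ∀ i : Fin d, ∀ δ : ℝ, 0 < δ → Tendsto (fun n : ℕ => P (qM τ q ω) 0
    {w | ∃ k ≤ n, δ * √n < |(w k i : ℝ) - S (fx τ (G i) ω) k w|}) atTop (𝓝 0)

theorem Fine.md (h : Sta μ τ) {hq : Ker τ q} {ω : Ω} {G : Fin d → Ω → Vd d → ℝ}
    {C : Fin d → Fin d → ℝ} {cL : ℕ → Fin d → Fin d → ℝ} {ρ : ℕ → Fin d → ℝ}
    (hF : Fine τ q hq ω G C cL ρ) (hN : Neg τ q hq ω G) : Md τ q hq ω := by
  haveI := qM_prob hq ω
  intro i ε hε η hη
  obtain ⟨δ, hδ, h1⟩ := hF.modu h i (ε := ε / 3) (η := η / 2) (by positivity) (by positivity)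
  have h2 := (ENNReal.tendsto_atTop_zero.1 (hN i (ε / 3) (by positivity)))
    (ENNReal.ofReal (η / 2)) (ENNReal.ofReal_pos.2 (by positivity))
  obtain ⟨n1, hn1⟩ := h2
  refine ⟨δ, hδ, ?_⟩
  filter_upwards [h1, eventually_ge_atTop n1] with n hn hn2
  have h3 := hn1 n hn2
  refine le_trans ((measure_mono ?_).trans (measure_union_le _ _)) ((add_le_add hn h3).trans
    (le_of_eq ?_))
  · rintro w ⟨j, k, hjk, hkn, hd, hw⟩
    by_contra hcon
    simp only [mem_union, mem_setOf_eq, not_or, not_exists, not_and, not_lt] at hcon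
    have c1 := hcon.1 j k hjk hkn hd
    have c2 := hcon.2 j (hjk.trans hkn)
    have c3 := hcon.2 k hkn
    have : |(w j i : ℝ) - w k i| ≤ |(w j i : ℝ) - S (fx τ (G i) ω) j w| +
        |S (fx τ (G i) ω) j w - S (fx τ (G i) ω) k w| + |(w k i : ℝ) - S (fx τ (G i) ω) k w| := by
      have e : (w j i : ℝ) - w k i = ((w j i : ℝ) - S (fx τ (G i) ω) j w) +
        (S (fx τ (G i) ω) j w - S (fx τ (G i) ω) k w) - ((w k i : ℝ) - S (fx τ (G i) ω) k w) := by
        ring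
      rw [e]
      exact (abs_sub _ _).trans (add_le_add (abs_add_le _ _) le_rfl)
    linarith
  · rw [← ENNReal.ofReal_add (by positivity) (by positivity)]
    congr 1; ring

theorem FDD.to_co (h : Sta μ τ) {hq : Ker τ q} {ω : Ω} {G : Fin d → Ω → Vd d → ℝ}
    {C : Fin d → Fin d → ℝ} (hF : FDD τ q hq ω G C) (hN : Neg τ q hq ω G) :
    FDD τ q hq ω (fun i => co i) C := by
  haveI := qM_prob hq ω
  intro k t u ht
  have h1 := hF k t u ht
  rw [Metric.tendsto_atTop] at h1 ⊢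
  intro ε hε
  obtain ⟨n1, hn1⟩ := h1 (ε / 2) (by positivity)
  -- the constants
  set U : ℝ := ∑ j, ∑ a, |u j a| with hU
  have hU0 : 0 ≤ U := Finset.sum_nonneg fun _ _ => Finset.sum_nonneg fun _ _ => abs_nonneg _
  obtain ⟨K, hK⟩ : ∃ K : ℕ, ∀ j, t j ≤ K := by
    obtain ⟨K, hK⟩ := exists_nat_ge (∑ j, t j)
    exact ⟨K, fun j => (Finset.single_le_sum (f := t) (fun j _ => ht j) (Finset.mem_univ j)).trans hK⟩
  set K' : ℕ := K + 1 with hK'
  have hK'0 : (0 : ℝ) < K' := by rw [hK']; positivity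
  have hsK : 0 < √(K' : ℝ) := Real.sqrt_pos.2 hK'0
  set δ : ℝ := ε / (4 * (U + 1) * √(K' : ℝ)) with hδ
  have hδ0 : 0 < δ := by positivity
  have hKn : Tendsto (fun n : ℕ => K' * n) atTop atTop := tendsto_id.const_mul_atTop' (by omega)
  have h2 : ∀ᶠ n : ℕ in atTop, ∀ i : Fin d, P (qM τ q ω) 0
      {w | ∃ k ≤ K' * n, δ * √((K' * n : ℕ) : ℝ) < |(w k i : ℝ) - S (fx τ (G i) ω) k w|} ≤
      ENNReal.ofReal (ε / (16 * (d + 1))) := by
    rw [eventually_all]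
    intro i
    have h3 := (ENNReal.tendsto_atTop_zero.1 ((hN i δ hδ0).comp hKn))
      (ENNReal.ofReal (ε / (16 * (d + 1)))) (ENNReal.ofReal_pos.2 (by positivity))
    obtain ⟨n2, hn2⟩ := h3
    filter_upwards [eventually_ge_atTop n2] with n hn
    exact hn2 n hn
  obtain ⟨n2, hn2⟩ := eventually_atTop.1 h2
  refine ⟨max (max n1 n2) 1, fun n hn => ?_⟩
  have g1 := hn1 n (by omega)
  have g2 := hn2 n (by omega)
  have hn0 : (0 : ℝ) < n := by exact_mod_cast (show 0 < n by omega)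
  have hsn : 0 < √(n : ℝ) := Real.sqrt_pos.2 hn0
  set X : (ℕ → Vd d) → ℝ := fun w => ∑ j, ∑ a, u j a * (S (fx τ (co a) ω) ⌊t j * n⌋₊ w / √n) with hX
  set Y : (ℕ → Vd d) → ℝ := fun w => ∑ j, ∑ a, u j a * (S (fx τ (G a) ω) ⌊t j * n⌋₊ w / √n) with hY
  have mS : ∀ (ξ : Vd d → Vd d → ℝ) (k : ℕ), Measurable (S ξ k) := fun ξ k =>
    (dep_S ξ (le_refl k)).measurable
  have hXm : Measurable X := Finset.measurable_sum _ fun j _ => Finset.measurable_sum _ fun a _ =>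
    ((mS _ _).div_const _).const_mul _
  have hYm : Measurable Y := Finset.measurable_sum _ fun j _ => Finset.measurable_sum _ fun a _ =>
    ((mS _ _).div_const _).const_mul _
  have h4 := exp_prob (ν := P (qM τ q ω) 0) hXm hYm (e := ε / 4) (by positivity)
  have hsub : P (qM τ q ω) 0 {w | ε / 4 < |X w - Y w|} ≤ ENNReal.ofReal (ε / 16) := by
    have hs : ∀ᵐ w ∂(P (qM τ q ω) 0), w ∈ {w | ε / 4 < |X w - Y w|} → w ∈ ⋃ i : Fin d,
        {w | ∃ k ≤ K' * n, δ * √((K' * n : ℕ) : ℝ) < |(w k i : ℝ) - S (fx τ (G i) ω) k w|} := by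
      filter_upwards [P_zero (qM τ q ω) 0] with w hw0 hw
      by_contra hcon
      simp only [mem_iUnion, mem_setOf_eq, not_exists, not_and, not_lt] at hcon
      refine absurd hw (not_lt.2 ?_)
      have e1 : X w - Y w = ∑ j, ∑ a, u j a * ((((w ⌊t j * n⌋₊) a : ℝ) -
          S (fx τ (G a) ω) ⌊t j * n⌋₊ w) / √n) := by
        simp only [hX, hY]
        rw [← Finset.sum_sub_distrib]
        refine Finset.sum_congr rfl fun j _ => ?_
        rw [← Finset.sum_sub_distrib]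
        refine Finset.sum_congr rfl fun a _ => ?_
        rw [S_co, hw0]
        simp only [Pi.zero_apply, Int.cast_zero, sub_zero]
        ring
      rw [e1]
      have hterm : ∀ j a, |u j a * ((((w ⌊t j * n⌋₊) a : ℝ) -
          S (fx τ (G a) ω) ⌊t j * n⌋₊ w) / √n)| ≤ |u j a| * (ε / (4 * (U + 1))) := by
        intro j a
        rw [abs_mul]
        refine mul_le_mul_of_nonneg_left ?_ (abs_nonneg _)
        rw [abs_div, abs_of_pos hsn, div_le_iff₀ hsn]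
        have hk : ⌊t j * n⌋₊ ≤ K' * n := by
          have h5 : ((⌊t j * n⌋₊ : ℕ) : ℝ) ≤ t j * n :=
            Nat.floor_le (mul_nonneg (ht j) hn0.le)
          have h6 : t j * n ≤ (K' * n : ℕ) := by
            push_cast
            refine mul_le_mul_of_nonneg_right ((hK j).trans ?_) hn0.le
            rw [hK']; push_cast; linarith
          exact_mod_cast h5.trans h6
        refine (hcon a _ hk).trans (le_of_eq ?_)
        rw [hδ]
        push_cast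
        rw [Real.sqrt_mul hK'0.le]
        field_simp
      refine (Finset.abs_sum_le_sum_abs _ _).trans ?_
      refine (Finset.sum_le_sum fun j _ => (Finset.abs_sum_le_sum_abs _ _).trans
        (Finset.sum_le_sum fun a _ => hterm j a)).trans ?_
      simp_rw [← Finset.sum_mul]
      rw [← hU, mul_div_assoc', div_le_div_iff₀ (by positivity) (by norm_num)]
      nlinarith
    refine (measure_mono_ae hs).trans ((measure_iUnion_le _).trans ?_)
    rw [tsum_fintype]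
    refine (Finset.sum_le_sum fun i _ => g2 i).trans ?_
    rw [Finset.sum_const, Finset.card_univ, Fintype.card_fin, nsmul_eq_mul]
    have e3 : (d : ℝ≥0∞) = ENNReal.ofReal d := by simp
    rw [e3, ← ENNReal.ofReal_mul (Nat.cast_nonneg _)]
    refine ENNReal.ofReal_le_ofReal ?_
    rw [mul_div_assoc', div_le_div_iff₀ (by positivity) (by norm_num)]
    nlinarith
  have hsub' : (P (qM τ q ω) 0).real {w | ε / 4 < |X w - Y w|} ≤ ε / 16 :=
    ENNReal.toReal_le_of_le_ofReal (by positivity) hsub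
  rw [dist_eq_norm] at g1 ⊢
  calc _ = ‖(∫ w, Complex.exp ((X w : ℂ) * Complex.I) ∂(P (qM τ q ω) 0) -
        ∫ w, Complex.exp ((Y w : ℂ) * Complex.I) ∂(P (qM τ q ω) 0)) +
        (∫ w, Complex.exp ((Y w : ℂ) * Complex.I) ∂(P (qM τ q ω) 0) -
        ((Real.exp (-((∑ j, ∑ l, min (t j) (t l) *
      ∑ a, ∑ b, u j a * C a b * u l b) / 2)) : ℝ) : ℂ))‖ := by
        congr 1; ring
    _ ≤ _ := norm_add_le _ _
    _ < ε := by linarith

/-- the properties of a typical environment -/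
structure Qn (h : Sta μ τ) (hc : RC τ c) (ω : Ω) (C : Fin d → Fin d → ℝ) (a : ℝ) : Prop where
  fdd : FDD τ (qr τ c) (ker_qr h hc) ω (fun i => co i) C
  md : Md τ (qr τ c) (ker_qr h hc) ω
  rf : ∃ K₂ κ, RF h hc ω a K₂ κ

theorem ae_dfin (h : Sta μ τ) (hc : RC τ c) (hD : ∫⁻ ω, Dg c ω ∂μ ≠ ∞) :
    ∀ᵐ ω ∂μ, DFin τ c ω := by
  have hm : ∀ m : ℕ, Measurable ((Qo τ (qr τ c))^[m] (Dg c)) ∧
      ∫⁻ ω, (Qo τ (qr τ c))^[m] (Dg c) ω ∂μ = ∫⁻ ω, Dg c ω ∂μ := by
    intro m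
    induction m with
    | zero => exact ⟨Dg_meas hc.toCon, rfl⟩
    | succ m ih =>
      rw [Function.iterate_succ_apply']
      exact ⟨(mo_Qo h (ker_qr h hc)).meas _ ih.1, by rw [lintegral_Qo h (ker_qr h hc) ih.1, ih.2]⟩
  have h1 : ∀ᵐ ω ∂μ, ∀ m : ℕ, (Qo τ (qr τ c))^[m] (Dg c) ω ≠ ∞ := by
    rw [ae_all_iff]
    intro m
    filter_upwards [ae_lt_top (hm m).1 (by rw [(hm m).2]; exact hD)] with ω hω
    exact hω.ne
  filter_upwards [ae_all (pr := fun ω => ∀ m : ℕ, (Qo τ (qr τ c))^[m] (Dg c) ω ≠ ∞) h h1]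
    with ω hω m z
  rw [K_iter h]
  exact hω z m

theorem ae_qn (h : Sta μ τ) (hc : RC τ c) {O : Set Ω} (hO : ErgO μ τ (qr τ c) O) (hd : 2 ≤ d)
    (hD : ∫⁻ ω, Dg c ω ∂μ ≠ ∞) (hV : ∫⁻ ω, Vt c ω ∂μ ≠ ∞) (hb : ∫⁻ ω, bt c ω ^ 2 ∂μ ≠ ∞)
    (hL : ∀ᵐ ω ∂μ, ω ∈ O → ∃ nx, Lines (cr τ c ω) {x | τ x ω ∈ O} nx) :
    ∃ (G : Fin d → Ω → Vd d → ℝ) (a : ℝ), 0 < a ∧
      (∀ i y, Measurable (fun ω => G i ω y)) ∧ (∀ i, ∫⁻ ω, VR (qr τ c) (G i) ω ∂μ ≠ ∞) ∧
      (∀ i, ∃ φ : ℕ → Ω → ℝ, (∀ j, Measurable (φ j)) ∧ (∀ j, ∃ c, ∀ ω, |φ j ω| ≤ c) ∧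
        Tendsto (fun j => ∫⁻ ω, VR (qr τ c) (fun ω y => co i ω y - G i ω y -
          (φ j (τ y ω) - φ j ω)) ω ∂μ) atTop (𝓝 0)) ∧
      ∀ᵐ ω ∂μ, ω ∈ O → Qn h hc ω (fun i j => cov μ τ (qr τ c) O (G i) (G j)) a := by
  have hT : ∫⁻ ω, rf τ c (fun l => (Tl l : ℝ≥0∞) ^ 2) ω ∂μ ≠ ∞ :=
    ne_top_of_le_ne_top (ENNReal.add_ne_top.2 ⟨hV, ENNReal.mul_ne_top ENNReal.ofNat_ne_top hb⟩)
      (lintegral_rf_T2 h hc)
  have hVR : ∀ i : Fin d, ∫⁻ ω, VR (qr τ c) (co i) ω ∂μ ≠ ∞ := fun i =>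
    ne_top_of_le_ne_top hT (lintegral_mono fun ω => VR_qr_le i ω)
  choose G hGm hGa hG2 hG0 hGφ hGn using fun i => machine_neg h (ker_qr h hc) i (hVR i)
  have hDO : ∀ᵐ ω ∂μ, ω ∈ O → 1 ≤ Dg c ω := by
    filter_upwards [hL] with ω hω hωO
    obtain ⟨nx, hnx⟩ := hω hωO
    have h0 : (0 : Vd d) ∈ {x | τ x ω ∈ O} := by
      simp only [mem_setOf_eq, h.zero]; exact hωO
    have h1 := hnx.cond ⟨0, by omega⟩ 0 h0
    unfold cr at h1
    rw [h.zero] at h1
    have h2 : (1 : ℝ≥0∞) ≤ c ω (nx ⟨0, by omega⟩ 0 - 0) := by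
      by_contra hcon
      rw [not_le] at hcon
      have h3 := (ENNReal.toReal_lt_toReal hcon.ne_top ENNReal.one_ne_top).2 hcon
      rw [ENNReal.toReal_one] at h3
      linarith
    exact h2.trans (ENNReal.le_tsum _)
  obtain ⟨a, K₂, κ, ha, hRF⟩ := ae_RF h hc hO hT hDO
  obtain ⟨cL, ρ, hFine⟩ := ae_fine h (ker_qr h hc) hO hGm hG2 hG0
  refine ⟨G, a, ha, hGm, hG2, hGφ, ?_⟩
  have hGn' : ∀ᵐ ω ∂μ, ∀ i : Fin d, ∀ C₁ C₂, Inp τ (qr τ c) (ker_qr h hc) ω C₁ C₂ →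
      ∀ δ : ℝ, 0 < δ → haveI := qM_prob (ker_qr h hc) ω
        Tendsto (fun n : ℕ => P (qM τ (qr τ c) ω) 0
          {w | ∃ k ≤ n, δ * √n < |(w k i : ℝ) - S (fx τ (G i) ω) k w|}) atTop (𝓝 0) := by
    rw [ae_all_iff]
    exact hGn
  have hDg0 : ∀ ω y, qr τ c ω y ≠ 0 → (τ y ω ∈ O ↔ ω ∈ O) := hO.inv
  filter_upwards [hRF, hFine, hGn', hL, ae_dfin h hc hD,
    (mo_Qo h (ker_qr h hc)).mx_lt_top (Vt_meas hc.toCon) hV] with ω b1 b2 b3 b4 b5 b6 hω
  obtain ⟨nx, hnx⟩ := b4 hω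
  obtain ⟨C₁, C₂, hI⟩ := inp_run h hc hDg0 b5 hd hnx hω b6
  have hN : Neg τ (qr τ c) (ker_qr h hc) ω G := fun i δ hδ => b3 i C₁ C₂ hI δ hδ
  exact ⟨((b2 hω).fdd h).to_co h hN, (b2 hω).md h hN, ⟨K₂, κ, b1 hω⟩⟩

end Pool.Agent.H979.QIP
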