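import Pool.Agent.H979.QIP.Main1
import Pool.Agent.H979.QIP.Func2

set_option autoImplicit false
set_option linter.unusedSectionVars false
set_option linter.deprecated false
set_option linter.unusedVariables false
set_option linter.style.haveILetI false

open MeasureTheory ProbabilityTheory Filter Topology Set
open scoped ENNReal NNReal

/-!
# The invariance principle for the interpolated concatenated runs
-/

namespace Pool.Agent.H979.QIP

theorem continuous_pl {E : Type*} [AddCommGroup E] [Module ℝ E] [TopologicalSpace E]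
    [ContinuousAdd E] [ContinuousSMul ℝ E] (f : ℕ → E) (m : ℕ) : Continuous (pl f m) := by
  unfold pl
  refine continuous_const.add (continuous_finsetSum _ fun j _ => ?_)
  have h1 : Continuous (fun x : ℝ => clp (x - j)) :=
    continuous_clp.comp (continuous_id.sub continuous_const)
  exact h1.smul continuous_const

variable {Ω : Type*} [MeasurableSpace Ω] {d : ℕ} {μ : Measure Ω} {τ : Vd d → Ω → Ω}
  {c : Ω → Vd d → ℝ≥0∞}

theorem lump_int (h : Sta μ τ) (hc : RC τ c) (ω : Ω) {N : ℕ} {F : (ℕ → Vd d) → ℂ} (hF : Dep N F)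
    (s : RS d) :
    haveI := qM_prob (ker_qr h hc) ω
    haveI := qR_prob hc ω
    ∫ w, F (fun k => (w k).pos) ∂(P (qR τ c ω) s) = ∫ w, F w ∂(P (qM τ (qr τ c) ω) s.pos) := by
  haveI := qM_prob (ker_qr h hc) ω
  haveI := qR_prob hc ω
  have hm : Measurable (fun (w : ℕ → RS d) (k : ℕ) => (w k).pos) :=
    measurable_pi_lambda _ fun k => (measurable_of_countable _).comp (measurable_pi_apply k)
  have hm1 : Measurable (fun w : ℕ → RS d => res N (fun k => (w k).pos)) :=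
    (measurable_res N).comp hm
  have e1 : (P (qR τ c ω) s).map (fun w => res N (fun k => (w k).pos)) =
      (P (qM τ (qr τ c) ω) s.pos).map (res N) := by
    ext E hE
    rw [Measure.map_apply hm1 hE, Measure.map_apply (measurable_res N) hE]
    have := lump_set h hc ω (N := N) (E := res N ⁻¹' E) (by
      intro w w' hw
      have : res N w = res N w' := by funext k; exact hw k (by omega)
      simp only [mem_preimage, this]) s
    exact this
  have e2 : ∀ w, F w = (fun p => F (ext p)) (res N w) := fun w => by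
    have := congrFun hF.eq_comp w
    exact this
  have e3 : ∫ w, F (fun k => (w k).pos) ∂(P (qR τ c ω) s) =
      ∫ p, F (ext p) ∂((P (qR τ c ω) s).map (fun w => res N (fun k => (w k).pos))) := by
    rw [integral_map hm1.aemeasurable (measurable_of_countable _).aestronglyMeasurable]
    exact integral_congr_ae (Eventually.of_forall fun w => e2 _)
  have e4 : ∫ w, F w ∂(P (qM τ (qr τ c) ω) s.pos) =
      ∫ p, F (ext p) ∂((P (qM τ (qr τ c) ω) s.pos).map (res N)) := by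
    rw [integral_map (measurable_res N).aemeasurable
      (measurable_of_countable _).aestronglyMeasurable]
    exact integral_congr_ae (Eventually.of_forall fun w => e2 _)
  rw [e3, e4, e1]

/-- the rescaled interpolated path of the concatenated runs -/
noncomputable def XR (T : ℝ) (K n : ℕ) (w : ℕ → RS d) (t : ℝ) : Fin d → ℝ :=
  (1 / √(n : ℝ)) • pl (fun j i => ((zp (K * n) w j i : ℤ) : ℝ)) (⌊T * n⌋₊ + 1) (t * n)

theorem XR_itp {T : ℝ} {K n : ℕ} (w : ℕ → RS d) {t : ℝ} (ht : 0 ≤ t) (htT : t ≤ T) (i : Fin d) :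
    XR T K n w t i = itp n (zp (K * n) w) t i := by
  unfold XR itp
  rw [pl_eq _ (by positivity) (Nat.lt_succ_of_le
    (Nat.floor_le_floor (mul_le_mul_of_nonneg_right htT (Nat.cast_nonneg n))))]
  simp only [Pi.smul_apply, Pi.add_apply, Pi.sub_apply, smul_eq_mul]

theorem XR_cont (T : ℝ) (K n : ℕ) (w : ℕ → RS d) : Continuous (XR T K n w) := by
  unfold XR
  have h1 : Continuous (fun t : ℝ => pl (fun j (i : Fin d) => ((zp (K * n) w j i : ℤ) : ℝ))
    (⌊T * n⌋₊ + 1) (t * n)) := (continuous_pl _ _).comp (continuous_id.mul continuous_const)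
  exact h1.const_smul (1 / √(n : ℝ))

theorem XR_dep (T : ℝ) (K n : ℕ) (t : ℝ) : Dep (K * n) (fun w : ℕ → RS d => XR T K n w t) := by
  intro w w' hw
  simp only [XR, zp]
  rw [dep_cat (K * n) w w' hw]

theorem dep_Ln {m N : ℕ} (hm : m ≤ N) : Dep N (Ln (d := d) m) := by
  intro w w' hw
  unfold Ln
  exact Finset.sum_congr rfl fun r hr => by
    have := Finset.mem_range.1 hr
    rw [hw (r + 1) (by omega)]

/-- the bad event of the comparison -/
def Bd (T a : ℝ) (K n : ℕ) (η : ℝ) : Set (ℕ → RS d) :=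
  {w | ¬ (⌊T * n⌋₊ + 3 ≤ Ln (K * n) w ∧
      ∀ t, 0 ≤ t → t ≤ T → ∀ i, |itp n (zp (K * n) w) t i -
        ((w ⌊t / a * n⌋₊).pos i : ℝ) / √n| ≤ η)}

theorem Qn.bad {h : Sta μ τ} {hc : RC τ c} {ω : Ω} {C : Fin d → Fin d → ℝ} {a : ℝ}
    (hQ : Qn h hc ω C a) {T : ℝ} (hT : 0 < T) {K : ℕ} (hK : 2 * (T + 4) ≤ K * a) {η η' : ℝ}
    (hη : 0 < η) (hη' : 0 < η') :
    haveI := qR_prob hc ω
    ∀ᶠ n : ℕ in atTop, P (qR τ c ω) ⟨0, []⟩ (Bd T a K n η) ≤ ENNReal.ofReal η' := by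
  haveI := qR_prob hc ω
  obtain ⟨K₂, κ, hR⟩ := hQ.rf
  obtain ⟨n0, hn0⟩ := (ENNReal.tendsto_atTop_zero.1 (hR.compare hQ.md hT.le hK hη))
    (ENNReal.ofReal η') (ENNReal.ofReal_pos.2 hη')
  exact eventually_atTop.2 ⟨n0, fun n hn => hn0 n hn⟩

theorem Qn.fddR {h : Sta μ τ} {hc : RC τ c} {ω : Ω} {C : Fin d → Fin d → ℝ} {a : ℝ}
    (hQ : Qn h hc ω C a) (ha : 0 < a) {T : ℝ} (hT : 0 < T) {K : ℕ} (hK : 2 * (T + 4) ≤ K * a)
    (k : ℕ) (t : Fin k → ℝ) (u : Fin k → Fin d → ℝ) (ht : ∀ j, 0 ≤ t j) (htT : ∀ j, t j ≤ T) :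
    haveI := qR_prob hc ω
    Tendsto (fun n : ℕ => ∫ w, Complex.exp (((∑ j, ∑ b, u j b * XR T K n w (t j) b : ℝ) : ℂ) *
      Complex.I) ∂(P (qR τ c ω) ⟨0, []⟩)) atTop
      (𝓝 ((Real.exp (-((∑ j, ∑ l, min (t j / a) (t l / a) *
        ∑ b, ∑ b', u j b * C b b' * u l b') / 2)) : ℝ) : ℂ)) := by
  haveI := qM_prob (ker_qr h hc) ω
  haveI := qR_prob hc ω
  have h1 := hQ.fdd k (fun j => t j / a) u (fun j => div_nonneg (ht j) ha.le)
  rw [Metric.tendsto_atTop] at h1 ⊢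
  intro ε hε
  obtain ⟨n1, hn1⟩ := h1 (ε / 2) (by positivity)
  set U : ℝ := ∑ j, ∑ b, |u j b| with hU
  have hU0 : 0 ≤ U := Finset.sum_nonneg fun _ _ => Finset.sum_nonneg fun _ _ => abs_nonneg _
  obtain ⟨n2, hn2⟩ := eventually_atTop.1 (hQ.bad hT hK (η := ε / (4 * (U + 1))) (η' := ε / 16)
    (by positivity) (by positivity))
  refine ⟨max n1 n2, fun n hn => ?_⟩
  have g1 := hn1 n (by omega)
  have g2 := hn2 n (by omega)
  set X : (ℕ → RS d) → ℝ := fun w => ∑ j, ∑ b, u j b * XR T K n w (t j) b with hX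
  set Y' : (ℕ → Vd d) → ℝ := fun w => ∑ j, ∑ b, u j b *
    (S (fx τ (co b) ω) ⌊t j / a * n⌋₊ w / √n) with hY'
  set Y : (ℕ → RS d) → ℝ := fun w => Y' (fun k => (w k).pos) with hY
  obtain ⟨N, hN⟩ : ∃ N : ℕ, ∀ j, ⌊t j / a * n⌋₊ ≤ N :=
    ⟨∑ j, ⌊t j / a * n⌋₊, fun j => Finset.single_le_sum (f := fun j => ⌊t j / a * n⌋₊)
      (fun _ _ => Nat.zero_le _) (Finset.mem_univ j)⟩
  have hYd : Dep N Y' := by
    intro w w' hw
    simp only [hY']
    refine Finset.sum_congr rfl fun j _ => Finset.sum_congr rfl fun b _ => ?_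
    rw [dep_S (fx τ (co b) ω) (hN j) w w' hw]
  have hXm : Measurable X := by
    refine Dep.measurable (N := K * n) fun w w' hw => ?_
    simp only [hX]
    refine Finset.sum_congr rfl fun j _ => Finset.sum_congr rfl fun b _ => ?_
    have := XR_dep T K n (t j) w w' hw
    simp only at this
    rw [this]
  have hYm : Measurable Y := by
    refine Dep.measurable (N := N) fun w w' hw => ?_
    exact hYd _ _ fun k hk => by rw [hw k hk]
  have h4 := exp_prob (ν := P (qR τ c ω) ⟨0, []⟩) hXm hYm (e := ε / 4) (by positivity)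
  have hsub : P (qR τ c ω) ⟨0, []⟩ {w | ε / 4 < |X w - Y w|} ≤ ENNReal.ofReal (ε / 16) := by
    refine (measure_mono_ae ?_).trans g2
    filter_upwards [ae_pos hc ω] with w hw0 hw
    by_contra hcon
    have hcon' : ⌊T * n⌋₊ + 3 ≤ Ln (K * n) w ∧ ∀ t, 0 ≤ t → t ≤ T → ∀ i,
        |itp n (zp (K * n) w) t i - ((w ⌊t / a * n⌋₊).pos i : ℝ) / √n| ≤ ε / (4 * (U + 1)) := by
      by_contra h5
      exact hcon h5
    refine absurd hw (not_lt.2 ?_)
    have e1 : X w - Y w = ∑ j, ∑ b, u j b * (itp n (zp (K * n) w) (t j) b -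
        ((w ⌊t j / a * n⌋₊).pos b : ℝ) / √n) := by
      simp only [hX, hY, hY']
      rw [← Finset.sum_sub_distrib]
      refine Finset.sum_congr rfl fun j _ => ?_
      rw [← Finset.sum_sub_distrib]
      refine Finset.sum_congr rfl fun b _ => ?_
      rw [S_co, hw0.1, XR_itp w (ht j) (htT j) b]
      simp only [Pi.zero_apply, Int.cast_zero, sub_zero]
      ring
    rw [e1]
    have hterm : ∀ j b, |u j b * (itp n (zp (K * n) w) (t j) b -
        ((w ⌊t j / a * n⌋₊).pos b : ℝ) / √n)| ≤ |u j b| * (ε / (4 * (U + 1))) := by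
      intro j b
      rw [abs_mul]
      exact mul_le_mul_of_nonneg_left (hcon'.2 (t j) (ht j) (htT j) b) (abs_nonneg _)
    refine (Finset.abs_sum_le_sum_abs _ _).trans ?_
    refine (Finset.sum_le_sum fun j _ => (Finset.abs_sum_le_sum_abs _ _).trans
      (Finset.sum_le_sum fun b _ => hterm j b)).trans ?_
    simp_rw [← Finset.sum_mul]
    rw [← hU, mul_div_assoc', div_le_div_iff₀ (by positivity) (by norm_num)]
    nlinarith
  have hsub' : (P (qR τ c ω) ⟨0, []⟩).real {w | ε / 4 < |X w - Y w|} ≤ ε / 16 :=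
    ENNReal.toReal_le_of_le_ofReal (by positivity) hsub
  have e5 : ∫ w, Complex.exp ((Y w : ℂ) * Complex.I) ∂(P (qR τ c ω) ⟨0, []⟩) =
      ∫ w, Complex.exp ((Y' w : ℂ) * Complex.I) ∂(P (qM τ (qr τ c) ω) 0) :=
    lump_int h hc ω (N := N) (F := fun w => Complex.exp ((Y' w : ℂ) * Complex.I))
      (fun w w' hw => by simp only; rw [hYd w w' hw]) ⟨0, []⟩
  rw [e5] at h4
  rw [dist_eq_norm] at g1 ⊢
  calc _ = ‖(∫ w, Complex.exp ((X w : ℂ) * Complex.I) ∂(P (qR τ c ω) ⟨0, []⟩) -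
        ∫ w, Complex.exp ((Y' w : ℂ) * Complex.I) ∂(P (qM τ (qr τ c) ω) 0)) +
        (∫ w, Complex.exp ((Y' w : ℂ) * Complex.I) ∂(P (qM τ (qr τ c) ω) 0) -
        ((Real.exp (-((∑ j, ∑ l, min (t j / a) (t l / a) *
        ∑ b, ∑ b', u j b * C b b' * u l b') / 2)) : ℝ) : ℂ))‖ := by
        congr 1; ring
    _ ≤ _ := norm_add_le _ _
    _ < ε := by linarith

theorem Qn.modR {h : Sta μ τ} {hc : RC τ c} {ω : Ω} {C : Fin d → Fin d → ℝ} {a : ℝ}
    (hQ : Qn h hc ω C a) (ha : 0 < a) {T : ℝ} (hT : 0 < T) {K : ℕ} (hK : 2 * (T + 4) ≤ K * a)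
    {ε η : ℝ} (hε : 0 < ε) (hη : 0 < η) :
    haveI := qR_prob hc ω
    ∃ δ : ℝ, 0 < δ ∧ ∀ᶠ n : ℕ in atTop,
      P (qR τ c ω) ⟨0, []⟩ (Mo T (fun w t => XR T K n w t) δ ε) ≤ ENNReal.ofReal η := by
  haveI := qM_prob (ker_qr h hc) ω
  haveI := qR_prob hc ω
  obtain ⟨K', hK'⟩ := exists_nat_ge (T / a + 1)
  have hK'0 : (0 : ℝ) < K' := by
    have : 0 < T / a := by positivity
    linarith
  have hK'1 : 1 ≤ K' := by exact_mod_cast hK'0
  have hsK : 0 < √(K' : ℝ) := Real.sqrt_pos.2 hK'0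
  set ρ : ℝ := ε / (4 * √(K' : ℝ)) with hρ
  have hρ0 : 0 < ρ := by positivity
  set η' : ℝ := η / (2 * (d + 1)) with hη'
  have hη'0 : 0 < η' := by positivity
  choose δ hδ0 hδ using fun i : Fin d => hQ.md i ρ hρ0 η' hη'0
  obtain ⟨δ', hδ'0, hδ'⟩ : ∃ δ' : ℝ, 0 < δ' ∧ ∀ i, δ' ≤ δ i := by
    by_cases hd : d = 0
    · subst hd; exact ⟨1, one_pos, fun i => i.elim0⟩
    · haveI : Nonempty (Fin d) := ⟨⟨0, Nat.pos_of_ne_zero hd⟩⟩
      refine ⟨Finset.univ.inf' Finset.univ_nonempty δ, ?_, fun i => Finset.inf'_le _ (Finset.mem_univ i)⟩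
      rw [Finset.lt_inf'_iff]
      exact fun i _ => hδ0 i
  refine ⟨δ' * K' * a / 2, by positivity, ?_⟩
  have hKn : Tendsto (fun n : ℕ => K' * n) atTop atTop := tendsto_id.const_mul_atTop' (by omega)
  have m3 : ∀ᶠ n : ℕ in atTop, ∀ i, P (qM τ (qr τ c) ω) 0 {w | ∃ j k, j ≤ k ∧ k ≤ K' * n ∧
      ((k : ℝ) - j) ≤ δ i * (K' * n : ℕ) ∧ ρ * √((K' * n : ℕ) : ℝ) < |(w j i : ℝ) - w k i|} ≤
      ENNReal.ofReal η' := by
    rw [eventually_all]
    intro i
    exact hKn.eventually (hδ i)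
  obtain ⟨n4, hn4⟩ := exists_nat_ge (2 / δ')
  filter_upwards [m3, hQ.bad hT hK (η := ε / 4) (η' := η / 2) (by positivity) (by positivity),
    eventually_ge_atTop (max n4 1)] with n b3 b2 hn
  have hn5 : 1 ≤ n := (le_max_right _ _).trans hn
  have hn0 : (0 : ℝ) < n := by exact_mod_cast hn5
  have hsn : 0 < √(n : ℝ) := Real.sqrt_pos.2 hn0
  set m := K' * n with hm
  have hmn : (m : ℝ) = K' * n := by rw [hm]; push_cast; ring
  have hnm : (n : ℝ) ≤ m := by
    rw [hmn]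
    have : (1 : ℝ) ≤ K' := by exact_mod_cast hK'1
    nlinarith
  have hsm : √(m : ℝ) = √(K' : ℝ) * √(n : ℝ) := by rw [hmn, Real.sqrt_mul hK'0.le]
  have hρm : ρ * √(m : ℝ) = ε / 4 * √n := by
    rw [hρ, hsm]; field_simp
  have hδm : 2 ≤ δ' * m := by
    have h1 : (n4 : ℝ) ≤ n := by exact_mod_cast (le_max_left _ _).trans hn
    have h2 : 2 / δ' ≤ m := hn4.trans (h1.trans hnm)
    rwa [div_le_iff₀ hδ'0, mul_comm] at h2
  set E3 : Fin d → Set (ℕ → RS d) := fun i => {w | (fun k => (w k).pos) ∈ {w : ℕ → Vd d |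
    ∃ j k, j ≤ k ∧ k ≤ m ∧ ((k : ℝ) - j) ≤ δ i * m ∧ ρ * √(m : ℝ) < |(w j i : ℝ) - w k i|}} with hE3
  have hE3m : ∀ i, P (qR τ c ω) ⟨0, []⟩ (E3 i) ≤ ENNReal.ofReal η' := by
    intro i
    have h1 := lump_set h hc ω (dep_ex (X := Vd d) (n := m) (D := δ i * m)
      (pr := fun x y => ρ * √(m : ℝ) < |(x i : ℝ) - y i|)) ⟨0, []⟩
    refine le_trans (le_of_eq h1) (b3 i)
  have hsub : Mo T (fun w t => XR T K n w t) (δ' * K' * a / 2) ε ⊆ Bd T a K n (ε / 4) ∪
      ⋃ i, E3 i := by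
    rintro w ⟨s, t, hs0, hsT, ht0, htT, hst, i, hw⟩
    by_contra hcon
    simp only [mem_union, mem_iUnion, not_or, not_exists] at hcon
    obtain ⟨c1, c3⟩ := hcon
    have c1' : ⌊T * n⌋₊ + 3 ≤ Ln (K * n) w ∧ ∀ t, 0 ≤ t → t ≤ T → ∀ i,
        |itp n (zp (K * n) w) t i - ((w ⌊t / a * n⌋₊).pos i : ℝ) / √n| ≤ ε / 4 := by
      by_contra h5
      exact c1 h5
    simp only [hE3, mem_setOf_eq, not_exists, not_and, not_lt] at c3
    have hmod : ∀ j k, j ≤ k → k ≤ m → (k : ℝ) - j ≤ δ' * m → ∀ i,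
        |((w j).pos i : ℝ) - (w k).pos i| ≤ ε / 4 * √n := by
      intro j k hjk hkm hd i
      rw [← hρm]
      exact c3 i j k hjk hkm (hd.trans (mul_le_mul_of_nonneg_right (hδ' i) (Nat.cast_nonneg _)))
    -- one ordered pair of times
    have key : ∀ s t : ℝ, 0 ≤ s → s ≤ t → t ≤ T → t - s ≤ δ' * K' * a / 2 →
        |((w ⌊s / a * n⌋₊).pos i : ℝ) - (w ⌊t / a * n⌋₊).pos i| ≤ ε / 4 * √n := by
      intro s t hs hst htT hd
      have ht := hs.trans hst
      have f1 : ((⌊t / a * n⌋₊ : ℕ) : ℝ) ≤ t / a * n := Nat.floor_le (by positivity)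
      have f2 : s / a * n < ((⌊s / a * n⌋₊ : ℕ) : ℝ) + 1 := Nat.lt_floor_add_one _
      have f3 : s / a * n ≤ t / a * n := by gcongr
      refine hmod _ _ (Nat.floor_le_floor f3) ?_ ?_ i
      · have : ((⌊t / a * n⌋₊ : ℕ) : ℝ) ≤ m := by
          refine f1.trans ?_
          rw [hmn]
          refine mul_le_mul_of_nonneg_right ?_ hn0.le
          have : t / a ≤ T / a := by gcongr
          linarith
        exact_mod_cast this
      · have f4 : t / a * n - s / a * n ≤ δ' * m / 2 := by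
          rw [← sub_mul, ← sub_div, div_mul_eq_mul_div, div_le_iff₀ ha, hmn]
          nlinarith
        linarith
    have hkey : |((w ⌊s / a * n⌋₊).pos i : ℝ) - (w ⌊t / a * n⌋₊).pos i| ≤ ε / 4 * √n := by
      rcases le_total s t with h1 | h1
      · exact key s t hs0 h1 htT (by rw [abs_sub_comm, abs_of_nonneg (by linarith)] at hst; exact hst)
      · rw [abs_sub_comm]
        exact key t s ht0 h1 hsT (by rw [abs_of_nonneg (by linarith)] at hst; exact hst)
    simp only at hw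
    rw [XR_itp w hs0 hsT i, XR_itp w ht0 htT i] at hw
    have r1 := c1'.2 s hs0 hsT i
    have r2 := c1'.2 t ht0 htT i
    have r3 : |((w ⌊s / a * n⌋₊).pos i : ℝ) / √n - ((w ⌊t / a * n⌋₊).pos i : ℝ) / √n| ≤ ε / 4 := by
      rw [← sub_div, abs_div, abs_of_pos hsn, div_le_iff₀ hsn]
      exact hkey
    rw [abs_le] at r1 r2 r3
    rw [lt_abs] at hw
    rcases hw with hw | hw <;> linarith [r1.1, r1.2, r2.1, r2.2, r3.1, r3.2]
  refine (measure_mono hsub).trans ((measure_union_le _ _).trans ?_)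
  have h5 : P (qR τ c ω) ⟨0, []⟩ (⋃ i, E3 i) ≤ ENNReal.ofReal (η / 2) := by
    refine (measure_iUnion_le _).trans ?_
    rw [tsum_fintype]
    refine (Finset.sum_le_sum fun i _ => hE3m i).trans ?_
    rw [Finset.sum_const, Finset.card_univ, Fintype.card_fin, nsmul_eq_mul]
    have e3 : (d : ℝ≥0∞) = ENNReal.ofReal d := by simp
    rw [e3, ← ENNReal.ofReal_mul (Nat.cast_nonneg _)]
    refine ENNReal.ofReal_le_ofReal ?_
    rw [hη', mul_div_assoc', div_le_div_iff₀ (by positivity) (by norm_num)]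
    nlinarith
  refine (add_le_add b2 h5).trans (le_of_eq ?_)
  rw [← ENNReal.ofReal_add (by positivity) (by positivity)]
  congr 1
  ring

theorem Qn.run_conv {h : Sta μ τ} {hc : RC τ c} {ω : Ω} {C : Fin d → Fin d → ℝ} {a : ℝ}
    (hQ : Qn h hc ω C a) (ha : 0 < a) {T : ℝ} (hT : 0 < T) {K : ℕ} (hK : 2 * (T + 4) ≤ K * a)
    {Ω' : Type*} [MeasurableSpace Ω'] (P' : Measure Ω') [IsProbabilityMeasure P']
    (W : ℝ → Ω' → (Fin d → ℝ)) (hWm : ∀ t, Measurable (W t))
    (hWc : ∀ ω', Continuous (fun t => W t ω'))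
    (hW : ∀ (k : ℕ) (t : Fin k → ℝ) (u : Fin k → Fin d → ℝ), (∀ j, 0 ≤ t j) →
      ∫ ω', Complex.exp (Complex.I * ((∑ j, ∑ b, u j b * W (t j) ω' b : ℝ) : ℂ)) ∂P' =
        Complex.exp (-((∑ j, ∑ l, min (t j) (t l) *
            (∑ b, ∑ b', u j b * (C b b' / a) * u l b') : ℝ) : ℂ) / 2))
    (F : UniformFun (Icc (0 : ℝ) T) (Fin d → ℝ) → ℝ) (hF : Continuous F)
    (hb : ∃ C : ℝ, ∀ f, |F f| ≤ C) :
    haveI := qR_prob hc ω
    Tendsto (fun n : ℕ => ∫ w, F (UniformFun.ofFun (fun t : Icc (0 : ℝ) T => XR T K n w t.1))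
      ∂(P (qR τ c ω) ⟨0, []⟩)) atTop
      (𝓝 (∫ ω', F (UniformFun.ofFun (fun t : Icc (0 : ℝ) T => W t.1 ω')) ∂P')) := by
  haveI := qR_prob hc ω
  refine func_conv (P (qR τ c ω) ⟨0, []⟩) P' hT (fun n w t => XR T K n w t) (fun ω' t => W t ω')
    (fun n w => XR_cont T K n w) hWc (fun n t => (XR_dep T K n t).measurable) hWm ?_ ?_ F hF hb
  · intro k t u ht htT
    rw [hW k t u ht]
    have h1 := hQ.fddR ha hT hK k t u ht htT
    have e1 : Complex.exp (-((∑ j, ∑ l, min (t j) (t l) *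
            (∑ b, ∑ b', u j b * (C b b' / a) * u l b') : ℝ) : ℂ) / 2) =
        ((Real.exp (-((∑ j, ∑ l, min (t j / a) (t l / a) *
        ∑ b, ∑ b', u j b * C b b' * u l b') / 2)) : ℝ) : ℂ) := by
      rw [Complex.ofReal_exp]
      congr 1
      have e2 : (∑ j, ∑ l, min (t j) (t l) * (∑ b, ∑ b', u j b * (C b b' / a) * u l b') : ℝ) =
          ∑ j, ∑ l, min (t j / a) (t l / a) * ∑ b, ∑ b', u j b * C b b' * u l b' := by
        refine Finset.sum_congr rfl fun j _ => Finset.sum_congr rfl fun l _ => ?_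
        have e3 : min (t j / a) (t l / a) = min (t j) (t l) / a := (min_div_div_right ha.le _ _)
        have e4 : (∑ b, ∑ b', u j b * (C b b' / a) * u l b') =
            (∑ b, ∑ b', u j b * C b b' * u l b') / a := by
          simp_rw [Finset.sum_div]
          exact Finset.sum_congr rfl fun b _ => Finset.sum_congr rfl fun b' _ => by ring
        rw [e3, e4]
        ring
      rw [e2]
      push_cast
      ring
    rw [e1]
    refine h1.congr fun n => ?_
    refine integral_congr_ae (Eventually.of_forall fun w => ?_)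
    simp only
    rw [mul_comm]
  · intro ε hε η hη
    exact hQ.modR ha hT hK hε hη

end Pool.Agent.H979.QIP
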