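import Pool.Agent.H979.QIP.Fdd3

set_option autoImplicit false
set_option linter.unusedSectionVars false
set_option linter.deprecated false
set_option linter.unusedVariables false
set_option linter.style.haveILetI false

open MeasureTheory ProbabilityTheory Filter Topology Set
open scoped ENNReal NNReal InnerProductSpace

/-!
# Modulus of continuity of the martingale
-/

namespace Pool.Agent.H979.QIP

theorem blocks {f : ℕ → ℝ} {T : ℕ → ℕ} {b n : ℕ} {r : ℝ} (hr : 0 ≤ r) (h0 : T 0 = 0)
    (hb : T b = n)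
    (hf : ∀ i < b, ∀ l, T i ≤ l → l ≤ T (i + 1) → |f l - f (T i)| ≤ r) {j k : ℕ} (hjk : j ≤ k)
    (hk : k ≤ n) (hgap : ∀ i < b, k - j ≤ T (i + 1) - T i) : |f j - f k| ≤ 3 * r := by
  rcases hjk.eq_or_lt with rfl | hlt
  · rw [sub_self, abs_zero]; positivity
  have hex : ∃ i, j < T i := ⟨b, by omega⟩
  classical
  set i0 := Nat.find hex with hi0
  have h1 : j < T i0 := Nat.find_spec hex
  have h2 : i0 ≠ 0 := fun h => by rw [h, h0] at h1; omega
  obtain ⟨i, hi⟩ := Nat.exists_eq_succ_of_ne_zero h2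
  have h3 : T i ≤ j := not_lt.1 (Nat.find_min hex (m := i) (by omega))
  have h4 : i0 ≤ b := Nat.find_min' hex (by omega)
  have hib : i < b := by omega
  have h5 : j < T (i + 1) := by rw [hi] at h1; exact h1
  have a1 := hf i hib j h3 h5.le
  by_cases hk1 : k ≤ T (i + 1)
  · have a2 := hf i hib k (by omega) hk1
    have : f j - f k = (f j - f (T i)) - (f k - f (T i)) := by ring
    rw [this]
    exact (abs_sub _ _).trans (by linarith)
  · push Not at hk1
    have hib1 : i + 1 < b := by
      by_contra hcon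
      have : i + 1 = b := by omega
      rw [this] at hk1
      omega
    have h6 := hgap (i + 1) hib1
    have h7 : k ≤ T (i + 1 + 1) := by omega
    have a2 := hf (i + 1) hib1 k hk1.le h7
    have a3 := hf i hib (T (i + 1)) (by omega) le_rfl
    have : f j - f k = ((f j - f (T i)) - (f (T (i + 1)) - f (T i))) - (f k - f (T (i + 1))) := by ring
    rw [this]
    have b1 := abs_sub (f j - f (T i)) (f (T (i + 1)) - f (T i))
    exact (abs_sub _ _).trans (by linarith)

section chain

variable {X : Type*} [Countable X] [MeasurableSpace X] [MeasurableSingletonClass X]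
  (q : X → Measure X) [∀ x, IsProbabilityMeasure (q x)]

theorem shift_le {E : Set (ℕ → X)} (hE : MeasurableSet E) {c : ℝ≥0∞} (h : ∀ y, P q y E ≤ c)
    (m : ℕ) (x : X) : P q x {w | (fun k => w (m + k)) ∈ E} ≤ c := by
  have h1 := markov_shift q m x (f := E.indicator 1) (measurable_one.indicator hE)
  have hm : Measurable (fun w : ℕ → X => fun k => w (m + k)) :=
    measurable_pi_lambda _ fun k => measurable_pi_apply _
  have e1 : ∫⁻ w, E.indicator (1 : (ℕ → X) → ℝ≥0∞) (fun k => w (m + k)) ∂(P q x) =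
      P q x {w | (fun k => w (m + k)) ∈ E} := by
    have : (fun w : ℕ → X => E.indicator (1 : (ℕ → X) → ℝ≥0∞) (fun k => w (m + k))) =
        ({w : ℕ → X | (fun k => w (m + k)) ∈ E}).indicator 1 := by
      funext w
      simp [Set.indicator]
    rw [this]
    exact lintegral_indicator_one (hm hE)
  rw [e1] at h1
  rw [h1]
  have e2 : (fun y => ∫⁻ w, E.indicator (1 : (ℕ → X) → ℝ≥0∞) w ∂(P q y)) = fun y => P q y E := by
    funext y
    exact lintegral_indicator_one hE
  rw [e2]
  have h3 : ∀ m x, (K q)^[m] (fun y => P q y E) x ≤ c := by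
    intro m
    induction m with
    | zero => exact h
    | succ m ih =>
      intro x
      rw [Function.iterate_succ_apply']
      unfold K
      calc _ ≤ ∫⁻ y, c ∂(q x) := lintegral_mono fun y => ih y
        _ = c := by rw [lintegral_const, measure_univ, mul_one]
  exact h3 m x

theorem S_shift (ξ : X → X → ℝ) (m k : ℕ) (w : ℕ → X) :
    S ξ (m + k) w - S ξ m w = S ξ k (fun j => w (m + j)) := by
  unfold S
  rw [Finset.sum_range_add]
  simp only [add_sub_cancel_left]
  rfl

theorem block_bound {ξ : X → X → ℝ} {M : ℝ} (hb : ∀ x y, |ξ x y| ≤ M) (h0 : ∀ x, bm q ξ x = 0)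
    {l : ℝ} (hl : 0 ≤ l) (hlc : l * M ≤ 1) (r v : ℝ) (T1 T2 : ℕ) (x : X) :
    P q x {w | ∃ k, T1 ≤ k ∧ k ≤ T2 ∧ r < |S ξ k w - S ξ T1 w|} ≤
      2 * ENNReal.ofReal (Real.exp (-(l * r) + l ^ 2 * v)) +
      P q x {w | v < ∑ j ∈ Finset.Ico T1 T2, ∫ y, ξ (w j) y ^ 2 ∂(q (w j))} := by
  set s : X → ℝ := fun x => ∫ y, ξ x y ^ 2 ∂(q x) with hs
  have hs0 : ∀ x, 0 ≤ s x := fun x => integral_nonneg fun y => sq_nonneg _
  set n := T2 - T1 with hn
  set E : (X → X → ℝ) → Set (ℕ → X) := fun ζ => {w | ∃ k ≤ n, r ≤ 0 + S ζ k w ∧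
    ∑ j ∈ Finset.range k, (∫ y, ζ (w j) y ^ 2 ∂(q (w j))) ≤ v} with hEdef
  have hEm : ∀ ζ, MeasurableSet (E ζ) := by
    intro ζ
    refine Dep.measurableSet (N := n + 1) fun w w' hw => ?_
    simp only [hEdef, mem_setOf_eq, eq_iff_iff]
    have e1 : ∀ k ≤ n, S ζ k w = S ζ k w' := fun k hk => dep_S ζ (by omega) _ _ hw
    have e2 : ∀ k ≤ n, ∑ j ∈ Finset.range k, (∫ y, ζ (w j) y ^ 2 ∂(q (w j))) =
        ∑ j ∈ Finset.range k, (∫ y, ζ (w' j) y ^ 2 ∂(q (w' j))) :=
      fun k hk => Finset.sum_congr rfl fun j hj => by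
        have hj := Finset.mem_range.1 hj
        rw [hw j (by omega)]
    constructor
    · rintro ⟨k, hk, h1, h2⟩
      exact ⟨k, hk, by rwa [← e1 k hk], by rwa [← e2 k hk]⟩
    · rintro ⟨k, hk, h1, h2⟩
      exact ⟨k, hk, by rwa [e1 k hk], by rwa [e2 k hk]⟩
  have hP1 : ∀ y, P q y (E ξ) ≤ ENNReal.ofReal (Real.exp (-(l * r) + l ^ 2 * v)) := by
    intro y
    have := expo q hb h0 hl hlc (r := r) (v := v) n y 0
    have e : l * (0 - r) + l ^ 2 * v = -(l * r) + l ^ 2 * v := by ring
    rw [e] at this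
    exact this
  have hP2 : ∀ y, P q y (E (fun x y => - ξ x y)) ≤
      ENNReal.ofReal (Real.exp (-(l * r) + l ^ 2 * v)) := by
    intro y
    have := expo q (ξ := fun x y => - ξ x y) (c := M) (fun x y => by rw [abs_neg]; exact hb x y)
      (fun x => by
        have := h0 x
        unfold bm at this ⊢
        rw [integral_neg, this, neg_zero]) hl hlc (r := r) (v := v) n y 0
    have e : l * (0 - r) + l ^ 2 * v = -(l * r) + l ^ 2 * v := by ring
    rw [e] at this
    exact this
  have h1 := shift_le q (hEm ξ) hP1 T1 x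
  have h2 := shift_le q (hEm (fun x y => - ξ x y)) hP2 T1 x
  have hsub : {w : ℕ → X | ∃ k, T1 ≤ k ∧ k ≤ T2 ∧ r < |S ξ k w - S ξ T1 w|} ⊆
      ({w | (fun k => w (T1 + k)) ∈ E ξ} ∪ {w | (fun k => w (T1 + k)) ∈ E (fun x y => - ξ x y)}) ∪
      {w | v < ∑ j ∈ Finset.Ico T1 T2, s (w j)} := by
    rintro w ⟨k, hk1, hk2, hk3⟩
    by_cases hv : v < ∑ j ∈ Finset.Ico T1 T2, s (w j)
    · right; exact hv
    left
    push Not at hv
    obtain ⟨m, rfl⟩ := Nat.exists_eq_add_of_le hk1
    rw [S_shift] at hk3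
    have hsum : ∑ j ∈ Finset.range m, s (w (T1 + j)) ≤ v := by
      refine le_trans ?_ hv
      rw [Finset.sum_Ico_eq_sum_range]
      exact Finset.sum_le_sum_of_subset_of_nonneg (Finset.range_mono (by omega)) fun _ _ _ => hs0 _
    rcases lt_abs.1 hk3 with h | h
    · left
      exact ⟨m, by omega, by rw [zero_add]; exact h.le, hsum⟩
    · right
      refine ⟨m, by omega, ?_, ?_⟩
      · have : S (fun x y => - ξ x y) m (fun j => w (T1 + j)) = - S ξ m (fun j => w (T1 + j)) := by
          unfold S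
          rw [Finset.sum_neg_distrib]
        rw [zero_add, this]
        exact h.le
      · refine le_trans (le_of_eq ?_) hsum
        refine Finset.sum_congr rfl fun j _ => ?_
        rw [hs]
        simp only [neg_sq]
  refine (measure_mono hsub).trans ((measure_union_le _ _).trans (add_le_add
    ((measure_union_le _ _).trans ?_) le_rfl))
  rw [two_mul]
  exact add_le_add h1 h2

end chain

end Pool.Agent.H979.QIP
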