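import Pool.Agent.H979.QIP.Net
import Pool.Agent.H979.QIP.Env

set_option autoImplicit false
set_option linter.unusedSectionVars false
set_option linter.deprecated false
set_option linter.unusedVariables false
set_option linter.style.haveILetI false

open MeasureTheory ProbabilityTheory Filter Topology Set
open scoped ENNReal NNReal

/-!
# The Nash inequality for a weighted graph which contains the coordinate lines
-/

namespace Pool.Agent.H979.QIP

variable {d : ℕ}

/-- the graph contains the coordinate lines -/
structure Lines (c : Vd d → Vd d → ℝ) (Act : Set (Vd d)) (nx : Fin d → Vd d → Vd d) : Prop where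
  line : ∀ i, ∀ x ∈ Act, ∃ k : ℤ, x i < k ∧ nx i x = Function.update x i k
  act : ∀ i, ∀ x ∈ Act, nx i x ∈ Act
  inj : ∀ i, ∀ x ∈ Act, ∀ y ∈ Act, nx i x = nx i y → x = y
  cond : ∀ i, ∀ x ∈ Act, 1 ≤ c x (nx i x)

variable {c : Vd d → Vd d → ℝ} {Act : Set (Vd d)} {nx : Fin d → Vd d → Vd d}

theorem Lines.iter_act (hL : Lines c Act nx) (i : Fin d) {x : Vd d} (hx : x ∈ Act) (n : ℕ) :
    (nx i)^[n] x ∈ Act := by
  induction n with
  | zero => exact hx
  | succ n ih => rw [Function.iterate_succ_apply']; exact hL.act i _ ih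

theorem Lines.iter_eq (hL : Lines c Act nx) (i : Fin d) {x : Vd d} (hx : x ∈ Act) (n : ℕ) :
    (nx i)^[n] x = Function.update x i ((nx i)^[n] x i) := by
  induction n with
  | zero => simp
  | succ n ih =>
    rw [Function.iterate_succ_apply']
    obtain ⟨k, hk, hk'⟩ := hL.line i _ (hL.iter_act i hx n)
    rw [hk', Function.update_self]
    rw [ih]
    simp

theorem Lines.iter_mono (hL : Lines c Act nx) (i : Fin d) {x : Vd d} (hx : x ∈ Act) :
    StrictMono (fun n => (nx i)^[n] x i) := by
  refine strictMono_nat_of_lt_succ fun n => ?_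
  rw [Function.iterate_succ_apply']
  obtain ⟨k, hk, hk'⟩ := hL.line i _ (hL.iter_act i hx n)
  rw [hk', Function.update_self]
  exact hk

open Classical in
/-- the total gradient -/
noncomputable def tg (Act : Set (Vd d)) (nx : Fin d → Vd d → Vd d) (f : Vd d → ℝ) (x : Vd d) : ℝ≥0∞ :=
  if x ∈ Act then ∑ i, ENNReal.ofReal |f x - f (nx i x)| else 0

theorem gns_point (hL : Lines c Act nx) {f : Vd d → ℝ} (hf : ∀ x, 0 ≤ f x) (hs : Summable f)
    {x : Vd d} (hx : x ∈ Act) (i : Fin d) :
    ENNReal.ofReal (f x) ≤ ∑' k : ℤ, tg Act nx f (Function.update x i k) := by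
  set y : ℕ → Vd d := fun n => (nx i)^[n] x with hy
  have hinj : Function.Injective (fun n => y n i) := (hL.iter_mono i hx).injective
  have hyinj : Function.Injective y := fun m n hmn => hinj (by simp only [hmn])
  have hlim : Tendsto (fun n => f (y n)) atTop (𝓝 0) :=
    (hs.comp_injective hyinj).tendsto_atTop_zero
  have hstep : ∀ n, f x ≤ f (y n) + ∑ j ∈ Finset.range n, |f (y j) - f (y (j + 1))| := by
    intro n
    induction n with
    | zero => simp [hy]
    | succ n ih =>
      rw [Finset.sum_range_succ]
      have := le_abs_self (f (y n) - f (y (n + 1)))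
      linarith
  have hsum : ∀ n, ENNReal.ofReal (∑ j ∈ Finset.range n, |f (y j) - f (y (j + 1))|) ≤
      ∑' k : ℤ, tg Act nx f (Function.update x i k) := by
    intro n
    rw [ENNReal.ofReal_sum_of_nonneg fun _ _ => abs_nonneg _]
    have h1 : ∀ j ∈ Finset.range n, ENNReal.ofReal |f (y j) - f (y (j + 1))| ≤
        tg Act nx f (Function.update x i (y j i)) := by
      intro j _
      have e1 : Function.update x i (y j i) = y j := (hL.iter_eq i hx j).symm
      rw [e1]
      unfold tg
      rw [if_pos (hL.iter_act i hx j)]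
      have e2 : y (j + 1) = nx i (y j) := Function.iterate_succ_apply' _ _ _
      rw [e2]
      exact Finset.single_le_sum (f := fun i => ENNReal.ofReal |f (y j) - f (nx i (y j))|)
        (fun _ _ => zero_le) (Finset.mem_univ i)
    refine (Finset.sum_le_sum h1).trans ?_
    refine (ENNReal.sum_le_tsum _).trans ?_
    exact ENNReal.tsum_comp_le_tsum_of_injective hinj
      (fun k : ℤ => tg Act nx f (Function.update x i k))
  have hle : ∀ n, ENNReal.ofReal (f x) ≤ ENNReal.ofReal (f (y n)) +
      ∑' k : ℤ, tg Act nx f (Function.update x i k) := fun n =>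
    (ENNReal.ofReal_le_ofReal (hstep n)).trans (ENNReal.ofReal_add_le.trans
      (add_le_add le_rfl (hsum n)))
  have h2 : Tendsto (fun n => ENNReal.ofReal (f (y n)) +
      ∑' k : ℤ, tg Act nx f (Function.update x i k)) atTop
      (𝓝 (ENNReal.ofReal 0 + ∑' k : ℤ, tg Act nx f (Function.update x i k))) :=
    (ENNReal.tendsto_ofReal hlim).add_const _
  rw [ENNReal.ofReal_zero, zero_add] at h2
  exact ge_of_tendsto' h2 hle

theorem pi_count : Measure.pi (fun _ : Fin d => (Measure.count : Measure ℤ)) = Measure.count := by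
  refine Measure.ext_of_singleton fun x => ?_
  rw [Measure.pi_singleton]
  simp

theorem gns (hd : 2 ≤ d) (hL : Lines c Act nx) {f : Vd d → ℝ} (hf : ∀ x, 0 ≤ f x)
    (hs : Summable f) (hA : ∀ x, x ∉ Act → f x = 0) :
    ∑' x, ENNReal.ofReal (f x) ^ ((d : ℝ) / (d - 1)) ≤
      (∑' x, tg Act nx f x) ^ ((d : ℝ) / (d - 1)) := by
  have hd0 : (2 : ℝ) ≤ d := by exact_mod_cast hd
  have hp : Real.HolderConjugate (Fintype.card (Fin d)) ((d : ℝ) / (d - 1)) := by
    rw [Fintype.card_fin, Real.holderConjugate_iff]
    constructor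
    · linarith
    · field_simp
      ring
  have h1 := lintegral_prod_lintegral_pow_le (fun _ : Fin d => (Measure.count : Measure ℤ)) hp
    (f := tg Act nx f) (measurable_of_countable _)
  rw [pi_count, lintegral_count, lintegral_count] at h1
  refine le_trans (ENNReal.tsum_le_tsum fun x => ?_) h1
  simp_rw [lintegral_count]
  by_cases hx : x ∈ Act
  · rw [Fintype.card_fin]
    calc ENNReal.ofReal (f x) ^ ((d : ℝ) / (d - 1)) =
          ∏ i : Fin d, ENNReal.ofReal (f x) ^ ((1 : ℝ) / (d - 1)) := by
          rw [Finset.prod_const, Finset.card_univ, Fintype.card_fin, ← ENNReal.rpow_natCast,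
            ← ENNReal.rpow_mul]
          congr 1
          ring
      _ ≤ _ := by
          refine Finset.prod_le_prod' fun i _ => ?_
          exact ENNReal.rpow_le_rpow (gns_point hL hf hs hx i) (div_nonneg zero_le_one (by linarith))
  · rw [hA x hx, ENNReal.ofReal_zero, ENNReal.zero_rpow_of_pos]
    · exact zero_le
    · exact div_pos (by linarith) (by linarith)

end Pool.Agent.H979.QIP
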