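import Pool.Agent.H979.QIP.Nash

set_option autoImplicit false
set_option linter.unusedSectionVars false
set_option linter.deprecated false
set_option linter.unusedVariables false
set_option linter.style.haveILetI false

open MeasureTheory ProbabilityTheory Filter Topology Set
open scoped ENNReal NNReal

/-!
# The Nash inequality and the decay of the heat kernel
-/

namespace Pool.Agent.H979.QIP

variable {d : ℕ} {c : Vd d → Vd d → ℝ} {Act : Set (Vd d)} {nx : Fin d → Vd d → Vd d}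

theorem Lines.nx_inj (hL : Lines c Act nx) {x : Vd d} (hx : x ∈ Act) :
    Function.Injective (fun i => nx i x) := by
  intro i j hij
  simp only at hij
  by_contra hne
  obtain ⟨k, hk, hk'⟩ := hL.line i x hx
  obtain ⟨l, hl, hl'⟩ := hL.line j x hx
  rw [hk', hl'] at hij
  have := congrFun hij i
  rw [Function.update_self, Function.update_of_ne hne] at this
  omega

theorem pt_grad {t u v : ℝ} (ht : 0 < t) (hu : 0 ≤ u) (hv : 0 ≤ v) :
    |u ^ 2 - v ^ 2| ≤ t / 2 * (u - v) ^ 2 + 1 / t * (u ^ 2 + v ^ 2) := by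
  have e1 : |u ^ 2 - v ^ 2| = |u - v| * (u + v) := by
    rw [show u ^ 2 - v ^ 2 = (u - v) * (u + v) by ring, abs_mul, abs_of_nonneg (add_nonneg hu hv)]
  rw [e1, ← sq_abs (u - v)]
  set w := |u - v| with hw
  have h1 : t / 2 * w ^ 2 + 1 / (2 * t) * (u + v) ^ 2 - w * (u + v) =
      (t * w - (u + v)) ^ 2 / (2 * t) := by field_simp; ring
  have h2 : 0 ≤ (t * w - (u + v)) ^ 2 / (2 * t) := by positivity
  have h3 : 1 / (2 * t) * (u + v) ^ 2 ≤ 1 / t * (u ^ 2 + v ^ 2) := by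
    have : 1 / t * (u ^ 2 + v ^ 2) - 1 / (2 * t) * (u + v) ^ 2 = (u - v) ^ 2 / (2 * t) := by
      field_simp; ring
    have h4 : 0 ≤ (u - v) ^ 2 / (2 * t) := by positivity
    linarith
  linarith

theorem tg_bound (hL : Lines c Act nx) (hc : Nw c) {u : Vd d → ℝ} (hu : ∀ x, 0 ≤ u x)
    (hs2 : Summable (fun x => u x ^ 2))
    (hE : Summable (fun z : Vd d × Vd d => c z.1 z.2 * (u z.1 - u z.2) ^ 2)) {t : ℝ} (ht : 0 < t) :
    ∑' x, tg Act nx (fun x => u x ^ 2) x ≤ ENNReal.ofReal (t / 2 *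
      ∑' z : Vd d × Vd d, c z.1 z.2 * (u z.1 - u z.2) ^ 2 + 2 * d * (∑' x, u x ^ 2) / t) := by
  classical
  set A := ∑' x, u x ^ 2 with hA
  have hA0 : 0 ≤ A := tsum_nonneg fun x => sq_nonneg _
  set E := ∑' z : Vd d × Vd d, c z.1 z.2 * (u z.1 - u z.2) ^ 2 with hEdef
  have hEnn : ∀ z : Vd d × Vd d, 0 ≤ c z.1 z.2 * (u z.1 - u z.2) ^ 2 := fun z =>
    mul_nonneg (hc.nn _ _) (sq_nonneg _)
  have hE0 : 0 ≤ E := tsum_nonneg hEnn
  have hAe : ∑' x, ENNReal.ofReal (u x ^ 2) = ENNReal.ofReal A :=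
    (ENNReal.ofReal_tsum_of_nonneg (fun x => sq_nonneg _) hs2).symm
  have hEe : ∑' x, ∑' y, ENNReal.ofReal (c x y * (u x - u y) ^ 2) = ENNReal.ofReal E := by
    rw [← ENNReal.tsum_prod (f := fun x y => ENNReal.ofReal (c x y * (u x - u y) ^ 2))]
    exact (ENNReal.ofReal_tsum_of_nonneg hEnn hE).symm
  have h1 : ∀ x, tg Act nx (fun x => u x ^ 2) x ≤
      ENNReal.ofReal (t / 2) * (if x ∈ Act then ∑ i, ENNReal.ofReal ((u x - u (nx i x)) ^ 2) else 0) +
      ENNReal.ofReal (1 / t) * ((if x ∈ Act then ∑ i : Fin d, ENNReal.ofReal (u x ^ 2) else 0) +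
        (if x ∈ Act then ∑ i, ENNReal.ofReal (u (nx i x) ^ 2) else 0)) := by
    intro x
    unfold tg
    by_cases hx : x ∈ Act
    · simp only [if_pos hx]
      rw [← Finset.sum_add_distrib, Finset.mul_sum, Finset.mul_sum, ← Finset.sum_add_distrib]
      refine Finset.sum_le_sum fun i _ => ?_
      rw [← ENNReal.ofReal_add (sq_nonneg _) (sq_nonneg _), ← ENNReal.ofReal_mul (by positivity),
        ← ENNReal.ofReal_mul (by positivity), ← ENNReal.ofReal_add (by positivity) (by positivity)]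
      exact ENNReal.ofReal_le_ofReal (pt_grad ht (hu _) (hu _))
    · simp [if_neg hx]
  refine (ENNReal.tsum_le_tsum h1).trans ?_
  rw [ENNReal.tsum_add, ENNReal.tsum_mul_left, ENNReal.tsum_mul_left, ENNReal.tsum_add]
  have b1 : ∑' x, (if x ∈ Act then ∑ i, ENNReal.ofReal ((u x - u (nx i x)) ^ 2) else 0) ≤
      ENNReal.ofReal E := by
    rw [← hEe]
    refine ENNReal.tsum_le_tsum fun x => ?_
    by_cases hx : x ∈ Act
    · rw [if_pos hx]
      calc ∑ i, ENNReal.ofReal ((u x - u (nx i x)) ^ 2) ≤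
            ∑ i, ENNReal.ofReal (c x (nx i x) * (u x - u (nx i x)) ^ 2) := by
            refine Finset.sum_le_sum fun i _ => ENNReal.ofReal_le_ofReal ?_
            have := mul_le_mul_of_nonneg_right (hL.cond i x hx) (sq_nonneg (u x - u (nx i x)))
            linarith
        _ = ∑' i, ENNReal.ofReal (c x (nx i x) * (u x - u (nx i x)) ^ 2) := (tsum_fintype _).symm
        _ ≤ _ := ENNReal.tsum_comp_le_tsum_of_injective (hL.nx_inj hx)
            (fun y => ENNReal.ofReal (c x y * (u x - u y) ^ 2))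
    · rw [if_neg hx]; exact zero_le
  have b2 : ∑' x, (if x ∈ Act then ∑ i : Fin d, ENNReal.ofReal (u x ^ 2) else 0) ≤
      ENNReal.ofReal (d * A) := by
    rw [ENNReal.ofReal_mul (Nat.cast_nonneg _), ← hAe, ← ENNReal.tsum_mul_left]
    refine ENNReal.tsum_le_tsum fun x => ?_
    split_ifs
    · rw [Finset.sum_const, Finset.card_univ, Fintype.card_fin, nsmul_eq_mul, ENNReal.ofReal_natCast]
    · exact zero_le
  have b3 : ∑' x, (if x ∈ Act then ∑ i, ENNReal.ofReal (u (nx i x) ^ 2) else 0) ≤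
      ENNReal.ofReal (d * A) := by
    have e1 : ∀ x, (if x ∈ Act then ∑ i, ENNReal.ofReal (u (nx i x) ^ 2) else 0) =
        ∑ i, (if x ∈ Act then ENNReal.ofReal (u (nx i x) ^ 2) else 0) := fun x => by
      split_ifs <;> simp
    simp_rw [e1]
    rw [Summable.tsum_finsetSum fun i _ => ENNReal.summable]
    have e2 : ENNReal.ofReal (d * A) = ∑ i : Fin d, ENNReal.ofReal A := by
      rw [Finset.sum_const, Finset.card_univ, Fintype.card_fin, nsmul_eq_mul,
        ENNReal.ofReal_mul (Nat.cast_nonneg _), ENNReal.ofReal_natCast]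
    rw [e2]
    refine Finset.sum_le_sum fun i _ => ?_
    rw [← hAe]
    have hinj : Function.Injective (fun x : Act => nx i x.1) := fun x y hxy =>
      Subtype.ext (hL.inj i x.1 x.2 y.1 y.2 hxy)
    refine le_trans (le_of_eq ?_) (ENNReal.tsum_comp_le_tsum_of_injective hinj
      (fun y => ENNReal.ofReal (u y ^ 2)))
    rw [tsum_subtype Act (fun x => ENNReal.ofReal (u (nx i x) ^ 2))]
    exact tsum_congr fun x => by simp [Set.indicator]
  refine (add_le_add (mul_le_mul' le_rfl b1) (mul_le_mul' le_rfl (add_le_add b2 b3))).trans ?_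
  rw [← ENNReal.ofReal_add (by positivity) (by positivity), ← ENNReal.ofReal_mul (by positivity),
    ← ENNReal.ofReal_mul (by positivity), ← ENNReal.ofReal_add (by positivity) (by positivity)]
  refine ENNReal.ofReal_le_ofReal (le_of_eq ?_)
  ring

theorem pt_interp {p s u : ℝ} (hp : 1 < p) (hs : 0 < s) (hu : 0 ≤ u) :
    u ^ 2 ≤ s * u + s ^ (2 - 2 * p) * (u ^ 2) ^ p := by
  rcases le_total u s with h | h
  · have h1 : u ^ 2 ≤ s * u := by nlinarith
    have h2 : 0 ≤ s ^ (2 - 2 * p) * (u ^ 2) ^ p := by positivity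
    linarith
  · have hu0 : 0 < u := hs.trans_le h
    have e1 : (u ^ 2) ^ p = u ^ 2 * u ^ (2 * p - 2) := by
      rw [← Real.rpow_natCast u 2, ← Real.rpow_mul hu, ← Real.rpow_add hu0]
      congr 1
      push_cast
      ring
    have e2 : s ^ (2 - 2 * p) = (s ^ (2 * p - 2))⁻¹ := by
      rw [← Real.rpow_neg hs.le]
      congr 1
      ring
    have h3 : s ^ (2 * p - 2) ≤ u ^ (2 * p - 2) := Real.rpow_le_rpow hs.le h (by linarith)
    have h4 : 0 < s ^ (2 * p - 2) := Real.rpow_pos_of_pos hs _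
    have h5 : u ^ 2 ≤ s ^ (2 - 2 * p) * (u ^ 2) ^ p := by
      rw [e1, e2, inv_mul_eq_div, le_div_iff₀ h4]
      exact mul_le_mul_of_nonneg_left h3 (sq_nonneg _)
    have : 0 ≤ s * u := by positivity
    linarith

/-- the Nash inequality -/
theorem nash (hd : 2 ≤ d) (hL : Lines c Act nx) (hc : Nw c) {u : Vd d → ℝ} (hu : ∀ x, 0 ≤ u x)
    (hs : Summable u) (hu1 : ∑' x, u x ≤ 1) (hs2 : Summable (fun x => u x ^ 2))
    (hA : ∀ x, x ∉ Act → u x = 0)
    (hE : Summable (fun z : Vd d × Vd d => c z.1 z.2 * (u z.1 - u z.2) ^ 2)) :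
    1 / (8 * d) * ((∑' x, u x ^ 2) / 2) ^ (1 + 2 / (d : ℝ)) ≤
      ∑' z : Vd d × Vd d, c z.1 z.2 * (u z.1 - u z.2) ^ 2 := by
  set A := ∑' x, u x ^ 2 with hAd
  set E := ∑' z : Vd d × Vd d, c z.1 z.2 * (u z.1 - u z.2) ^ 2 with hEdef
  have hA0 : 0 ≤ A := tsum_nonneg fun x => sq_nonneg _
  have hE0 : 0 ≤ E := tsum_nonneg fun z => mul_nonneg (hc.nn _ _) (sq_nonneg _)
  have hd0 : (2 : ℝ) ≤ d := by exact_mod_cast hd
  rcases hA0.eq_or_lt with h0 | hApos
  · rw [← h0, zero_div, Real.zero_rpow (by positivity), mul_zero]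
    exact hE0
  set s := A / 2 with hsd
  have hs0 : 0 < s := by positivity
  set p : ℝ := (d : ℝ) / (d - 1) with hp
  have hp1 : 1 < p := by rw [hp, lt_div_iff₀ (by linarith)]; linarith
  set t : ℝ := 8 * d * s ^ (-(1 / (d : ℝ))) with ht
  have ht0 : 0 < t := by positivity
  set H : ℝ := t / 2 * E + 2 * d * A / t with hH
  have hH0 : 0 ≤ H := by positivity
  have h1 := gns hd hL (f := fun x => u x ^ 2) (fun x => sq_nonneg _) hs2
    (fun x hx => by rw [hA x hx]; ring)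
  have h2 := tg_bound hL hc hu hs2 hE ht0
  have h3 : ∑' x, ENNReal.ofReal (u x ^ 2) ^ p ≤ ENNReal.ofReal (H ^ p) := by
    refine (h1.trans (ENNReal.rpow_le_rpow h2 (by linarith))).trans (le_of_eq ?_)
    rw [ENNReal.ofReal_rpow_of_nonneg hH0 (by linarith)]
  have h4 : ENNReal.ofReal A ≤ ENNReal.ofReal (s + s ^ (2 - 2 * p) * H ^ p) := by
    rw [hAd, ENNReal.ofReal_tsum_of_nonneg (fun x => sq_nonneg _) hs2]
    have h5 : ∀ x, ENNReal.ofReal (u x ^ 2) ≤ ENNReal.ofReal s * ENNReal.ofReal (u x) +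
        ENNReal.ofReal (s ^ (2 - 2 * p)) * ENNReal.ofReal (u x ^ 2) ^ p := by
      intro x
      rw [ENNReal.ofReal_rpow_of_nonneg (sq_nonneg _) (by linarith), ← ENNReal.ofReal_mul hs0.le,
        ← ENNReal.ofReal_mul (by positivity),
        ← ENNReal.ofReal_add (mul_nonneg hs0.le (hu x)) (by positivity)]
      exact ENNReal.ofReal_le_ofReal (pt_interp hp1 hs0 (hu x))
    refine (ENNReal.tsum_le_tsum h5).trans ?_
    rw [ENNReal.tsum_add, ENNReal.tsum_mul_left, ENNReal.tsum_mul_left,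
      ENNReal.ofReal_add hs0.le (by positivity), ENNReal.ofReal_mul (by positivity)]
    refine add_le_add ?_ (mul_le_mul' le_rfl h3)
    rw [← ENNReal.ofReal_tsum_of_nonneg hu hs, ← ENNReal.ofReal_mul hs0.le]
    exact ENNReal.ofReal_le_ofReal (by nlinarith)
  rw [ENNReal.ofReal_le_ofReal_iff (by positivity)] at h4
  have h5 : s ≤ s ^ (2 - 2 * p) * H ^ p := by
    have : A = 2 * s := by rw [hsd]; ring
    linarith
  -- `s ^ (2 p - 1) ≤ H ^ p`
  have h6 : s ^ (2 * p - 1) ≤ H ^ p := by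
    have e1 : s ^ (2 * p - 1) = s ^ (2 * p - 2) * s := by
      rw [← Real.rpow_add_one hs0.ne']
      congr 1
      ring
    have e2 : s ^ (2 * p - 2) * s ^ (2 - 2 * p) = 1 := by
      rw [← Real.rpow_add hs0]
      have : 2 * p - 2 + (2 - 2 * p) = 0 := by ring
      rw [this, Real.rpow_zero]
    rw [e1]
    calc s ^ (2 * p - 2) * s ≤ s ^ (2 * p - 2) * (s ^ (2 - 2 * p) * H ^ p) :=
          mul_le_mul_of_nonneg_left h5 (by positivity)
      _ = (s ^ (2 * p - 2) * s ^ (2 - 2 * p)) * H ^ p := by ring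
      _ = H ^ p := by rw [e2, one_mul]
  have h7 : s ^ (1 + 1 / (d : ℝ)) ≤ H := by
    have e1 : (s ^ (1 + 1 / (d : ℝ))) ^ p = s ^ (2 * p - 1) := by
      rw [← Real.rpow_mul hs0.le]
      congr 1
      have hd1 : (d : ℝ) - 1 ≠ 0 := by linarith
      rw [hp]
      field_simp
      ring
    rw [← e1] at h6
    exact (Real.rpow_le_rpow_iff (by positivity) hH0 (by linarith)).1 h6
  have h8 : 2 * d * A / t = 1 / 2 * s ^ (1 + 1 / (d : ℝ)) := by
    rw [ht, Real.rpow_neg hs0.le, Real.rpow_add hs0, Real.rpow_one, hsd]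
    field_simp
    norm_num
  have h9 : 1 / 2 * s ^ (1 + 1 / (d : ℝ)) ≤ t / 2 * E := by
    rw [hH, h8] at h7
    linarith
  have h10 : s ^ (1 + 2 / (d : ℝ)) = s ^ (1 + 1 / (d : ℝ)) * s ^ (1 / (d : ℝ)) := by
    rw [← Real.rpow_add hs0]
    congr 1
    ring
  rw [h10]
  have h11 : s ^ (1 / (d : ℝ)) * s ^ (-(1 / (d : ℝ))) = 1 := by
    rw [← Real.rpow_add hs0, add_neg_cancel, Real.rpow_zero]
  have h12 : s ^ (1 + 1 / (d : ℝ)) ≤ 8 * d * s ^ (-(1 / (d : ℝ))) * E := by
    rw [← ht]; linarith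
  have h13 : 0 < s ^ (1 / (d : ℝ)) := by positivity
  calc 1 / (8 * (d : ℝ)) * (s ^ (1 + 1 / (d : ℝ)) * s ^ (1 / (d : ℝ))) ≤
        1 / (8 * (d : ℝ)) * ((8 * d * s ^ (-(1 / (d : ℝ))) * E) * s ^ (1 / (d : ℝ))) := by
        refine mul_le_mul_of_nonneg_left (mul_le_mul_of_nonneg_right h12 h13.le) (by positivity)
    _ = (s ^ (1 / (d : ℝ)) * s ^ (-(1 / (d : ℝ)))) * E := by field_simp
    _ = E := by rw [h11, one_mul]

end Pool.Agent.H979.QIP
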