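import Pool.Agent.H979.QIP.Exit

set_option autoImplicit false
set_option linter.unusedSectionVars false
set_option linter.deprecated false
set_option linter.unusedVariables false
set_option linter.style.haveILetI false

open MeasureTheory ProbabilityTheory Filter Topology Set
open scoped ENNReal NNReal

/-!
# The corrector is negligible along the path
-/

namespace Pool.Agent.H979.QIP

section chain

variable {X : Type*} [Countable X] [MeasurableSpace X] [MeasurableSingletonClass X]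
variable (q : X → Measure X) [∀ x, IsProbabilityMeasure (q x)]

/-- Kolmogorov's inequality -/
theorem kolmogorov {ξ : X → X → ℝ} (hV : ∀ x, V q ξ x ≠ ∞) (h0 : ∀ x, bm q ξ x = 0) {r : ℝ}
    (hr : 0 < r) (n : ℕ) (x : X) (a : ℝ) :
    P q x {w | ∃ k ≤ n, r < |a + S ξ k w|} ≤
      (ENNReal.ofReal (a ^ 2) + ∫⁻ w, A (V q ξ) n w ∂(P q x)) / ENNReal.ofReal (r ^ 2) := by
  have hr2 : ENNReal.ofReal (r ^ 2) ≠ 0 := by
    rw [Ne, ENNReal.ofReal_eq_zero, not_le]; positivity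
  have hbig : ∀ (a : ℝ) (v : ℝ≥0∞), r < |a| →
      1 ≤ (ENNReal.ofReal (a ^ 2) + v) / ENNReal.ofReal (r ^ 2) := by
    intro a v h
    rw [ENNReal.le_div_iff_mul_le (Or.inl hr2) (Or.inl ENNReal.ofReal_ne_top), one_mul]
    refine le_trans (ENNReal.ofReal_le_ofReal ?_) le_self_add
    rw [← sq_abs a]
    exact pow_le_pow_left₀ hr.le h.le 2
  induction n generalizing x a with
  | zero =>
    by_cases h : r < |a|
    · exact prob_le_one.trans (hbig a _ h)
    · have : {w : ℕ → X | ∃ k ≤ 0, r < |a + S ξ k w|} = ∅ := by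
        ext w
        simp only [mem_setOf_eq, mem_empty_iff_false, iff_false]
        rintro ⟨k, hk, h'⟩
        have : k = 0 := by omega
        subst this
        rw [S_zero, add_zero] at h'
        exact h h'
      rw [this, measure_empty]
      exact zero_le
  | succ n ih =>
    by_cases h : r < |a|
    · exact prob_le_one.trans (hbig a _ h)
    have hm1 : MeasurableSet {w : ℕ → X | ∃ k ≤ n + 1, r < |a + S ξ k w|} := by
      have : {w : ℕ → X | ∃ k ≤ n + 1, r < |a + S ξ k w|} =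
          ⋃ k ∈ Finset.range (n + 2), {w | r < |a + S ξ k w|} := by
        ext w
        simp only [mem_setOf_eq, mem_iUnion, Finset.mem_range, exists_prop]
        constructor
        · rintro ⟨k, hk, h⟩; exact ⟨k, by omega, h⟩
        · rintro ⟨k, hk, h⟩; exact ⟨k, by omega, h⟩
      rw [this]
      refine Finset.measurableSet_biUnion _ fun k _ => ?_
      exact measurableSet_lt measurable_const
        (measurable_const.add (dep_S ξ (le_refl k)).measurable).abs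
    rw [P_apply q x hm1, lintegral_P q x (dep_A _ le_rfl).measurable]
    have step : ∀ y, P q y {w | cons x w ∈ {w | ∃ k ≤ n + 1, r < |a + S ξ k w|}} ≤
        (ENNReal.ofReal ((a + ξ x y) ^ 2) + ∫⁻ w, A (V q ξ) n w ∂(P q y)) /
          ENNReal.ofReal (r ^ 2) := by
      intro y
      refine le_trans (measure_mono_ae ?_) (ih y (a + ξ x y))
      filter_upwards [P_zero q y] with w hw
      rintro ⟨k, hk, hk'⟩
      cases k with
      | zero =>
        rw [S_zero, add_zero] at hk'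
        exact absurd hk' h
      | succ k =>
        refine ⟨k, by omega, ?_⟩
        rw [S_cons, hw, ← add_assoc] at hk'
        exact hk'
    refine (lintegral_mono step).trans ?_
    have e2 : ∀ y, ∫⁻ w, A (V q ξ) (n + 1) (cons x w) ∂(P q y) =
        V q ξ x + ∫⁻ w, A (V q ξ) n w ∂(P q y) := by
      intro y
      simp_rw [A_cons]
      rw [lintegral_add_left measurable_const, lintegral_const, measure_univ, mul_one]
    simp_rw [e2, ENNReal.div_eq_inv_mul]
    rw [lintegral_const_mul _ (measurable_of_countable _),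
      lintegral_add_left (measurable_of_countable _), lintegral_sq_add q (hV x) (h0 x),
      lintegral_add_left measurable_const, lintegral_const, measure_univ, mul_one, add_assoc]

/-- all the steps of the path have the properties of the kernel -/
theorem ae_steps {pr : X → X → Prop} (hpr : ∀ x, ∀ᵐ y ∂(q x), pr x y) (x : X) :
    ∀ᵐ w ∂(P q x), ∀ k, pr (w k) (w (k + 1)) := by
  classical
  rw [ae_all_iff]
  intro k
  have hD : ∀ k, Dep (k + 1) (fun w : ℕ → X => w ∈ {w : ℕ → X | ¬ pr (w k) (w (k + 1))}) := by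
    intro k w w' hw
    simp only [mem_setOf_eq]
    rw [hw k (by omega), hw (k + 1) le_rfl]
  induction k generalizing x with
  | zero =>
    show P q x {w | ¬ pr (w 0) (w 1)} = 0
    rw [P_apply q x (hD 0).measurableSet]
    rw [lintegral_eq_zero_iff' (measurable_of_countable _).aemeasurable]
    filter_upwards [hpr x] with y hy
    show P q y {w | ¬ pr x (w 0)} = 0
    have : ∀ᵐ w ∂(P q y), pr x (w 0) := by
      filter_upwards [P_zero q y] with w hw
      rw [hw]; exact hy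
    exact this
  | succ k ih =>
    show P q x {w | ¬ pr (w (k + 1)) (w (k + 1 + 1))} = 0
    rw [P_apply q x (hD (k + 1)).measurableSet]
    rw [lintegral_eq_zero_iff' (measurable_of_countable _).aemeasurable]
    refine Eventually.of_forall fun y => ?_
    exact ih y

end chain

variable {Ω : Type*} [MeasurableSpace Ω] {d : ℕ} {μ : Measure Ω} {τ : Vd d → Ω → Ω}
  {q : Ω → Vd d → ℝ≥0∞}

theorem ae_qM (ω : Ω) (x : Vd d) {pr : Vd d → Prop}
    (h : ∀ y, q (τ x ω) (y - x) ≠ 0 → pr y) : ∀ᵐ y ∂(qM τ q ω x), pr y := by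
  show qM τ q ω x {y | ¬ pr y} = 0
  rw [← biUnion_of_singleton {y | ¬ pr y}]
  refine (measure_biUnion_null_iff (to_countable _)).2 fun y hy => ?_
  rw [qM_apply]
  by_contra hcon
  exact hy (h y hcon)

/-- the data of an approximate corrector in direction `i`, in a fixed environment -/
structure Cor (τ : Vd d → Ω → Ω) (q : Ω → Vd d → ℝ≥0∞) (hq : Ker τ q) (ω : Ω) (i : Fin d)
    (G : Vd d → Vd d → ℝ) (R : ℕ → Ω → Vd d → ℝ) (φ : ℕ → Vd d → ℝ) (Φ l s : ℕ → ℝ) (C₄ : ℝ) :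
    Prop where
  p4 : 0 ≤ C₄
  mean : ∀ x, bm (qM τ q ω) G x = 0
  fin : ∀ x, V (qM τ q ω) G x ≠ ∞
  avg : haveI := qM_prob hq ω; ∀ n : ℕ, ∫⁻ w, A (V (qM τ q ω) G) n w ∂(P (qM τ q ω) 0) ≤
    ENNReal.ofReal (C₄ * n)
  anti : ∀ j ω y, R j ω y = - R j (τ y ω) (-y)
  finR : ∀ j x, VR q (R j) (τ x ω) ≠ ∞
  bd : ∀ j x, |φ j x| ≤ Φ j
  dec : ∀ j x y, q (τ x ω) (y - x) ≠ 0 →
    ((y i : ℝ) - x i) = G x y + (φ j y - φ j x) + R j (τ x ω) (y - x)
  lpos : ∀ j, 0 < l j
  llim : Tendsto l atTop (𝓝 0)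
  spos : ∀ j, 0 ≤ s j
  slim : Tendsto s atTop (𝓝 0)
  box : ∀ j, bx τ (fun ω => min 1 (ENNReal.ofReal (1 / l j) * mx (Qo τ q) (VR q (R j)) ω)) ω ≤
    ENNReal.ofReal (s j)

theorem Cor.path {hq : Ker τ q} {ω : Ω} {i : Fin d} {G : Vd d → Vd d → ℝ}
    {R : ℕ → Ω → Vd d → ℝ} {φ : ℕ → Vd d → ℝ} {Φ l s : ℕ → ℝ} {C₄ : ℝ}
    (hC : Cor τ q hq ω i G R φ Φ l s C₄) :
    haveI := qM_prob hq ω
    ∀ᵐ w ∂(P (qM τ q ω) 0), ∀ j m k, (w (m + k) i : ℝ) - w m i =
      (S G (m + k) w - S G m w) + (φ j (w (m + k)) - φ j (w m)) +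
        S (fx τ (R j) ω) k (fun n => w (m + n)) := by
  haveI := qM_prob hq ω
  have h1 := ae_steps (qM τ q ω) (pr := fun x y => ∀ j, ((y i : ℝ) - x i) =
    G x y + (φ j y - φ j x) + R j (τ x ω) (y - x))
    (fun x => ae_qM ω x fun y hy j => hC.dec j x y hy) 0
  filter_upwards [h1] with w hw j m k
  induction k with
  | zero => simp [S]
  | succ k ih =>
    have e1 : S (fx τ (R j) ω) (k + 1) (fun n => w (m + n)) =
        S (fx τ (R j) ω) k (fun n => w (m + n)) +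
          R j (τ (w (m + k)) ω) (w (m + k + 1) - w (m + k)) := by
      unfold S fx
      rw [Finset.sum_range_succ]
      rfl
    have e2 : S G (m + (k + 1)) w = S G (m + k) w + G (w (m + k)) (w (m + k + 1)) := by
      unfold S
      rw [← add_assoc, Finset.sum_range_succ]
    have h2 := hw (m + k) j
    rw [e1, e2, ← add_assoc m k 1]
    linarith

/-- **the corrector is negligible** -/
theorem negligible (h : Sta μ τ) (hq : Ker τ q) {ω : Ω} {C₁ C₂ θ C : ℝ}
    (hI : Inp τ q hq ω C₁ C₂) (i : Fin d) (hθ : 0 < θ) (hC0 : 0 < C)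
    (hexit : haveI := qM_prob hq ω; ∀ n : ℕ, 1 ≤ n → ∀ r : ℝ, 0 < r →
      P (qM τ q ω) 0 {w | ∃ k ≤ n, r < |(w k i : ℝ)|} ≤ ENNReal.ofReal (C * (√n / r) ^ θ))
    {G : Vd d → Vd d → ℝ} {R : ℕ → Ω → Vd d → ℝ} {φ : ℕ → Vd d → ℝ} {Φ l s : ℕ → ℝ} {C₄ : ℝ}
    (hC : Cor τ q hq ω i G R φ Φ l s C₄) {δ : ℝ} (hδ : 0 < δ) :
    haveI := qM_prob hq ω
    Tendsto (fun n : ℕ => P (qM τ q ω) 0 {w | ∃ k ≤ n, δ * √n < |(w k i : ℝ) - S G k w|})
      atTop (𝓝 0) := by
  haveI := qM_prob hq ω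
  rw [ENNReal.tendsto_atTop_zero]
  intro ε hε
  obtain ⟨η, hη, hηε⟩ : ∃ η : ℝ, 0 < η ∧ ENNReal.ofReal (5 * η) ≤ ε := by
    by_cases hεt : ε = ∞
    · exact ⟨1, one_pos, by rw [hεt]; exact le_top⟩
    · refine ⟨ε.toReal / 5, div_pos (ENNReal.toReal_pos hε.ne' hεt) (by norm_num), ?_⟩
      rw [mul_div_cancel₀ _ (by norm_num : (5 : ℝ) ≠ 0), ENNReal.ofReal_toReal hεt]
  have hC₁ := hI.p1
  have hC₂ := hI.p2
  have hC₄ := hC.p4
  -- the fraction of time
  obtain ⟨e, he0, he1, hea, heb⟩ : ∃ e : ℝ, 0 < e ∧ e < 1 ∧ C * (4 * √e / δ) ^ θ ≤ η ∧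
      C₄ * e * 16 / δ ^ 2 ≤ η := by
    have t1 : Tendsto (fun e : ℝ => C * (4 * √e / δ) ^ θ) (𝓝[>] 0) (𝓝 0) := by
      have c1 : Continuous (fun e : ℝ => C * (4 * √e / δ) ^ θ) := by
        refine continuous_const.mul (Continuous.rpow_const (by fun_prop) fun _ => Or.inr hθ.le)
      have := (c1.tendsto 0).mono_left (nhdsWithin_le_nhds (s := Ioi 0))
      simpa [Real.zero_rpow hθ.ne'] using this
    have t2 : Tendsto (fun e : ℝ => C₄ * e * 16 / δ ^ 2) (𝓝[>] 0) (𝓝 0) := by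
      have c1 : Continuous (fun e : ℝ => C₄ * e * 16 / δ ^ 2) := by fun_prop
      have := (c1.tendsto 0).mono_left (nhdsWithin_le_nhds (s := Ioi 0))
      simpa using this
    have a1 := (tendsto_order.1 t1).2 η hη
    have a2 := (tendsto_order.1 t2).2 η hη
    have a3 : ∀ᶠ e : ℝ in 𝓝[>] 0, e < 1 := (eventually_lt_nhds one_pos).filter_mono nhdsWithin_le_nhds
    have a4 : ∀ᶠ e : ℝ in 𝓝[>] 0, 0 < e := self_mem_nhdsWithin
    obtain ⟨e, h1, h2, h3, h4⟩ := (a1.and (a2.and (a3.and a4))).exists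
    exact ⟨e, h4, h3, h1.le, h2.le⟩
  -- the radius
  obtain ⟨Kk, hK1, hK⟩ : ∃ Kk : ℝ, 1 ≤ Kk ∧ C₂ / Kk ≤ η := by
    refine ⟨max 1 (C₂ / η), le_max_left _ _, ?_⟩
    rw [div_le_iff₀ (lt_of_lt_of_le one_pos (le_max_left _ _)), mul_comm, ← div_le_iff₀ hη]
    exact le_max_right _ _
  -- the corrector
  set C₈ : ℝ := C₁ * (6 * Kk * √(2 / e)) ^ d with hC₈
  have hC₈0 : 0 ≤ C₈ := by positivity
  obtain ⟨j, hj1, hj2⟩ : ∃ j, C₈ * (128 * l j / δ ^ 2 + 3 * s j) ≤ η ∧ l j ≤ δ ^ 2 / 256 := by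
    have t1 : Tendsto (fun j => C₈ * (128 * l j / δ ^ 2 + 3 * s j)) atTop (𝓝 0) := by
      have := (((hC.llim.const_mul 128).div_const (δ ^ 2)).add (hC.slim.const_mul 3)).const_mul C₈
      simpa using this
    have a1 := (tendsto_order.1 t1).2 η hη
    have a2 := (tendsto_order.1 hC.llim).2 (δ ^ 2 / 256) (by positivity)
    obtain ⟨j, h1, h2⟩ := (a1.and a2).exists
    exact ⟨j, h1.le, h2.le⟩
  have hlj := hC.lpos j
  have hsj := hC.spos j
  -- large times
  have hΦ0 : 0 ≤ Φ j := (abs_nonneg _).trans (hC.bd j 0)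
  obtain ⟨n₀, hn₀⟩ : ∃ n₀ : ℕ, ∀ n : ℕ, n₀ ≤ n → 2 / e ≤ n ∧ 2 * Φ j ≤ δ / 4 * √n := by
    obtain ⟨a, ha⟩ := exists_nat_ge (2 / e)
    obtain ⟨b, hb⟩ := exists_nat_ge ((2 * Φ j / (δ / 4)) ^ 2)
    refine ⟨max a b, fun n hn => ⟨?_, ?_⟩⟩
    · exact ha.trans (by exact_mod_cast (le_max_left a b).trans hn)
    · have h1 : (2 * Φ j / (δ / 4)) ^ 2 ≤ n := hb.trans (by exact_mod_cast (le_max_right a b).trans hn)
      have h2 := Real.le_sqrt_of_sq_le h1
      rw [div_le_iff₀ (by positivity)] at h2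
      linarith
  refine ⟨n₀, fun n hn => ?_⟩
  obtain ⟨hn1, hn2⟩ := hn₀ n hn
  have h2e : 2 < 2 / e := by rw [lt_div_iff₀ he0]; linarith
  have hnpos : (0 : ℝ) < n := by linarith
  have hsn : 0 < √(n : ℝ) := Real.sqrt_pos.2 hnpos
  have hs1 : 1 ≤ √(n : ℝ) := by
    rw [Real.one_le_sqrt]; linarith
  have hsq : √(n : ℝ) * √n = n := Real.mul_self_sqrt hnpos.le
  set m0 : ℕ := ⌊e * n⌋₊ with hm0
  have hen : 2 ≤ e * n := by
    have := (div_le_iff₀ he0).1 hn1
    linarith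
  have hm0a : (m0 : ℝ) ≤ e * n := Nat.floor_le (by positivity)
  have hm0b : e * n / 2 ≤ m0 := by
    have := Nat.lt_floor_add_one (e * n)
    linarith
  have hm0n : m0 ≤ n := by
    have h1 : (m0 : ℝ) ≤ n := by nlinarith
    exact_mod_cast h1
  have hm01 : 1 ≤ m0 := by
    have h1 : (1 : ℝ) ≤ m0 := by linarith
    exact_mod_cast h1
  have hm0pos : (0 : ℝ) < m0 := by exact_mod_cast hm01
  set N : ℕ := n - m0 with hN
  have hmN : m0 + N = n := by omega
  set ρ : ℕ := ⌈Kk * √n⌉₊ with hρ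
  have hρ1 : Kk * √n ≤ ρ := Nat.le_ceil _
  have hρ2 : (ρ : ℝ) ≤ 2 * (Kk * √n) := by
    have := Nat.ceil_lt_add_one (show 0 ≤ Kk * √n by positivity)
    have h1 : 1 ≤ Kk * √n := by nlinarith
    linarith
  have hρpos : 1 ≤ ρ := by
    have : (1 : ℝ) ≤ ρ := by nlinarith
    exact_mod_cast this
  have hρ0 : (0 : ℝ) < ρ := by exact_mod_cast (by omega : 0 < ρ)
  -- LZ
  set v : ℝ≥0∞ := ENNReal.ofReal (l j * n) with hv
  have ha : 0 < δ / 4 * √n := by positivity
  have hv1 : v ≤ ENNReal.ofReal ((δ / 4 * √n / 4) ^ 2) := by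
    refine ENNReal.ofReal_le_ofReal ?_
    have : (δ / 4 * √n / 4) ^ 2 = δ ^ 2 / 256 * n := by
      calc _ = δ ^ 2 / 256 * (√n * √n) := by ring
        _ = _ := by rw [hsq]
    rw [this]
    exact mul_le_mul_of_nonneg_right hj2 hnpos.le
  have hv0 : v ≠ 0 := by
    rw [hv, Ne, ENNReal.ofReal_eq_zero, not_le]; positivity
  have hcv : ((N : ℝ≥0∞) + 1) / v ≤ ENNReal.ofReal (1 / l j) := by
    have e1 : ((N : ℝ≥0∞) + 1) = ENNReal.ofReal (N + 1) := by
      rw [ENNReal.ofReal_add (by positivity) (by norm_num)]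
      simp
    rw [e1, hv, ← ENNReal.ofReal_div_of_pos (by positivity)]
    refine ENNReal.ofReal_le_ofReal ?_
    rw [div_le_div_iff₀ (by positivity) (by positivity), one_mul, mul_comm (l j)]
    refine mul_le_mul_of_nonneg_right ?_ (by positivity)
    exact_mod_cast (by omega : N + 1 ≤ n)
  have hlz := local_lz h hq ω (C := ENNReal.ofReal (C₁ / (√m0) ^ d)) m0 N (hI.heat m0 hm01)
    (hC.anti j) (hC.finR j) ha hv1 hv0 hcv ρ
  -- the events
  set E1 : Set (ℕ → Vd d) := {w | ∃ k ≤ m0, δ / 4 * √n < |(w k i : ℝ)|} with hE1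
  set E2 : Set (ℕ → Vd d) := {w | ∃ k ≤ m0, δ / 4 * √n < |0 + S G k w|} with hE2
  set E3 : Set (ℕ → Vd d) := {w | w m0 ∉ box d ρ} with hE3
  set E4 : Set (ℕ → Vd d) := {w | w n ∉ box d ρ} with hE4
  set E5 : Set (ℕ → Vd d) := {w | w m0 ∈ box d ρ ∧ w (m0 + N) ∈ box d ρ ∧
      ∃ k ≤ N, δ / 4 * √n < |S (fx τ (R j) ω) k (fun j => w (m0 + j))|} with hE5
  have hsub : ∀ᵐ w ∂(P (qM τ q ω) 0), w ∈ {w : ℕ → Vd d | ∃ k ≤ n, δ * √n < |(w k i : ℝ) - S G k w|} →
      w ∈ (E1 ∪ E2) ∪ ((E3 ∪ E4) ∪ E5) := by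
    filter_upwards [hC.path] with w hw
    rintro ⟨k, hk, hk'⟩
    by_contra hcon
    simp only [mem_union, hE1, hE2, hE3, hE4, hE5, mem_setOf_eq, not_or, not_exists, not_and,
      not_lt, not_not, zero_add] at hcon
    obtain ⟨⟨c1, c2⟩, ⟨c3, c4⟩, c5⟩ := hcon
    rcases le_total k m0 with hkm | hkm
    · have b1 := c1 k hkm
      have b2 := c2 k hkm
      have b3 := abs_sub (w k i : ℝ) (S G k w)
      nlinarith
    · have b0 := hw j m0 (k - m0)
      rw [Nat.add_sub_cancel' hkm] at b0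
      have b1 := abs_le.1 (c1 m0 le_rfl)
      have b2 := abs_le.1 (c2 m0 le_rfl)
      have b3 := abs_le.1 (c5 c3 (by rwa [hmN]) (k - m0) (by omega))
      have b4 := abs_le.1 (hC.bd j (w k))
      have b5 := abs_le.1 (hC.bd j (w m0))
      have b6 : |(w k i : ℝ) - S G k w| ≤ δ * √n := by
        rw [abs_le]
        constructor <;> linarith
      linarith
  refine (measure_mono_ae hsub).trans ?_
  refine (measure_union_le _ _).trans ?_
  refine (add_le_add (measure_union_le _ _) ((measure_union_le _ _).trans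
    (add_le_add (measure_union_le _ _) le_rfl))).trans ?_
  -- bounds
  have hsm0 : √(m0 : ℝ) ≤ √e * √n := by
    rw [← Real.sqrt_mul he0.le]
    exact Real.sqrt_le_sqrt hm0a
  have b1 : P (qM τ q ω) 0 E1 ≤ ENNReal.ofReal η := by
    refine (hexit m0 hm01 _ ha).trans (ENNReal.ofReal_le_ofReal (le_trans ?_ hea))
    refine mul_le_mul_of_nonneg_left (Real.rpow_le_rpow (by positivity) ?_ hθ.le) hC0.le
    rw [div_le_div_iff₀ ha hδ]
    have : 4 * √e * (δ / 4 * √n) = √e * √n * δ := by ring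
    rw [this]
    exact mul_le_mul_of_nonneg_right hsm0 hδ.le
  have b2 : P (qM τ q ω) 0 E2 ≤ ENNReal.ofReal η := by
    refine (kolmogorov (qM τ q ω) hC.fin hC.mean ha m0 0 0).trans ?_
    have e0 : ENNReal.ofReal ((0 : ℝ) ^ 2) = 0 := by simp
    rw [e0, zero_add]
    refine (ENNReal.div_le_div_right (hC.avg m0) _).trans ?_
    rw [← ENNReal.ofReal_div_of_pos (by positivity)]
    refine ENNReal.ofReal_le_ofReal (le_trans ?_ heb)
    have : (δ / 4 * √n) ^ 2 = δ ^ 2 / 16 * n := by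
      calc _ = δ ^ 2 / 16 * (√n * √n) := by ring
        _ = _ := by rw [hsq]
    rw [this, div_le_div_iff₀ (by positivity) (by positivity)]
    have : C₄ * m0 ≤ C₄ * (e * n) := mul_le_mul_of_nonneg_left hm0a hC₄
    calc C₄ * m0 * δ ^ 2 ≤ C₄ * (e * n) * δ ^ 2 := mul_le_mul_of_nonneg_right this (by positivity)
      _ = _ := by ring
  have b3 : P (qM τ q ω) 0 E3 ≤ ENNReal.ofReal η := by
    refine (hI.mom m0 hm01 ρ hρpos).trans (ENNReal.ofReal_le_ofReal (le_trans ?_ hK))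
    rw [div_le_div_iff₀ hρ0 (by linarith)]
    have h1 : √(m0 : ℝ) ≤ √n := Real.sqrt_le_sqrt (by exact_mod_cast hm0n)
    calc C₂ * √m0 * Kk = C₂ * (Kk * √m0) := by ring
      _ ≤ C₂ * (Kk * √n) := by gcongr
      _ ≤ C₂ * ρ := mul_le_mul_of_nonneg_left hρ1 hC₂
  have b4 : P (qM τ q ω) 0 E4 ≤ ENNReal.ofReal η := by
    refine (hI.mom n (by omega) ρ hρpos).trans (ENNReal.ofReal_le_ofReal (le_trans ?_ hK))
    rw [div_le_div_iff₀ hρ0 (by linarith)]
    calc C₂ * √n * Kk = C₂ * (Kk * √n) := by ring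
      _ ≤ C₂ * ρ := mul_le_mul_of_nonneg_left hρ1 hC₂
  have b5 : P (qM τ q ω) 0 E5 ≤ ENNReal.ofReal η := by
    refine hlz.trans ?_
    refine (mul_le_mul' le_rfl (mul_le_mul' le_rfl (add_le_add le_rfl
      (mul_le_mul' le_rfl (hC.box j))))).trans ?_
    have e3 : (((2 * ρ + 1 : ℕ) : ℝ≥0∞)) ^ d = ENNReal.ofReal ((2 * ρ + 1) ^ d) := by
      rw [ENNReal.ofReal_pow (by positivity)]
      congr 1
      have : (2 * (ρ : ℝ) + 1) = ((2 * ρ + 1 : ℕ) : ℝ) := by push_cast; ring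
      rw [this, ENNReal.ofReal_natCast]
    have e4 : v / ENNReal.ofReal ((δ / 4 * √n / 2) ^ 2) = ENNReal.ofReal (64 * l j / δ ^ 2) := by
      rw [hv, ← ENNReal.ofReal_div_of_pos (by positivity)]
      congr 1
      have : (δ / 4 * √n / 2) ^ 2 = δ ^ 2 / 64 * n := by
        calc _ = δ ^ 2 / 64 * (√n * √n) := by ring
          _ = _ := by rw [hsq]
      rw [this]
      field_simp
    have e5 : (2 : ℝ≥0∞) = ENNReal.ofReal 2 := by simp
    have e6 : (3 : ℝ≥0∞) = ENNReal.ofReal 3 := by simp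
    rw [e3, e4, e5, e6, ← ENNReal.ofReal_mul (by norm_num), ← ENNReal.ofReal_mul (by norm_num),
      ← ENNReal.ofReal_add (by positivity) (by positivity), ← ENNReal.ofReal_mul (by positivity),
      ← ENNReal.ofReal_mul (by positivity)]
    refine ENNReal.ofReal_le_ofReal (le_trans ?_ hj1)
    have hM : 2 * (64 * l j / δ ^ 2) + 3 * s j = 128 * l j / δ ^ 2 + 3 * s j := by ring
    rw [hM, ← mul_assoc]
    refine mul_le_mul_of_nonneg_right ?_ (by positivity)
    rw [hC₈, div_mul_eq_mul_div, div_le_iff₀ (by positivity), mul_assoc]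
    refine mul_le_mul_of_nonneg_left ?_ hC₁
    rw [← mul_pow]
    refine pow_le_pow_left₀ (by positivity) ?_ d
    have h1 : 1 ≤ √(2 / e) * √m0 / √n := by
      rw [le_div_iff₀ hsn, one_mul, ← Real.sqrt_mul (by positivity)]
      refine Real.sqrt_le_sqrt ?_
      rw [div_mul_eq_mul_div, le_div_iff₀ he0]
      linarith
    rw [le_div_iff₀ hsn, one_mul] at h1
    have h2 : (1 : ℝ) ≤ ρ := by exact_mod_cast hρpos
    calc 2 * (ρ : ℝ) + 1 ≤ 6 * Kk * √n := by nlinarith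
      _ ≤ 6 * Kk * (√(2 / e) * √m0) := mul_le_mul_of_nonneg_left h1 (by positivity)
      _ = _ := by ring
  refine (add_le_add (add_le_add b1 b2) (add_le_add (add_le_add b3 b4) b5)).trans ?_
  refine le_trans (le_of_eq ?_) hηε
  rw [← ENNReal.ofReal_add hη.le hη.le, ← ENNReal.ofReal_add (by linarith) hη.le,
    ← ENNReal.ofReal_add (by linarith) (by linarith)]
  congr 1
  ring

end Pool.Agent.H979.QIP
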