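import Mathlib

set_option autoImplicit false
set_option linter.unusedSectionVars false
set_option linter.deprecated false
set_option linter.unusedVariables false
set_option linter.style.haveILetI false

open MeasureTheory ProbabilityTheory Filter Topology Set
open scoped ENNReal NNReal

/-!
# Implicit Euler steps on a weighted graph: summation by parts and entropy
-/

namespace Pool.Agent.H979.QIP

variable {X : Type*} {c : X → X → ℝ}

/-- a weighted graph -/
structure Nw (c : X → X → ℝ) : Prop where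
  nn : ∀ x y, 0 ≤ c x y
  sy : ∀ x y, c x y = c y x
  su : ∀ x, Summable (c x)

/-- total weight of a vertex -/
noncomputable def Dr (c : X → X → ℝ) (x : X) : ℝ := ∑' y, c x y

/-- one step -/
structure St (c : X → X → ℝ) (p' p : X → ℝ) : Prop where
  n' : ∀ x, 0 ≤ p' x
  nn : ∀ x, 0 ≤ p x
  s' : Summable p'
  su : Summable p
  sD : Summable (fun x => Dr c x * p x)
  eq : ∀ x, (1 + Dr c x) * p x = p' x + ∑' y, c x y * p y

theorem Nw.Dnn (hc : Nw c) (x : X) : 0 ≤ Dr c x := tsum_nonneg fun y => hc.nn x y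

theorem St.cp1 (hc : Nw c) {p' p : X → ℝ} (hp : St c p' p) :
    Summable (fun z : X × X => c z.1 z.2 * p z.1) := by
  refine (summable_prod_of_nonneg fun z => mul_nonneg (hc.nn _ _) (hp.nn _)).2
    ⟨fun x => (hc.su x).mul_right (p x), ?_⟩
  refine hp.sD.congr fun x => ?_
  show _ = ∑' y, c x y * p x
  rw [tsum_mul_right]
  rfl

theorem St.cp2 (hc : Nw c) {p' p : X → ℝ} (hp : St c p' p) :
    Summable (fun z : X × X => c z.1 z.2 * p z.2) := by
  rw [← (Equiv.prodComm X X).summable_iff]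
  refine (hp.cp1 hc).congr fun z => ?_
  simp [hc.sy z.1 z.2]

theorem St.row (hc : Nw c) {p' p : X → ℝ} (hp : St c p' p) (x : X) :
    Summable (fun y => c x y * p y) := (hp.cp2 hc).prod_factor x

theorem St.sF (hc : Nw c) {p' p : X → ℝ} (hp : St c p' p) {g : X → ℝ} {C : ℝ}
    (hg : ∀ x, |g x| ≤ C) : Summable (fun z : X × X => c z.1 z.2 * g z.1 * (p z.1 - p z.2)) := by
  refine Summable.of_norm_bounded (((hp.cp1 hc).add (hp.cp2 hc)).mul_left C) fun z => ?_
  rw [Real.norm_eq_abs, abs_mul, abs_mul, abs_of_nonneg (hc.nn _ _)]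
  have h1 : |p z.1 - p z.2| ≤ p z.1 + p z.2 := by
    refine (abs_sub _ _).trans ?_
    rw [abs_of_nonneg (hp.nn _), abs_of_nonneg (hp.nn _)]
  calc c z.1 z.2 * |g z.1| * |p z.1 - p z.2| ≤ c z.1 z.2 * C * (p z.1 + p z.2) := by
        refine mul_le_mul (mul_le_mul_of_nonneg_left (hg _) (hc.nn _ _)) h1 (abs_nonneg _) ?_
        exact mul_nonneg (hc.nn _ _) ((abs_nonneg _).trans (hg z.1))
    _ = _ := by ring

/-- summation by parts -/
theorem St.parts (hc : Nw c) {p' p : X → ℝ} (hp : St c p' p) {g : X → ℝ} {C : ℝ}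
    (hg : ∀ x, |g x| ≤ C) :
    ∑' x, g x * (p' x - p x) =
      (1 / 2) * ∑' z : X × X, c z.1 z.2 * (g z.1 - g z.2) * (p z.1 - p z.2) := by
  have h1 := hp.sF hc hg
  have e1 : ∑' z : X × X, c z.1 z.2 * g z.1 * (p z.1 - p z.2) = ∑' x, g x * (p' x - p x) := by
    rw [h1.tsum_prod]
    refine tsum_congr fun x => ?_
    have e2 : ∀ y, c x y * g x * (p x - p y) = g x * (c x y * p x - c x y * p y) := fun y => by ring
    simp_rw [e2]
    rw [tsum_mul_left, ((hc.su x).mul_right _).tsum_sub (hp.row hc x), tsum_mul_right]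
    have e3 := hp.eq x
    unfold Dr at e3
    congr 1
    linarith
  have h2 : Summable (fun z : X × X => c z.1 z.2 * g z.2 * (p z.2 - p z.1)) := by
    rw [← (Equiv.prodComm X X).summable_iff]
    refine h1.congr fun z => ?_
    simp [hc.sy z.1 z.2]
  have e4 : ∑' z : X × X, c z.1 z.2 * g z.2 * (p z.2 - p z.1) =
      ∑' z : X × X, c z.1 z.2 * g z.1 * (p z.1 - p z.2) := by
    rw [← (Equiv.prodComm X X).tsum_eq]
    refine tsum_congr fun z => ?_
    simp [hc.sy z.1 z.2]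
  have e5 : ∑' z : X × X, c z.1 z.2 * (g z.1 - g z.2) * (p z.1 - p z.2) =
      ∑' z : X × X, c z.1 z.2 * g z.1 * (p z.1 - p z.2) +
      ∑' z : X × X, c z.1 z.2 * g z.2 * (p z.2 - p z.1) := by
    rw [← h1.tsum_add h2]
    exact tsum_congr fun z => by ring
  rw [e5, e4, e1]
  ring

/-- summability of the form -/
theorem St.sform (hc : Nw c) {p' p : X → ℝ} (hp : St c p' p) {g : X → ℝ} {C : ℝ}
    (hg : ∀ x, |g x| ≤ C) :
    Summable (fun z : X × X => c z.1 z.2 * (g z.1 - g z.2) * (p z.1 - p z.2)) := by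
  have h1 := hp.sF hc hg
  have h2 : Summable (fun z : X × X => c z.1 z.2 * g z.2 * (p z.2 - p z.1)) := by
    rw [← (Equiv.prodComm X X).summable_iff]
    refine h1.congr fun z => ?_
    simp [hc.sy z.1 z.2]
  exact (h1.add h2).congr fun z => by ring

/-! ### entropy -/

/-- the regularised entropy function -/
noncomputable def ph (δ t : ℝ) : ℝ := (t + δ) * Real.log (t + δ) - δ * Real.log δ

theorem log_ge {a b : ℝ} (ha : 0 < a) (hb : 0 < b) : a - b ≤ a * (Real.log a - Real.log b) := by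
  have h1 := Real.log_le_sub_one_of_pos (div_pos hb ha)
  rw [Real.log_div hb.ne' ha.ne'] at h1
  have h2 : a * (Real.log b - Real.log a) ≤ a * (b / a - 1) := mul_le_mul_of_nonneg_left h1 ha.le
  have h3 : a * (b / a - 1) = b - a := by field_simp
  linarith [mul_sub a (Real.log b) (Real.log a), mul_sub a (Real.log a) (Real.log b)]

/-- convexity -/
theorem ph_convex {δ s t : ℝ} (hδ : 0 < δ) (hs : 0 ≤ s) (ht : 0 ≤ t) :
    (1 + Real.log (s + δ)) * (t - s) ≤ ph δ t - ph δ s := by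
  unfold ph
  have h1 := log_ge (a := t + δ) (b := s + δ) (by linarith) (by linarith)
  nlinarith

/-- the logarithmic mean inequality -/
theorem log_mean {a b : ℝ} (ha : 0 < a) (hb : 0 < b) :
    2 * (a - b) ^ 2 / (a + b) ≤ (Real.log a - Real.log b) * (a - b) := by
  wlog hab : b ≤ a generalizing a b
  · have h1 := this hb ha (le_of_not_ge hab)
    have e1 : 2 * (a - b) ^ 2 / (a + b) = 2 * (b - a) ^ 2 / (b + a) := by
      rw [add_comm a b]; congr 1; ring
    rw [e1]
    linarith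
  rcases hab.eq_or_lt with rfl | hlt
  · simp
  have key : 2 * (a - b) / (a + b) ≤ Real.log a - Real.log b := by
    have h2 : 0 ≤ a / b - 1 := by
      have : 1 ≤ a / b := by rw [le_div_iff₀ hb]; linarith
      linarith
    have h3 := Real.le_log_one_add_of_nonneg h2
    rw [add_sub_cancel, Real.log_div ha.ne' hb.ne'] at h3
    refine le_trans (le_of_eq ?_) h3
    field_simp
    ring
  have : 2 * (a - b) ^ 2 / (a + b) = (2 * (a - b) / (a + b)) * (a - b) := by ring
  rw [this]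
  exact mul_le_mul_of_nonneg_right key (by linarith)

theorem ph_bound {δ t : ℝ} (hδ : 0 < δ) (hδ1 : δ ≤ 1) (ht : 0 ≤ t) (ht1 : t ≤ 1) :
    |ph δ t| ≤ Real.negMulLog t + 2 * t := by
  have e1 : ph δ t = t * Real.log (t + δ) + δ * (Real.log (t + δ) - Real.log δ) := by
    unfold ph; ring
  have h1 : 0 ≤ δ * (Real.log (t + δ) - Real.log δ) := by
    refine mul_nonneg hδ.le (sub_nonneg.2 (Real.log_le_log hδ (by linarith)))
  have h2 : δ * (Real.log (t + δ) - Real.log δ) ≤ t := by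
    have := log_ge (a := δ) (b := t + δ) hδ (by linarith)
    linarith [mul_sub δ (Real.log (t + δ)) (Real.log δ), mul_sub δ (Real.log δ) (Real.log (t + δ))]
  have h3 : t * Real.log (t + δ) ≤ t := by
    have : Real.log (t + δ) ≤ 1 := by
      have := Real.log_le_sub_one_of_pos (show 0 < t + δ by linarith)
      linarith
    calc _ ≤ t * 1 := mul_le_mul_of_nonneg_left this ht
      _ = t := mul_one t
  have h4 : - Real.negMulLog t ≤ t * Real.log (t + δ) := by
    unfold Real.negMulLog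
    rcases ht.eq_or_lt with rfl | ht0
    · simp
    · have := mul_le_mul_of_nonneg_left (Real.log_le_log ht0 (show t ≤ t + δ by linarith)) ht
      linarith
  have h5 := Real.negMulLog_nonneg ht ht1
  rw [e1, abs_le]
  constructor <;> linarith

theorem ph_tendsto (t : ℝ) :
    Tendsto (fun n : ℕ => ph (1 / ((n : ℝ) + 1)) t) atTop (𝓝 (- Real.negMulLog t)) := by
  have h1 : Tendsto (fun n : ℕ => 1 / ((n : ℝ) + 1)) atTop (𝓝 0) :=
    tendsto_one_div_add_atTop_nhds_zero_nat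
  have h2 : Continuous (fun δ : ℝ => ph δ t) := by
    unfold ph
    exact (Real.continuous_mul_log.comp (continuous_const.add continuous_id)).sub
      Real.continuous_mul_log
  have h3 := (h2.tendsto 0).comp h1
  have e : ph 0 t = - Real.negMulLog t := by
    unfold ph Real.negMulLog
    simp
  rw [e] at h3
  exact h3

theorem St.entropy (hc : Nw c) {p' p : X → ℝ} (hp : St c p' p) (h1 : ∀ x, p x ≤ 1)
    (h1' : ∀ x, p' x ≤ 1) (hQ : Summable (fun x => Real.negMulLog (p x)))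
    (hQ' : Summable (fun x => Real.negMulLog (p' x))) (s : Finset (X × X)) :
    ∑ z ∈ s, c z.1 z.2 * ((p z.1 - p z.2) ^ 2 / (p z.1 + p z.2)) ≤
      ∑' x, Real.negMulLog (p x) - ∑' x, Real.negMulLog (p' x) := by
  have key : ∀ δ : ℝ, 0 < δ → δ ≤ 1 →
      ∑ z ∈ s, c z.1 z.2 * ((p z.1 - p z.2) ^ 2 / (p z.1 + p z.2 + 2 * δ)) ≤
      ∑' x, ph δ (p' x) - ∑' x, ph δ (p x) := by
    intro δ hδ hδ1
    have s1 : Summable (fun x => ph δ (p x)) :=
      Summable.of_norm_bounded (hQ.add (hp.su.mul_left 2)) fun x =>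
        ph_bound hδ hδ1 (hp.nn x) (h1 x)
    have s2 : Summable (fun x => ph δ (p' x)) :=
      Summable.of_norm_bounded (hQ'.add (hp.s'.mul_left 2)) fun x =>
        ph_bound hδ hδ1 (hp.n' x) (h1' x)
    set g : X → ℝ := fun x => 1 + Real.log (p x + δ) with hg
    have hgb : ∀ x, |g x| ≤ 2 + |Real.log δ| := by
      intro x
      have a1 : Real.log δ ≤ Real.log (p x + δ) := Real.log_le_log hδ (by linarith [hp.nn x])
      have a2 : Real.log (p x + δ) ≤ 1 := by
        have := Real.log_le_sub_one_of_pos (show 0 < p x + δ by linarith [hp.nn x])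
        linarith [h1 x]
      have a3 := neg_abs_le (Real.log δ)
      have a4 := abs_nonneg (Real.log δ)
      rw [hg, abs_le]
      constructor <;> simp only <;> linarith
    have hparts := hp.parts hc hgb
    have hle : ∑' x, g x * (p' x - p x) ≤ ∑' x, (ph δ (p' x) - ph δ (p x)) := by
      refine Summable.tsum_le_tsum (fun x => ph_convex hδ (hp.nn x) (hp.n' x)) ?_ (s2.sub s1)
      refine Summable.of_norm_bounded ((hp.s'.add hp.su).mul_left (2 + |Real.log δ|)) fun x => ?_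
      rw [norm_mul]
      refine mul_le_mul (hgb x) ?_ (norm_nonneg _) (by positivity)
      rw [Real.norm_eq_abs]
      refine (abs_sub _ _).trans ?_
      rw [abs_of_nonneg (hp.nn _), abs_of_nonneg (hp.n' _)]
    rw [s2.tsum_sub s1] at hle
    refine le_trans ?_ hle
    rw [hparts]
    have hform := hp.sform hc hgb
    have hpos : ∀ z : X × X, 2 * (c z.1 z.2 * ((p z.1 - p z.2) ^ 2 / (p z.1 + p z.2 + 2 * δ))) ≤
        c z.1 z.2 * (g z.1 - g z.2) * (p z.1 - p z.2) := by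
      intro z
      have := log_mean (a := p z.1 + δ) (b := p z.2 + δ) (by linarith [hp.nn z.1])
        (by linarith [hp.nn z.2])
      have e1 : p z.1 + δ - (p z.2 + δ) = p z.1 - p z.2 := by ring
      have e2 : p z.1 + δ + (p z.2 + δ) = p z.1 + p z.2 + 2 * δ := by ring
      rw [e1, e2] at this
      have e3 : g z.1 - g z.2 = Real.log (p z.1 + δ) - Real.log (p z.2 + δ) := by
        simp only [hg]; ring
      rw [e3]
      calc 2 * (c z.1 z.2 * ((p z.1 - p z.2) ^ 2 / (p z.1 + p z.2 + 2 * δ))) =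
            c z.1 z.2 * (2 * (p z.1 - p z.2) ^ 2 / (p z.1 + p z.2 + 2 * δ)) := by ring
        _ ≤ c z.1 z.2 * ((Real.log (p z.1 + δ) - Real.log (p z.2 + δ)) * (p z.1 - p z.2)) :=
            mul_le_mul_of_nonneg_left this (hc.nn _ _)
        _ = _ := by ring
    have hnn : ∀ z : X × X, 0 ≤ c z.1 z.2 * (g z.1 - g z.2) * (p z.1 - p z.2) := fun z =>
      le_trans (mul_nonneg (by norm_num) (mul_nonneg (hc.nn _ _) (div_nonneg (sq_nonneg _)
        (by linarith [hp.nn z.1, hp.nn z.2])))) (hpos z)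
    have h3 := hform.sum_le_tsum s (fun z _ => hnn z)
    have h4 := Finset.sum_le_sum (s := s) fun z _ => hpos z
    rw [← Finset.mul_sum] at h4
    linarith
  -- the limit
  have hd : ∀ n : ℕ, (0 : ℝ) < 1 / ((n : ℝ) + 1) := fun n => by positivity
  have hd1 : ∀ n : ℕ, 1 / ((n : ℝ) + 1) ≤ 1 := fun n => by
    rw [div_le_one (by positivity)]
    have : (0 : ℝ) ≤ n := Nat.cast_nonneg n
    linarith
  have hlim : ∀ {r : X → ℝ}, (∀ x, 0 ≤ r x) → (∀ x, r x ≤ 1) → Summable r →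
      Summable (fun x => Real.negMulLog (r x)) →
      Tendsto (fun n : ℕ => ∑' x, ph (1 / ((n : ℝ) + 1)) (r x)) atTop
        (𝓝 (∑' x, - Real.negMulLog (r x))) := by
    intro r hr hr1 hrs hrQ
    exact tendsto_tsum_of_dominated_convergence (hrQ.add (hrs.mul_left 2))
      (fun x => ph_tendsto (r x))
      (Eventually.of_forall fun n x => ph_bound (hd n) (hd1 n) (hr x) (hr1 x))
  have l1 := (hlim hp.n' h1' hp.s' hQ').sub (hlim hp.nn h1 hp.su hQ)
  have l2 : Tendsto (fun n : ℕ => ∑ z ∈ s, c z.1 z.2 * ((p z.1 - p z.2) ^ 2 /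
      (p z.1 + p z.2 + 2 * (1 / ((n : ℝ) + 1))))) atTop
      (𝓝 (∑ z ∈ s, c z.1 z.2 * ((p z.1 - p z.2) ^ 2 / (p z.1 + p z.2)))) := by
    refine tendsto_finsetSum _ fun z _ => Tendsto.const_mul _ ?_
    by_cases h0 : p z.1 + p z.2 = 0
    · have e1 : p z.1 - p z.2 = 0 := by
        have := hp.nn z.1
        have := hp.nn z.2
        linarith
      simp [e1]
    · have : Tendsto (fun n : ℕ => p z.1 + p z.2 + 2 * (1 / ((n : ℝ) + 1))) atTop
          (𝓝 (p z.1 + p z.2 + 2 * 0)) :=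
        (tendsto_one_div_add_atTop_nhds_zero_nat.const_mul 2).const_add _
      rw [mul_zero, add_zero] at this
      exact tendsto_const_nhds.div this h0
  have h5 := le_of_tendsto_of_tendsto' l2 l1 fun n => key _ (hd n) (hd1 n)
  rw [tsum_neg, tsum_neg] at h5
  linarith

theorem St.sI (hc : Nw c) {p' p : X → ℝ} (hp : St c p' p) :
    Summable (fun z : X × X => c z.1 z.2 * ((p z.1 - p z.2) ^ 2 / (p z.1 + p z.2))) := by
  refine Summable.of_norm_bounded ((hp.cp1 hc).add (hp.cp2 hc)) fun z => ?_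
  have a1 := hp.nn z.1
  have a2 := hp.nn z.2
  have h0 : 0 ≤ (p z.1 - p z.2) ^ 2 / (p z.1 + p z.2) := div_nonneg (sq_nonneg _) (by linarith)
  rw [Real.norm_eq_abs, abs_of_nonneg (mul_nonneg (hc.nn _ _) h0), ← mul_add]
  refine mul_le_mul_of_nonneg_left ?_ (hc.nn _ _)
  rcases (add_nonneg a1 a2).eq_or_lt with h | h
  · rw [← h]; simp
  · rw [div_le_iff₀ h]
    nlinarith

theorem St.entropy' (hc : Nw c) {p' p : X → ℝ} (hp : St c p' p) (h1 : ∀ x, p x ≤ 1)
    (h1' : ∀ x, p' x ≤ 1) (hQ : Summable (fun x => Real.negMulLog (p x)))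
    (hQ' : Summable (fun x => Real.negMulLog (p' x))) :
    ∑' z : X × X, c z.1 z.2 * ((p z.1 - p z.2) ^ 2 / (p z.1 + p z.2)) ≤
      ∑' x, Real.negMulLog (p x) - ∑' x, Real.negMulLog (p' x) :=
  (hp.sI hc).tsum_le_of_sum_le fun s => hp.entropy hc h1 h1' hQ hQ' s

/-- the moment recursion -/
theorem St.moment (hc : Nw c) {p' p : X → ℝ} (hp : St c p' p) {ψ : X → ℝ} {C : ℝ}
    (hψ : ∀ x, |ψ x| ≤ C) {ℓ : X → X → ℝ} (hℓ : ∀ x y, |ψ x - ψ y| ≤ ℓ x y)
    (hs : ∀ x y, ℓ x y = ℓ y x)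
    (hv : Summable (fun z : X × X => c z.1 z.2 * ℓ z.1 z.2 ^ 2 * p z.1)) {l : ℝ} (hl : 0 < l) :
    ∑' x, ψ x * p x ≤ ∑' x, ψ x * p' x + ((l / 2) * ∑' z : X × X, c z.1 z.2 * ℓ z.1 z.2 ^ 2 * p z.1 +
      (1 / (4 * l)) * ∑' z : X × X, c z.1 z.2 * ((p z.1 - p z.2) ^ 2 / (p z.1 + p z.2))) := by
  have h1 := hp.parts hc hψ
  have sψ : ∀ {r : X → ℝ}, (∀ x, 0 ≤ r x) → Summable r → Summable (fun x => ψ x * r x) := by
    intro r hr hrs
    refine Summable.of_norm_bounded (hrs.mul_left C) fun x => ?_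
    rw [norm_mul, Real.norm_eq_abs, Real.norm_eq_abs, abs_of_nonneg (hr x)]
    exact mul_le_mul_of_nonneg_right (hψ x) (hr x)
  have e1 : ∑' x, ψ x * (p' x - p x) = ∑' x, ψ x * p' x - ∑' x, ψ x * p x := by
    rw [← (sψ hp.n' hp.s').tsum_sub (sψ hp.nn hp.su)]
    exact tsum_congr fun x => by ring
  have hv2 : Summable (fun z : X × X => c z.1 z.2 * ℓ z.1 z.2 ^ 2 * p z.2) := by
    rw [← (Equiv.prodComm X X).summable_iff]
    refine hv.congr fun z => ?_
    simp [hc.sy z.1 z.2, hs z.1 z.2]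
  have e2 : ∑' z : X × X, c z.1 z.2 * ℓ z.1 z.2 ^ 2 * p z.2 =
      ∑' z : X × X, c z.1 z.2 * ℓ z.1 z.2 ^ 2 * p z.1 := by
    rw [← (Equiv.prodComm X X).tsum_eq]
    refine tsum_congr fun z => ?_
    simp [hc.sy z.1 z.2, hs z.1 z.2]
  have hsI := hp.sI hc
  have hpt : ∀ z : X × X, -(c z.1 z.2 * (ψ z.1 - ψ z.2) * (p z.1 - p z.2)) ≤
      (l / 2) * (c z.1 z.2 * ℓ z.1 z.2 ^ 2 * p z.1) + (l / 2) * (c z.1 z.2 * ℓ z.1 z.2 ^ 2 * p z.2) +
      (1 / (2 * l)) * (c z.1 z.2 * ((p z.1 - p z.2) ^ 2 / (p z.1 + p z.2))) := by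
    intro z
    have a1 := hp.nn z.1
    have a2 := hp.nn z.2
    have hcz := hc.nn z.1 z.2
    have hℓ0 : 0 ≤ ℓ z.1 z.2 := (abs_nonneg _).trans (hℓ _ _)
    have b1 : -((ψ z.1 - ψ z.2) * (p z.1 - p z.2)) ≤ ℓ z.1 z.2 * |p z.1 - p z.2| := by
      refine (neg_le_abs _).trans ?_
      rw [abs_mul]
      exact mul_le_mul_of_nonneg_right (hℓ _ _) (abs_nonneg _)
    have b2 : ℓ z.1 z.2 * |p z.1 - p z.2| ≤ (l / 2) * (ℓ z.1 z.2 ^ 2 * (p z.1 + p z.2)) +
        (1 / (2 * l)) * ((p z.1 - p z.2) ^ 2 / (p z.1 + p z.2)) := by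
      rcases (add_nonneg a1 a2).eq_or_lt with h | h
      · have e3 : p z.1 - p z.2 = 0 := by linarith
        rw [← h, e3]; simp
      · have e4 : (p z.1 - p z.2) ^ 2 = |p z.1 - p z.2| ^ 2 := (sq_abs _).symm
        rw [e4]
        set u := |p z.1 - p z.2| with hu
        set P := p z.1 + p z.2 with hP
        have h5 : 0 ≤ (l * ℓ z.1 z.2 * P - u) ^ 2 := sq_nonneg _
        have h6 : (l / 2) * (ℓ z.1 z.2 ^ 2 * P) + (1 / (2 * l)) * (u ^ 2 / P) - ℓ z.1 z.2 * u =
            (l * ℓ z.1 z.2 * P - u) ^ 2 / (2 * l * P) := by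
          field_simp
          ring
        have h7 : 0 ≤ (l * ℓ z.1 z.2 * P - u) ^ 2 / (2 * l * P) := by positivity
        linarith
    have b3 := mul_le_mul_of_nonneg_left (b1.trans b2) hcz
    linarith
  have hsψ := hp.sform hc hψ
  have h6 := Summable.tsum_le_tsum hpt hsψ.neg
    (((hv.mul_left (l / 2)).add (hv2.mul_left (l / 2))).add (hsI.mul_left (1 / (2 * l))))
  rw [tsum_neg, Summable.tsum_add ((hv.mul_left (l / 2)).add (hv2.mul_left (l / 2)))
    (hsI.mul_left (1 / (2 * l))), (hv.mul_left (l / 2)).tsum_add (hv2.mul_left (l / 2)),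
    tsum_mul_left, tsum_mul_left, tsum_mul_left, e2] at h6
  have e5 : (1 / (4 * l)) = (1 / 2) * (1 / (2 * l)) := by field_simp; norm_num
  rw [e1] at h1
  rw [e5]
  linarith

end Pool.Agent.H979.QIP
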