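import Pool.Agent.H979.QIP.Sk2

set_option autoImplicit false
set_option linter.unusedSectionVars false
set_option linter.deprecated false
set_option linter.unusedVariables false
set_option linter.style.haveILetI false

open MeasureTheory ProbabilityTheory Filter Topology Set
open scoped ENNReal NNReal

/-!
# Convergence in law in the Skorokhod space, from the convergence of the interpolations
-/

namespace Pool.Agent.H979.QIP

variable {d : ℕ}

/-- the values of the interpolation on the grid -/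
theorem pth_grid {T : ℝ} {n : ℕ} (hn : 1 ≤ n) (w : ℕ → Vd d) {k : ℕ} (hk : (k : ℝ) ≤ T * n)
    (t : Icc (0 : ℝ) T) (ht : t.1 = (k : ℝ) / n) (i : Fin d) :
    pth T n (fun j : Fin (⌊T * n⌋₊ + 1 + 1) => w j) t i = (w k i : ℝ) / √(n : ℝ) := by
  have hn0 : (n : ℝ) ≠ 0 := by positivity
  have h1 : t.1 * n = k := by rw [ht]; field_simp
  have h2 : ⌊t.1 * n⌋₊ = k := by rw [h1]; exact Nat.floor_natCast k
  have h3 : k ≤ ⌊T * n⌋₊ := Nat.le_floor hk
  unfold pth
  rw [h2]
  rw [dif_pos (show k < ⌊T * n⌋₊ + 1 + 1 by omega), dif_pos (show k + 1 < ⌊T * n⌋₊ + 1 + 1 by omega)]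
  simp only [Pi.smul_apply, Pi.add_apply, smul_eq_mul, h1, sub_self, zero_smul, zero_mul, add_zero]
  ring

/-- the interpolation and the step path are close when the increments are small -/
theorem pth_step {T : ℝ} {n : ℕ} (hn : 1 ≤ n) (w : ℕ → Vd d) {ε : ℝ}
    (h : ∀ k : ℕ, (k : ℝ) ≤ T * n → ∀ i, |(w (k + 1) i : ℝ) - w k i| / √(n : ℝ) ≤ ε)
    (t : Icc (0 : ℝ) T) (i : Fin d) :
    |(w ⌊(n : ℝ) * t.1⌋₊ i : ℝ) / √(n : ℝ) -
      pth T n (fun j : Fin (⌊T * n⌋₊ + 1 + 1) => w j) t i| ≤ ε := by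
  have hn0 : (0 : ℝ) < n := by exact_mod_cast hn
  have hsn : 0 < √(n : ℝ) := Real.sqrt_pos.2 hn0
  have ht := t.2.1
  have htT := t.2.2
  have h0 : 0 ≤ t.1 * n := by positivity
  have h1 : ⌊t.1 * n⌋₊ ≤ ⌊T * n⌋₊ :=
    Nat.floor_le_floor (mul_le_mul_of_nonneg_right htT (Nat.cast_nonneg n))
  have h2 : ((⌊t.1 * n⌋₊ : ℕ) : ℝ) ≤ T * n :=
    (Nat.floor_le h0).trans (mul_le_mul_of_nonneg_right htT hn0.le)
  have h3 := h ⌊t.1 * n⌋₊ h2 i
  have h4 : ((⌊t.1 * n⌋₊ : ℕ) : ℝ) ≤ t.1 * n := Nat.floor_le h0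
  have h5 : t.1 * n < ((⌊t.1 * n⌋₊ : ℕ) : ℝ) + 1 := Nat.lt_floor_add_one _
  rw [mul_comm (n : ℝ) t.1]
  unfold pth
  rw [dif_pos (show ⌊t.1 * n⌋₊ < ⌊T * n⌋₊ + 1 + 1 by omega),
    dif_pos (show ⌊t.1 * n⌋₊ + 1 < ⌊T * n⌋₊ + 1 + 1 by omega)]
  simp only [Pi.smul_apply, Pi.add_apply, Pi.sub_apply, smul_eq_mul]
  set a := (w ⌊t.1 * n⌋₊ i : ℝ)
  set b := (w (⌊t.1 * n⌋₊ + 1) i : ℝ)
  set f := t.1 * n - (⌊t.1 * n⌋₊ : ℝ) with hf
  have e : a / √(n : ℝ) - 1 / √(n : ℝ) * (a + f * (b - a)) = -(f * ((b - a) / √(n : ℝ))) := by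
    field_simp
    ring
  rw [e, abs_neg, abs_mul, abs_div, abs_of_pos hsn, abs_of_nonneg (show 0 ≤ f by linarith)]
  have h6 : 0 ≤ |b - a| / √(n : ℝ) := by positivity
  nlinarith

/-- truncation of a time -/
noncomputable def trt (T : ℝ) (hT : 0 ≤ T) (t : ℝ≥0) : Icc (0 : ℝ) T :=
  ⟨min t T, le_min t.2 hT, min_le_right _ _⟩

/-- the stopped path -/
noncomputable def stopd (T : ℝ) (hT : 0 ≤ T) (φ : UniformFun (Icc (0 : ℝ) T) (Fin d → ℝ)) : Pth d :=
  fun t => UniformFun.toFun φ (trt T hT t)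

theorem sk_conv {Ξ : Type*} [MeasurableSpace Ξ] (Pq : Measure Ξ) [IsProbabilityMeasure Pq]
    (X : ℕ → Ξ → Vd d) (hX : ∀ k, Measurable (X k)) {Ω' : Type*} [MeasurableSpace Ω']
    (P' : Measure Ω') [IsProbabilityMeasure P'] (W : ℝ → Ω' → (Fin d → ℝ))
    (hWm : ∀ t, Measurable (W t)) (hWc : ∀ ω', Continuous (fun t => W t ω'))
    (hC : ∀ T : ℝ, 0 < T → ∀ F : UniformFun (Icc (0 : ℝ) T) (Fin d → ℝ) → ℝ, Continuous F →
      (∃ C : ℝ, ∀ f, |F f| ≤ C) → Tendsto (fun n : ℕ => ∫ ξ, F (UniformFun.ofFun (pth T n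
        (fun j : Fin (⌊T * n⌋₊ + 1 + 1) => X j ξ))) ∂Pq) atTop
        (𝓝 (∫ ω', F (UniformFun.ofFun (fun t : Icc (0 : ℝ) T => W t.1 ω')) ∂P')))
    (f : Sk d → ℝ) (hf : Continuous f) (hb : ∃ C : ℝ, ∀ x, |f x| ≤ C) :
    Tendsto (fun n : ℕ => ∫ ξ, f (spath n (fun k => X k ξ)) ∂Pq) atTop
      (𝓝 (∫ ω', f (wpath (fun t => W t ω') (hWc ω')) ∂P')) := by
  letI : MeasurableSpace (Sk d) := borel _
  haveI : BorelSpace (Sk d) := ⟨rfl⟩
  have mX : ∀ n : ℕ, Measurable (fun ξ => spath n (fun k => X k ξ)) := measurable_spath hX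
  have mW : Measurable (fun ω' => wpath (fun t => W t ω') (hWc ω')) := measurable_wpath hWm hWc
  let μ : ℕ → ProbabilityMeasure (Sk d) := fun n =>
    ⟨Pq.map (fun ξ => spath n (fun k => X k ξ)), Measure.isProbabilityMeasure_map (mX n).aemeasurable⟩
  let μ₀ : ProbabilityMeasure (Sk d) :=
    ⟨P'.map (fun ω' => wpath (fun t => W t ω') (hWc ω')),
      Measure.isProbabilityMeasure_map mW.aemeasurable⟩
  have key : ∀ g : Pth d → ℝ, ∀ B : ℝ, (∀ x, |g x| ≤ B) → ∀ L : ℝ≥0, LipschitzWith L g →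
      Tendsto (fun n : ℕ => ∫ ξ, g (spath n (fun k => X k ξ)).1 ∂Pq) atTop
      (𝓝 (∫ ω', g (wpath (fun t => W t ω') (hWc ω')).1 ∂P')) := by
    intro g B hB L hL
    have hB0 : 0 ≤ B := (abs_nonneg _).trans (hB (fun _ => 0))
    have hL0 : (0 : ℝ) ≤ L := L.2
    have hgc : Continuous (fun x : Sk d => g x.1) := hL.continuous.comp continuous_subtype_val
    have gm1 : ∀ n, Measurable (fun ξ => g (spath n (fun k => X k ξ)).1) := fun n =>
      hgc.measurable.comp (mX n)
    have gm2 : Measurable (fun ω' => g (wpath (fun t => W t ω') (hWc ω')).1) :=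
      hgc.measurable.comp mW
    rw [Metric.tendsto_atTop]
    intro ε hε
    set ε₁ : ℝ := ε / (16 * (L + 1)) with hε₁
    have hε₁0 : 0 < ε₁ := by positivity
    set T : ℝ := 1 / ε₁ with hT
    have hT0 : 0 < T := by positivity
    set FT : UniformFun (Icc (0 : ℝ) T) (Fin d → ℝ) → ℝ := fun φ => g (stopd T hT0.le φ) with hFT
    have hFTc : Continuous FT := by
      refine cont_of_lip _ L hL0 fun φ ψ r hr h => ?_
      have h1 : dist (stopd T hT0.le φ) (stopd T hT0.le ψ) ≤ r :=
        skdist_le hr fun t _ i => h _ i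
      have h2 := hL.dist_le_mul (stopd T hT0.le φ) (stopd T hT0.le ψ)
      rw [Real.dist_eq] at h2
      have h3 := (le_abs_self _).trans (h2.trans (mul_le_mul_of_nonneg_left h1 hL0))
      simp only [hFT]
      linarith
    have c1 := hC T hT0 FT hFTc ⟨B, fun φ => hB _⟩
    rw [Metric.tendsto_atTop] at c1
    obtain ⟨n1, hn1⟩ := c1 (ε / 8) (by positivity)
    -- the limit process
    have w1 : |∫ ω', g (wpath (fun t => W t ω') (hWc ω')).1 ∂P' -
        ∫ ω', FT (UniformFun.ofFun (fun t : Icc (0 : ℝ) T => W t.1 ω')) ∂P'| ≤ ε / 16 := by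
      have hpt : ∀ ω', |g (wpath (fun t => W t ω') (hWc ω')).1 -
          FT (UniformFun.ofFun (fun t : Icc (0 : ℝ) T => W t.1 ω'))| ≤ ε / 16 := by
        intro ω'
        have h1 : dist (wpath (fun t => W t ω') (hWc ω')).1
            (stopd T hT0.le (UniformFun.ofFun (fun t : Icc (0 : ℝ) T => W t.1 ω'))) ≤ ε₁ := by
          refine skdist_le hε₁0 fun t ht i => ?_
          have h2 : (trt T hT0.le t).1 = (t : ℝ) := min_eq_left ht
          show |W t ω' i - W (trt T hT0.le t).1 ω' i| ≤ ε₁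
          rw [h2, sub_self, abs_zero]
          exact hε₁0.le
        have h2 := hL.dist_le_mul (wpath (fun t => W t ω') (hWc ω')).1
          (stopd T hT0.le (UniformFun.ofFun (fun t : Icc (0 : ℝ) T => W t.1 ω')))
        rw [Real.dist_eq] at h2
        refine (h2.trans (mul_le_mul_of_nonneg_left h1 hL0)).trans ?_
        rw [hε₁, mul_div_assoc', div_le_div_iff₀ (by positivity) (by norm_num)]
        nlinarith
      have i1 : Integrable (fun ω' => g (wpath (fun t => W t ω') (hWc ω')).1) P' :=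
        Integrable.of_bound gm2.aestronglyMeasurable B
          (Eventually.of_forall fun ω' => by rw [Real.norm_eq_abs]; exact hB _)
      have m2 : Measurable (fun ω' => FT (UniformFun.ofFun (fun t : Icc (0 : ℝ) T => W t.1 ω'))) := by
        letI : MeasurableSpace C(Icc (0 : ℝ) T, Fin d → ℝ) := borel _
        haveI : BorelSpace C(Icc (0 : ℝ) T, Fin d → ℝ) := ⟨rfl⟩
        have h3 : Continuous (fun x : C(Icc (0 : ℝ) T, Fin d → ℝ) =>
            FT (UniformFun.ofFun (fun t => x t))) := by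
          refine hFTc.comp ?_
          rw [continuous_iff_continuousAt]
          intro x
          show Tendsto _ _ _
          rw [UniformFun.tendsto_iff_tendstoUniformly]
          exact (ContinuousMap.tendsto_iff_tendstoUniformly (p := 𝓝 x)
            (F := fun h : C(Icc (0 : ℝ) T, Fin d → ℝ) => h) (f := x)).1 tendsto_id
        exact h3.measurable.comp (measurable_toC hWm hWc hT0)
      have i2 : Integrable (fun ω' => FT (UniformFun.ofFun (fun t : Icc (0 : ℝ) T => W t.1 ω'))) P' :=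
        Integrable.of_bound m2.aestronglyMeasurable B
          (Eventually.of_forall fun ω' => by rw [Real.norm_eq_abs]; exact hB _)
      rw [← integral_sub i1 i2]
      refine (abs_integral_le_integral_abs).trans
        ((integral_mono (i1.sub i2).abs (integrable_const _) hpt).trans ?_)
      simp
    -- the increments are small
    set T' : ℝ := T + 1 with hT'
    have hT'0 : 0 < T' := by positivity
    have hmdW : ∃ δ : ℝ, 0 < δ ∧ ∫ ω', md d T' δ ε₁
        (UniformFun.ofFun (fun t : Icc (0 : ℝ) T' => W t.1 ω')) ∂P' < ε / (32 * (B + 1)) := by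
      have h1 : Tendsto (fun N : ℕ => ∫ ω', md d T' (1 / ((N : ℝ) + 1)) ε₁
          (UniformFun.ofFun (fun t : Icc (0 : ℝ) T' => W t.1 ω')) ∂P') atTop (𝓝 (∫ ω', 0 ∂P')) := by
        refine tendsto_integral_of_dominated_convergence (fun _ => 1) ?_ (integrable_const _) ?_ ?_
        · intro N
          letI : MeasurableSpace C(Icc (0 : ℝ) T', Fin d → ℝ) := borel _
          haveI : BorelSpace C(Icc (0 : ℝ) T', Fin d → ℝ) := ⟨rfl⟩
          have h3 : Continuous (fun x : C(Icc (0 : ℝ) T', Fin d → ℝ) =>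
              md d T' (1 / ((N : ℝ) + 1)) ε₁ (UniformFun.ofFun (fun t => x t))) := by
            refine (md_cont hε₁0 T' (1 / ((N : ℝ) + 1))).comp ?_
            rw [continuous_iff_continuousAt]
            intro x
            show Tendsto _ _ _
            rw [UniformFun.tendsto_iff_tendstoUniformly]
            exact (ContinuousMap.tendsto_iff_tendstoUniformly (p := 𝓝 x)
              (F := fun h : C(Icc (0 : ℝ) T', Fin d → ℝ) => h) (f := x)).1 tendsto_id
          exact (h3.measurable.comp (measurable_toC hWm hWc hT'0)).aestronglyMeasurable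
        · intro N
          exact Eventually.of_forall fun ω' => by
            rw [Real.norm_eq_abs, abs_of_nonneg (md_nonneg hε₁0 _ _ _)]
            exact md_le_one hε₁0 _ _ _
        · refine Eventually.of_forall fun ω' => ?_
          rw [Metric.tendsto_atTop]
          intro η hη
          have hu : UniformContinuousOn (fun t => W t ω') (Icc 0 T') :=
            isCompact_Icc.uniformContinuousOn_of_continuous (hWc ω').continuousOn
          rw [Metric.uniformContinuousOn_iff_le] at hu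
          obtain ⟨δ, hδ, h1⟩ := hu (η / 2 * ε₁) (by positivity)
          obtain ⟨N, hN⟩ := exists_nat_one_div_lt hδ
          refine ⟨N, fun m hm => ?_⟩
          rw [Real.dist_eq, sub_zero, abs_of_nonneg (md_nonneg hε₁0 _ _ _)]
          refine lt_of_le_of_lt (b := η / 2) (Real.iSup_le (fun p => ?_) (by positivity)) (by linarith)
          refine (min_le_right _ _).trans ?_
          rw [div_le_iff₀ hε₁0]
          have h2 := h1 p.1.1.1 p.1.1.2 p.1.2.1.1 p.1.2.1.2 (by
            rw [Real.dist_eq]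
            refine p.2.trans (le_trans ?_ hN.le)
            have : (N : ℝ) ≤ m := by exact_mod_cast hm
            gcongr)
          have h3 := (dist_pi_le_iff (by positivity)).1 h2 p.1.2.2
          rwa [Real.dist_eq] at h3
      rw [integral_zero] at h1
      obtain ⟨N, hN⟩ := ((tendsto_order.1 h1).2 (ε / (32 * (B + 1))) (by positivity)).exists
      exact ⟨1 / ((N : ℝ) + 1), by positivity, hN⟩
    obtain ⟨δ, hδ, hδW⟩ := hmdW
    have c2 := hC T' hT'0 (md d T' δ ε₁) (md_cont hε₁0 T' δ)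
      ⟨1, fun φ => by rw [abs_of_nonneg (md_nonneg hε₁0 _ _ _)]; exact md_le_one hε₁0 _ _ _⟩
    have c3 := (tendsto_order.1 c2).2 _ hδW
    obtain ⟨n2, hn2⟩ := eventually_atTop.1 c3
    obtain ⟨n3, hn3⟩ := exists_nat_ge (1 / δ)
    refine ⟨max (max n1 n2) (max n3 1), fun n hn => ?_⟩
    have g1 := hn1 n (by omega)
    have g2 := hn2 n (by omega)
    have hn4 : 1 ≤ n := by omega
    have hn0 : (0 : ℝ) < n := by exact_mod_cast hn4
    have hsn : 0 < √(n : ℝ) := Real.sqrt_pos.2 hn0
    have hnδ : 1 / (n : ℝ) ≤ δ := by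
      have h1 : (n3 : ℝ) ≤ n := by exact_mod_cast (show n3 ≤ n by omega)
      rw [div_le_iff₀ hn0]
      rw [div_le_iff₀ hδ] at hn3
      nlinarith
    -- the bad event
    set bad : Set Ξ := {ξ | 1 ≤ md d T' δ ε₁ (UniformFun.ofFun (pth T' n
      (fun j : Fin (⌊T' * n⌋₊ + 1 + 1) => X j ξ)))} with hbad
    have mres : ∀ N : ℕ, Measurable (fun ξ => (fun j : Fin N => X j ξ)) := fun N =>
      measurable_pi_lambda _ fun j => hX _
    have mmd : Measurable (fun ξ => md d T' δ ε₁ (UniformFun.ofFun (pth T' n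
      (fun j : Fin (⌊T' * n⌋₊ + 1 + 1) => X j ξ)))) :=
      (measurable_of_countable (fun z : Fin (⌊T' * n⌋₊ + 1 + 1) → Vd d =>
        md d T' δ ε₁ (UniformFun.ofFun (pth T' n z)))).comp (mres _)
    have hbadm : MeasurableSet bad := measurableSet_le measurable_const mmd
    have hbadp : Pq.real bad ≤ ε / (32 * (B + 1)) := by
      have i1 : Integrable (fun ξ => md d T' δ ε₁ (UniformFun.ofFun (pth T' n
        (fun j : Fin (⌊T' * n⌋₊ + 1 + 1) => X j ξ)))) Pq :=
        Integrable.of_bound mmd.aestronglyMeasurable 1 (Eventually.of_forall fun ξ => by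
          rw [Real.norm_eq_abs, abs_of_nonneg (md_nonneg hε₁0 _ _ _)]
          exact md_le_one hε₁0 _ _ _)
      have h1 : ∫ ξ, bad.indicator (fun _ => (1 : ℝ)) ξ ∂Pq ≤ ∫ ξ, md d T' δ ε₁ (UniformFun.ofFun
          (pth T' n (fun j : Fin (⌊T' * n⌋₊ + 1 + 1) => X j ξ))) ∂Pq := by
        refine integral_mono ((integrable_const _).indicator hbadm) i1 fun ξ => ?_
        by_cases hξ : ξ ∈ bad
        · rw [indicator_of_mem hξ]; exact hξ
        · rw [indicator_of_notMem hξ]; exact md_nonneg hε₁0 _ _ _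
      rw [integral_indicator_const _ hbadm, smul_eq_mul, mul_one] at h1
      linarith
    have hgood : ∀ ξ, ξ ∉ bad → ∀ k : ℕ, (k : ℝ) ≤ T * n → ∀ i,
        |(X (k + 1) ξ i : ℝ) - X k ξ i| / √(n : ℝ) ≤ ε₁ := by
      intro ξ hξ k hk i
      by_contra hcon
      rw [not_le] at hcon
      apply hξ
      have hk1 : ((k + 1 : ℕ) : ℝ) ≤ T' * n := by
        rw [hT', add_mul, one_mul]; push_cast
        have : (1 : ℝ) ≤ n := by exact_mod_cast hn4
        linarith
      have hk0 : (k : ℝ) ≤ T' * n := by push_cast at hk1; linarith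
      set p : Prs d T' δ := ⟨(⟨(k : ℝ) / n, by positivity, by rw [div_le_iff₀ hn0]; exact hk0⟩,
        ⟨((k + 1 : ℕ) : ℝ) / n, by positivity, by rw [div_le_iff₀ hn0]; exact hk1⟩, i), by
          show |(k : ℝ) / n - ((k + 1 : ℕ) : ℝ) / n| ≤ δ
          rw [← sub_div]
          push_cast
          have : ((k : ℝ) - (k + 1)) / n = -(1 / n) := by ring
          rw [this, abs_neg, abs_of_pos (by positivity)]
          exact hnδ⟩ with hp
      have h1 := le_ciSup (md_bdd T' δ ε₁ (UniformFun.ofFun (pth T' n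
        (fun j : Fin (⌊T' * n⌋₊ + 1 + 1) => X j ξ)))) p
      refine le_trans ?_ h1
      refine le_min le_rfl ?_
      rw [le_div_iff₀ hε₁0, one_mul]
      have e1 := pth_grid hn4 (fun k => X k ξ) hk0
        ⟨(k : ℝ) / n, by positivity, by rw [div_le_iff₀ hn0]; exact hk0⟩ rfl i
      have e2 := pth_grid hn4 (fun k => X k ξ) hk1
        ⟨((k + 1 : ℕ) : ℝ) / n, by positivity, by rw [div_le_iff₀ hn0]; exact hk1⟩ rfl i
      show ε₁ ≤ |pth T' n (fun j : Fin (⌊T' * n⌋₊ + 1 + 1) => X j ξ) _ i -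
        pth T' n (fun j : Fin (⌊T' * n⌋₊ + 1 + 1) => X j ξ) _ i|
      rw [e1, e2, ← sub_div, abs_div, abs_of_pos hsn, abs_sub_comm]
      exact hcon.le
    have x1 : |∫ ξ, g (spath n (fun k => X k ξ)).1 ∂Pq - ∫ ξ, FT (UniformFun.ofFun (pth T n
        (fun j : Fin (⌊T * n⌋₊ + 1 + 1) => X j ξ))) ∂Pq| ≤ ε / 8 := by
      have i1 : Integrable (fun ξ => g (spath n (fun k => X k ξ)).1) Pq :=
        Integrable.of_bound (gm1 n).aestronglyMeasurable B
          (Eventually.of_forall fun ξ => by rw [Real.norm_eq_abs]; exact hB _)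
      have m2 : Measurable (fun ξ => FT (UniformFun.ofFun (pth T n
        (fun j : Fin (⌊T * n⌋₊ + 1 + 1) => X j ξ)))) :=
        (measurable_of_countable (fun z : Fin (⌊T * n⌋₊ + 1 + 1) → Vd d =>
          FT (UniformFun.ofFun (pth T n z)))).comp (mres _)
      have i2 : Integrable (fun ξ => FT (UniformFun.ofFun (pth T n
        (fun j : Fin (⌊T * n⌋₊ + 1 + 1) => X j ξ)))) Pq :=
        Integrable.of_bound m2.aestronglyMeasurable B
          (Eventually.of_forall fun ξ => by rw [Real.norm_eq_abs]; exact hB _)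
      rw [← integral_sub i1 i2]
      have hpt : ∀ ξ, |g (spath n (fun k => X k ξ)).1 - FT (UniformFun.ofFun (pth T n
          (fun j : Fin (⌊T * n⌋₊ + 1 + 1) => X j ξ)))| ≤
          ε / 16 + bad.indicator (fun _ => 2 * B) ξ := by
        intro ξ
        by_cases hξ : ξ ∈ bad
        · rw [indicator_of_mem hξ]
          have a1 := hB (spath n (fun k => X k ξ)).1
          have a2 := hB (stopd T hT0.le (UniformFun.ofFun (pth T n
            (fun j : Fin (⌊T * n⌋₊ + 1 + 1) => X j ξ))))
          have a3 := abs_sub (g (spath n (fun k => X k ξ)).1) (FT (UniformFun.ofFun (pth T n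
            (fun j : Fin (⌊T * n⌋₊ + 1 + 1) => X j ξ))))
          simp only [hFT] at a3 ⊢
          linarith
        · rw [indicator_of_notMem hξ, add_zero]
          have h1 : dist (spath n (fun k => X k ξ)).1 (stopd T hT0.le (UniformFun.ofFun (pth T n
              (fun j : Fin (⌊T * n⌋₊ + 1 + 1) => X j ξ)))) ≤ ε₁ := by
            refine skdist_le hε₁0 fun t ht i => ?_
            have h2 : (trt T hT0.le t).1 = (t : ℝ) := min_eq_left ht
            have h3 := pth_step hn4 (fun k => X k ξ) (hgood ξ hξ) (trt T hT0.le t) i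
            rw [h2] at h3
            exact h3
          have h2 := hL.dist_le_mul (spath n (fun k => X k ξ)).1 (stopd T hT0.le (UniformFun.ofFun
            (pth T n (fun j : Fin (⌊T * n⌋₊ + 1 + 1) => X j ξ))))
          rw [Real.dist_eq] at h2
          refine (h2.trans (mul_le_mul_of_nonneg_left h1 hL0)).trans ?_
          rw [hε₁, mul_div_assoc', div_le_div_iff₀ (by positivity) (by norm_num)]
          nlinarith
      have i3 : Integrable (fun ξ => ε / 16 + bad.indicator (fun _ => 2 * B) ξ) Pq :=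
        (integrable_const _).add ((integrable_const _).indicator hbadm)
      refine (abs_integral_le_integral_abs).trans ((integral_mono (i1.sub i2).abs i3 hpt).trans ?_)
      rw [integral_add (integrable_const _) ((integrable_const _).indicator hbadm),
        integral_const, integral_indicator_const _ hbadm]
      simp only [probReal_univ, one_smul, smul_eq_mul]
      have a1 : Pq.real bad * (2 * B) ≤ ε / 16 := by
        have : Pq.real bad * (2 * B) ≤ ε / (32 * (B + 1)) * (2 * B) :=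
          mul_le_mul_of_nonneg_right hbadp (by positivity)
        refine this.trans ?_
        rw [div_mul_eq_mul_div, div_le_div_iff₀ (by positivity) (by norm_num)]
        nlinarith
      linarith
    rw [Real.dist_eq] at g1 ⊢
    rw [abs_le] at x1 w1
    rw [abs_lt] at g1 ⊢
    constructor <;> linarith [x1.1, x1.2, w1.1, w1.2, g1.1, g1.2]
  have hlim : Tendsto μ atTop (𝓝 μ₀) := by
    rw [tendsto_iff_forall_lipschitz_integral_tendsto]
    rintro F ⟨C', hC'⟩ ⟨L, hL⟩
    set x₀ : Sk d := spath 0 (fun _ => 0) with hx₀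
    set B : ℝ := |F x₀| + C' with hBdef
    have hFB : ∀ x, |F x| ≤ B := by
      intro x
      have := hC' x x₀
      rw [Real.dist_eq] at this
      have h2 := abs_sub_abs_le_abs_sub (F x) (F x₀)
      linarith
    -- extension
    obtain ⟨g, hg, hgF⟩ := LipschitzOnWith.extend_real (f := fun x : Pth d =>
      (by classical exact if h : Cadlag x then F ⟨x, h⟩ else 0 : ℝ)) (s := {x : Pth d | Cadlag x})
      (K := L) (by
        refine LipschitzOnWith.of_dist_le_mul fun x hx y hy => ?_
        simp only [mem_setOf_eq] at hx hy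
        rw [dif_pos hx, dif_pos hy]
        exact hL.dist_le_mul ⟨x, hx⟩ ⟨y, hy⟩)
    have hgF' : ∀ x : Sk d, g x.1 = F x := by
      intro x
      have h1 := hgF (show x.1 ∈ {x : Pth d | Cadlag x} from x.2)
      simp only at h1
      rw [dif_pos (show Cadlag x.1 from x.2)] at h1
      exact h1.symm
    have h1 := key (fun x => max (-B) (min B (g x))) B (fun x => by
      rw [abs_le]
      have hB0 : 0 ≤ B := (abs_nonneg _).trans (hFB x₀)
      exact ⟨le_max_left _ _, max_le (by linarith) (min_le_left _ _)⟩) L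
      ((hg.const_min B).const_max (-B))
    have h2 : ∀ x : Sk d, max (-B) (min B (g x.1)) = F x := by
      intro x
      have := abs_le.1 (hFB x)
      rw [hgF' x, min_eq_right this.2, max_eq_right this.1]
    simp only [h2] at h1
    have e1 : ∀ n, ∫ x, F x ∂(μ n : Measure (Sk d)) = ∫ ξ, F (spath n (fun k => X k ξ)) ∂Pq := by
      intro n
      show ∫ x, F x ∂(Pq.map (fun ξ => spath n (fun k => X k ξ))) = _
      rw [integral_map (mX n).aemeasurable hL.continuous.measurable.aestronglyMeasurable]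
    have e2 : ∫ x, F x ∂(μ₀ : Measure (Sk d)) = ∫ ω', F (wpath (fun t => W t ω') (hWc ω')) ∂P' := by
      show ∫ x, F x ∂(P'.map (fun ω' => wpath (fun t => W t ω') (hWc ω'))) = _
      rw [integral_map mW.aemeasurable hL.continuous.measurable.aestronglyMeasurable]
    simp only [e1, e2]
    exact h1
  obtain ⟨B, hB⟩ := hb
  rw [ProbabilityMeasure.tendsto_iff_forall_integral_tendsto] at hlim
  have h1 := hlim (BoundedContinuousFunction.ofNormedAddCommGroup f hf B
    (fun x => by rw [Real.norm_eq_abs]; exact hB _))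
  have e1 : ∀ n, ∫ x, (BoundedContinuousFunction.ofNormedAddCommGroup f hf B
      (fun x => by rw [Real.norm_eq_abs]; exact hB _)) x ∂(μ n : Measure (Sk d)) =
      ∫ ξ, f (spath n (fun k => X k ξ)) ∂Pq := by
    intro n
    show ∫ x, f x ∂(Pq.map (fun ξ => spath n (fun k => X k ξ))) = _
    rw [integral_map (mX n).aemeasurable hf.measurable.aestronglyMeasurable]
  have e2 : ∫ x, (BoundedContinuousFunction.ofNormedAddCommGroup f hf B
      (fun x => by rw [Real.norm_eq_abs]; exact hB _)) x ∂(μ₀ : Measure (Sk d)) =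
      ∫ ω', f (wpath (fun t => W t ω') (hWc ω')) ∂P' := by
    show ∫ x, f x ∂(P'.map (fun ω' => wpath (fun t => W t ω') (hWc ω'))) = _
    rw [integral_map mW.aemeasurable hf.measurable.aestronglyMeasurable]
  simp only [e1, e2] at h1
  exact h1

end Pool.Agent.H979.QIP
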