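import Pool.Agent.H979.QIP.PPDefs
import Pool.Agent.H979.QIP.Sk3
import Pool.Agent.H979.QIP.Main4
import Pool.Agent.H979.QIP.BM
import Pool.Agent.H979.QIP.LRP2

set_option autoImplicit false
set_option linter.unusedSectionVars false
set_option linter.deprecated false
set_option linter.unusedVariables false
set_option linter.style.haveILetI false

open MeasureTheory ProbabilityTheory Filter Topology Set
open scoped ENNReal NNReal

/-!
# Discrete point processes: the configurations
-/

namespace Pool.Agent.H979.QIP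

variable {d : ℕ}

theorem uv_not (i : Fin d) (s : Bool) : uv i (!s) = -uv i s := by
  cases s <;> simp [uv]

theorem smul_uv_self (i : Fin d) (s : Bool) (k : ℕ) :
    (k • uv i s) i = if s then (k : ℤ) else -(k : ℤ) := by
  cases s <;> simp [uv]

theorem smul_uv_ne {i j : Fin d} (h : j ≠ i) (s : Bool) (k : ℕ) : (k • uv i s) j = 0 := by
  cases s <;> simp [uv, h]

theorem smul_uv_inj {i i' : Fin d} {s s' : Bool} {k k' : ℕ} (hk : 0 < k) (hk' : 0 < k')
    (h : k • uv i s = k' • uv i' s') : i = i' ∧ s = s' ∧ k = k' := by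
  have h1 := congrFun h i
  by_cases hi : i = i'
  · subst hi
    rw [smul_uv_self, smul_uv_self] at h1
    cases s <;> cases s' <;> simp at h1 <;> simp <;> omega
  · rw [smul_uv_self, smul_uv_ne hi] at h1
    cases s <;> simp at h1 <;> omega

theorem th_zero (ω : Cfg d) : th 0 ω = ω := by funext y; simp [th]

theorem th_add (x y : Vd d) (ω : Cfg d) : th y (th x ω) = th (x + y) ω := by
  funext z; simp only [th]; rw [add_assoc]

theorem measurable_th (x : Vd d) : Measurable (th x) :=
  measurable_pi_lambda _ fun y => measurable_pi_apply _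

/-- the shift as an equivalence -/
def thE (x : Vd d) : Cfg d ≃ᵐ Cfg d where
  toFun := th x
  invFun := th (-x)
  left_inv ω := by rw [th_add, add_neg_cancel, th_zero]
  right_inv ω := by rw [th_add, neg_add_cancel, th_zero]
  measurable_toFun := measurable_th x
  measurable_invFun := measurable_th (-x)

theorem pres_all {Q : Measure (Cfg d)} (he : ∀ i, MeasurePreserving (th (Pi.single i 1)) Q Q)
    (x : Vd d) : MeasurePreserving (th x) Q Q := by
  let S : AddSubgroup (Vd d) :=
    { carrier := {x | MeasurePreserving (th x) Q Q}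
      zero_mem' := by
        have : th (0 : Vd d) = id := funext th_zero
        simp only [mem_setOf_eq, this]
        exact MeasurePreserving.id Q
      add_mem' := by
        intro a b ha hb
        have : th (a + b) = th b ∘ th a := by funext ω; simp [th_add]
        simp only [mem_setOf_eq, this] at *
        exact hb.comp ha
      neg_mem' := by
        intro a ha
        have h1 : MeasurePreserving (thE a) Q Q := ha
        exact h1.symm }
  have h1 : x = ∑ i, x i • (Pi.single i 1 : Vd d) := by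
    funext j
    simp [Finset.sum_apply, Pi.single_apply]
  have h2 : x ∈ S := by
    rw [h1]
    exact S.sum_mem fun i _ => S.zsmul_mem (he i) _
  exact h2

theorem sta_th {Q : Measure (Cfg d)} (he : ∀ i, MeasurePreserving (th (Pi.single i 1)) Q Q) :
    Sta Q th where
  zero := th_zero
  add := fun x y ω => th_add x y ω
  pres := pres_all he

theorem measurableSet_pt (x : Vd d) : MeasurableSet {ω : Cfg d | ω x = true} :=
  (measurable_pi_apply (X := fun _ : Vd d => Bool) x) (measurableSet_singleton true)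

theorem measurableSet_Oc : MeasurableSet (Oc d) := measurableSet_pt 0

theorem Oc_pos {Q : Measure (Cfg d)} [IsProbabilityMeasure Q] (h : Sta Q th)
    (hne : Q {ω | ∀ x, ω x = false} < 1) : Q (Oc d) ≠ 0 := by
  intro h0
  have h1 : Q {ω | ∃ x, ω x = true} = 0 := by
    have : {ω : Cfg d | ∃ x, ω x = true} = ⋃ x, (th x) ⁻¹' (Oc d) := by
      ext ω
      simp [Oc, th]
    rw [this, measure_iUnion_null_iff]
    intro x
    rw [(h.pres x).measure_preimage measurableSet_Oc.nullMeasurableSet, h0]
  have hm : MeasurableSet {ω : Cfg d | ∃ x, ω x = true} := by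
    have : {ω : Cfg d | ∃ x, ω x = true} = ⋃ x, {ω | ω x = true} := by ext ω; simp
    rw [this]
    exact MeasurableSet.iUnion fun x => measurableSet_pt x
  have h2 : {ω : Cfg d | ∀ x, ω x = false} = {ω : Cfg d | ∃ x, ω x = true}ᶜ := by
    ext ω; simp
  rw [h2, prob_compl_eq_one_sub hm, h1] at hne
  simp at hne

/-- all lines contain points -/
def Rec (ω : Cfg d) : Prop := ∀ (x : Vd d) (i : Fin d) (s : Bool), ∃ k : ℕ, 0 < k ∧
  ω (x + k • uv i s) = true

theorem ae_line {Q : Measure (Cfg d)} [IsProbabilityMeasure Q] (h : Sta Q th)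
    (he : ∀ i, Ergodic (th (Pi.single i 1)) Q)
    (hne : Q {ω | ∀ x, ω x = false} < 1) (i : Fin d) (s : Bool) :
    ∀ᵐ ω ∂Q, ∃ k : ℕ, ω (k • uv i s) = true := by
  set E : Set (Cfg d) := {ω | ∃ k : ℕ, ω (k • uv i s) = true} with hE
  have hm : MeasurableSet E := by
    have : E = ⋃ k : ℕ, {ω | ω (k • uv i s) = true} := by ext ω; simp [hE]
    rw [this]
    exact MeasurableSet.iUnion fun x => measurableSet_pt _
  have hsub : Oc d ⊆ E := fun ω hω => ⟨0, by rw [zero_smul]; exact hω⟩
  have hpos : Q E ≠ 0 := fun h0 => Oc_pos h hne (measure_mono_null hsub h0)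
  have h1 : E =ᵐ[Q] (∅ : Set (Cfg d)) ∨ E =ᵐ[Q] univ := by
    cases s
    · refine (he i).ae_empty_or_univ_of_ae_le_preimage hm.nullMeasurableSet
        (Eventually.of_forall fun ω hω => ?_)
      obtain ⟨k, hk⟩ := hω
      refine ⟨k + 1, ?_⟩
      show ω (Pi.single i 1 + (k + 1) • uv i false) = true
      have : (Pi.single i 1 : Vd d) + (k + 1) • uv i false = k • uv i false := by
        rw [succ_nsmul]; simp [uv]
      rw [this]; exact hk
    · refine (he i).ae_empty_or_univ_of_preimage_ae_le hm.nullMeasurableSet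
        (Eventually.of_forall fun ω hω => ?_)
      obtain ⟨k, hk⟩ := hω
      refine ⟨k + 1, ?_⟩
      have h3 : ω (Pi.single i 1 + k • uv i true) = true := hk
      have : (k + 1) • uv i true = (Pi.single i 1 : Vd d) + k • uv i true := by
        rw [succ_nsmul, add_comm]; simp [uv]
      rw [this]; exact h3
  rcases h1 with h1 | h1
  · exact absurd (ae_eq_empty.1 h1) hpos
  · rw [ae_eq_univ] at h1
    exact h1

theorem ae_rec {Q : Measure (Cfg d)} [IsProbabilityMeasure Q] (h : Sta Q th)
    (he : ∀ i, Ergodic (th (Pi.single i 1)) Q)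
    (hne : Q {ω | ∀ x, ω x = false} < 1) : ∀ᵐ ω ∂Q, Rec ω := by
  have h1 := ae_all (pr := fun ω : Cfg d => ∀ (i : Fin d) (s : Bool), ∃ k : ℕ, ω (k • uv i s) = true) h
    (by rw [ae_all_iff]; intro i; rw [ae_all_iff]; intro s; exact ae_line h he hne i s)
  filter_upwards [h1] with ω hω x i s
  obtain ⟨k, hk⟩ := hω (x + uv i s) i s
  refine ⟨k + 1, Nat.succ_pos _, ?_⟩
  have : x + (k + 1) • uv i s = x + uv i s + k • uv i s := by rw [succ_nsmul]; abel
  rw [this]; exact hk

theorem Rec.th {ω : Cfg d} (h : Rec ω) (x : Vd d) : Rec (th x ω) := by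
  intro y i s
  obtain ⟨k, hk, hk'⟩ := h (x + y) i s
  refine ⟨k, hk, ?_⟩
  show ω (x + (y + k • uv i s)) = true
  rw [← add_assoc]; exact hk'

theorem Rec.spec {ω : Cfg d} (h : Rec ω) (i : Fin d) (s : Bool) :
    0 < fe ω (uv i s) ∧ ω (fe ω (uv i s) • uv i s) = true := by
  have hn : {k : ℕ | 0 < k ∧ ω (k • uv i s) = true}.Nonempty := by
    obtain ⟨k, hk, hk'⟩ := h 0 i s
    exact ⟨k, hk, by rwa [zero_add] at hk'⟩
  exact Nat.sInf_mem hn

theorem fe_le {ω : Cfg d} {e : Vd d} {k : ℕ} (hk : 0 < k) (h : ω (k • e) = true) : fe ω e ≤ k :=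
  Nat.sInf_le ⟨hk, h⟩

theorem fe_eq {ω : Cfg d} {e : Vd d} {k : ℕ} (hk : 0 < k) (h : ω (k • e) = true)
    (h' : ∀ j, 0 < j → j < k → ω (j • e) = false) : fe ω e = k := by
  refine le_antisymm (fe_le hk h) ?_
  have hn : {k : ℕ | 0 < k ∧ ω (k • e) = true}.Nonempty := ⟨k, hk, h⟩
  have h1 := Nat.sInf_mem hn
  by_contra hcon
  rw [not_le] at hcon
  have := h' _ h1.1 hcon
  rw [h1.2] at this
  exact absurd this (by simp)

theorem measurable_fe (e : Vd d) : Measurable (fun ω : Cfg d => fe ω e) := by
  refine measurable_to_countable' fun k => ?_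
  have h1 : (fun ω : Cfg d => fe ω e) ⁻¹' {k} =
      {ω | (0 < k ∧ ω (k • e) = true ∧ ∀ j, 0 < j → j < k → ω (j • e) = false) ∨
        (k = 0 ∧ ∀ j : ℕ, 0 < j → ω (j • e) = false)} := by
    ext ω
    simp only [mem_preimage, mem_singleton_iff, mem_setOf_eq]
    constructor
    · intro h
      by_cases hn : {k : ℕ | 0 < k ∧ ω (k • e) = true}.Nonempty
      · left
        have h1 := Nat.sInf_mem hn
        have h2 : sInf {k : ℕ | 0 < k ∧ ω (k • e) = true} = k := h
        rw [h2] at h1
        refine ⟨h1.1, h1.2, fun j hj hjk => ?_⟩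
        by_contra hcon
        have h3 : ω (j • e) = true := by simpa using hcon
        have := fe_le hj h3
        omega
      · right
        rw [Set.not_nonempty_iff_eq_empty] at hn
        refine ⟨?_, fun j hj => ?_⟩
        · rw [← h, fe, hn]; simp
        · by_contra hcon
          have h3 : ω (j • e) = true := by simpa using hcon
          have : j ∈ {k : ℕ | 0 < k ∧ ω (k • e) = true} := ⟨hj, h3⟩
          rw [hn] at this
          exact this
    · rintro (⟨h1, h2, h3⟩ | ⟨h1, h2⟩)
      · exact fe_eq h1 h2 h3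
      · have : {k : ℕ | 0 < k ∧ ω (k • e) = true} = ∅ := by
          ext j
          simp only [mem_setOf_eq, mem_empty_iff_false, iff_false, not_and]
          intro hj
          rw [h2 j hj]; simp
        rw [fe, this, h1]; simp
  rw [h1]
  have hmp : ∀ (x : Vd d) (b : Bool), Measurable (fun ω : Cfg d => ω x = b) := fun x b =>
    measurableSet_setOf.1 ((measurable_pi_apply (X := fun _ : Vd d => Bool) x)
      (measurableSet_singleton b))
  refine measurableSet_setOf.2 ?_
  refine Measurable.or (Measurable.and measurable_const (Measurable.and (hmp _ _) ?_))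
    (Measurable.and measurable_const ?_)
  · exact Measurable.forall fun j => Measurable.imp measurable_const
      (Measurable.imp measurable_const (hmp _ _))
  · exact Measurable.forall fun j => Measurable.imp measurable_const (hmp _ _)

/-- the nearest point of the origin in a given direction -/
noncomputable def nb (ω : Cfg d) (p : Fin d × Bool) : Vd d := fe ω (uv p.1 p.2) • uv p.1 p.2

theorem Rec.nb_inj {ω : Cfg d} (h : Rec ω) : Function.Injective (nb ω) := by
  rintro ⟨i, s⟩ ⟨i', s'⟩ hh
  have := smul_uv_inj (h.spec i s).1 (h.spec i' s').1 hh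
  exact Prod.ext this.1 this.2.1

theorem mem_Nbs_shift {ω : Cfg d} {x y : Vd d} : y - x ∈ Nbs (th x ω) 0 ↔ y ∈ Nbs ω x := by
  unfold Nbs
  simp only [mem_setOf_eq]
  refine exists_congr fun i => exists_congr fun s => exists_congr fun k => and_congr ?_ ?_
  · simp only [th, zero_add]
  · rw [zero_add, sub_eq_iff_eq_add, add_comm]

theorem Rec.mem_Nbs {ω : Cfg d} (h : Rec ω) {y : Vd d} : y ∈ Nbs ω 0 ↔ ∃ p, y = nb ω p := by
  unfold Nbs
  simp only [mem_setOf_eq, zero_add]
  constructor
  · rintro ⟨i, s, k, hk, rfl⟩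
    refine ⟨(i, s), ?_⟩
    have : fe ω (uv i s) = k := fe_eq hk.1.1 hk.1.2 fun j hj hjk => by
      by_contra hcon
      have h3 : ω (j • uv i s) = true := by simpa using hcon
      have := hk.2 ⟨hj, h3⟩
      omega
    unfold nb
    simp only [this]
  · rintro ⟨⟨i, s⟩, rfl⟩
    refine ⟨i, s, fe ω (uv i s), ⟨h.spec i s, fun k hk => fe_le hk.1 hk.2⟩, rfl⟩

open Classical in
/-- the conductances -/
noncomputable def cpp (ω : Cfg d) (y : Vd d) : ℝ≥0∞ := if ω 0 = true ∧ y ∈ Nbs ω 0 then 1 else 0

theorem cpp_half {ω : Cfg d} {y : Vd d} (h : ω 0 = true ∧ y ∈ Nbs ω 0) :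
    th y ω 0 = true ∧ -y ∈ Nbs (th y ω) 0 := by
  obtain ⟨h0, i, s, k, hk, hy⟩ := h
  rw [zero_add] at hy
  subst hy
  simp only [zero_add] at hk
  refine ⟨?_, i, !s, k, ⟨⟨hk.1.1, ?_⟩, ?_⟩, ?_⟩
  · show ω (k • uv i s + 0) = true
    rw [add_zero]; exact hk.1.2
  · show ω (k • uv i s + (0 + k • uv i !s)) = true
    rw [uv_not, zero_add, smul_neg, add_neg_cancel]
    exact h0
  · rintro j ⟨hj, hj'⟩
    by_contra hcon
    rw [not_le] at hcon
    have h1 : ω (k • uv i s + (0 + j • uv i !s)) = true := hj'
    have h2 : k • uv i s + (0 + j • uv i !s) = (k - j) • uv i s := by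
      rw [uv_not, zero_add, smul_neg, ← sub_eq_add_neg, sub_nsmul _ hcon.le, sub_eq_add_neg]
    rw [h2] at h1
    have := hk.2 ⟨Nat.sub_pos_of_lt hcon, h1⟩
    omega
  · rw [uv_not, zero_add, smul_neg]

theorem cpp_symm (ω : Cfg d) (y : Vd d) : cpp ω y = cpp (th y ω) (-y) := by
  unfold cpp
  congr 1
  rw [eq_iff_iff]
  constructor
  · exact cpp_half
  · intro h
    have := cpp_half h
    rwa [th_add, add_neg_cancel, th_zero, neg_neg] at this

theorem con_cpp : Con (th (d := d)) (cpp (d := d)) where
  meas y := by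
    classical
    unfold cpp
    refine Measurable.ite ?_ measurable_const measurable_const
    have hmp : ∀ (x : Vd d) (b : Bool), Measurable (fun ω : Cfg d => ω x = b) := fun x b =>
      measurableSet_setOf.1 ((measurable_pi_apply (X := fun _ : Vd d => Bool) x)
        (measurableSet_singleton b))
    refine measurableSet_setOf.2 (Measurable.and (hmp _ _) ?_)
    refine Measurable.exists fun i => Measurable.exists fun s => Measurable.exists fun k =>
      Measurable.and ?_ measurable_const
    refine Measurable.and (Measurable.and measurable_const (hmp _ _)) ?_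
    refine Measurable.forall fun j => Measurable.imp ?_ measurable_const
    exact Measurable.and measurable_const (hmp _ _)
  symm ω y := cpp_symm ω y

theorem cpp_le_one (ω : Cfg d) (y : Vd d) : cpp ω y ≤ 1 := by unfold cpp; split_ifs <;> simp

/-- sums over the neighbours -/
theorem Rec.tsum_cpp {ω : Cfg d} (h : Rec ω) (h0 : ω 0 = true) (F : Vd d → ℝ≥0∞) :
    ∑' y, cpp ω y * F y = ∑ p, F (nb ω p) := by
  classical
  have e1 : ∀ y, cpp ω y * F y = ∑ p, if y = nb ω p then F (nb ω p) else 0 := by
    intro y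
    by_cases hy : y ∈ Nbs ω 0
    · obtain ⟨p, hp⟩ := h.mem_Nbs.1 hy
      have : cpp ω y = 1 := by unfold cpp; rw [if_pos ⟨h0, hy⟩]
      rw [this, one_mul, Finset.sum_eq_single p]
      · rw [if_pos hp, hp]
      · intro p' _ hp'
        rw [if_neg]
        intro h2
        exact hp' (h.nb_inj (h2.symm.trans hp))
      · intro h2; exact absurd (Finset.mem_univ p) h2
    · have : cpp ω y = 0 := by unfold cpp; rw [if_neg (fun h2 => hy h2.2)]
      rw [this, zero_mul]
      symm
      refine Finset.sum_eq_zero fun p _ => ?_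
      rw [if_neg]
      intro h2
      exact hy (h.mem_Nbs.2 ⟨p, h2⟩)
  simp_rw [e1]
  rw [Summable.tsum_finsetSum fun p _ => ENNReal.summable]
  refine Finset.sum_congr rfl fun p _ => ?_
  rw [tsum_ite_eq]

theorem tsum_cpp_out {ω : Cfg d} (h0 : ω 0 ≠ true) (F : Vd d → ℝ≥0∞) :
    ∑' y, cpp ω y * F y = 0 := by
  have : ∀ y, cpp ω y = 0 := fun y => by unfold cpp; rw [if_neg (fun h2 => h0 h2.1)]
  simp [this]

theorem Rec.Dg_cpp {ω : Cfg d} (h : Rec ω) (h0 : ω 0 = true) : Dg cpp ω = 2 * d := by
  have := h.tsum_cpp h0 (fun _ => 1)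
  simp only [mul_one] at this
  unfold Dg
  rw [this]
  simp [Fintype.card_prod, mul_comm]

theorem Dg_cpp_out {ω : Cfg d} (h0 : ω 0 ≠ true) : Dg cpp ω = 0 := by
  have := tsum_cpp_out h0 (fun _ => 1)
  simpa [Dg] using this

theorem sz_nb (ω : Cfg d) (p : Fin d × Bool) : sz (nb ω p) = 1 + fe ω (uv p.1 p.2) := by
  unfold sz nb
  congr 1
  rw [Finset.sum_eq_single p.1]
  · rw [smul_uv_self]
    cases p.2 <;> simp
  · intro j _ hj
    rw [smul_uv_ne hj]; rfl
  · intro h; exact absurd (Finset.mem_univ _) h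

end Pool.Agent.H979.QIP
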