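import Pool.Agent.H979.QIP.PP0

set_option autoImplicit false
set_option linter.unusedSectionVars false
set_option linter.deprecated false
set_option linter.unusedVariables false
set_option linter.style.haveILetI false

open MeasureTheory ProbabilityTheory Filter Topology Set
open scoped ENNReal NNReal

/-!
# Discrete point processes: the hypotheses of the machine
-/

namespace Pool.Agent.H979.QIP

variable {d : ℕ} {Q : Measure (Cfg d)} [IsProbabilityMeasure Q]

theorem lint_Dg (he : ∀ᵐ ω ∂Q, Rec ω) : ∫⁻ ω, Dg cpp ω ∂Q ≠ ∞ := by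
  refine ne_top_of_le_ne_top (b := 2 * d) (ENNReal.mul_ne_top (by norm_num) (by simp)) ?_
  calc ∫⁻ ω, Dg cpp ω ∂Q ≤ ∫⁻ _, 2 * d ∂Q := by
        refine lintegral_mono_ae ?_
        filter_upwards [he] with ω hω
        by_cases h0 : ω 0 = true
        · rw [hω.Dg_cpp h0]
        · rw [Dg_cpp_out h0]; exact zero_le
    _ = 2 * d := by simp

theorem lint_Vt (he : ∀ᵐ ω ∂Q, Rec ω)
    (hM : ∀ (i : Fin d) (s : Bool), ∫⁻ ω in Oc d, (fe ω (uv i s) : ℝ≥0∞) ^ 2 ∂Q ≠ ∞) :
    ∫⁻ ω, Vt cpp ω ∂Q ≠ ∞ := by
  have h1 : ∫⁻ ω, Vt cpp ω ∂Q ≤ ∑ p : Fin d × Bool,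
      4 * ∫⁻ ω in Oc d, (fe ω (uv p.1 p.2) : ℝ≥0∞) ^ 2 ∂Q := by
    have hfm : ∀ p : Fin d × Bool, Measurable (fun ω : Cfg d => (fe ω (uv p.1 p.2) : ℝ≥0∞) ^ 2) :=
      fun p => ((measurable_of_countable (fun n : ℕ => (n : ℝ≥0∞))).comp
        (measurable_fe (uv p.1 p.2))).pow_const 2
    have e1 : ∀ p : Fin d × Bool, 4 * ∫⁻ ω in Oc d, (fe ω (uv p.1 p.2) : ℝ≥0∞) ^ 2 ∂Q =
        ∫⁻ ω, (Oc d).indicator (fun ω => 4 * (fe ω (uv p.1 p.2) : ℝ≥0∞) ^ 2) ω ∂Q := by
      intro p
      rw [lintegral_indicator measurableSet_Oc, lintegral_const_mul _ (hfm p)]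
    simp_rw [e1]
    rw [← lintegral_finsetSum' _ fun p _ =>
      (((hfm p).const_mul 4).indicator measurableSet_Oc).aemeasurable]
    refine lintegral_mono_ae ?_
    filter_upwards [he] with ω hω
    by_cases h0 : ω 0 = true
    · have := hω.tsum_cpp h0 (fun y => (sz y : ℝ≥0∞) ^ 2)
      unfold Vt
      rw [this]
      refine Finset.sum_le_sum fun p _ => ?_
      rw [indicator_of_mem (show ω ∈ Oc d from h0), sz_nb]
      have h1 := (hω.spec p.1 p.2).1
      have h2 : (1 + fe ω (uv p.1 p.2)) ^ 2 ≤ 4 * (fe ω (uv p.1 p.2)) ^ 2 := by nlinarith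
      exact_mod_cast h2
    · have := tsum_cpp_out h0 (fun y => (sz y : ℝ≥0∞) ^ 2)
      unfold Vt
      rw [this]
      exact zero_le
  refine ne_top_of_le_ne_top ?_ h1
  exact (ENNReal.sum_lt_top.2 fun p _ => ENNReal.mul_lt_top (by norm_num)
    (hM p.1 p.2).lt_top).ne

theorem bt_le {ω : Cfg d} (hω : Rec ω) : bt cpp ω ^ 2 ≤ 2 * d * Vt cpp ω := by
  by_cases h0 : ω 0 = true
  · have h1 := hω.tsum_cpp h0 (fun y => (sz y : ℝ≥0∞) ^ 2)
    have h2 := hω.tsum_cpp h0 (fun y => (sz y : ℝ≥0∞))
    unfold Vt bt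
    rw [h1, h2]
    have h3 : (∑ p : Fin d × Bool, (sz (nb ω p))) ^ 2 ≤
        (2 * d) * ∑ p : Fin d × Bool, (sz (nb ω p)) ^ 2 := by
      have := sq_sum_le_card_mul_sum_sq (s := (Finset.univ : Finset (Fin d × Bool)))
        (f := fun p => sz (nb ω p))
      rw [Finset.card_univ, Fintype.card_prod, Fintype.card_fin, Fintype.card_bool, mul_comm d 2]
        at this
      exact this
    exact_mod_cast h3
  · have h1 := tsum_cpp_out h0 (fun y => (sz y : ℝ≥0∞) ^ 2)
    have h2 := tsum_cpp_out h0 (fun y => (sz y : ℝ≥0∞))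
    unfold Vt bt
    rw [h1, h2]
    simp

theorem lint_bt (he : ∀ᵐ ω ∂Q, Rec ω)
    (hM : ∀ (i : Fin d) (s : Bool), ∫⁻ ω in Oc d, (fe ω (uv i s) : ℝ≥0∞) ^ 2 ∂Q ≠ ∞) :
    ∫⁻ ω, bt cpp ω ^ 2 ∂Q ≠ ∞ := by
  have h1 : ∫⁻ ω, bt cpp ω ^ 2 ∂Q ≤ 2 * d * ∫⁻ ω, Vt cpp ω ∂Q := by
    rw [← lintegral_const_mul _ (Vt_meas con_cpp)]
    refine lintegral_mono_ae ?_
    filter_upwards [he] with ω hω
    exact bt_le hω
  exact ne_top_of_le_ne_top (ENNReal.mul_ne_top (ENNReal.mul_ne_top (by norm_num) (by simp))
    (lint_Vt he hM)) h1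

/-! ### the conductances of the good configurations -/

/-- the conductances used in the machine -/
noncomputable def cq (d : ℕ) : Cfg d → Vd d → ℝ≥0∞ := cg th cpp

theorem cq_le (ω : Cfg d) (y : Vd d) : cq d ω y ≤ cpp ω y := cg_le ω y

theorem cq_good {ω : Cfg d} (hω : ω ∈ Good th cpp) (y : Vd d) : cq d ω y = cpp ω y := cg_good hω y

theorem cq_pts {ω : Cfg d} {y : Vd d} (h : cq d ω y ≠ 0) : ω 0 = true ∧ ω y = true := by
  have h1 : cpp ω y ≠ 0 := fun h2 => h (le_antisymm ((cq_le ω y).trans h2.le) zero_le)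
  unfold cpp at h1
  by_cases h2 : ω 0 = true ∧ y ∈ Nbs ω 0
  · refine ⟨h2.1, ?_⟩
    obtain ⟨i, s, k, hk, rfl⟩ := h2.2
    exact hk.1.2
  · rw [if_neg h2] at h1; exact absurd rfl h1

theorem kp_pts (l : List (Vd d)) (ω : Cfg d) (h : kp th (cq d) ω l ≠ 0) :
    th l.sum ω ∈ Oc d ↔ ω ∈ Oc d := by
  induction l generalizing ω with
  | nil => simp [th_zero]
  | cons s l ih =>
    rw [kp] at h
    have h1 : cq d ω s ≠ 0 := fun h2 => h (by rw [h2, zero_mul, zero_mul])
    have h2 : kp th (cq d) (th s ω) l ≠ 0 := fun h2 => h (by rw [h2, mul_zero])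
    have h3 := ih (th s ω) h2
    have h4 := cq_pts h1
    rw [List.sum_cons, ← th_add, h3]
    refine ⟨fun _ => h4.1, fun _ => ?_⟩
    show ω (s + 0) = true
    rw [add_zero]; exact h4.2

theorem qr_pts {ω : Cfg d} {y : Vd d} (h : qr th (cq d) ω y ≠ 0) : th y ω ∈ Oc d ↔ ω ∈ Oc d := by
  unfold qr at h
  rw [Ne, ENNReal.tsum_eq_zero, not_forall] at h
  obtain ⟨l, hl⟩ := h
  by_cases h1 : l.sum = y
  · rw [if_pos h1] at hl
    rw [← h1]
    exact kp_pts l ω hl
  · rw [if_neg h1] at hl; exact absurd rfl hl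

theorem qr_nb (hc : RC th (cq d)) {ω : Cfg d} (hω : Rec ω) (hg : ω ∈ Good th cpp) (h0 : ω 0 = true)
    (p : Fin d × Bool) : qr th (cq d) ω (nb ω p) ≠ 0 := by
  intro h1
  have h2 := kp_single_le (τ := th) (c := cq d) ω (nb ω p)
  rw [h1] at h2
  have h3 := le_antisymm h2 zero_le
  rw [kp_single, cq_good hg] at h3
  have h4 : cpp ω (nb ω p) = 1 := by
    unfold cpp
    rw [if_pos ⟨h0, hω.mem_Nbs.2 ⟨p, rfl⟩⟩]
  rw [h4, one_mul, mul_eq_zero, ENNReal.inv_eq_zero, ENNReal.inv_eq_zero] at h3
  rcases h3 with h3 | h3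
  · exact (ENNReal.add_ne_top.2 ⟨ENNReal.one_ne_top, hc.fin _⟩) h3
  · exact (ENNReal.add_ne_top.2 ⟨ENNReal.one_ne_top, hc.fin _⟩) h3

/-- the first point at or after the origin -/
noncomputable def fi (ω : Cfg d) (e : Vd d) : ℕ := sInf {k : ℕ | ω (k • e) = true}

theorem measurable_fi (e : Vd d) : Measurable (fun ω : Cfg d => fi ω e) := by
  have : (fun ω : Cfg d => fi ω e) = fun ω => if ω 0 = true then 0 else fe ω e := by
    funext ω
    unfold fi fe
    split_ifs with h0
    · have : (0 : ℕ) ∈ {k : ℕ | ω (k • e) = true} := by simp [h0]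
      exact Nat.eq_zero_of_le_zero (Nat.sInf_le this)
    · congr 1
      ext k
      simp only [mem_setOf_eq]
      constructor
      · intro h
        refine ⟨Nat.pos_of_ne_zero ?_, h⟩
        rintro rfl
        rw [zero_smul] at h
        exact h0 h
      · exact fun h => h.2
  rw [this]
  exact Measurable.ite measurableSet_Oc measurable_const (measurable_fe e)

theorem fi_of_mem {ω : Cfg d} {e : Vd d} (h : ω 0 = true) : fi ω e = 0 := by
  have : (0 : ℕ) ∈ {k : ℕ | ω (k • e) = true} := by simp [h]
  exact Nat.eq_zero_of_le_zero (Nat.sInf_le this)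

/-- one step further: the first point strictly after the origin -/
theorem fi_step {ω : Cfg d} (i : Fin d) (hr : Rec ω) :
    fi (th (uv i true) ω) (uv i true) + 1 = fe ω (uv i true) := by
  symm
  have hn : {k : ℕ | th (uv i true) ω (k • uv i true) = true}.Nonempty := by
    obtain ⟨k, hk, hk'⟩ := hr (uv i true) i true
    exact ⟨k, hk'⟩
  have e1 : ∀ k : ℕ, th (uv i true) ω (k • uv i true) = ω ((k + 1) • uv i true) := by
    intro k
    show ω (uv i true + k • uv i true) = _
    rw [succ_nsmul, add_comm]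
  refine fe_eq (Nat.succ_pos _) ?_ ?_
  · rw [← e1]
    exact Nat.sInf_mem hn
  · intro j hj hj'
    by_contra hcon
    have h3 : ω (j • uv i true) = true := by simpa using hcon
    obtain ⟨j', rfl⟩ : ∃ j', j = j' + 1 := ⟨j - 1, by omega⟩
    rw [← e1] at h3
    have : fi (th (uv i true) ω) (uv i true) ≤ j' := Nat.sInf_le h3
    omega

theorem ergO_pp (hd : 0 < d) (h : Sta Q th) (hc : RC th (cq d))
    (he : ∀ i, Ergodic (th (Pi.single i 1)) Q) (hne : Q {ω | ∀ x, ω x = false} < 1)
    (hg : ∀ᵐ ω ∂Q, ω ∈ Good th (cpp (d := d))) : ErgO Q th (qr th (cq d)) (Oc d) where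
  meas := measurableSet_Oc
  pos := Oc_pos h hne
  inv ω y hy := qr_pts hy
  erg f hf hinv := by
    set i : Fin d := ⟨0, hd⟩
    have hr := ae_rec h he hne
    set g : Cfg d → ℝ := fun ω => f (th (fi ω (uv i true) • uv i true) ω) with hgdef
    have hgm : Measurable g := by
      have h1 : Measurable (fun p : ℕ × Cfg d => f (th (p.1 • uv i true) p.2)) :=
        measurable_from_prod_countable_right fun k => by
          show Measurable (fun ω : Cfg d => f (th (k • uv i true) ω))
          exact hf.comp (measurable_th _)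
      exact h1.comp ((measurable_fi (uv i true)).prodMk measurable_id)
    have hu : uv i true = (Pi.single i 1 : Vd d) := by simp [uv]
    have h2 : g ∘ (th (Pi.single i 1)) =ᵐ[Q] g := by
      filter_upwards [hinv, hr, hg] with ω h1 h2 h3
      show f (th (fi (th (Pi.single i 1) ω) (uv i true) • uv i true) (th (Pi.single i 1) ω)) =
        f (th (fi ω (uv i true) • uv i true) ω)
      rw [← hu, th_add]
      have e1 : uv i true + fi (th (uv i true) ω) (uv i true) • uv i true =
          (fe ω (uv i true)) • uv i true := by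
        rw [← fi_step i h2, succ_nsmul, add_comm]
      rw [e1]
      by_cases h0 : ω 0 = true
      · rw [fi_of_mem h0, zero_smul, th_zero]
        exact h1 _ (qr_nb hc h2 h3 h0 (i, true))
      · have e2 : fi ω (uv i true) = fe ω (uv i true) := by
          unfold fi fe
          congr 1
          ext k
          simp only [mem_setOf_eq]
          constructor
          · intro h
            refine ⟨Nat.pos_of_ne_zero ?_, h⟩
            rintro rfl
            rw [zero_smul] at h
            exact h0 h
          · exact fun h => h.2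
        rw [e2]
    obtain ⟨a, ha⟩ := (he i).ae_eq_const_of_ae_eq_comp₀ hgm.nullMeasurable h2
    refine ⟨a, ?_⟩
    filter_upwards [ha] with ω hω h0
    have : g ω = f ω := by
      show f (th (fi ω (uv i true) • uv i true) ω) = f ω
      rw [fi_of_mem h0, zero_smul, th_zero]
    rw [← this, hω]
    rfl

theorem add_smul_uv (x : Vd d) (i : Fin d) (k : ℕ) :
    x + k • uv i true = Function.update x i (x i + k) := by
  funext j
  by_cases hj : j = i
  · subst hj
    rw [Pi.add_apply, smul_uv_self, Function.update_self]; simp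
  · rw [Pi.add_apply, smul_uv_ne hj, Function.update_of_ne hj, add_zero]

/-- a point is determined by its successor -/
theorem nxt_inj {ω : Cfg d} (hω : Rec ω) {i : Fin d} {s : Bool} {x y : Vd d} (hx : ω x = true)
    (hy : ω y = true) (h : x + fe (th x ω) (uv i s) • uv i s = y + fe (th y ω) (uv i s) • uv i s) :
    x = y := by
  have key : ∀ {x y : Vd d}, ω x = true →
      x + fe (th x ω) (uv i s) • uv i s = y + fe (th y ω) (uv i s) • uv i s →
      ¬ fe (th x ω) (uv i s) < fe (th y ω) (uv i s) := by
    intro x y hx h hlt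
    have e1 : x = y + (fe (th y ω) (uv i s) - fe (th x ω) (uv i s)) • uv i s := by
      rw [sub_nsmul _ hlt.le]
      have := eq_sub_of_add_eq h
      exact this.trans (by abel)
    have h1 : th y ω ((fe (th y ω) (uv i s) - fe (th x ω) (uv i s)) • uv i s) = true := by
      show ω (y + _) = true
      rw [← e1]; exact hx
    have h2 := fe_le (Nat.sub_pos_of_lt hlt) h1
    have h3 := ((hω.th x).spec i s).1
    omega
  have h1 := key hx h
  have h2 := key hy h.symm
  have h3 : fe (th x ω) (uv i s) = fe (th y ω) (uv i s) := by omega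
  rw [h3] at h
  exact add_right_cancel h

theorem lines_pp {ω : Cfg d} (hω : Rec ω) (hg : ω ∈ Good th (cpp (d := d)))
    (h : Sta Q th) :
    Lines (cr th (cq d) ω) {x | th x ω ∈ Oc d} (fun i x => x + fe (th x ω) (uv i true) • uv i true) where
  line i x hx := by
    refine ⟨x i + fe (th x ω) (uv i true), ?_, add_smul_uv x i _⟩
    have := ((hω.th x).spec i true).1
    omega
  act i x hx := by
    show ω ((x + fe (th x ω) (uv i true) • uv i true) + 0) = true
    rw [add_zero]
    exact ((hω.th x).spec i true).2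
  inj i x hx y hy hxy := by
    have h1 : ω (x + 0) = true := hx
    have h2 : ω (y + 0) = true := hy
    rw [add_zero] at h1 h2
    exact nxt_inj hω h1 h2 hxy
  cond i x hx := by
    unfold cr
    have h1 : th x ω ∈ Good th cpp := (good_inv h x ω).2 hg
    rw [cq_good h1, add_sub_cancel_left]
    have h2 : cpp (th x ω) (fe (th x ω) (uv i true) • uv i true) = 1 := by
      unfold cpp
      rw [if_pos ⟨hx, (hω.th x).mem_Nbs.2 ⟨(i, true), rfl⟩⟩]
    rw [h2, ENNReal.toReal_one]

theorem lint_nb (h : Sta Q th) (hr : ∀ᵐ ω ∂Q, Rec ω) (i : Fin d) {g : Cfg d → ℝ≥0∞}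
    (hg : Measurable g) :
    ∫⁻ ω in Oc d, g (th (nb ω (i, true)) ω) ∂Q = ∫⁻ ω in Oc d, g ω ∂Q := by
  classical
  have hNm : Measurable (fun ω : Cfg d => nb ω (i, true)) := by
    unfold nb
    exact (measurable_of_countable (fun k : ℕ => k • uv i true)).comp (measurable_fe (uv i true))
  set F : Cfg d → Vd d → ℝ≥0∞ := fun ω y => (Oc d).indicator (fun _ => 1) ω *
    ((if nb ω (i, true) = y then 1 else 0) * g (th y ω)) with hF
  have hFm : ∀ y, Measurable (fun ω => F ω y) := by
    intro y
    refine (measurable_const.indicator measurableSet_Oc).mul (Measurable.mul ?_ ?_)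
    · exact Measurable.ite (hNm (measurableSet_singleton y)) measurable_const measurable_const
    · exact hg.comp (measurable_th y)
  have h1 := h.mtp hFm
  have e1 : ∫⁻ ω, ∑' y, F ω y ∂Q = ∫⁻ ω in Oc d, g (th (nb ω (i, true)) ω) ∂Q := by
    rw [← lintegral_indicator measurableSet_Oc]
    refine lintegral_congr fun ω => ?_
    rw [tsum_eq_single (nb ω (i, true))]
    · simp only [hF, if_true, one_mul]
      by_cases h0 : ω ∈ Oc d
      · rw [indicator_of_mem h0, indicator_of_mem h0, one_mul]
      · rw [indicator_of_notMem h0, indicator_of_notMem h0, zero_mul]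
    · intro y hy
      simp only [hF, if_neg (Ne.symm hy), zero_mul, mul_zero]
  have e2 : ∫⁻ ω, ∑' y, F (th y ω) (-y) ∂Q = ∫⁻ ω in Oc d, g ω ∂Q := by
    rw [← lintegral_indicator measurableSet_Oc]
    refine lintegral_congr_ae ?_
    filter_upwards [hr] with ω hω
    by_cases h0 : ω ∈ Oc d
    · rw [indicator_of_mem h0]
      set y0 : Vd d := fe ω (uv i false) • uv i false with hy0
      have hy0t : ω y0 = true := (hω.spec i false).2
      have hn0 : nb (th y0 ω) (i, true) = -y0 := by
        have h3 : fe (th y0 ω) (uv i true) = fe ω (uv i false) := by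
          refine fe_eq (hω.spec i false).1 ?_ ?_
          · show ω (y0 + fe ω (uv i false) • uv i true) = true
            have : uv i true = -uv i false := by simp [uv]
            rw [this, smul_neg, add_neg_cancel]
            exact h0
          · intro j hj hj'
            by_contra hcon
            have h4 : ω (y0 + j • uv i true) = true := by simpa [th] using hcon
            have h5 : y0 + j • uv i true = (fe ω (uv i false) - j) • uv i false := by
              have : uv i true = -uv i false := by simp [uv]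
              rw [this, smul_neg, sub_nsmul _ hj'.le, ← sub_eq_add_neg]
            rw [h5] at h4
            have := fe_le (Nat.sub_pos_of_lt hj') h4
            omega
        unfold nb
        simp only [h3]
        have : uv i true = -uv i false := by simp [uv]
        rw [this, smul_neg]
      rw [tsum_eq_single y0]
      · have h6 : th y0 ω ∈ Oc d := by
          show ω (y0 + 0) = true
          rw [add_zero]; exact hy0t
        simp only [hF]
        rw [indicator_of_mem h6, if_pos hn0, one_mul, one_mul, th_add, add_neg_cancel, th_zero]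
      · intro y hy
        simp only [hF]
        by_cases h6 : th y ω ∈ Oc d
        · by_cases h7 : nb (th y ω) (i, true) = -y
          · exfalso
            apply hy
            have h8 : ω y = true := by
              have : ω (y + 0) = true := h6
              rwa [add_zero] at this
            refine nxt_inj hω (i := i) (s := true) h8 hy0t ?_
            have h9 : y + nb (th y ω) (i, true) = y0 + nb (th y0 ω) (i, true) := by
              rw [h7, hn0]; simp
            exact h9
          · rw [if_neg h7, zero_mul, mul_zero]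
        · rw [indicator_of_notMem h6, zero_mul]
    · rw [indicator_of_notMem h0]
      rw [ENNReal.tsum_eq_zero]
      intro y
      simp only [hF]
      by_cases h7 : nb (th y ω) (i, true) = -y
      · exfalso
        apply h0
        have h8 := ((hω.th y).spec i true).2
        have h9 : fe (th y ω) (uv i true) • uv i true = -y := h7
        rw [h9] at h8
        have : ω (y + -y) = true := h8
        rw [add_neg_cancel] at this
        exact this
      · rw [if_neg h7, zero_mul, mul_zero]
  rw [← e1, ← h1, e2]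

theorem mp_nb (h : Sta Q th) (hr : ∀ᵐ ω ∂Q, Rec ω) (i : Fin d) :
    MeasurePreserving (fun ω => th (nb ω (i, true)) ω) (Q.restrict (Oc d)) (Q.restrict (Oc d)) := by
  have hNm : Measurable (fun ω : Cfg d => nb ω (i, true)) := by
    unfold nb
    exact (measurable_of_countable (fun k : ℕ => k • uv i true)).comp (measurable_fe (uv i true))
  have hm : Measurable (fun ω : Cfg d => th (nb ω (i, true)) ω) := by
    have h1 : Measurable (fun p : Vd d × Cfg d => th p.1 p.2) :=
      measurable_from_prod_countable_right fun k => measurable_th _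
    exact h1.comp (hNm.prodMk measurable_id)
  refine ⟨hm, ?_⟩
  ext A hA
  rw [Measure.map_apply hm hA]
  have h1 := lint_nb h hr i (g := A.indicator 1) (measurable_one.indicator hA)
  have e1 : ∀ ω : Cfg d, A.indicator (1 : Cfg d → ℝ≥0∞) (th (nb ω (i, true)) ω) =
      ((fun ω => th (nb ω (i, true)) ω) ⁻¹' A).indicator 1 ω := fun ω => rfl
  simp_rw [e1] at h1
  rw [lintegral_indicator_one (hm hA), lintegral_indicator_one hA] at h1
  exact h1

end Pool.Agent.H979.QIP
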