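import Pool.Agent.H979.QIP.PP1

set_option autoImplicit false
set_option linter.unusedSectionVars false
set_option linter.deprecated false
set_option linter.unusedVariables false
set_option linter.style.haveILetI false

open MeasureTheory ProbabilityTheory Filter Topology Set
open scoped ENNReal NNReal

/-!
# Discrete point processes: convergence of the interpolated walk
-/

namespace Pool.Agent.H979.QIP

variable {d : ℕ} {Q : Measure (Cfg d)} [IsProbabilityMeasure Q]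

open Classical in
theorem jwt_pp (h : Sta Q th) {ω : Cfg d} (hω : Rec ω) (hg : ω ∈ Good th (cpp (d := d)))
    (h0 : ω 0 = true) {N : ℕ} (z : Fin (N + 1) → Vd d) :
    jwt th (cq d) ω z = (if z 0 = 0 then 1 else 0) *
      ∏ i : Fin N, (if z i.succ ∈ Nbs ω (z i.castSucc) then (1 : ℝ≥0∞) / (2 * d) else 0) := by
  have e1 : jwt th (cq d) ω z = jwt th cpp ω z := jwt_good h hg z
  rw [e1]
  unfold jwt
  by_cases hz : z 0 = 0
  swap
  · rw [if_neg hz, zero_mul, zero_mul]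
  rw [if_pos hz, one_mul, one_mul]
  by_cases hS : ∀ i : Fin N, z i.succ ∈ Nbs ω (z i.castSucc)
  · have hpt : ∀ (k : ℕ) (hk : k < N + 1), ω (z ⟨k, hk⟩) = true := by
      intro k
      induction k with
      | zero =>
        intro hk
        have : (⟨0, hk⟩ : Fin (N + 1)) = 0 := rfl
        rw [this, hz]; exact h0
      | succ k ih =>
        intro hk
        obtain ⟨i, s, m, hm, hm'⟩ := hS ⟨k, by omega⟩
        have h2 : z ⟨k + 1, hk⟩ = z (Fin.succ ⟨k, by omega⟩) := rfl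
        rw [h2, hm']
        exact hm.1.2
    refine Finset.prod_congr rfl fun i _ => ?_
    rw [if_pos (hS i)]
    have h3 : ω (z i.castSucc) = true := hpt i.1 (by omega)
    have h4 : th (z i.castSucc) ω 0 = true := by
      show ω (z i.castSucc + 0) = true
      rw [add_zero]; exact h3
    rw [(hω.th _).Dg_cpp h4]
    have h5 : cpp (th (z i.castSucc) ω) (z i.succ - z i.castSucc) = 1 := by
      unfold cpp
      rw [if_pos ⟨h4, mem_Nbs_shift.2 (hS i)⟩]
    rw [h5]
  · rw [not_forall] at hS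
    obtain ⟨i, hi⟩ := hS
    rw [Finset.prod_eq_zero (Finset.mem_univ i), Finset.prod_eq_zero (Finset.mem_univ i)]
    · rw [if_neg hi]
    · have h5 : cpp (th (z i.castSucc) ω) (z i.succ - z i.castSucc) = 0 := by
        unfold cpp
        rw [if_neg (fun h6 => hi (mem_Nbs_shift.1 h6.2))]
      rw [h5, ENNReal.zero_div]

theorem IsWalk.fin_law {ω : Cfg d} {Ξ : Type} [MeasurableSpace Ξ] {Pw : Measure Ξ}
    {X : ℕ → Ξ → (Fin d → ℤ)} (hX : IsWalk ω Pw X) (h : Sta Q th) (hω : Rec ω)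
    (hg : ω ∈ Good th (cpp (d := d))) (h0 : ω 0 = true) {N : ℕ} (z : Fin (N + 1) → Vd d) :
    Pw {ξ | (fun j : Fin (N + 1) => X j ξ) = z} = jwt th (cq d) ω z := by
  classical
  rw [jwt_pp h hω hg h0]
  have h1 := hX.2 N (fun k => if hk : k < N + 1 then z ⟨k, hk⟩ else 0)
  have e1 : {ξ | ∀ k ≤ N, X k ξ = (fun k => if hk : k < N + 1 then z ⟨k, hk⟩ else 0) k} =
      {ξ | (fun j : Fin (N + 1) => X j ξ) = z} := by
    ext ξ
    simp only [mem_setOf_eq]
    constructor
    · intro h2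
      funext j
      have := h2 j.1 (by omega)
      rw [dif_pos j.2] at this
      exact this
    · intro h2 k hk
      rw [dif_pos (show k < N + 1 by omega), ← h2]
  rw [e1] at h1
  rw [h1]
  have e4 : (if hk : 0 < N + 1 then z ⟨0, hk⟩ else 0) = z 0 := by rw [dif_pos (Nat.succ_pos _)]; rfl
  refine congrArg₂ (fun a b : ℝ≥0∞ => a * b) ?_ ?_
  · simp only [e4]
  · rw [Finset.prod_range]
    refine Finset.prod_congr rfl fun i _ => ?_
    have e2 : (if hk : (i : ℕ) < N + 1 then z ⟨i, hk⟩ else 0) = z i.castSucc := by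
      rw [dif_pos (by omega)]; rfl
    have e3 : (if hk : (i : ℕ) + 1 < N + 1 then z ⟨i + 1, hk⟩ else 0) = z i.succ := by
      rw [dif_pos (by omega)]; rfl
    simp only [e2, e3]

/-- expectations of functionals of the walk -/
theorem IsWalk.integral_fin {ω : Cfg d} {Ξ : Type} [MeasurableSpace Ξ] {Pw : Measure Ξ}
    [IsProbabilityMeasure Pw] {X : ℕ → Ξ → (Fin d → ℤ)} (hX : IsWalk ω Pw X) (h : Sta Q th)
    (hω : Rec ω) (hg : ω ∈ Good th (cpp (d := d))) (h0 : ω 0 = true) {N : ℕ}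
    (Φ : (Fin (N + 1) → Vd d) → ℝ) (hb : ∃ C : ℝ, ∀ z, |Φ z| ≤ C) :
    ∫ ξ, Φ (fun j : Fin (N + 1) => X j ξ) ∂Pw = ∑' z, (jwt th (cq d) ω z).toReal * Φ z := by
  obtain ⟨C, hC⟩ := hb
  have hm : Measurable (fun ξ => (fun j : Fin (N + 1) => X j ξ)) :=
    measurable_pi_lambda _ fun j => hX.1 _
  have hΦ : Measurable Φ := measurable_of_countable _
  rw [← integral_map hm.aemeasurable hΦ.aestronglyMeasurable]
  haveI : IsProbabilityMeasure (Pw.map (fun ξ => (fun j : Fin (N + 1) => X j ξ))) :=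
    Measure.isProbabilityMeasure_map hm.aemeasurable
  have hi : Integrable Φ (Pw.map (fun ξ => (fun j : Fin (N + 1) => X j ξ))) :=
    Integrable.of_bound hΦ.aestronglyMeasurable C (Eventually.of_forall fun z => by
      rw [Real.norm_eq_abs]; exact hC z)
  rw [integral_countable' hi]
  refine tsum_congr fun z => ?_
  rw [smul_eq_mul]
  congr 1
  rw [Measure.real, Measure.map_apply hm (measurableSet_singleton z)]
  congr 1
  exact hX.fin_law h hω hg h0 z

theorem pp_main (hd : 2 ≤ d) (he : ∀ i, Ergodic (th (Pi.single i 1)) Q)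
    (hne : Q {ω | ∀ x, ω x = false} < 1)
    (hM : ∀ (i : Fin d) (s : Bool), ∫⁻ ω in Oc d, (fe ω (uv i s) : ℝ≥0∞) ^ 2 ∂Q ≠ ∞) :
    ∃ (S : Matrix (Fin d) (Fin d) ℝ), S.PosDef ∧
    ∃ (Ω' : Type) (mΩ' : MeasurableSpace Ω') (P' : Measure Ω'), IsProbabilityMeasure P' ∧
    ∃ W : ℝ → Ω' → (Fin d → ℝ),
      (∀ t, Measurable (W t)) ∧ (∀ ω', Continuous (fun t => W t ω')) ∧
      (∀ (k : ℕ) (t : Fin k → ℝ) (u : Fin k → Fin d → ℝ), (∀ j, 0 ≤ t j) →
        ∫ ω', Complex.exp (Complex.I * ((∑ j, ∑ a, u j a * W (t j) ω' a : ℝ) : ℂ)) ∂P' =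
          Complex.exp (-((∑ j, ∑ l, min (t j) (t l) *
              (∑ a, ∑ b, u j a * S a b * u l b) : ℝ) : ℂ) / 2)) ∧
      ∀ᵐ ω ∂Q, ω ∈ Oc d → ∀ (Ξ : Type) (mΞ : MeasurableSpace Ξ) (Pw : Measure Ξ)
        (X : ℕ → Ξ → (Fin d → ℤ)), IsProbabilityMeasure Pw → IsWalk ω Pw X →
        ∀ T : ℝ, 0 < T →
        ∀ F : UniformFun (Icc (0 : ℝ) T) (Fin d → ℝ) → ℝ, Continuous F → (∃ C : ℝ, ∀ f, |F f| ≤ C) →
        Tendsto (fun n : ℕ => ∫ ξ, F (UniformFun.ofFun (pth T n
          (fun j : Fin (⌊T * n⌋₊ + 1 + 1) => X j ξ))) ∂Pw) atTop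
          (𝓝 (∫ ω', F (UniformFun.ofFun (fun t : Icc (0 : ℝ) T => W t.1 ω')) ∂P')) := by
  classical
  have h : Sta Q th := sta_th fun i => (he i).toMeasurePreserving
  have hr := ae_rec h he hne
  have hD0 := lint_Dg hr
  have hV0 := lint_Vt hr hM
  have hb0 := lint_bt hr hM
  have hc : RC th (cq d) := rc_cg h con_cpp
  have hD : ∫⁻ η, Dg (cq d) η ∂Q ≠ ∞ := ne_top_of_le_ne_top hD0
    (lintegral_mono fun η => ENNReal.tsum_le_tsum fun y => cq_le η y)
  have hV : ∫⁻ η, Vt (cq d) η ∂Q ≠ ∞ := ne_top_of_le_ne_top hV0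
    (lintegral_mono fun η => ENNReal.tsum_le_tsum fun y => mul_le_mul' (cq_le η y) le_rfl)
  have hb : ∫⁻ η, bt (cq d) η ^ 2 ∂Q ≠ ∞ := ne_top_of_le_ne_top hb0
    (lintegral_mono fun η => pow_le_pow_left₀ zero_le
      (ENNReal.tsum_le_tsum fun y => mul_le_mul' (cq_le η y) le_rfl) 2)
  have hgood : ∀ᵐ η ∂Q, η ∈ Good th cpp := good_ae h con_cpp hD0
  have hO := ergO_pp (by omega) h hc he hne hgood
  have hL : ∀ᵐ ω ∂Q, ω ∈ Oc d → ∃ nx, Lines (cr th (cq d) ω) {x | th x ω ∈ Oc d} nx := by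
    filter_upwards [hr, hgood] with ω h1 h2 _
    exact ⟨_, lines_pp h1 h2 h⟩
  obtain ⟨G, a, ha, hGm, hG2, hGφ, hQn⟩ := ae_qn h hc hO hd hD hV hb hL
  have hu : ∀ i : Fin d, uv i true = (Pi.single i 1 : Vd d) := fun i => by simp [uv]
  have hpd := posdef h hc measurableSet_Oc (Oc_pos h hne) hb hGm hG2 hGφ
    (fun i ω => nb ω (i, true))
    (fun i => (measurable_of_countable (fun k : ℕ => k • uv i true)).comp
      (measurable_fe (uv i true)))
    (fun i => by
      filter_upwards [hr] with ω hω _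
      refine ⟨fe ω (uv i true), by exact_mod_cast (hω.spec i true).1, ?_⟩
      unfold nb
      funext j
      by_cases hj : j = i
      · subst hj; rw [smul_uv_self]; simp
      · rw [smul_uv_ne hj]; simp [hj])
    (fun i => by
      filter_upwards [hr, hgood] with ω hω hg h0
      rw [cq_good hg]
      unfold cpp
      rw [if_pos ⟨h0, hω.mem_Nbs.2 ⟨(i, true), rfl⟩⟩])
    (fun i => mp_nb h hr i)
  set C : Fin d → Fin d → ℝ := fun i j => cov Q th (qr th (cq d)) (Oc d) (G i) (G j) with hC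
  set S : Matrix (Fin d) (Fin d) ℝ := Matrix.of (fun i j => C i j / a) with hS
  have hSpd : S.PosDef := by
    have e1 : S = (1 / a) • (Matrix.of (fun i j => C i j)) := by
      ext i j
      simp only [hS, Matrix.of_apply, Matrix.smul_apply, smul_eq_mul]
      ring
    rw [e1]
    exact hpd.smul (by positivity)
  obtain ⟨Ω', mΩ', P', hP', W, hWm, hWc, hW⟩ := exists_BM hSpd.posSemidef
  refine ⟨S, hSpd, Ω', mΩ', P', hP', W, hWm, hWc, hW, ?_⟩
  filter_upwards [hQn, hgood, hr] with η h1 h2 h3 h0 Ξ mΞ Pw X hPw hX T hT F hF hFb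
  have h4 := (h1 h0).jump_conv ha P' W hWm hWc (fun k t u ht => hW k t u ht) hT F hF hFb
  refine h4.congr fun n => ?_
  obtain ⟨C, hC⟩ := hFb
  exact (hX.integral_fin h h3 h2 h0 (fun z => F (UniformFun.ofFun (pth T n z)))
    ⟨C, fun z => hC _⟩).symm

end Pool.Agent.H979.QIP
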