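import Pool.Agent.H979.QIP.PP2

set_option autoImplicit false
set_option linter.unusedSectionVars false
set_option linter.deprecated false
set_option linter.unusedVariables false
set_option linter.style.haveILetI false

open MeasureTheory ProbabilityTheory Filter Topology Set
open scoped ENNReal NNReal

/-!
# Discrete point processes: existence of the walk, conditioning
-/

namespace Pool.Agent.H979.QIP

variable {d : ℕ}

/-- the transition law of the walk -/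
noncomputable def qw (ω : Cfg d) (v : Vd d) : Measure (Vd d) :=
  ∑ p : Fin d × Bool, ((1 : ℝ≥0∞) / (2 * d)) • Measure.dirac (v + nb (th v ω) p)

theorem qw_prob (hd : 0 < d) (ω : Cfg d) (v : Vd d) : IsProbabilityMeasure (qw ω v) := by
  refine ⟨?_⟩
  unfold qw
  simp only [Measure.coe_finsetSum, Finset.sum_apply, Measure.smul_apply, measure_univ, smul_eq_mul,
    mul_one, Finset.sum_const, Finset.card_univ, Fintype.card_prod, Fintype.card_fin,
    Fintype.card_bool, nsmul_eq_mul]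
  push_cast
  rw [mul_comm (d : ℝ≥0∞) 2, one_div]
  exact ENNReal.mul_inv_cancel (by simp; omega) (ENNReal.mul_ne_top (by norm_num) (by simp))

open Classical in
theorem qw_apply {ω : Cfg d} (hω : Rec ω) (v u : Vd d) :
    qw ω v {u} = if u ∈ Nbs ω v then (1 : ℝ≥0∞) / (2 * d) else 0 := by
  unfold qw
  simp only [Measure.coe_finsetSum, Finset.sum_apply, Measure.smul_apply, smul_eq_mul]
  have e1 : ∀ p : Fin d × Bool, Measure.dirac (v + nb (th v ω) p) {u} =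
      if u = v + nb (th v ω) p then (1 : ℝ≥0∞) else 0 := by
    intro p
    rw [Measure.dirac_apply' _ (measurableSet_singleton u)]
    by_cases h : u = v + nb (th v ω) p
    · simp [h]
    · rw [if_neg h, indicator_of_notMem (fun h2 => h (mem_singleton_iff.1 h2).symm)]
  simp_rw [e1]
  split_ifs with h
  · obtain ⟨p, hp⟩ := (hω.th v).mem_Nbs.1 (mem_Nbs_shift.2 h)
    have hp' : u = v + nb (th v ω) p := by rw [← hp]; abel
    rw [Finset.sum_eq_single p, if_pos hp', mul_one]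
    · intro p' _ hpp
      rw [if_neg, mul_zero]
      intro h2
      exact hpp ((hω.th v).nb_inj (add_left_cancel (h2.symm.trans hp')))
    · intro h2; exact absurd (Finset.mem_univ p) h2
  · refine Finset.sum_eq_zero fun p _ => ?_
    rw [if_neg, mul_zero]
    intro h2
    apply h
    rw [← mem_Nbs_shift]
    exact (hω.th v).mem_Nbs.2 ⟨p, by rw [h2]; abel⟩

/-- the walk exists -/
theorem exists_walk (hd : 0 < d) {ω : Cfg d} (hω : Rec ω) :
    ∃ (Ξ : Type) (mΞ : MeasurableSpace Ξ) (Pw : Measure Ξ) (X : ℕ → Ξ → (Fin d → ℤ)),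
      IsProbabilityMeasure Pw ∧ IsWalk ω Pw X := by
  haveI := qw_prob hd ω
  refine ⟨ℕ → Vd d, inferInstance, P (qw ω) 0, fun k w => w k, inferInstance,
    fun k => measurable_pi_apply k, fun m x => ?_⟩
  rw [P_cyl]
  split_ifs with h
  · rw [one_mul, wt]
    exact Finset.prod_congr rfl fun k _ => qw_apply hω _ _
  · rw [zero_mul]

theorem cond_restrict {Q : Measure (Cfg d)} [IsProbabilityMeasure Q] {g : Cfg d → ℝ≥0∞}
    (hg : ∫⁻ ω, g ω ∂(cond Q (Oc d)) ≠ ∞) : ∫⁻ ω in Oc d, g ω ∂Q ≠ ∞ := by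
  intro h
  apply hg
  rw [ProbabilityTheory.cond, lintegral_smul_measure, h, smul_eq_mul]
  exact ENNReal.mul_top (ENNReal.inv_ne_zero.2 (measure_ne_top _ _))

theorem ae_cond_of {Q : Measure (Cfg d)} {p : Cfg d → Prop} (hp : ∀ᵐ ω ∂Q, ω ∈ Oc d → p ω) :
    ∀ᵐ ω ∂(cond Q (Oc d)), p ω := by
  rw [ProbabilityTheory.cond]
  exact Measure.ae_smul_measure ((ae_restrict_iff' measurableSet_Oc).2 hp) _

theorem rpow_mono_nat {p : ℝ} (hp : 2 ≤ p) (n : ℕ) : (n : ℝ≥0∞) ^ 2 ≤ (n : ℝ≥0∞) ^ p := by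
  rcases Nat.eq_zero_or_pos n with h | h
  · subst h; simp
  · have h1 : (1 : ℝ≥0∞) ≤ n := by exact_mod_cast h
    calc (n : ℝ≥0∞) ^ 2 = (n : ℝ≥0∞) ^ (2 : ℝ) := by rw [← ENNReal.rpow_natCast]; norm_num
      _ ≤ _ := ENNReal.rpow_le_rpow_of_exponent_le h1 hp

theorem skor (hd : 2 ≤ d) {Q : Measure (Cfg d)} [IsProbabilityMeasure Q]
    (he : ∀ i, Ergodic (th (Pi.single i 1)) Q)
    (hne : Q {ω | ∀ x, ω x = false} < 1) {p : ℝ} (hp : 2 ≤ p)
    (hM : ∀ (i : Fin d) (s : Bool), ∫⁻ ω, (fe ω (uv i s) : ℝ≥0∞) ^ p ∂(cond Q (Oc d)) ≠ ∞) :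
    ∃ (S : Matrix (Fin d) (Fin d) ℝ), S.PosDef ∧
    ∃ (Ω' : Type) (mΩ' : MeasurableSpace Ω') (P' : Measure Ω'), IsProbabilityMeasure P' ∧
    ∃ (W : ℝ → Ω' → (Fin d → ℝ)) (hWc : ∀ ω', Continuous (fun t => W t ω')),
      (∀ t, Measurable (W t)) ∧
      (∀ (k : ℕ) (t : Fin k → ℝ) (u : Fin k → Fin d → ℝ), (∀ j, 0 ≤ t j) →
        ∫ ω', Complex.exp (Complex.I * ((∑ j, ∑ a, u j a * W (t j) ω' a : ℝ) : ℂ)) ∂P' =
          Complex.exp (-((∑ j, ∑ l, min (t j) (t l) *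
              (∑ a, ∑ b, u j a * S a b * u l b) : ℝ) : ℂ) / 2)) ∧
      ∀ᵐ ω ∂(cond Q (Oc d)),
        (∃ (Ξ : Type) (mΞ : MeasurableSpace Ξ) (Pw : Measure Ξ) (X : ℕ → Ξ → (Fin d → ℤ)),
          IsProbabilityMeasure Pw ∧ IsWalk ω Pw X) ∧
        ∀ (Ξ : Type) (mΞ : MeasurableSpace Ξ) (Pw : Measure Ξ)
          (X : ℕ → Ξ → (Fin d → ℤ)), IsProbabilityMeasure Pw → IsWalk ω Pw X →
        (∀ f : Sk d → ℝ, Continuous f → (∃ C : ℝ, ∀ x, |f x| ≤ C) →
          Tendsto (fun n : ℕ => ∫ ξ, f (spath n (fun k => X k ξ)) ∂Pw) atTop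
            (𝓝 (∫ ω', f (wpath (fun t => W t ω') (hWc ω')) ∂P'))) ∧
        (∀ g : (Fin d → ℝ) → ℝ, Continuous g → (∃ C : ℝ, ∀ x, |g x| ≤ C) →
          Tendsto (fun n : ℕ => ∫ ξ, g (fun i => (X n ξ i : ℝ) / √(n : ℝ)) ∂Pw) atTop
            (𝓝 (∫ ω', g (W 1 ω') ∂P'))) := by
  have hM2 : ∀ (i : Fin d) (s : Bool), ∫⁻ ω in Oc d, (fe ω (uv i s) : ℝ≥0∞) ^ 2 ∂Q ≠ ∞ := by
    intro i s
    refine ne_top_of_le_ne_top (cond_restrict (hM i s)) (lintegral_mono fun ω => ?_)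
    exact rpow_mono_nat hp _
  obtain ⟨S, hS, Ω', mΩ', P', hP', W, hWm, hWc, hW, hconv⟩ := pp_main hd he hne hM2
  have h : Sta Q th := sta_th fun i => (he i).toMeasurePreserving
  have hr := ae_rec h he hne
  refine ⟨S, hS, Ω', mΩ', P', hP', W, hWc, hWm, hW, ae_cond_of ?_⟩
  filter_upwards [hconv, hr] with ω h1 h2 h0
  refine ⟨exists_walk (by omega) h2, fun Ξ mΞ Pw X hPw hX => ⟨fun f hf hb => ?_, fun g hg hb => ?_⟩⟩
  · exact sk_conv Pw X hX.1 P' W hWm hWc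
      (fun T hT F hF hFb => h1 h0 Ξ mΞ Pw X hPw hX T hT F hF hFb) f hf hb
  · set e : Icc (0 : ℝ) 1 := ⟨1, by norm_num, le_rfl⟩ with hedef
    have h3 := h1 h0 Ξ mΞ Pw X hPw hX 1 one_pos (fun φ => g (UniformFun.toFun φ e))
      (hg.comp (UniformFun.uniformContinuous_eval (β := Fin d → ℝ) e).continuous)
      (by obtain ⟨C, hC⟩ := hb; exact ⟨C, fun φ => hC _⟩)
    refine h3.congr' ?_
    filter_upwards [eventually_ge_atTop 1] with n hn
    refine integral_congr_ae (Eventually.of_forall fun ξ => ?_)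
    simp only
    congr 1
    funext i
    have hn0 : (n : ℝ) ≠ 0 := by positivity
    exact pth_grid hn (fun k => X k ξ) (k := n) (T := 1) (by rw [one_mul]) e
      (by rw [div_self hn0]) i

end Pool.Agent.H979.QIP
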