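import Mathlib

set_option autoImplicit false
set_option linter.unusedSectionVars false
set_option linter.deprecated false
set_option linter.unusedVariables false
set_option linter.style.haveILetI false

open MeasureTheory ProbabilityTheory Filter Topology Set
open scoped ENNReal NNReal

/-!
# Random walks on discrete point processes: the definitions
-/

namespace Pool.Agent.H979.QIP

variable {d : ℕ}

/-- configurations of points -/
abbrev Cfg (d : ℕ) : Type := (Fin d → ℤ) → Bool

/-- the shifts -/
def th (x : Fin d → ℤ) (ω : Cfg d) : Cfg d := fun y => ω (x + y)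

/-- the unit vectors `e_i` (for `s = true`) and `-e_i` (for `s = false`) -/
def uv (i : Fin d) (s : Bool) : Fin d → ℤ := if s then Pi.single i 1 else -Pi.single i 1

/-- configurations with a point at the origin -/
def Oc (d : ℕ) : Set (Cfg d) := {ω | ω 0 = true}

/-- the distance from the origin to the first point in the direction `e` -/
noncomputable def fe (ω : Cfg d) (e : Fin d → ℤ) : ℕ := sInf {k : ℕ | 0 < k ∧ ω (k • e) = true}

/-- the coordinate nearest points of `v` -/
def Nbs (ω : Cfg d) (v : Fin d → ℤ) : Set (Fin d → ℤ) :=
  {u | ∃ (i : Fin d) (s : Bool) (k : ℕ), IsLeast {k : ℕ | 0 < k ∧ ω (v + k • uv i s) = true} k ∧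
    u = v + k • uv i s}

open Classical in
/-- `X` is the random walk on the points of `ω`: it starts at the origin and jumps from each vertex
to each of its `2 d` coordinate nearest points with probability `1 / (2 d)`, that is, its finite
paths have the probabilities of this Markov chain -/
def IsWalk (ω : Cfg d) {Ξ : Type} [MeasurableSpace Ξ] (Pw : Measure Ξ) (X : ℕ → Ξ → (Fin d → ℤ)) :
    Prop :=
  (∀ k, Measurable (X k)) ∧ ∀ (m : ℕ) (x : ℕ → (Fin d → ℤ)),
    Pw {ξ | ∀ k ≤ m, X k ξ = x k} =
      (if x 0 = 0 then 1 else 0) * ∏ k ∈ Finset.range m,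
        (if x (k + 1) ∈ Nbs ω (x k) then (1 : ℝ≥0∞) / (2 * d) else 0)

end Pool.Agent.H979.QIP
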