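import Pool.Agent.H979.QIP.QAvg
import Pool.Agent.H979.QIP.CLT

set_option autoImplicit false
set_option linter.unusedSectionVars false
set_option linter.deprecated false
set_option linter.unusedVariables false
set_option linter.style.haveILetI false

open MeasureTheory ProbabilityTheory Filter Topology Set
open scoped ENNReal NNReal InnerProductSpace

/-!
# Quenched averages along the path: the theorem
-/

namespace Pool.Agent.H979.QIP

variable {Ω : Type*} [MeasurableSpace Ω] {d : ℕ} {μ : Measure Ω} {τ : Vd d → Ω → Ω}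
  {q : Ω → Vd d → ℝ≥0∞}

theorem qM_shift (h : Sta μ τ) (ω : Ω) (x : Vd d) :
    qM τ q ω x = (qM τ q (τ x ω) 0).map (fun y => x + y) := by
  ext B hB
  rw [Measure.map_apply (measurable_of_countable _) hB, qM_set, qM_set]
  simp only [h.zero, zero_add]
  rfl

theorem integral_qM (h : Sta μ τ) (ω : Ω) (x : Vd d) (f : Vd d → ℝ) :
    ∫ y, f y ∂(qM τ q ω x) = ∫ y, f (x + y) ∂(qM τ q (τ x ω) 0) := by
  rw [qM_shift h, integral_map (measurable_of_countable _).aemeasurable
    (measurable_of_countable _).aestronglyMeasurable]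

theorem integral_qM_Qr (h : Sta μ τ) (ω : Ω) (x : Vd d) (f : Ω → ℝ) :
    ∫ y, f (τ y ω) ∂(qM τ q ω x) = Qr τ q f (τ x ω) := by
  rw [integral_qM h ω x (fun y => f (τ y ω))]
  unfold Qr
  refine integral_congr_ae (Eventually.of_forall fun y => ?_)
  simp only
  rw [h.add]

/-- quenched convergence in mean of the averages along the path -/
def QA (τ : Vd d → Ω → Ω) (q : Ω → Vd d → ℝ≥0∞) (hq : Ker τ q) (ω : Ω) (g : Ω → ℝ) (c : ℝ) :
    Prop :=
  haveI := qM_prob hq ω
  Tendsto (fun n : ℕ => ∫⁻ w, ENNReal.ofReal |(∑ k ∈ Finset.range n, g (τ (w k) ω)) / n - c|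
    ∂(P (qM τ q ω) 0)) atTop (𝓝 0)

/-- averages of coboundaries -/
theorem cob_avg (h : Sta μ τ) (hq : Ker τ q) (ω : Ω) {f : Ω → ℝ} {F : ℝ}
    (hb : ∀ ω, |f ω| ≤ F) (n : ℕ) :
    haveI := qM_prob hq ω
    ∫⁻ w, ENNReal.ofReal |∑ k ∈ Finset.range n, (f (τ (w k) ω) - Qr τ q f (τ (w k) ω))|
      ∂(P (qM τ q ω) 0) ≤ ENNReal.ofReal (2 * F + 2 * F * √n) := by
  haveI := qM_prob hq ω
  have hF : 0 ≤ F := (abs_nonneg _).trans (hb ω)
  set ξ : Vd d → Vd d → ℝ := fun x y => f (τ y ω) - Qr τ q f (τ x ω) with hξ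
  have hbξ : ∀ x y, |ξ x y| ≤ 2 * F := fun x y =>
    (abs_sub _ _).trans (by linarith [hb (τ y ω), Qr_bdd hq hb (τ x ω)])
  have hm : ∀ x, bm (qM τ q ω) ξ x = 0 := by
    intro x
    unfold bm
    rw [hξ, integral_sub (integrable_of_bdd (qM τ q ω) (fun y => hb _) x) (integrable_const _),
      integral_qM_Qr h, integral_const]
    simp
  have hVb : ∀ x, V (qM τ q ω) ξ x ≤ ENNReal.ofReal ((2 * F) ^ 2) := by
    intro x
    unfold V
    refine (lintegral_mono (g := fun _ => ENNReal.ofReal ((2 * F) ^ 2)) fun y =>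
      ENNReal.ofReal_le_ofReal ?_).trans ?_
    · rw [← sq_abs]; exact pow_le_pow_left₀ (abs_nonneg _) (hbξ x y) 2
    · rw [lintegral_const, measure_univ, mul_one]
  have hV : ∀ x, V (qM τ q ω) ξ x ≠ ∞ := fun x => ne_top_of_le_ne_top ENNReal.ofReal_ne_top (hVb x)
  have h2 := second_moment (qM τ q ω) hV hm n 0 0
  have hA : ∫⁻ w, A (V (qM τ q ω) ξ) n w ∂(P (qM τ q ω) 0) ≤ ENNReal.ofReal ((2 * F) ^ 2 * n) := by
    refine (lintegral_mono (g := fun _ => ENNReal.ofReal ((2 * F) ^ 2 * n)) fun w => ?_).trans ?_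
    · unfold A
      refine (Finset.sum_le_sum fun k _ => hVb (w k)).trans ?_
      rw [Finset.sum_const, Finset.card_range, nsmul_eq_mul, mul_comm,
        ENNReal.ofReal_mul (by positivity), ENNReal.ofReal_natCast]
    · rw [lintegral_const, measure_univ, mul_one]
  have mS : Measurable (S ξ n : (ℕ → Vd d) → ℝ) := (dep_S ξ le_rfl).measurable
  -- first moment of the martingale
  have h3 : ∫⁻ w, ENNReal.ofReal |S ξ n w| ∂(P (qM τ q ω) 0) ≤ ENNReal.ofReal (2 * F * √n) := by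
    have e1 : ∫⁻ w, ENNReal.ofReal |S ξ n w| ∂(P (qM τ q ω) 0) ≤
        (∫⁻ w, ENNReal.ofReal |S ξ n w| ^ (2 : ℝ) ∂(P (qM τ q ω) 0)) ^ (1 / (2 : ℝ)) := by
      have := ENNReal.lintegral_mul_le_Lp_mul_Lq (P (qM τ q ω) 0) (p := 2) (q := 2)
        (Real.HolderConjugate.two_two) (f := fun w => ENNReal.ofReal |S ξ n w|) (g := fun _ => 1)
        (mS.abs.ennreal_ofReal).aemeasurable aemeasurable_const
      simpa using this
    refine e1.trans ?_
    have e2 : ∫⁻ w, ENNReal.ofReal |S ξ n w| ^ (2 : ℝ) ∂(P (qM τ q ω) 0) ≤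
        ENNReal.ofReal ((2 * F) ^ 2 * n) := by
      have e3 : ∀ w, ENNReal.ofReal |S ξ n w| ^ (2 : ℝ) = ENNReal.ofReal ((0 + S ξ n w) ^ 2) := by
        intro w
        rw [zero_add, ENNReal.ofReal_rpow_of_nonneg (abs_nonneg _) (by norm_num)]
        congr 1
        rw [← sq_abs]
        norm_num
      simp_rw [e3]
      rw [h2]
      simpa using hA
    refine (ENNReal.rpow_le_rpow e2 (by norm_num)).trans ?_
    rw [ENNReal.ofReal_rpow_of_nonneg (by positivity) (by norm_num)]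
    refine ENNReal.ofReal_le_ofReal (le_of_eq ?_)
    rw [← Real.sqrt_eq_rpow, Real.sqrt_mul (by positivity), Real.sqrt_sq (by positivity)]
  -- decomposition
  have e4 : ∀ᵐ w ∂(P (qM τ q ω) 0), ENNReal.ofReal |∑ k ∈ Finset.range n,
      (f (τ (w k) ω) - Qr τ q f (τ (w k) ω))| ≤
      ENNReal.ofReal (2 * F) + ENNReal.ofReal |S ξ n w| := by
    refine Eventually.of_forall fun w => ?_
    rw [← ENNReal.ofReal_add (by positivity) (abs_nonneg _)]
    refine ENNReal.ofReal_le_ofReal ?_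
    have e5 : ∑ k ∈ Finset.range n, (f (τ (w k) ω) - Qr τ q f (τ (w k) ω)) =
        (f (τ (w 0) ω) - f (τ (w n) ω)) + S ξ n w := by
      unfold S
      rw [hξ]
      simp only
      rw [Finset.sum_sub_distrib, Finset.sum_sub_distrib]
      have h1 := Finset.sum_range_succ (fun k => f (τ (w k) ω)) n
      have h2 := Finset.sum_range_succ' (fun k => f (τ (w k) ω)) n
      linarith
    rw [e5]
    refine (abs_add_le _ _).trans (add_le_add ?_ le_rfl)
    exact (abs_sub _ _).trans (by linarith [hb (τ (w 0) ω), hb (τ (w n) ω)])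
  refine (lintegral_mono_ae e4).trans ?_
  rw [lintegral_add_left measurable_const, lintegral_const, measure_univ, mul_one,
    ENNReal.ofReal_add (by positivity) (by positivity)]
  exact add_le_add le_rfl h3

variable [IsProbabilityMeasure μ]

theorem quenched_avg (h : Sta μ τ) (hq : Ker τ q) {O : Set Ω} (hO : ErgO μ τ q O) {g : Ω → ℝ}
    (hgm : Measurable g) (hgi : Integrable g μ) :
    ∀ᵐ ω ∂μ, ω ∈ O → QA τ q hq ω g ((∫ ω in O, g ω ∂μ) / μ.real O) := by
  set c : ℝ := (∫ ω in O, g ω ∂μ) / μ.real O with hc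
  have hOr : 0 < μ.real O := ENNReal.toReal_pos hO.pos (measure_ne_top _ _)
  set g0 : Ω → ℝ := O.indicator (fun ω => g ω - c) with hg0
  have hg0m : Measurable g0 := (hgm.sub_const c).indicator hO.meas
  have hg0i : Integrable g0 μ := (hgi.sub (integrable_const c)).indicator hO.meas
  have hg00 : ∫ ω, g0 ω ∂μ = 0 := by
    rw [hg0, integral_indicator hO.meas, integral_sub hgi.integrableOn (integrable_const c),
      setIntegral_const, hc, smul_eq_mul, mul_div_cancel₀ _ hOr.ne', sub_self]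
  have hg0O : ∀ ω, ω ∉ O → g0 ω = 0 := fun ω hω => indicator_of_notMem hω _
  have happ := fun j : ℕ => approx_cob h hq hO hg0m hg0i hg0O hg00
    (show (0 : ℝ) < (1 / 4) ^ j by positivity)
  choose f hfm hfb hfi using happ
  choose F hF using hfb
  set r : ℕ → Ω → ℝ≥0∞ := fun j ω => ENNReal.ofReal |g0 ω - (f j ω - Qr τ q (f j) ω)| with hr
  have hrm : ∀ j, Measurable (r j) := fun j =>
    ((hg0m.sub ((hfm j).sub (measurable_Qr h hq (hfm j)))).abs).ennreal_ofReal
  have hri : ∀ j, ∫⁻ ω, r j ω ∂μ ≤ ENNReal.ofReal ((1 / 4) ^ j) := by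
    intro j
    rw [hr]
    simp only
    rw [← ofReal_integral_eq_lintegral_ofReal]
    · exact ENNReal.ofReal_le_ofReal (hfi j)
    · refine (hg0i.sub ?_).abs
      exact Integrable.of_bound ((hfm j).sub (measurable_Qr h hq (hfm j))).aestronglyMeasurable
        (F j + F j) (Eventually.of_forall fun ω => (norm_sub_le _ _).trans
          (add_le_add (hF j ω) (Qr_bdd hq (hF j) ω)))
    · exact Eventually.of_forall fun ω => abs_nonneg _
  -- Borel-Cantelli
  have hbc : ∀ᵐ ω ∂μ, ∀ᶠ j in atTop, ω ∉ {ω | ENNReal.ofReal ((1 / 2) ^ j) <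
      mx (Qo τ q) (r j) ω} := by
    refine ae_eventually_notMem (ne_top_of_le_ne_top (b := ∑' j : ℕ, ENNReal.ofReal ((1 / 2) ^ j))
      ?_ (ENNReal.tsum_le_tsum fun j => ?_))
    · rw [← ENNReal.ofReal_tsum_of_nonneg (fun j => by positivity)
        (summable_geometric_of_lt_one (by norm_num) (by norm_num))]
      exact ENNReal.ofReal_ne_top
    · have h1 := (mo_Qo h hq).maximal (hrm j) (ENNReal.ofReal ((1 / 2) ^ j))
      have h2 := h1.trans (hri j)
      have h3 : ENNReal.ofReal ((1 / 4 : ℝ) ^ j) =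
          ENNReal.ofReal ((1 / 2) ^ j) * ENNReal.ofReal ((1 / 2) ^ j) := by
        rw [← ENNReal.ofReal_mul (by positivity), ← mul_pow]
        norm_num
      rw [h3] at h2
      refine (ENNReal.mul_le_mul_iff_right ?_ ENNReal.ofReal_ne_top).1 h2
      rw [Ne, ENNReal.ofReal_eq_zero, not_le]
      positivity
  filter_upwards [hbc] with ω hω hωO
  haveI := qM_prob hq ω
  unfold QA
  -- the path stays in `O`
  have hstay : ∀ᵐ w ∂(P (qM τ q ω) 0), ∀ k, τ (w k) ω ∈ O := by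
    have h1 := ae_steps (qM τ q ω) (pr := fun x y => (τ y ω ∈ O ↔ τ x ω ∈ O))
      (fun x => ae_qM ω x fun y hy => by
        have := hO.inv (τ x ω) (y - x) hy
        rwa [h.add, add_sub_cancel] at this) 0
    filter_upwards [h1, P_zero (qM τ q ω) 0] with w hw h0 k
    induction k with
    | zero => rw [h0, h.zero]; exact hωO
    | succ k ih => exact (hw k).2 ih
  rw [ENNReal.tendsto_atTop_zero]
  intro ε hε
  obtain ⟨η, hη, hηε⟩ : ∃ η : ℝ, 0 < η ∧ ENNReal.ofReal (2 * η) ≤ ε := by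
    by_cases hεt : ε = ∞
    · exact ⟨1, one_pos, by rw [hεt]; exact le_top⟩
    · refine ⟨ε.toReal / 2, div_pos (ENNReal.toReal_pos hε.ne' hεt) (by norm_num), ?_⟩
      rw [mul_div_cancel₀ _ (by norm_num : (2 : ℝ) ≠ 0), ENNReal.ofReal_toReal hεt]
  obtain ⟨j, hj1, hj2⟩ : ∃ j, ω ∉ {ω | ENNReal.ofReal ((1 / 2) ^ j) <
      mx (Qo τ q) (r j) ω} ∧ ((1 : ℝ) / 2) ^ j ≤ η := by
    have t1 : Tendsto (fun j : ℕ => ((1 : ℝ) / 2) ^ j) atTop (𝓝 0) :=
      tendsto_pow_atTop_nhds_zero_of_lt_one (by norm_num) (by norm_num)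
    obtain ⟨j, h1, h2⟩ := (hω.and ((tendsto_order.1 t1).2 η hη)).exists
    exact ⟨j, h1, h2.le⟩
  have hFj : 0 ≤ F j := (abs_nonneg _).trans (hF j ω)
  have t2 : Tendsto (fun n : ℕ => (2 * F j + 2 * F j * √n) / n) atTop (𝓝 0) := by
    have a1 : Tendsto (fun n : ℕ => (2 * F j) / (n : ℝ)) atTop (𝓝 0) :=
      tendsto_const_div_atTop_nhds_zero_nat _
    have a2 : Tendsto (fun n : ℕ => (2 * F j) * (√n / (n : ℝ))) atTop (𝓝 0) := by
      have : Tendsto (fun n : ℕ => √(n : ℝ) / (n : ℝ)) atTop (𝓝 0) := by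
        have h1 : Tendsto (fun n : ℕ => (√(n : ℝ))⁻¹) atTop (𝓝 0) :=
          (Real.tendsto_sqrt_atTop.comp tendsto_natCast_atTop_atTop).inv_tendsto_atTop
        refine h1.congr fun n => ?_
        rw [Real.sqrt_div_self]
      simpa using this.const_mul (2 * F j)
    have := a1.add a2
    simp only [add_zero] at this
    refine this.congr fun n => ?_
    ring
  obtain ⟨n₀, hn₀⟩ := eventually_atTop.1 ((tendsto_order.1 t2).2 η hη)
  refine ⟨max n₀ 1, fun n hn => ?_⟩
  have hn1 := hn₀ n ((le_max_left _ _).trans hn)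
  have hn2 : 1 ≤ n := (le_max_right _ _).trans hn
  have hnpos : (0 : ℝ) < n := by exact_mod_cast hn2
  have hle : ∀ᵐ w ∂(P (qM τ q ω) 0),
      ENNReal.ofReal |(∑ k ∈ Finset.range n, g (τ (w k) ω)) / n - c| ≤
      ENNReal.ofReal (1 / n) * (ENNReal.ofReal |∑ k ∈ Finset.range n,
        (f j (τ (w k) ω) - Qr τ q (f j) (τ (w k) ω))| +
        A (fun x => r j (τ x ω)) n w) := by
    filter_upwards [hstay] with w hw
    have e1 : (∑ k ∈ Finset.range n, g (τ (w k) ω)) / n - c =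
        (1 / n) * ∑ k ∈ Finset.range n, g0 (τ (w k) ω) := by
      have : ∑ k ∈ Finset.range n, g0 (τ (w k) ω) = ∑ k ∈ Finset.range n, g (τ (w k) ω) - n * c := by
        rw [hg0]
        simp_rw [indicator_of_mem (hw _)]
        rw [Finset.sum_sub_distrib, Finset.sum_const, Finset.card_range, nsmul_eq_mul]
      rw [this]
      field_simp
    rw [e1, abs_mul, abs_of_pos (by positivity), ENNReal.ofReal_mul (by positivity)]
    refine mul_le_mul' le_rfl ?_
    have e2 : A (fun x => r j (τ x ω)) n w = ENNReal.ofReal (∑ k ∈ Finset.range n,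
        |g0 (τ (w k) ω) - (f j (τ (w k) ω) - Qr τ q (f j) (τ (w k) ω))|) := by
      unfold A
      rw [ENNReal.ofReal_sum_of_nonneg fun _ _ => abs_nonneg _]
    rw [e2, ← ENNReal.ofReal_add (abs_nonneg _) (Finset.sum_nonneg fun _ _ => abs_nonneg _)]
    refine ENNReal.ofReal_le_ofReal ?_
    have e3 : ∑ k ∈ Finset.range n, g0 (τ (w k) ω) =
        ∑ k ∈ Finset.range n, (f j (τ (w k) ω) - Qr τ q (f j) (τ (w k) ω)) +
        ∑ k ∈ Finset.range n, (g0 (τ (w k) ω) - (f j (τ (w k) ω) - Qr τ q (f j) (τ (w k) ω))) := by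
      rw [← Finset.sum_add_distrib]
      exact Finset.sum_congr rfl fun k _ => by ring
    rw [e3]
    exact (abs_add_le _ _).trans (add_le_add le_rfl (Finset.abs_sum_le_sum_abs _ _))
  refine (lintegral_mono_ae hle).trans ?_
  have mA : Measurable (A (fun x => r j (τ x ω)) n : (ℕ → Vd d) → ℝ≥0∞) :=
    (dep_A _ le_rfl).measurable
  have mC : Measurable (fun w : ℕ → Vd d => ENNReal.ofReal |∑ k ∈ Finset.range n,
        (f j (τ (w k) ω) - Qr τ q (f j) (τ (w k) ω))|) := by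
    refine Dep.measurable (N := n) fun w w' hw => ?_
    have : ∀ k ∈ Finset.range n, (f j (τ (w k) ω) - Qr τ q (f j) (τ (w k) ω)) =
        (f j (τ (w' k) ω) - Qr τ q (f j) (τ (w' k) ω)) := fun k hk => by
      rw [hw k (Finset.mem_range.1 hk).le]
    rw [Finset.sum_congr rfl this]
  have eint : ∫⁻ w, ENNReal.ofReal (1 / n) * (ENNReal.ofReal |∑ k ∈ Finset.range n,
        (f j (τ (w k) ω) - Qr τ q (f j) (τ (w k) ω))| +
        A (fun x => r j (τ x ω)) n w) ∂(P (qM τ q ω) 0) =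
      ENNReal.ofReal (1 / n) * (∫⁻ w, ENNReal.ofReal |∑ k ∈ Finset.range n,
        (f j (τ (w k) ω) - Qr τ q (f j) (τ (w k) ω))| ∂(P (qM τ q ω) 0) +
        Sm (Qo τ q) (r j) n ω) := by
    rw [lintegral_const_mul' _ _ ENNReal.ofReal_ne_top, lintegral_add_left mC, lintegral_A h hq,
      h.zero]
  rw [eint, mul_add]
  have b1 := cob_avg h hq ω (hF j) n
  have b2 : ENNReal.ofReal (1 / n) * Sm (Qo τ q) (r j) n ω ≤ ENNReal.ofReal η := by
    have h1 : mx (Qo τ q) (r j) ω ≤ ENNReal.ofReal ((1 / 2) ^ j) := not_lt.1 hj1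
    obtain ⟨m, rfl⟩ : ∃ m, n = m + 1 := ⟨n - 1, by omega⟩
    have h2 : Sm (Qo τ q) (r j) (m + 1) ω / ((m : ℝ≥0∞) + 1) ≤ mx (Qo τ q) (r j) ω :=
      le_iSup (fun n : ℕ => Sm (Qo τ q) (r j) (n + 1) ω / ((n : ℝ≥0∞) + 1)) m
    refine le_trans (le_of_eq ?_) ((h2.trans h1).trans (ENNReal.ofReal_le_ofReal hj2))
    rw [ENNReal.div_eq_inv_mul, one_div, ENNReal.ofReal_inv_of_pos hnpos, ENNReal.ofReal_natCast]
    push_cast
    rfl
  have b3 : ENNReal.ofReal (1 / n) * ∫⁻ w, ENNReal.ofReal |∑ k ∈ Finset.range n,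
      (f j (τ (w k) ω) - Qr τ q (f j) (τ (w k) ω))| ∂(P (qM τ q ω) 0) ≤ ENNReal.ofReal η := by
    refine (mul_le_mul' le_rfl b1).trans ?_
    rw [← ENNReal.ofReal_mul (by positivity)]
    refine ENNReal.ofReal_le_ofReal (le_trans (le_of_eq ?_) hn1.le)
    ring
  refine (add_le_add b3 b2).trans (le_trans (le_of_eq ?_) hηε)
  rw [← ENNReal.ofReal_add hη.le hη.le]
  congr 1
  ring

end Pool.Agent.H979.QIP
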