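import Pool.Agent.H979.QIP.Chain

set_option autoImplicit false
set_option linter.unusedSectionVars false
set_option linter.deprecated false

open MeasureTheory ProbabilityTheory Filter Topology Set
open scoped ENNReal NNReal

/-!
# Cylinders and time reversal
-/

namespace Pool.Agent.H979.QIP

variable {X : Type*} [Countable X] [MeasurableSpace X] [MeasurableSingletonClass X]

/-- `F` depends on the coordinates `≤ N` only -/
def Dep {β : Type*} (N : ℕ) (F : (ℕ → X) → β) : Prop :=
  ∀ w w' : ℕ → X, (∀ k ≤ N, w k = w' k) → F w = F w'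

/-- extension of a finite word -/
def ext {N : ℕ} (p : Fin (N + 1) → X) (k : ℕ) : X := p ⟨min k N, by omega⟩

/-- restriction to the first letters -/
def res (N : ℕ) (w : ℕ → X) : Fin (N + 1) → X := fun k => w k

theorem ext_res {N : ℕ} (w : ℕ → X) {k : ℕ} (hk : k ≤ N) : ext (res N w) k = w k := by
  simp [ext, res, hk]

theorem res_ext {N : ℕ} (p : Fin (N + 1) → X) : res N (ext p) = p := by
  funext k
  have hk := k.2
  exact congrArg p (Fin.ext (by simp only [Fin.val_mk]; omega))

theorem measurable_res (N : ℕ) : Measurable (res N : (ℕ → X) → _) :=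
  measurable_pi_lambda _ fun _ => measurable_pi_apply _

theorem Dep.eq_comp {β : Type*} {N : ℕ} {F : (ℕ → X) → β} (h : Dep N F) :
    F = (fun p => F (ext p)) ∘ res N := by
  funext w
  exact (h _ _ fun k hk => ext_res w hk).symm

theorem Dep.measurable {β : Type*} [MeasurableSpace β] {N : ℕ} {F : (ℕ → X) → β} (h : Dep N F) :
    Measurable F := by
  rw [h.eq_comp]
  exact (measurable_of_countable _).comp (measurable_res N)

theorem Dep.mono {β : Type*} {N N' : ℕ} {F : (ℕ → X) → β} (h : Dep N F) (hN : N ≤ N') : Dep N' F :=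
  fun w w' hw => h w w' fun k hk => hw k (hk.trans hN)

theorem Dep.measurableSet {N : ℕ} {A : Set (ℕ → X)} (h : Dep N (fun w => w ∈ A)) :
    MeasurableSet A := measurableSet_setOf.2 h.measurable

theorem res_preimage {N : ℕ} (p : Fin (N + 1) → X) :
    res N ⁻¹' {p} = {w | ∀ k ≤ N, w k = ext p k} := by
  ext w
  simp only [mem_preimage, mem_singleton_iff, mem_setOf_eq]
  constructor
  · rintro rfl k hk
    exact (ext_res w hk).symm
  · intro h
    funext k
    have := h k (by omega)
    rw [← res_ext p]
    exact this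

variable (q : X → Measure X) [∀ x, IsProbabilityMeasure (q x)]

/-- the weight of a path -/
noncomputable def wt (N : ℕ) (p : ℕ → X) : ℝ≥0∞ := ∏ k ∈ Finset.range N, q (p k) {p (k + 1)}

open Classical in
theorem P_cyl (N : ℕ) (x : X) (p : ℕ → X) :
    P q x {w | ∀ k ≤ N, w k = p k} = if p 0 = x then wt q N p else 0 := by
  induction N generalizing x p with
  | zero =>
    have e : ({w | ∀ k ≤ 0, w k = p k} : Set (ℕ → X)) = {w | w 0 = p 0} := by
      ext w; simp
    rw [e]
    split_ifs with h
    · have h1 : ∀ᵐ w ∂(P q x), w 0 = p 0 := by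
        filter_upwards [P_zero q x] with w hw
        rw [hw, h]
      rw [wt, Finset.prod_range_zero]
      have h3 : P q x {w | w 0 = p 0}ᶜ = 0 := h1
      have h2 : MeasurableSet {w : ℕ → X | w 0 = p 0} :=
        measurableSet_eq_fun (measurable_pi_apply 0) measurable_const
      rwa [prob_compl_eq_zero_iff h2] at h3
    · have h1 : ∀ᵐ w ∂(P q x), ¬ (w 0 = p 0) := by
        filter_upwards [P_zero q x] with w hw h'
        exact h (by rw [← h', hw])
      have h3 : P q x {w | ¬ ¬ (w 0 = p 0)} = 0 := h1
      simpa using h3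
  | succ N ih =>
    have hD : Dep (N + 1) (fun w : ℕ → X => w ∈ {w | ∀ k ≤ N + 1, w k = p k}) := by
      intro w w' h
      simp only [mem_setOf_eq, eq_iff_iff]
      constructor
      · intro h' k hk; rw [← h k hk]; exact h' k hk
      · intro h' k hk; rw [h k hk]; exact h' k hk
    rw [P_apply q x hD.measurableSet]
    have e : ∀ y, P q y {w | cons x w ∈ {w | ∀ k ≤ N + 1, w k = p k}} =
        ({p 1} : Set X).indicator (fun _ => if p 0 = x then wt q N (fun k => p (k + 1)) else 0) y := by
      intro y
      have e1 : {w | cons x w ∈ {w | ∀ k ≤ N + 1, w k = p k}} =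
          {w | p 0 = x ∧ ∀ k ≤ N, w k = p (k + 1)} := by
        ext w
        simp only [mem_setOf_eq]
        constructor
        · intro h
          exact ⟨(h 0 (by omega)).symm, fun k hk => h (k + 1) (by omega)⟩
        · rintro ⟨h0, h⟩ k hk
          cases k with
          | zero => exact h0.symm
          | succ k => exact h k (by omega)
      rw [e1]
      by_cases h0 : p 0 = x
      · simp only [h0, true_and, if_true]
        rw [ih y (fun k => p (k + 1))]
        by_cases hy : p 1 = y
        · simp [hy]
        · simp only [zero_add, hy, if_false]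
          rw [indicator_of_notMem]
          simpa using fun h => hy h.symm
      · simp [h0]
    simp_rw [e]
    rw [lintegral_indicator_const (MeasurableSet.singleton _)]
    split_ifs with h0
    · have e5 : wt q (N + 1) p = (∏ k ∈ Finset.range N, q (p (k + 1)) {p (k + 1 + 1)}) *
          q (p 0) {p (0 + 1)} := Finset.prod_range_succ' _ _
      rw [e5, h0]
      rfl
    · simp

/-- integral of a function of the first letters -/
theorem lintegral_dep {N : ℕ} {F : (ℕ → X) → ℝ≥0∞} (h : Dep N F) (x : X) :
    ∫⁻ w, F w ∂(P q x) = ∑' p : Fin (N + 1) → X, F (ext p) * P q x {w | ∀ k ≤ N, w k = ext p k} := by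
  conv_lhs => rw [h.eq_comp]
  have h1 : ∫⁻ w, ((fun p => F (ext p)) ∘ res N) w ∂(P q x) =
      ∫⁻ p, F (ext p) ∂((P q x).map (res N)) := by
    rw [lintegral_map (f := fun p : Fin (N + 1) → X => F (ext p)) (measurable_of_countable _)
      (measurable_res N)]
    rfl
  rw [h1, lintegral_countable']
  refine tsum_congr fun p => ?_
  rw [Measure.map_apply (measurable_res N) (MeasurableSet.singleton _), res_preimage]

open Classical in
theorem tsum_lintegral_dep {N : ℕ} {F : (ℕ → X) → ℝ≥0∞} (h : Dep N F) :
    ∑' x, ∫⁻ w, F w ∂(P q x) = ∑' p : Fin (N + 1) → X, F (ext p) * wt q N (ext p) := by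
  simp_rw [lintegral_dep q h, P_cyl]
  rw [ENNReal.tsum_comm]
  refine tsum_congr fun p => ?_
  rw [ENNReal.tsum_mul_left]
  congr 1
  rw [tsum_eq_single (ext p 0)]
  · simp
  · intro x hx
    rw [if_neg (Ne.symm hx)]

/-- time reversal -/
def rev (N : ℕ) (w : ℕ → X) : ℕ → X := fun k => w (N - k)

/-- **reversibility** of the path measure -/
theorem reversal (hq : ∀ x y, q x {y} = q y {x}) {N : ℕ} {F : (ℕ → X) → ℝ≥0∞} (h : Dep N F) :
    ∑' x, ∫⁻ w, F (rev N w) ∂(P q x) = ∑' x, ∫⁻ w, F w ∂(P q x) := by
  have h' : Dep N (fun w => F (rev N w)) := by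
    intro w w' hw
    refine h _ _ fun k hk => ?_
    unfold rev
    exact hw _ (by omega)
  rw [tsum_lintegral_dep q h', tsum_lintegral_dep q h]
  let e : (Fin (N + 1) → X) ≃ (Fin (N + 1) → X) := Equiv.arrowCongr Fin.revPerm (Equiv.refl X)
  have he : ∀ (p : Fin (N + 1) → X), ∀ k ≤ N, ext (e p) k = ext p (N - k) := by
    intro p k hk
    simp only [ext, e, Equiv.arrowCongr_apply, Equiv.coe_refl, Function.comp, Fin.revPerm_symm,
      Fin.revPerm_apply, id]
    congr 1
    ext
    simp [Fin.val_rev]
    omega
  rw [← e.tsum_eq]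
  refine tsum_congr fun p => ?_
  congr 1
  · refine h _ _ fun k hk => ?_
    unfold rev
    rw [he p _ (by omega)]
    congr 1
    omega
  · unfold wt
    rw [← Finset.prod_range_reflect]
    refine Finset.prod_congr rfl fun k hk => ?_
    have hk := Finset.mem_range.1 hk
    rw [he p _ (by omega), he p _ (by omega), hq]
    have e1 : N - (N - 1 - k + 1) = k := by omega
    have e2 : N - (N - 1 - k) = k + 1 := by omega
    rw [e1, e2]

end Pool.Agent.H979.QIP
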