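import Pool.Agent.H979.QIP.Ker2

set_option autoImplicit false
set_option linter.unusedSectionVars false
set_option linter.deprecated false
set_option linter.unusedVariables false
set_option linter.style.haveILetI false

open MeasureTheory ProbabilityTheory Filter Topology Set
open scoped ENNReal NNReal

/-!
# The runs of a random walk among random conductances
-/

namespace Pool.Agent.H979.QIP

section lists

variable {A : Type*}

/-- nonempty lists are pairs -/
def listEquiv : List A ≃ Unit ⊕ (A × List A) where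
  toFun := fun l => match l with
    | [] => Sum.inl ()
    | s :: l => Sum.inr (s, l)
  invFun := fun o => match o with
    | Sum.inl _ => []
    | Sum.inr (s, l) => s :: l
  left_inv := fun l => by cases l <;> rfl
  right_inv := fun o => by rcases o with _ | ⟨s, l⟩ <;> rfl

theorem tsum_list (f : List A → ℝ≥0∞) : ∑' l, f l = f [] + ∑' s, ∑' l, f (s :: l) := by
  rw [← listEquiv.symm.tsum_eq, Summable.tsum_sum ENNReal.summable ENNReal.summable]
  congr 1
  · rw [tsum_fintype]; simp [listEquiv]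
  · exact ENNReal.tsum_prod (f := fun (s : A) (l : List A) => f (s :: l))

theorem tsum_of_len {f : List A → ℝ≥0∞} {C : ℝ≥0∞}
    (h : ∀ n : ℕ, ∑' l : List A, (if l.length < n then f l else 0) ≤ C) : ∑' l, f l ≤ C := by
  classical
  rw [ENNReal.tsum_eq_iSup_sum]
  refine iSup_le fun s => ?_
  set n := s.sup List.length + 1 with hn
  refine le_trans ?_ (h n)
  refine le_trans (le_of_eq ?_) (ENNReal.sum_le_tsum s)
  refine Finset.sum_congr rfl fun l hl => ?_
  rw [if_pos]
  have : l.length ≤ s.sup List.length := Finset.le_sup (f := List.length) hl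
  omega

theorem tsum_len_succ (f : List A → ℝ≥0∞) (n : ℕ) :
    ∑' l : List A, (if l.length < n + 1 then f l else 0) =
      f [] + ∑' s, ∑' l : List A, (if l.length < n then f (s :: l) else 0) := by
  rw [tsum_list]
  simp

end lists

variable {Ω : Type*} [MeasurableSpace Ω] {d : ℕ} {μ : Measure Ω} {τ : Vd d → Ω → Ω}
  {c : Ω → Vd d → ℝ≥0∞}

/-- the total conductance at the origin -/
noncomputable def Dg (c : Ω → Vd d → ℝ≥0∞) (ω : Ω) : ℝ≥0∞ := ∑' y, c ω y

/-- the law of a run -/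
noncomputable def kp (τ : Vd d → Ω → Ω) (c : Ω → Vd d → ℝ≥0∞) : Ω → List (Vd d) → ℝ≥0∞
  | ω, [] => (1 + Dg c ω)⁻¹
  | ω, s :: l => c ω s * (1 + Dg c ω)⁻¹ * kp τ c (τ s ω) l

/-- random conductances -/
structure Con (τ : Vd d → Ω → Ω) (c : Ω → Vd d → ℝ≥0∞) : Prop where
  meas : ∀ y, Measurable (fun ω => c ω y)
  symm : ∀ ω y, c ω y = c (τ y ω) (-y)

/-- random conductances such that the runs are finite -/
structure RC (τ : Vd d → Ω → Ω) (c : Ω → Vd d → ℝ≥0∞) : Prop extends Con τ c where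
  fin : ∀ ω, Dg c ω ≠ ∞
  mass : ∀ ω, ∑' l, kp τ c ω l = 1

theorem Dg_meas (hc : Con τ c) : Measurable (Dg c) := Measurable.tsum hc.meas

theorem kp_meas (h : Sta μ τ) (hc : Con τ c) (l : List (Vd d)) :
    Measurable (fun ω => kp τ c ω l) := by
  induction l with
  | nil => exact ((Dg_meas hc).const_add 1).inv
  | cons s l ih =>
    exact ((hc.meas s).mul ((Dg_meas hc).const_add 1).inv).mul (ih.comp (h.pres s).measurable)

theorem one_add_ne (ω : Ω) : 1 + Dg c ω ≠ 0 := by simp

/-- multiplication by the weight of the vertex -/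
theorem mul_inv_one_add {ω : Ω} (hf : Dg c ω ≠ ∞) : (1 + Dg c ω) * (1 + Dg c ω)⁻¹ = 1 :=
  ENNReal.mul_inv_cancel (one_add_ne ω) (ENNReal.add_ne_top.2 ⟨ENNReal.one_ne_top, hf⟩)

/-- the first step of a run, for truncated sums -/
theorem kp_first_len (ω : Ω) (F : List (Vd d) → ℝ≥0∞) (n : ℕ) :
    ∑' l : List (Vd d), (if l.length < n + 1 then kp τ c ω l * F l else 0) =
      (1 + Dg c ω)⁻¹ * (F [] + ∑' s, c ω s * ∑' l : List (Vd d),
        (if l.length < n then kp τ c (τ s ω) l * F (s :: l) else 0)) := by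
  rw [tsum_len_succ, mul_add, ← ENNReal.tsum_mul_left]
  congr 1
  refine tsum_congr fun s => ?_
  rw [← mul_assoc, ← ENNReal.tsum_mul_left]
  refine tsum_congr fun l => ?_
  rw [kp]
  split_ifs
  · ring
  · simp

theorem kp_first (ω : Ω) (F : List (Vd d) → ℝ≥0∞) :
    ∑' l : List (Vd d), kp τ c ω l * F l =
      (1 + Dg c ω)⁻¹ * (F [] + ∑' s, c ω s * ∑' l : List (Vd d), kp τ c (τ s ω) l * F (s :: l)) := by
  rw [tsum_list, mul_add, ← ENNReal.tsum_mul_left]
  congr 1
  refine tsum_congr fun s => ?_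
  rw [← mul_assoc, ← ENNReal.tsum_mul_left]
  refine tsum_congr fun l => ?_
  rw [kp]
  ring

theorem kp_total_le (ω : Ω) : ∑' l, kp τ c ω l ≤ 1 := by
  refine tsum_of_len fun n => ?_
  have h1 : ∀ (l : List (Vd d)) (m : ℕ) (ω : Ω), (if l.length < m then kp τ c ω l else 0) =
      (if l.length < m then kp τ c ω l * 1 else 0) := fun l m ω => by rw [mul_one]
  induction n generalizing ω with
  | zero => simp
  | succ n ih =>
    simp_rw [h1] at ih ⊢
    rw [kp_first_len ω (fun _ => 1)]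
    have h2 : (1 : ℝ≥0∞) + ∑' s, c ω s * ∑' l : List (Vd d),
        (if l.length < n then kp τ c (τ s ω) l * 1 else 0) ≤ 1 + Dg c ω := by
      refine add_le_add le_rfl (ENNReal.tsum_le_tsum fun s => ?_)
      calc _ ≤ c ω s * 1 := mul_le_mul' le_rfl (ih _)
        _ = c ω s := mul_one _
    by_cases hf : Dg c ω = ∞
    · rw [hf]; simp
    · refine (mul_le_mul' le_rfl h2).trans (le_of_eq ?_)
      rw [mul_comm, mul_inv_one_add hf]

/-- the runs are finite almost surely -/
theorem mass_ae [IsProbabilityMeasure μ] (h : Sta μ τ) (hc : Con τ c)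
    (hD : ∫⁻ ω, Dg c ω ∂μ ≠ ∞) : ∀ᵐ ω ∂μ, ∑' l, kp τ c ω l = 1 := by
  set H : Ω → ℝ≥0∞ := fun ω => ∑' l, kp τ c ω l with hH
  have hHm : Measurable H := Measurable.tsum fun l => kp_meas h hc l
  have hH1 : ∀ ω, H ω ≤ 1 := fun ω => kp_total_le ω
  have hfin : ∀ᵐ ω ∂μ, Dg c ω < ∞ := ae_lt_top (Dg_meas hc) hD
  have heq : ∀ᵐ ω ∂μ, H ω + Dg c ω * H ω = 1 + ∑' s, c ω s * H (τ s ω) := by
    filter_upwards [hfin] with ω hω
    have h1 := kp_first (τ := τ) (c := c) ω (fun _ => 1)
    simp only [mul_one] at h1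
    have h2 : (1 + Dg c ω) * H ω = 1 + ∑' s, c ω s * H (τ s ω) := by
      rw [hH]
      simp only
      rw [h1, ← mul_assoc, mul_inv_one_add hω.ne, one_mul]
    rw [← h2, add_mul, one_mul]
  have h3 : ∫⁻ ω, (H ω + Dg c ω * H ω) ∂μ = ∫⁻ ω, (1 + ∑' s, c ω s * H (τ s ω)) ∂μ :=
    lintegral_congr_ae heq
  have h4 : ∫⁻ ω, ∑' s, c ω s * H (τ s ω) ∂μ = ∫⁻ ω, Dg c ω * H ω ∂μ := by
    have h5 := h.mtp (F := fun ω y => c ω y * H ω) fun y => (hc.meas y).mul hHm
    have e1 : ∀ ω, ∑' y, c (τ y ω) (-y) * H (τ y ω) = ∑' s, c ω s * H (τ s ω) := fun ω =>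
      tsum_congr fun y => by rw [← hc.symm]
    simp_rw [e1] at h5
    rw [h5]
    refine lintegral_congr fun ω => ?_
    rw [ENNReal.tsum_mul_right]
    rfl
  have hDH : ∫⁻ ω, Dg c ω * H ω ∂μ ≠ ∞ := by
    refine ne_top_of_le_ne_top hD (lintegral_mono fun ω => ?_)
    calc _ ≤ Dg c ω * 1 := mul_le_mul' le_rfl (hH1 ω)
      _ = _ := mul_one _
  rw [lintegral_add_left hHm, lintegral_add_left measurable_const, h4, lintegral_const,
    measure_univ, mul_one] at h3
  have h6 : ∫⁻ ω, H ω ∂μ = 1 := (ENNReal.add_left_inj hDH).1 h3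
  have h7 : ∫⁻ ω, (1 - H ω) ∂μ = 0 := by
    rw [lintegral_sub hHm (by rw [h6]; exact ENNReal.one_ne_top) (Eventually.of_forall hH1), h6,
      lintegral_const, measure_univ, mul_one, tsub_self]
  rw [lintegral_eq_zero_iff (f := fun ω => 1 - H ω) (measurable_const.sub hHm)] at h7
  filter_upwards [h7] with ω hω
  simp only [Pi.zero_apply] at hω
  exact le_antisymm (hH1 ω) (tsub_eq_zero_iff_le.1 hω)

/-- the good environments -/
def Good (τ : Vd d → Ω → Ω) (c : Ω → Vd d → ℝ≥0∞) : Set Ω :=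
  {ω | ∀ x, Dg c (τ x ω) ≠ ∞ ∧ ∑' l, kp τ c (τ x ω) l = 1}

theorem good_meas (h : Sta μ τ) (hc : Con τ c) : MeasurableSet (Good τ c) := by
  have : Good τ c = ⋂ x, {ω | Dg c (τ x ω) ≠ ∞ ∧ ∑' l, kp τ c (τ x ω) l = 1} := by
    ext ω; simp [Good]
  rw [this]
  refine MeasurableSet.iInter fun x => ?_
  have h1 : MeasurableSet {ω | Dg c ω ≠ ∞ ∧ ∑' l, kp τ c ω l = 1} :=
    MeasurableSet.inter ((measurableSet_eq_fun (Dg_meas hc) measurable_const).compl)
      (measurableSet_eq_fun (Measurable.tsum fun l => kp_meas h hc l) measurable_const)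
  exact (h.pres x).measurable h1

theorem good_ae [IsProbabilityMeasure μ] (h : Sta μ τ) (hc : Con τ c)
    (hD : ∫⁻ ω, Dg c ω ∂μ ≠ ∞) : ∀ᵐ ω ∂μ, ω ∈ Good τ c := by
  have := ae_all (pr := fun ω => Dg c ω ≠ ∞ ∧ ∑' l, kp τ c ω l = 1) h (by
    filter_upwards [mass_ae h hc hD, ae_lt_top (Dg_meas hc) hD] with ω h1 h2
    exact ⟨h2.ne, h1⟩)
  exact this

theorem good_inv (h : Sta μ τ) (y : Vd d) (ω : Ω) : τ y ω ∈ Good τ c ↔ ω ∈ Good τ c := by
  simp only [Good, mem_setOf_eq, h.add]
  constructor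
  · intro hx x
    have := hx (x - y)
    rwa [add_sub_cancel] at this
  · intro hx x
    exact hx _

open Classical in
/-- the conductances, set to zero in the bad environments -/
noncomputable def cg (τ : Vd d → Ω → Ω) (c : Ω → Vd d → ℝ≥0∞) (ω : Ω) (y : Vd d) : ℝ≥0∞ :=
  if ω ∈ Good τ c then c ω y else 0

theorem Dg_cg_good {ω : Ω} (hω : ω ∈ Good τ c) : Dg (cg τ c) ω = Dg c ω := by
  unfold Dg cg
  simp [hω]

theorem Dg_cg_bad {ω : Ω} (hω : ω ∉ Good τ c) : Dg (cg τ c) ω = 0 := by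
  unfold Dg cg
  simp [hω]

theorem kp_cg_good (h : Sta μ τ) {ω : Ω} (hω : ω ∈ Good τ c) (l : List (Vd d)) :
    kp τ (cg τ c) ω l = kp τ c ω l := by
  induction l generalizing ω with
  | nil => simp only [kp, Dg_cg_good hω]
  | cons s l ih =>
    simp only [kp, Dg_cg_good hω]
    rw [ih ((good_inv h s ω).2 hω)]
    unfold cg
    rw [if_pos hω]

theorem rc_cg [IsProbabilityMeasure μ] (h : Sta μ τ) (hc : Con τ c) : RC τ (cg τ c) where
  meas y := Measurable.ite (good_meas h hc) (hc.meas y) measurable_const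
  symm ω y := by
    unfold cg
    by_cases hω : ω ∈ Good τ c
    · rw [if_pos hω, if_pos ((good_inv h y ω).2 hω), hc.symm]
    · rw [if_neg hω, if_neg (fun h' => hω ((good_inv h y ω).1 h'))]
  fin ω := by
    by_cases hω : ω ∈ Good τ c
    · rw [Dg_cg_good hω]
      have := (hω 0).1
      rwa [h.zero] at this
    · rw [Dg_cg_bad hω]; exact ENNReal.zero_ne_top
  mass ω := by
    by_cases hω : ω ∈ Good τ c
    · simp_rw [kp_cg_good h hω]
      have := (hω 0).2
      rwa [h.zero] at this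
    · rw [tsum_list]
      have h1 : ∀ s l, kp τ (cg τ c) ω (s :: l) = 0 := fun s l => by
        have : cg τ c ω s = 0 := by unfold cg; rw [if_neg hω]
        simp only [kp, this, zero_mul]
      simp only [h1, tsum_zero]
      simp [kp, Dg_cg_bad hω]

/-! ### reversal of runs -/

theorem kp_snoc (h : Sta μ τ) (ω : Ω) (l : List (Vd d)) (s : Vd d) :
    kp τ c ω (l ++ [s]) = kp τ c ω l * (c (τ l.sum ω) s * (1 + Dg c (τ (l.sum + s) ω))⁻¹) := by
  induction l generalizing ω with
  | nil =>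
    simp only [List.nil_append, kp, List.sum_nil, h.zero, zero_add]
    ring
  | cons a l ih =>
    simp only [List.cons_append, kp, List.sum_cons]
    rw [ih, h.add, h.add, add_assoc]
    ring

/-- the reversed list of the opposite steps -/
def rn (l : List (Vd d)) : List (Vd d) := (l.map (fun s => -s)).reverse

theorem rn_sum (l : List (Vd d)) : (rn l).sum = - l.sum := by
  induction l with
  | nil => simp [rn]
  | cons s l ih =>
    have : rn (s :: l) = rn l ++ [-s] := by simp [rn]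
    rw [this, List.sum_append, ih]
    simp

theorem rn_rn (l : List (Vd d)) : rn (rn l) = l := by
  unfold rn
  rw [List.map_reverse, List.reverse_reverse, List.map_map]
  simp [Function.comp_def]

/-- reversal is a bijection -/
def rnEquiv : List (Vd d) ≃ List (Vd d) := ⟨rn, rn, rn_rn, rn_rn⟩

theorem kp_rn (h : Sta μ τ) (hc : Con τ c) (ω : Ω) (l : List (Vd d)) :
    kp τ c ω l = kp τ c (τ l.sum ω) (rn l) := by
  induction l generalizing ω with
  | nil => simp [rn, kp, h.zero]
  | cons s l ih =>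
    have e : rn (s :: l) = rn l ++ [-s] := by simp [rn]
    rw [e, kp_snoc h, List.sum_cons, ← h.add s l.sum ω, ← ih (τ s ω), rn_sum, h.add, h.add, h.add, h.add]
    have e1 : s + (l.sum + -l.sum) = s := by abel
    have e2 : s + (l.sum + (-l.sum + -s)) = 0 := by abel
    rw [e1, e2, h.zero, kp, ← hc.symm]
    ring

/-- the kernel of the walk observed at the ends of the runs -/
noncomputable def qr (τ : Vd d → Ω → Ω) (c : Ω → Vd d → ℝ≥0∞) (ω : Ω) (y : Vd d) : ℝ≥0∞ :=
  ∑' l : List (Vd d), (if l.sum = y then kp τ c ω l else 0)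

theorem ker_qr (h : Sta μ τ) (hc : RC τ c) : Ker τ (qr τ c) where
  meas y := Measurable.tsum fun l => by
    by_cases hl : l.sum = y
    · simp only [hl, if_true]; exact kp_meas h hc.toCon l
    · simp only [hl, if_false]; exact measurable_const
  one ω := by
    unfold qr
    rw [ENNReal.tsum_comm, ← hc.mass ω]
    exact tsum_congr fun l => by rw [tsum_eq_single l.sum (fun y hy => if_neg (Ne.symm hy)), if_pos rfl]
  symm ω y := by
    unfold qr
    rw [← rnEquiv.tsum_eq (fun l : List (Vd d) => if l.sum = -y then kp τ c (τ y ω) l else 0)]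
    refine tsum_congr fun l => ?_
    show _ = if (rn l).sum = -y then kp τ c (τ y ω) (rn l) else 0
    rw [rn_sum]
    by_cases hl : l.sum = y
    · rw [if_pos hl, if_pos (by rw [hl]), kp_rn h hc.toCon ω l, hl]
    · rw [if_neg hl, if_neg (fun h' => hl (neg_injective h'))]

theorem tsum_qr (ω : Ω) (F : Vd d → ℝ≥0∞) :
    ∑' y, qr τ c ω y * F y = ∑' l : List (Vd d), kp τ c ω l * F l.sum := by
  unfold qr
  simp_rw [← ENNReal.tsum_mul_right]
  rw [ENNReal.tsum_comm]
  refine tsum_congr fun l => ?_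
  rw [tsum_eq_single l.sum]
  · rw [if_pos rfl]
  · intro y hy
    rw [if_neg (Ne.symm hy), zero_mul]

theorem Qo_qr (ω : Ω) (f : Ω → ℝ≥0∞) :
    Qo τ (qr τ c) f ω = ∑' l : List (Vd d), kp τ c ω l * f (τ l.sum ω) := by
  unfold Qo
  exact tsum_qr ω (fun y => f (τ y ω))

/-- the resolvent equation -/
theorem Qo_first (h : Sta μ τ) (hc : RC τ c) (ω : Ω) (f : Ω → ℝ≥0∞) :
    (1 + Dg c ω) * Qo τ (qr τ c) f ω = f ω + ∑' s, c ω s * Qo τ (qr τ c) f (τ s ω) := by
  rw [Qo_qr, kp_first ω (fun l => f (τ l.sum ω)), ← mul_assoc, mul_inv_one_add (hc.fin ω), one_mul]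
  simp only [List.sum_nil, h.zero, List.sum_cons]
  congr 1
  refine tsum_congr fun s => ?_
  rw [Qo_qr]
  congr 1
  exact tsum_congr fun l => by rw [h.add]

theorem kp_single_le (ω : Ω) (y : Vd d) : kp τ c ω [y] ≤ qr τ c ω y := by
  unfold qr
  refine le_trans (le_of_eq ?_) (ENNReal.le_tsum [y])
  simp

end Pool.Agent.H979.QIP
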