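import Pool.Agent.H979.QIP.Run2
import Pool.Agent.H979.QIP.Modu2

set_option autoImplicit false
set_option linter.unusedSectionVars false
set_option linter.deprecated false
set_option linter.unusedVariables false
set_option linter.style.haveILetI false

open MeasureTheory ProbabilityTheory Filter Topology Set
open scoped ENNReal NNReal

/-!
# The chain of the runs
-/

namespace Pool.Agent.H979.QIP

/-- a position together with the run which leads to it -/
structure RS (d : ℕ) where
  pos : Vd d
  run : List (Vd d)

/-- as a product -/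
def RS.equiv (d : ℕ) : RS d ≃ Vd d × List (Vd d) where
  toFun s := (s.pos, s.run)
  invFun p := ⟨p.1, p.2⟩
  left_inv _ := rfl
  right_inv _ := rfl

instance (d : ℕ) : Countable (RS d) := (RS.equiv d).countable_iff.2 inferInstance
instance (d : ℕ) : MeasurableSpace (RS d) := ⊤
instance (d : ℕ) : DiscreteMeasurableSpace (RS d) := ⟨fun _ => trivial⟩

variable {Ω : Type*} [MeasurableSpace Ω] {d : ℕ} {μ : Measure Ω} {τ : Vd d → Ω → Ω}
  {c : Ω → Vd d → ℝ≥0∞}

/-- the kernel of the chain of the runs -/
noncomputable def qR (τ : Vd d → Ω → Ω) (c : Ω → Vd d → ℝ≥0∞) (ω : Ω) (s : RS d) :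
    Measure (RS d) :=
  Measure.sum fun l => kp τ c (τ s.pos ω) l • Measure.dirac ⟨s.pos + l.sum, l⟩

theorem lintegral_qR (ω : Ω) (s : RS d) (f : RS d → ℝ≥0∞) :
    ∫⁻ y, f y ∂(qR τ c ω s) = ∑' l, kp τ c (τ s.pos ω) l * f ⟨s.pos + l.sum, l⟩ := by
  unfold qR
  rw [lintegral_sum_measure]
  refine tsum_congr fun y => ?_
  rw [lintegral_smul_measure, lintegral_dirac, smul_eq_mul]

theorem qR_prob (hc : RC τ c) (ω : Ω) (s : RS d) : IsProbabilityMeasure (qR τ c ω s) := by
  constructor
  have h := lintegral_qR (τ := τ) (c := c) ω s (fun _ => 1)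
  rw [lintegral_const, one_mul] at h
  rw [h]
  simp [hc.mass]

section chain

variable {X : Type*} [Countable X] [MeasurableSpace X] [MeasurableSingletonClass X]
  (q : X → Measure X) [∀ x, IsProbabilityMeasure (q x)]

/-- sums of functions of the steps -/
theorem lintegral_steps (F : X → X → ℝ≥0∞) (n : ℕ) (x : X) :
    ∫⁻ w, ∑ j ∈ Finset.range n, F (w j) (w (j + 1)) ∂(P q x) =
      ∫⁻ w, A (fun x => ∫⁻ y, F x y ∂(q x)) n w ∂(P q x) := by
  have hm : ∀ n, Measurable (fun w : ℕ → X => ∑ j ∈ Finset.range n, F (w j) (w (j + 1))) := fun n =>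
    Dep.measurable (N := n) fun w w' hw => Finset.sum_congr rfl fun j hj => by
      have hj := Finset.mem_range.1 hj
      rw [hw j (by omega), hw (j + 1) (by omega)]
  induction n generalizing x with
  | zero => simp [A]
  | succ n ih =>
    rw [lintegral_P q x (hm (n + 1)), lintegral_P q x (dep_A _ le_rfl).measurable]
    have e1 : ∀ y, ∫⁻ w, ∑ j ∈ Finset.range (n + 1), F (cons x w j) (cons x w (j + 1)) ∂(P q y) =
        F x y + ∫⁻ w, A (fun x => ∫⁻ y, F x y ∂(q x)) n w ∂(P q y) := by
      intro y
      have e0 : F x y = ∫⁻ w, F x y ∂(P q y) := by rw [lintegral_const, measure_univ, mul_one]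
      rw [← ih y]
      conv_rhs => rw [e0]
      rw [← lintegral_add_left measurable_const]
      refine lintegral_congr_ae ?_
      filter_upwards [P_zero q y] with w hw
      rw [Finset.sum_range_succ']
      simp only [cons_succ, cons_zero, zero_add]
      rw [hw, add_comm]
    have e2 : ∀ y, ∫⁻ w, A (fun x => ∫⁻ y, F x y ∂(q x)) (n + 1) (cons x w) ∂(P q y) =
        ∫⁻ y, F x y ∂(q x) + ∫⁻ w, A (fun x => ∫⁻ y, F x y ∂(q x)) n w ∂(P q y) := by
      intro y
      simp_rw [A_cons]
      rw [lintegral_add_left measurable_const, lintegral_const, measure_univ, mul_one]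
    simp_rw [e1, e2]
    rw [lintegral_add_left (measurable_of_countable _), lintegral_add_left measurable_const,
      lintegral_const, measure_univ, mul_one]

end chain

/-- the positions at the ends of the runs form the chain with kernel `qr` -/
theorem lump (h : Sta μ τ) (hc : RC τ c) (ω : Ω) {N : ℕ} {F : (ℕ → Vd d) → ℝ≥0∞} (hF : Dep N F)
    (s : RS d) :
    haveI := qM_prob (ker_qr h hc) ω
    haveI := qR_prob hc ω
    ∫⁻ w, F (fun k => (w k).pos) ∂(P (qR τ c ω) s) =
      ∫⁻ w, F w ∂(P (qM τ (qr τ c) ω) s.pos) := by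
  haveI := qM_prob (ker_qr h hc) ω
  haveI := qR_prob hc ω
  have hdep : ∀ {N : ℕ} {F : (ℕ → Vd d) → ℝ≥0∞}, Dep N F →
      Dep N (fun w : ℕ → RS d => F (fun k => (w k).pos)) := fun hF w w' hw =>
    hF _ _ fun k hk => by rw [hw k hk]
  induction N generalizing F s with
  | zero =>
    have e1 : ∫⁻ w, F (fun k => (w k).pos) ∂(P (qR τ c ω) s) = ∫⁻ w, F (fun _ => s.pos) ∂(P (qR τ c ω) s) := by
      refine lintegral_congr_ae ?_
      filter_upwards [P_zero (qR τ c ω) s] with w hw
      refine hF _ _ fun k hk => ?_
      have : k = 0 := by omega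
      subst this
      rw [hw]
    have e2 : ∫⁻ w, F w ∂(P (qM τ (qr τ c) ω) s.pos) =
        ∫⁻ w, F (fun _ => s.pos) ∂(P (qM τ (qr τ c) ω) s.pos) := by
      refine lintegral_congr_ae ?_
      filter_upwards [P_zero (qM τ (qr τ c) ω) s.pos] with w hw
      refine hF _ _ fun k hk => ?_
      have : k = 0 := by omega
      subst this
      rw [hw]
    rw [e1, e2]
    simp
  | succ N ih =>
    rw [lintegral_P _ _ (hdep hF).measurable, lintegral_P _ _ hF.measurable]
    have hF' : Dep N (fun w => F (cons s.pos w)) := fun w w' hw => hF _ _ fun k hk => by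
      cases k with
      | zero => rfl
      | succ k => exact hw k (by omega)
    have e1 : ∀ y : RS d, ∫⁻ w, F (fun k => (cons s w k).pos) ∂(P (qR τ c ω) y) =
        ∫⁻ w, F (cons s.pos w) ∂(P (qM τ (qr τ c) ω) y.pos) := by
      intro y
      rw [← ih hF' y]
      refine lintegral_congr fun w => ?_
      congr 1
      funext k
      cases k with
      | zero => rfl
      | succ k => rfl
    simp_rw [e1]
    rw [lintegral_qR, lintegral_qM,
      tsum_qr (τ s.pos ω) (fun y => ∫⁻ w, F (cons s.pos w) ∂(P (qM τ (qr τ c) ω) (s.pos + y)))]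

theorem lump_set (h : Sta μ τ) (hc : RC τ c) (ω : Ω) {N : ℕ} {E : Set (ℕ → Vd d)}
    (hE : Dep N (fun w => w ∈ E)) (s : RS d) :
    haveI := qM_prob (ker_qr h hc) ω
    haveI := qR_prob hc ω
    P (qR τ c ω) s {w | (fun k => (w k).pos) ∈ E} = P (qM τ (qr τ c) ω) s.pos E := by
  classical
  haveI := qM_prob (ker_qr h hc) ω
  haveI := qR_prob hc ω
  have hF : Dep N (E.indicator (1 : (ℕ → Vd d) → ℝ≥0∞)) := by
    intro w w' hw
    have := hE w w' hw
    simp only [eq_iff_iff] at this
    by_cases h1 : w ∈ E
    · rw [indicator_of_mem h1, indicator_of_mem (this.1 h1)]; rfl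
    · rw [indicator_of_notMem h1, indicator_of_notMem (fun h2 => h1 (this.2 h2))]
  have h1 := lump h hc ω hF s
  rw [lintegral_indicator_one hE.measurableSet] at h1
  rw [← h1]
  have hE' : Dep N (fun w : ℕ → RS d => w ∈ {w : ℕ → RS d | (fun k => (w k).pos) ∈ E}) := by
    intro w w' hw
    exact hE _ _ fun k hk => by rw [hw k hk]
  rw [← lintegral_indicator_one hE'.measurableSet]
  refine lintegral_congr fun w => ?_
  simp only [indicator_apply, mem_setOf_eq, Pi.one_apply]

/-! ### the law of the concatenated runs -/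

/-- the concatenation of the runs -/
def cat : ℕ → (ℕ → RS d) → List (Vd d)
  | 0, _ => []
  | m + 1, w => (w 1).run ++ cat m (fun k => w (k + 1))

theorem cat_cons (m : ℕ) (s : RS d) (w : ℕ → RS d) :
    cat (m + 1) (cons s w) = (w 0).run ++ cat m w := rfl

theorem dep_cat (m : ℕ) : Dep m (cat (d := d) m) := by
  induction m with
  | zero => intro w w' _; rfl
  | succ m ih =>
    intro w w' hw
    simp only [cat]
    rw [hw 1 (by omega), ih _ _ fun k hk => hw (k + 1) (by omega)]

/-- the weight of a sequence of steps under the jump walk -/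
noncomputable def jw (τ : Vd d → Ω → Ω) (c : Ω → Vd d → ℝ≥0∞) : Ω → List (Vd d) → ℝ≥0∞
  | _, [] => 1
  | ω, s :: l => c ω s / Dg c ω * jw τ c (τ s ω) l

theorem start_indep (hc : RC τ c) (ω : Ω) (m : ℕ) (x : Vd d) (l l' l₀ z : List (Vd d)) :
    haveI := qR_prob hc ω
    P (qR τ c ω) ⟨x, l⟩ {w | z <+: l₀ ++ cat m w} = P (qR τ c ω) ⟨x, l'⟩ {w | z <+: l₀ ++ cat m w} := by
  haveI := qR_prob hc ω
  have hms : MeasurableSet {w : ℕ → RS d | z <+: l₀ ++ cat m w} := by
    refine Dep.measurableSet (N := m) fun w w' hw => ?_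
    simp only [mem_setOf_eq]
    rw [dep_cat m w w' hw]
  rw [P_apply _ _ hms, P_apply _ _ hms]
  have e : qR τ c ω ⟨x, l⟩ = qR τ c ω ⟨x, l'⟩ := rfl
  rw [e]
  refine lintegral_congr fun y => ?_
  congr 1
  ext w
  simp only [mem_setOf_eq]
  cases m with
  | zero => rfl
  | succ m => rfl

/-- the probability that the runs start with the given steps -/
theorem cat_le (h : Sta μ τ) (hc : RC τ c) (ω : Ω) (m : ℕ) (s : RS d) (z : List (Vd d)) :
    haveI := qR_prob hc ω
    P (qR τ c ω) s {w | z <+: cat m w} ≤ jw τ c (τ s.pos ω) z := by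
  classical
  haveI := qR_prob hc ω
  have hms : ∀ (m : ℕ) (z l : List (Vd d)), MeasurableSet {w : ℕ → RS d | z <+: l ++ cat m w} := by
    intro m z l
    refine Dep.measurableSet (N := m) fun w w' hw => ?_
    simp only [mem_setOf_eq]
    rw [dep_cat m w w' hw]
  -- the statement for a run which has started
  induction m generalizing s z with
  | zero =>
    cases z with
    | nil => simp only [jw]; exact prob_le_one
    | cons a z =>
      have : {w : ℕ → RS d | (a :: z) <+: cat 0 w} = ∅ := by
        ext w
        simp [cat]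
      rw [this, measure_empty]
      exact zero_le
  | succ m ih =>
    -- induction on the list
    have key : ∀ (z : List (Vd d)) (x : Vd d),
        ∑' l, kp τ c (τ x ω) l * P (qR τ c ω) ⟨x + l.sum, l⟩ {w | z <+: l ++ cat m w} ≤
          jw τ c (τ x ω) z := by
      intro z
      induction z with
      | nil =>
        intro x
        simp only [jw]
        refine (ENNReal.tsum_le_tsum fun l => ?_).trans (kp_total_le (τ := τ) (c := c) (τ x ω))
        calc _ ≤ kp τ c (τ x ω) l * 1 := mul_le_mul' le_rfl prob_le_one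
          _ = _ := mul_one _
      | cons a z ihz =>
        intro x
        rw [kp_first (τ x ω) (fun l => P (qR τ c ω) ⟨x + l.sum, l⟩ {w | (a :: z) <+: l ++ cat m w})]
        have h1 : P (qR τ c ω) ⟨x + ([] : List (Vd d)).sum, []⟩ {w | (a :: z) <+: [] ++ cat m w} ≤
            jw τ c (τ x ω) (a :: z) := by
          have := ih ⟨x + ([] : List (Vd d)).sum, []⟩ (a :: z)
          simpa using this
        have h2 : ∑' s, c (τ x ω) s * ∑' l : List (Vd d), kp τ c (τ s (τ x ω)) l *
            P (qR τ c ω) ⟨x + (s :: l).sum, s :: l⟩ {w | (a :: z) <+: (s :: l) ++ cat m w} ≤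
            c (τ x ω) a * jw τ c (τ a (τ x ω)) z := by
          rw [tsum_eq_single a]
          · refine mul_le_mul' le_rfl ?_
            have h3 := ihz (x + a)
            rw [← h.add x a ω] at h3
            refine le_trans (le_of_eq ?_) h3
            refine tsum_congr fun l => ?_
            congr 1
            have e1 : x + (a :: l).sum = x + a + l.sum := by rw [List.sum_cons]; abel
            have e2 : {w : ℕ → RS d | (a :: z) <+: (a :: l) ++ cat m w} =
                {w | z <+: l ++ cat m w} := by
              ext w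
              simp [List.cons_prefix_cons]
            rw [e2, e1]
            exact start_indep hc ω m _ _ _ _ _
          · intro s hs
            have : ∀ l : List (Vd d), {w : ℕ → RS d | (a :: z) <+: (s :: l) ++ cat m w} = ∅ := by
              intro l
              ext w
              simp [List.cons_prefix_cons, Ne.symm hs]
            simp only [this, measure_empty, mul_zero, tsum_zero]
        refine (mul_le_mul' le_rfl (add_le_add h1 h2)).trans (le_of_eq ?_)
        have h4 : c (τ x ω) a * jw τ c (τ a (τ x ω)) z = Dg c (τ x ω) * jw τ c (τ x ω) (a :: z) := by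
          simp only [jw]
          by_cases hD : Dg c (τ x ω) = 0
          · have : c (τ x ω) a = 0 := by
              have h5 := ENNReal.le_tsum (f := fun y => c (τ x ω) y) a
              have h6 : c (τ x ω) a ≤ 0 := h5.trans (le_of_eq hD)
              exact le_antisymm h6 zero_le
            rw [this]; simp
          · rw [← mul_assoc, ENNReal.mul_div_cancel hD (hc.fin _)]
        rw [h4]
        calc (1 + Dg c (τ x ω))⁻¹ * (jw τ c (τ x ω) (a :: z) + Dg c (τ x ω) * jw τ c (τ x ω) (a :: z)) =
            ((1 + Dg c (τ x ω)) * (1 + Dg c (τ x ω))⁻¹) * jw τ c (τ x ω) (a :: z) := by ring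
          _ = _ := by rw [mul_inv_one_add (hc.fin _), one_mul]
    have hm' : MeasurableSet {w : ℕ → RS d | z <+: cat (m + 1) w} := by
      have := hms (m + 1) z []
      simpa using this
    rw [P_apply _ _ hm', lintegral_qR]
    refine (ENNReal.tsum_le_tsum fun l => mul_le_mul' le_rfl (measure_mono_ae ?_)).trans (key z s.pos)
    filter_upwards [P_zero (qR τ c ω) ⟨s.pos + l.sum, l⟩] with w hw hw2
    have hw3 : z <+: (w 0).run ++ cat m w := hw2
    rw [hw] at hw3
    exact hw3

/-- the weights of the jump walk have total mass at most one -/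
theorem jw_total (h : Sta μ τ) (hc : RC τ c) (ω : Ω) (n : ℕ) :
    ∑' z : List (Vd d), (if z.length = n then jw τ c ω z else 0) ≤ 1 := by
  induction n generalizing ω with
  | zero =>
    rw [tsum_eq_single []]
    · simp [jw]
    · intro z hz
      rw [if_neg]
      simpa using hz
  | succ n ih =>
    rw [tsum_list]
    simp only [List.length_nil, List.length_cons, Nat.add_right_cancel_iff]
    rw [if_neg (by omega), zero_add]
    have h1 : ∀ s : Vd d, ∑' z : List (Vd d), (if z.length = n then jw τ c ω (s :: z) else 0) ≤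
        c ω s / Dg c ω := by
      intro s
      have e : ∀ z : List (Vd d), (if z.length = n then jw τ c ω (s :: z) else 0) =
          c ω s / Dg c ω * (if z.length = n then jw τ c (τ s ω) z else 0) := fun z => by
        split_ifs
        · simp only [jw]
        · simp
      simp_rw [e]
      rw [ENNReal.tsum_mul_left]
      calc _ ≤ c ω s / Dg c ω * 1 := mul_le_mul' le_rfl (ih _)
        _ = _ := mul_one _
    refine (ENNReal.tsum_le_tsum h1).trans ?_
    simp_rw [div_eq_mul_inv]
    rw [ENNReal.tsum_mul_right]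
    exact ENNReal.div_self_le_one

end Pool.Agent.H979.QIP
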