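import Pool.Agent.H979.QIP.Main3

set_option autoImplicit false
set_option linter.unusedSectionVars false
set_option linter.deprecated false
set_option linter.unusedVariables false
set_option linter.style.haveILetI false

open MeasureTheory ProbabilityTheory Filter Topology Set
open scoped ENNReal NNReal

/-!
# The Skorokhod space on the half line
-/

namespace Pool.Agent.H979.QIP

/-- all paths -/
def Pth (d : ℕ) : Type := ℝ≥0 → (Fin d → ℝ)

/-- closeness of two paths after a change of time -/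
def SkOK {d : ℕ} (x y : Pth d) (ε : ℝ) : Prop :=
  ∃ l : ℝ≥0 ≃o ℝ≥0, (∀ t : ℝ≥0, |((l t : ℝ≥0) : ℝ) - t| ≤ ε) ∧
    ∀ t : ℝ≥0, (t : ℝ) ≤ 1 / ε → ((l t : ℝ≥0) : ℝ) ≤ 1 / ε → ∀ i, |x (l t) i - y t i| ≤ ε

/-- the admissible values -/
def SkS {d : ℕ} (x y : Pth d) : Set ℝ := {ε | 0 < ε ∧ (1 ≤ ε ∨ SkOK x y ε)}

variable {d : ℕ}

theorem SkS_one (x y : Pth d) : (1 : ℝ) ∈ SkS x y := ⟨one_pos, Or.inl le_rfl⟩

theorem SkS_bdd (x y : Pth d) : BddBelow (SkS x y) := ⟨0, fun ε h => h.1.le⟩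

theorem SkOK_symm {x y : Pth d} {ε : ℝ} (h : SkOK x y ε) : SkOK y x ε := by
  obtain ⟨l, h1, h2⟩ := h
  refine ⟨l.symm, fun t => ?_, fun t ht hlt i => ?_⟩
  · have := h1 (l.symm t)
    rw [l.apply_symm_apply] at this
    rwa [abs_sub_comm]
  · have := h2 (l.symm t) hlt (by rw [l.apply_symm_apply]; exact ht) i
    rw [l.apply_symm_apply] at this
    rwa [abs_sub_comm]

theorem SkS_symm (x y : Pth d) : SkS x y = SkS y x := by
  ext ε
  constructor
  · rintro ⟨h, h1⟩; exact ⟨h, h1.imp id SkOK_symm⟩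
  · rintro ⟨h, h1⟩; exact ⟨h, h1.imp id SkOK_symm⟩

theorem SkS_add {x y z : Pth d} {a b : ℝ} (ha : a ∈ SkS x y) (hb : b ∈ SkS y z) :
    a + b ∈ SkS x z := by
  obtain ⟨ha0, ha⟩ := ha
  obtain ⟨hb0, hb⟩ := hb
  refine ⟨by positivity, ?_⟩
  by_cases hab : 1 ≤ a + b
  · exact Or.inl hab
  right
  rw [not_le] at hab
  have ha' := ha.resolve_left (by linarith)
  have hb' := hb.resolve_left (by linarith)
  obtain ⟨l, h1, h2⟩ := ha'
  obtain ⟨l', h1', h2'⟩ := hb'
  -- the bounds of the horizon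
  have hs : 0 < a + b := by positivity
  have k1 : 1 / (a + b) + b ≤ 1 / a := by
    have : 1 / (a + b) + b = (1 + b * (a + b)) / (a + b) := by field_simp
    rw [this, div_le_div_iff₀ hs ha0]
    have h5 : a * (a + b) ≤ 1 := by nlinarith
    nlinarith [mul_le_mul_of_nonneg_left h5 hb0.le]
  have k2 : 1 / (a + b) + a ≤ 1 / b := by
    have : 1 / (a + b) + a = (1 + a * (a + b)) / (a + b) := by field_simp
    rw [this, div_le_div_iff₀ hs hb0]
    have h5 : b * (a + b) ≤ 1 := by nlinarith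
    nlinarith [mul_le_mul_of_nonneg_left h5 ha0.le]
  have k3 : 1 / (a + b) ≤ 1 / a := by linarith
  have k4 : 1 / (a + b) ≤ 1 / b := by linarith
  refine ⟨l'.trans l, fun t => ?_, fun t ht hlt i => ?_⟩
  · have e1 := h1 (l' t)
    have e2 := h1' t
    have e3 : (((l'.trans l) t : ℝ≥0) : ℝ) - t = (((l (l' t) : ℝ≥0) : ℝ) - (l' t : ℝ≥0)) +
        (((l' t : ℝ≥0) : ℝ) - t) := by
      simp only [OrderIso.trans_apply]
      ring
    rw [e3]
    exact (abs_add_le _ _).trans (add_le_add e1 e2)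
  · simp only [OrderIso.trans_apply] at hlt ⊢
    have e1 := abs_le.1 (h1 (l' t))
    have e2 := abs_le.1 (h1' t)
    have f1 := h2 (l' t) (by linarith [e2.2]) (by linarith) i
    have f2 := h2' t (by linarith) (by linarith [e1.1]) i
    have e3 : x (l (l' t)) i - z t i = (x (l (l' t)) i - y (l' t) i) + (y (l' t) i - z t i) := by ring
    rw [e3]
    exact (abs_add_le _ _).trans (add_le_add f1 f2)

noncomputable instance : PseudoMetricSpace (Pth d) where
  dist x y := sInf (SkS x y)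
  dist_self x := by
    refine le_antisymm ?_ (le_csInf ⟨1, SkS_one x x⟩ fun ε h => h.1.le)
    refine le_of_forall_pos_le_add fun ε hε => ?_
    rw [zero_add]
    refine csInf_le (SkS_bdd x x) ⟨hε, Or.inr ⟨OrderIso.refl _, fun t => ?_, fun t _ _ i => ?_⟩⟩
    · simp [hε.le]
    · simp [hε.le]
  dist_comm x y := by rw [SkS_symm]
  dist_triangle x y z := by
    refine le_of_forall_pos_le_add fun ε hε => ?_
    obtain ⟨a, ha, ha'⟩ := exists_lt_of_csInf_lt ⟨1, SkS_one x y⟩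
      (show sInf (SkS x y) < sInf (SkS x y) + ε / 2 by linarith)
    obtain ⟨b, hb, hb'⟩ := exists_lt_of_csInf_lt ⟨1, SkS_one y z⟩
      (show sInf (SkS y z) < sInf (SkS y z) + ε / 2 by linarith)
    have := csInf_le (SkS_bdd x z) (SkS_add ha hb)
    linarith

theorem skdist_le {x y : Pth d} {ε : ℝ} (hε : 0 < ε)
    (h : ∀ t : ℝ≥0, (t : ℝ) ≤ 1 / ε → ∀ i, |x t i - y t i| ≤ ε) : dist x y ≤ ε :=
  csInf_le (SkS_bdd x y) ⟨hε, Or.inr ⟨OrderIso.refl _, fun t => by simp [hε.le],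
    fun t ht _ i => h t ht i⟩⟩

/-- right continuous paths with left limits -/
def Cadlag (x : ℝ≥0 → (Fin d → ℝ)) : Prop :=
  ∀ t, ContinuousWithinAt x (Ici t) t ∧ ∃ l, Tendsto x (𝓝[<] t) (𝓝 l)

/-- the Skorokhod space `D([0, ∞), ℝ ^ d)` -/
def Sk (d : ℕ) : Type := {x : Pth d // Cadlag x}

noncomputable instance : PseudoMetricSpace (Sk d) := inferInstanceAs (PseudoMetricSpace {x : Pth d // Cadlag x})

theorem cadlag_of_continuous {x : ℝ≥0 → (Fin d → ℝ)} (h : Continuous x) : Cadlag x := fun t =>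
  ⟨h.continuousWithinAt, ⟨x t, (h.tendsto t).mono_left nhdsWithin_le_nhds⟩⟩

/-- step functions are in the Skorokhod space -/
theorem cadlag_step (m : ℕ) (v : ℕ → (Fin d → ℝ)) : Cadlag (fun t : ℝ≥0 => v ⌊(m : ℝ) * t⌋₊) := by
  intro t
  constructor
  · -- locally constant on the right
    refine ContinuousWithinAt.congr_of_eventuallyEq (f := fun _ => v ⌊(m : ℝ) * t⌋₊)
      continuousWithinAt_const ?_ rfl
    have h1 : (m : ℝ) * t < ⌊(m : ℝ) * t⌋₊ + 1 := Nat.lt_floor_add_one _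
    have h2 : ∀ᶠ s : ℝ≥0 in 𝓝 t, (m : ℝ) * s < ⌊(m : ℝ) * t⌋₊ + 1 :=
      ((continuous_const.mul NNReal.continuous_coe).tendsto t).eventually (gt_mem_nhds h1)
    filter_upwards [self_mem_nhdsWithin, nhdsWithin_le_nhds h2] with s hs hs2
    have h3 : t ≤ s := hs
    have h4 : ⌊(m : ℝ) * s⌋₊ = ⌊(m : ℝ) * t⌋₊ := by
      refine le_antisymm ?_ (Nat.floor_le_floor (by
        have : (t : ℝ) ≤ s := by exact_mod_cast h3
        exact mul_le_mul_of_nonneg_left this (Nat.cast_nonneg _)))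
      exact Nat.lt_succ_iff.1 ((Nat.floor_lt (by positivity)).2 (by push_cast; exact hs2))
    rw [h4]
  · -- locally constant on the left
    refine ⟨v (⌈(m : ℝ) * t⌉₊ - 1), ?_⟩
    refine tendsto_const_nhds.congr' ?_
    by_cases h0 : (m : ℝ) * t = 0
    · filter_upwards [self_mem_nhdsWithin] with s hs
      have h3 : s < t := hs
      have h5 : (m : ℝ) = 0 := by
        have ht : (t : ℝ) ≠ 0 := by
          have : (0 : ℝ≥0) < t := lt_of_le_of_lt zero_le h3
          exact_mod_cast this.ne'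
        exact (mul_eq_zero.1 h0).resolve_right ht
      rw [h0, h5]
      simp
    · have hpos : 0 < (m : ℝ) * t := lt_of_le_of_ne (by positivity) (Ne.symm h0)
      have hc : 1 ≤ ⌈(m : ℝ) * t⌉₊ := Nat.one_le_iff_ne_zero.2 (by
        rw [Ne, Nat.ceil_eq_zero, not_le]; exact hpos)
      have h1 : ((⌈(m : ℝ) * t⌉₊ - 1 : ℕ) : ℝ) < (m : ℝ) * t := by
        have := Nat.ceil_lt_add_one hpos.le
        rw [Nat.cast_sub hc]
        push_cast
        linarith
      have h2 : ∀ᶠ s : ℝ≥0 in 𝓝 t, ((⌈(m : ℝ) * t⌉₊ - 1 : ℕ) : ℝ) < (m : ℝ) * s :=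
        ((continuous_const.mul NNReal.continuous_coe).tendsto t).eventually (lt_mem_nhds h1)
      filter_upwards [self_mem_nhdsWithin, nhdsWithin_le_nhds h2] with s hs hs2
      have h3 : s < t := hs
      congr 1
      refine le_antisymm ((Nat.le_floor_iff (by positivity)).2 hs2.le) ?_
      have hmp : 0 < (m : ℝ) := by
        by_contra hcon
        have : (m : ℝ) = 0 := le_antisymm (not_lt.1 hcon) (Nat.cast_nonneg _)
        rw [this, zero_mul] at hpos
        exact lt_irrefl _ hpos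
      have h4 : (m : ℝ) * s < (m : ℝ) * t := by
        have : (s : ℝ) < t := by exact_mod_cast h3
        exact mul_lt_mul_of_pos_left this hmp
      have h5 : (m : ℝ) * s < ⌈(m : ℝ) * t⌉₊ := h4.trans_le (Nat.le_ceil _)
      have h6 : ⌊(m : ℝ) * s⌋₊ < ⌈(m : ℝ) * t⌉₊ := (Nat.floor_lt (by positivity)).2 h5
      omega

/-- the step path with the given values -/
noncomputable def stpp (m : ℕ) (v : ℕ → (Fin d → ℝ)) : Sk d :=
  ⟨fun t : ℝ≥0 => v ⌊(m : ℝ) * t⌋₊, cadlag_step m v⟩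

/-- the rescaled step path -/
noncomputable def spath (n : ℕ) (w : ℕ → (Fin d → ℤ)) : Sk d := stpp n (fun k i => (w k i : ℝ) / √(n : ℝ))

/-- the path of a process with continuous paths -/
def wpath (x : ℝ → (Fin d → ℝ)) (hx : Continuous x) : Sk d :=
  ⟨fun t : ℝ≥0 => x t, cadlag_of_continuous (hx.comp NNReal.continuous_coe)⟩

theorem continuous_stpp (m : ℕ) : Continuous (stpp (d := d) m) := by
  rw [continuous_iff_continuousAt]
  intro v₀
  rw [ContinuousAt, Metric.tendsto_nhds]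
  intro ε hε
  have h1 : ∀ᶠ v : ℕ → (Fin d → ℝ) in 𝓝 v₀, ∀ k ∈ Finset.range (⌊(m : ℝ) * (1 / (ε / 2))⌋₊ + 1),
      ∀ i, |v k i - v₀ k i| < ε / 2 := by
    rw [Filter.eventually_all_finset]
    intro k _
    rw [eventually_all]
    intro i
    have h2 : Continuous (fun v : ℕ → (Fin d → ℝ) => |v k i - v₀ k i|) := by fun_prop
    have h3 : Tendsto (fun v : ℕ → (Fin d → ℝ) => |v k i - v₀ k i|) (𝓝 v₀) (𝓝 (|v₀ k i - v₀ k i|)) :=
      h2.tendsto v₀
    rw [sub_self, abs_zero] at h3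
    exact h3.eventually (gt_mem_nhds (by positivity))
  filter_upwards [h1] with v hv
  refine lt_of_le_of_lt (b := ε / 2) ?_ (by linarith)
  show dist (stpp m v).1 (stpp m v₀).1 ≤ ε / 2
  refine skdist_le (by positivity) fun t ht i => ?_
  refine (hv _ ?_ i).le
  rw [Finset.mem_range]
  exact Nat.lt_succ_iff.2 (Nat.floor_le_floor (mul_le_mul_of_nonneg_left ht (Nat.cast_nonneg _)))

end Pool.Agent.H979.QIP
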