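import Pool.Agent.H979.QIP.Sk

set_option autoImplicit false
set_option linter.unusedSectionVars false
set_option linter.deprecated false
set_option linter.unusedVariables false
set_option linter.style.haveILetI false

open MeasureTheory ProbabilityTheory Filter Topology Set
open scoped ENNReal NNReal

/-!
# Convergence in law in the Skorokhod space, from the convergence of the interpolations
-/

namespace Pool.Agent.H979.QIP

variable {d : ℕ}

theorem measurable_spath [MeasurableSpace (Sk d)] [BorelSpace (Sk d)] {Ξ : Type*}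
    [MeasurableSpace Ξ] {X : ℕ → Ξ → Vd d} (hX : ∀ k, Measurable (X k)) (n : ℕ) :
    Measurable (fun ξ => spath n (fun k => X k ξ)) := by
  refine (continuous_stpp n).measurable.comp ?_
  refine measurable_pi_lambda _ fun k => measurable_pi_lambda _ fun i => ?_
  have h1 : Measurable (fun v : Vd d => (v i : ℝ) / √(n : ℝ)) := measurable_of_countable _
  exact h1.comp (hX k)

theorem measurable_wpath [MeasurableSpace (Sk d)] [BorelSpace (Sk d)] {Ω' : Type*}
    [MeasurableSpace Ω'] {W : ℝ → Ω' → (Fin d → ℝ)} (hW : ∀ t, Measurable (W t))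
    (hc : ∀ ω', Continuous (fun t => W t ω')) :
    Measurable (fun ω' => wpath (fun t => W t ω') (hc ω')) := by
  refine measurable_of_tendsto_metrizable (f := fun (m : ℕ) ω' =>
    stpp (m + 1) (fun k => W ((k : ℝ) / (m + 1 : ℕ)) ω')) (fun m => ?_) ?_
  · refine (continuous_stpp (m + 1)).measurable.comp ?_
    exact measurable_pi_lambda _ fun k => hW _
  · rw [tendsto_pi_nhds]
    intro ω'
    rw [Metric.tendsto_nhds]
    intro ε hε
    -- uniform continuity
    have hu : UniformContinuousOn (fun t => W t ω') (Icc 0 (1 / (ε / 2))) :=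
      isCompact_Icc.uniformContinuousOn_of_continuous (hc ω').continuousOn
    rw [Metric.uniformContinuousOn_iff_le] at hu
    obtain ⟨δ, hδ, h1⟩ := hu (ε / 2) (by positivity)
    obtain ⟨N, hN⟩ := exists_nat_gt (1 / δ)
    filter_upwards [eventually_ge_atTop N] with m hm
    refine lt_of_le_of_lt (b := ε / 2) ?_ (by linarith)
    show dist (stpp (m + 1) (fun k => W ((k : ℝ) / (m + 1 : ℕ)) ω')).1
      (wpath (fun t => W t ω') (hc ω')).1 ≤ ε / 2
    refine skdist_le (by positivity) fun t ht i => ?_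
    have hm0 : (0 : ℝ) < (m + 1 : ℕ) := by positivity
    have hf1 : ((⌊((m + 1 : ℕ) : ℝ) * t⌋₊ : ℕ) : ℝ) ≤ (m + 1 : ℕ) * t := Nat.floor_le (by positivity)
    have hf2 : ((m + 1 : ℕ) : ℝ) * t < (⌊((m + 1 : ℕ) : ℝ) * t⌋₊ : ℕ) + 1 := Nat.lt_floor_add_one _
    have h2 := h1 ((⌊((m + 1 : ℕ) : ℝ) * t⌋₊ : ℕ) / ((m + 1 : ℕ) : ℝ)) ⟨by positivity, by
      rw [div_le_iff₀ hm0]
      refine hf1.trans ?_
      rw [mul_comm]
      exact mul_le_mul_of_nonneg_right ht hm0.le⟩ t ⟨t.2, ht⟩ (by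
        rw [Real.dist_eq, abs_sub_comm, abs_of_nonneg (by
          rw [sub_nonneg, div_le_iff₀ hm0]; linarith)]
        have h3 : (t : ℝ) - (⌊((m + 1 : ℕ) : ℝ) * t⌋₊ : ℕ) / ((m + 1 : ℕ) : ℝ) ≤ 1 / (m + 1 : ℕ) := by
          rw [sub_le_iff_le_add, ← add_div, le_div_iff₀ hm0]
          linarith
        refine h3.trans ?_
        rw [div_le_iff₀ hm0]
        rw [div_lt_iff₀ hδ] at hN
        have : (N : ℝ) ≤ (m + 1 : ℕ) := by exact_mod_cast (by omega : N ≤ m + 1)
        nlinarith)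
    have h3 := (dist_pi_le_iff (by positivity)).1 h2 i
    rwa [Real.dist_eq] at h3

section modulus

variable {T : ℝ}

/-- pairs of close times with a coordinate -/
def Prs (d : ℕ) (T δ : ℝ) : Type :=
  {p : Icc (0 : ℝ) T × Icc (0 : ℝ) T × Fin d // |(p.1 : ℝ) - p.2.1| ≤ δ}

/-- truncated modulus of continuity -/
noncomputable def md (d : ℕ) (T δ ε : ℝ) (φ : UniformFun (Icc (0 : ℝ) T) (Fin d → ℝ)) : ℝ :=
  ⨆ p : Prs d T δ, min 1 (|UniformFun.toFun φ p.1.1 p.1.2.2 - UniformFun.toFun φ p.1.2.1 p.1.2.2| / ε)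

theorem md_bdd (T δ ε : ℝ) (φ : UniformFun (Icc (0 : ℝ) T) (Fin d → ℝ)) :
    BddAbove (range fun p : Prs d T δ =>
      min 1 (|UniformFun.toFun φ p.1.1 p.1.2.2 - UniformFun.toFun φ p.1.2.1 p.1.2.2| / ε)) :=
  ⟨1, by rintro _ ⟨p, rfl⟩; exact min_le_left _ _⟩

theorem md_nonneg {ε : ℝ} (hε : 0 < ε) (T δ : ℝ) (φ : UniformFun (Icc (0 : ℝ) T) (Fin d → ℝ)) :
    0 ≤ md d T δ ε φ := Real.iSup_nonneg fun p => le_min zero_le_one (by positivity)

theorem md_le_one {ε : ℝ} (hε : 0 < ε) (T δ : ℝ) (φ : UniformFun (Icc (0 : ℝ) T) (Fin d → ℝ)) :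
    md d T δ ε φ ≤ 1 := Real.iSup_le (fun p => min_le_left _ _) zero_le_one

theorem md_lip {ε : ℝ} (hε : 0 < ε) (T δ : ℝ) {φ ψ : UniformFun (Icc (0 : ℝ) T) (Fin d → ℝ)} {r : ℝ}
    (hr : 0 ≤ r) (h : ∀ t i, |UniformFun.toFun φ t i - UniformFun.toFun ψ t i| ≤ r) :
    md d T δ ε φ ≤ md d T δ ε ψ + 2 * r / ε := by
  refine Real.iSup_le (fun p => ?_) (add_nonneg (md_nonneg hε T δ ψ) (by positivity))
  have h1 := le_ciSup (md_bdd T δ ε ψ) p
  have h2 := h p.1.1 p.1.2.2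
  have h3 := h p.1.2.1 p.1.2.2
  have h4 : |UniformFun.toFun φ p.1.1 p.1.2.2 - UniformFun.toFun φ p.1.2.1 p.1.2.2| ≤
      |UniformFun.toFun ψ p.1.1 p.1.2.2 - UniformFun.toFun ψ p.1.2.1 p.1.2.2| + 2 * r := by
    have e : UniformFun.toFun φ p.1.1 p.1.2.2 - UniformFun.toFun φ p.1.2.1 p.1.2.2 =
      (UniformFun.toFun φ p.1.1 p.1.2.2 - UniformFun.toFun ψ p.1.1 p.1.2.2) +
      (UniformFun.toFun ψ p.1.1 p.1.2.2 - UniformFun.toFun ψ p.1.2.1 p.1.2.2) -
      (UniformFun.toFun φ p.1.2.1 p.1.2.2 - UniformFun.toFun ψ p.1.2.1 p.1.2.2) := by ring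
    rw [e]
    refine (abs_sub _ _).trans ?_
    refine (add_le_add (abs_add_le _ _) le_rfl).trans ?_
    linarith
  have h5 : min 1 (|UniformFun.toFun φ p.1.1 p.1.2.2 - UniformFun.toFun φ p.1.2.1 p.1.2.2| / ε) ≤
      min 1 (|UniformFun.toFun ψ p.1.1 p.1.2.2 - UniformFun.toFun ψ p.1.2.1 p.1.2.2| / ε) +
        2 * r / ε := by
    rw [← min_add_add_right]
    refine le_min ((min_le_left _ _).trans (by
      have : 0 ≤ 2 * r / ε := by positivity
      linarith)) ((min_le_right _ _).trans ?_)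
    rw [← add_div]
    exact div_le_div_of_nonneg_right h4 hε.le
  exact h5.trans (add_le_add h1 le_rfl)

/-- continuity for the uniform convergence, from a Lipschitz bound -/
theorem cont_of_lip (F : UniformFun (Icc (0 : ℝ) T) (Fin d → ℝ) → ℝ) (L : ℝ) (hL : 0 ≤ L)
    (h : ∀ φ ψ : UniformFun (Icc (0 : ℝ) T) (Fin d → ℝ), ∀ r : ℝ, 0 < r →
      (∀ t i, |UniformFun.toFun φ t i - UniformFun.toFun ψ t i| ≤ r) → F φ ≤ F ψ + L * r) :
    Continuous F := by
  rw [continuous_iff_continuousAt]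
  intro φ
  rw [ContinuousAt, Metric.tendsto_nhds]
  intro ε hε
  have h1 := (UniformFun.tendsto_iff_tendstoUniformly (p := 𝓝 φ)
    (F := fun ψ : UniformFun (Icc (0 : ℝ) T) (Fin d → ℝ) => ψ) (f := φ)).1 tendsto_id
  rw [Metric.tendstoUniformly_iff] at h1
  have hr : 0 < ε / (2 * (L + 1)) := by positivity
  filter_upwards [h1 (ε / (2 * (L + 1))) hr] with ψ hψ
  have h2 : ∀ t i, |UniformFun.toFun φ t i - UniformFun.toFun ψ t i| ≤ ε / (2 * (L + 1)) := by
    intro t i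
    have h3 := hψ t
    have h4 := (dist_pi_le_iff hr.le).1 h3.le i
    rwa [Real.dist_eq] at h4
  have h3 := h φ ψ _ hr h2
  have h4 := h ψ φ _ hr (fun t i => by rw [abs_sub_comm]; exact h2 t i)
  have h5 : L * (ε / (2 * (L + 1))) ≤ ε / 2 := by
    rw [mul_div_assoc', div_le_div_iff₀ (by positivity) (by norm_num)]
    nlinarith
  rw [Real.dist_eq, abs_lt]
  constructor <;> linarith

theorem md_cont {ε : ℝ} (hε : 0 < ε) (T δ : ℝ) : Continuous (md d T δ ε) := by
  refine cont_of_lip _ (2 / ε) (by positivity) fun φ ψ r hr h => ?_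
  have := md_lip hε T δ hr.le h
  calc _ ≤ _ := this
    _ = _ := by ring

end modulus

end Pool.Agent.H979.QIP
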