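import Pool.Agent.H979.QIP.RunC

set_option autoImplicit false
set_option linter.unusedSectionVars false
set_option linter.deprecated false
set_option linter.unusedVariables false
set_option linter.style.haveILetI false

open MeasureTheory ProbabilityTheory Filter Topology Set
open scoped ENNReal NNReal

/-!
# Sizes and lengths of the runs
-/

namespace Pool.Agent.H979.QIP

variable {Ω : Type*} [MeasurableSpace Ω] {d : ℕ} {μ : Measure Ω} {τ : Vd d → Ω → Ω}

section avg

variable {q : Ω → Vd d → ℝ≥0∞}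

theorem avg_gen {hq : Ker τ q} {ω : Ω} {g : Ω → ℝ≥0∞} (hfin : ∀ x, g (τ x ω) ≠ ∞) {ρ : ℝ}
    (hρ : 0 ≤ ρ) (hQ : QA τ q hq ω (fun ω => (g ω).toReal) ρ) {e : ℝ} (he : ρ < e) :
    haveI := qM_prob hq ω
    ∀ᶠ n : ℕ in atTop, ∫⁻ w, A (fun x => g (τ x ω)) n w ∂(P (qM τ q ω) 0) ≤
      ENNReal.ofReal (e * n) := by
  haveI := qM_prob hq ω
  have h1 := hQ
  unfold QA at h1
  rw [ENNReal.tendsto_atTop_zero] at h1
  obtain ⟨n0, hn0⟩ := h1 (ENNReal.ofReal (e - ρ)) (ENNReal.ofReal_pos.2 (by linarith))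
  filter_upwards [eventually_ge_atTop n0, eventually_ge_atTop 1] with n hn hn1
  have hnpos : (0 : ℝ) < n := by exact_mod_cast hn1
  have e2 : ∀ w : ℕ → Vd d, A (fun x => g (τ x ω)) n w ≤
      ENNReal.ofReal n * (ENNReal.ofReal |(∑ k ∈ Finset.range n, (g (τ (w k) ω)).toReal) / n - ρ| +
        ENNReal.ofReal ρ) := by
    intro w
    have e1 : A (fun x => g (τ x ω)) n w =
        ENNReal.ofReal (∑ k ∈ Finset.range n, (g (τ (w k) ω)).toReal) := by
      unfold A
      rw [ENNReal.ofReal_sum_of_nonneg fun _ _ => ENNReal.toReal_nonneg]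
      exact Finset.sum_congr rfl fun k _ => (ENNReal.ofReal_toReal (hfin _)).symm
    rw [e1, ← ENNReal.ofReal_add (abs_nonneg _) hρ, ← ENNReal.ofReal_mul hnpos.le]
    refine ENNReal.ofReal_le_ofReal ?_
    have h3 := le_abs_self ((∑ k ∈ Finset.range n, (g (τ (w k) ω)).toReal) / n - ρ)
    have h5 : (∑ k ∈ Finset.range n, (g (τ (w k) ω)).toReal) =
        n * ((∑ k ∈ Finset.range n, (g (τ (w k) ω)).toReal) / n) := by
      field_simp
    refine h5.le.trans (mul_le_mul_of_nonneg_left ?_ hnpos.le)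
    linarith
  refine (lintegral_mono e2).trans ?_
  rw [lintegral_const_mul' _ _ ENNReal.ofReal_ne_top, lintegral_add_right _ measurable_const,
    lintegral_const, measure_univ, mul_one]
  refine (mul_le_mul' le_rfl (add_le_add (hn0 n hn) le_rfl)).trans ?_
  rw [← ENNReal.ofReal_add (by linarith) hρ, ← ENNReal.ofReal_mul hnpos.le]
  exact ENNReal.ofReal_le_ofReal (le_of_eq (by ring))

theorem unif_avg {hq : Ker τ q} {ω : Ω} {g : Ω → ℝ} (hg : ∀ ω, 0 ≤ g ω) {a : ℝ} (ha : 0 ≤ a)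
    (hQ : QA τ q hq ω g a) {ε : ℝ} (hε : 0 < ε) :
    haveI := qM_prob hq ω
    Tendsto (fun n : ℕ => P (qM τ q ω) 0 {w | ∃ k ≤ n,
      ε * n < |∑ r ∈ Finset.range k, g (τ (w r) ω) - k * a|}) atTop (𝓝 0) := by
  haveI := qM_prob hq ω
  obtain ⟨b, hb1, hb⟩ : ∃ b : ℕ, 1 ≤ b ∧ a / b ≤ ε / 4 := by
    obtain ⟨b, hb⟩ := exists_nat_ge (4 * a / ε)
    refine ⟨b + 1, by omega, ?_⟩
    rw [div_le_iff₀ (by positivity)]
    push_cast
    rw [div_le_iff₀ hε] at hb
    nlinarith
  have hb0 : (0 : ℝ) < b := by exact_mod_cast hb1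
  set F : ℕ → ℕ → (ℕ → Vd d) → ℝ≥0∞ := fun n i w => ENNReal.ofReal
      |(∑ k ∈ Finset.range ⌊(i : ℝ) / b * n⌋₊, g (τ (w k) ω)) / n - (i : ℝ) / b * a| with hF
  have hFm : ∀ n i, Measurable (F n i) := by
    intro n i
    refine (((Finset.measurable_sum _ fun j _ => ?_).div_const _).sub_const _).abs.ennreal_ofReal
    exact (measurable_of_countable (fun x => g (τ x ω))).comp (measurable_pi_apply j)
  have hlim : Tendsto (fun n : ℕ => ∑ i ∈ Finset.range (b + 1), ENNReal.ofReal (4 / ε) *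
      ∫⁻ w, F n i w ∂(P (qM τ q ω) 0)) atTop (𝓝 (∑ i ∈ Finset.range (b + 1),
        ENNReal.ofReal (4 / ε) * 0)) := by
    refine tendsto_finsetSum _ fun i _ => ?_
    exact ENNReal.Tendsto.const_mul (hQ.time (by positivity)) (Or.inr ENNReal.ofReal_ne_top)
  simp only [mul_zero, Finset.sum_const_zero] at hlim
  refine tendsto_of_tendsto_of_tendsto_of_le_of_le' tendsto_const_nhds hlim
    (Eventually.of_forall fun n => zero_le) ?_
  obtain ⟨n0, hn0⟩ := exists_nat_ge (4 * a / ε)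
  filter_upwards [eventually_ge_atTop 1, eventually_ge_atTop n0] with n hn1 hn2
  have hnpos : (0 : ℝ) < n := by exact_mod_cast hn1
  have hna : a ≤ ε / 4 * n := by
    rw [div_le_iff₀ hε] at hn0
    have : (n0 : ℝ) ≤ n := by exact_mod_cast hn2
    nlinarith
  set T : ℕ → ℕ := fun i => ⌊(i : ℝ) / b * n⌋₊ with hT
  have hTb : T b = n := by
    simp only [hT]
    rw [div_self hb0.ne', one_mul, Nat.floor_natCast]
  have hsub : {w : ℕ → Vd d | ∃ k ≤ n, ε * n < |∑ r ∈ Finset.range k, g (τ (w r) ω) - k * a|} ⊆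
      ⋃ i ∈ Finset.range (b + 1), {w | 1 ≤ ENNReal.ofReal (4 / ε) * F n i w} := by
    rintro w ⟨k, hk, hw⟩
    by_contra hcon
    simp only [mem_iUnion, not_exists, Finset.mem_range, mem_setOf_eq, not_le] at hcon
    have hcl : ∀ i, i ≤ b → |(∑ k ∈ Finset.range (T i), g (τ (w k) ω)) / n - (i : ℝ) / b * a| < ε / 4 := by
      intro i hi
      have h1 := hcon i (by omega)
      simp only [hF] at h1
      rw [← ENNReal.ofReal_mul (by positivity), ENNReal.ofReal_lt_one] at h1
      rw [lt_div_iff₀ (by norm_num)]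
      rw [div_mul_eq_mul_div, div_lt_one hε] at h1
      linarith
    -- the block of `k`
    obtain ⟨i, hib, hi1, hi2⟩ : ∃ i < b, T i ≤ k ∧ k ≤ T (i + 1) := by
      classical
      have hex : ∃ i, k ≤ T i := ⟨b, by omega⟩
      set i0 := Nat.find hex with hi0
      have h1 : k ≤ T i0 := Nat.find_spec hex
      have h4 : i0 ≤ b := Nat.find_min' hex (by omega)
      rcases Nat.eq_zero_or_pos i0 with h0 | h0
      · rw [h0] at h1
        have hT0 : T 0 = 0 := by simp [hT]
        exact ⟨0, by omega, by omega, by omega⟩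
      · have h3 : ¬ k ≤ T (i0 - 1) := Nat.find_min hex (m := i0 - 1) (by omega)
        refine ⟨i0 - 1, by omega, by omega, ?_⟩
        rw [Nat.sub_add_cancel h0]
        exact h1
    have hc0 := hcl i hib.le
    have hc1 := hcl (i + 1) hib
    have hmono : ∀ {m m' : ℕ}, m ≤ m' → ∑ r ∈ Finset.range m, g (τ (w r) ω) ≤
        ∑ r ∈ Finset.range m', g (τ (w r) ω) := fun hm =>
      Finset.sum_le_sum_of_subset_of_nonneg (Finset.range_mono hm) fun _ _ _ => hg _
    have hs1 := hmono hi1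
    have hs2 := hmono hi2
    set S0 := ∑ r ∈ Finset.range (T i), g (τ (w r) ω)
    set S1 := ∑ r ∈ Finset.range (T (i + 1)), g (τ (w r) ω)
    set S := ∑ r ∈ Finset.range k, g (τ (w r) ω)
    have hT1 : (T (i + 1) : ℝ) ≤ ((i + 1 : ℕ) : ℝ) / b * n := Nat.floor_le (by positivity)
    have hT0 : (i : ℝ) / b * n < T i + 1 := Nat.lt_floor_add_one _
    have hk1 : (k : ℝ) ≤ T (i + 1) := by exact_mod_cast hi2
    have hk0 : (T i : ℝ) ≤ k := by exact_mod_cast hi1
    have e1 : ((i + 1 : ℕ) : ℝ) / b = (i : ℝ) / b + 1 / b := by push_cast; ring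
    rw [e1] at hc1 hT1
    rw [abs_lt] at hc0 hc1
    have e2 : S0 / n * n = S0 := by field_simp
    have e3 : S1 / n * n = S1 := by field_simp
    have u0 : (i : ℝ) / b * a * n - ε / 4 * n < S0 := by
      have := mul_lt_mul_of_pos_right hc0.1 hnpos
      rw [sub_mul, e2] at this
      linarith
    have u1 : S1 < ((i : ℝ) / b + 1 / b) * a * n + ε / 4 * n := by
      have := mul_lt_mul_of_pos_right hc1.2 hnpos
      rw [sub_mul, e3] at this
      linarith
    have e4 : ((i : ℝ) / b + 1 / b) * a * n = (i : ℝ) / b * a * n + a / b * n := by ring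
    have e5 : a / b * n ≤ ε / 4 * n := mul_le_mul_of_nonneg_right hb hnpos.le
    have e6 : (k : ℝ) * a ≤ ((i : ℝ) / b + 1 / b) * n * a := mul_le_mul_of_nonneg_right (hk1.trans hT1) ha
    have e7 : ((i : ℝ) / b * n - 1) * a ≤ k * a := mul_le_mul_of_nonneg_right (by linarith) ha
    have hlast : |S - k * a| ≤ ε * n := by
      rw [abs_le]
      constructor
      · nlinarith
      · nlinarith
    linarith
  refine (measure_mono hsub).trans ((measure_biUnion_finset_le _ _).trans ?_)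
  refine Finset.sum_le_sum fun i _ => ?_
  rw [← lintegral_const_mul _ (hFm n i)]
  have := mul_meas_ge_le_lintegral₀ (μ := P (qM τ q ω) 0)
    ((hFm n i).const_mul (ENNReal.ofReal (4 / ε))).aemeasurable 1
  rwa [one_mul] at this

end avg

end Pool.Agent.H979.QIP
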