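import Pool.Agent.H979.QIP.Trans

set_option autoImplicit false
set_option linter.unusedSectionVars false
set_option linter.deprecated false
set_option linter.unusedVariables false
set_option linter.style.haveILetI false

open MeasureTheory ProbabilityTheory Filter Topology Set
open scoped ENNReal NNReal

/-!
# Sizes and lengths of the runs along the chain
-/

namespace Pool.Agent.H979.QIP

variable {Ω : Type*} [MeasurableSpace Ω] {d : ℕ} {μ : Measure Ω} {τ : Vd d → Ω → Ω}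
  {c : Ω → Vd d → ℝ≥0∞}

/-- the square of the size of a run, if it is large -/
noncomputable def T2 (A : ℕ) (l : List (Vd d)) : ℝ≥0∞ := if A < Tl l then (Tl l : ℝ≥0∞) ^ 2 else 0

theorem T2_le (A : ℕ) (l : List (Vd d)) : T2 A l ≤ (Tl l : ℝ≥0∞) ^ 2 := by
  unfold T2; split_ifs
  · exact le_rfl
  · exact zero_le

/-- averaging properties of the runs -/
structure RF (h : Sta μ τ) (hc : RC τ c) (ω : Ω) (a K₂ : ℝ) (κ : ℕ → ℝ) : Prop where
  apos : 0 < a
  kpos : 0 ≤ K₂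
  fin : ∀ x, rf τ c (fun l => (Tl l : ℝ≥0∞) ^ 2) (τ x ω) ≠ ∞
  q2 : QA τ (qr τ c) (ker_qr h hc) ω (fun ω => (rf τ c (fun l => (Tl l : ℝ≥0∞) ^ 2) ω).toReal) K₂
  ka : ∀ A, 0 ≤ κ A
  qA : ∀ A, QA τ (qr τ c) (ker_qr h hc) ω (fun ω => (rf τ c (T2 A) ω).toReal) (κ A)
  lA : Tendsto κ atTop (𝓝 0)
  qL : QA τ (qr τ c) (ker_qr h hc) ω (fun ω => (rf τ c (fun l => (l.length : ℝ≥0∞)) ω).toReal) a

theorem rf_mono {F G : List (Vd d) → ℝ≥0∞} (hFG : ∀ l, F l ≤ G l) (ω : Ω) :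
    rf τ c F ω ≤ rf τ c G ω := ENNReal.tsum_le_tsum fun l => mul_le_mul' le_rfl (hFG l)

theorem len_le_T2 (l : List (Vd d)) : (l.length : ℝ≥0∞) ≤ (Tl l : ℝ≥0∞) ^ 2 := by
  have h1 := length_le_Tl l
  have h2 : l.length ≤ Tl l ^ 2 := h1.trans (Nat.le_self_pow two_ne_zero _)
  exact_mod_cast h2

theorem dep_A' {X : Type*} [Countable X] [MeasurableSpace X] [MeasurableSingletonClass X]
    (s : X → ℝ≥0∞) (n : ℕ) : Dep n (A s n) := dep_A s le_rfl

/-- expected sums over the runs -/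
theorem steps_run (h : Sta μ τ) (hc : RC τ c) (ω : Ω) (F : List (Vd d) → ℝ≥0∞) (n : ℕ) :
    haveI := qM_prob (ker_qr h hc) ω
    haveI := qR_prob hc ω
    ∫⁻ w, ∑ j ∈ Finset.range n, F (w (j + 1)).run ∂(P (qR τ c ω) ⟨0, []⟩) =
      ∫⁻ w, A (fun x => rf τ c F (τ x ω)) n w ∂(P (qM τ (qr τ c) ω) 0) := by
  haveI := qM_prob (ker_qr h hc) ω
  haveI := qR_prob hc ω
  rw [lintegral_steps (qR τ c ω) (fun _ s' => F s'.run) n ⟨0, []⟩]
  have h1 := lump h hc ω (dep_A' (fun x => rf τ c F (τ x ω)) n) ⟨0, []⟩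
  rw [← h1]
  refine lintegral_congr fun w => ?_
  unfold A
  refine Finset.sum_congr rfl fun k _ => ?_
  exact lintegral_qR ω (w k) (fun s' => F s'.run)

theorem RF.maxrun {h : Sta μ τ} {hc : RC τ c} {ω : Ω} {a K₂ : ℝ} {κ : ℕ → ℝ}
    (hF : RF h hc ω a K₂ κ) {ε : ℝ} (hε : 0 < ε) :
    haveI := qR_prob hc ω
    Tendsto (fun n : ℕ => P (qR τ c ω) ⟨0, []⟩ {w | ∃ r < n, ε * √n < Tl (w (r + 1)).run})
      atTop (𝓝 0) := by
  haveI := qM_prob (ker_qr h hc) ω
  haveI := qR_prob hc ω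
  rw [ENNReal.tendsto_atTop_zero]
  intro η hη
  obtain ⟨η', hη', hηη⟩ : ∃ η' : ℝ, 0 < η' ∧ ENNReal.ofReal η' ≤ η := by
    by_cases ht : η = ∞
    · exact ⟨1, one_pos, by rw [ht]; exact le_top⟩
    · exact ⟨η.toReal, ENNReal.toReal_pos hη.ne' ht, by rw [ENNReal.ofReal_toReal ht]⟩
  obtain ⟨A, hA⟩ := ((tendsto_order.1 hF.lA).2 (η' * ε ^ 2) (by positivity)).exists
  have hfA : ∀ x, rf τ c (T2 A) (τ x ω) ≠ ∞ := fun x =>
    ne_top_of_le_ne_top (hF.fin x) (rf_mono (T2_le A) _)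
  have h1 := avg_gen hfA (hF.ka A) (hF.qA A) hA
  have h2 : ∀ᶠ n : ℕ in atTop, (A : ℝ) ≤ ε * √n :=
    ((Real.tendsto_sqrt_atTop.comp tendsto_natCast_atTop_atTop).const_mul_atTop hε).eventually_ge_atTop _
  obtain ⟨n0, hn0⟩ := eventually_atTop.1 ((h1.and h2).and (eventually_ge_atTop 1))
  refine ⟨n0, fun n hn => ?_⟩
  obtain ⟨⟨h3, h4⟩, h5⟩ := hn0 n hn
  have hnpos : (0 : ℝ) < n := by exact_mod_cast h5
  have hsn : 0 < √(n : ℝ) := Real.sqrt_pos.2 hnpos
  rw [← steps_run h hc ω (T2 A) n] at h3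
  have hmS : Measurable (fun w : ℕ → RS d => ∑ j ∈ Finset.range n, T2 A (w (j + 1)).run) :=
    Dep.measurable (N := n) fun w w' hw => Finset.sum_congr rfl fun j hj => by
      have hj := Finset.mem_range.1 hj
      rw [hw (j + 1) (by omega)]
  have hsub : {w : ℕ → RS d | ∃ r < n, ε * √n < Tl (w (r + 1)).run} ⊆
      {w | 1 ≤ ENNReal.ofReal (1 / (ε ^ 2 * n)) * ∑ j ∈ Finset.range n, T2 A (w (j + 1)).run} := by
    rintro w ⟨r, hr, hw⟩
    simp only [mem_setOf_eq]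
    have h6 : T2 A (w (r + 1)).run ≤ ∑ j ∈ Finset.range n, T2 A (w (j + 1)).run :=
      Finset.single_le_sum (f := fun j => T2 A (w (j + 1)).run) (fun _ _ => zero_le)
        (Finset.mem_range.2 hr)
    refine le_trans ?_ (mul_le_mul' le_rfl h6)
    have h7 : A < Tl (w (r + 1)).run := by exact_mod_cast h4.trans_lt hw
    unfold T2
    rw [if_pos h7]
    have e : ((Tl (w (r + 1)).run : ℝ≥0∞)) ^ 2 = ENNReal.ofReal ((Tl (w (r + 1)).run : ℝ) ^ 2) := by
      rw [ENNReal.ofReal_pow (Nat.cast_nonneg _), ENNReal.ofReal_natCast]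
    rw [e, ← ENNReal.ofReal_mul (by positivity), ← ENNReal.ofReal_one]
    refine ENNReal.ofReal_le_ofReal ?_
    rw [one_div_mul_eq_div, le_div_iff₀ (by positivity), one_mul]
    have h8 : ε ^ 2 * (n : ℝ) = (ε * √n) ^ 2 := by rw [mul_pow, Real.sq_sqrt hnpos.le]
    rw [h8]
    exact pow_le_pow_left₀ (by positivity) hw.le 2
  refine (measure_mono hsub).trans ?_
  have h9 := mul_meas_ge_le_lintegral₀ (μ := P (qR τ c ω) ⟨0, []⟩)
    (hmS.const_mul (ENNReal.ofReal (1 / (ε ^ 2 * n)))).aemeasurable 1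
  rw [one_mul] at h9
  refine h9.trans ?_
  rw [lintegral_const_mul _ hmS]
  refine (mul_le_mul' le_rfl h3).trans (le_trans ?_ hηη)
  rw [← ENNReal.ofReal_mul (by positivity)]
  refine ENNReal.ofReal_le_ofReal (le_of_eq ?_)
  field_simp

/-- total length of the first runs -/
def Ln (k : ℕ) (w : ℕ → RS d) : ℕ := ∑ r ∈ Finset.range k, (w (r + 1)).run.length

theorem RF.lln {h : Sta μ τ} {hc : RC τ c} {ω : Ω} {a K₂ : ℝ} {κ : ℕ → ℝ}
    (hF : RF h hc ω a K₂ κ) {ε : ℝ} (hε : 0 < ε) :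
    haveI := qR_prob hc ω
    Tendsto (fun n : ℕ => P (qR τ c ω) ⟨0, []⟩ {w | ∃ k ≤ n, ε * n < |(Ln k w : ℝ) - k * a|})
      atTop (𝓝 0) := by
  haveI := qM_prob (ker_qr h hc) ω
  haveI := qR_prob hc ω
  set g : Ω → ℝ := fun ω => (rf τ c (fun l => (l.length : ℝ≥0∞)) ω).toReal with hg
  have hg0 : ∀ ω, 0 ≤ g ω := fun ω => ENNReal.toReal_nonneg
  have hgfin : ∀ x, rf τ c (fun l => (l.length : ℝ≥0∞)) (τ x ω) ≠ ∞ := fun x =>
    ne_top_of_le_ne_top (hF.fin x) (rf_mono len_le_T2 _)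
  -- the good environment is needed at the positions only
  set ξ : RS d → RS d → ℝ := fun _ s' => (s'.run.length : ℝ) with hξ
  have hV : ∀ s, V (qR τ c ω) ξ s ≤ rf τ c (fun l => (Tl l : ℝ≥0∞) ^ 2) (τ s.pos ω) := by
    intro s
    unfold V
    rw [lintegral_qR]
    refine ENNReal.tsum_le_tsum fun l => mul_le_mul' le_rfl ?_
    simp only [hξ]
    rw [ENNReal.ofReal_pow (Nat.cast_nonneg _), ENNReal.ofReal_natCast]
    have := length_le_Tl l
    gcongr
  have hVfin : ∀ s, V (qR τ c ω) ξ s ≠ ∞ := fun s => ne_top_of_le_ne_top (hF.fin s.pos) (hV s)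
  have hVc : ∀ s, V (qR τ c ω) (cen (qR τ c ω) ξ) s ≠ ∞ := fun s =>
    ne_top_of_le_ne_top (hVfin s) (V_cen_le _ (hVfin s))
  have hbm : ∀ s, bm (qR τ c ω) ξ s = g (τ s.pos ω) := by
    intro s
    unfold bm
    rw [integral_eq_lintegral_of_nonneg_ae (Eventually.of_forall fun y => Nat.cast_nonneg _)
      (measurable_of_countable _).aestronglyMeasurable, lintegral_qR]
    simp only [hg, hξ, ENNReal.ofReal_natCast]
    rfl
  -- the martingale part
  have h1 : Tendsto (fun n : ℕ => P (qR τ c ω) ⟨0, []⟩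
      {w | ∃ k ≤ n, ε / 2 * n < |0 + S (cen (qR τ c ω) ξ) k w|}) atTop (𝓝 0) := by
    have h2 : ∀ᶠ n : ℕ in atTop, P (qR τ c ω) ⟨0, []⟩
        {w | ∃ k ≤ n, ε / 2 * n < |0 + S (cen (qR τ c ω) ξ) k w|} ≤
        ENNReal.ofReal ((K₂ + 1) * 4 / ε ^ 2 * (1 / n)) := by
      filter_upwards [avg_gen hF.fin hF.kpos hF.q2 (e := K₂ + 1) (by linarith),
        eventually_ge_atTop 1] with n hn1 hn2
      have hnpos : (0 : ℝ) < n := by exact_mod_cast hn2
      have hk := kolmogorov (qR τ c ω) hVc (fun s => bm_cen _ (hVfin s)) (r := ε / 2 * n)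
        (by positivity) n ⟨0, []⟩ 0
      refine hk.trans ?_
      simp only [ne_eq, OfNat.ofNat_ne_zero, not_false_eq_true, zero_pow, ENNReal.ofReal_zero, zero_add]
      have h3 : ∫⁻ w, A (V (qR τ c ω) (cen (qR τ c ω) ξ)) n w ∂(P (qR τ c ω) ⟨0, []⟩) ≤
          ENNReal.ofReal ((K₂ + 1) * n) := by
        refine le_trans ?_ hn1
        have h4 := lump h hc ω (dep_A' (fun x => rf τ c (fun l => (Tl l : ℝ≥0∞) ^ 2) (τ x ω)) n) ⟨0, []⟩
        refine le_trans (lintegral_mono fun w => ?_) (le_of_eq h4)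
        unfold A
        exact Finset.sum_le_sum fun k _ => (V_cen_le _ (hVfin _)).trans (hV _)
      refine (ENNReal.div_le_div_right h3 _).trans ?_
      rw [← ENNReal.ofReal_div_of_pos (by positivity)]
      refine ENNReal.ofReal_le_ofReal (le_of_eq ?_)
      field_simp
      norm_num
    refine tendsto_of_tendsto_of_tendsto_of_le_of_le' tendsto_const_nhds ?_
      (Eventually.of_forall fun n => zero_le) h2
    have h3 : Tendsto (fun n : ℕ => (K₂ + 1) * 4 / ε ^ 2 * (1 / (n : ℝ))) atTop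
        (𝓝 ((K₂ + 1) * 4 / ε ^ 2 * 0)) := tendsto_one_div_atTop_nhds_zero_nat.const_mul _
    rw [mul_zero] at h3
    have := ENNReal.tendsto_ofReal h3
    rwa [ENNReal.ofReal_zero] at this
  -- the means
  have h2 : Tendsto (fun n : ℕ => P (qR τ c ω) ⟨0, []⟩ {w | (fun k => (w k).pos) ∈
      {w : ℕ → Vd d | ∃ k ≤ n, ε / 2 * n < |∑ r ∈ Finset.range k, g (τ (w r) ω) - k * a|}})
      atTop (𝓝 0) := by
    have h3 := unif_avg hg0 hF.apos.le hF.qL (ε := ε / 2) (by positivity)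
    refine h3.congr fun n => ?_
    have hdep : Dep n (fun w : ℕ → Vd d => w ∈ {w : ℕ → Vd d | ∃ k ≤ n,
        ε / 2 * n < |∑ r ∈ Finset.range k, g (τ (w r) ω) - k * a|}) := by
      intro w w' hw
      simp only [mem_setOf_eq, eq_iff_iff]
      have e1 : ∀ k ≤ n, ∑ r ∈ Finset.range k, g (τ (w r) ω) = ∑ r ∈ Finset.range k, g (τ (w' r) ω) :=
        fun k hk => Finset.sum_congr rfl fun r hr => by
          have := Finset.mem_range.1 hr
          rw [hw r (by omega)]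
      constructor
      · rintro ⟨k, hk, h1⟩
        exact ⟨k, hk, by rwa [← e1 k hk]⟩
      · rintro ⟨k, hk, h1⟩
        exact ⟨k, hk, by rwa [e1 k hk]⟩
    exact (lump_set h hc ω hdep ⟨0, []⟩).symm
  have h3 := h1.add h2
  rw [add_zero] at h3
  refine tendsto_of_tendsto_of_tendsto_of_le_of_le tendsto_const_nhds h3 (fun n => zero_le)
    fun n => ?_
  refine le_trans (measure_mono ?_) (measure_union_le _ _)
  rintro w ⟨k, hk, hw⟩
  by_contra hcon
  simp only [mem_union, mem_setOf_eq, not_or, not_exists, not_and, not_lt, zero_add] at hcon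
  have a1 := hcon.1 k hk
  have a2 := hcon.2 k hk
  have e1 : S (cen (qR τ c ω) ξ) k w = Ln k w - ∑ r ∈ Finset.range k, g (τ (w r).pos ω) := by
    unfold S cen Ln
    rw [Finset.sum_sub_distrib]
    push_cast
    congr 1
    exact Finset.sum_congr rfl fun r _ => hbm _
  have e2 : (Ln k w : ℝ) - k * a = S (cen (qR τ c ω) ξ) k w +
      (∑ r ∈ Finset.range k, g (τ (w r).pos ω) - k * a) := by rw [e1]; ring
  rw [e2] at hw
  have := abs_add_le (S (cen (qR τ c ω) ξ) k w) (∑ r ∈ Finset.range k, g (τ (w r).pos ω) - k * a)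
  linarith

end Pool.Agent.H979.QIP
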