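import Pool.Agent.H979.QIP.Trans2

set_option autoImplicit false
set_option linter.unusedSectionVars false
set_option linter.deprecated false
set_option linter.unusedVariables false
set_option linter.style.haveILetI false

open MeasureTheory ProbabilityTheory Filter Topology Set
open scoped ENNReal NNReal

/-!
# Comparison of the jump walk with the walk observed at the ends of the runs
-/

namespace Pool.Agent.H979.QIP

variable {Ω : Type*} [MeasurableSpace Ω] {d : ℕ} {μ : Measure Ω} {τ : Vd d → Ω → Ω}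
  {c : Ω → Vd d → ℝ≥0∞}

theorem cat_succ (m : ℕ) (w : ℕ → RS d) : cat (m + 1) w = cat m w ++ (w (m + 1)).run := by
  induction m generalizing w with
  | zero => simp [cat]
  | succ m ih =>
    have h1 := ih (fun k => w (k + 1))
    have h2 : cat (m + 1 + 1) w = (w 1).run ++ cat (m + 1) (fun k => w (k + 1)) := rfl
    rw [h2, h1, ← List.append_assoc]
    rfl

theorem cat_len (m : ℕ) (w : ℕ → RS d) : (cat m w).length = Ln m w := by
  induction m with
  | zero => simp [cat, Ln]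
  | succ m ih => rw [cat_succ, List.length_append, ih, Ln, Ln, Finset.sum_range_succ]

theorem cat_prefix {m m' : ℕ} (hm : m ≤ m') (w : ℕ → RS d) : cat m w <+: cat m' w := by
  induction m', hm using Nat.le_induction with
  | base => exact List.prefix_refl _
  | succ m' hm ih => rw [cat_succ]; exact ih.trans (List.prefix_append _ _)

theorem cat_sum {w : ℕ → RS d} (hpos : ∀ r, (w (r + 1)).pos = (w r).pos + (w (r + 1)).run.sum)
    (m : ℕ) : (w 0).pos + (cat m w).sum = (w m).pos := by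
  induction m with
  | zero => simp [cat]
  | succ m ih => rw [cat_succ, List.sum_append, ← add_assoc, ih, hpos]

/-- the position of the jump walk -/
def zp (m : ℕ) (w : ℕ → RS d) (j : ℕ) : Vd d := ((cat m w).take j).sum

theorem Tl_append (l l' : List (Vd d)) : Tl (l ++ l') = Tl l + Tl l' := by simp [Tl]

theorem Tl_take (l : List (Vd d)) (k : ℕ) : Tl (l.take k) ≤ Tl l := by
  conv_rhs => rw [← List.take_append_drop k l, Tl_append]
  omega

theorem zp_run {w : ℕ → RS d} (hpos : ∀ r, (w (r + 1)).pos = (w r).pos + (w (r + 1)).run.sum)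
    (h0 : (w 0).pos = 0) {m r j : ℕ} (hr : r < m) (h1 : Ln r w ≤ j) (h2 : j < Ln (r + 1) w)
    (i : Fin d) : |((zp m w j i : ℤ) : ℝ) - ((w r).pos i : ℝ)| ≤ Tl (w (r + 1)).run := by
  obtain ⟨rest, hrest⟩ := cat_prefix (show r + 1 ≤ m by omega) w
  have e1 : (cat m w).take j = cat r w ++ (w (r + 1)).run.take (j - Ln r w) := by
    rw [← hrest, List.take_append_of_le_length (by rw [cat_len]; omega), cat_succ, List.take_append,
      cat_len, List.take_of_length_le (by rw [cat_len]; exact h1)]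
  have e2 : zp m w j i = (w r).pos i + ((w (r + 1)).run.take (j - Ln r w)).sum i := by
    unfold zp
    rw [e1, List.sum_append, Pi.add_apply]
    have := congrFun (cat_sum hpos r) i
    rw [h0, zero_add] at this
    rw [this]
  rw [e2]
  push_cast
  rw [add_sub_cancel_left]
  have h3 := sum_le_Tl ((w (r + 1)).run.take (j - Ln r w)) i
  have h4 := Tl_take (w (r + 1)).run (j - Ln r w)
  have h5 : |((((w (r + 1)).run.take (j - Ln r w)).sum i : ℤ) : ℝ)| ≤
      (Tl ((w (r + 1)).run.take (j - Ln r w)) : ℝ) := by exact_mod_cast h3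
  exact h5.trans (by exact_mod_cast h4)

theorem cmp {w : ℕ → RS d} (hpos : ∀ r, (w (r + 1)).pos = (w r).pos + (w (r + 1)).run.sum)
    (h0 : (w 0).pos = 0) {m N : ℕ} {a e R R' D : ℝ} (ha : 0 < a) (he : 0 ≤ e)
    (hmax : ∀ r < m, (Tl (w (r + 1)).run : ℝ) ≤ R)
    (hlln : ∀ k ≤ m, |(Ln k w : ℝ) - k * a| ≤ e)
    (hmod : ∀ j k, j ≤ k → k ≤ m → (k : ℝ) - j ≤ D → ∀ i, |((w j).pos i : ℝ) - (w k).pos i| ≤ R')
    (hD : e / a + 1 ≤ D) (hN : (N : ℝ) + 1 + e ≤ m * a) :
    N + 1 ≤ Ln m w ∧ ∀ j ≤ N, ∀ i,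
      |((zp m w j i : ℤ) : ℝ) - (w ⌊(j : ℝ) / a⌋₊).pos i| ≤ R + R' := by
  have hlen : N + 1 ≤ Ln m w := by
    have := (abs_le.1 (hlln m le_rfl)).1
    have h1 : ((N + 1 : ℕ) : ℝ) ≤ Ln m w := by push_cast; linarith
    exact_mod_cast h1
  refine ⟨hlen, fun j hj i => ?_⟩
  classical
  have hex : ∃ r, j < Ln r w := ⟨m, by omega⟩
  set r0 := Nat.find hex with hr0
  have h1 : j < Ln r0 w := Nat.find_spec hex
  have h2 : r0 ≤ m := Nat.find_min' hex (by omega)
  have h3 : r0 ≠ 0 := fun h => by rw [h] at h1; simp [Ln] at h1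
  obtain ⟨r, hr⟩ := Nat.exists_eq_succ_of_ne_zero h3
  have h4 : Ln r w ≤ j := not_lt.1 (Nat.find_min hex (m := r) (by omega))
  have h5 : j < Ln (r + 1) w := by rw [hr] at h1; exact h1
  have hrm : r < m := by omega
  have h6 := zp_run hpos h0 hrm h4 h5 i
  have h7 := hmax r hrm
  set k := ⌊(j : ℝ) / a⌋₊ with hk
  have hka : (k : ℝ) ≤ j / a := Nat.floor_le (by positivity)
  have hkb : (j : ℝ) / a < k + 1 := Nat.lt_floor_add_one _
  have hra := abs_le.1 (hlln r hrm.le)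
  have hrb := abs_le.1 (hlln (r + 1) hrm)
  have h4' : (Ln r w : ℝ) ≤ j := by exact_mod_cast h4
  have h5' : (j : ℝ) < Ln (r + 1) w := by exact_mod_cast h5
  push_cast at hrb
  have u1 : (r : ℝ) ≤ j / a + e / a := by
    rw [← add_div, le_div_iff₀ ha]; linarith
  have u2 : (j : ℝ) / a - e / a ≤ r + 1 := by
    rw [← sub_div, div_le_iff₀ ha]; linarith
  have hkm : k ≤ m := by
    have : (k : ℝ) ≤ m := by
      refine hka.trans ?_
      rw [div_le_iff₀ ha]
      have : (j : ℝ) ≤ N := by exact_mod_cast hj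
      linarith
    exact_mod_cast this
  have h8 : |((w r).pos i : ℝ) - (w k).pos i| ≤ R' := by
    rcases le_total r k with h | h
    · exact hmod r k h hkm (by linarith) i
    · rw [abs_sub_comm]
      exact hmod k r h hrm.le (by linarith) i
  have e1 : ((zp m w j i : ℤ) : ℝ) - (w k).pos i =
      (((zp m w j i : ℤ) : ℝ) - (w r).pos i) + (((w r).pos i : ℝ) - (w k).pos i) := by ring
  rw [e1]
  exact (abs_add_le _ _).trans (add_le_add (h6.trans h7) h8)

/-- the rescaled interpolation -/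
noncomputable def itp (n : ℕ) (z : ℕ → Vd d) (t : ℝ) (i : Fin d) : ℝ :=
  1 / √n * ((z ⌊t * n⌋₊ i : ℝ) + (t * n - ⌊t * n⌋₊) * ((z (⌊t * n⌋₊ + 1) i : ℝ) - z ⌊t * n⌋₊ i))

theorem cmp_itp {w : ℕ → RS d} {m N n : ℕ} {a R R' D T : ℝ} (ha : 0 < a) (hn : 1 ≤ n)
    (hmod : ∀ j k, j ≤ k → k ≤ m → (k : ℝ) - j ≤ D → ∀ i, |((w j).pos i : ℝ) - (w k).pos i| ≤ R')
    (hD : 1 / a + 1 ≤ D) (hN : (N : ℝ) ≤ m * a) (hTN : T * n + 1 ≤ N)
    (hz : ∀ j ≤ N, ∀ i, |((zp m w j i : ℤ) : ℝ) - (w ⌊(j : ℝ) / a⌋₊).pos i| ≤ R) {t : ℝ}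
    (ht : 0 ≤ t) (htT : t ≤ T) (i : Fin d) :
    |itp n (zp m w) t i - ((w ⌊t / a * n⌋₊).pos i : ℝ) / √n| ≤ (R + R') / √n := by
  have hn0 : (0 : ℝ) < n := by exact_mod_cast hn
  have hsn : 0 < √(n : ℝ) := Real.sqrt_pos.2 hn0
  have htn : 0 ≤ t * n := by positivity
  set k := ⌊t / a * n⌋₊ with hk
  have hka : (k : ℝ) ≤ t / a * n := Nat.floor_le (by positivity)
  have hkb : t / a * n < k + 1 := Nat.lt_floor_add_one _
  have hf1 : ((⌊t * n⌋₊ : ℕ) : ℝ) ≤ t * n := Nat.floor_le htn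
  have hf2 : t * n < ((⌊t * n⌋₊ : ℕ) : ℝ) + 1 := Nat.lt_floor_add_one _
  have htn2 : t * n ≤ T * n := mul_le_mul_of_nonneg_right htT hn0.le
  have hkm : k ≤ m := by
    have : (k : ℝ) ≤ m := by
      refine hka.trans ?_
      rw [div_mul_eq_mul_div, div_le_iff₀ ha]
      linarith
    exact_mod_cast this
  have key : ∀ j : ℕ, j ≤ N → |(j : ℝ) - t * n| ≤ 1 →
      |((zp m w j i : ℤ) : ℝ) - (w k).pos i| ≤ R + R' := by
    intro j hj hjt
    set l := ⌊(j : ℝ) / a⌋₊ with hl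
    have hla : (l : ℝ) ≤ j / a := Nat.floor_le (by positivity)
    have hlb : (j : ℝ) / a < l + 1 := Nat.lt_floor_add_one _
    have hlm : l ≤ m := by
      have : (l : ℝ) ≤ m := by
        refine hla.trans ?_
        rw [div_le_iff₀ ha]
        have : (j : ℝ) ≤ N := by exact_mod_cast hj
        linarith
      exact_mod_cast this
    have e3 : t / a * n = t * n / a := by ring
    have hd1 : |(j : ℝ) / a - t / a * n| ≤ 1 / a := by
      rw [e3, ← sub_div, abs_div, abs_of_pos ha]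
      exact div_le_div_of_nonneg_right hjt ha.le
    rw [abs_le] at hd1
    have h8 : |((w l).pos i : ℝ) - (w k).pos i| ≤ R' := by
      rcases le_total l k with h | h
      · exact hmod l k h hkm (by linarith [hd1.1, hd1.2]) i
      · rw [abs_sub_comm]
        exact hmod k l h hlm (by linarith [hd1.1, hd1.2]) i
    have e1 : ((zp m w j i : ℤ) : ℝ) - (w k).pos i =
        (((zp m w j i : ℤ) : ℝ) - (w l).pos i) + (((w l).pos i : ℝ) - (w k).pos i) := by ring
    rw [e1]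
    exact (abs_add_le _ _).trans (add_le_add (hz j hj i) h8)
  have hfN : ⌊t * n⌋₊ + 1 ≤ N := by
    have : ((⌊t * n⌋₊ + 1 : ℕ) : ℝ) ≤ N := by push_cast; linarith
    exact_mod_cast this
  have k1 := key ⌊t * n⌋₊ (by omega) (by rw [abs_le]; constructor <;> linarith)
  have k2 := key (⌊t * n⌋₊ + 1) hfN (by push_cast; rw [abs_le]; constructor <;> linarith)
  set f := t * n - ⌊t * n⌋₊ with hf
  have hf0 : 0 ≤ f := by linarith
  have hf1' : f ≤ 1 := by linarith
  set z0 := ((zp m w ⌊t * n⌋₊ i : ℤ) : ℝ)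
  set z1 := ((zp m w (⌊t * n⌋₊ + 1) i : ℤ) : ℝ)
  set W := ((w k).pos i : ℝ)
  have e2 : itp n (zp m w) t i - W / √n = ((1 - f) * (z0 - W) + f * (z1 - W)) / √n := by
    unfold itp
    field_simp
    ring
  rw [e2, abs_div, abs_of_pos hsn]
  refine div_le_div_of_nonneg_right ?_ hsn.le
  refine (abs_add_le _ _).trans ?_
  rw [abs_mul, abs_mul, abs_of_nonneg hf0, abs_of_nonneg (show 0 ≤ 1 - f by linarith)]
  nlinarith

/-- modulus of continuity of the walk -/
def Md (τ : Vd d → Ω → Ω) (q : Ω → Vd d → ℝ≥0∞) (hq : Ker τ q) (ω : Ω) : Prop :=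
  haveI := qM_prob hq ω
  ∀ i : Fin d, ∀ ε : ℝ, 0 < ε → ∀ η : ℝ, 0 < η → ∃ δ : ℝ, 0 < δ ∧ ∀ᶠ n : ℕ in atTop,
    P (qM τ q ω) 0 {w | ∃ j k, j ≤ k ∧ k ≤ n ∧ ((k : ℝ) - j) ≤ δ * n ∧
      ε * √n < |(w j i : ℝ) - w k i|} ≤ ENNReal.ofReal η

theorem ae_pos (hc : RC τ c) (ω : Ω) :
    haveI := qR_prob hc ω
    ∀ᵐ w ∂(P (qR τ c ω) ⟨0, []⟩), (w 0).pos = 0 ∧
      ∀ r, (w (r + 1)).pos = (w r).pos + (w (r + 1)).run.sum := by
  haveI := qR_prob hc ω
  have h1 := ae_steps (qR τ c ω) (pr := fun s s' => s'.pos = s.pos + s'.run.sum) (fun s => by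
    show qR τ c ω s {y | ¬ y.pos = s.pos + y.run.sum} = 0
    rw [← lintegral_indicator_one (MeasurableSet.of_discrete), lintegral_qR,
      ENNReal.tsum_eq_zero]
    intro l
    simp) ⟨0, []⟩
  filter_upwards [h1, P_zero (qR τ c ω) ⟨0, []⟩] with w hw hw0
  refine ⟨by rw [hw0], hw⟩

end Pool.Agent.H979.QIP
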