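import Pool.Agent.H979.QIP.Trans3

set_option autoImplicit false
set_option linter.unusedSectionVars false
set_option linter.deprecated false
set_option linter.unusedVariables false
set_option linter.style.haveILetI false

open MeasureTheory ProbabilityTheory Filter Topology Set
open scoped ENNReal NNReal

/-!
# Comparison of the jump walk with the walk observed at the ends of the runs, in probability
-/

namespace Pool.Agent.H979.QIP

variable {Ω : Type*} [MeasurableSpace Ω] {d : ℕ} {μ : Measure Ω} {τ : Vd d → Ω → Ω}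
  {c : Ω → Vd d → ℝ≥0∞}

theorem dep_ex {X : Type*} [Countable X] [MeasurableSpace X] [MeasurableSingletonClass X]
    {n : ℕ} {D : ℝ} {pr : X → X → Prop} :
    Dep n (fun w : ℕ → X => w ∈ {w : ℕ → X | ∃ j k, j ≤ k ∧ k ≤ n ∧ ((k : ℝ) - j) ≤ D ∧
      pr (w j) (w k)}) := by
  intro w w' hw
  simp only [mem_setOf_eq, eq_iff_iff]
  constructor
  · rintro ⟨j, k, h1, h2, h3, h4⟩
    exact ⟨j, k, h1, h2, h3, by rwa [← hw j (by omega), ← hw k h2]⟩
  · rintro ⟨j, k, h1, h2, h3, h4⟩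
    exact ⟨j, k, h1, h2, h3, by rwa [hw j (by omega), hw k h2]⟩

theorem RF.compare {h : Sta μ τ} {hc : RC τ c} {ω : Ω} {a K₂ : ℝ} {κ : ℕ → ℝ}
    (hF : RF h hc ω a K₂ κ) (hM : Md τ (qr τ c) (ker_qr h hc) ω) {T : ℝ} (hT : 0 ≤ T) {K : ℕ}
    (hK : 2 * (T + 4) ≤ K * a) {η : ℝ} (hη : 0 < η) :
    haveI := qR_prob hc ω
    Tendsto (fun n : ℕ => P (qR τ c ω) ⟨0, []⟩ {w | ¬ (⌊T * n⌋₊ + 3 ≤ Ln (K * n) w ∧
      ∀ t, 0 ≤ t → t ≤ T → ∀ i, |itp n (zp (K * n) w) t i -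
        ((w ⌊t / a * n⌋₊).pos i : ℝ) / √n| ≤ η)}) atTop (𝓝 0) := by
  classical
  haveI := qM_prob (ker_qr h hc) ω
  haveI := qR_prob hc ω
  have ha := hF.apos
  have hK0 : (0 : ℝ) < K := by
    by_contra hcon
    push Not at hcon
    have : (K : ℝ) * a ≤ 0 := mul_nonpos_of_nonpos_of_nonneg hcon ha.le
    linarith
  have hK1 : 1 ≤ K := by exact_mod_cast hK0
  have hsK : 0 < √(K : ℝ) := Real.sqrt_pos.2 hK0
  rw [ENNReal.tendsto_atTop_zero]
  intro ε hε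
  obtain ⟨ε', hε', hεε⟩ : ∃ ε' : ℝ, 0 < ε' ∧ ENNReal.ofReal ε' ≤ ε := by
    by_cases ht : ε = ∞
    · exact ⟨1, one_pos, by rw [ht]; exact le_top⟩
    · exact ⟨ε.toReal, ENNReal.toReal_pos hε.ne' ht, by rw [ENNReal.ofReal_toReal ht]⟩
  set ρ : ℝ := η / (3 * √(K : ℝ)) with hρ
  have hρ0 : 0 < ρ := by positivity
  set η' : ℝ := ε' / (3 * (d + 1)) with hη'
  have hη'0 : 0 < η' := by positivity
  choose δ hδ0 hδ using fun i : Fin d => hM i ρ hρ0 η' hη'0
  obtain ⟨δ', hδ'0, hδ'⟩ : ∃ δ' : ℝ, 0 < δ' ∧ ∀ i, δ' ≤ δ i := by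
    by_cases hd : d = 0
    · subst hd; exact ⟨1, one_pos, fun i => i.elim0⟩
    · haveI : Nonempty (Fin d) := ⟨⟨0, Nat.pos_of_ne_zero hd⟩⟩
      refine ⟨Finset.univ.inf' Finset.univ_nonempty δ, ?_, fun i => Finset.inf'_le _ (Finset.mem_univ i)⟩
      rw [Finset.lt_inf'_iff]
      exact fun i _ => hδ0 i
  set e0 : ℝ := min (a / 2) (δ' * a / 2) with he0
  have he00 : 0 < e0 := lt_min (by positivity) (by positivity)
  have l1 := hF.maxrun hρ0
  have l2 := hF.lln he00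
  have hKn : Tendsto (fun n : ℕ => K * n) atTop atTop :=
    tendsto_id.const_mul_atTop' (by omega)
  have m1 := (ENNReal.tendsto_atTop_zero.1 (l1.comp hKn)) (ENNReal.ofReal (ε' / 3))
    (ENNReal.ofReal_pos.2 (by positivity))
  have m2 := (ENNReal.tendsto_atTop_zero.1 (l2.comp hKn)) (ENNReal.ofReal (ε' / 3))
    (ENNReal.ofReal_pos.2 (by positivity))
  have m3 : ∀ᶠ n : ℕ in atTop, ∀ i, P (qM τ (qr τ c) ω) 0 {w | ∃ j k, j ≤ k ∧ k ≤ K * n ∧
      ((k : ℝ) - j) ≤ δ i * (K * n : ℕ) ∧ ρ * √((K * n : ℕ) : ℝ) < |(w j i : ℝ) - w k i|} ≤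
      ENNReal.ofReal η' := by
    rw [eventually_all]
    intro i
    exact hKn.eventually (hδ i)
  obtain ⟨n1, hn1⟩ := m1
  obtain ⟨n2, hn2⟩ := m2
  obtain ⟨n3, hn3⟩ := eventually_atTop.1 m3
  obtain ⟨n4, hn4⟩ := exists_nat_ge (2 / δ' + (1 / a + 1) / δ')
  refine ⟨max (max n1 n2) (max (max n3 n4) 1), fun n hn => ?_⟩
  have b1 := hn1 n (by omega)
  have b2 := hn2 n (by omega)
  have b3 := hn3 n (by omega)
  have hn5 : 1 ≤ n := by omega
  have hn0 : (0 : ℝ) < n := by exact_mod_cast hn5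
  have hn1' : (1 : ℝ) ≤ n := by exact_mod_cast hn5
  have hsn : 0 < √(n : ℝ) := Real.sqrt_pos.2 hn0
  simp only [Function.comp] at b1 b2
  set m := K * n with hm
  have hmn : (m : ℝ) = K * n := by rw [hm]; push_cast; ring
  have hnm : (n : ℝ) ≤ m := by
    rw [hmn]
    have : (1 : ℝ) ≤ K := by exact_mod_cast hK1
    nlinarith
  have hsm : √(m : ℝ) = √(K : ℝ) * √(n : ℝ) := by rw [hmn, Real.sqrt_mul hK0.le]
  have hρm : ρ * √(m : ℝ) = η / 3 * √n := by
    rw [hρ, hsm]; field_simp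
  have hδm : 2 + (1 / a + 1) ≤ δ' * m := by
    have h1 : (n4 : ℝ) ≤ n := by exact_mod_cast (show n4 ≤ n by omega)
    have h2 : 2 / δ' + (1 / a + 1) / δ' ≤ m := hn4.trans (h1.trans hnm)
    have h3 := mul_le_mul_of_nonneg_left h2 hδ'0.le
    have h4 : δ' * (2 / δ' + (1 / a + 1) / δ') = 2 + (1 / a + 1) := by field_simp
    linarith
  set E1 : Set (ℕ → RS d) := {w | ∃ r < m, ρ * √(m : ℝ) < Tl (w (r + 1)).run} with hE1
  set E2 : Set (ℕ → RS d) := {w | ∃ k ≤ m, e0 * m < |(Ln k w : ℝ) - k * a|} with hE2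
  set E3 : Fin d → Set (ℕ → RS d) := fun i => {w | (fun k => (w k).pos) ∈ {w : ℕ → Vd d |
    ∃ j k, j ≤ k ∧ k ≤ m ∧ ((k : ℝ) - j) ≤ δ i * m ∧ ρ * √(m : ℝ) < |(w j i : ℝ) - w k i|}} with hE3
  have hE3m : ∀ i, P (qR τ c ω) ⟨0, []⟩ (E3 i) ≤ ENNReal.ofReal η' := by
    intro i
    have h1 := lump_set h hc ω (dep_ex (X := Vd d) (n := m) (D := δ i * m)
      (pr := fun x y => ρ * √(m : ℝ) < |(x i : ℝ) - y i|)) ⟨0, []⟩
    refine le_trans (le_of_eq h1) (b3 i)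
  have hsub : ∀ᵐ w ∂(P (qR τ c ω) ⟨0, []⟩), w ∈ {w | ¬ (⌊T * n⌋₊ + 3 ≤ Ln (K * n) w ∧
      ∀ t, 0 ≤ t → t ≤ T → ∀ i, |itp n (zp (K * n) w) t i -
        ((w ⌊t / a * n⌋₊).pos i : ℝ) / √n| ≤ η)} → w ∈ (E1 ∪ E2) ∪ ⋃ i, E3 i := by
    filter_upwards [ae_pos hc ω] with w hw hbad
    by_contra hcon
    simp only [mem_union, mem_iUnion, not_or, not_exists] at hcon
    obtain ⟨⟨c1, c2⟩, c3⟩ := hcon
    apply hbad
    simp only [hE1, hE2, hE3, mem_setOf_eq, not_exists, not_and, not_lt] at c1 c2 c3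
    have hmod : ∀ j k, j ≤ k → k ≤ m → (k : ℝ) - j ≤ δ' * m → ∀ i,
        |((w j).pos i : ℝ) - (w k).pos i| ≤ η / 3 * √n := by
      intro j k hjk hkm hd i
      rw [← hρm]
      exact c3 i j k hjk hkm (hd.trans (mul_le_mul_of_nonneg_right (hδ' i) (Nat.cast_nonneg _)))
    have hfl : ((⌊T * n⌋₊ : ℕ) : ℝ) ≤ T * n := Nat.floor_le (by positivity)
    have hfl2 : T * n < ((⌊T * n⌋₊ : ℕ) : ℝ) + 1 := Nat.lt_floor_add_one _
    have hma : T * n + 4 ≤ m * (a / 2) := by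
      have h1 : 2 * (T + 4) * n ≤ K * a * n := mul_le_mul_of_nonneg_right hK hn0.le
      rw [hmn]
      nlinarith
    have he1 : e0 * m ≤ a / 2 * m := mul_le_mul_of_nonneg_right (min_le_left _ _) (Nat.cast_nonneg _)
    have he2 : e0 * m / a + 1 ≤ δ' * m := by
      have h1 : e0 * m ≤ δ' * a / 2 * m :=
        mul_le_mul_of_nonneg_right (min_le_right _ _) (Nat.cast_nonneg _)
      have h2 : e0 * m / a ≤ δ' * m / 2 := by
        rw [div_le_iff₀ ha]
        linarith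
      have h3 : 0 < 1 / a := by positivity
      linarith
    have r1 := cmp (N := ⌊T * n⌋₊ + 2) (m := m) (e := e0 * m) (R := η / 3 * √n) (R' := η / 3 * √n)
      (D := δ' * m) hw.2 hw.1 ha (by positivity) (fun r hr => by rw [← hρm]; exact c1 r hr) c2 hmod he2
      (by push_cast; linarith)
    refine ⟨r1.1, fun t ht htT i => ?_⟩
    have r2 := cmp_itp (N := ⌊T * n⌋₊ + 2) (m := m) (n := n) (R := η / 3 * √n + η / 3 * √n)
      (R' := η / 3 * √n) (D := δ' * m) ha hn5 hmod (by linarith)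
      (by push_cast; nlinarith) (by push_cast; linarith) r1.2 ht htT i
    refine r2.trans (le_of_eq ?_)
    field_simp
    ring
  refine (measure_mono_ae hsub).trans ?_
  refine (measure_union_le _ _).trans ?_
  have h5 : P (qR τ c ω) ⟨0, []⟩ (⋃ i, E3 i) ≤ ENNReal.ofReal (ε' / 3) := by
    refine (measure_iUnion_le _).trans ?_
    rw [tsum_fintype]
    refine (Finset.sum_le_sum fun i _ => hE3m i).trans ?_
    rw [Finset.sum_const, Finset.card_univ, Fintype.card_fin, nsmul_eq_mul]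
    have e3 : (d : ℝ≥0∞) = ENNReal.ofReal d := by simp
    rw [e3, ← ENNReal.ofReal_mul (Nat.cast_nonneg _)]
    refine ENNReal.ofReal_le_ofReal ?_
    rw [hη', mul_div_assoc', div_le_div_iff₀ (by positivity) (by norm_num)]
    nlinarith
  refine (add_le_add ((measure_union_le _ _).trans (add_le_add b1 b2)) h5).trans ?_
  refine le_trans (le_of_eq ?_) hεε
  rw [← ENNReal.ofReal_add (by positivity) (by positivity),
    ← ENNReal.ofReal_add (by positivity) (by positivity)]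
  congr 1
  ring

end Pool.Agent.H979.QIP
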